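import Pool.Agent.Zagier.Core

/-!
# Values of the single valued polylogarithm
-/

open scoped TensorProduct

namespace Pool.Agent.Zagier

universe u

section reg

variable {F : Type u} [Field F]

theorem reg_br (n : ℕ) (σ : F →+* ℂ) (x : F) : reg n σ (br x) = calL n ((σ x : ℂ) : OnePoint ℂ) := by
  rw [reg, extend_br]; rfl

theorem calL_of_le {n : ℕ} {z : ℂ} (h : ‖z‖ ≤ 1) : calL n (z : OnePoint ℂ) = calLdisc n z := by
  change (if ‖z‖ ≤ 1 then calLdisc n z else (-1) ^ (n - 1) * calLdisc n z⁻¹) = _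
  rw [if_pos h]

theorem calL_of_gt {n : ℕ} {z : ℂ} (h : 1 < ‖z‖) :
    calL n (z : OnePoint ℂ) = (-1) ^ (n - 1) * calLdisc n z⁻¹ := by
  change (if ‖z‖ ≤ 1 then calLdisc n z else (-1) ^ (n - 1) * calLdisc n z⁻¹) = _
  rw [if_neg (not_le.2 h)]

/-- for `|z| ≠ 1` the inversion formula -/
theorem calL_inv {n : ℕ} {z : ℂ} (h : ‖z‖ < 1) (h0 : z ≠ 0) :
    calL n ((z⁻¹ : ℂ) : OnePoint ℂ) = (-1) ^ (n - 1) * calLdisc n z := by
  rw [calL_of_gt, inv_inv]
  rw [norm_inv]
  exact (one_lt_inv₀ (norm_pos_iff.2 h0)).2 h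

theorem beta_zero : beta 0 = 1 := by simp [beta]

theorem beta_one : beta 1 = -1 := by norm_num [beta]

theorem beta_two : beta 2 = 1 / 3 := by norm_num [beta, Nat.factorial]

theorem beta_three : beta 3 = 0 := by
  rw [beta, bernoulli_eq_bernoulli'_of_ne_one (by norm_num), bernoulli'_three]; simp

theorem beta_four : beta 4 = -1 / 45 := by
  rw [beta, bernoulli_eq_bernoulli'_of_ne_one (by norm_num), bernoulli'_four]
  norm_num [Nat.factorial]

theorem beta_five : beta 5 = 0 := by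
  rw [beta, bernoulli_eq_zero_of_odd (by decide) (by norm_num)]
  simp

/-- the real polylogarithm series -/
noncomputable def Lr (m : ℕ) (x : ℝ) : ℝ := ∑' k : ℕ, x ^ (k + 1) / ((k : ℝ) + 1) ^ m

theorem Li_ofReal (m : ℕ) (x : ℝ) : Li m (x : ℂ) = ((Lr m x : ℝ) : ℂ) := by
  rw [Li, Lr, Complex.ofReal_tsum]
  congr 1
  ext k
  push_cast
  rfl

end reg

end Pool.Agent.Zagier
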