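import Pool.Agent.Zagier.Mono
import Pool.Agent.Zagier.AnalyticBase

/-!
# Values of the single valued polylogarithm and the final determinant argument
-/

open scoped TensorProduct

namespace Pool.Agent.Zagier

universe u

section reg

variable {F : Type u} [Field F]

theorem polySum_ofReal (n : ℕ) (x : ℝ) : polySum n (x : ℂ) =
    ((∑ k ∈ Finset.range n, beta k * Real.log |x| ^ k * Lr (n - k) x : ℝ) : ℂ) := by
  rw [polySum]
  push_cast
  refine Finset.sum_congr rfl fun k _ => ?_
  rw [Li_ofReal, Complex.norm_real, Real.norm_eq_abs]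

/-- the value of `𝓛₅` at a real point of the unit disc -/
noncomputable def f5 (x : ℝ) : ℝ :=
  Lr 5 x - Real.log |x| * Lr 4 x + Real.log |x| ^ 2 / 3 * Lr 3 x -
    Real.log |x| ^ 4 / 45 * Lr 1 x

theorem calLdisc_five_ofReal (x : ℝ) : calLdisc 5 (x : ℂ) = f5 x := by
  rw [calLdisc, if_pos (by decide), polySum_ofReal, Complex.ofReal_re]
  simp only [Finset.sum_range_succ, Finset.sum_range_zero, beta_zero, beta_one, beta_two,
    beta_three, beta_four, f5]
  ring

theorem calL_one (n : ℕ) (hn : Odd n) : calL n (((1 : ℂ)) : OnePoint ℂ) = Lr n 1 := by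
  rw [calL_of_le (by simp), calLdisc, if_pos hn]
  have h := polySum_ofReal n 1
  rw [Complex.ofReal_one] at h
  rw [h, Complex.ofReal_re]
  obtain ⟨m, rfl⟩ : ∃ m, n = m + 1 := ⟨n - 1, by have := hn.pos; omega⟩
  rw [Finset.sum_range_succ']
  simp [beta_zero]

theorem Lr_one_pos (n : ℕ) (hn : 2 ≤ n) : 0 < Lr n 1 := by
  have hs : Summable fun k : ℕ => (1 : ℝ) ^ (k + 1) / ((k : ℝ) + 1) ^ n := by
    have h := (Real.summable_one_div_nat_pow (p := n)).2 (by omega)
    have h2 := (summable_nat_add_iff 1).2 h
    refine h2.congr fun k => ?_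
    push_cast
    simp
  rw [Lr]
  refine hs.tsum_pos (fun k => by positivity) 0 (by norm_num)

end reg

/-! ### determinants -/

open NumberField

theorem regulator_of_two {F : Type u} [Field F] [NumberField F] {n : ℕ} (hn : Odd n)
    (hF : Fintype.card (InfinitePlace F) = 2) (v w : InfinitePlace F) (hvw : v ≠ w)
    (a b : ZP1 F) (ha : a ∈ kerDelta n F) (hb : b ∈ kerDelta n F)
    (hdet : reg n v.embedding a * reg n w.embedding b -
      reg n w.embedding a * reg n v.embedding b ≠ 0) : RegulatorNonvanishing n F := by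
  classical
  let v' : Places n F := ⟨v, Or.inl hn⟩
  let w' : Places n F := ⟨w, Or.inl hn⟩
  have hne : v' ≠ w' := fun h => hvw (congrArg Subtype.val h)
  have hcard : Fintype.card (Places n F) = 2 := by
    rw [← hF]
    exact Fintype.card_congr (Equiv.subtypeUnivEquiv fun _ => Or.inl hn)
  have hinj : Function.Injective ![v', w'] := by
    intro i j hij
    fin_cases i <;> fin_cases j <;> simp_all
  have hbij : Function.Bijective ![v', w'] := by
    rw [Fintype.bijective_iff_injective_and_card]
    exact ⟨hinj, by rw [hcard]; rfl⟩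
  let e : Fin 2 ≃ Places n F := Equiv.ofBijective _ hbij
  have he0 : e 0 = v' := rfl
  have he1 : e 1 = w' := rfl
  refine ⟨fun i => if i = v' then a else b, fun i => ?_, ?_⟩
  · by_cases h : i = v' <;> simp [h, ha, hb]
  · rw [← Matrix.det_submatrix_equiv_self e, Matrix.det_fin_two]
    simp only [Matrix.submatrix_apply, Matrix.of_apply, he0, he1, if_true, if_neg hne.symm,
      reg_apply]
    exact hdet

end Pool.Agent.Zagier
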