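import Mathlib

/-!
# Fixed point complex ball arithmetic
-/

namespace Pool.Agent.Zagier

/-- the scale of the fixed point numbers -/
def scl : ℕ := 10 ^ 40

theorem scl_pos : (0 : ℝ) < (scl : ℝ) := by norm_num [scl]

/-- a box in the complex plane: centre `(x + iy)/scl`, radius `e/scl` -/
structure CB where
  /-- real part of the centre -/
  x : ℤ
  /-- imaginary part of the centre -/
  y : ℤ
  /-- error bound -/
  e : ℕ

/-- `z` lies in the box `B` -/
def CB.Has (B : CB) (z : ℂ) : Prop :=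
  |z.re * scl - B.x| ≤ B.e ∧ |z.im * scl - B.y| ≤ B.e

/-- sum -/
def CB.add (a b : CB) : CB := ⟨a.x + b.x, a.y + b.y, a.e + b.e⟩

/-- multiple -/
def CB.smul (n : ℤ) (a : CB) : CB := ⟨n * a.x, n * a.y, n.natAbs * a.e⟩

/-- product -/
def CB.mul (a b : CB) : CB :=
  ⟨(a.x * b.x - a.y * b.y) / (scl : ℤ), (a.x * b.y + a.y * b.x) / (scl : ℤ),
    ((a.x.natAbs + a.y.natAbs) * b.e + (b.x.natAbs + b.y.natAbs) * a.e + 2 * (a.e * b.e)) / scl
      + 2⟩

/-- division by a natural number -/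
def CB.divN (a : CB) (m : ℕ) : CB := ⟨a.x / (m : ℤ), a.y / (m : ℤ), a.e / m + 2⟩

/-- complex conjugate -/
def CB.conj (a : CB) : CB := ⟨a.x, -a.y, a.e⟩

/-- the number `1` -/
def CB.one : CB := ⟨scl, 0, 0⟩

/-- the number `0` -/
def CB.zero : CB := ⟨0, 0, 0⟩

theorem CB.has_one : CB.one.Has 1 := by simp [CB.Has, CB.one]

theorem CB.has_zero : CB.zero.Has 0 := by simp [CB.Has, CB.zero]

theorem CB.Has.mono {B : CB} {z : ℂ} (h : B.Has z) {e : ℕ} (he : B.e ≤ e) :
    CB.Has ⟨B.x, B.y, e⟩ z := by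
  have he' : (B.e : ℝ) ≤ e := by exact_mod_cast he
  exact ⟨h.1.trans he', h.2.trans he'⟩

theorem CB.Has.add {a b : CB} {z w : ℂ} (hz : a.Has z) (hw : b.Has w) : (a.add b).Has (z + w) := by
  constructor
  · have e1 : (z + w).re * scl - ((a.add b).x : ℤ) = (z.re * scl - a.x) + (w.re * scl - b.x) := by
      simp only [CB.add, Complex.add_re]; push_cast; ring
    rw [e1]
    refine (abs_add_le _ _).trans ?_
    simp only [CB.add]; push_cast
    exact add_le_add hz.1 hw.1
  · have e1 : (z + w).im * scl - ((a.add b).y : ℤ) = (z.im * scl - a.y) + (w.im * scl - b.y) := by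
      simp only [CB.add, Complex.add_im]; push_cast; ring
    rw [e1]
    refine (abs_add_le _ _).trans ?_
    simp only [CB.add]; push_cast
    exact add_le_add hz.2 hw.2

theorem natAbs_cast (n : ℤ) : ((n.natAbs : ℕ) : ℝ) = |(n : ℝ)| := by
  rw [Nat.cast_natAbs, Int.cast_abs]

theorem CB.Has.smul {a : CB} {z : ℂ} (n : ℤ) (hz : a.Has z) : (a.smul n).Has (n * z) := by
  have h1 : ((n : ℂ) * z).re = n * z.re := by simp
  have h2 : ((n : ℂ) * z).im = n * z.im := by simp
  constructor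
  · have e1 : ((n : ℂ) * z).re * scl - ((a.smul n).x : ℤ) = n * (z.re * scl - a.x) := by
      rw [h1]; simp only [CB.smul]; push_cast; ring
    rw [e1, abs_mul]
    simp only [CB.smul]
    rw [Nat.cast_mul, natAbs_cast]
    exact mul_le_mul_of_nonneg_left hz.1 (abs_nonneg _)
  · have e1 : ((n : ℂ) * z).im * scl - ((a.smul n).y : ℤ) = n * (z.im * scl - a.y) := by
      rw [h2]; simp only [CB.smul]; push_cast; ring
    rw [e1, abs_mul]
    simp only [CB.smul]
    rw [Nat.cast_mul, natAbs_cast]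
    exact mul_le_mul_of_nonneg_left hz.2 (abs_nonneg _)

theorem CB.Has.conj {a : CB} {z : ℂ} (hz : a.Has z) :
    a.conj.Has ((starRingEnd ℂ) z) := by
  constructor
  · simpa [CB.conj] using hz.1
  · have e1 : ((starRingEnd ℂ) z).im * scl - ((a.conj).y : ℤ) = -(z.im * scl - a.y) := by
      simp [CB.conj]; ring
    rw [e1, abs_neg]
    exact hz.2

theorem floor_err (n : ℤ) (m : ℕ) (hm : 0 < m) : |((n / (m : ℤ) : ℤ) : ℝ) - n / m| ≤ 1 := by
  have hm' : (0 : ℝ) < m := by exact_mod_cast hm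
  have h1 := Int.emod_add_mul_ediv n (m : ℤ)
  have h2 : 0 ≤ n % (m : ℤ) := Int.emod_nonneg _ (by omega)
  have h3 : n % (m : ℤ) < m := Int.emod_lt_of_pos _ (by omega)
  have h4 : (n : ℝ) = ((n % (m : ℤ) : ℤ) : ℝ) + m * ((n / (m : ℤ) : ℤ) : ℝ) := by
    exact_mod_cast h1.symm
  have h2' : (0 : ℝ) ≤ ((n % (m : ℤ) : ℤ) : ℝ) := by exact_mod_cast h2
  have h3' : ((n % (m : ℤ) : ℤ) : ℝ) < m := by exact_mod_cast h3
  rw [abs_le]
  constructor
  · rw [h4, add_div, mul_div_cancel_left₀ _ hm'.ne']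
    have : ((n % (m : ℤ) : ℤ) : ℝ) / m ≤ 1 := by rw [div_le_one hm']; exact h3'.le
    linarith
  · rw [h4, add_div, mul_div_cancel_left₀ _ hm'.ne']
    have : 0 ≤ ((n % (m : ℤ) : ℤ) : ℝ) / m := div_nonneg h2' hm'.le
    linarith

theorem nat_div_err (e m : ℕ) (hm : 0 < m) : (e : ℝ) / m ≤ ((e / m : ℕ) : ℝ) + 1 := by
  have hm' : (0 : ℝ) < m := by exact_mod_cast hm
  rw [div_le_iff₀ hm']
  have h1 := Nat.lt_succ_iff.1 (Nat.lt_succ_of_le (Nat.le_of_lt_succ
    (Nat.lt_succ_of_le (Nat.div_add_mod e m).symm.le)))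
  have h2 := Nat.mod_lt e hm
  have h3 : (e : ℝ) ≤ m * ((e / m : ℕ) : ℝ) + ((e % m : ℕ) : ℝ) := by exact_mod_cast h1
  have h4 : ((e % m : ℕ) : ℝ) < m := by exact_mod_cast h2
  nlinarith

theorem CB.Has.divN {a : CB} {z : ℂ} (m : ℕ) (hm : 0 < m) (hz : a.Has z) :
    (a.divN m).Has (z / m) := by
  have hm' : (0 : ℝ) < m := by exact_mod_cast hm
  have h1 : (z / (m : ℂ)).re = z.re / m := by
    have : (z / (m : ℂ)) = z / ((m : ℝ) : ℂ) := by push_cast; rfl
    rw [this, Complex.div_ofReal_re]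
  have h2 : (z / (m : ℂ)).im = z.im / m := by
    have : (z / (m : ℂ)) = z / ((m : ℝ) : ℂ) := by push_cast; rfl
    rw [this, Complex.div_ofReal_im]
  have h3 : (a.e : ℝ) / m + 1 ≤ ((a.e / m + 2 : ℕ) : ℝ) := by
    have := nat_div_err a.e m hm
    push_cast
    linarith
  constructor
  · have e1 : (z / (m : ℂ)).re * scl - ((a.divN m).x : ℤ) =
        (z.re * scl - a.x) / m - (((a.x / (m : ℤ) : ℤ) : ℝ) - a.x / m) := by
      rw [h1]; simp only [CB.divN]; field_simp; ring
    rw [e1]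
    refine (abs_sub _ _).trans (le_trans (add_le_add ?_ (floor_err _ _ hm)) h3)
    rw [abs_div, abs_of_pos hm']
    exact div_le_div_of_nonneg_right hz.1 hm'.le
  · have e1 : (z / (m : ℂ)).im * scl - ((a.divN m).y : ℤ) =
        (z.im * scl - a.y) / m - (((a.y / (m : ℤ) : ℤ) : ℝ) - a.y / m) := by
      rw [h2]; simp only [CB.divN]; field_simp; ring
    rw [e1]
    refine (abs_sub _ _).trans (le_trans (add_le_add ?_ (floor_err _ _ hm)) h3)
    rw [abs_div, abs_of_pos hm']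
    exact div_le_div_of_nonneg_right hz.2 hm'.le

theorem mul_err {a b x y e f : ℝ} (ha : |a - x| ≤ e) (hb : |b - y| ≤ f) :
    |a * b - x * y| ≤ |x| * f + |y| * e + e * f := by
  have he : 0 ≤ e := (abs_nonneg _).trans ha
  have h1 : a * b - x * y = x * (b - y) + y * (a - x) + (a - x) * (b - y) := by ring
  rw [h1]
  refine (abs_add_le _ _).trans (add_le_add ((abs_add_le _ _).trans (add_le_add ?_ ?_)) ?_)
  · rw [abs_mul]; exact mul_le_mul_of_nonneg_left hb (abs_nonneg _)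
  · rw [abs_mul]; exact mul_le_mul_of_nonneg_left ha (abs_nonneg _)
  · rw [abs_mul]; exact mul_le_mul ha hb (abs_nonneg _) he

theorem CB.Has.mul {a b : CB} {z w : ℂ} (hz : a.Has z) (hw : b.Has w) :
    (a.mul b).Has (z * w) := by
  have hs := scl_pos
  have hsn : 0 < scl := by norm_num [scl]
  set M : ℕ := (a.x.natAbs + a.y.natAbs) * b.e + (b.x.natAbs + b.y.natAbs) * a.e +
    2 * (a.e * b.e) with hM
  have hMr : (M : ℝ) = (|(a.x : ℝ)| + |(a.y : ℝ)|) * b.e + (|(b.x : ℝ)| + |(b.y : ℝ)|) * a.e +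
      2 * (a.e * b.e) := by
    rw [hM]; push_cast
    simp only [Nat.cast_natAbs, Int.cast_abs]
  have h3 : (M : ℝ) / scl + 1 ≤ ((M / scl + 2 : ℕ) : ℝ) := by
    have := nat_div_err M scl hsn
    push_cast
    linarith
  constructor
  · have e1 : (z * w).re * scl - ((a.mul b).x : ℤ) =
        (((z.re * scl) * (w.re * scl) - a.x * b.x) - ((z.im * scl) * (w.im * scl) - a.y * b.y)) /
          scl - ((((a.x * b.x - a.y * b.y) / (scl : ℤ) : ℤ) : ℝ) -
            ((a.x * b.x - a.y * b.y : ℤ) : ℝ) / scl) := by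
      simp only [CB.mul, Complex.mul_re]
      push_cast
      field_simp
      ring
    rw [e1]
    refine (abs_sub _ _).trans (le_trans (add_le_add ?_ (floor_err _ _ hsn)) h3)
    rw [abs_div, abs_of_pos hs]
    refine div_le_div_of_nonneg_right ?_ hs.le
    refine (abs_sub _ _).trans ((add_le_add (mul_err hz.1 hw.1) (mul_err hz.2 hw.2)).trans
      (le_of_eq ?_))
    rw [hMr]; ring
  · have e1 : (z * w).im * scl - ((a.mul b).y : ℤ) =
        (((z.re * scl) * (w.im * scl) - a.x * b.y) + ((z.im * scl) * (w.re * scl) - a.y * b.x)) /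
          scl - ((((a.x * b.y + a.y * b.x) / (scl : ℤ) : ℤ) : ℝ) -
            ((a.x * b.y + a.y * b.x : ℤ) : ℝ) / scl) := by
      simp only [CB.mul, Complex.mul_im]
      push_cast
      field_simp
      ring
    rw [e1]
    refine (abs_sub _ _).trans (le_trans (add_le_add ?_ (floor_err _ _ hsn)) h3)
    rw [abs_div, abs_of_pos hs]
    refine div_le_div_of_nonneg_right ?_ hs.le
    refine (abs_add_le _ _).trans ((add_le_add (mul_err hz.1 hw.2) (mul_err hz.2 hw.1)).trans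
      (le_of_eq ?_))
    rw [hMr]; ring

/-- powers -/
def CB.pow (a : CB) : ℕ → CB
  | 0 => CB.one
  | n + 1 => (CB.pow a n).mul a

theorem CB.Has.pow {a : CB} {z : ℂ} (hz : a.Has z) (n : ℕ) : (a.pow n).Has (z ^ n) := by
  induction n with
  | zero => simpa [CB.pow] using CB.has_one
  | succ n ih => rw [pow_succ]; exact ih.mul hz

end Pool.Agent.Zagier
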