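import Pool.Agent.Zagier.Kummer

/-!
# Certificates for relations between monomials in units
-/

open scoped TensorProduct

namespace Pool.Agent.Zagier

universe u

section

variable {G : Type} [AddCommGroup G] {K : Type u} [Field K] (ev : G →+ Additive Kˣ)

/-- value of a formal monomial -/
def val (g : G) : K := ((ev g).toMul : Kˣ)

theorem val_ne (g : G) : val ev g ≠ 0 := Units.ne_zero _

theorem val_zero : val ev 0 = 1 := by simp [val]

theorem val_add (g h : G) : val ev (g + h) = val ev g * val ev h := by simp [val]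

theorem val_neg (g : G) : val ev (-g) = (val ev g)⁻¹ := by simp [val]

theorem val_zsmul (n : ℤ) (g : G) : val ev (n • g) = val ev g ^ n := by simp [val]

/-- value of a formal combination of monomials -/
noncomputable def evL (L : List (ℤ × G)) : ZP1 K := (L.map fun p => p.1 • br (val ev p.2)).sum

/-- scaling of formal combinations -/
def scaleL (n : ℤ) (L : List (ℤ × G)) : List (ℤ × G) := L.map fun p => (n * p.1, p.2)

/-- applying a map to the monomials -/
def mapL (nf : G → G) (L : List (ℤ × G)) : List (ℤ × G) := L.map fun p => (p.1, nf p.2)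

theorem evL_nil : evL ev [] = 0 := by simp [evL]

theorem evL_cons (p : ℤ × G) (L : List (ℤ × G)) :
    evL ev (p :: L) = p.1 • br (val ev p.2) + evL ev L := by simp [evL]

theorem evL_append (L L' : List (ℤ × G)) : evL ev (L ++ L') = evL ev L + evL ev L' := by
  simp [evL]

theorem evL_scale (n : ℤ) (L : List (ℤ × G)) : evL ev (scaleL n L) = n • evL ev L := by
  induction L with
  | nil => simp [evL, scaleL]
  | cons p L ih =>
    have : scaleL n (p :: L) = (n * p.1, p.2) :: scaleL n L := rfl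
    rw [this, evL_cons, evL_cons, ih, smul_add, mul_smul]

theorem evL_mapL (nf : G → G) (hnf : ∀ g, ev (nf g) = ev g) (L : List (ℤ × G)) :
    evL ev (mapL nf L) = evL ev L := by
  induction L with
  | nil => simp [evL, mapL]
  | cons p L ih =>
    have : mapL nf (p :: L) = (p.1, nf p.2) :: mapL nf L := rfl
    rw [this, evL_cons, evL_cons, ih]
    simp only [val, hnf]

variable [DecidableEq G]

/-- coefficient of a monomial -/
def cf (L : List (ℤ × G)) (g : G) : ℤ := (L.map fun p => if p.2 = g then p.1 else 0).sum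

theorem evL_eq_sum (L : List (ℤ × G)) (S : Finset G) (h : ∀ p ∈ L, p.2 ∈ S) :
    evL ev L = ∑ g ∈ S, cf L g • br (val ev g) := by
  induction L with
  | nil => simp [evL, cf]
  | cons p L ih =>
    rw [evL_cons, ih fun p hp => h p (List.mem_cons_of_mem _ hp)]
    have : ∀ g, cf (p :: L) g = (if p.2 = g then p.1 else 0) + cf L g := fun g => by simp [cf]
    simp only [this, add_smul, Finset.sum_add_distrib, ite_smul, zero_smul, Finset.sum_ite_eq]
    rw [if_pos (h p (by simp))]

/-- formal equality of two combinations -/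
def sameL (nf : G → G) (L L' : List (ℤ × G)) : Bool :=
  (mapL nf L ++ mapL nf L').all fun p => cf (mapL nf L) p.2 == cf (mapL nf L') p.2

theorem evL_congr (nf : G → G) (hnf : ∀ g, ev (nf g) = ev g) {L L' : List (ℤ × G)}
    (h : sameL nf L L' = true) : evL ev L = evL ev L' := by
  rw [← evL_mapL ev nf hnf L, ← evL_mapL ev nf hnf L']
  set A := mapL nf L
  set B := mapL nf L'
  have h1 : ∀ p ∈ A ++ B, cf A p.2 = cf B p.2 := by
    intro p hp
    have := List.all_eq_true.1 h p hp
    simpa using this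
  set S : Finset G := ((A ++ B).map Prod.snd).toFinset with hS
  have hA : ∀ p ∈ A, p.2 ∈ S := fun p hp => by
    rw [hS, List.mem_toFinset]
    exact List.mem_map_of_mem (List.mem_append_left _ hp)
  have hB : ∀ p ∈ B, p.2 ∈ S := fun p hp => by
    rw [hS, List.mem_toFinset]
    exact List.mem_map_of_mem (List.mem_append_right _ hp)
  rw [evL_eq_sum ev A S hA, evL_eq_sum ev B S hB]
  refine Finset.sum_congr rfl fun g hg => ?_
  rw [hS, List.mem_toFinset, List.mem_map] at hg
  obtain ⟨p, hp, rfl⟩ := hg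
  rw [h1 p hp]

end

/-- the four monomials `x, y, 1-x, 1-y` -/
structure Pt (G : Type) where
  /-- `x` -/
  x : G
  /-- `y` -/
  y : G
  /-- `1-x` -/
  x' : G
  /-- `1-y` -/
  y' : G

section

variable {G : Type} [AddCommGroup G] {K : Type u} [Field K] (ev : G →+ Additive Kˣ)

/-- monomial of a term -/
def Term.g {q : ℕ} (t : Term q) (m1 : G) (P : Pt G) : G :=
  (if t.s then 0 else m1) + (t.e 0 • P.x + t.e 1 • P.y + t.e 2 • P.x' + t.e 3 • P.y')

/-- the formal combination of a family -/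
def famL {q : ℕ} (T : List (Term q)) (m1 : G) (P : Pt G) : List (ℤ × G) :=
  T.map fun t => (t.c, t.g m1 P)

theorem fam_eq_evL {q : ℕ} (T : List (Term q)) (m1 : G) (hm1 : val ev m1 = -1) (P : Pt G)
    (hx : val ev P.x + val ev P.x' = 1) (hy : val ev P.y + val ev P.y' = 1) :
    fam T [] (val ev P.x) (val ev P.y) = evL ev (famL T m1 P) := by
  have h1 : 1 - val ev P.x = val ev P.x' := by rw [← hx]; ring
  have h2 : 1 - val ev P.y = val ev P.y' := by rw [← hy]; ring
  rw [fam, evL, famL, List.map_map]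
  congr 1
  refine List.map_congr_left fun t _ => ?_
  simp only [Function.comp_apply, Term.co, List.map_nil, List.prod_nil, mul_one]
  congr 2
  rw [Term.arg_eq, h1, h2, Term.g, val_add, val_add, val_add, val_add, val_zsmul, val_zsmul,
    val_zsmul, val_zsmul]
  congr 1
  cases t.s
  · simp [sg, hm1]
  · simp [sg, val_zero]

/-- relation up to torsion in `𝓑_m` -/
def RS (m : ℕ) (L : List (ℤ × G)) : Prop := InSat (Rel m K) (evL ev L)

variable {ev}

theorem RS.append {m : ℕ} {L L' : List (ℤ × G)} (h : RS ev m L) (h' : RS ev m L') :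
    RS ev m (L ++ L') := by
  unfold RS; rw [evL_append]; exact h.add h'

theorem RS.scale {m : ℕ} {L : List (ℤ × G)} (n : ℤ) (h : RS ev m L) :
    RS ev m (scaleL n L) := by
  unfold RS; rw [evL_scale]; exact h.zsmul n

theorem RS.nil {m : ℕ} : RS ev m ([] : List (ℤ × G)) := by
  unfold RS; rw [evL_nil]; exact InSat.zero

theorem RS.kummerFour {m1 : G} (hm1 : val ev m1 = -1) (P : Pt G)
    (hx : val ev P.x + val ev P.x' = 1) (hy : val ev P.y + val ev P.y' = 1) :
    RS ev 4 (famL K4 m1 P) := by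
  unfold RS
  rw [← fam_eq_evL ev K4 m1 hm1 P hx hy]
  refine K4_inSat K _ _ (val_ne ev _) ?_ (val_ne ev _) ?_
  · intro h; rw [h] at hx; exact val_ne ev P.x' (by simpa using hx)
  · intro h; rw [h] at hy; exact val_ne ev P.y' (by simpa using hy)

theorem RS.kummerFive {m1 : G} (hm1 : val ev m1 = -1) (P : Pt G)
    (hx : val ev P.x + val ev P.x' = 1) (hy : val ev P.y + val ev P.y' = 1) :
    RS ev 5 ((-18, 0) :: famL K5 m1 P) := by
  unfold RS
  rw [evL_cons, ← fam_eq_evL ev K5 m1 hm1 P hx hy, val_zero]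
  have h := K5_inSat K (val ev P.x) (val ev P.y) (val_ne ev _) ?_ (val_ne ev _) ?_
  · rw [neg_smul, neg_add_eq_sub]; exact h
  · intro h; rw [h] at hx; exact val_ne ev P.x' (by simpa using hx)
  · intro h; rw [h] at hy; exact val_ne ev P.y' (by simpa using hy)

/-- inversion -/
theorem RS.inv {m : ℕ} (hm : 2 ≤ m) (g : G) : RS ev m [(1, g), ((-1) ^ m, -g)] := by
  unfold RS
  have h := inv_inSat m hm K (val ev g) (val_ne ev g)
  rw [evL_cons, evL_cons, evL_nil, val_neg, one_smul, add_zero]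
  exact h

/-- distribution -/
theorem RS.dist {m : ℕ} (hm : 2 ≤ m) {m1 : G} (hm1 : val ev m1 = -1) (g : G) :
    RS ev m [(1, (2 : ℤ) • g), (-2 ^ (m - 1), g), (-2 ^ (m - 1), m1 + g)] := by
  unfold RS
  have h := dist_inSat m hm K (val ev g) (val_ne ev g)
  rw [evL_cons, evL_cons, evL_cons, evL_nil, val_zsmul, val_add, hm1]
  convert h using 1
  simp only [one_smul, neg_smul, smul_add, neg_one_mul, add_zero]
  rw [show ((2 : ℤ)) = ((2 : ℕ) : ℤ) from rfl, zpow_natCast]
  push_cast
  abel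

/-- `{1} = 0` for even `m` -/
theorem RS.one {m : ℕ} (hm : 2 ≤ m) (he : Even m) : RS ev m [(1, 0)] := by
  unfold RS
  rw [evL_cons, evL_nil, val_zero, one_smul, add_zero]
  exact one_inSat hm he K

theorem RS.negOne {m : ℕ} (hm : 2 ≤ m) (he : Even m) {m1 : G} (hm1 : val ev m1 = -1) :
    RS ev m [(1, m1)] := by
  unfold RS
  rw [evL_cons, evL_nil, hm1, one_smul, add_zero]
  exact neg_one_inSat hm he K

theorem RS.congr [DecidableEq G] {m : ℕ} {L L' : List (ℤ × G)} (nf : G → G)
    (hnf : ∀ g, ev (nf g) = ev g) (n : ℤ) (hn : n ≠ 0)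
    (h : sameL nf L (scaleL n L') = true) (hL : RS ev m L) : RS ev m L' := by
  unfold RS at hL
  rw [evL_congr ev nf hnf h, evL_scale] at hL
  exact hL.of_zsmul hn

/-! ### the last step -/

/-- contraction of a formal combination with a linear form -/
def contractL (lam : G → ℤ) (L : List (ℤ × G)) : List (ℤ × G) := L.map fun p => (p.1 * lam p.2, p.2)

/-- If `g ≡ ∑ λ_j(g) b_j` modulo torsion, and all contractions of `L` vanish in `𝓑_m`, then
`δ_{m+1}` of `L` is torsion. -/
theorem isTor_delta_evL {ι : Type} [Fintype ι] (m : ℕ) (nf : G → G)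
    (hnf : ∀ g, ev (nf g) = ev g) (lam : ι → G → ℤ) (b : ι → G)
    (w : ℕ) (hw : 0 < w) (L : List (ℤ × G))
    (hlam : ∀ p ∈ L, nf (w • (p.2 - ∑ j, lam j p.2 • b j)) = 0)
    (h : ∀ j, RS ev m (contractL (lam j) L)) :
    IsTor (deltaOf (Rel m K) (evL ev L)) := by
  have key : ∀ p ∈ L, ∃ τ : (ZP1 K ⧸ Rel m K) ⊗[ℤ] Additive Kˣ, IsTor τ ∧
      deltaOf (Rel m K) (p.1 • br (val ev p.2)) = τ + ∑ j,
        (QuotientAddGroup.mk ((p.1 * lam j p.2) • br (val ev p.2)) : ZP1 K ⧸ Rel m K) ⊗ₜ[ℤ]
          ev (b j) := by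
    intro p hp
    have h1 := deltaOf_br (Rel m K) ((ev p.2).toMul)
    have h2 : ev p.2 = ev (p.2 - ∑ j, lam j p.2 • b j) + ∑ j, lam j p.2 • ev (b j) := by
      rw [map_sub, map_sum]
      simp only [map_zsmul]
      abel
    refine ⟨p.1 • ((QuotientAddGroup.mk (br (val ev p.2)) : ZP1 K ⧸ Rel m K) ⊗ₜ[ℤ]
      ev (p.2 - ∑ j, lam j p.2 • b j)), ?_, ?_⟩
    · refine (IsTor.tmul_right _ ?_).zsmul _
      exact ⟨w, hw, by rw [← map_nsmul, ← hnf, hlam p hp, map_zero]⟩
    · rw [map_zsmul]
      have h3 : deltaOf (Rel m K) (br (val ev p.2)) =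
        (QuotientAddGroup.mk (br (val ev p.2)) : ZP1 K ⧸ Rel m K) ⊗ₜ[ℤ] ev p.2 := h1
      rw [h3]
      conv_lhs => rw [h2]
      rw [TensorProduct.tmul_add, smul_add, TensorProduct.tmul_sum, Finset.smul_sum]
      congr 1
      refine Finset.sum_congr rfl fun j _ => ?_
      rw [tmul_zsmul', smul_smul, QuotientAddGroup.mk_zsmul, zsmul_tmul']
  have main : ∃ τ : (ZP1 K ⧸ Rel m K) ⊗[ℤ] Additive Kˣ, IsTor τ ∧
      deltaOf (Rel m K) (evL ev L) = τ + ∑ j,
        (QuotientAddGroup.mk (evL ev (contractL (lam j) L)) : ZP1 K ⧸ Rel m K) ⊗ₜ[ℤ]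
          ev (b j) := by
    clear h hlam
    induction L with
    | nil => exact ⟨0, IsTor.zero, by simp [evL_nil, contractL]⟩
    | cons p L ih =>
      obtain ⟨τ, hτ, h1⟩ := ih fun p hp => key p (List.mem_cons_of_mem _ hp)
      obtain ⟨τ', hτ', h1'⟩ := key p (by simp)
      refine ⟨τ' + τ, hτ'.add hτ, ?_⟩
      rw [evL_cons, map_add, h1, h1']
      have : ∀ j, evL ev (contractL (lam j) (p :: L)) =
          (p.1 * lam j p.2) • br (val ev p.2) + evL ev (contractL (lam j) L) := fun j => by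
        have : contractL (lam j) (p :: L) = (p.1 * lam j p.2, p.2) :: contractL (lam j) L := rfl
        rw [this, evL_cons]
      simp only [this, QuotientAddGroup.mk_add, TensorProduct.add_tmul, Finset.sum_add_distrib]
      abel
  obtain ⟨τ, hτ, h1⟩ := main
  rw [h1]
  refine hτ.add (IsTor.sum _ _ fun j _ => ?_)
  exact (h j).isTor_mk.tmul_left _

theorem exists_mem_kerDelta {ι : Type} [Fintype ι] {n m : ℕ} (hn : n = m + 1) (hm : 2 ≤ m)
    (nf : G → G) (hnf : ∀ g, ev (nf g) = ev g) (lam : ι → G → ℤ)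
    (b : ι → G) (w : ℕ) (hw : 0 < w) (L : List (ℤ × G))
    (hlam : ∀ p ∈ L, nf (w • (p.2 - ∑ j, lam j p.2 • b j)) = 0)
    (h : ∀ j, RS ev m (contractL (lam j) L)) :
    ∃ N : ℕ, 0 < N ∧ N • evL ev L ∈ kerDelta n K := by
  subst hn
  obtain ⟨N, hN, h1⟩ := isTor_delta_evL m nf hnf lam b w hw L hlam h
  refine ⟨N, hN, ?_⟩
  rw [mem_kerDelta_iff, map_nsmul]
  exact h1

end

end Pool.Agent.Zagier
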