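import Pool.Agent.Zagier.BallReg
import Pool.Agent.Zagier.Mono

/-!
# Evaluation of the regulator of a formal combination
-/

open scoped TensorProduct

namespace Pool.Agent.Zagier

universe u

/-! ### connection with `reg` -/

section

variable {G : Type} [AddCommGroup G] {F : Type u} [Field F] (ev : G →+ Additive Fˣ)

/-- entries from a formal combination and auxiliary data -/
def mkEnts (ex : G → List ℤ) : List (ℤ × G) → List (Bool × ℕ × ℕ) → List Ent
  | p :: L, a :: A => ⟨p.1, ex p.2, a.1, a.2.1, a.2.2⟩ :: mkEnts ex L A
  | _, _ => []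

theorem reg_eq_regV (n : ℕ) (σ : F →+* ℂ) (ex : G → List ℤ) (us : List ℂ)
    (L : List (ℤ × G)) (hex : ∀ p ∈ L, σ (val ev p.2) = monV us (ex p.2))
    (A : List (Bool × ℕ × ℕ)) (hlen : L.length = A.length) :
    reg n σ (evL ev L) = regV n us (mkEnts ex L A) := by
  induction L generalizing A with
  | nil => simp [evL_nil, mkEnts, regV]
  | cons p L ih =>
    cases A with
    | nil => simp at hlen
    | cons a A =>
      rw [evL_cons, map_add, map_zsmul, reg_br, hex p (by simp),
        ih (fun q hq => hex q (by simp [hq])) A (by simpa using hlen)]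
      simp [mkEnts, regV]

end

end Pool.Agent.Zagier
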