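import Pool.Agent.Zagier.Ball

/-!
# Fast evaluation of partial sums of polylogarithms with natural numbers
-/

namespace Pool.Agent.Zagier

/-- approximate partial sums of the polylogarithm series: the pair of (approximations to)
`z^N` and `∑_{j<N} z^{j+1}/(j+1)^m`, for `z = (zx + i zy)/scl` -/
def liC (m : ℕ) (zx zy : ℤ) : ℕ → (ℤ × ℤ) × (ℤ × ℤ)
  | 0 => (((scl : ℤ), 0), (0, 0))
  | N + 1 =>
    (((((liC m zx zy N).1.1 * zx - (liC m zx zy N).1.2 * zy) / (scl : ℤ)),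
      (((liC m zx zy N).1.1 * zy + (liC m zx zy N).1.2 * zx) / (scl : ℤ))),
     ((liC m zx zy N).2.1 +
        (((liC m zx zy N).1.1 * zx - (liC m zx zy N).1.2 * zy) / (scl : ℤ)) /
          (((N + 1) ^ m : ℕ) : ℤ),
      (liC m zx zy N).2.2 +
        (((liC m zx zy N).1.1 * zy + (liC m zx zy N).1.2 * zx) / (scl : ℤ)) /
          (((N + 1) ^ m : ℕ) : ℤ)))

/-- `10^40` -/
def sclN : ℕ := 10000000000000000000000000000000000000000

/-- the offset `4 · 10^40` -/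
def offN : ℕ := 40000000000000000000000000000000000000000

theorem sclN_eq : sclN = scl := by norm_num [sclN, scl]

theorem offN_eq : offN = 4 * scl := by norm_num [offN, scl]

/-- the loop with natural numbers; all numbers have an offset -/
noncomputable def goN (xp xm yp ym c1 c2 c3 c4 m N : ℕ) :
    ℕ → ℕ → ℕ → ℕ → ℕ → ℕ × ℕ × ℕ × ℕ :=
  Nat.rec (motive := fun _ => ℕ → ℕ → ℕ → ℕ → ℕ → ℕ × ℕ × ℕ × ℕ)
    (fun _ a b sx sy => (a, b, sx, sy))
    (fun _ ih j a b sx sy =>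
      (fun a' b' w =>
        (fun sx' sy' =>
          Bool.rec (motive := fun _ => ℕ × ℕ × ℕ × ℕ) (ih (Nat.succ j) a' b' sx' sy')
            (ih (Nat.succ j) a' b' sx' sy')
            (Nat.ble (Nat.add a' b') (Nat.add sx' sy')))
        (Nat.add sx (Nat.div (Nat.add a' (Nat.sub (Nat.mul offN w) offN)) w))
        (Nat.add sy (Nat.div (Nat.add b' (Nat.sub (Nat.mul offN w) offN)) w)))
      (Nat.div (Nat.sub (Nat.add (Nat.add (Nat.mul a xp) (Nat.mul b ym)) c1)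
        (Nat.add (Nat.add (Nat.mul a xm) (Nat.mul b yp)) c2)) sclN)
      (Nat.div (Nat.sub (Nat.add (Nat.add (Nat.mul a yp) (Nat.mul b xp)) c3)
        (Nat.add (Nat.add (Nat.mul a ym) (Nat.mul b xm)) c4)) sclN)
      (Nat.pow j m)) N

theorem goN_zero (xp xm yp ym c1 c2 c3 c4 m j a b sx sy : ℕ) :
    goN xp xm yp ym c1 c2 c3 c4 m 0 j a b sx sy = (a, b, sx, sy) := rfl

theorem goN_succ (xp xm yp ym c1 c2 c3 c4 m N j a b sx sy a' b' sx' sy' : ℕ)
    (ha : a' = ((a * xp + b * ym + c1) - (a * xm + b * yp + c2)) / scl)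
    (hb : b' = ((a * yp + b * xp + c3) - (a * ym + b * xm + c4)) / scl)
    (hx : sx' = sx + (a' + (offN * j ^ m - offN)) / j ^ m)
    (hy : sy' = sy + (b' + (offN * j ^ m - offN)) / j ^ m) :
    goN xp xm yp ym c1 c2 c3 c4 m (N + 1) j a b sx sy =
      goN xp xm yp ym c1 c2 c3 c4 m N (j + 1) a' b' sx' sy' := by
  have key : ∀ (X : ℕ × ℕ × ℕ × ℕ) (c : Bool),
      Bool.rec (motive := fun _ => ℕ × ℕ × ℕ × ℕ) X X c = X := by
    intro X c; cases c <;> rfl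
  subst hx hy
  rw [← sclN_eq] at ha hb
  subst ha hb
  exact key _ _

/-- the outer loop, in steps of `64` -/
noncomputable def goM (xp xm yp ym c1 c2 c3 c4 m M : ℕ) :
    ℕ → ℕ × ℕ × ℕ × ℕ → ℕ × ℕ × ℕ × ℕ :=
  Nat.rec (motive := fun _ => ℕ → ℕ × ℕ × ℕ × ℕ → ℕ × ℕ × ℕ × ℕ)
    (fun _ s => s)
    (fun _ ih j s =>
      (fun s' => Bool.rec (motive := fun _ => ℕ × ℕ × ℕ × ℕ) (ih (Nat.add j 64) s')
        (ih (Nat.add j 64) s') (Nat.ble s'.1 s'.2.2.1))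
      (goN xp xm yp ym c1 c2 c3 c4 m 64 j s.1 s.2.1 s.2.2.1 s.2.2.2)) M

theorem goM_succ (xp xm yp ym c1 c2 c3 c4 m M j : ℕ) (s : ℕ × ℕ × ℕ × ℕ) :
    goM xp xm yp ym c1 c2 c3 c4 m (M + 1) j s =
      goM xp xm yp ym c1 c2 c3 c4 m M (j + 64)
        (goN xp xm yp ym c1 c2 c3 c4 m 64 j s.1 s.2.1 s.2.2.1 s.2.2.2) := by
  have key : ∀ (X : ℕ × ℕ × ℕ × ℕ) (c : Bool),
      Bool.rec (motive := fun _ => ℕ × ℕ × ℕ × ℕ) X X c = X := by
    intro X c; cases c <;> rfl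
  exact key _ _

/-- both loops -/
noncomputable def goT (xp xm yp ym c1 c2 c3 c4 m N : ℕ) : ℕ × ℕ × ℕ × ℕ :=
  (fun s => goN xp xm yp ym c1 c2 c3 c4 m (N % 64) (64 * (N / 64) + 1) s.1 s.2.1 s.2.2.1 s.2.2.2)
    (goM xp xm yp ym c1 c2 c3 c4 m (N / 64) 1 (sclN + offN, offN, 0, 0))

/-- The sums by the loop with natural numbers. -/
noncomputable def liG (m : ℕ) (zx zy : ℤ) (N : ℕ) : ℤ × ℤ :=
  (fun r : ℕ × ℕ × ℕ × ℕ =>
    ((r.2.2.1 : ℤ) - ((N * offN : ℕ) : ℤ), (r.2.2.2 : ℤ) - ((N * offN : ℕ) : ℤ)))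
    (goT zx.toNat (-zx).toNat zy.toNat (-zy).toNat
      (offN * ((-zx).toNat + zy.toNat + sclN)) (offN * (zx.toNat + (-zy).toNat))
      (offN * ((-zy).toNat + (-zx).toNat + sclN)) (offN * (zy.toNat + zx.toNat)) m N)

/-- the state after `j` steps -/
def Inv (m : ℕ) (zx zy : ℤ) (j : ℕ) (s : ℕ × ℕ × ℕ × ℕ) : Prop :=
  (s.1 : ℤ) = (liC m zx zy j).1.1 + offN ∧ (s.2.1 : ℤ) = (liC m zx zy j).1.2 + offN ∧
  (s.2.2.1 : ℤ) = (liC m zx zy j).2.1 + j * offN ∧ (s.2.2.2 : ℤ) = (liC m zx zy j).2.2 + j * offN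

theorem liG_step {m : ℕ} {zx zy : ℤ} {j : ℕ} {a b sx sy : ℕ}
    (ha : (a : ℤ) = (liC m zx zy j).1.1 + offN) (hb : (b : ℤ) = (liC m zx zy j).1.2 + offN)
    (hsx : (sx : ℤ) = (liC m zx zy j).2.1 + j * offN)
    (hsy : (sy : ℤ) = (liC m zx zy j).2.2 + j * offN)
    (hzx : |zx| ≤ scl) (hzy : |zy| ≤ scl)
    (h1 : |(liC m zx zy j).1.1| ≤ 2 * scl) (h2 : |(liC m zx zy j).1.2| ≤ 2 * scl) (N : ℕ) :
    ∃ a' b' sx' sy' : ℕ, (a' : ℤ) = (liC m zx zy (j + 1)).1.1 + offN ∧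
      (b' : ℤ) = (liC m zx zy (j + 1)).1.2 + offN ∧
      (sx' : ℤ) = (liC m zx zy (j + 1)).2.1 + (j + 1 : ℕ) * offN ∧
      (sy' : ℤ) = (liC m zx zy (j + 1)).2.2 + (j + 1 : ℕ) * offN ∧
      goN zx.toNat (-zx).toNat zy.toNat (-zy).toNat
        (offN * ((-zx).toNat + zy.toNat + sclN)) (offN * (zx.toNat + (-zy).toNat))
        (offN * ((-zy).toNat + (-zx).toNat + sclN)) (offN * (zy.toNat + zx.toNat)) m (N + 1)
        (j + 1) a b sx sy =
      goN zx.toNat (-zx).toNat zy.toNat (-zy).toNat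
        (offN * ((-zx).toNat + zy.toNat + sclN)) (offN * (zx.toNat + (-zy).toNat))
        (offN * ((-zy).toNat + (-zx).toNat + sclN)) (offN * (zy.toNat + zx.toNat)) m N
        (j + 1 + 1) a' b' sx' sy' := by
  have hs0 : (0 : ℤ) < (scl : ℤ) := by norm_num [scl]
  set A := (liC m zx zy j).1.1 with hA
  set B := (liC m zx zy j).1.2 with hB
  have hoff : (offN : ℤ) = 4 * scl := by rw [offN_eq]; push_cast; rfl
  have hx : (zx.toNat : ℤ) - ((-zx).toNat : ℤ) = zx := by omega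
  have hy : (zy.toNat : ℤ) - ((-zy).toNat : ℤ) = zy := by omega
  rw [abs_le] at hzx hzy h1 h2
  have hmul : ∀ {u v : ℤ}, -(2 * (scl : ℤ)) ≤ u → u ≤ 2 * scl → -(scl : ℤ) ≤ v → v ≤ scl →
      -(2 * (scl : ℤ) * scl) ≤ u * v ∧ u * v ≤ 2 * scl * scl := by
    intro u v hu1 hu2 hv1 hv2
    have hu : |u| ≤ 2 * scl := abs_le.2 ⟨hu1, hu2⟩
    have hv : |v| ≤ scl := abs_le.2 ⟨hv1, hv2⟩
    have := mul_le_mul hu hv (abs_nonneg _) (by positivity)
    rw [← abs_mul, abs_le] at this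
    exact this
  have e1 := hmul h1.1 h1.2 hzx.1 hzx.2
  have e2 := hmul h2.1 h2.2 hzy.1 hzy.2
  have e3 := hmul h1.1 h1.2 hzy.1 hzy.2
  have e4 := hmul h2.1 h2.2 hzx.1 hzx.2
  -- real part
  set xp := zx.toNat
  set xm := (-zx).toNat
  set yp := zy.toNat
  set ym := (-zy).toNat
  have r1 : ((((a * xp + b * ym + offN * (xm + yp + sclN)) -
      (a * xm + b * yp + offN * (xp + ym))) : ℕ) : ℤ) = A * zx - B * zy + offN * scl := by
    have hid : ((a * xp + b * ym + offN * (xm + yp + sclN) : ℕ) : ℤ) -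
        ((a * xm + b * yp + offN * (xp + ym) : ℕ) : ℤ) = A * zx - B * zy + offN * scl := by
      push_cast
      rw [ha, hb, ← hx, ← hy, sclN_eq]
      ring
    rw [Nat.cast_sub, hid]
    have h0 : 0 ≤ A * zx - B * zy + offN * scl := by rw [hoff]; nlinarith [e1.1, e2.2]
    have : ((a * xm + b * yp + offN * (xp + ym) : ℕ) : ℤ) ≤
      ((a * xp + b * ym + offN * (xm + yp + sclN) : ℕ) : ℤ) := by linarith
    exact_mod_cast this
  have r2 : ((((a * yp + b * xp + offN * (ym + xm + sclN)) -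
      (a * ym + b * xm + offN * (yp + xp))) : ℕ) : ℤ) = A * zy + B * zx + offN * scl := by
    have hid : ((a * yp + b * xp + offN * (ym + xm + sclN) : ℕ) : ℤ) -
        ((a * ym + b * xm + offN * (yp + xp) : ℕ) : ℤ) = A * zy + B * zx + offN * scl := by
      push_cast
      rw [ha, hb, ← hx, ← hy, sclN_eq]
      ring
    rw [Nat.cast_sub, hid]
    have h0 : 0 ≤ A * zy + B * zx + offN * scl := by rw [hoff]; nlinarith [e3.1, e4.1]
    have : ((a * ym + b * xm + offN * (yp + xp) : ℕ) : ℤ) ≤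
      ((a * yp + b * xp + offN * (ym + xm + sclN) : ℕ) : ℤ) := by linarith
    exact_mod_cast this
  set a' := ((a * xp + b * ym + offN * (xm + yp + sclN)) -
      (a * xm + b * yp + offN * (xp + ym))) / scl with ha'
  set b' := ((a * yp + b * xp + offN * (ym + xm + sclN)) -
      (a * ym + b * xm + offN * (yp + xp))) / scl with hb'
  have q1 : (a' : ℤ) = (A * zx - B * zy) / (scl : ℤ) + offN := by
    rw [ha', Int.natCast_div, r1, Int.add_mul_ediv_right _ _ hs0.ne']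
  have q2 : (b' : ℤ) = (A * zy + B * zx) / (scl : ℤ) + offN := by
    rw [hb', Int.natCast_div, r2, Int.add_mul_ediv_right _ _ hs0.ne']
  have hw : 0 < (j + 1) ^ m := by positivity
  have hw' : ((((j + 1) ^ m : ℕ)) : ℤ) ≠ 0 := by exact_mod_cast hw.ne'
  have hq : ∀ {c : ℕ} {C : ℤ}, (c : ℤ) = C + offN →
      ((((c + (offN * (j + 1) ^ m - offN)) / (j + 1) ^ m) : ℕ) : ℤ) =
        C / (((j + 1) ^ m : ℕ) : ℤ) + offN := by
    intro c C hc
    have h3 : offN ≤ offN * (j + 1) ^ m := Nat.le_mul_of_pos_right _ hw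
    rw [Int.natCast_div, Nat.cast_add, Nat.cast_sub h3, hc]
    have : C + (offN : ℤ) + (((offN * (j + 1) ^ m : ℕ) : ℤ) - offN) =
        C + offN * (((j + 1) ^ m : ℕ) : ℤ) := by push_cast; ring
    rw [this, Int.add_mul_ediv_right _ _ hw']
  refine ⟨a', b', sx + (a' + (offN * (j + 1) ^ m - offN)) / (j + 1) ^ m,
    sy + (b' + (offN * (j + 1) ^ m - offN)) / (j + 1) ^ m, q1, q2, ?_, ?_,
    goN_succ _ _ _ _ _ _ _ _ _ _ _ _ _ _ _ _ _ _ _ ha' hb' rfl rfl⟩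
  · rw [Nat.cast_add, hq q1, hsx]
    simp only [liC]
    push_cast
    ring
  · rw [Nat.cast_add, hq q2, hsy]
    simp only [liC]
    push_cast
    ring

section

variable {m : ℕ} {zx zy : ℤ} {N : ℕ}

theorem goN_inv (hzx : |zx| ≤ scl) (hzy : |zy| ≤ scl)
    (h : ∀ j < N, |(liC m zx zy j).1.1| ≤ 2 * scl ∧ |(liC m zx zy j).1.2| ≤ 2 * scl) :
    ∀ (k j : ℕ), j + k ≤ N → ∀ a b sx sy : ℕ, Inv m zx zy j (a, b, sx, sy) →
      Inv m zx zy (j + k) (goN zx.toNat (-zx).toNat zy.toNat (-zy).toNat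
        (offN * ((-zx).toNat + zy.toNat + sclN)) (offN * (zx.toNat + (-zy).toNat))
        (offN * ((-zy).toNat + (-zx).toNat + sclN)) (offN * (zy.toNat + zx.toNat)) m k
        (j + 1) a b sx sy) := by
  intro k
  induction k with
  | zero =>
    intro j hj a b sx sy hI
    rw [goN_zero]
    exact hI
  | succ k ih =>
    intro j hj a b sx sy hI
    obtain ⟨ha, hb, hsx, hsy⟩ := hI
    obtain ⟨h1, h2⟩ := h j (by omega)
    obtain ⟨a', b', sx', sy', ha', hb', hsx', hsy', he⟩ :=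
      liG_step ha hb hsx hsy hzx hzy h1 h2 k
    rw [he]
    have h3 := ih (j + 1) (by omega) a' b' sx' sy' ⟨ha', hb', hsx', hsy'⟩
    rw [show j + 1 + k = j + (k + 1) by omega] at h3
    exact h3

theorem goM_inv (hzx : |zx| ≤ scl) (hzy : |zy| ≤ scl)
    (h : ∀ j < N, |(liC m zx zy j).1.1| ≤ 2 * scl ∧ |(liC m zx zy j).1.2| ≤ 2 * scl) :
    ∀ (M j : ℕ), j + 64 * M ≤ N → ∀ s : ℕ × ℕ × ℕ × ℕ, Inv m zx zy j s →
      Inv m zx zy (j + 64 * M) (goM zx.toNat (-zx).toNat zy.toNat (-zy).toNat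
        (offN * ((-zx).toNat + zy.toNat + sclN)) (offN * (zx.toNat + (-zy).toNat))
        (offN * ((-zy).toNat + (-zx).toNat + sclN)) (offN * (zy.toNat + zx.toNat)) m M
        (j + 1) s) := by
  intro M
  induction M with
  | zero =>
    intro j hj s hI
    exact hI
  | succ M ih =>
    intro j hj s hI
    rw [goM_succ]
    have h1 := goN_inv hzx hzy h 64 j (by omega) s.1 s.2.1 s.2.2.1 s.2.2.2 hI
    have h2 := ih (j + 64) (by omega) _ h1
    rw [show j + 64 + 64 * M = j + 64 * (M + 1) by omega,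
      show j + 64 + 1 = j + 1 + 64 by omega] at h2
    exact h2

theorem liG_eq (hzx : |zx| ≤ scl) (hzy : |zy| ≤ scl)
    (h : ∀ j < N, |(liC m zx zy j).1.1| ≤ 2 * scl ∧ |(liC m zx zy j).1.2| ≤ 2 * scl) :
    liG m zx zy N = (liC m zx zy N).2 := by
  have h0 : Inv m zx zy 0 (sclN + offN, offN, 0, 0) := by
    refine ⟨?_, ?_, ?_, ?_⟩
    · simp [liC, sclN_eq]
    · simp [liC]
    · simp [liC]
    · simp [liC]
  have h1 := goM_inv hzx hzy h (N / 64) 0 (by omega) _ h0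
  have h2 := goN_inv hzx hzy h (N % 64) (0 + 64 * (N / 64)) (by omega) _ _ _ _ h1
  rw [show 0 + 64 * (N / 64) + N % 64 = N by omega] at h2
  rw [show 0 + 64 * (N / 64) + 1 = 64 * (N / 64) + 1 by omega, show 0 + 1 = 1 from rfl] at h2
  have h5 : Inv m zx zy N (goT zx.toNat (-zx).toNat zy.toNat (-zy).toNat
      (offN * ((-zx).toNat + zy.toNat + sclN)) (offN * (zx.toNat + (-zy).toNat))
      (offN * ((-zy).toNat + (-zx).toNat + sclN)) (offN * (zy.toNat + zx.toNat)) m N) := h2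
  clear h2 h1
  unfold liG
  obtain ⟨_, _, h3, h4⟩ := h5
  refine Prod.ext ?_ ?_
  · change ((goT _ _ _ _ _ _ _ _ _ _).2.2.1 : ℤ) - ((N * offN : ℕ) : ℤ) = _
    rw [h3]; push_cast; ring
  · change ((goT _ _ _ _ _ _ _ _ _ _).2.2.2 : ℤ) - ((N * offN : ℕ) : ℤ) = _
    rw [h4]; push_cast; ring

end

end Pool.Agent.Zagier
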