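import Pool.Agent.Zagier.Core

/-!
# Tails of the polylogarithm series
-/

namespace Pool.Agent.Zagier

theorem Li_term_bound (m : ℕ) (z : ℂ) (k N : ℕ) (hk : N ≤ k) :
    ‖z ^ (k + 1) / ((k : ℂ) + 1) ^ m‖ ≤ ‖z‖ ^ (k + 1) / ((N : ℝ) + 1) ^ m := by
  rw [norm_div, norm_pow, norm_pow]
  have h1 : ‖(k : ℂ) + 1‖ = (k : ℝ) + 1 := by
    have : ((k : ℂ) + 1) = (((k : ℝ) + 1 : ℝ) : ℂ) := by push_cast; rfl
    rw [this, Complex.norm_real, Real.norm_of_nonneg (by positivity)]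
  rw [h1]
  have hN : (N : ℝ) ≤ k := by exact_mod_cast hk
  gcongr

theorem summable_Li {m : ℕ} {z : ℂ} (hz : ‖z‖ < 1) :
    Summable fun k : ℕ => z ^ (k + 1) / ((k : ℂ) + 1) ^ m := by
  refine Summable.of_norm_bounded (g := fun k : ℕ => ‖z‖ ^ k)
    (summable_geometric_of_lt_one (norm_nonneg z) hz) ?_
  intro k
  have h1 := Li_term_bound m z k 0 (Nat.zero_le k)
  refine h1.trans ?_
  simp only [Nat.cast_zero, zero_add, one_pow, div_one, pow_succ]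
  exact mul_le_of_le_one_right (by positivity) hz.le

/-- Tail estimate for the polylogarithm series. -/
theorem Li_tail (m : ℕ) {z : ℂ} (hz : ‖z‖ < 1) (N : ℕ) :
    ‖Li m z - ∑ j ∈ Finset.range N, z ^ (j + 1) / ((j : ℂ) + 1) ^ m‖ ≤
      ‖z‖ ^ (N + 1) / (1 - ‖z‖) * (1 / ((N : ℝ) + 1) ^ m) := by
  have hs := summable_Li (m := m) hz
  have h1 : Li m z - ∑ j ∈ Finset.range N, z ^ (j + 1) / ((j : ℂ) + 1) ^ m =
      ∑' k : ℕ, z ^ (k + N + 1) / (((k + N : ℕ) : ℂ) + 1) ^ m := by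
    rw [Li, ← hs.sum_add_tsum_nat_add N, add_sub_cancel_left]
  rw [h1]
  have hg : HasSum (fun k : ℕ => ‖z‖ ^ k * (‖z‖ ^ (N + 1) * (1 / ((N : ℝ) + 1) ^ m)))
      ((1 - ‖z‖)⁻¹ * (‖z‖ ^ (N + 1) * (1 / ((N : ℝ) + 1) ^ m))) :=
    (hasSum_geometric_of_lt_one (norm_nonneg z) hz).mul_right _
  have h2 := tsum_of_norm_bounded hg (f := fun k : ℕ => z ^ (k + N + 1) /
    (((k + N : ℕ) : ℂ) + 1) ^ m) (fun k => by
      have := Li_term_bound m z (k + N) N (by omega)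
      refine this.trans (le_of_eq ?_)
      rw [pow_add, pow_add]
      ring)
  refine h2.trans (le_of_eq ?_)
  ring

end Pool.Agent.Zagier
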