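import Pool.Agent.Zagier.BallFast
import Pool.Agent.Zagier.LiTail
import Pool.Agent.Zagier.AnalyticBase

/-!
# Rigorous evaluation of the single valued polylogarithms
-/

namespace Pool.Agent.Zagier

theorem bernoulli'_five : bernoulli' 5 = 0 :=
  bernoulli'_eq_zero_of_odd (by decide) (by norm_num)

theorem bernoulli'_six : bernoulli' 6 = 1 / 42 := by
  have h := sum_bernoulli' 7
  have hc : Nat.choose 7 2 = 21 := by decide
  have hc3 : Nat.choose 7 3 = 35 := by decide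
  have hc4 : Nat.choose 7 4 = 35 := by decide
  have hc5 : Nat.choose 7 5 = 21 := by decide
  have hc6 : Nat.choose 7 6 = 7 := by decide
  simp only [Finset.sum_range_succ, Finset.sum_range_zero, bernoulli'_zero, bernoulli'_one,
    bernoulli'_two, bernoulli'_three, bernoulli'_four, bernoulli'_five, hc, hc3, hc4, hc5, hc6,
    Nat.choose_zero_right, Nat.choose_one_right] at h
  push_cast at h
  linarith

theorem beta_six : beta 6 = 2 / 945 := by
  rw [beta, bernoulli_eq_bernoulli'_of_ne_one (by norm_num), bernoulli'_six]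
  norm_num [Nat.factorial]

theorem beta_seven : beta 7 = 0 := by
  rw [beta, bernoulli_eq_zero_of_odd (by decide) (by norm_num)]
  simp

/-- numerator of `β_k` -/
def bnum : ℕ → ℤ
  | 0 => 1
  | 1 => -1
  | 2 => 1
  | 4 => -1
  | 6 => 2
  | _ => 0

/-- denominator of `β_k` -/
def bden : ℕ → ℕ
  | 2 => 3
  | 4 => 45
  | 6 => 945
  | _ => 1

theorem beta_eq {k : ℕ} (hk : k < 8) : beta k = (bnum k : ℝ) / (bden k : ℝ) := by
  interval_cases k
  · simp [beta_zero, bnum, bden]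
  · simp [beta_one, bnum, bden]
  · simp [beta_two, bnum, bden]
  · simp [beta_three, bnum, bden]
  · simp [beta_four, bnum, bden]
  · simp [beta_five, bnum, bden]
  · simp [beta_six, bnum, bden]
  · simp [beta_seven, bnum, bden]

theorem bden_pos (k : ℕ) : 0 < bden k := by
  unfold bden; split <;> norm_num

/-- complex number with integer coordinates -/
noncomputable def cz (p : ℤ × ℤ) : ℂ := ⟨(p.1 : ℝ), (p.2 : ℝ)⟩

theorem norm_le_two {w : ℂ} {e : ℝ} (h1 : |w.re| ≤ e) (h2 : |w.im| ≤ e) : ‖w‖ ≤ 2 * e := by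
  have := Complex.norm_le_abs_re_add_abs_im w
  linarith

theorem cz_div (a b : ℤ) (m : ℕ) (hm : 0 < m) :
    ‖cz (a, b) / (m : ℂ) - cz (a / (m : ℤ), b / (m : ℤ))‖ ≤ 2 := by
  have h1 := floor_err a m hm
  have h2 := floor_err b m hm
  have e1 : (cz (a, b) / (m : ℂ) - cz (a / (m : ℤ), b / (m : ℤ))).re =
      (a : ℝ) / m - ((a / (m : ℤ) : ℤ) : ℝ) := by
    have : (cz (a, b) / (m : ℂ)) = cz (a, b) / ((m : ℝ) : ℂ) := by push_cast; rfl
    rw [Complex.sub_re, this, Complex.div_ofReal_re]; rfl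
  have e2 : (cz (a, b) / (m : ℂ) - cz (a / (m : ℤ), b / (m : ℤ))).im =
      (b : ℝ) / m - ((b / (m : ℤ) : ℤ) : ℝ) := by
    have : (cz (a, b) / (m : ℂ)) = cz (a, b) / ((m : ℝ) : ℂ) := by push_cast; rfl
    rw [Complex.sub_im, this, Complex.div_ofReal_im]; rfl
  have h3 := norm_le_two (w := cz (a, b) / (m : ℂ) - cz (a / (m : ℤ), b / (m : ℤ))) (e := 1)
    (by rw [e1, abs_sub_comm]; exact h1) (by rw [e2, abs_sub_comm]; exact h2)
  linarith

theorem cz_mul (a b x y : ℤ) : cz (a * x - b * y, a * y + b * x) = cz (a, b) * cz (x, y) := by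
  apply Complex.ext <;> simp [cz, Complex.mul_re, Complex.mul_im]

theorem liC_has (m : ℕ) (hm : 1 ≤ m) {zx zy : ℤ} {z : ℂ} {d : ℕ} (hz1 : ‖z‖ ≤ 1)
    (hz : ‖z * scl - cz (zx, zy)‖ ≤ d) (N : ℕ) (hN : N * (2 * d + 2) ≤ scl) :
    ‖z ^ N * scl - cz (liC m zx zy N).1‖ ≤ N * (2 * d + 2) ∧
    ‖(∑ j ∈ Finset.range N, z ^ (j + 1) / ((j : ℂ) + 1) ^ m) * scl - cz (liC m zx zy N).2‖ ≤
      N * (2 * d + 4) := by
  have hs := scl_pos
  have hsn : 0 < scl := by norm_num [scl]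
  induction N with
  | zero =>
    constructor
    · have : cz (liC m zx zy 0).1 = (scl : ℂ) := by
        apply Complex.ext <;> simp [cz, liC]
      rw [this]; simp
    · have : cz (liC m zx zy 0).2 = 0 := by
        apply Complex.ext <;> simp [cz, liC]
      rw [this]; simp
  | succ N ih =>
    have hN' : N * (2 * d + 2) ≤ scl := le_trans (Nat.mul_le_mul_right _ (Nat.le_succ N)) hN
    obtain ⟨h1, h2⟩ := ih hN'
    set P := (liC m zx zy N).1 with hP
    set S := (liC m zx zy N).2 with hS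
    have hNr : (N : ℝ) * (2 * d + 2) ≤ scl := by exact_mod_cast hN'
    set Q : ℤ × ℤ := ((P.1 * zx - P.2 * zy) / (scl : ℤ), (P.1 * zy + P.2 * zx) / (scl : ℤ)) with hQ
    have hQ1 : (liC m zx zy (N + 1)).1 = Q := rfl
    have hQ2 : (liC m zx zy (N + 1)).2 = (S.1 + Q.1 / (((N + 1) ^ m : ℕ) : ℤ),
      S.2 + Q.2 / (((N + 1) ^ m : ℕ) : ℤ)) := rfl
    have hPn : ‖cz P‖ ≤ 2 * scl := by
      have h3 : cz P = z ^ N * scl - (z ^ N * scl - cz P) := by ring
      rw [h3]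
      refine (norm_sub_le _ _).trans ?_
      have h4 : ‖z ^ N * (scl : ℂ)‖ ≤ scl := by
        rw [norm_mul, norm_pow, Complex.norm_natCast]
        have := pow_le_one₀ (n := N) (norm_nonneg z) hz1
        nlinarith
      linarith
    have key : ‖z ^ (N + 1) * scl - cz Q‖ ≤ ((N : ℝ) + 1) * (2 * d + 2) := by
      have e1 : z ^ (N + 1) * scl - cz Q = (z * (z ^ N * scl - cz P) +
          cz P * (z * scl - cz (zx, zy)) / scl) +
          (cz (P.1 * zx - P.2 * zy, P.1 * zy + P.2 * zx) / (scl : ℂ) - cz Q) := by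
        rw [cz_mul]
        have hsc : (scl : ℂ) ≠ 0 := by exact_mod_cast hs.ne'
        field_simp
        ring
      rw [e1]
      have h3 := cz_div (P.1 * zx - P.2 * zy) (P.1 * zy + P.2 * zx) scl hsn
      have h4 : ‖z * (z ^ N * scl - cz P)‖ ≤ N * (2 * d + 2) := by
        rw [norm_mul]
        calc ‖z‖ * ‖z ^ N * scl - cz P‖ ≤ 1 * ‖z ^ N * scl - cz P‖ :=
              mul_le_mul_of_nonneg_right hz1 (norm_nonneg _)
          _ ≤ _ := by rw [one_mul]; exact h1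
      have h5 : ‖cz P * (z * scl - cz (zx, zy)) / scl‖ ≤ 2 * d := by
        rw [norm_div, norm_mul, Complex.norm_natCast, div_le_iff₀ hs]
        calc ‖cz P‖ * ‖z * scl - cz (zx, zy)‖ ≤ (2 * scl) * d :=
              mul_le_mul hPn hz (norm_nonneg _) (by positivity)
          _ = 2 * d * scl := by ring
      have h6 := norm_add_le (z * (z ^ N * scl - cz P)) (cz P * (z * scl - cz (zx, zy)) / scl)
      refine (norm_add_le _ _).trans ?_
      linarith
    refine ⟨by rw [hQ1]; push_cast; exact key, ?_⟩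
    rw [hQ2, Finset.sum_range_succ]
    have hpos : 0 < (N + 1) ^ m := by positivity
    have h3 := cz_div Q.1 Q.2 ((N + 1) ^ m) hpos
    have e2 : (∑ j ∈ Finset.range N, z ^ (j + 1) / ((j : ℂ) + 1) ^ m +
        z ^ (N + 1) / ((N : ℂ) + 1) ^ m) * scl -
        cz (S.1 + Q.1 / (((N + 1) ^ m : ℕ) : ℤ), S.2 + Q.2 / (((N + 1) ^ m : ℕ) : ℤ)) =
        ((∑ j ∈ Finset.range N, z ^ (j + 1) / ((j : ℂ) + 1) ^ m) * scl - cz S) +
        ((z ^ (N + 1) * scl - cz Q) / (((N : ℂ) + 1) ^ m)) +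
        (cz (Q.1, Q.2) / (((N + 1) ^ m : ℕ) : ℂ) -
          cz (Q.1 / (((N + 1) ^ m : ℕ) : ℤ), Q.2 / (((N + 1) ^ m : ℕ) : ℤ))) := by
      have e3 : cz (S.1 + Q.1 / (((N + 1) ^ m : ℕ) : ℤ), S.2 + Q.2 / (((N + 1) ^ m : ℕ) : ℤ)) =
          cz S + cz (Q.1 / (((N + 1) ^ m : ℕ) : ℤ), Q.2 / (((N + 1) ^ m : ℕ) : ℤ)) := by
        apply Complex.ext <;> simp [cz]
      rw [e3]
      push_cast
      ring
    rw [e2]
    have h4 : ‖(z ^ (N + 1) * scl - cz Q) / (((N : ℂ) + 1) ^ m)‖ ≤ 2 * d + 2 := by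
      have e4 : ((N : ℂ) + 1) = ((N + 1 : ℕ) : ℂ) := by push_cast; rfl
      rw [norm_div, norm_pow, e4, Complex.norm_natCast]
      have hN1 : (1 : ℝ) ≤ ((N + 1 : ℕ) : ℝ) := by push_cast; linarith [Nat.cast_nonneg (α := ℝ) N]
      have h5 : ((N + 1 : ℕ) : ℝ) ≤ ((N + 1 : ℕ) : ℝ) ^ m := by
        calc ((N + 1 : ℕ) : ℝ) = ((N + 1 : ℕ) : ℝ) ^ 1 := (pow_one _).symm
          _ ≤ _ := pow_le_pow_right₀ hN1 hm
      rw [div_le_iff₀ (by positivity)]
      refine key.trans ?_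
      have h6 : ((N : ℝ) + 1) = ((N + 1 : ℕ) : ℝ) := by push_cast; rfl
      rw [h6, mul_comm]
      exact mul_le_mul_of_nonneg_left h5 (by positivity)
    have h5 := norm_add_le ((∑ j ∈ Finset.range N, z ^ (j + 1) / ((j : ℂ) + 1) ^ m) * scl - cz S)
      ((z ^ (N + 1) * scl - cz Q) / (((N : ℂ) + 1) ^ m))
    refine (norm_add_le _ _).trans ?_
    push_cast at h3 ⊢
    linarith

/-- the tail condition: `r^{N+1}/(1-r) ≤ T/scl` with `r = rn/1000` -/
def tailOK (rn N T : ℕ) : Bool :=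
  decide (rn < 1000) && (decide (rn ^ (N + 1) * scl * 1000 ≤ T * (1000 - rn) * 1000 ^ (N + 1)) &&
    decide (N ≤ 10 ^ 6))

/-- the norm condition `|z| ≤ rn/1000` -/
def normOK (B : CB) (rn : ℕ) : Bool :=
  decide (((B.x.natAbs + B.e) ^ 2 + (B.y.natAbs + B.e) ^ 2) * 1000 ^ 2 ≤ (rn * scl) ^ 2) &&
    decide (B.e ≤ 10 ^ 30)

theorem abs_le_of_has {a : ℝ} {x : ℤ} {e : ℕ} (h : |a * scl - x| ≤ e) :
    |a * scl| ≤ ((x.natAbs + e : ℕ) : ℝ) := by
  have h1 : a * scl = (a * scl - x) + x := by ring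
  rw [h1]
  refine (abs_add_le _ _).trans ?_
  rw [Nat.cast_add, natAbs_cast]
  linarith

theorem norm_le_of_normOK {B : CB} {z : ℂ} (hz : B.Has z) {rn : ℕ} (h : normOK B rn = true) :
    ‖z‖ ≤ (rn : ℝ) / 1000 := by
  have hs := scl_pos
  simp only [normOK, Bool.and_eq_true, decide_eq_true_eq] at h
  have h0 := h.1
  have h1 : ((((B.x.natAbs + B.e : ℕ) : ℝ)) ^ 2 + (((B.y.natAbs + B.e : ℕ) : ℝ)) ^ 2) * 1000 ^ 2 ≤
      ((rn : ℝ) * scl) ^ 2 := by exact_mod_cast h0
  have h2 := abs_le_of_has hz.1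
  have h3 := abs_le_of_has hz.2
  have h4 : (z.re * scl) ^ 2 ≤ (((B.x.natAbs + B.e : ℕ) : ℝ)) ^ 2 := by
    rw [← sq_abs]; gcongr
  have h5 : (z.im * scl) ^ 2 ≤ (((B.y.natAbs + B.e : ℕ) : ℝ)) ^ 2 := by
    rw [← sq_abs]; gcongr
  have h6 : (‖z‖ * scl * 1000) ^ 2 ≤ ((rn : ℝ) * scl) ^ 2 := by
    have h7 : ‖z‖ ^ 2 = z.re ^ 2 + z.im ^ 2 := by
      rw [← Complex.normSq_eq_norm_sq, Complex.normSq_apply]; ring
    have h8 : (‖z‖ * scl * 1000) ^ 2 = ((z.re * scl) ^ 2 + (z.im * scl) ^ 2) * 1000 ^ 2 := by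
      rw [mul_pow, mul_pow, h7]; ring
    rw [h8]
    refine le_trans ?_ h1
    gcongr
  have h7 : ‖z‖ * scl * 1000 ≤ (rn : ℝ) * scl :=
    le_of_sq_le_sq h6 (by positivity) |> fun h => h
  rw [le_div_iff₀ (by norm_num)]
  have h8 : (‖z‖ * 1000) * scl ≤ (rn : ℝ) * scl := by linarith
  exact le_of_mul_le_mul_right h8 hs

theorem abs_le_scl_of_normOK {B : CB} {rn : ℕ} (h : normOK B rn = true) (hr : rn ≤ 1000) :
    |B.x| ≤ scl ∧ |B.y| ≤ scl := by
  simp only [normOK, Bool.and_eq_true, decide_eq_true_eq] at h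
  have h0 := h.1
  have h1 : (rn * scl) ^ 2 ≤ (1000 * scl) ^ 2 := Nat.pow_le_pow_left (Nat.mul_le_mul_right _ hr) 2
  have hx : (B.x.natAbs * 1000) ^ 2 ≤ (1000 * scl) ^ 2 := by
    refine le_trans ?_ (h0.trans h1)
    rw [mul_pow]
    refine Nat.mul_le_mul_right _ (le_trans (Nat.pow_le_pow_left (Nat.le_add_right _ B.e) 2)
      (Nat.le_add_right _ _))
  have hy : (B.y.natAbs * 1000) ^ 2 ≤ (1000 * scl) ^ 2 := by
    refine le_trans ?_ (h0.trans h1)
    rw [mul_pow]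
    refine Nat.mul_le_mul_right _ (le_trans (Nat.pow_le_pow_left (Nat.le_add_right _ B.e) 2)
      (Nat.le_add_left _ _))
  have hx' := (Nat.pow_le_pow_iff_left two_ne_zero).1 hx
  have hy' := (Nat.pow_le_pow_iff_left two_ne_zero).1 hy
  have a1 : B.x.natAbs ≤ scl := by omega
  have a2 : B.y.natAbs ≤ scl := by omega
  rw [Int.abs_eq_natAbs, Int.abs_eq_natAbs]
  exact ⟨by exact_mod_cast a1, by exact_mod_cast a2⟩

/-- the box for `Li_m(z)` -/
noncomputable def liB (m : ℕ) (z : CB) (N T : ℕ) : CB :=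
  ⟨(liG m z.x z.y N).1, (liG m z.x z.y N).2, N * (2 * (2 * z.e) + 4) + T⟩

theorem liB_has (m : ℕ) (hm : 1 ≤ m) {B : CB} {z : ℂ} (hz : B.Has z) {rn N T : ℕ}
    (hn : normOK B rn = true) (ht : tailOK rn N T = true) :
    (liB m B N T).Has (Li m z) := by
  have hs := scl_pos
  simp only [tailOK, Bool.and_eq_true, decide_eq_true_eq] at ht
  obtain ⟨hr, ht, hNb⟩ := ht
  have hz1 := norm_le_of_normOK hz hn
  have hr' : (rn : ℝ) < 1000 := by exact_mod_cast hr
  have hlt : ‖z‖ < 1 := lt_of_le_of_lt hz1 (by rw [div_lt_one (by norm_num)]; exact hr')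
  have hBe : B.e ≤ 10 ^ 30 := by
    simp only [normOK, Bool.and_eq_true, decide_eq_true_eq] at hn
    exact hn.2
  have hcb : N * (2 * (2 * B.e) + 2) ≤ scl := by
    calc N * (2 * (2 * B.e) + 2) ≤ 10 ^ 6 * (2 * (2 * 10 ^ 30) + 2) := by gcongr
      _ ≤ scl := by norm_num [scl]
  have hzd : ‖z * scl - cz (B.x, B.y)‖ ≤ ((2 * B.e : ℕ) : ℝ) := by
    have e1 : (z * scl - cz (B.x, B.y)).re = z.re * scl - B.x := by simp [cz]
    have e2 : (z * scl - cz (B.x, B.y)).im = z.im * scl - B.y := by simp [cz]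
    have := norm_le_two (w := z * scl - cz (B.x, B.y)) (e := B.e) (by rw [e1]; exact hz.1)
      (by rw [e2]; exact hz.2)
    push_cast
    exact this
  have h1 := (liC_has m hm hlt.le hzd N hcb).2
  have hG : liG m B.x B.y N = (liC m B.x B.y N).2 := by
    obtain ⟨hx, hy⟩ := abs_le_scl_of_normOK hn hr.le
    refine liG_eq hx hy fun j hj => ?_
    have h3 := (liC_has m hm hlt.le hzd j
      (le_trans (Nat.mul_le_mul_right _ hj.le) hcb)).1
    have h4 : ‖cz (liC m B.x B.y j).1‖ ≤ 2 * scl := by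
      have h5 : cz (liC m B.x B.y j).1 = z ^ j * scl - (z ^ j * scl - cz (liC m B.x B.y j).1) := by
        ring
      rw [h5]
      refine (norm_sub_le _ _).trans ?_
      have h6 : ‖z ^ j * (scl : ℂ)‖ ≤ scl := by
        rw [norm_mul, norm_pow, Complex.norm_natCast]
        have := pow_le_one₀ (n := j) (norm_nonneg z) hlt.le
        nlinarith
      have h7 : (j : ℝ) * (2 * ((2 * B.e : ℕ) : ℝ) + 2) ≤ scl := by
        exact_mod_cast (le_trans (Nat.mul_le_mul_right _ hj.le) hcb : j * (2 * (2 * B.e) + 2) ≤ scl)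
      linarith
    constructor
    · have h5 := (Complex.abs_re_le_norm (cz (liC m B.x B.y j).1)).trans h4
      have h6 : (cz (liC m B.x B.y j).1).re = (((liC m B.x B.y j).1.1 : ℤ) : ℝ) := rfl
      rw [h6] at h5
      exact_mod_cast h5
    · have h5 := (Complex.abs_im_le_norm (cz (liC m B.x B.y j).1)).trans h4
      have h6 : (cz (liC m B.x B.y j).1).im = (((liC m B.x B.y j).1.2 : ℤ) : ℝ) := rfl
      rw [h6] at h5
      exact_mod_cast h5
  have h2 := Li_tail m hlt N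
  have hT : ‖z‖ ^ (N + 1) / (1 - ‖z‖) * (1 / ((N : ℝ) + 1) ^ m) * scl ≤ T := by
    have h3 : ((rn : ℝ)) ^ (N + 1) * scl * 1000 ≤ T * ((1000 - rn : ℕ) : ℝ) * 1000 ^ (N + 1) := by
      exact_mod_cast ht
    rw [Nat.cast_sub hr.le] at h3
    push_cast at h3
    have hN : 1 / ((N : ℝ) + 1) ^ m ≤ 1 := by
      rw [div_le_one (by positivity)]
      exact one_le_pow₀ (by linarith [Nat.cast_nonneg (α := ℝ) N])
    have h4 : 0 < 1 - ‖z‖ := by linarith
    have h5 : 0 < 1 - (rn : ℝ) / 1000 := by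
      rw [sub_pos, div_lt_one (by norm_num)]; exact hr'
    have h6 : ‖z‖ ^ (N + 1) / (1 - ‖z‖) ≤ ((rn : ℝ) / 1000) ^ (N + 1) / (1 - (rn : ℝ) / 1000) := by
      gcongr
    have h7 : ((rn : ℝ) / 1000) ^ (N + 1) / (1 - (rn : ℝ) / 1000) * scl ≤ T := by
      rw [div_pow, div_mul_eq_mul_div, div_le_iff₀ h5, div_mul_eq_mul_div,
        div_le_iff₀ (by positivity)]
      have : (T : ℝ) * (1 - (rn : ℝ) / 1000) * 1000 ^ (N + 1) =
          (T * (1000 - rn) * 1000 ^ (N + 1)) / 1000 := by ring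
      rw [this, le_div_iff₀ (by norm_num)]
      exact h3
    refine le_trans ?_ h7
    refine mul_le_mul_of_nonneg_right ?_ hs.le
    have h8 : 0 ≤ ‖z‖ ^ (N + 1) / (1 - ‖z‖) := div_nonneg (by positivity) h4.le
    calc ‖z‖ ^ (N + 1) / (1 - ‖z‖) * (1 / ((N : ℝ) + 1) ^ m)
        ≤ ‖z‖ ^ (N + 1) / (1 - ‖z‖) * 1 := mul_le_mul_of_nonneg_left hN h8
      _ ≤ _ := by rw [mul_one]; exact h6
  set s := ∑ j ∈ Finset.range N, z ^ (j + 1) / ((j : ℂ) + 1) ^ m with hsdef
  have h4 : ‖Li m z - s‖ * scl ≤ T :=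
    (mul_le_mul_of_nonneg_right h2 hs.le).trans hT
  have h1re : |s.re * scl - (liC m B.x B.y N).2.1| ≤ ((N * (2 * (2 * B.e) + 4) : ℕ) : ℝ) := by
    have e1 : (s * scl - cz (liC m B.x B.y N).2).re = s.re * scl - (liC m B.x B.y N).2.1 := by
      simp [cz]
    rw [← e1]
    refine (Complex.abs_re_le_norm _).trans (h1.trans (le_of_eq ?_))
    push_cast; ring
  have h1im : |s.im * scl - (liC m B.x B.y N).2.2| ≤ ((N * (2 * (2 * B.e) + 4) : ℕ) : ℝ) := by
    have e1 : (s * scl - cz (liC m B.x B.y N).2).im = s.im * scl - (liC m B.x B.y N).2.2 := by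
      simp [cz]
    rw [← e1]
    refine (Complex.abs_im_le_norm _).trans (h1.trans (le_of_eq ?_))
    push_cast; ring
  constructor
  · have e1 : (Li m z).re * scl - ((liB m B N T).x : ℤ) =
        (Li m z - s).re * scl + (s.re * scl - (liC m B.x B.y N).2.1) := by
      simp only [liB, hG, Complex.sub_re]; ring
    rw [e1]
    refine (abs_add_le _ _).trans ?_
    simp only [liB]
    rw [Nat.cast_add, add_comm]
    refine add_le_add h1re (le_trans ?_ h4)
    rw [abs_mul, abs_of_pos hs]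
    exact mul_le_mul_of_nonneg_right (Complex.abs_re_le_norm _) hs.le
  · have e1 : (Li m z).im * scl - ((liB m B N T).y : ℤ) =
        (Li m z - s).im * scl + (s.im * scl - (liC m B.x B.y N).2.2) := by
      simp only [liB, hG, Complex.sub_im]; ring
    rw [e1]
    refine (abs_add_le _ _).trans ?_
    simp only [liB]
    rw [Nat.cast_add, add_comm]
    refine add_le_add h1im (le_trans ?_ h4)
    rw [abs_mul, abs_of_pos hs]
    exact mul_le_mul_of_nonneg_right (Complex.abs_im_le_norm _) hs.le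

/-- the box for `∑_{j<k} β_j ℓ^j Li_{n-j}(z)` -/
noncomputable def psB (n : ℕ) (z l : CB) (N T : ℕ) : ℕ → CB
  | 0 => CB.zero
  | k + 1 => if bnum k = 0 then psB n z l N T k
      else (psB n z l N T k).add
        ((((l.pow k).mul (liB (n - k) z N T)).smul (bnum k)).divN (bden k))

theorem psB_has (n : ℕ) {B l : CB} {z : ℂ} (hz : B.Has z) {rn N T : ℕ}
    (hn : normOK B rn = true) (ht : tailOK rn N T = true)
    (hl : l.Has ((Real.log ‖z‖ : ℝ) : ℂ)) (k : ℕ) (hk : k ≤ 8) (hkn : k ≤ n) :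
    (psB n B l N T k).Has
      (∑ j ∈ Finset.range k, ((beta j * Real.log ‖z‖ ^ j : ℝ) : ℂ) * Li (n - j) z) := by
  induction k with
  | zero => simpa [psB] using CB.has_zero
  | succ k ih =>
    have ih' := ih (by omega) (by omega)
    rw [Finset.sum_range_succ, psB]
    split_ifs with h0
    · rw [beta_eq (by omega : k < 8), h0]
      simpa using ih'
    · refine ih'.add ?_
      have h1 := ((((hl.pow k).mul (liB_has (n - k) (by omega) hz hn ht)).smul (bnum k)).divN (bden k)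
        (bden_pos k))
      have e1 : ((beta k * Real.log ‖z‖ ^ k : ℝ) : ℂ) * Li (n - k) z =
          ((bnum k : ℤ) : ℂ) * (((Real.log ‖z‖ : ℝ) : ℂ) ^ k * Li (n - k) z) / (bden k : ℕ) := by
        rw [beta_eq (by omega : k < 8)]
        push_cast
        ring
      rw [e1]
      exact h1

/-- real part for odd `n`, imaginary part for even `n` -/
def partB (n : ℕ) (B : CB) : ℤ := if n % 2 = 1 then B.x else B.y

theorem calLdisc_has {n : ℕ} (hn8 : n ≤ 8) {B l : CB} {z : ℂ} (hz : B.Has z) {rn N T : ℕ}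
    (hn : normOK B rn = true) (ht : tailOK rn N T = true)
    (hl : l.Has ((Real.log ‖z‖ : ℝ) : ℂ)) :
    |calLdisc n z * scl - partB n (psB n B l N T n)| ≤ (psB n B l N T n).e := by
  have h := psB_has n hz hn ht hl n hn8 le_rfl
  rw [← polySum] at h
  unfold calLdisc partB
  by_cases ho : Odd n
  · rw [if_pos ho, if_pos (Nat.odd_iff.1 ho)]
    exact h.1
  · rw [if_neg ho, if_neg (fun h1 => ho (Nat.odd_iff.2 h1))]
    exact h.2

end Pool.Agent.Zagier
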