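import Pool.Agent.Zagier.BallLi

/-!
# Rigorous evaluation of the regulator on monomials
-/

namespace Pool.Agent.Zagier

universe u

theorem Lr_one_eq {x : ℝ} (hx : |x| < 1) : Lr 1 x = -Real.log (1 - x) := by
  have h := (Real.hasSum_pow_div_log_of_abs_lt_one hx).tsum_eq
  rw [Lr, ← h]
  simp

/-- `1 - q` -/
def CB.oneSub (q : CB) : CB := CB.one.add (q.smul (-1))

theorem CB.Has.oneSub {q : CB} {z : ℂ} (h : q.Has z) : q.oneSub.Has (1 - z) := by
  have := CB.has_one.add (h.smul (-1))
  simpa [CB.oneSub, sub_eq_add_neg] using this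

/-- the box for `log ‖z‖` -/
noncomputable def logB (B : CB) (N T : ℕ) : CB :=
  ((liB 1 (B.mul B.conj).oneSub N T).smul (-1)).divN 2

theorem logB_has {B : CB} {z : ℂ} (hz : B.Has z) {rn N T : ℕ}
    (hn : normOK (B.mul B.conj).oneSub rn = true) (ht : tailOK rn N T = true) :
    (logB B N T).Has ((Real.log ‖z‖ : ℝ) : ℂ) := by
  have h1 := (hz.mul hz.conj).oneSub
  have h2 := (((liB_has 1 le_rfl h1 hn ht).smul (-1)).divN 2 (by norm_num))
  have hr := norm_le_of_normOK h1 hn
  have ht' := ht
  simp only [tailOK, Bool.and_eq_true, decide_eq_true_eq] at ht'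
  have hr' : (rn : ℝ) / 1000 < 1 := by
    rw [div_lt_one (by norm_num)]; exact_mod_cast ht'.1
  have e1 : z * (starRingEnd ℂ) z = ((‖z‖ ^ 2 : ℝ) : ℂ) := by
    rw [Complex.mul_conj, Complex.normSq_eq_norm_sq]
  have e2 : 1 - z * (starRingEnd ℂ) z = ((1 - ‖z‖ ^ 2 : ℝ) : ℂ) := by
    rw [e1]; push_cast; ring
  rw [e2] at h2 hr
  rw [Complex.norm_real, Real.norm_eq_abs] at hr
  have e3 : |1 - ‖z‖ ^ 2| < 1 := lt_of_le_of_lt hr hr'
  rw [Li_ofReal, Lr_one_eq e3] at h2
  have e4 : ((Real.log ‖z‖ : ℝ) : ℂ) =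
      (((-1 : ℤ) : ℂ) * ((-Real.log (1 - (1 - ‖z‖ ^ 2)) : ℝ) : ℂ)) / ((2 : ℕ) : ℂ) := by
    rw [show 1 - (1 - ‖z‖ ^ 2) = ‖z‖ ^ 2 by ring, Real.log_pow]
    push_cast
    ring
  rw [e4]
  exact h2

/-- boxes for a generator, its inverse, and the logarithm of its absolute value -/
structure Gen where
  /-- the generator -/
  U : CB
  /-- its inverse -/
  V : CB
  /-- logarithm of the absolute value -/
  l : CB

/-- correctness of the boxes -/
def Gen.Has (g : Gen) (u : ℂ) : Prop :=
  u ≠ 0 ∧ g.U.Has u ∧ g.V.Has u⁻¹ ∧ g.l.Has ((Real.log ‖u‖ : ℝ) : ℂ)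

/-- integral powers -/
def Gen.zpow (g : Gen) : ℤ → CB
  | Int.ofNat n => g.U.pow n
  | Int.negSucc n => g.V.pow (n + 1)

theorem Gen.Has.zpow {g : Gen} {u : ℂ} (h : g.Has u) (k : ℤ) : (g.zpow k).Has (u ^ k) := by
  cases k with
  | ofNat n => simpa [Gen.zpow] using h.2.1.pow n
  | negSucc n =>
    rw [zpow_negSucc, ← inv_pow]
    exact h.2.2.1.pow (n + 1)

/-- box of a monomial -/
def monB : List Gen → List ℤ → CB
  | g :: gs, k :: ks => (g.zpow k).mul (monB gs ks)
  | _, _ => CB.one

/-- box of the logarithm of the absolute value of a monomial -/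
def monL : List Gen → List ℤ → CB
  | g :: gs, k :: ks => (g.l.smul k).add (monL gs ks)
  | _, _ => CB.zero

/-- value of a monomial -/
noncomputable def monV : List ℂ → List ℤ → ℂ
  | u :: us, k :: ks => u ^ k * monV us ks
  | _, _ => 1

theorem monV_ne {gs : List Gen} {us : List ℂ} (h : List.Forall₂ Gen.Has gs us) (ks : List ℤ) :
    monV us ks ≠ 0 := by
  induction h generalizing ks with
  | nil => cases ks <;> simp [monV]
  | cons hg _ ih =>
    cases ks with
    | nil => simp [monV]
    | cons k ks => exact mul_ne_zero (zpow_ne_zero _ hg.1) (ih ks)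

theorem monB_has {gs : List Gen} {us : List ℂ} (h : List.Forall₂ Gen.Has gs us) (ks : List ℤ) :
    (monB gs ks).Has (monV us ks) := by
  induction h generalizing ks with
  | nil => cases ks <;> simpa [monB, monV] using CB.has_one
  | cons hg _ ih =>
    cases ks with
    | nil => simpa [monB, monV] using CB.has_one
    | cons k ks => exact (hg.zpow k).mul (ih ks)

theorem monL_has {gs : List Gen} {us : List ℂ} (h : List.Forall₂ Gen.Has gs us) (ks : List ℤ) :
    (monL gs ks).Has ((Real.log ‖monV us ks‖ : ℝ) : ℂ) := by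
  induction h generalizing ks with
  | nil => cases ks <;> simpa [monL, monV] using CB.has_zero
  | @cons g u gs us hg hrest ih =>
    cases ks with
    | nil => simpa [monL, monV] using CB.has_zero
    | cons k ks =>
      have h1 := (hg.2.2.2.smul k).add (ih ks)
      have h2 : ((Real.log ‖monV (u :: us) (k :: ks)‖ : ℝ) : ℂ) =
          (k : ℂ) * ((Real.log ‖u‖ : ℝ) : ℂ) + ((Real.log ‖monV us ks‖ : ℝ) : ℂ) := by
        rw [monV, norm_mul, Real.log_mul (norm_ne_zero_iff.2 (zpow_ne_zero _ hg.1))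
          (norm_ne_zero_iff.2 (monV_ne hrest ks)), norm_zpow, Real.log_zpow]
        push_cast
        rfl
      rw [h2]
      exact h1

theorem monV_neg (us : List ℂ) (ks : List ℤ) : monV us (ks.map fun k => -k) = (monV us ks)⁻¹ := by
  induction us generalizing ks with
  | nil => cases ks <;> simp [monV]
  | cons u us ih =>
    cases ks with
    | nil => simp [monV]
    | cons k ks => simp [monV, ih, zpow_neg, mul_comm]

/-- an entry `c · 𝓛_n(∏ u_i^{k_i})`; `flip` says that the inversion formula is used -/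
structure Ent where
  /-- coefficient -/
  c : ℤ
  /-- exponents -/
  k : List ℤ
  /-- use the inverse argument -/
  flip : Bool
  /-- bound for the absolute value, times 1000 -/
  rn : ℕ
  /-- number of terms of the series -/
  N : ℕ

/-- exponents of the argument inside the unit disc -/
def Ent.ks (E : Ent) : List ℤ := if E.flip then E.k.map fun k => -k else E.k

/-- box of the value -/
noncomputable def Ent.ps (E : Ent) (n T : ℕ) (gs : List Gen) : CB :=
  psB n (monB gs E.ks) (monL gs E.ks) E.N T n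

/-- sign in the inversion formula -/
def Ent.sgn (E : Ent) (n : ℕ) : ℤ := if E.flip && n % 2 == 0 then -1 else 1

/-- checks -/
def Ent.ok (E : Ent) (T : ℕ) (gs : List Gen) : Bool :=
  normOK (monB gs E.ks) E.rn && tailOK E.rn E.N T

/-- approximate value of a sum of entries, and error bound -/
noncomputable def regB (n T : ℕ) (gs : List Gen) : List Ent → ℤ × ℕ
  | [] => (0, 0)
  | E :: l => (E.c * (E.sgn n * partB n (E.ps n T gs)) + (regB n T gs l).1,
      E.c.natAbs * (E.ps n T gs).e + (regB n T gs l).2)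

/-- exact value of a sum of entries -/
noncomputable def regV (n : ℕ) (us : List ℂ) : List Ent → ℝ
  | [] => 0
  | E :: l => E.c * calL n ((monV us E.k : ℂ) : OnePoint ℂ) + regV n us l

theorem ent_has {n T : ℕ} (hn0 : 0 < n) (hn8 : n ≤ 8) {gs : List Gen} {us : List ℂ}
    (h : List.Forall₂ Gen.Has gs us) (E : Ent) (hE : E.ok T gs = true) :
    |calL n ((monV us E.k : ℂ) : OnePoint ℂ) * scl - (E.sgn n * partB n (E.ps n T gs) : ℤ)| ≤
      (E.ps n T gs).e := by
  simp only [Ent.ok, Bool.and_eq_true] at hE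
  have h1 := calLdisc_has hn8 (monB_has h E.ks) hE.1 hE.2 (monL_has h E.ks)
  have hr := norm_le_of_normOK (monB_has h E.ks) hE.1
  have ht' := hE.2
  simp only [tailOK, Bool.and_eq_true, decide_eq_true_eq] at ht'
  have hr' : (E.rn : ℝ) / 1000 < 1 := by
    rw [div_lt_one (by norm_num)]; exact_mod_cast ht'.1
  have hlt : ‖monV us E.ks‖ < 1 := lt_of_le_of_lt hr hr'
  cases hf : E.flip
  · have hk : E.ks = E.k := by simp [Ent.ks, hf]
    have hs : E.sgn n = 1 := by simp [Ent.sgn, hf]
    rw [hk] at hlt h1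
    rw [calL_of_le hlt.le, hs, one_mul, Ent.ps, hk]
    exact h1
  · have hk : E.ks = E.k.map fun k => -k := by simp [Ent.ks, hf]
    rw [hk, monV_neg] at hlt
    have h3 : monV us E.k ≠ 0 := monV_ne h _
    have h2 := calL_inv (n := n) hlt (inv_ne_zero h3)
    rw [inv_inv] at h2
    rw [h2]
    have h4 : calLdisc n (monV us E.k)⁻¹ = calLdisc n (monV us E.ks) := by rw [hk, monV_neg]
    rw [h4]
    have hs : ((E.sgn n : ℤ) : ℝ) = (-1) ^ (n - 1) := by
      rw [Ent.sgn, hf]
      rcases Nat.even_or_odd n with he | ho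
      · have h5 : Odd (n - 1) := by
          rw [Nat.odd_sub' hn0]; simp [he]
        rw [h5.neg_one_pow, Nat.even_iff.1 he]; simp
      · have h5 : Even (n - 1) := by
          rw [Nat.even_sub' hn0]; simp [ho]
        rw [h5.neg_one_pow, Nat.odd_iff.1 ho]; simp
    push_cast
    rw [hs]
    have h6 : (-1 : ℝ) ^ (n - 1) * calLdisc n (monV us E.ks) * scl -
        (-1) ^ (n - 1) * (partB n (E.ps n T gs) : ℤ) =
        (-1) ^ (n - 1) * (calLdisc n (monV us E.ks) * scl - (partB n (E.ps n T gs) : ℤ)) := by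
      ring
    rw [h6, abs_mul, abs_pow, abs_neg, abs_one, one_pow, one_mul]
    exact h1

theorem regB_has {n T : ℕ} (hn0 : 0 < n) (hn8 : n ≤ 8) {gs : List Gen} {us : List ℂ}
    (h : List.Forall₂ Gen.Has gs us) (l : List Ent) (hl : l.all (fun E => E.ok T gs) = true) :
    |regV n us l * scl - (regB n T gs l).1| ≤ (regB n T gs l).2 := by
  induction l with
  | nil => simp [regV, regB]
  | cons E l ih =>
    simp only [List.all_cons, Bool.and_eq_true] at hl
    have h1 := ent_has hn0 hn8 h E hl.1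
    have h2 := ih hl.2
    have e1 : regV n us (E :: l) * scl - ((regB n T gs (E :: l)).1 : ℤ) =
        E.c * (calL n ((monV us E.k : ℂ) : OnePoint ℂ) * scl -
          (E.sgn n * partB n (E.ps n T gs) : ℤ)) +
        (regV n us l * scl - (regB n T gs l).1) := by
      simp only [regV, regB]; push_cast; ring
    rw [e1]
    refine (abs_add_le _ _).trans ?_
    simp only [regB]
    rw [Nat.cast_add, Nat.cast_mul, natAbs_cast]
    refine add_le_add ?_ h2
    rw [abs_mul]
    exact mul_le_mul_of_nonneg_left h1 (abs_nonneg _)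

end Pool.Agent.Zagier
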