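import Pool.Agent.Zagier.Analytic

/-!
# Certificates
-/

open scoped TensorProduct

namespace Pool.Agent.Zagier

universe u

section

variable {G : Type} [AddCommGroup G] {K : Type u} [Field K] {ev : G →+ Additive Kˣ}

/-- Kummer's relation -/
def relK (m : ℕ) (m1 : G) (P : Pt G) : List (ℤ × G) :=
  if m = 4 then famL K4 m1 P else if m = 5 then (-18, 0) :: famL K5 m1 P else []

/-- inversion relation -/
def relInv (m : ℕ) (g : G) : List (ℤ × G) := [(1, g), ((-1) ^ m, -g)]

/-- distribution relation -/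
def relDist (m : ℕ) (m1 : G) (g : G) : List (ℤ × G) :=
  [(1, (2 : ℤ) • g), (-2 ^ (m - 1), g), (-2 ^ (m - 1), m1 + g)]

/-- a certificate: Kummer relations, distributions, inversions, and multiples of `{1}`, `{-1}` -/
structure Cert (G : Type) where
  /-- Kummer relations -/
  kum : List (ℤ × Pt G)
  /-- distribution relations -/
  dist : List (ℤ × G)
  /-- inversion relations -/
  inv : List (ℤ × G)
  /-- multiple of `{1}` -/
  one : ℤ
  /-- multiple of `{-1}` -/
  negOne : ℤ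

/-- sum of the relations of a certificate -/
def Cert.toL (C : Cert G) (m : ℕ) (m1 : G) : List (ℤ × G) :=
  (C.kum.flatMap fun p => scaleL p.1 (relK m m1 p.2)) ++
  ((C.dist.flatMap fun p => scaleL p.1 (relDist m m1 p.2)) ++
  ((C.inv.flatMap fun p => scaleL p.1 (relInv m p.2)) ++
  (scaleL C.one (if m = 4 then [(1, 0)] else []) ++
    scaleL C.negOne (if m = 4 then [(1, m1)] else []))))

theorem RS.flatMap {α : Type} {m : ℕ} (l : List (ℤ × α)) (f : α → List (ℤ × G))
    (h : ∀ p ∈ l, RS ev m (f p.2)) : RS ev m (l.flatMap fun p => scaleL p.1 (f p.2)) := by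
  induction l with
  | nil => exact RS.nil
  | cons p l ih =>
    rw [List.flatMap_cons]
    exact ((h p (by simp)).scale p.1).append (ih fun q hq => h q (by simp [hq]))

theorem RS.cert {m : ℕ} (hm : m = 4 ∨ m = 5) {m1 : G} (hm1 : val ev m1 = -1) (C : Cert G)
    (hP : ∀ p ∈ C.kum, val ev p.2.x + val ev p.2.x' = 1 ∧ val ev p.2.y + val ev p.2.y' = 1) :
    RS ev m (C.toL m m1) := by
  have hm2 : 2 ≤ m := by omega
  refine (RS.flatMap _ _ fun p hp => ?_).append ((RS.flatMap _ _ fun p _ => ?_).append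
    ((RS.flatMap _ _ fun p _ => ?_).append ((RS.scale _ ?_).append (RS.scale _ ?_))))
  · rcases hm with rfl | rfl
    · exact RS.kummerFour hm1 p.2 (hP p hp).1 (hP p hp).2
    · exact RS.kummerFive hm1 p.2 (hP p hp).1 (hP p hp).2
  · exact RS.dist hm2 hm1 p.2
  · exact RS.inv hm2 p.2
  · rcases hm with rfl | rfl
    · exact RS.one (by norm_num) (by decide)
    · exact RS.nil
  · rcases hm with rfl | rfl
    · exact RS.negOne (by norm_num) (by decide) hm1
    · exact RS.nil

end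

/-! ### monomials `± u^k` -/

section

variable {K : Type u} [Field K]

/-- `(a, k) ↦ (-1)^a u^k` -/
noncomputable def evU (u : Kˣ) : ℤ × ℤ →+ Additive Kˣ :=
  AddMonoidHom.coprod (zmultiplesHom _ (Additive.ofMul (-1 : Kˣ)))
    (zmultiplesHom _ (Additive.ofMul u))

theorem val_evU (u : Kˣ) (a k : ℤ) : val (evU u) (a, k) = (-1) ^ a * (u : K) ^ k := by
  simp [val, evU, AddMonoidHom.coprod_apply]

/-- reduction of the exponent of `-1` -/
def nfU (g : ℤ × ℤ) : ℤ × ℤ := (g.1 % 2, g.2)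

theorem evU_nf (u : Kˣ) (g : ℤ × ℤ) : evU u (nfU g) = evU u g := by
  obtain ⟨a, k⟩ := g
  have h2 : (2 : ℤ) • (Additive.ofMul (-1 : Kˣ)) = 0 := by
    rw [← ofMul_zpow]; simp
  have h : (a % 2) • Additive.ofMul (-1 : Kˣ) = a • Additive.ofMul (-1 : Kˣ) := by
    conv_rhs => rw [← Int.emod_add_mul_ediv a 2]
    rw [add_zsmul, mul_comm, mul_zsmul, h2, zsmul_zero, add_zero]
  simp only [evU, nfU, AddMonoidHom.coprod_apply, zmultiplesHom_apply, h]

/-- membership in `ker δ_{m+1}` for combinations of `± u^k` -/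
theorem ker_of_cert {n m : ℕ} (hn : n = m + 1) (hm : m = 4 ∨ m = 5) (u : Kˣ)
    (L : List (ℤ × (ℤ × ℤ))) (C : Cert (ℤ × ℤ)) (c : ℤ) (hc : c ≠ 0)
    (hP : ∀ p ∈ C.kum, val (evU u) p.2.x + val (evU u) p.2.x' = 1 ∧
      val (evU u) p.2.y + val (evU u) p.2.y' = 1)
    (hsame : sameL nfU (C.toL m (1, 0)) (scaleL c (contractL (fun g => g.2) L)) = true) :
    ∃ N : ℕ, 0 < N ∧ N • evL (evU u) L ∈ kerDelta n K := by
  have hm1 : val (evU u) (1, 0) = -1 := by simp [val_evU]
  have h : RS (evU u) m (contractL (fun g => g.2) L) :=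
    RS.congr nfU (evU_nf u) c hc hsame (RS.cert hm hm1 C hP)
  have h2 : ∀ p ∈ L, nfU (2 • (p.2 - ∑ j : Unit, (fun (_ : Unit) (g : ℤ × ℤ) => g.2) j p.2 •
      (fun (_ : Unit) => ((0, 1) : ℤ × ℤ)) j)) = 0 := by
    intro p _
    obtain ⟨c, a, k⟩ := p
    simp [nfU]
  have h1 := exists_mem_kerDelta (G := ℤ × ℤ) (K := K) (ev := evU u) (ι := Unit) (n := n) (m := m)
    hn (by omega) nfU (evU_nf u) (fun _ g => g.2) (fun _ => (0, 1)) 2 two_pos L h2
  exact h1 (fun _ => h)

end

end Pool.Agent.Zagier
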