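import Pool.Agent.Zagier.Coeffs

/-!
# Classification of fields with two places and exceptional units
-/

open Polynomial NumberField IntermediateField

namespace Pool.Agent.Zagier

universe u

/-- composition modulo `p ++ [1]` -/
def compR (p : List ℤ) : List ℤ → List ℤ → List ℤ
  | [], _ => []
  | c :: l, q => addP [c] (mulR p q (compR p l q))

/-- `q(x)` is a root of `p ++ [1]` and `x = r(q(x))` for a root `x` of `f ++ [1]` -/
def transOK (f p q r : List ℤ) : Bool :=
  !f.isEmpty && (eqR f (compR f (p ++ [1]) q) [] && eqR f (compR f r q) [0, 1])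

section

variable {K : Type u} [Field K]

theorem evP_compR {x : K} {p : List ℤ} (hp : p ≠ []) (hx : evP x (p ++ [1]) = 0) (l q : List ℤ) :
    evP x (compR p l q) = evP (evP x q) l := by
  induction l with
  | nil => rfl
  | cons c l ih => rw [compR, evP_add, evP_mulR hp hx, ih]; simp [evP]

theorem evP_three {t : K} {a b c : ℤ} (h : t ^ 3 + a * t ^ 2 + b * t + c = 0) :
    evP t ([c, b, a] ++ [1]) = 0 := by
  simp only [List.cons_append, List.nil_append, evP]
  push_cast
  linear_combination h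

theorem evP_four {t : K} {a b c d : ℤ} (h : t ^ 4 + a * t ^ 3 + b * t ^ 2 + c * t + d = 0) :
    evP t ([d, c, b, a] ++ [1]) = 0 := by
  simp only [List.cons_append, List.nil_append, evP]
  push_cast
  linear_combination h

end

/-- `F` is generated by a root of `p ++ [1]` -/
def RootIn (F : Type u) [Field F] [NumberField F] (p : List ℤ) : Prop :=
  ∃ y : F, evP y (p ++ [1]) = 0 ∧ IntermediateField.adjoin ℚ {y} = ⊤

section

variable {F : Type u} [Field F] [NumberField F]

theorem evP_mem_adjoin (y : F) (l : List ℤ) : evP y l ∈ IntermediateField.adjoin ℚ {y} := by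
  induction l with
  | nil => exact zero_mem _
  | cons c l ih =>
    refine add_mem ?_ (mul_mem (IntermediateField.mem_adjoin_simple_self ℚ y) ih)
    exact intCast_mem _ c

theorem rootIn_of_trans {t : F} {f p : List ℤ} (q r : List ℤ) (ht : evP t (f ++ [1]) = 0)
    (htop : IntermediateField.adjoin ℚ {t} = ⊤) (h : transOK f p q r = true) : RootIn F p := by
  simp only [transOK, Bool.and_eq_true, Bool.not_eq_true', List.isEmpty_eq_false_iff] at h
  obtain ⟨hf, h1, h2⟩ := h
  have e1 := evP_eqR hf ht h1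
  have e2 := evP_eqR hf ht h2
  rw [evP_compR hf ht] at e1 e2
  have e3 : evP t [0, 1] = t := by simp [evP]
  rw [e3] at e2
  refine ⟨evP t q, e1, ?_⟩
  rw [eq_top_iff, ← htop, IntermediateField.adjoin_simple_le_iff]
  have := evP_mem_adjoin (evP t q) r
  rwa [e2] at this

/-- a root of degree four does not satisfy a quadratic equation -/
theorem not_quadratic (t : 𝓞 F) (h : (mp (t : F)).natDegree = 4) (a b : ℤ) :
    (t : F) ^ 2 + a * t + b ≠ 0 := by
  intro h0
  have h1 : aeval (t : F) (X ^ 2 + C (a : ℚ) * X + C (b : ℚ) : ℚ[X]) = 0 := by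
    simp only [map_add, map_mul, map_pow, aeval_X, aeval_C]
    simp only [eq_ratCast, Rat.cast_intCast]
    exact h0
  have h2 : (X ^ 2 + C (a : ℚ) * X + C (b : ℚ) : ℚ[X]).natDegree = 2 := by compute_degree!
  have h3 : (X ^ 2 + C (a : ℚ) * X + C (b : ℚ) : ℚ[X]) ≠ 0 := by
    intro h; rw [h] at h2; simp at h2
  have h4 := natDegree_le_natDegree (minpoly.degree_le_of_ne_zero ℚ (t : F) h3 h1)
  rw [mp_natDegree, h, h2] at h4
  omega

/-- a polynomial without its leading coefficient -/
def pA : List ℤ := [-1, -1, 0]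

/-- a polynomial without its leading coefficient -/
def pB : List ℤ := [-1, 1, 0]

/-- a polynomial without its leading coefficient -/
def pC : List ℤ := [1, 1, -1, -1]

/-- a polynomial without its leading coefficient -/
def pD : List ℤ := [1, 1, 0, -2]

/-- a polynomial without its leading coefficient -/
def pE : List ℤ := [1, 0, 0, -1]

/-- a polynomial without its leading coefficient -/
def pF : List ℤ := [1, 0, 1, -2]

/-- a polynomial without its leading coefficient -/
def pG : List ℤ := [1, -1, 1, -1]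

/-- a polynomial without its leading coefficient -/
def pH : List ℤ := [1, 0, -1, 0]

theorem exc_three_root (t : 𝓞 F) (h0 : IsUnit t) (h1 : IsUnit (1 - t))
    (hF : Fintype.card (InfinitePlace F) = 2) (hd : Module.finrank ℚ F = 3)
    (h : (mp (t : F)).natDegree = 3) : RootIn F pA ∨ RootIn F pB := by
  have htop := top_of_natDegree t (by rw [h, hd])
  obtain ⟨a, b, c, ht, habc⟩ := exc_three t h0 h1 hF hd h
  have hev := evP_three ht
  rcases habc with ⟨rfl, rfl, h3, h4⟩ | ⟨rfl, rfl, h3, h4⟩ | ⟨rfl, rfl, h3, h4⟩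
  · interval_cases a
    · exact Or.inl (rootIn_of_trans [1, -1, 0] [1, -1, 0] hev htop (by decide +kernel))
    · exact Or.inr (rootIn_of_trans [0, -1, 1] [0, 0, -1] hev htop (by decide +kernel))
    · exact Or.inl (rootIn_of_trans [0, -1, 1] [1, 0, -1] hev htop (by decide +kernel))
    · exact Or.inl (rootIn_of_trans [0, -1, 0] [0, -1, 0] hev htop (by decide +kernel))
    · exact Or.inr (rootIn_of_trans [1, -2, -1] [-1, -1, -1] hev htop (by decide +kernel))
    · exact Or.inl (rootIn_of_trans [-2, 2, 1] [0, -1, -1] hev htop (by decide +kernel))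
  · interval_cases a
    · exact Or.inl (rootIn_of_trans [2, -3, 1] [2, 0, -1] hev htop (by decide +kernel))
    · exact Or.inr (rootIn_of_trans [1, -1, 0] [1, -1, 0] hev htop (by decide +kernel))
    · exact Or.inl (rootIn_of_trans [2, -2, 1] [0, -1, 1] hev htop (by decide +kernel))
    · exact Or.inl (rootIn_of_trans [1, 0, 1] [1, 1, -1] hev htop (by decide +kernel))
    · exact Or.inr (rootIn_of_trans [0, 1, 0] [0, 1, 0] hev htop (by decide +kernel))
    · exact Or.inl (rootIn_of_trans [0, 1, 1] [-1, 0, 1] hev htop (by decide +kernel))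
  · interval_cases a
    · exact Or.inl (rootIn_of_trans [1, -4, 1] [1, 1, 1] hev htop (by decide +kernel))
    · exact Or.inr (rootIn_of_trans [-2, 4, -1] [2, 1, 1] hev htop (by decide +kernel))
    · exact Or.inl (rootIn_of_trans [-1, 1, 0] [1, 1, 0] hev htop (by decide +kernel))
    · exact Or.inl (rootIn_of_trans [0, -1, 1] [0, 0, 1] hev htop (by decide +kernel))
    · exact Or.inr (rootIn_of_trans [0, -1, 1] [1, 0, 1] hev htop (by decide +kernel))
    · exact Or.inl (rootIn_of_trans [0, 1, 0] [0, 1, 0] hev htop (by decide +kernel))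

/-- the quartic fields generated by an exceptional unit -/
def RootQ (F : Type u) [Field F] [NumberField F] : Prop :=
  RootIn F pC ∨ RootIn F pD ∨ RootIn F pE ∨ RootIn F pF ∨ RootIn F pG ∨ RootIn F pH

theorem exc_four_root (t : 𝓞 F) (h0 : IsUnit t) (h1 : IsUnit (1 - t))
    (hr0 : InfinitePlace.nrRealPlaces F = 0) (hd : Module.finrank ℚ F = 4)
    (h : (mp (t : F)).natDegree = 4) : RootQ F := by
  have htop := top_of_natDegree t (by rw [h, hd])
  obtain ⟨a, b, ht, hb1, hab1, hab2⟩ := exc_four t h0 h1 hr0 hd h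
  have ht' : (t : F) ^ 4 + a * (t : F) ^ 3 + b * (t : F) ^ 2 + ((-1 - a - b : ℤ) : F) * t +
      ((1 : ℤ) : F) = 0 := by push_cast; linear_combination ht
  have hev := evP_four ht'
  have hb2 : b ≤ 11 := by omega
  interval_cases b
  · have l1 : -2 ≤ a := by omega
    have l2 : a ≤ 2 := by omega
    interval_cases a
    · exact absurd (pow_eq_zero_iff two_ne_zero |>.1 (by
        push_cast at ht ⊢
        linear_combination ht : ((t : F) ^ 2 + ((-1 : ℤ) : F) * t + ((-1 : ℤ) : F)) ^ 2 = 0))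
        (not_quadratic t h (-1) (-1))
    · exact Or.inl (rootIn_of_trans [0, 1, 0, 0] [0, 1, 0, 0] hev htop (by decide +kernel))
    · exact Or.inr (Or.inr (Or.inr (Or.inr (Or.inr (rootIn_of_trans [0, 1, 0, 0] [0, 1, 0, 0] hev htop (by decide +kernel))))))
    · exact Or.inl (rootIn_of_trans [0, -1, 0, 0] [0, -1, 0, 0] hev htop (by decide +kernel))
    · exact absurd (pow_eq_zero_iff two_ne_zero |>.1 (by
        push_cast at ht ⊢
        linear_combination ht : ((t : F) ^ 2 + ((1 : ℤ) : F) * t + ((-1 : ℤ) : F)) ^ 2 = 0))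
        (not_quadratic t h (1) (-1))
  · have l1 : -2 ≤ a := by omega
    have l2 : a ≤ 1 := by omega
    interval_cases a
    · exact Or.inr (Or.inl (rootIn_of_trans [0, 1, 0, 0] [0, 1, 0, 0] hev htop (by decide +kernel)))
    · exact Or.inr (Or.inr (Or.inl (rootIn_of_trans [0, 1, 0, 0] [0, 1, 0, 0] hev htop (by decide +kernel))))
    · exact Or.inr (Or.inr (Or.inl (rootIn_of_trans [1, 0, 0, -1] [0, 0, 1, -1] hev htop (by decide +kernel))))
    · exact Or.inr (Or.inl (rootIn_of_trans [-1, 0, 1, 1] [0, -1, -1, 1] hev htop (by decide +kernel)))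
  · have l1 : -2 ≤ a := by omega
    have l2 : a ≤ 0 := by omega
    interval_cases a
    · exact Or.inr (Or.inr (Or.inr (Or.inl (rootIn_of_trans [0, 1, 0, 0] [0, 1, 0, 0] hev htop (by decide +kernel)))))
    · exact Or.inr (Or.inr (Or.inr (Or.inr (Or.inl (rootIn_of_trans [0, 1, 0, 0] [0, 1, 0, 0] hev htop (by decide +kernel))))))
    · exact Or.inr (Or.inr (Or.inr (Or.inl (rootIn_of_trans [-1, 1, 0, 1] [0, 0, -1, 1] hev htop (by decide +kernel)))))
  · have l1 : -3 ≤ a := by omega
    have l2 : a ≤ 0 := by omega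
    interval_cases a
    · exact Or.inl (rootIn_of_trans [1, -1, 0, 0] [1, -1, 0, 0] hev htop (by decide +kernel))
    · exact Or.inl (rootIn_of_trans [0, 0, 1, -1] [1, 1, -1, 0] hev htop (by decide +kernel))
    · exact Or.inl (rootIn_of_trans [1, 0, 1, 0] [-1, 0, 2, -1] hev htop (by decide +kernel))
    · exact Or.inl (rootIn_of_trans [-2, 2, 0, 1] [0, -1, 0, 1] hev htop (by decide +kernel))
  · have l1 : -3 ≤ a := by omega
    have l2 : a ≤ -1 := by omega
    interval_cases a
    · exact Or.inr (Or.inr (Or.inl (rootIn_of_trans [1, -1, 0, 0] [1, -1, 0, 0] hev htop (by decide +kernel))))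
    · exact absurd (pow_eq_zero_iff two_ne_zero |>.1 (by
        push_cast at ht ⊢
        linear_combination ht : ((t : F) ^ 2 + ((-1 : ℤ) : F) * t + ((1 : ℤ) : F)) ^ 2 = 0))
        (not_quadratic t h (-1) (1))
    · exact Or.inr (Or.inr (Or.inl (rootIn_of_trans [-2, 3, -1, 1] [0, 0, 0, 1] hev htop (by decide +kernel))))
  · have l1 : -3 ≤ a := by omega
    have l2 : a ≤ -2 := by omega
    interval_cases a
    · exact Or.inr (Or.inr (Or.inr (Or.inr (Or.inl (rootIn_of_trans [1, -1, 0, 0] [1, -1, 0, 0] hev htop (by decide +kernel))))))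
    · exact Or.inr (Or.inr (Or.inr (Or.inr (Or.inl (rootIn_of_trans [0, 2, -1, 1] [1, -1, 1, 0] hev htop (by decide +kernel))))))
  · have l1 : -4 ≤ a := by omega
    have l2 : a ≤ -2 := by omega
    interval_cases a
    · exact Or.inr (Or.inr (Or.inr (Or.inr (Or.inr (rootIn_of_trans [-1, 1, 0, 0] [1, 1, 0, 0] hev htop (by decide +kernel))))))
    · exact Or.inl (rootIn_of_trans [0, -2, 2, -1] [0, 0, 1, 0] hev htop (by decide +kernel))
    · exact Or.inr (Or.inr (Or.inr (Or.inr (Or.inr (rootIn_of_trans [-1, 4, -1, 1] [1, 0, -1, 1] hev htop (by decide +kernel))))))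
  · have l1 : -4 ≤ a := by omega
    have l2 : a ≤ -3 := by omega
    interval_cases a
    · exact Or.inr (Or.inr (Or.inl (rootIn_of_trans [0, 3, -3, 1] [1, 0, -1, 1] hev htop (by decide +kernel))))
    · exact Or.inr (Or.inr (Or.inl (rootIn_of_trans [1, -4, 2, -1] [1, 0, 0, -1] hev htop (by decide +kernel))))
  · have l1 : -4 ≤ a := by omega
    have l2 : a ≤ -4 := by omega
    interval_cases a
    · exact Or.inr (Or.inr (Or.inr (Or.inl (rootIn_of_trans [1, -4, 3, -1] [1, 0, 1, -1] hev htop (by decide +kernel)))))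
  · have l1 : -5 ≤ a := by omega
    have l2 : a ≤ -4 := by omega
    interval_cases a
    · exact Or.inl (rootIn_of_trans [-1, 1, 0, 0] [1, 1, 0, 0] hev htop (by decide +kernel))
    · exact Or.inl (rootIn_of_trans [1, -5, 3, -1] [1, 1, 0, -1] hev htop (by decide +kernel))
  · have l1 : -5 ≤ a := by omega
    have l2 : a ≤ -5 := by omega
    interval_cases a
    · exact Or.inr (Or.inl (rootIn_of_trans [0, 5, -4, 1] [2, 0, -2, 1] hev htop (by decide +kernel)))
  · exfalso; omega
  · have l1 : -6 ≤ a := by omega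
    have l2 : a ≤ -6 := by omega
    interval_cases a
    · exact absurd (pow_eq_zero_iff two_ne_zero |>.1 (by
        push_cast at ht ⊢
        linear_combination ht : ((t : F) ^ 2 + ((-3 : ℤ) : F) * t + ((1 : ℤ) : F)) ^ 2 = 0))
        (not_quadratic t h (-3) (1))

/-- Fields with two places containing an exceptional unit. -/
theorem exc_root (hF : Fintype.card (InfinitePlace F) = 2) (t : 𝓞 F) (h0 : IsUnit t)
    (h1 : IsUnit (1 - t)) (hne : (t : F) ^ 2 - t + 1 ≠ 0) :
    (∃ s : F, s ^ 2 = 5) ∨ (RootIn F pA ∨ RootIn F pB) ∨ RootQ F := by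
  have hdvd := mp_dvd t
  have hpos := mp_pos t
  have hn1 := not_degree_one t h0 h1
  rcases card_cases hF with hd | hd | ⟨hd, hr0⟩
  · rw [hd] at hdvd
    have := Nat.le_of_dvd (by norm_num) hdvd
    have h2 : (mp (t : F)).natDegree = 2 := by omega
    rcases exc_two t h0 h1 h2 with h | h
    · exact absurd h hne
    · exact Or.inl h
  · rw [hd] at hdvd
    have h3 : (mp (t : F)).natDegree = 3 :=
      ((Nat.dvd_prime (by norm_num : Nat.Prime 3)).1 hdvd).resolve_left hn1
    exact Or.inr (Or.inl (exc_three_root t h0 h1 hF hd h3))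
  · rw [hd] at hdvd
    have h4 := Nat.le_of_dvd (by norm_num) hdvd
    have h5 : (mp (t : F)).natDegree ≠ 3 := by intro h; rw [h] at hdvd; omega
    rcases (by omega : (mp (t : F)).natDegree = 2 ∨ (mp (t : F)).natDegree = 4) with h2 | h4
    · rcases exc_two t h0 h1 h2 with h | h
      · exact absurd h hne
      · exact Or.inl h
    · exact Or.inr (Or.inr (exc_four_root t h0 h1 hr0 hd h4))

/-- Fields with two places generated by an exceptional unit. -/
theorem exc_root_gen (hF : Fintype.card (InfinitePlace F) = 2) (t : 𝓞 F) (h0 : IsUnit t)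
    (h1 : IsUnit (1 - t)) (htop : IntermediateField.adjoin ℚ {(t : F)} = ⊤) :
    Module.finrank ℚ F = 2 ∨ (RootIn F pA ∨ RootIn F pB) ∨ RootQ F := by
  have hn : (mp (t : F)).natDegree = Module.finrank ℚ F := by
    rw [← mp_natDegree]
    exact (Field.primitive_element_iff_minpoly_natDegree_eq ℚ (t : F)).1 htop
  rcases card_cases hF with hd | hd | ⟨hd, hr0⟩
  · exact Or.inl hd
  · exact Or.inr (Or.inl (exc_three_root t h0 h1 hF hd (by rw [hn, hd])))
  · exact Or.inr (Or.inr (exc_four_root t h0 h1 hr0 hd (by rw [hn, hd])))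

/-! ### units `t, 1 - t, 1 - t + t²` -/

theorem form_cases {α β : ℤ} (h : α ^ 2 + α * β + β ^ 2 = 1) :
    (α = 1 ∧ β = 0) ∨ (α = -1 ∧ β = 0) ∨ (α = 0 ∧ β = 1) ∨ (α = 0 ∧ β = -1) ∨
      (α = 1 ∧ β = -1) ∨ (α = -1 ∧ β = 1) := by
  have h1 : α ≤ 1 := by nlinarith [sq_nonneg (α + 2 * β)]
  have h2 : -1 ≤ α := by nlinarith [sq_nonneg (α + 2 * β)]
  have h3 : β ≤ 1 := by nlinarith [sq_nonneg (2 * α + β)]
  have h4 : -1 ≤ β := by nlinarith [sq_nonneg (2 * α + β)]
  interval_cases α <;> interval_cases β <;> simp_all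

theorem tun_two (t : 𝓞 F) (h0 : IsUnit t) (h1 : IsUnit (1 - t)) (h2 : IsUnit (1 - t + t ^ 2)) :
    (mp (t : F)).natDegree ≠ 2 := by
  intro h
  obtain ⟨a, b, hP⟩ := mp_two t h
  have e0 := unit_zero t h0
  have e1 := unit_one t h1
  have hn := normform_of_isUnit t h2 (a + 1) (b - 1) (by
    intro z hz
    rw [hP]
    simp only [map_add, map_mul, map_pow, aeval_X, aeval_C]
    simp only [eq_intCast]
    push_cast
    linear_combination hz)
  rw [hP] at e0 e1
  simp only [eval_add, eval_mul, eval_pow, eval_X, eval_C] at e0 e1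
  have e0' := eq_one_or_neg_one_of_abs e0
  have e1' := eq_one_or_neg_one_of_abs e1
  have := form_cases hn
  omega

theorem tun_three_root (t : 𝓞 F) (h0 : IsUnit t) (h1 : IsUnit (1 - t))
    (h2 : IsUnit (1 - t + t ^ 2)) (hd : Module.finrank ℚ F = 3)
    (h : (mp (t : F)).natDegree = 3) : RootIn F pA := by
  have htop := top_of_natDegree t (by rw [h, hd])
  obtain ⟨a, b, c, hP⟩ := mp_three t h
  have e0 := unit_zero t h0
  have e1 := unit_one t h1
  have ht := mp_aeval t
  have hn := normform_of_isUnit t h2 (a + b) (c - 1 - a) (by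
    intro z hz
    rw [hP]
    simp only [map_add, map_mul, map_pow, aeval_X, aeval_C]
    simp only [eq_intCast]
    push_cast
    linear_combination (z + a + 1) * hz)
  rw [hP] at e0 e1 ht
  simp only [eval_add, eval_mul, eval_pow, eval_X, eval_C] at e0 e1
  simp only [map_add, map_mul, map_pow, aeval_X, aeval_C] at ht
  simp only [eq_intCast] at ht
  have e0' := eq_one_or_neg_one_of_abs e0
  have e1' := eq_one_or_neg_one_of_abs e1
  have hev := evP_three ht
  have hc := form_cases hn
  have e0'' : c = 1 ∨ c = -1 := by simpa using e0'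
  have e1'' : 1 + a + b + c = 1 ∨ 1 + a + b + c = -1 := by simpa using e1'
  clear e0 e1 e0' e1' hP hn h0 h1 h2
  rcases hc with ⟨h3, h4⟩ | ⟨h3, h4⟩ | ⟨h3, h4⟩ | ⟨h3, h4⟩ | ⟨h3, h4⟩ | ⟨h3, h4⟩
  · rcases e1'' with e1 | e1
    · obtain ⟨rfl, rfl, rfl⟩ : a = -2 ∧ b = 3 ∧ c = -1 := by omega
      exact rootIn_of_trans [2, -2, 1] [0, -1, 1] hev htop (by decide +kernel)
    · exfalso; omega
  · rcases e1'' with e1 | e1
    · obtain ⟨rfl, rfl, rfl⟩ : a = 0 ∧ b = -1 ∧ c = 1 := by omega
      exact rootIn_of_trans [0, -1, 0] [0, -1, 0] hev htop (by decide +kernel)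
    · obtain ⟨rfl, rfl, rfl⟩ : a = -2 ∧ b = 1 ∧ c = -1 := by omega
      exact rootIn_of_trans [0, -1, 1] [0, 0, 1] hev htop (by decide +kernel)
  · rcases e1'' with e1 | e1
    · exfalso; omega
    · exfalso; omega
  · rcases e1'' with e1 | e1
    · exfalso; omega
    · exfalso; omega
  · rcases e1'' with e1 | e1
    · obtain ⟨rfl, rfl, rfl⟩ : a = -1 ∧ b = 2 ∧ c = -1 := by omega
      exact rootIn_of_trans [1, 0, 1] [1, 1, -1] hev htop (by decide +kernel)
    · exfalso; omega
  · rcases e1'' with e1 | e1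
    · obtain ⟨rfl, rfl, rfl⟩ : a = -1 ∧ b = 0 ∧ c = 1 := by omega
      exact rootIn_of_trans [0, -1, 1] [1, 0, -1] hev htop (by decide +kernel)
    · obtain ⟨rfl, rfl, rfl⟩ : a = -3 ∧ b = 2 ∧ c = -1 := by omega
      exact rootIn_of_trans [-1, 1, 0] [1, 1, 0] hev htop (by decide +kernel)

theorem tun_four_root (t : 𝓞 F) (h0 : IsUnit t) (h1 : IsUnit (1 - t))
    (h2 : IsUnit (1 - t + t ^ 2))
    (hr0 : InfinitePlace.nrRealPlaces F = 0) (hd : Module.finrank ℚ F = 4)
    (h : (mp (t : F)).natDegree = 4) : RootIn F pC ∨ RootIn F pG := by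
  have htop := top_of_natDegree t (by rw [h, hd])
  obtain ⟨a, b, c, d, hP⟩ := mp_four t h
  have e0 := unit_zero t h0
  have e1 := unit_one t h1
  have ht := mp_aeval t
  have hn := normform_of_isUnit t h2 (-1 + b + c) (-a - b + d) (by
    intro z hz
    rw [hP]
    simp only [map_add, map_mul, map_pow, aeval_X, aeval_C]
    simp only [eq_intCast]
    push_cast
    linear_combination (z ^ 2 + (a + 1) * z + a + b) * hz)
  have hr : ∀ q : ℝ, 0 < q ^ 4 + a * q ^ 3 + b * q ^ 2 + c * q + d := by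
    intro q
    have h1 := quartic_pos htop hr0 q
    rw [rmp_eval, hP] at h1
    simpa using h1
  rw [hP] at e0 e1 ht
  simp only [eval_add, eval_mul, eval_pow, eval_X, eval_C] at e0 e1
  simp only [map_add, map_mul, map_pow, aeval_X, aeval_C] at ht
  simp only [eq_intCast] at ht
  have e0' := eq_one_or_neg_one_of_abs e0
  have e1' := eq_one_or_neg_one_of_abs e1
  have hd1 : 0 < d := by
    have h2 := hr 0
    have h3 : (0 : ℝ) < d := by simpa using h2
    exact_mod_cast h3
  have hs1 : 0 < 1 + a + b + c + d := by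
    have h2 := hr 1
    have h3 : (0 : ℝ) < ((1 + a + b + c + d : ℤ) : ℝ) := by push_cast; linarith
    exact_mod_cast h3
  have hev := evP_four ht
  have hc := form_cases hn
  have e0'' : d = 1 := by
    have : d = 1 ∨ d = -1 := by simpa using e0'
    omega
  have e1'' : 1 + a + b + c + d = 1 := by
    have : 1 + a + b + c + d = 1 ∨ 1 + a + b + c + d = -1 := by simpa using e1'
    omega
  clear e0 e1 e0' e1' hP hn h0 h1 h2 hr hd1 hs1
  rcases hc with ⟨h3, h4⟩ | ⟨h3, h4⟩ | ⟨h3, h4⟩ | ⟨h3, h4⟩ | ⟨h3, h4⟩ | ⟨h3, h4⟩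
  · obtain ⟨rfl, rfl, rfl, rfl⟩ : a = -3 ∧ b = 4 ∧ c = -2 ∧ d = 1 := by omega
    exact Or.inr (rootIn_of_trans [1, -1, 0, 0] [1, -1, 0, 0] hev htop (by decide +kernel))
  · obtain ⟨rfl, rfl, rfl, rfl⟩ : a = -1 ∧ b = 2 ∧ c = -2 ∧ d = 1 := by omega
    exact Or.inl (rootIn_of_trans [1, 0, 1, 0] [-1, 0, 2, -1] hev htop (by decide +kernel))
  · obtain ⟨rfl, rfl, rfl, rfl⟩ : a = -2 ∧ b = 2 ∧ c = -1 ∧ d = 1 := by omega
    exact Or.inl (rootIn_of_trans [0, 0, 1, -1] [1, 1, -1, 0] hev htop (by decide +kernel))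
  · obtain ⟨rfl, rfl, rfl, rfl⟩ : a = -2 ∧ b = 4 ∧ c = -3 ∧ d = 1 := by omega
    exact Or.inr (rootIn_of_trans [0, 2, -1, 1] [1, -1, 1, 0] hev htop (by decide +kernel))
  · obtain ⟨rfl, rfl, rfl, rfl⟩ : a = -3 ∧ b = 5 ∧ c = -3 ∧ d = 1 := by omega
    exact Or.inl (rootIn_of_trans [0, -2, 2, -1] [0, 0, 1, 0] hev htop (by decide +kernel))
  · obtain ⟨rfl, rfl, rfl, rfl⟩ : a = -1 ∧ b = 1 ∧ c = -1 ∧ d = 1 := by omega
    exact Or.inr (rootIn_of_trans [0, 1, 0, 0] [0, 1, 0, 0] hev htop (by decide +kernel))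

/-- Fields with two places containing `t` with `t, 1 - t, 1 - t + t²` units. -/
theorem tun_root (hF : Fintype.card (InfinitePlace F) = 2) (t : 𝓞 F) (h0 : IsUnit t)
    (h1 : IsUnit (1 - t)) (h2 : IsUnit (1 - t + t ^ 2)) :
    RootIn F pA ∨ RootIn F pC ∨ RootIn F pG := by
  have hdvd := mp_dvd t
  have hpos := mp_pos t
  have hn1 := not_degree_one t h0 h1
  have hn2 := tun_two t h0 h1 h2
  rcases card_cases hF with hd | hd | ⟨hd, hr0⟩
  · rw [hd] at hdvd
    have := Nat.le_of_dvd (by norm_num) hdvd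
    omega
  · rw [hd] at hdvd
    have h3 : (mp (t : F)).natDegree = 3 :=
      ((Nat.dvd_prime (by norm_num : Nat.Prime 3)).1 hdvd).resolve_left hn1
    exact Or.inl (tun_three_root t h0 h1 h2 hd h3)
  · rw [hd] at hdvd
    have h4 := Nat.le_of_dvd (by norm_num) hdvd
    have h5 : (mp (t : F)).natDegree ≠ 3 := by intro h; rw [h] at hdvd; omega
    have h6 : (mp (t : F)).natDegree = 4 := by omega
    exact Or.inr (tun_four_root t h0 h1 h2 hr0 hd h6)

end

end Pool.Agent.Zagier
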