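import Pool.Agent.Zagier.ListPoly
import Pool.Agent.Zagier.Cert

/-!
# Computations in `ℚ(x)`, `x` a root of a monic integer polynomial
-/

open scoped TensorProduct

namespace Pool.Agent.Zagier

universe u

/-- one Horner step modulo the monic polynomial `p ++ [1]` -/
def stepR (p : List ℤ) (c : ℤ) (r : List ℤ) : List ℤ :=
  addP (c :: r.dropLast) (smulP (-(r.getLastD 0)) p)

/-- reduction modulo the monic polynomial `p ++ [1]` -/
def redP (p : List ℤ) : List ℤ → List ℤ
  | [] => p.map fun _ => 0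
  | c :: l => stepR p c (redP p l)

theorem length_smulP (c : ℤ) (a : List ℤ) : (smulP c a).length = a.length := by
  induction a with
  | nil => rfl
  | cons x a ih => simp [smulP, ih]

theorem length_addP (a b : List ℤ) (h : a.length = b.length) : (addP a b).length = a.length := by
  induction a generalizing b with
  | nil =>
    cases b with
    | nil => rfl
    | cons y b => simp at h
  | cons x a ih =>
    cases b with
    | nil => simp at h
    | cons y b => simp only [addP, List.length_cons]; rw [ih b (by simpa using h)]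

theorem length_stepR (p : List ℤ) (hp : p ≠ []) (c : ℤ) (r : List ℤ) (hr : r.length = p.length) :
    (stepR p c r).length = p.length := by
  have h0 : 0 < p.length := List.length_pos_iff.2 hp
  have h1 : (c :: r.dropLast).length = p.length := by
    rw [List.length_cons, List.length_dropLast, hr]; omega
  rw [stepR, length_addP _ _ (by rw [h1, length_smulP]), h1]

theorem length_redP (p : List ℤ) (hp : p ≠ []) (l : List ℤ) : (redP p l).length = p.length := by
  induction l with
  | nil => simp [redP]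
  | cons c l ih => exact length_stepR p hp c _ ih

section

variable {K : Type u} [Field K]

theorem evP_append (x : K) (a b : List ℤ) :
    evP x (a ++ b) = evP x a + x ^ a.length * evP x b := by
  induction a with
  | nil => simp [evP]
  | cons c a ih => simp only [List.cons_append, evP, ih, List.length_cons, pow_succ]; ring

theorem evP_stepR {x : K} {p : List ℤ} (hp : p ≠ []) (hx : evP x (p ++ [1]) = 0) (c : ℤ)
    (r : List ℤ) (hr : r.length = p.length) : evP x (stepR p c r) = c + x * evP x r := by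
  have h0 : 0 < p.length := List.length_pos_iff.2 hp
  have hr0 : r ≠ [] := by rw [← List.length_pos_iff, hr]; exact h0
  have h1 : r = r.dropLast ++ [r.getLastD 0] := by
    rw [List.getLastD_eq_getLast?, List.getLast?_eq_getLast_of_ne_nil hr0, Option.getD_some]
    exact (List.dropLast_append_getLast hr0).symm
  have h2 := evP_append x p [1]
  rw [hx] at h2
  rw [stepR, evP_add, evP_smul]
  conv_rhs => rw [h1, evP_append]
  simp only [evP] at h2 ⊢
  rw [List.length_dropLast, hr]
  have h3 : x ^ p.length = x * x ^ (p.length - 1) := by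
    rw [← pow_succ']; congr 1; omega
  push_cast at h2 ⊢
  rw [h3] at h2
  linear_combination (r.getLastD 0 : K) * h2

theorem evP_redP {x : K} {p : List ℤ} (hp : p ≠ []) (hx : evP x (p ++ [1]) = 0) (l : List ℤ) :
    evP x (redP p l) = evP x l := by
  induction l with
  | nil =>
    simp only [redP, evP]
    clear hp hx
    induction p with
    | nil => rfl
    | cons c p ih =>
      rw [List.map_cons]
      simp only [evP, ih]
      simp
  | cons c l ih => rw [redP, evP_stepR hp hx c _ (length_redP p hp l), ih]; rfl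

/-- product modulo `p ++ [1]` -/
def mulR (p a b : List ℤ) : List ℤ := redP p (mulP a b)

/-- power modulo `p ++ [1]` -/
def powR (p a : List ℤ) : ℕ → List ℤ
  | 0 => [1]
  | n + 1 => mulR p a (powR p a n)

theorem evP_mulR {x : K} {p : List ℤ} (hp : p ≠ []) (hx : evP x (p ++ [1]) = 0) (a b : List ℤ) :
    evP x (mulR p a b) = evP x a * evP x b := by
  rw [mulR, evP_redP hp hx, evP_mul]

theorem evP_powR {x : K} {p : List ℤ} (hp : p ≠ []) (hx : evP x (p ++ [1]) = 0) (a : List ℤ)
    (n : ℕ) : evP x (powR p a n) = evP x a ^ n := by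
  induction n with
  | zero => simp [powR, evP]
  | succ n ih => rw [powR, evP_mulR hp hx, ih, pow_succ, mul_comm]

/-- equality modulo `p ++ [1]` -/
def eqR (p a b : List ℤ) : Bool := isZeroP (redP p (addP a (smulP (-1) b)))

theorem evP_eqR {x : K} {p : List ℤ} (hp : p ≠ []) (hx : evP x (p ++ [1]) = 0) {a b : List ℤ}
    (h : eqR p a b = true) : evP x a = evP x b := by
  have h1 := evP_isZero x h
  rw [evP_redP hp hx, evP_add, evP_smul] at h1
  push_cast at h1
  linear_combination h1

/-- a generator `g = p(x)` with `g⁻¹ = q(x) / N` -/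
abbrev GenP := List ℤ × List ℤ × ℤ

/-- powers of an integer -/
def ipow (a : ℤ) : ℕ → ℤ
  | 0 => 1
  | n + 1 => ipow a n * a

theorem ipow_eq (a : ℤ) (n : ℕ) : ipow a n = a ^ n := by
  induction n with
  | zero => simp [ipow]
  | succ n ih => rw [ipow, ih, pow_succ]

/-- integral power of a generator (numerator) -/
def zpowR (p : List ℤ) (g : GenP) : ℤ → List ℤ
  | Int.ofNat n => powR p g.1 n
  | Int.negSucc n => powR p g.2.1 (n + 1)

/-- denominator of an integral power of a generator -/
def zden (g : GenP) : ℤ → ℤ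
  | Int.ofNat _ => 1
  | Int.negSucc n => ipow g.2.2 (n + 1)

/-- the generator is correct at `x` -/
def GenP.OK (x : K) (g : GenP) : Prop :=
  evP x g.1 * evP x g.2.1 = (g.2.2 : K) ∧ (g.2.2 : K) ≠ 0

theorem GenP.OK.ne {x : K} {g : GenP} (h : g.OK x) : evP x g.1 ≠ 0 :=
  left_ne_zero_of_mul (h.1 ▸ h.2)

theorem GenP.OK.inv {x : K} {g : GenP} (h : g.OK x) :
    (evP x g.1)⁻¹ * (g.2.2 : K) = evP x g.2.1 := by
  rw [← h.1, inv_mul_cancel_left₀ h.ne]

theorem zden_ne {x : K} {g : GenP} (h : g.OK x) (k : ℤ) : (zden g k : K) ≠ 0 := by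
  cases k with
  | ofNat n => simp [zden]
  | negSucc n => rw [zden, ipow_eq]; push_cast; exact pow_ne_zero _ h.2

theorem evP_zpowR {x : K} {p : List ℤ} (hp : p ≠ []) (hx : evP x (p ++ [1]) = 0) {g : GenP}
    (hg : g.OK x) (k : ℤ) : evP x (zpowR p g k) = evP x g.1 ^ k * (zden g k : K) := by
  cases k with
  | ofNat n => simpa [zpowR, zden] using evP_powR hp hx g.1 n
  | negSucc n =>
    rw [zpow_negSucc, zpowR, evP_powR hp hx, zden, ipow_eq, ← hg.inv, mul_pow]
    push_cast
    rw [inv_pow]

/-- a monomial in three generators (numerator) -/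
def monR (p : List ℤ) (gs : GenP × GenP × GenP) (k : ℤ × ℤ × ℤ) : List ℤ :=
  mulR p (zpowR p gs.1 k.1) (mulR p (zpowR p gs.2.1 k.2.1) (zpowR p gs.2.2 k.2.2))

/-- denominator of a monomial -/
def monD (gs : GenP × GenP × GenP) (k : ℤ × ℤ × ℤ) : ℤ :=
  zden gs.1 k.1 * (zden gs.2.1 k.2.1 * zden gs.2.2 k.2.2)

theorem evP_monR {x : K} {p : List ℤ} (hp : p ≠ []) (hx : evP x (p ++ [1]) = 0)
    {gs : GenP × GenP × GenP} (h0 : gs.1.OK x) (h1 : gs.2.1.OK x) (h2 : gs.2.2.OK x)
    (k : ℤ × ℤ × ℤ) : evP x (monR p gs k) =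
      evP x gs.1.1 ^ k.1 * (evP x gs.2.1.1 ^ k.2.1 * evP x gs.2.2.1 ^ k.2.2) *
        (monD gs k : K) := by
  rw [monR, evP_mulR hp hx, evP_mulR hp hx, evP_zpowR hp hx h0, evP_zpowR hp hx h1,
    evP_zpowR hp hx h2, monD]
  push_cast
  ring

theorem monD_ne {x : K} {gs : GenP × GenP × GenP} (h0 : gs.1.OK x) (h1 : gs.2.1.OK x)
    (h2 : gs.2.2.OK x) (k : ℤ × ℤ × ℤ) : (monD gs k : K) ≠ 0 := by
  rw [monD]; push_cast
  exact mul_ne_zero (zden_ne h0 _) (mul_ne_zero (zden_ne h1 _) (zden_ne h2 _))

end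

/-! ### the evaluation homomorphism -/

/-- exponent vectors -/
abbrev E3 := ℤ × ℤ × ℤ

section

variable {K : Type u} [Field K]

/-- `(a, b, c) ↦ τ^a u^b v^c` -/
noncomputable def ev3 (τ u v : Kˣ) : E3 →+ Additive Kˣ :=
  AddMonoidHom.coprod (zmultiplesHom _ (Additive.ofMul τ))
    (AddMonoidHom.coprod (zmultiplesHom _ (Additive.ofMul u))
      (zmultiplesHom _ (Additive.ofMul v)))

theorem ev3_apply (τ u v : Kˣ) (g : E3) : ev3 τ u v g =
    g.1 • Additive.ofMul τ + (g.2.1 • Additive.ofMul u + g.2.2 • Additive.ofMul v) := by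
  obtain ⟨a, b, c⟩ := g
  simp [ev3, AddMonoidHom.coprod_apply]

theorem val_ev3 (τ u v : Kˣ) (g : E3) :
    val (ev3 τ u v) g = (τ : K) ^ g.1 * ((u : K) ^ g.2.1 * (v : K) ^ g.2.2) := by
  rw [val, ev3_apply]
  simp

/-- reduction of the exponent of the torsion generator -/
def nf3 (T : ℤ) (g : E3) : E3 := (g.1 % T, g.2)

theorem ev3_nf {T : ℕ} {τ : Kˣ} (hτ : τ ^ T = 1) (u v : Kˣ) (g : E3) :
    ev3 τ u v (nf3 T g) = ev3 τ u v g := by
  have h2 : ((T : ℕ) : ℤ) • (Additive.ofMul τ) = 0 := by
    rw [natCast_zsmul, ← ofMul_pow, hτ, ofMul_one]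
  have h : (g.1 % (T : ℤ)) • Additive.ofMul τ = g.1 • Additive.ofMul τ := by
    conv_rhs => rw [← Int.emod_add_mul_ediv g.1 T]
    rw [add_zsmul, mul_comm, mul_zsmul, h2, zsmul_zero, add_zero]
  rw [ev3_apply, ev3_apply]
  simp only [nf3, h]

end

end Pool.Agent.Zagier
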