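import Pool.Agent.Zagier.RealRoots
import Pool.Agent.Zagier.FieldR

/-!
# Explicit minimal polynomials of units
-/

open Polynomial NumberField IntermediateField

namespace Pool.Agent.Zagier

universe u

section

variable {F : Type u} [Field F] [NumberField F]

omit [NumberField F] in
theorem mp_monic (t : 𝓞 F) : (mp (t : F)).Monic := minpoly.monic t.isIntegral_coe

omit [NumberField F] in
theorem mp_aeval (t : 𝓞 F) : aeval (t : F) (mp (t : F)) = 0 := minpoly.aeval _ _

theorem mp_natDegree (t : 𝓞 F) : (minpoly ℚ (t : F)).natDegree = (mp (t : F)).natDegree := by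
  rw [minpoly_eq_map t.isIntegral_coe, (mp_monic t).natDegree_map]

theorem mp_dvd (t : 𝓞 F) : (mp (t : F)).natDegree ∣ Module.finrank ℚ F := by
  rw [← mp_natDegree]
  exact minpoly.degree_dvd (Algebra.IsIntegral.isIntegral (t : F))

theorem mp_pos (t : 𝓞 F) : 0 < (mp (t : F)).natDegree := by
  rw [← mp_natDegree]
  exact minpoly.natDegree_pos (Algebra.IsIntegral.isIntegral (t : F))

theorem top_of_natDegree (t : 𝓞 F) (h : (mp (t : F)).natDegree = Module.finrank ℚ F) :
    IntermediateField.adjoin ℚ {(t : F)} = ⊤ := by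
  rw [Field.primitive_element_iff_minpoly_natDegree_eq, mp_natDegree, h]

theorem rmp_eval (t : 𝓞 F) (q : ℝ) : (rmp (t : F)).eval q = aeval q (mp (t : F)) := by
  rw [rmp, minpoly_eq_map t.isIntegral_coe, eval_map_algebraMap, aeval_map_algebraMap]

omit [NumberField F] in
theorem mp_one (t : 𝓞 F) (h : (mp (t : F)).natDegree = 1) : ∃ a : ℤ, mp (t : F) = X + C a := by
  refine ⟨(mp (t : F)).coeff 0, ?_⟩
  conv_lhs => rw [(mp_monic t).as_sum, h]
  simp

omit [NumberField F] in
theorem mp_two (t : 𝓞 F) (h : (mp (t : F)).natDegree = 2) :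
    ∃ a b : ℤ, mp (t : F) = X ^ 2 + C a * X + C b := by
  refine ⟨(mp (t : F)).coeff 1, (mp (t : F)).coeff 0, ?_⟩
  conv_lhs => rw [(mp_monic t).as_sum, h]
  simp only [Finset.sum_range_succ, Finset.sum_range_zero]
  ring

omit [NumberField F] in
theorem mp_three (t : 𝓞 F) (h : (mp (t : F)).natDegree = 3) :
    ∃ a b c : ℤ, mp (t : F) = X ^ 3 + C a * X ^ 2 + C b * X + C c := by
  refine ⟨(mp (t : F)).coeff 2, (mp (t : F)).coeff 1, (mp (t : F)).coeff 0, ?_⟩
  conv_lhs => rw [(mp_monic t).as_sum, h]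
  simp only [Finset.sum_range_succ, Finset.sum_range_zero]
  ring

omit [NumberField F] in
theorem mp_four (t : 𝓞 F) (h : (mp (t : F)).natDegree = 4) :
    ∃ a b c d : ℤ, mp (t : F) = X ^ 4 + C a * X ^ 3 + C b * X ^ 2 + C c * X + C d := by
  refine ⟨(mp (t : F)).coeff 3, (mp (t : F)).coeff 2, (mp (t : F)).coeff 1,
    (mp (t : F)).coeff 0, ?_⟩
  conv_lhs => rw [(mp_monic t).as_sum, h]
  simp only [Finset.sum_range_succ, Finset.sum_range_zero]
  ring

/-- the constant coefficient is `±1` for a unit -/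
theorem unit_zero (t : 𝓞 F) (h : IsUnit t) : |(mp (t : F)).eval 0| = 1 := by
  have := abs_eval_of_isUnit t 0 (by simpa using h)
  simpa using this

/-- the value at `1` is `±1` if `1 - t` is a unit -/
theorem unit_one (t : 𝓞 F) (h : IsUnit (1 - t)) : |(mp (t : F)).eval 1| = 1 := by
  have h1 : IsUnit (t - ((1 : ℤ) : 𝓞 F)) := by
    have : t - ((1 : ℤ) : 𝓞 F) = -(1 - t) := by push_cast; ring
    rw [this]; exact h.neg
  exact abs_eval_of_isUnit t 1 h1

theorem not_degree_one (t : 𝓞 F) (h0 : IsUnit t) (h1 : IsUnit (1 - t)) :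
    (mp (t : F)).natDegree ≠ 1 := by
  intro h
  obtain ⟨a, ha⟩ := mp_one t h
  have e0 := unit_zero t h0
  have e1 := unit_one t h1
  rw [ha] at e0 e1
  simp only [eval_add, eval_X, eval_C, zero_add] at e0 e1
  rcases (abs_eq (by norm_num : (0 : ℤ) ≤ 1)).1 e0 with h | h <;>
    rcases (abs_eq (by norm_num : (0 : ℤ) ≤ 1)).1 e1 with h' | h' <;> omega

theorem eq_one_or_neg_one_of_abs {a : ℤ} (h : |a| = 1) : a = 1 ∨ a = -1 :=
  (abs_eq (by norm_num : (0 : ℤ) ≤ 1)).1 h

/-- quadratic exceptional units -/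
theorem exc_two (t : 𝓞 F) (h0 : IsUnit t) (h1 : IsUnit (1 - t))
    (h : (mp (t : F)).natDegree = 2) :
    (t : F) ^ 2 - t + 1 = 0 ∨ ∃ s : F, s ^ 2 = 5 := by
  obtain ⟨a, b, hP⟩ := mp_two t h
  have e0 := unit_zero t h0
  have e1 := unit_one t h1
  have ht := mp_aeval t
  rw [hP] at e0 e1 ht
  simp only [eval_add, eval_mul, eval_pow, eval_X, eval_C] at e0 e1
  simp only [map_add, map_mul, map_pow, aeval_X, aeval_C] at ht
  simp only [eq_intCast] at ht
  have e0' := eq_one_or_neg_one_of_abs e0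
  have e1' := eq_one_or_neg_one_of_abs e1
  have hab : (a = -1 ∧ b = 1) ∨ (a = -3 ∧ b = 1) ∨ (a = 1 ∧ b = -1) ∨ (a = -1 ∧ b = -1) := by
    omega
  rcases hab with ⟨rfl, rfl⟩ | ⟨rfl, rfl⟩ | ⟨rfl, rfl⟩ | ⟨rfl, rfl⟩ <;> push_cast at ht
  · left; linear_combination ht
  · right; exact ⟨2 * (t : F) - 3, by linear_combination 4 * ht⟩
  · right; exact ⟨2 * (t : F) + 1, by linear_combination 4 * ht⟩
  · right; exact ⟨2 * (t : F) - 1, by linear_combination 4 * ht⟩

/-- cubic exceptional units in a field with two places -/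
theorem exc_three (t : 𝓞 F) (h0 : IsUnit t) (h1 : IsUnit (1 - t))
    (hF : Fintype.card (InfinitePlace F) = 2) (hd : Module.finrank ℚ F = 3)
    (h : (mp (t : F)).natDegree = 3) :
    ∃ a b c : ℤ, (t : F) ^ 3 + a * (t : F) ^ 2 + b * t + c = 0 ∧
      ((c = 1 ∧ b = -1 - a ∧ -3 ≤ a ∧ a ≤ 2) ∨ (c = -1 ∧ b = 1 - a ∧ -4 ≤ a ∧ a ≤ 1) ∨
        (c = -1 ∧ b = -1 - a ∧ -5 ≤ a ∧ a ≤ 0)) := by
  have htop := top_of_natDegree t (by rw [h, hd])
  obtain ⟨a, b, c, hP⟩ := mp_three t h
  have e0 := unit_zero t h0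
  have e1 := unit_one t h1
  have ht := mp_aeval t
  have hr : ∀ q : ℝ, (rmp (t : F)).eval q = q ^ 3 + a * q ^ 2 + b * q + c := by
    intro q
    rw [rmp_eval, hP]
    simp
  rw [hP] at e0 e1 ht
  simp only [eval_add, eval_mul, eval_pow, eval_X, eval_C] at e0 e1
  simp only [map_add, map_mul, map_pow, aeval_X, aeval_C] at ht
  simp only [eq_intCast] at ht
  have e0' := eq_one_or_neg_one_of_abs e0
  have e1' := eq_one_or_neg_one_of_abs e1
  have hodd : Odd (minpoly ℚ (t : F)).natDegree := by rw [mp_natDegree, h]; decide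
  have key : ∀ q₁ q₂ : ℝ, q₁ < q₂ → 0 < q₁ ^ 3 + a * q₁ ^ 2 + b * q₁ + c →
      q₂ ^ 3 + a * q₂ ^ 2 + b * q₂ + c < 0 → False := fun q₁ q₂ hq k1 k2 =>
    cubic_sign htop hF hodd hq (by rwa [hr]) (by rwa [hr])
  refine ⟨a, b, c, ht, ?_⟩
  have hc : c = 1 ∨ c = -1 := by simpa using e0'
  have hb : b = -a - c ∨ b = -2 - a - c := by
    rcases e1' with h | h
    · left; linarith
    · right; linarith
  rcases hc with rfl | rfl <;> rcases hb with rfl | rfl
  · left
    refine ⟨rfl, by ring, ?_, ?_⟩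
    · by_contra hcon
      have hcon' : (a : ℝ) ≤ -4 := by exact_mod_cast (by omega : a ≤ -4)
      exact key 0 2 (by norm_num) (by norm_num) (by push_cast; nlinarith)
    · by_contra hcon
      have hcon' : (3 : ℝ) ≤ a := by exact_mod_cast (by omega : 3 ≤ a)
      exact key 0 (1 / 2) (by norm_num) (by norm_num) (by push_cast; nlinarith)
  · exfalso
    exact key 0 1 (by norm_num) (by norm_num) (by push_cast; nlinarith)
  · right; left
    refine ⟨rfl, by ring, ?_, ?_⟩
    · by_contra hcon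
      have hcon' : (a : ℝ) ≤ -5 := by exact_mod_cast (by omega : a ≤ -5)
      exact key 1 2 (by norm_num) (by push_cast; nlinarith) (by push_cast; nlinarith)
    · by_contra hcon
      have hcon' : (2 : ℝ) ≤ a := by exact_mod_cast (by omega : 2 ≤ a)
      exact key (-1) 0 (by norm_num) (by push_cast; nlinarith) (by push_cast; nlinarith)
  · right; right
    refine ⟨rfl, by ring, ?_, ?_⟩
    · by_contra hcon
      have hcon' : (a : ℝ) ≤ -6 := by exact_mod_cast (by omega : a ≤ -6)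
      exact key (1 / 2) 1 (by norm_num) (by push_cast; nlinarith) (by push_cast; nlinarith)
    · by_contra hcon
      have hcon' : (1 : ℝ) ≤ a := by exact_mod_cast (by omega : 1 ≤ a)
      exact key (-1) 0 (by norm_num) (by push_cast; nlinarith) (by push_cast; nlinarith)

/-- quartic exceptional units in a field with two places -/
theorem exc_four (t : 𝓞 F) (h0 : IsUnit t) (h1 : IsUnit (1 - t))
    (hr0 : InfinitePlace.nrRealPlaces F = 0) (hd : Module.finrank ℚ F = 4)
    (h : (mp (t : F)).natDegree = 4) :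
    ∃ a b : ℤ, (t : F) ^ 4 + a * (t : F) ^ 3 + b * (t : F) ^ 2 + (-1 - a - b) * t + 1 = 0 ∧
      -1 ≤ b ∧ -7 ≤ 3 * a + b ∧ 3 * a + 2 * b ≤ 4 := by
  have htop := top_of_natDegree t (by rw [h, hd])
  obtain ⟨a, b, c, d, hP⟩ := mp_four t h
  have e0 := unit_zero t h0
  have e1 := unit_one t h1
  have ht := mp_aeval t
  have hr : ∀ q : ℝ, 0 < q ^ 4 + a * q ^ 3 + b * q ^ 2 + c * q + d := by
    intro q
    have h1 := quartic_pos htop hr0 q
    rw [rmp_eval, hP] at h1
    simpa using h1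
  rw [hP] at e0 e1 ht
  simp only [eval_add, eval_mul, eval_pow, eval_X, eval_C] at e0 e1
  simp only [map_add, map_mul, map_pow, aeval_X, aeval_C] at ht
  simp only [eq_intCast] at ht
  have e0' := eq_one_or_neg_one_of_abs e0
  have e1' := eq_one_or_neg_one_of_abs e1
  have hd1 : d = 1 := by
    have h2 := hr 0
    have h3 : (0 : ℝ) < d := by simpa using h2
    have h4 : 0 < d := by exact_mod_cast h3
    rcases e0' with h5 | h5
    · simpa using h5
    · exfalso
      have : d = -1 := by simpa using h5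
      omega
  subst hd1
  have hc : c = -1 - a - b := by
    have h2 := hr 1
    have h3 : (0 : ℝ) < ((1 + a + b + c + 1 : ℤ) : ℝ) := by push_cast at h2 ⊢; linarith
    have h4 : 0 < 1 + a + b + c + 1 := by exact_mod_cast h3
    rcases e1' with h5 | h5
    · linarith
    · exfalso; linarith
  subst hc
  refine ⟨a, b, by push_cast at ht; exact ht, ?_, ?_, ?_⟩
  · have h2 := hr (-1)
    have h3 : (0 : ℝ) < ((3 + 2 * b : ℤ) : ℝ) := by push_cast at h2 ⊢; linarith
    have h4 : 0 < 3 + 2 * b := by exact_mod_cast h3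
    omega
  · have h2 := hr 2
    have h3 : (0 : ℝ) < ((15 + 6 * a + 2 * b : ℤ) : ℝ) := by push_cast at h2 ⊢; linarith
    have h4 : 0 < 15 + 6 * a + 2 * b := by exact_mod_cast h3
    omega
  · have h2 := hr (1 / 2)
    have h3 : (0 : ℝ) < ((9 - 6 * a - 4 * b : ℤ) : ℝ) := by push_cast at h2 ⊢; linarith
    have h4 : 0 < 9 - 6 * a - 4 * b := by exact_mod_cast h3
    omega

end

end Pool.Agent.Zagier
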