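import Pool.Agent.Zagier.Defs

/-!
# Basic tools: torsion, saturation, specialisation
-/

open scoped TensorProduct

namespace Pool.Agent.Zagier

universe u

section General

variable {F : Type u}

/-- `extend` as an additive map. -/
noncomputable def extendHom {N : Type*} [AddCommGroup N] (g : OnePoint F → N) : ZP1 F →+ N where
  toFun := extend g
  map_zero' := Finsupp.sum_zero_index
  map_add' α β := by
    refine Finsupp.sum_add_index' (fun p => zero_smul _ _) (fun p m n => add_smul _ _ _)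

theorem extendHom_apply {N : Type*} [AddCommGroup N] (g : OnePoint F → N) (α : ZP1 F) :
    extendHom g α = extend g α := rfl

@[simp] theorem extend_single {N : Type*} [AddCommGroup N] (g : OnePoint F → N) (p : OnePoint F)
    (n : ℤ) : extendHom g (Finsupp.single p n) = n • g p := by
  rw [extendHom_apply, extend]
  exact Finsupp.sum_single_index (h := fun p n => n • g p) (zero_smul _ _)

@[simp] theorem extend_br {N : Type*} [AddCommGroup N] (g : OnePoint F → N) (x : F) :
    extendHom g (br x) = g x := by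
  simp [br]

@[simp] theorem extend_brInf {N : Type*} [AddCommGroup N] (g : OnePoint F → N) :
    extendHom g (brInf F) = g OnePoint.infty := by
  simp [brInf]

/-- `valueAt` as an additive map -/
noncomputable def spec {F : Type u} [Field F] (a : F) : ZP1 (RatFunc F) →+ ZP1 F :=
  extendHom fun f => Finsupp.single (specPt a f) 1

/-- `deltaTwo` as an additive map -/
noncomputable def delta2 (F : Type u) [Field F] : ZP1 F →+ ExtSq (MulGp F) :=
  extendHom wedgePt

/-- `deltaMod` as an additive map -/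
noncomputable def deltaOf {F : Type u} [Field F] (R : AddSubgroup (ZP1 F)) :
    ZP1 F →+ Tens (ZP1 F ⧸ R) (MulGp F) :=
  extendHom (tensorPt R)

/-- `regulator` as an additive map -/
noncomputable def reg {F : Type u} [Field F] (n : ℕ) (σ : F →+* ℂ) : ZP1 F →+ ℝ :=
  extendHom fun p => calL n (p.map σ)

theorem reg_apply {F : Type u} [Field F] (n : ℕ) (σ : F →+* ℂ) (α : ZP1 F) :
    regulator n σ α = reg n σ α := rfl

end General

/-! ### torsion elements -/

/-- `x` is a torsion element. -/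
def IsTor {M : Type*} [AddCommGroup M] (x : M) : Prop := ∃ N : ℕ, 0 < N ∧ N • x = 0

section Tor

variable {M : Type*} [AddCommGroup M]

theorem IsTor.zero : IsTor (0 : M) := ⟨1, one_pos, by simp⟩

theorem IsTor.add {x y : M} (hx : IsTor x) (hy : IsTor y) : IsTor (x + y) := by
  obtain ⟨a, ha, hax⟩ := hx
  obtain ⟨b, hb, hby⟩ := hy
  refine ⟨a * b, Nat.mul_pos ha hb, ?_⟩
  rw [smul_add, mul_comm a b, mul_smul, hax, smul_zero, zero_add, mul_comm b a, mul_smul, hby,
    smul_zero]

theorem IsTor.neg {x : M} (hx : IsTor x) : IsTor (-x) := by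
  obtain ⟨a, ha, hax⟩ := hx
  exact ⟨a, ha, by rw [smul_neg, hax, neg_zero]⟩

theorem IsTor.sub {x y : M} (hx : IsTor x) (hy : IsTor y) : IsTor (x - y) := by
  rw [sub_eq_add_neg]; exact hx.add hy.neg

theorem IsTor.zsmul {x : M} (n : ℤ) (hx : IsTor x) : IsTor (n • x) := by
  obtain ⟨a, ha, hax⟩ := hx
  exact ⟨a, ha, by rw [smul_comm, hax, smul_zero]⟩

theorem IsTor.list_sum {l : List M} (h : ∀ x ∈ l, IsTor x) : IsTor l.sum := by
  induction l with
  | nil => simpa using IsTor.zero
  | cons a l ih =>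
    rw [List.sum_cons]
    exact (h a (by simp)).add (ih fun x hx => h x (by simp [hx]))

theorem IsTor.sum {ι : Type*} (s : Finset ι) (f : ι → M) (h : ∀ i ∈ s, IsTor (f i)) :
    IsTor (∑ i ∈ s, f i) := by
  classical
  induction s using Finset.induction_on with
  | empty => simpa using IsTor.zero
  | insert a s ha ih =>
    rw [Finset.sum_insert ha]
    exact (h a (by simp)).add (ih fun i hi => h i (by simp [hi]))

theorem IsTor.map {M' : Type*} [AddCommGroup M'] (f : M →+ M') {x : M} (hx : IsTor x) :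
    IsTor (f x) := by
  obtain ⟨a, ha, hax⟩ := hx
  exact ⟨a, ha, by rw [← map_nsmul, hax, map_zero]⟩

theorem IsTor.of_nsmul {x : M} {n : ℕ} (hn : 0 < n) (h : IsTor (n • x)) : IsTor x := by
  obtain ⟨a, ha, hax⟩ := h
  exact ⟨a * n, Nat.mul_pos ha hn, by rw [mul_smul, hax]⟩

theorem IsTor.of_zsmul {x : M} {n : ℤ} (hn : n ≠ 0) (h : IsTor (n • x)) : IsTor x := by
  obtain ⟨a, ha, hax⟩ := h
  refine ⟨a * n.natAbs, Nat.mul_pos ha (Int.natAbs_pos.2 hn), ?_⟩
  rcases Int.natAbs_eq n with h | h
  · rw [h, natCast_zsmul] at hax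
    rw [mul_smul]
    exact hax
  · rw [h, neg_smul, smul_neg, neg_eq_zero, natCast_zsmul] at hax
    rw [mul_smul]
    exact hax

end Tor

/-! ### saturation of a subgroup -/

/-- A positive multiple of `x` lies in the subgroup `R`. -/
def InSat {M : Type*} [AddCommGroup M] (R : AddSubgroup M) (x : M) : Prop :=
  ∃ N : ℕ, 0 < N ∧ N • x ∈ R

section Sat

variable {M : Type*} [AddCommGroup M] {R : AddSubgroup M}

theorem InSat.of_mem {x : M} (h : x ∈ R) : InSat R x := ⟨1, one_pos, by simpa using h⟩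

theorem InSat.zero : InSat R (0 : M) := InSat.of_mem R.zero_mem

theorem InSat.add {x y : M} (hx : InSat R x) (hy : InSat R y) : InSat R (x + y) := by
  obtain ⟨a, ha, hax⟩ := hx
  obtain ⟨b, hb, hby⟩ := hy
  refine ⟨a * b, Nat.mul_pos ha hb, ?_⟩
  rw [smul_add]
  refine R.add_mem ?_ ?_
  · rw [mul_comm a b, mul_smul]; exact R.nsmul_mem hax b
  · rw [mul_smul]; exact R.nsmul_mem hby a

theorem InSat.neg {x : M} (hx : InSat R x) : InSat R (-x) := by
  obtain ⟨a, ha, hax⟩ := hx
  exact ⟨a, ha, by rw [smul_neg]; exact R.neg_mem hax⟩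

theorem InSat.sub {x y : M} (hx : InSat R x) (hy : InSat R y) : InSat R (x - y) := by
  rw [sub_eq_add_neg]; exact hx.add hy.neg

theorem InSat.zsmul {x : M} (n : ℤ) (hx : InSat R x) : InSat R (n • x) := by
  obtain ⟨a, ha, hax⟩ := hx
  exact ⟨a, ha, by rw [smul_comm]; exact R.zsmul_mem hax n⟩

theorem InSat.list_sum {l : List M} (h : ∀ x ∈ l, InSat R x) : InSat R l.sum := by
  induction l with
  | nil => simpa using InSat.zero
  | cons a l ih =>
    rw [List.sum_cons]
    exact (h a (by simp)).add (ih fun x hx => h x (by simp [hx]))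

theorem InSat.of_zsmul {x : M} {n : ℤ} (hn : n ≠ 0) (h : InSat R (n • x)) : InSat R x := by
  obtain ⟨a, ha, hax⟩ := h
  refine ⟨a * n.natAbs, Nat.mul_pos ha (Int.natAbs_pos.2 hn), ?_⟩
  rcases Int.natAbs_eq n with h | h
  · rw [h, natCast_zsmul] at hax
    rw [mul_smul]
    exact hax
  · rw [h, neg_smul, smul_neg, natCast_zsmul] at hax
    rw [mul_smul]
    have := R.neg_mem hax
    rwa [neg_neg] at this

/-- The class of a saturated element is torsion in the quotient. -/
theorem InSat.isTor_mk {x : M} (h : InSat R x) : IsTor (QuotientAddGroup.mk x : M ⧸ R) := by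
  obtain ⟨a, ha, hax⟩ := h
  refine ⟨a, ha, ?_⟩
  rw [← QuotientAddGroup.mk_nsmul]
  exact (QuotientAddGroup.eq_zero_iff _).2 hax

end Sat

theorem IsTor.tmul_left {A B : Type*} [AddCommGroup A] [AddCommGroup B] {a : A} (b : B)
    (h : IsTor a) : IsTor (a ⊗ₜ[ℤ] b) := by
  obtain ⟨n, hn, h⟩ := h
  refine ⟨n, hn, ?_⟩
  rw [TensorProduct.smul_tmul', h, TensorProduct.zero_tmul]

theorem IsTor.tmul_right {A B : Type*} [AddCommGroup A] [AddCommGroup B] (a : A) {b : B}
    (h : IsTor b) : IsTor (a ⊗ₜ[ℤ] b) := by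
  obtain ⟨n, hn, h⟩ := h
  refine ⟨n, hn, ?_⟩
  rw [TensorProduct.smul_tmul', TensorProduct.smul_tmul, h, TensorProduct.tmul_zero]

/-! ### specialisation -/

section Spec

variable {F : Type u} [Field F]

/-- `g = p / q` with `q(a) ≠ 0` and `v = p(a)/q(a)`. -/
def HasVal (a : F) (g : RatFunc F) (v : F) : Prop :=
  ∃ p q : Polynomial F, q.eval a ≠ 0 ∧
    g = algebraMap (Polynomial F) (RatFunc F) p / algebraMap (Polynomial F) (RatFunc F) q ∧
    v = p.eval a / q.eval a

theorem HasVal.poly (a : F) (p : Polynomial F) :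
    HasVal a (algebraMap (Polynomial F) (RatFunc F) p) (p.eval a) :=
  ⟨p, 1, by simp, by simp, by simp⟩

theorem HasVal.C (a c : F) : HasVal a (RatFunc.C c) c := by
  have := HasVal.poly a (Polynomial.C c)
  simpa using this

theorem HasVal.X (a : F) : HasVal a (RatFunc.X) a := by
  have := HasVal.poly a (Polynomial.X)
  simpa using this

theorem HasVal.one (a : F) : HasVal a (1 : RatFunc F) 1 := by
  have := HasVal.poly a (1 : Polynomial F)
  simpa using this

theorem eval_ne_zero {a : F} {q : Polynomial F} (h : q.eval a ≠ 0) : q ≠ 0 := by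
  rintro rfl; simp at h

theorem algebraMap_ne {q : Polynomial F} (h : q ≠ 0) :
    algebraMap (Polynomial F) (RatFunc F) q ≠ 0 := by
  simpa using h

theorem HasVal.mul {a : F} {g h : RatFunc F} {v w : F} (hg : HasVal a g v) (hh : HasVal a h w) :
    HasVal a (g * h) (v * w) := by
  obtain ⟨p, q, hq, rfl, rfl⟩ := hg
  obtain ⟨p', q', hq', rfl, rfl⟩ := hh
  refine ⟨p * p', q * q', by simpa using ⟨hq, hq'⟩, ?_, ?_⟩
  · rw [map_mul, map_mul]; field_simp
  · rw [Polynomial.eval_mul, Polynomial.eval_mul]; field_simp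

theorem HasVal.add {a : F} {g h : RatFunc F} {v w : F} (hg : HasVal a g v) (hh : HasVal a h w) :
    HasVal a (g + h) (v + w) := by
  obtain ⟨p, q, hq, rfl, rfl⟩ := hg
  obtain ⟨p', q', hq', rfl, rfl⟩ := hh
  have h1 := algebraMap_ne (eval_ne_zero hq)
  have h2 := algebraMap_ne (eval_ne_zero hq')
  refine ⟨p * q' + q * p', q * q', by simpa using ⟨hq, hq'⟩, ?_, ?_⟩
  · rw [map_add, map_mul, map_mul, map_mul]; field_simp
  · simp only [Polynomial.eval_mul, Polynomial.eval_add]; field_simp

theorem HasVal.neg {a : F} {g : RatFunc F} {v : F} (hg : HasVal a g v) : HasVal a (-g) (-v) := by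
  have := (HasVal.C a (-1)).mul hg
  simpa using this

theorem HasVal.sub {a : F} {g h : RatFunc F} {v w : F} (hg : HasVal a g v) (hh : HasVal a h w) :
    HasVal a (g - h) (v - w) := by
  rw [sub_eq_add_neg, sub_eq_add_neg]; exact hg.add hh.neg

theorem HasVal.pow {a : F} {g : RatFunc F} {v : F} (hg : HasVal a g v) (n : ℕ) :
    HasVal a (g ^ n) (v ^ n) := by
  induction n with
  | zero => simpa using HasVal.one a
  | succ n ih => rw [pow_succ, pow_succ]; exact ih.mul hg

theorem HasVal.inv {a : F} {g : RatFunc F} {v : F} (hg : HasVal a g v) (hv : v ≠ 0) :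
    HasVal a g⁻¹ v⁻¹ := by
  obtain ⟨p, q, hq, rfl, rfl⟩ := hg
  have hp : p.eval a ≠ 0 := by
    intro h; rw [h] at hv; simp at hv
  exact ⟨q, p, hp, by rw [inv_div], by rw [inv_div]⟩

theorem HasVal.zpow {a : F} {g : RatFunc F} {v : F} (hg : HasVal a g v) (hv : v ≠ 0) (n : ℤ) :
    HasVal a (g ^ n) (v ^ n) := by
  cases n with
  | ofNat n => simpa using hg.pow n
  | negSucc n =>
    rw [zpow_negSucc, zpow_negSucc]
    exact (hg.pow (n + 1)).inv (pow_ne_zero _ hv)

theorem HasVal.ne_zero {a : F} {g : RatFunc F} {v : F} (hg : HasVal a g v) (hv : v ≠ 0) :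
    g ≠ 0 := by
  rintro rfl
  obtain ⟨p, q, hq, h, rfl⟩ := hg
  have h1 := algebraMap_ne (eval_ne_zero hq)
  have : algebraMap (Polynomial F) (RatFunc F) p = 0 := by
    have := h.symm
    rw [div_eq_zero_iff] at this
    exact this.resolve_right h1
  have hp : p = 0 := by simpa using this
  rw [hp] at hv; simp at hv

theorem specPt_of_hasVal {a : F} {g : RatFunc F} {v : F} (hg : HasVal a g v) :
    specPt a (g : OnePoint (RatFunc F)) = (v : OnePoint F) := by
  classical
  obtain ⟨p, q, hq, hgq, rfl⟩ := hg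
  have hq0 : algebraMap (Polynomial F) (RatFunc F) q ≠ 0 := algebraMap_ne (eval_ne_zero hq)
  have hd0 : algebraMap (Polynomial F) (RatFunc F) g.denom ≠ 0 := algebraMap_ne g.denom_ne_zero
  have h1 : g.num * q = p * g.denom := by
    have h2 := RatFunc.num_div_denom g
    have h3 : algebraMap (Polynomial F) (RatFunc F) g.num / algebraMap _ _ g.denom
        = algebraMap (Polynomial F) (RatFunc F) p / algebraMap _ _ q := by rw [h2]; exact hgq
    rw [div_eq_div_iff hd0 hq0, ← map_mul, ← map_mul] at h3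
    exact RatFunc.algebraMap_injective F h3
  have h2 : g.num.eval a * q.eval a = p.eval a * g.denom.eval a := by
    rw [← Polynomial.eval_mul, ← Polynomial.eval_mul, h1]
  have hd : g.denom.eval a ≠ 0 := by
    intro h0
    rw [h0, mul_zero] at h2
    have hn : g.num.eval a = 0 := (mul_eq_zero.1 h2).resolve_right hq
    obtain ⟨r, s, hrs⟩ := RatFunc.isCoprime_num_denom g
    have := congrArg (Polynomial.eval a) hrs
    simp [hn, h0] at this
  change (if g.denom.eval a = 0 then OnePoint.infty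
    else ((g.num.eval a / g.denom.eval a : F) : OnePoint F)) = _
  rw [if_neg hd]
  congr 1
  rw [div_eq_div_iff hd hq]
  exact h2

theorem specPt_infty {a : F} {g : RatFunc F} (hg0 : g ≠ 0) (hg : HasVal a g⁻¹ 0) :
    specPt a (g : OnePoint (RatFunc F)) = OnePoint.infty := by
  classical
  obtain ⟨p, q, hq, hgq, hv⟩ := hg
  have hq0 : algebraMap (Polynomial F) (RatFunc F) q ≠ 0 := algebraMap_ne (eval_ne_zero hq)
  have hd0 : algebraMap (Polynomial F) (RatFunc F) g.denom ≠ 0 := algebraMap_ne g.denom_ne_zero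
  have hp : p.eval a = 0 := by
    have := hv.symm
    rw [div_eq_zero_iff] at this
    exact this.resolve_right hq
  have hn0 : algebraMap (Polynomial F) (RatFunc F) g.num ≠ 0 := by
    apply algebraMap_ne
    simpa using hg0
  have h1 : g.denom * q = p * g.num := by
    have h2 := RatFunc.num_div_denom g
    have h3 : algebraMap (Polynomial F) (RatFunc F) g.denom / algebraMap _ _ g.num
        = algebraMap (Polynomial F) (RatFunc F) p / algebraMap _ _ q := by
      rw [← hgq, ← inv_div, h2]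
    rw [div_eq_div_iff hn0 hq0, ← map_mul, ← map_mul] at h3
    exact RatFunc.algebraMap_injective F h3
  have h2 : g.denom.eval a * q.eval a = p.eval a * g.num.eval a := by
    rw [← Polynomial.eval_mul, ← Polynomial.eval_mul, h1]
  have hd : g.denom.eval a = 0 := by
    rw [hp, zero_mul] at h2
    exact (mul_eq_zero.1 h2).resolve_right hq
  change (if g.denom.eval a = 0 then OnePoint.infty
    else ((g.num.eval a / g.denom.eval a : F) : OnePoint F)) = _
  rw [if_pos hd]

@[simp] theorem spec_br (a : F) (g : RatFunc F) :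
    spec a (br g) = Finsupp.single (specPt a (g : OnePoint (RatFunc F))) 1 := by
  simp [spec]

end Spec

/-! ### the relation groups -/

section Rel

variable {F : Type u} [Field F]

theorem Rel_two : Rel 2 F = relFrom F {α | deltaTwo α = 0} := rfl

theorem Rel_succ {n : ℕ} (hn : 2 ≤ n) :
    Rel (n + 1) F = relFrom F {α | deltaMod (Rel n (RatFunc F)) α = 0} := by
  obtain ⟨m, rfl⟩ : ∃ m, n = m + 2 := ⟨n - 2, by omega⟩
  have h1 : Rel (m + 2 + 1) F = (relNext^[m + 1] relTwo) F := rfl
  have h2 : Rel (m + 2) (RatFunc F) = (relNext^[m] relTwo) (RatFunc F) := rfl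
  rw [h1, h2, Function.iterate_succ_apply']
  rfl

theorem exists_relFrom {n : ℕ} (hn : 2 ≤ n) : ∃ S, Rel n F = relFrom F S := by
  rcases Nat.lt_or_ge 2 n with h | h
  · obtain ⟨m, rfl⟩ : ∃ m, n = m + 1 := ⟨n - 1, by omega⟩
    exact ⟨_, Rel_succ (by omega)⟩
  · obtain rfl : n = 2 := by omega
    exact ⟨_, Rel_two⟩

theorem br_zero_mem_rel {n : ℕ} (hn : 2 ≤ n) : (br 0 : ZP1 F) ∈ Rel n F := by
  obtain ⟨S, hS⟩ := exists_relFrom (F := F) hn
  rw [hS]
  exact AddSubgroup.subset_closure (Or.inl (Or.inl rfl))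

theorem brInf_mem_rel {n : ℕ} (hn : 2 ≤ n) : brInf F ∈ Rel n F := by
  obtain ⟨S, hS⟩ := exists_relFrom (F := F) hn
  rw [hS]
  exact AddSubgroup.subset_closure (Or.inl (Or.inr rfl))

/-- If `δ_n(α)` is torsion then `α(0) - α(1)` lies in the saturation of `𝓡_n`. -/
theorem inSat_of_isTor_two {α : ZP1 (RatFunc F)} (h : IsTor (delta2 (RatFunc F) α)) :
    InSat (Rel 2 F) (spec 0 α - spec 1 α) := by
  obtain ⟨N, hN, h⟩ := h
  refine ⟨N, hN, ?_⟩
  have h1 : deltaTwo (N • α) = 0 := by
    change delta2 (RatFunc F) (N • α) = 0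
    rw [map_nsmul, h]
  rw [smul_sub, ← map_nsmul, ← map_nsmul, Rel_two]
  exact AddSubgroup.subset_closure (Or.inr ⟨N • α, h1, rfl⟩)

theorem mem_kerDelta_iff {n : ℕ} {α : ZP1 F} :
    α ∈ kerDelta n F ↔ deltaOf (Rel (n - 1) F) α = 0 := Iff.rfl

theorem inSat_of_isTor' {m : ℕ} (hm : 2 ≤ m) {α : ZP1 (RatFunc F)}
    (h : IsTor (deltaOf (Rel m (RatFunc F)) α)) :
    InSat (Rel (m + 1) F) (spec 0 α - spec 1 α) := by
  obtain ⟨N, hN, h⟩ := h
  refine ⟨N, hN, ?_⟩
  have h1 : deltaMod (Rel m (RatFunc F)) (N • α) = 0 := by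
    change deltaOf (Rel m (RatFunc F)) (N • α) = 0
    rw [map_nsmul, h]
  rw [smul_sub, ← map_nsmul, ← map_nsmul, Rel_succ hm]
  exact AddSubgroup.subset_closure (Or.inr ⟨N • α, h1, rfl⟩)

end Rel

end Pool.Agent.Zagier
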