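import Pool.Agent.Zagier.Numeric

/-!
# Weight six over the cubic field of discriminant -23
-/

open scoped TensorProduct

namespace Pool.Agent.Zagier

universe u

/-- the element of `ker δ₆` -/
def y6L : List (ℤ × (ℤ × ℤ)) :=
  [(122880, (1, 14)),
   (-61440, (0, 14)),
   (-1544280, (0, 8)),
   (4850688, (0, 5)),
   (12472320, (1, 3)),
   (-6567840, (1, 2)),
   (-8334195, (0, 4)),
   (271200, (0, 6)),
   (172032, (1, 10)),
   (-15820800, (1, 1)),
   (-87040, (1, 9)),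
   (-5291520, (1, 6))]

/-- its certificate -/
def y6C : Cert (ℤ × ℤ) where
  kum := [(-391680, ⟨(0, 3), (0, 3), (1, 1), (1, 1)⟩), (1720320, ⟨(0, 5), (0, 3), (1, 4), (1, 1)⟩)]
  dist := [(-860160, (0, -7)), (1408320, (0, -4)), (-1897920, (0, -3)), (-566220, (0, -2)), (1515840, (0, -1)), (-967680, (0, 0))]
  inv := [(860160, (0, -14)), (-1408320, (0, -8)), (-15482880, (0, -7)), (1897920, (0, -6)), (21379020, (0, -4)), (-29975040, (0, -3)), (4907520, (0, -2)), (36211200, (0, -1)), (-13762560, (1, -7)), (22533120, (1, -4)), (-30366720, (1, -3)), (6423360, (1, -2)), (39736320, (1, -1))]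
  one := 0
  negOne := 0


theorem y6_same : sameL nfU (y6C.toL 5 (1, 0)) (scaleL 1 (contractL (fun g => g.2) y6L)) = true := by
  decide +kernel

section Alg

variable {K : Type u} [Field K]

theorem y6_ker (θ : Kˣ) (hθ : (θ : K) ^ 3 = θ + 1) :
    ∃ N : ℕ, 0 < N ∧ N • evL (evU θ) y6L ∈ kerDelta 6 K := by
  refine ker_of_cert (n := 6) (m := 5) rfl (by norm_num) θ y6L y6C 1 one_ne_zero ?_ y6_same
  have h3 : val (evU θ) (0, 3) + val (evU θ) (1, 1) = 1 := by
    rw [val_evU, val_evU]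
    have : (θ : K) ^ (3 : ℤ) = θ + 1 := by rw [← hθ]; norm_cast
    rw [this]; simp
  have h5 : val (evU θ) (0, 5) + val (evU θ) (1, 4) = 1 := by
    rw [val_evU, val_evU]
    have e5 : (θ : K) ^ (5 : ℤ) = (θ : K) ^ 5 := by norm_cast
    have e4 : (θ : K) ^ (4 : ℤ) = (θ : K) ^ 4 := by norm_cast
    rw [e5, e4]
    simp only [zpow_zero, one_mul, zpow_one]
    linear_combination ((θ : K) ^ 2 - θ + 1) * hθ
  intro p hp
  simp only [y6C, List.mem_cons, List.not_mem_nil, or_false] at hp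
  rcases hp with rfl | rfl
  · exact ⟨h3, h3⟩
  · exact ⟨h5, h3⟩

end Alg

/-! ### the numerical evaluation -/

section Num

theorem root_bounds {a : ℝ} (ha : 8 * a ^ 3 - 2 * a + 1 = 0) : -0.66236 < a ∧ a < -0.66235 := by
  constructor
  · by_contra h
    push Not at h
    nlinarith [sq_nonneg (a + 0.66236), sq_nonneg a, mul_nonneg (sub_nonneg.2 h) (sq_nonneg a),
      mul_nonneg (sub_nonneg.2 h) (sq_nonneg (a - 0.66236))]
  · by_contra h
    push Not at h
    nlinarith [sq_nonneg (a + 0.66235), sq_nonneg a, mul_nonneg (sub_nonneg.2 h) (sq_nonneg a),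
      mul_nonneg (sub_nonneg.2 h) (sq_nonneg (a - 0.66235))]

theorem log_bounds {x : ℝ} (h1 : 0.75482 ≤ x) (h2 : x ≤ 0.7549) :
    -0.2814 ≤ Real.log x ∧ Real.log x ≤ -0.2810 := by
  have hx : x = 1 - (1 - x) := by ring
  have h3 : |1 - x| < 1 := by rw [abs_lt]; constructor <;> linarith
  have h := Real.abs_log_sub_add_sum_range_le h3 6
  rw [← hx] at h
  have h4 : |1 - x| = 1 - x := abs_of_pos (by linarith)
  rw [h4] at h
  simp only [Finset.sum_range_succ, Finset.sum_range_zero] at h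
  set t := 1 - x with ht
  have ht1 : t ≤ 0.24518 := by linarith
  have ht0 : 0.2451 ≤ t := by linarith
  have e1 : 1 - t = x := by rw [ht]; ring
  have h5 : t ^ (6 + 1) / (1 - t) ≤ 0.00008 := by
    have : t ^ (6 + 1) ≤ 0.24518 ^ (6 + 1) := by gcongr
    rw [div_le_iff₀ (by linarith)]
    have : (0.24518 : ℝ) ^ (6 + 1) ≤ 0.00008 * 0.75482 := by norm_num
    nlinarith
  rw [abs_le] at h
  norm_num at h
  have p2l : 0.2451 ^ 2 ≤ t ^ 2 := by gcongr
  have p2u : t ^ 2 ≤ 0.24518 ^ 2 := by gcongr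
  have p3l : 0.2451 ^ 3 ≤ t ^ 3 := by gcongr
  have p3u : t ^ 3 ≤ 0.24518 ^ 3 := by gcongr
  have p4l : 0.2451 ^ 4 ≤ t ^ 4 := by gcongr
  have p4u : t ^ 4 ≤ 0.24518 ^ 4 := by gcongr
  have p5l : 0.2451 ^ 5 ≤ t ^ 5 := by gcongr
  have p5u : t ^ 5 ≤ 0.24518 ^ 5 := by gcongr
  have p6l : 0.2451 ^ 6 ≤ t ^ 6 := by gcongr
  have p6u : t ^ 6 ≤ 0.24518 ^ 6 := by gcongr
  norm_num at p2l p2u p3l p3u p4l p4u p5l p5u p6l p6u h5
  constructor <;> linarith [h.1, h.2]

/-- numerical data attached to the complex root of `X³ - X - 1` -/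
structure NumData (z : ℂ) (a b lam : ℝ) : Prop where
  hz : z ^ 3 = z + 1
  him : ∀ A B C : ℝ, ((A : ℂ) + B * z + C * z ^ 2).im = b * (B + 2 * C * a)
  hlog : Real.log ‖z‖ = -lam
  hR : ∀ (k : ℕ) (n d : ℝ), 0 < d → 0.86885 ^ k * d ≤ n → ‖z‖ ^ k ≤ n / d
  ha1 : -0.66236 < a
  ha2 : a < -0.66235
  hlam1 : 0.1405 ≤ lam
  hlam2 : lam ≤ 0.1407

theorem lam_bounds {lam : ℝ} (hlam1 : 0.1405 ≤ lam) (hlam2 : lam ≤ 0.1407) :
    0.1405 ^ 2 ≤ lam ^ 2 ∧ lam ^ 2 ≤ 0.1407 ^ 2 ∧ 0.1405 ^ 4 ≤ lam ^ 4 ∧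
    lam ^ 4 ≤ 0.1407 ^ 4 := by
  have l2 : 0.1405 ^ 2 ≤ lam ^ 2 := by gcongr
  have l2' : lam ^ 2 ≤ 0.1407 ^ 2 := by gcongr
  have l4 : 0.1405 ^ 4 ≤ lam ^ 4 := by gcongr
  have l4' : lam ^ 4 ≤ 0.1407 ^ 4 := by gcongr
  exact ⟨l2, l2', l4, l4'⟩

theorem mul_approx {p w pc dp wc dw e : ℝ} (h1 : |p - pc| ≤ dp) (h2 : |w - wc| ≤ dw)
    (he : |pc| * dw + |wc| * dp + dp * dw ≤ e) : |p * w - pc * wc| ≤ e := by
  have e1 : p * w - pc * wc = pc * (w - wc) + wc * (p - pc) + (p - pc) * (w - wc) := by ring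
  have h3 : 0 ≤ dp := (abs_nonneg _).trans h1
  rw [e1]
  refine (abs_add_le _ _).trans (le_trans (add_le_add ((abs_add_le _ _).trans (add_le_add ?_ ?_)) ?_) he)
  · rw [abs_mul]; exact mul_le_mul_of_nonneg_left h2 (abs_nonneg _)
  · rw [abs_mul]; exact mul_le_mul_of_nonneg_left h1 (abs_nonneg _)
  · rw [abs_mul]; exact mul_le_mul h1 h2 (abs_nonneg _) h3

theorem y6_tm14 {z : ℂ} {a b lam : ℝ} (D : NumData z a b lam) :
    ∃ m : ℝ, -2037 / 5000 ≤ m ∧ m ≤ -1013 / 2500 ∧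
      |calLdisc 6 (-z ^ 14) - b * m| ≤ 549 / 100000 := by
  obtain ⟨hz, him, hlog, hR, ha1, ha2, hlam1, hlam2⟩ := D
  have h := approx_six_of_le (z := (-z ^ 14)) (r := 13971 / 100000) (x := 14 * lam)
    (X := 9849 / 5000) (t := 549 / 100000)
    (by rw [norm_neg, norm_pow]; exact hR 14 13971 100000 (by norm_num) (by norm_num))
    (by norm_num) 1
    (by rw [norm_neg, norm_pow, Real.log_pow, hlog]; push_cast; ring)
    (by linarith) (by linarith) (by norm_num [W6])
  obtain ⟨l2, l2', l4, l4'⟩ := lam_bounds hlam1 hlam2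
  have u0 := mul_approx (p := -(16 + 24 * a)) (w := w6 0 (14 * lam)) (pc := (-2587 / 25000)) (dp := (121 / 1000000))
    (wc := (3926321 / 1000000)) (dw := (1047 / 250000)) (e := (908965829 / 1000000000000))
    (by rw [abs_le]; constructor <;> linarith)
    (by rw [abs_le]; norm_num [w6] at l2 l2' l4 l4' ⊢; constructor <;> linarith)
    (by norm_num [abs_of_pos, abs_of_neg])
  rw [abs_le] at u0
  refine ⟨-(16 + 24 * a) * w6 0 (14 * lam), ?_, ?_, ?_⟩
  · linarith [u0.1]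
  · linarith [u0.2]
  · have e : b * (-(16 + 24 * a) * w6 0 (14 * lam)) =
        ∑ j ∈ Finset.range 1, ((-z ^ 14) ^ (j + 1)).im * w6 j (14 * lam) := by
      simp only [Finset.sum_range_succ, Finset.sum_range_zero]
      have e0 : ((-z ^ 14) ^ (0 + 1)).im = -(b * (16 + 24 * a)) := by
        have : (-z ^ 14) ^ (0 + 1) = -((9 : ℂ) + 16 * z + 12 * z ^ 2) := by
          linear_combination (-(9 * z ^ 0 + 7 * z ^ 1 + 5 * z ^ 2 + 4 * z ^ 3 + 3 * z ^ 4 + 2 * z ^ 5 + 2 * z ^ 6 + 1 * z ^ 7 + 1 * z ^ 8 + 1 * z ^ 9 + 1 * z ^ 11)) * hz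
        rw [this]
        have h' := him 9 16 12
        push_cast at h'
        rw [Complex.neg_im, h']; ring
      rw [e0]
      ring
    rw [e]; exact h

theorem y6_tp14 {z : ℂ} {a b lam : ℝ} (D : NumData z a b lam) :
    ∃ m : ℝ, 1013 / 2500 ≤ m ∧ m ≤ 2037 / 5000 ∧
      |calLdisc 6 (z ^ 14) - b * m| ≤ 549 / 100000 := by
  obtain ⟨hz, him, hlog, hR, ha1, ha2, hlam1, hlam2⟩ := D
  have h := approx_six_of_le (z := (z ^ 14)) (r := 13971 / 100000) (x := 14 * lam)
    (X := 9849 / 5000) (t := 549 / 100000)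
    (by rw [norm_pow]; exact hR 14 13971 100000 (by norm_num) (by norm_num))
    (by norm_num) 1
    (by rw [norm_pow, Real.log_pow, hlog]; push_cast; ring)
    (by linarith) (by linarith) (by norm_num [W6])
  obtain ⟨l2, l2', l4, l4'⟩ := lam_bounds hlam1 hlam2
  have u0 := mul_approx (p := (16 + 24 * a)) (w := w6 0 (14 * lam)) (pc := (2587 / 25000)) (dp := (121 / 1000000))
    (wc := (3926321 / 1000000)) (dw := (1047 / 250000)) (e := (908965829 / 1000000000000))
    (by rw [abs_le]; constructor <;> linarith)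
    (by rw [abs_le]; norm_num [w6] at l2 l2' l4 l4' ⊢; constructor <;> linarith)
    (by norm_num [abs_of_pos, abs_of_neg])
  rw [abs_le] at u0
  refine ⟨(16 + 24 * a) * w6 0 (14 * lam), ?_, ?_, ?_⟩
  · linarith [u0.1]
  · linarith [u0.2]
  · have e : b * ((16 + 24 * a) * w6 0 (14 * lam)) =
        ∑ j ∈ Finset.range 1, ((z ^ 14) ^ (j + 1)).im * w6 j (14 * lam) := by
      simp only [Finset.sum_range_succ, Finset.sum_range_zero]
      have e0 : ((z ^ 14) ^ (0 + 1)).im = (b * (16 + 24 * a)) := by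
        have : (z ^ 14) ^ (0 + 1) = ((9 : ℂ) + 16 * z + 12 * z ^ 2) := by
          linear_combination (9 * z ^ 0 + 7 * z ^ 1 + 5 * z ^ 2 + 4 * z ^ 3 + 3 * z ^ 4 + 2 * z ^ 5 + 2 * z ^ 6 + 1 * z ^ 7 + 1 * z ^ 8 + 1 * z ^ 9 + 1 * z ^ 11) * hz
        rw [this]
        have h' := him 9 16 12
        push_cast at h'
        rw [h']; ring
      rw [e0]
      ring
    rw [e]; exact h

theorem y6_tp8 {z : ℂ} {a b lam : ℝ} (D : NumData z a b lam) :
    ∃ m : ℝ, 2199 / 2500 ≤ m ∧ m ≤ 881 / 1000 ∧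
      |calLdisc 6 (z ^ 8) - b * m| ≤ 673 / 50000 := by
  obtain ⟨hz, him, hlog, hR, ha1, ha2, hlam1, hlam2⟩ := D
  have h := approx_six_of_le (z := (z ^ 8)) (r := 8119 / 25000) (x := 8 * lam)
    (X := 1407 / 1250) (t := 673 / 50000)
    (by rw [norm_pow]; exact hR 8 8119 25000 (by norm_num) (by norm_num))
    (by norm_num) 1
    (by rw [norm_pow, Real.log_pow, hlog]; push_cast; ring)
    (by linarith) (by linarith) (by norm_num [W6])
  obtain ⟨l2, l2', l4, l4'⟩ := lam_bounds hlam1 hlam2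
  have u0 := mul_approx (p := (3 + 4 * a)) (w := w6 0 (8 * lam)) (pc := (17529 / 50000)) (dp := (21 / 1000000))
    (wc := (502191 / 200000)) (dw := (1503 / 1000000)) (e := (289841679 / 500000000000))
    (by rw [abs_le]; constructor <;> linarith)
    (by rw [abs_le]; norm_num [w6] at l2 l2' l4 l4' ⊢; constructor <;> linarith)
    (by norm_num [abs_of_pos, abs_of_neg])
  rw [abs_le] at u0
  refine ⟨(3 + 4 * a) * w6 0 (8 * lam), ?_, ?_, ?_⟩
  · linarith [u0.1]
  · linarith [u0.2]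
  · have e : b * ((3 + 4 * a) * w6 0 (8 * lam)) =
        ∑ j ∈ Finset.range 1, ((z ^ 8) ^ (j + 1)).im * w6 j (8 * lam) := by
      simp only [Finset.sum_range_succ, Finset.sum_range_zero]
      have e0 : ((z ^ 8) ^ (0 + 1)).im = (b * (3 + 4 * a)) := by
        have : (z ^ 8) ^ (0 + 1) = ((2 : ℂ) + 3 * z + 2 * z ^ 2) := by
          linear_combination (2 * z ^ 0 + 1 * z ^ 1 + 1 * z ^ 2 + 1 * z ^ 3 + 1 * z ^ 5) * hz
        rw [this]
        have h' := him 2 3 2
        push_cast at h'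
        rw [h']; ring
      rw [e0]
      ring
    rw [e]; exact h

theorem y6_tp5 {z : ℂ} {a b lam : ℝ} (D : NumData z a b lam) :
    ∃ m : ℝ, -619 / 1000 ≤ m ∧ m ≤ -3091 / 5000 ∧
      |calLdisc 6 (z ^ 5) - b * m| ≤ 167 / 100000 := by
  obtain ⟨hz, him, hlog, hR, ha1, ha2, hlam1, hlam2⟩ := D
  have h := approx_six_of_le (z := (z ^ 5)) (r := 24757 / 50000) (x := 5 * lam)
    (X := 1407 / 2000) (t := 167 / 100000)
    (by rw [norm_pow]; exact hR 5 24757 50000 (by norm_num) (by norm_num))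
    (by norm_num) 2
    (by rw [norm_pow, Real.log_pow, hlog]; push_cast; ring)
    (by linarith) (by linarith) (by norm_num [W6])
  obtain ⟨l2, l2', l4, l4'⟩ := lam_bounds hlam1 hlam2
  have u0 := mul_approx (p := (1 + 2 * a)) (w := w6 0 (5 * lam)) (pc := (-32471 / 100000)) (dp := (11 / 1000000))
    (wc := (1862309 / 1000000)) (dw := (751 / 1000000)) (e := (26435087 / 100000000000))
    (by rw [abs_le]; constructor <;> linarith)
    (by rw [abs_le]; norm_num [w6] at l2 l2' l4 l4' ⊢; constructor <;> linarith)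
    (by norm_num [abs_of_pos, abs_of_neg])
  rw [abs_le] at u0
  have u1 := mul_approx (p := (5 + 8 * a)) (w := w6 1 (5 * lam)) (pc := (-7471 / 25000)) (dp := (41 / 1000000))
    (wc := (46533 / 1000000)) (dw := (9 / 250000)) (e := (12667569 / 1000000000000))
    (by rw [abs_le]; constructor <;> linarith)
    (by rw [abs_le]; norm_num [w6] at l2 l2' l4 l4' ⊢; constructor <;> linarith)
    (by norm_num [abs_of_pos, abs_of_neg])
  rw [abs_le] at u1
  refine ⟨(1 + 2 * a) * w6 0 (5 * lam) + (5 + 8 * a) * w6 1 (5 * lam), ?_, ?_, ?_⟩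
  · linarith [u0.1, u1.1]
  · linarith [u0.2, u1.2]
  · have e : b * ((1 + 2 * a) * w6 0 (5 * lam) + (5 + 8 * a) * w6 1 (5 * lam)) =
        ∑ j ∈ Finset.range 2, ((z ^ 5) ^ (j + 1)).im * w6 j (5 * lam) := by
      simp only [Finset.sum_range_succ, Finset.sum_range_zero]
      have e0 : ((z ^ 5) ^ (0 + 1)).im = (b * (1 + 2 * a)) := by
        have : (z ^ 5) ^ (0 + 1) = ((1 : ℂ) + 1 * z + 1 * z ^ 2) := by
          linear_combination (1 * z ^ 0 + 1 * z ^ 2) * hz
        rw [this]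
        have h' := him 1 1 1
        push_cast at h'
        rw [h']; ring
      rw [e0]
      have e1 : ((z ^ 5) ^ (1 + 1)).im = (b * (5 + 8 * a)) := by
        have : (z ^ 5) ^ (1 + 1) = ((3 : ℂ) + 5 * z + 4 * z ^ 2) := by
          linear_combination (3 * z ^ 0 + 2 * z ^ 1 + 2 * z ^ 2 + 1 * z ^ 3 + 1 * z ^ 4 + 1 * z ^ 5 + 1 * z ^ 7) * hz
        rw [this]
        have h' := him 3 5 4
        push_cast at h'
        rw [h']; ring
      rw [e1]
      ring
    rw [e]; exact h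

theorem y6_tm3 {z : ℂ} {a b lam : ℝ} (D : NumData z a b lam) :
    ∃ m : ℝ, -14591 / 10000 ≤ m ∧ m ≤ -729 / 500 ∧
      |calLdisc 6 (-z ^ 3) - b * m| ≤ 161 / 50000 := by
  obtain ⟨hz, him, hlog, hR, ha1, ha2, hlam1, hlam2⟩ := D
  have h := approx_six_of_le (z := (-z ^ 3)) (r := 6559 / 10000) (x := 3 * lam)
    (X := 4221 / 10000) (t := 161 / 50000)
    (by rw [norm_neg, norm_pow]; exact hR 3 6559 10000 (by norm_num) (by norm_num))
    (by norm_num) 2
    (by rw [norm_neg, norm_pow, Real.log_pow, hlog]; push_cast; ring)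
    (by linarith) (by linarith) (by norm_num [W6])
  obtain ⟨l2, l2', l4, l4'⟩ := lam_bounds hlam1 hlam2
  have u0 := mul_approx (p := -(1 + 0 * a)) (w := w6 0 (3 * lam)) (pc := (-1 / 1)) (dp := (1 / 1000000))
    (wc := (740201 / 500000)) (dw := (97 / 250000)) (e := (38948079 / 100000000000))
    (by rw [abs_le]; constructor <;> linarith)
    (by rw [abs_le]; norm_num [w6] at l2 l2' l4 l4' ⊢; constructor <;> linarith)
    (by norm_num [abs_of_pos, abs_of_neg])
  rw [abs_le] at u0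
  have u1 := mul_approx (p := (2 + 2 * a)) (w := w6 1 (3 * lam)) (pc := (67529 / 100000)) (dp := (11 / 1000000))
    (wc := (32337 / 1000000)) (dw := (17 / 1000000)) (e := (739739 / 62500000000))
    (by rw [abs_le]; constructor <;> linarith)
    (by rw [abs_le]; norm_num [w6] at l2 l2' l4 l4' ⊢; constructor <;> linarith)
    (by norm_num [abs_of_pos, abs_of_neg])
  rw [abs_le] at u1
  refine ⟨-(1 + 0 * a) * w6 0 (3 * lam) + (2 + 2 * a) * w6 1 (3 * lam), ?_, ?_, ?_⟩
  · linarith [u0.1, u1.1]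
  · linarith [u0.2, u1.2]
  · have e : b * (-(1 + 0 * a) * w6 0 (3 * lam) + (2 + 2 * a) * w6 1 (3 * lam)) =
        ∑ j ∈ Finset.range 2, ((-z ^ 3) ^ (j + 1)).im * w6 j (3 * lam) := by
      simp only [Finset.sum_range_succ, Finset.sum_range_zero]
      have e0 : ((-z ^ 3) ^ (0 + 1)).im = -(b * (1 + 0 * a)) := by
        have : (-z ^ 3) ^ (0 + 1) = -((1 : ℂ) + 1 * z + 0 * z ^ 2) := by
          linear_combination (-(1 * z ^ 0)) * hz
        rw [this]
        have h' := him 1 1 0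
        push_cast at h'
        rw [Complex.neg_im, h']; ring
      rw [e0]
      have e1 : ((-z ^ 3) ^ (1 + 1)).im = (b * (2 + 2 * a)) := by
        have : (-z ^ 3) ^ (1 + 1) = ((1 : ℂ) + 2 * z + 1 * z ^ 2) := by
          linear_combination (1 * z ^ 0 + 1 * z ^ 1 + 1 * z ^ 3) * hz
        rw [this]
        have h' := him 1 2 1
        push_cast at h'
        rw [h']; ring
      rw [e1]
      ring
    rw [e]; exact h

theorem y6_tm2 {z : ℂ} {a b lam : ℝ} (D : NumData z a b lam) :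
    ∃ m : ℝ, 1723 / 1000 ≤ m ∧ m ≤ 431 / 250 ∧
      |calLdisc 6 (-z ^ 2) - b * m| ≤ 63 / 12500 := by
  obtain ⟨hz, him, hlog, hR, ha1, ha2, hlam1, hlam2⟩ := D
  have h := approx_six_of_le (z := (-z ^ 2)) (r := 75491 / 100000) (x := 2 * lam)
    (X := 1407 / 5000) (t := 63 / 12500)
    (by rw [norm_neg, norm_pow]; exact hR 2 75491 100000 (by norm_num) (by norm_num))
    (by norm_num) 2
    (by rw [norm_neg, norm_pow, Real.log_pow, hlog]; push_cast; ring)
    (by linarith) (by linarith) (by norm_num [W6])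
  obtain ⟨l2, l2', l4, l4'⟩ := lam_bounds hlam1 hlam2
  have u0 := mul_approx (p := -(0 + 2 * a)) (w := w6 0 (2 * lam)) (pc := (132471 / 100000)) (dp := (11 / 1000000))
    (wc := (1307419 / 1000000)) (dw := (3 / 12500)) (e := (332314649 / 1000000000000))
    (by rw [abs_le]; constructor <;> linarith)
    (by rw [abs_le]; norm_num [w6] at l2 l2' l4 l4' ⊢; constructor <;> linarith)
    (by norm_num [abs_of_pos, abs_of_neg])
  rw [abs_le] at u0
  have u1 := mul_approx (p := (1 + 2 * a)) (w := w6 1 (2 * lam)) (pc := (-32471 / 100000)) (dp := (11 / 1000000))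
    (wc := (1041 / 40000)) (dw := (1 / 100000)) (e := (706697 / 200000000000))
    (by rw [abs_le]; constructor <;> linarith)
    (by rw [abs_le]; norm_num [w6] at l2 l2' l4 l4' ⊢; constructor <;> linarith)
    (by norm_num [abs_of_pos, abs_of_neg])
  rw [abs_le] at u1
  refine ⟨-(0 + 2 * a) * w6 0 (2 * lam) + (1 + 2 * a) * w6 1 (2 * lam), ?_, ?_, ?_⟩
  · linarith [u0.1, u1.1]
  · linarith [u0.2, u1.2]
  · have e : b * (-(0 + 2 * a) * w6 0 (2 * lam) + (1 + 2 * a) * w6 1 (2 * lam)) =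
        ∑ j ∈ Finset.range 2, ((-z ^ 2) ^ (j + 1)).im * w6 j (2 * lam) := by
      simp only [Finset.sum_range_succ, Finset.sum_range_zero]
      have e0 : ((-z ^ 2) ^ (0 + 1)).im = -(b * (0 + 2 * a)) := by
        have : (-z ^ 2) ^ (0 + 1) = -((0 : ℂ) + 0 * z + 1 * z ^ 2) := by
          linear_combination (-(0)) * hz
        rw [this]
        have h' := him 0 0 1
        push_cast at h'
        rw [Complex.neg_im, h']; ring
      rw [e0]
      have e1 : ((-z ^ 2) ^ (1 + 1)).im = (b * (1 + 2 * a)) := by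
        have : (-z ^ 2) ^ (1 + 1) = ((0 : ℂ) + 1 * z + 1 * z ^ 2) := by
          linear_combination (1 * z ^ 1) * hz
        rw [this]
        have h' := him 0 1 1
        push_cast at h'
        rw [h']; ring
      rw [e1]
      ring
    rw [e]; exact h

theorem y6_tp4 {z : ℂ} {a b lam : ℝ} (D : NumData z a b lam) :
    ∃ m : ℝ, -2637 / 5000 ≤ m ∧ m ≤ -5267 / 10000 ∧
      |calLdisc 6 (z ^ 4) - b * m| ≤ 113 / 50000 := by
  obtain ⟨hz, him, hlog, hR, ha1, ha2, hlam1, hlam2⟩ := D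
  have h := approx_six_of_le (z := (z ^ 4)) (r := 14247 / 25000) (x := 4 * lam)
    (X := 1407 / 2500) (t := 113 / 50000)
    (by rw [norm_pow]; exact hR 4 14247 25000 (by norm_num) (by norm_num))
    (by norm_num) 2
    (by rw [norm_pow, Real.log_pow, hlog]; push_cast; ring)
    (by linarith) (by linarith) (by norm_num [W6])
  obtain ⟨l2, l2', l4, l4'⟩ := lam_bounds hlam1 hlam2
  have u0 := mul_approx (p := (1 + 2 * a)) (w := w6 0 (4 * lam)) (pc := (-32471 / 100000)) (dp := (11 / 1000000))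
    (wc := (208201 / 125000)) (dw := (279 / 500000)) (e := (99758003 / 500000000000))
    (by rw [abs_le]; constructor <;> linarith)
    (by rw [abs_le]; norm_num [w6] at l2 l2' l4 l4' ⊢; constructor <;> linarith)
    (by norm_num [abs_of_pos, abs_of_neg])
  rw [abs_le] at u0
  have u1 := mul_approx (p := (3 + 4 * a)) (w := w6 1 (4 * lam)) (pc := (17529 / 50000)) (dp := (21 / 1000000))
    (wc := (19617 / 500000)) (dw := (1 / 40000)) (e := (9588939 / 1000000000000))
    (by rw [abs_le]; constructor <;> linarith)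
    (by rw [abs_le]; norm_num [w6] at l2 l2' l4 l4' ⊢; constructor <;> linarith)
    (by norm_num [abs_of_pos, abs_of_neg])
  rw [abs_le] at u1
  refine ⟨(1 + 2 * a) * w6 0 (4 * lam) + (3 + 4 * a) * w6 1 (4 * lam), ?_, ?_, ?_⟩
  · linarith [u0.1, u1.1]
  · linarith [u0.2, u1.2]
  · have e : b * ((1 + 2 * a) * w6 0 (4 * lam) + (3 + 4 * a) * w6 1 (4 * lam)) =
        ∑ j ∈ Finset.range 2, ((z ^ 4) ^ (j + 1)).im * w6 j (4 * lam) := by
      simp only [Finset.sum_range_succ, Finset.sum_range_zero]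
      have e0 : ((z ^ 4) ^ (0 + 1)).im = (b * (1 + 2 * a)) := by
        have : (z ^ 4) ^ (0 + 1) = ((0 : ℂ) + 1 * z + 1 * z ^ 2) := by
          linear_combination (1 * z ^ 1) * hz
        rw [this]
        have h' := him 0 1 1
        push_cast at h'
        rw [h']; ring
      rw [e0]
      have e1 : ((z ^ 4) ^ (1 + 1)).im = (b * (3 + 4 * a)) := by
        have : (z ^ 4) ^ (1 + 1) = ((2 : ℂ) + 3 * z + 2 * z ^ 2) := by
          linear_combination (2 * z ^ 0 + 1 * z ^ 1 + 1 * z ^ 2 + 1 * z ^ 3 + 1 * z ^ 5) * hz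
        rw [this]
        have h' := him 2 3 2
        push_cast at h'
        rw [h']; ring
      rw [e1]
      ring
    rw [e]; exact h

theorem y6_tp6 {z : ℂ} {a b lam : ℝ} (D : NumData z a b lam) :
    ∃ m : ℝ, 13967 / 10000 ≤ m ∧ m ≤ 874 / 625 ∧
      |calLdisc 6 (z ^ 6) - b * m| ≤ 1939 / 100000 := by
  obtain ⟨hz, him, hlog, hR, ha1, ha2, hlam1, hlam2⟩ := D
  have h := approx_six_of_le (z := (z ^ 6)) (r := 2151 / 5000) (x := 6 * lam)
    (X := 4221 / 5000) (t := 1939 / 100000)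
    (by rw [norm_pow]; exact hR 6 2151 5000 (by norm_num) (by norm_num))
    (by norm_num) 1
    (by rw [norm_pow, Real.log_pow, hlog]; push_cast; ring)
    (by linarith) (by linarith) (by norm_num [W6])
  obtain ⟨l2, l2', l4, l4'⟩ := lam_bounds hlam1 hlam2
  have u0 := mul_approx (p := (2 + 2 * a)) (w := w6 0 (6 * lam)) (pc := (67529 / 100000)) (dp := (11 / 1000000))
    (wc := (1034783 / 500000)) (dw := (971 / 1000000)) (e := (678482497 / 1000000000000))
    (by rw [abs_le]; constructor <;> linarith)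
    (by rw [abs_le]; norm_num [w6] at l2 l2' l4 l4' ⊢; constructor <;> linarith)
    (by norm_num [abs_of_pos, abs_of_neg])
  rw [abs_le] at u0
  refine ⟨(2 + 2 * a) * w6 0 (6 * lam), ?_, ?_, ?_⟩
  · linarith [u0.1]
  · linarith [u0.2]
  · have e : b * ((2 + 2 * a) * w6 0 (6 * lam)) =
        ∑ j ∈ Finset.range 1, ((z ^ 6) ^ (j + 1)).im * w6 j (6 * lam) := by
      simp only [Finset.sum_range_succ, Finset.sum_range_zero]
      have e0 : ((z ^ 6) ^ (0 + 1)).im = (b * (2 + 2 * a)) := by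
        have : (z ^ 6) ^ (0 + 1) = ((1 : ℂ) + 2 * z + 1 * z ^ 2) := by
          linear_combination (1 * z ^ 0 + 1 * z ^ 1 + 1 * z ^ 3) * hz
        rw [this]
        have h' := him 1 2 1
        push_cast at h'
        rw [h']; ring
      rw [e0]
      ring
    rw [e]; exact h

theorem y6_tm10 {z : ℂ} {a b lam : ℝ} (D : NumData z a b lam) :
    ∃ m : ℝ, 8891 / 10000 ≤ m ∧ m ≤ 8909 / 10000 ∧
      |calLdisc 6 (-z ^ 10) - b * m| ≤ 977 / 100000 := by
  obtain ⟨hz, him, hlog, hR, ha1, ha2, hlam1, hlam2⟩ := D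
  have h := approx_six_of_le (z := (-z ^ 10)) (r := 6129 / 25000) (x := 10 * lam)
    (X := 1407 / 1000) (t := 977 / 100000)
    (by rw [norm_neg, norm_pow]; exact hR 10 6129 25000 (by norm_num) (by norm_num))
    (by norm_num) 1
    (by rw [norm_neg, norm_pow, Real.log_pow, hlog]; push_cast; ring)
    (by linarith) (by linarith) (by norm_num [W6])
  obtain ⟨l2, l2', l4, l4'⟩ := lam_bounds hlam1 hlam2
  have u0 := mul_approx (p := -(5 + 8 * a)) (w := w6 0 (10 * lam)) (pc := (7471 / 25000)) (dp := (41 / 1000000))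
    (wc := (372263 / 125000)) (dw := (1093 / 500000)) (e := (77545613 / 100000000000))
    (by rw [abs_le]; constructor <;> linarith)
    (by rw [abs_le]; norm_num [w6] at l2 l2' l4 l4' ⊢; constructor <;> linarith)
    (by norm_num [abs_of_pos, abs_of_neg])
  rw [abs_le] at u0
  refine ⟨-(5 + 8 * a) * w6 0 (10 * lam), ?_, ?_, ?_⟩
  · linarith [u0.1]
  · linarith [u0.2]
  · have e : b * (-(5 + 8 * a) * w6 0 (10 * lam)) =
        ∑ j ∈ Finset.range 1, ((-z ^ 10) ^ (j + 1)).im * w6 j (10 * lam) := by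
      simp only [Finset.sum_range_succ, Finset.sum_range_zero]
      have e0 : ((-z ^ 10) ^ (0 + 1)).im = -(b * (5 + 8 * a)) := by
        have : (-z ^ 10) ^ (0 + 1) = -((3 : ℂ) + 5 * z + 4 * z ^ 2) := by
          linear_combination (-(3 * z ^ 0 + 2 * z ^ 1 + 2 * z ^ 2 + 1 * z ^ 3 + 1 * z ^ 4 + 1 * z ^ 5 + 1 * z ^ 7)) * hz
        rw [this]
        have h' := him 3 5 4
        push_cast at h'
        rw [Complex.neg_im, h']; ring
      rw [e0]
      ring
    rw [e]; exact h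

theorem y6_tm1 {z : ℂ} {a b lam : ℝ} (D : NumData z a b lam) :
    ∃ m : ℝ, -2353 / 2000 ≤ m ∧ m ≤ -147 / 125 ∧
      |calLdisc 6 (-z ^ 1) - b * m| ≤ 89 / 50000 := by
  obtain ⟨hz, him, hlog, hR, ha1, ha2, hlam1, hlam2⟩ := D
  have h := approx_six_of_le (z := (-z ^ 1)) (r := 17377 / 20000) (x := 1 * lam)
    (X := 1407 / 10000) (t := 89 / 50000)
    (by rw [norm_neg, norm_pow]; exact hR 1 17377 20000 (by norm_num) (by norm_num))
    (by norm_num) 3
    (by rw [norm_neg, norm_pow, Real.log_pow, hlog]; push_cast; ring)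
    (by linarith) (by linarith) (by norm_num [W6])
  obtain ⟨l2, l2', l4, l4'⟩ := lam_bounds hlam1 hlam2
  have u0 := mul_approx (p := -(1 + 0 * a)) (w := w6 0 (1 * lam)) (pc := (-1 / 1)) (dp := (1 / 1000000))
    (wc := (1147181 / 1000000)) (dw := (111 / 1000000)) (e := (28036823 / 250000000000))
    (by rw [abs_le]; constructor <;> linarith)
    (by rw [abs_le]; norm_num [w6] at l2 l2' l4 l4' ⊢; constructor <;> linarith)
    (by norm_num [abs_of_pos, abs_of_neg])
  rw [abs_le] at u0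
  have u1 := mul_approx (p := (0 + 2 * a)) (w := w6 1 (1 * lam)) (pc := (-132471 / 100000)) (dp := (11 / 1000000))
    (wc := (5107 / 250000)) (dw := (3 / 500000)) (e := (4086517 / 500000000000))
    (by rw [abs_le]; constructor <;> linarith)
    (by rw [abs_le]; norm_num [w6] at l2 l2' l4 l4' ⊢; constructor <;> linarith)
    (by norm_num [abs_of_pos, abs_of_neg])
  rw [abs_le] at u1
  have u2 := mul_approx (p := -(1 + 0 * a)) (w := w6 2 (1 * lam)) (pc := (-1 / 1)) (dp := (1 / 1000000))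
    (wc := (2031 / 1000000)) (dw := (1 / 500000)) (e := (2002033 / 1000000000000))
    (by rw [abs_le]; constructor <;> linarith)
    (by rw [abs_le]; norm_num [w6] at l2 l2' l4 l4' ⊢; constructor <;> linarith)
    (by norm_num [abs_of_pos, abs_of_neg])
  rw [abs_le] at u2
  refine ⟨-(1 + 0 * a) * w6 0 (1 * lam) + (0 + 2 * a) * w6 1 (1 * lam) + -(1 + 0 * a) * w6 2 (1 * lam), ?_, ?_, ?_⟩
  · linarith [u0.1, u1.1, u2.1]
  · linarith [u0.2, u1.2, u2.2]
  · have e : b * (-(1 + 0 * a) * w6 0 (1 * lam) + (0 + 2 * a) * w6 1 (1 * lam) + -(1 + 0 * a) * w6 2 (1 * lam)) =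
        ∑ j ∈ Finset.range 3, ((-z ^ 1) ^ (j + 1)).im * w6 j (1 * lam) := by
      simp only [Finset.sum_range_succ, Finset.sum_range_zero]
      have e0 : ((-z ^ 1) ^ (0 + 1)).im = -(b * (1 + 0 * a)) := by
        have : (-z ^ 1) ^ (0 + 1) = -((0 : ℂ) + 1 * z + 0 * z ^ 2) := by
          linear_combination (-(0)) * hz
        rw [this]
        have h' := him 0 1 0
        push_cast at h'
        rw [Complex.neg_im, h']; ring
      rw [e0]
      have e1 : ((-z ^ 1) ^ (1 + 1)).im = (b * (0 + 2 * a)) := by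
        have : (-z ^ 1) ^ (1 + 1) = ((0 : ℂ) + 0 * z + 1 * z ^ 2) := by
          linear_combination (0) * hz
        rw [this]
        have h' := him 0 0 1
        push_cast at h'
        rw [h']; ring
      rw [e1]
      have e2 : ((-z ^ 1) ^ (2 + 1)).im = -(b * (1 + 0 * a)) := by
        have : (-z ^ 1) ^ (2 + 1) = -((1 : ℂ) + 1 * z + 0 * z ^ 2) := by
          linear_combination (-(1 * z ^ 0)) * hz
        rw [this]
        have h' := him 1 1 0
        push_cast at h'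
        rw [Complex.neg_im, h']; ring
      rw [e2]
      ring
    rw [e]; exact h

theorem y6_tm9 {z : ℂ} {a b lam : ℝ} (D : NumData z a b lam) :
    ∃ m : ℝ, -89 / 1250 ≤ m ∧ m ≤ -707 / 10000 ∧
      |calLdisc 6 (-z ^ 9) - b * m| ≤ 571 / 50000 := by
  obtain ⟨hz, him, hlog, hR, ha1, ha2, hlam1, hlam2⟩ := D
  have h := approx_six_of_le (z := (-z ^ 9)) (r := 28217 / 100000) (x := 9 * lam)
    (X := 12663 / 10000) (t := 571 / 50000)
    (by rw [norm_neg, norm_pow]; exact hR 9 28217 100000 (by norm_num) (by norm_num))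
    (by norm_num) 1
    (by rw [norm_neg, norm_pow, Real.log_pow, hlog]; push_cast; ring)
    (by linarith) (by linarith) (by norm_num [W6])
  obtain ⟨l2, l2', l4, l4'⟩ := lam_bounds hlam1 hlam2
  have u0 := mul_approx (p := -(4 + 6 * a)) (w := w6 0 (9 * lam)) (pc := (-2587 / 100000)) (dp := (31 / 1000000))
    (wc := (2742169 / 1000000)) (dw := (1823 / 1000000)) (e := (66112381 / 500000000000))
    (by rw [abs_le]; constructor <;> linarith)
    (by rw [abs_le]; norm_num [w6] at l2 l2' l4 l4' ⊢; constructor <;> linarith)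
    (by norm_num [abs_of_pos, abs_of_neg])
  rw [abs_le] at u0
  refine ⟨-(4 + 6 * a) * w6 0 (9 * lam), ?_, ?_, ?_⟩
  · linarith [u0.1]
  · linarith [u0.2]
  · have e : b * (-(4 + 6 * a) * w6 0 (9 * lam)) =
        ∑ j ∈ Finset.range 1, ((-z ^ 9) ^ (j + 1)).im * w6 j (9 * lam) := by
      simp only [Finset.sum_range_succ, Finset.sum_range_zero]
      have e0 : ((-z ^ 9) ^ (0 + 1)).im = -(b * (4 + 6 * a)) := by
        have : (-z ^ 9) ^ (0 + 1) = -((2 : ℂ) + 4 * z + 3 * z ^ 2) := by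
          linear_combination (-(2 * z ^ 0 + 2 * z ^ 1 + 1 * z ^ 2 + 1 * z ^ 3 + 1 * z ^ 4 + 1 * z ^ 6)) * hz
        rw [this]
        have h' := him 2 4 3
        push_cast at h'
        rw [Complex.neg_im, h']; ring
      rw [e0]
      ring
    rw [e]; exact h

theorem y6_tm6 {z : ℂ} {a b lam : ℝ} (D : NumData z a b lam) :
    ∃ m : ℝ, -14131 / 10000 ≤ m ∧ m ≤ -2823 / 2000 ∧
      |calLdisc 6 (-z ^ 6) - b * m| ≤ 127 / 100000 := by
  obtain ⟨hz, him, hlog, hR, ha1, ha2, hlam1, hlam2⟩ := D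
  have h := approx_six_of_le (z := (-z ^ 6)) (r := 2151 / 5000) (x := 6 * lam)
    (X := 4221 / 5000) (t := 127 / 100000)
    (by rw [norm_neg, norm_pow]; exact hR 6 2151 5000 (by norm_num) (by norm_num))
    (by norm_num) 2
    (by rw [norm_neg, norm_pow, Real.log_pow, hlog]; push_cast; ring)
    (by linarith) (by linarith) (by norm_num [W6])
  obtain ⟨l2, l2', l4, l4'⟩ := lam_bounds hlam1 hlam2
  have u0 := mul_approx (p := -(2 + 2 * a)) (w := w6 0 (6 * lam)) (pc := (-67529 / 100000)) (dp := (11 / 1000000))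
    (wc := (1034783 / 500000)) (dw := (971 / 1000000)) (e := (678482497 / 1000000000000))
    (by rw [abs_le]; constructor <;> linarith)
    (by rw [abs_le]; norm_num [w6] at l2 l2' l4 l4' ⊢; constructor <;> linarith)
    (by norm_num [abs_of_pos, abs_of_neg])
  rw [abs_le] at u0
  have u1 := mul_approx (p := (9 + 14 * a)) (w := w6 1 (6 * lam)) (pc := (-27297 / 100000)) (dp := (71 / 1000000))
    (wc := (27 / 500)) (dw := (49 / 1000000)) (e := (17213009 / 1000000000000))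
    (by rw [abs_le]; constructor <;> linarith)
    (by rw [abs_le]; norm_num [w6] at l2 l2' l4 l4' ⊢; constructor <;> linarith)
    (by norm_num [abs_of_pos, abs_of_neg])
  rw [abs_le] at u1
  refine ⟨-(2 + 2 * a) * w6 0 (6 * lam) + (9 + 14 * a) * w6 1 (6 * lam), ?_, ?_, ?_⟩
  · linarith [u0.1, u1.1]
  · linarith [u0.2, u1.2]
  · have e : b * (-(2 + 2 * a) * w6 0 (6 * lam) + (9 + 14 * a) * w6 1 (6 * lam)) =
        ∑ j ∈ Finset.range 2, ((-z ^ 6) ^ (j + 1)).im * w6 j (6 * lam) := by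
      simp only [Finset.sum_range_succ, Finset.sum_range_zero]
      have e0 : ((-z ^ 6) ^ (0 + 1)).im = -(b * (2 + 2 * a)) := by
        have : (-z ^ 6) ^ (0 + 1) = -((1 : ℂ) + 2 * z + 1 * z ^ 2) := by
          linear_combination (-(1 * z ^ 0 + 1 * z ^ 1 + 1 * z ^ 3)) * hz
        rw [this]
        have h' := him 1 2 1
        push_cast at h'
        rw [Complex.neg_im, h']; ring
      rw [e0]
      have e1 : ((-z ^ 6) ^ (1 + 1)).im = (b * (9 + 14 * a)) := by
        have : (-z ^ 6) ^ (1 + 1) = ((5 : ℂ) + 9 * z + 7 * z ^ 2) := by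
          linear_combination (5 * z ^ 0 + 4 * z ^ 1 + 3 * z ^ 2 + 2 * z ^ 3 + 2 * z ^ 4 + 1 * z ^ 5 + 1 * z ^ 6 + 1 * z ^ 7 + 1 * z ^ 9) * hz
        rw [this]
        have h' := him 5 9 7
        push_cast at h'
        rw [h']; ring
      rw [e1]
      ring
    rw [e]; exact h


theorem re_im_of_root {z : ℂ} (hz : z ^ 3 = z + 1) (him0 : z.im ≠ 0) :
    z.im ^ 2 = 3 * z.re ^ 2 - 1 ∧ 8 * z.re ^ 3 - 2 * z.re + 1 = 0 := by
  obtain ⟨a, ha⟩ : ∃ a, a = z.re := ⟨_, rfl⟩
  obtain ⟨b, hb⟩ : ∃ b, b = z.im := ⟨_, rfl⟩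
  rw [← hb] at him0
  have hre : a ^ 3 - 3 * a * b ^ 2 = a + 1 := by
    have := congrArg Complex.re hz
    simp only [pow_succ, pow_zero, one_mul, Complex.mul_re, Complex.mul_im, Complex.add_re,
      Complex.one_re] at this
    rw [ha, hb]; linarith
  have him1 : 3 * a ^ 2 * b - b ^ 3 = b := by
    have := congrArg Complex.im hz
    simp only [pow_succ, pow_zero, one_mul, Complex.mul_re, Complex.mul_im, Complex.add_im,
      Complex.one_im, add_zero] at this
    rw [ha, hb]; linarith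
  have hb2 : b ^ 2 = 3 * a ^ 2 - 1 := by
    have : b * (3 * a ^ 2 - b ^ 2 - 1) = 0 := by linear_combination him1
    rcases mul_eq_zero.1 this with h | h
    · exact absurd h him0
    · linarith
  rw [← ha, ← hb]
  refine ⟨hb2, ?_⟩
  rw [hb2] at hre; linarith

theorem norm_sq_of_root {z : ℂ} (hz : z ^ 3 = z + 1) (him0 : z.im ≠ 0) :
    ‖z‖ ^ 2 = 4 * z.re ^ 2 - 1 := by
  rw [← Complex.normSq_eq_norm_sq, Complex.normSq_apply]
  linarith [(re_im_of_root hz him0).1]

theorem norm_lt_one_of_root {z : ℂ} (hz : z ^ 3 = z + 1) (him0 : z.im ≠ 0) : ‖z‖ < 1 := by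
  obtain ⟨ha1, ha2⟩ := root_bounds (re_im_of_root hz him0).2
  have h := norm_sq_of_root hz him0
  nlinarith [norm_nonneg z]

/-- The non-real root of `X³ - X - 1` is unique up to conjugation. -/
theorem complex_root_unique {z w : ℂ} (hz : z ^ 3 = z + 1) (hz0 : z.im ≠ 0)
    (hw : w ^ 3 = w + 1) (hw0 : w.im ≠ 0) : z = w ∨ z = (starRingEnd ℂ) w := by
  obtain ⟨h1, h2⟩ := re_im_of_root hz hz0
  obtain ⟨h3, h4⟩ := re_im_of_root hw hw0
  obtain ⟨a1, a2⟩ := root_bounds h2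
  obtain ⟨a3, a4⟩ := root_bounds h4
  have hre : z.re = w.re := by
    have h5 : (z.re - w.re) * (8 * (z.re ^ 2 + z.re * w.re + w.re ^ 2) - 2) = 0 := by
      linear_combination h2 - h4
    rcases mul_eq_zero.1 h5 with h | h
    · linarith
    · nlinarith
  have him : z.im ^ 2 = w.im ^ 2 := by rw [h1, h3, hre]
  rcases sq_eq_sq_iff_eq_or_eq_neg.1 him with h | h
  · left; exact Complex.ext hre h
  · right; exact Complex.ext (by simpa using hre) (by simpa using h)

theorem y6_num {z : ℂ} (hz : z ^ 3 = z + 1) (him0 : z.im ≠ 0) :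
    (122880) * calLdisc 6 (-z ^ 14) + (-61440) * calLdisc 6 (z ^ 14) + (-1544280) * calLdisc 6 (z ^ 8) + (4850688) * calLdisc 6 (z ^ 5) + (12472320) * calLdisc 6 (-z ^ 3) + (-6567840) * calLdisc 6 (-z ^ 2) + (-8334195) * calLdisc 6 (z ^ 4) + (271200) * calLdisc 6 (z ^ 6) + (172032) * calLdisc 6 (-z ^ 10) + (-15820800) * calLdisc 6 (-z ^ 1) + (-87040) * calLdisc 6 (-z ^ 9) + (-5291520) * calLdisc 6 (-z ^ 6) ≠ 0 := by
  obtain ⟨a, ha⟩ : ∃ a, a = z.re := ⟨_, rfl⟩
  obtain ⟨b, hb⟩ : ∃ b, b = z.im := ⟨_, rfl⟩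
  rw [← hb] at him0
  obtain ⟨hb2, hcub⟩ := re_im_of_root hz (by rwa [← hb])
  have hnorm2 := norm_sq_of_root hz (by rwa [← hb])
  rw [← ha] at hb2 hcub hnorm2
  rw [← hb] at hb2
  obtain ⟨ha1, ha2⟩ := root_bounds hcub
  have hn1 : 0.75482 ≤ ‖z‖ ^ 2 := by rw [hnorm2]; nlinarith
  have hn2 : ‖z‖ ^ 2 ≤ 0.7549 := by rw [hnorm2]; nlinarith
  have hz0 : 0 < ‖z‖ := by
    rcases (norm_nonneg z).lt_or_eq with h | h
    · exact h
    · rw [← h] at hn1; norm_num at hn1
  have hzr : ‖z‖ ≤ 0.86885 := by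
    by_contra h
    push Not at h
    nlinarith
  obtain ⟨hl1, hl2⟩ := log_bounds hn1 hn2
  rw [Real.log_pow] at hl1 hl2
  push_cast at hl1 hl2
  obtain ⟨lam, hlam⟩ : ∃ lam, lam = -Real.log ‖z‖ := ⟨_, rfl⟩
  have hlog : Real.log ‖z‖ = -lam := by rw [hlam]; ring
  have hlam1 : 0.1405 ≤ lam := by rw [hlam]; linarith
  have hlam2 : lam ≤ 0.1407 := by rw [hlam]; linarith
  have hR : ∀ (k : ℕ) (n d : ℝ), 0 < d → 0.86885 ^ k * d ≤ n → ‖z‖ ^ k ≤ n / d := by
    intro k n d hd h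
    rw [le_div_iff₀ hd]
    refine le_trans (mul_le_mul_of_nonneg_right ?_ hd.le) h
    exact pow_le_pow_left₀ hz0.le hzr k
  have him : ∀ A B C : ℝ, ((A : ℂ) + B * z + C * z ^ 2).im = b * (B + 2 * C * a) := by
    intro A B C
    simp only [pow_two, Complex.add_im, Complex.mul_im, Complex.mul_re, Complex.ofReal_re,
      Complex.ofReal_im, zero_mul, add_zero, zero_add]
    rw [ha, hb]; ring
  have hbb : 0.316 ≤ b ^ 2 := by rw [hb2]; nlinarith
  have hbabs : 0.562 ≤ |b| := by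
    by_contra h
    push Not at h
    have : |b| ^ 2 < 0.562 ^ 2 := by
      have := abs_nonneg b
      nlinarith
    rw [sq_abs] at this
    norm_num at this hbb
    linarith
  have D : NumData z a b lam := ⟨hz, him, hlog, hR, ha1, ha2, hlam1, hlam2⟩
  obtain ⟨m0, p0, q0, r0⟩ := y6_tm14 D
  obtain ⟨m1, p1, q1, r1⟩ := y6_tp14 D
  obtain ⟨m2, p2, q2, r2⟩ := y6_tp8 D
  obtain ⟨m3, p3, q3, r3⟩ := y6_tp5 D
  obtain ⟨m4, p4, q4, r4⟩ := y6_tm3 D
  obtain ⟨m5, p5, q5, r5⟩ := y6_tm2 D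
  obtain ⟨m6, p6, q6, r6⟩ := y6_tp4 D
  obtain ⟨m7, p7, q7, r7⟩ := y6_tp6 D
  obtain ⟨m8, p8, q8, r8⟩ := y6_tm10 D
  obtain ⟨m9, p9, q9, r9⟩ := y6_tm1 D
  obtain ⟨m10, p10, q10, r10⟩ := y6_tm9 D
  obtain ⟨m11, p11, q11, r11⟩ := y6_tm6 D
  rw [abs_le] at r0 r1 r2 r3 r4 r5 r6 r7 r8 r9 r10 r11
  obtain ⟨M, hM⟩ : ∃ M : ℝ, M = (122880) * m0 + (-61440) * m1 + (-1544280) * m2 + (4850688) * m3 + (12472320) * m4 + (-6567840) * m5 + (-8334195) * m6 + (271200) * m7 + (172032) * m8 + (-15820800) * m9 + (-87040) * m10 + (-5291520) * m11 := ⟨_, rfl⟩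
  have hMv : M ≤ -2907000 := by rw [hM]; linarith
  intro h0
  have hbM : |b * M| ≤ 165000 := by
    rw [abs_le, hM]
    constructor <;> linarith [r0.1, r0.2, r1.1, r1.2, r2.1, r2.2, r3.1, r3.2, r4.1, r4.2, r5.1, r5.2, r6.1, r6.2, r7.1, r7.2, r8.1, r8.2, r9.1, r9.2, r10.1, r10.2, r11.1, r11.2]
  rw [abs_mul] at hbM
  have h3 : 0.562 * 2907000 ≤ |b| * |M| :=
    mul_le_mul hbabs (by rw [abs_of_nonpos (by linarith)]; linarith) (by norm_num) (abs_nonneg b)
  linarith

end Num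

end Pool.Agent.Zagier
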