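import Pool.Agent.Zagier.Core

/-!
# Field theory used for the regulator statements
-/

open scoped TensorProduct
open NumberField

namespace Pool.Agent.Zagier

universe u

/-- If there is at most one place counted by `d_n` it suffices to find one element. -/
theorem regulator_of_subsingleton {F : Type u} [Field F] [NumberField F] {n : ℕ}
    [Subsingleton (Places n F)] (y : ZP1 F) (hy : y ∈ kerDelta n F)
    (h : ∀ v : Places n F, reg n v.1.embedding y ≠ 0) : RegulatorNonvanishing n F := by
  classical
  refine ⟨fun _ => y, fun _ => hy, ?_⟩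
  by_cases hne : Nonempty (Places n F)
  · obtain ⟨v⟩ := hne
    have : Unique (Places n F) := { default := v, uniq := fun w => Subsingleton.elim _ _ }
    rw [Matrix.det_unique]
    simpa [Matrix.of_apply, reg_apply] using h default
  · have : IsEmpty (Places n F) := not_nonempty_iff.1 hne
    rw [Matrix.det_isEmpty]
    exact one_ne_zero

section Field

variable {F : Type u} [Field F] [NumberField F]

/-- embeddings are determined by the image of a primitive element -/
theorem emb_ext (x : F) (h : IntermediateField.adjoin ℚ {x} = ⊤) (σ τ : F →+* ℂ)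
    (hx : σ x = τ x) : σ = τ := by
  have h1 := (Field.primitive_element_iff_algHom_eq_of_eval' ℚ ℂ
    (fun _ => IsAlgClosed.splits _) x).1 h
  have h2 : σ.toRatAlgHom = τ.toRatAlgHom := h1 hx
  ext y
  exact DFunLike.congr_fun h2 y

theorem im_ne_zero_of_isComplex (x : F) (h : IntermediateField.adjoin ℚ {x} = ⊤)
    (v : InfinitePlace F) (hv : v.IsComplex) : (v.embedding x).im ≠ 0 := by
  intro h0
  rw [InfinitePlace.isComplex_iff] at hv
  apply hv
  refine emb_ext x h _ _ ?_
  rw [ComplexEmbedding.conjugate_coe_eq]
  exact Complex.conj_eq_iff_im.2 h0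

theorem eq_of_embedding_eq (x : F) (h : IntermediateField.adjoin ℚ {x} = ⊤)
    (v w : InfinitePlace F) (hvw : v.embedding x = w.embedding x ∨
      v.embedding x = (starRingEnd ℂ) (w.embedding x)) : v = w := by
  rw [← InfinitePlace.mk_embedding v, ← InfinitePlace.mk_embedding w, InfinitePlace.mk_eq_iff]
  rcases hvw with h1 | h1
  · exact Or.inl (emb_ext x h _ _ h1)
  · right
    refine emb_ext x h _ _ ?_
    rw [ComplexEmbedding.conjugate_coe_eq, h1, Complex.conj_conj]

theorem adjoin_eq_top_of_prime (x : F) (hF : (Module.finrank ℚ F).Prime)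
    (hx : ∀ q : ℚ, (q : F) ≠ x) : IntermediateField.adjoin ℚ {x} = ⊤ := by
  have := IntermediateField.isSimpleOrder_of_finrank_prime ℚ F hF
  rcases eq_bot_or_eq_top (IntermediateField.adjoin ℚ {x}) with h | h
  · exfalso
    rw [IntermediateField.adjoin_simple_eq_bot_iff, IntermediateField.mem_bot] at h
    obtain ⟨q, hq⟩ := h
    exact hx q hq
  · exact h

end Field

end Pool.Agent.Zagier
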