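import Pool.Agent.Zagier.CubicSix
import Pool.Agent.Zagier.FieldEmb

/-!
# Weight six over the cubic field of discriminant -23: the field theory
-/

open scoped TensorProduct
open NumberField

namespace Pool.Agent.Zagier

universe u

theorem no_rat_root (q : ℚ) : q ^ 3 ≠ q + 1 := by
  intro h
  have h1 : IsIntegral ℤ q := by
    refine ⟨Polynomial.X ^ 3 - Polynomial.X - 1, by monicity!, ?_⟩
    simp [h]
  obtain ⟨n, hn⟩ := IsIntegrallyClosed.isIntegral_iff.1 h1
  have hn' : (n : ℚ) = q := by simpa using hn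
  rw [← hn'] at h
  have h2 : n ^ 3 = n + 1 := by exact_mod_cast h
  have h3 : n * (n ^ 2 - 1) = 1 := by linear_combination h2
  rcases Int.eq_one_or_neg_one_of_mul_eq_one h3 with h4 | h4 <;> rw [h4] at h3 <;> norm_num at h3

theorem reg_y6 {F : Type u} [Field F] (σ : F →+* ℂ) (θ : Fˣ) (z : ℂ) (hσ : σ (θ : F) = z)
    (hz : ‖z‖ < 1) : reg 6 σ (evL (evU θ) y6L) =
    (122880) * calLdisc 6 (-z ^ 14) + (-61440) * calLdisc 6 (z ^ 14) + (-1544280) * calLdisc 6 (z ^ 8) + (4850688) * calLdisc 6 (z ^ 5) + (12472320) * calLdisc 6 (-z ^ 3) + (-6567840) * calLdisc 6 (-z ^ 2) + (-8334195) * calLdisc 6 (z ^ 4) + (271200) * calLdisc 6 (z ^ 6) + (172032) * calLdisc 6 (-z ^ 10) + (-15820800) * calLdisc 6 (-z ^ 1) + (-87040) * calLdisc 6 (-z ^ 9) + (-5291520) * calLdisc 6 (-z ^ 6) := by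
  have key : ∀ k : ℕ, calL 6 ((z ^ k : ℂ) : OnePoint ℂ) = calLdisc 6 (z ^ k) := fun k =>
    calL_of_le (by rw [norm_pow]; exact pow_le_one₀ (norm_nonneg _) hz.le)
  have key' : ∀ k : ℕ, calL 6 ((-z ^ k : ℂ) : OnePoint ℂ) = calLdisc 6 (-z ^ k) := fun k =>
    calL_of_le (by rw [norm_neg, norm_pow]; exact pow_le_one₀ (norm_nonneg _) hz.le)
  simp only [y6L, evL_cons, evL_nil, map_add, map_zsmul, reg_br, val_evU, map_zero]
  simp only [map_neg, map_zpow₀, hσ, zpow_zero, one_mul, zpow_one,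
    neg_one_mul, zsmul_eq_mul]
  have e : ∀ k : ℕ, z ^ ((k : ℕ) : ℤ) = z ^ k := fun k => zpow_natCast z k
  have e14 := e 14
  have e8 := e 8
  have e5 := e 5
  have e3 := e 3
  have e2 := e 2
  have e4 := e 4
  have e6 := e 6
  have e10 := e 10
  have e9 := e 9
  push_cast at e14 e8 e5 e3 e2 e4 e6 e10 e9
  rw [e14, e8, e5, e3, e2, e4, e6, e10, e9]
  have k1 := key' 1
  rw [pow_one] at k1 ⊢
  rw [key' 14, key 14, key 8, key 5, key' 3, key' 2, key 4, key 6, key' 10, k1, key' 9, key' 6]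
  push_cast
  ring

theorem weight_six_cubic (F : Type u) [Field F] [NumberField F]
    (hF : Module.finrank ℚ F = 3) (h : ∃ x : F, x ^ 3 = x + 1) :
    RegulatorNonvanishing 6 F := by
  obtain ⟨x, hx⟩ := h
  have hx0 : x ≠ 0 := by rintro rfl; norm_num at hx
  have htop : IntermediateField.adjoin ℚ {x} = ⊤ := by
    refine adjoin_eq_top_of_prime x (by rw [hF]; norm_num) ?_
    intro q hq
    apply no_rat_root q
    have : ((q ^ 3 : ℚ) : F) = ((q + 1 : ℚ) : F) := by push_cast; rw [hq, hx]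
    exact_mod_cast this
  set θ : Fˣ := Units.mk0 x hx0 with hθ
  obtain ⟨N, hN, hker⟩ := y6_ker θ hx
  have hroot : ∀ v : InfinitePlace F, (v.embedding x) ^ 3 = v.embedding x + 1 := fun v => by
    rw [← map_pow, hx, map_add, map_one]
  have hsub : Subsingleton (Places 6 F) := by
    constructor
    rintro ⟨v, hv⟩ ⟨w, hw⟩
    have hv' : v.IsComplex := hv.resolve_left (by decide)
    have hw' : w.IsComplex := hw.resolve_left (by decide)
    have h1 := im_ne_zero_of_isComplex x htop v hv'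
    have h2 := im_ne_zero_of_isComplex x htop w hw'
    have h3 := complex_root_unique (hroot v) h1 (hroot w) h2
    exact Subtype.ext (eq_of_embedding_eq x htop v w h3)
  refine regulator_of_subsingleton (N • evL (evU θ) y6L) hker fun v => ?_
  have hv' : v.1.IsComplex := v.2.resolve_left (by decide)
  have h1 := im_ne_zero_of_isComplex x htop v.1 hv'
  have h2 := norm_lt_one_of_root (hroot v.1) h1
  rw [map_nsmul, reg_y6 v.1.embedding θ (v.1.embedding x) rfl h2, nsmul_eq_mul]
  exact mul_ne_zero (by exact_mod_cast hN.ne') (y6_num (hroot v.1) h1)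

end Pool.Agent.Zagier
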