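import Mathlib

/-!
# Goncharov's groups `B_n(F)` and single valued polylogarithms

Definitions, following the problem file `MP_f01982_nt`.
-/

open scoped TensorProduct

namespace Pool.Agent.Zagier

universe u

/-! ### the groups `ℤ[P¹_F]`, `𝓡_n(F)`, `𝓑_n(F)` and the maps `δ_n` -/

/-- `ℤ[P¹_F]`: the free abelian group on the points of the projective line `P¹(F) = F ∪ {∞}`. -/
abbrev ZP1 (F : Type u) : Type u := OnePoint F →₀ ℤ

/-- The generator `{x}` of `ℤ[P¹_F]` attached to a point `x ∈ F`. -/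
noncomputable def br {F : Type u} (x : F) : ZP1 F := Finsupp.single (x : OnePoint F) 1

/-- The generator `{∞}`. -/
noncomputable def brInf (F : Type u) : ZP1 F := Finsupp.single OnePoint.infty 1

/-- Additive extension to `ℤ[P¹_F]` of a map `g` on the points: `∑ n_p {p} ↦ ∑ n_p g(p)`. -/
noncomputable def extend {F : Type u} {N : Type*} [AddCommGroup N] (g : OnePoint F → N)
    (α : ZP1 F) : N :=
  α.sum fun p n => n • g p

/-- The value `f(a) ∈ P¹(F)` of a point `f ∈ P¹(F(t))` at `t = a`: write `f = p/q` in lowest terms;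
the value is `p(a)/q(a)` if `q(a) ≠ 0` and `∞` if `q(a) = 0`; the value of `∞` is `∞`. -/
noncomputable def specPt {F : Type u} [Field F] (a : F) (f : OnePoint (RatFunc F)) : OnePoint F :=
  open Classical in
  f.elim OnePoint.infty fun g =>
    if g.denom.eval a = 0 then OnePoint.infty
    else ((g.num.eval a / g.denom.eval a : F) : OnePoint F)

/-- The map `ℤ[P¹_{F(t)}] → ℤ[P¹_F]`, `α(t) = ∑ nᵢ {fᵢ(t)} ↦ α(a) = ∑ nᵢ {fᵢ(a)}`. -/
noncomputable def valueAt {F : Type u} [Field F] (a : F) (α : ZP1 (RatFunc F)) : ZP1 F :=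
  extend (fun f => Finsupp.single (specPt a f) 1) α

/-- The multiplicative group `Fˣ`, written additively. -/
abbrev MulGp (F : Type u) [Field F] : Type u := Additive Fˣ

/-- `Fˣ` is an abelian group (Mathlib's instance). -/
noncomputable instance instMulGp (F : Type u) [Field F] : AddCommGroup (MulGp F) :=
  inferInstance

/-- The element of `Fˣ` given by a nonzero element of `F`. -/
noncomputable def toMulGp {F : Type u} [Field F] (x : F) (h : x ≠ 0) : MulGp F :=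
  Additive.ofMul (Units.mk0 x h)

/-- The tensor product `A ⊗ B` of abelian groups (Mathlib's, over `ℤ`). -/
abbrev Tens (A B : Type u) [AddCommGroup A] [AddCommGroup B] : Type u := A ⊗[ℤ] B

/-- `A ⊗ B` is an abelian group (Mathlib's instance). -/
noncomputable instance instTens (A B : Type u) [AddCommGroup A] [AddCommGroup B] :
    AddCommGroup (Tens A B) :=
  inferInstance

/-- The exterior square `Λ²(A) = (A ⊗ A) / ⟨a ⊗ a : a ∈ A⟩` of an abelian group `A`. -/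
abbrev ExtSq (A : Type u) [AddCommGroup A] : Type u :=
  Tens A A ⧸ AddSubgroup.closure {z : Tens A A | ∃ a : A, z = a ⊗ₜ[ℤ] a}

/-- `Λ²(A)` is an abelian group (Mathlib's quotient group instance). -/
noncomputable instance instExtSq (A : Type u) [AddCommGroup A] : AddCommGroup (ExtSq A) :=
  inferInstance

/-- The wedge product `a ∧ b ∈ Λ²(A)` of two elements. -/
noncomputable def wedge {A : Type u} [AddCommGroup A] (a b : A) : ExtSq A :=
  QuotientAddGroup.mk (a ⊗ₜ[ℤ] b)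

/-- The symbol `(1 - x) ∧ x ∈ Λ²(Fˣ)` for `x ≠ 0, 1`, and `0` for `x ∈ {0, 1, ∞}`. -/
noncomputable def wedgePt {F : Type u} [Field F] (p : OnePoint F) : ExtSq (MulGp F) :=
  open Classical in
  p.elim 0 fun x =>
    if h : x ≠ 0 ∧ 1 - x ≠ 0 then wedge (toMulGp (1 - x) h.2) (toMulGp x h.1) else 0

/-- `δ₂ : ℤ[P¹_F] → Λ²(Fˣ)`, `{x} ↦ (1 - x) ∧ x` and `{0}, {1}, {∞} ↦ 0`. -/
noncomputable def deltaTwo {F : Type u} [Field F] (α : ZP1 F) : ExtSq (MulGp F) :=
  extend wedgePt α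

/-- For a subgroup `R` of `ℤ[P¹_F]`: the element `{x} ⊗ x` of `(ℤ[P¹_F]/R) ⊗ Fˣ` for `x ≠ 0, 1`,
and `0` for `x ∈ {0, 1, ∞}`. -/
noncomputable def tensorPt {F : Type u} [Field F] (R : AddSubgroup (ZP1 F)) (p : OnePoint F) :
    Tens (ZP1 F ⧸ R) (MulGp F) :=
  open Classical in
  p.elim 0 fun x =>
    if h : x ≠ 0 ∧ 1 - x ≠ 0 then
      (QuotientAddGroup.mk (br x) : ZP1 F ⧸ R) ⊗ₜ[ℤ] toMulGp x h.1
    else 0

/-- `δ : ℤ[P¹_F] → (ℤ[P¹_F]/R) ⊗ Fˣ`, `{x} ↦ {x} ⊗ x` and `{0}, {1}, {∞} ↦ 0`. With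
`R = 𝓡_{n-1}(F)` this is the map `δ_n`, `n ≥ 3`. -/
noncomputable def deltaMod {F : Type u} [Field F] (R : AddSubgroup (ZP1 F)) (α : ZP1 F) :
    Tens (ZP1 F ⧸ R) (MulGp F) :=
  extend (tensorPt R) α

/-- The subgroup of `ℤ[P¹_F]` generated by `{0}`, `{∞}` and all `α(0) - α(1)`, where `α` runs over
a given set `Ker ⊆ ℤ[P¹_{F(t)}]`. -/
noncomputable def relFrom (F : Type u) [Field F] (Ker : Set (ZP1 (RatFunc F))) :
    AddSubgroup (ZP1 F) :=
  AddSubgroup.closure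
    ({br 0, brInf F} ∪ {g | ∃ α ∈ Ker, g = valueAt 0 α - valueAt 1 α})

/-- A subgroup of `ℤ[P¹_F]` for every field `F`. -/
abbrev SubgroupFamily : Type (u + 1) := ∀ (F : Type u) [Field F], AddSubgroup (ZP1 F)

/-- `𝓡₂(F)`, generated by `{0}`, `{∞}` and all `α(0) - α(1)`, `α ∈ ker δ₂ ⊆ ℤ[P¹_{F(t)}]`. -/
noncomputable def relTwo : SubgroupFamily.{u} := fun F _ => relFrom F {α | deltaTwo α = 0}

/-- The step from `𝓡_{n-1}` to `𝓡_n`, `n ≥ 3`: `𝓡_n(F)` is generated by `{0}`, `{∞}` and all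
`α(0) - α(1)`, `α ∈ ker δ_n ⊆ ℤ[P¹_{F(t)}]`. -/
noncomputable def relNext (R : SubgroupFamily.{u}) : SubgroupFamily.{u} :=
  fun F _ => relFrom F {α | deltaMod (R (RatFunc F)) α = 0}

/-- The subgroups `𝓡_n(F) ⊆ ℤ[P¹_F]` for `n ≥ 2`. (The values at `n = 0, 1` play no role.) -/
noncomputable def Rel (n : ℕ) (F : Type u) [Field F] : AddSubgroup (ZP1 F) :=
  (relNext^[n - 2] relTwo) F

/-- `ker δ_n ⊆ ℤ[P¹_F]` for `n ≥ 3`, `δ_n : ℤ[P¹_F] → 𝓑_{n-1}(F) ⊗ Fˣ`,
`𝓑_{n-1}(F) = ℤ[P¹_F]/𝓡_{n-1}(F)`. -/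
def kerDelta (n : ℕ) (F : Type u) [Field F] : Set (ZP1 F) :=
  {α | deltaMod (Rel (n - 1) F) α = 0}

/-! ### the single valued polylogarithms -/

/-- The polylogarithm series `Li_m(z) = ∑_{k ≥ 1} z^k / k^m`. -/
noncomputable def Li (m : ℕ) (z : ℂ) : ℂ := ∑' k : ℕ, z ^ (k + 1) / ((k : ℂ) + 1) ^ m

/-- The coefficients `β_k` in `2x/(e^{2x} - 1) = ∑ β_k x^k`, i.e. `β_k = 2^k B_k / k!`. -/
noncomputable def beta (k : ℕ) : ℝ := 2 ^ k * (bernoulli k : ℝ) / (k.factorial : ℝ)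

/-- `∑_{k=0}^{n-1} β_k log^k|z| Li_{n-k}(z)` (used for `|z| ≤ 1`). -/
noncomputable def polySum (n : ℕ) (z : ℂ) : ℂ :=
  ∑ k ∈ Finset.range n, ((beta k * Real.log ‖z‖ ^ k : ℝ) : ℂ) * Li (n - k) z

/-- The real part (`n` odd) or imaginary part (`n` even) of `polySum n z`. -/
noncomputable def calLdisc (n : ℕ) (z : ℂ) : ℝ :=
  open Classical in
  if Odd n then (polySum n z).re else (polySum n z).im

/-- The single valued polylogarithm `𝓛_n : ℂP¹ → ℝ`: given on the unit disc `|z| ≤ 1` by the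
series, extended to `|z| > 1` by the inversion relation `𝓛_n(1/z) = (-1)^{n-1} 𝓛_n(z)`, and
`𝓛_n(∞) = 0`. -/
noncomputable def calL (n : ℕ) (p : OnePoint ℂ) : ℝ :=
  open Classical in
  p.elim 0 fun z => if ‖z‖ ≤ 1 then calLdisc n z else (-1) ^ (n - 1) * calLdisc n z⁻¹

/-- The value `𝓛̃_n(σ(α))` for an embedding `σ : F → ℂ` and `α ∈ ℤ[P¹_F]`. -/
noncomputable def regulator {F : Type u} [Field F] (n : ℕ) (σ : F →+* ℂ) (α : ZP1 F) : ℝ :=
  extend (fun p => calL n (p.map σ)) α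

/-! ### the statement -/

open NumberField in
/-- The archimedean places indexing `σ_1, …, σ_{d_n}`: all of them for `n` odd, the complex ones
for `n` even. -/
abbrev Places (n : ℕ) (F : Type u) [Field F] : Type u :=
  {v : InfinitePlace F // Odd n ∨ v.IsComplex}

open NumberField in
/-- There are `y_1, …, y_{d_n} ∈ ker δ_n` with `det |𝓛̃_n(σ_j(y_i))| ≠ 0`. -/
def RegulatorNonvanishing (n : ℕ) (F : Type u) [Field F] [NumberField F] : Prop :=
  open Classical in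
  ∃ y : Places n F → ZP1 F,
    (∀ i, y i ∈ kerDelta n F) ∧
      (Matrix.of fun i j : Places n F => regulator n j.1.embedding (y i)).det ≠ 0

end Pool.Agent.Zagier
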