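import Pool.Agent.Zagier.Path

/-!
# The distribution relation for cube roots of unity
-/

open scoped TensorProduct

namespace Pool.Agent.Zagier

universe u

theorem omega_ne {K : Type u} [Field K] {w : K} (hw : w ^ 2 + w + 1 = 0) : w ≠ 0 := by
  rintro rfl; norm_num at hw

theorem omega_cube {K : Type u} [Field K] {w : K} (hw : w ^ 2 + w + 1 = 0) : w ^ 3 = 1 := by
  linear_combination (w - 1) * hw

theorem omega_C {K : Type u} [Field K] {w : K} (hw : w ^ 2 + w + 1 = 0) :
    (RatFunc.C w : RatFunc K) ^ 2 + RatFunc.C w + 1 = 0 := by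
  rw [← map_pow, ← map_add, ← map_one (RatFunc.C (K := K)), ← map_add, hw, map_zero]

theorem dist3_inSat (m : ℕ) (hm : 2 ≤ m) : ∀ (K : Type u) [Field K] (w : K),
    w ^ 2 + w + 1 = 0 → ∀ x : K, x ≠ 0 →
    InSat (Rel m K) (br (x ^ 3) - (3 : ℤ) ^ (m - 1) • (br x + br (w * x) + br (w ^ 2 * x))) := by
  induction m, hm using Nat.le_induction with
  | base =>
    intro K _ w hw x hx
    have hw0 := omega_ne hw
    have hw3 := omega_cube hw
    have hC := omega_C hw
    have hC0 := omega_ne hC
    have hC3 := omega_cube hC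
    have hpx := px_ne hx
    set c : RatFunc K := RatFunc.C w with hc
    have n0 : 1 - px x ≠ 0 := one_sub_px_ne x
    have n1 : 1 - c * px x ≠ 0 := by
      have := (HasVal.one 0).sub ((HasVal.C 0 w).mul (px_val_zero x))
      exact this.ne_zero (by simp)
    have n2 : 1 - c ^ 2 * px x ≠ 0 := by
      have := (HasVal.one 0).sub (((HasVal.C 0 w).pow 2).mul (px_val_zero x))
      exact this.ne_zero (by simp)
    set u : (RatFunc K)ˣ := Units.mk0 (px x) hpx with hu
    set z : (RatFunc K)ˣ := Units.mk0 c hC0 with hz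
    set v0 : (RatFunc K)ˣ := Units.mk0 (1 - px x) n0 with hv0
    set v1 : (RatFunc K)ˣ := Units.mk0 (1 - c * px x) n1 with hv1
    set v2 : (RatFunc K)ˣ := Units.mk0 (1 - c ^ 2 * px x) n2 with hv2
    have hztor : IsTor (Additive.ofMul z) := by
      refine ⟨3, by norm_num, ?_⟩
      rw [← ofMul_pow]
      have : z ^ 3 = 1 := by ext; simp [hz, hC3]
      rw [this, ofMul_one]
    have h1 : delta2 (RatFunc K) (br (px x)) = W (Additive.ofMul v0) (Additive.ofMul u) := by
      have := delta2_br u v0 (by simp [hu, hv0])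
      simpa [hu] using this
    have h2 : delta2 (RatFunc K) (br (c * px x)) =
        W (Additive.ofMul v1) (Additive.ofMul (z * u)) := by
      have := delta2_br (z * u) v1 (by simp [hu, hv1, hz])
      simpa [hu, hz] using this
    have h3 : delta2 (RatFunc K) (br (c ^ 2 * px x)) =
        W (Additive.ofMul v2) (Additive.ofMul (z ^ 2 * u)) := by
      have := delta2_br (z ^ 2 * u) v2 (by simp [hu, hv2, hz])
      simpa [hu, hz] using this
    have h4 : delta2 (RatFunc K) (br (px x ^ 3)) =
        W (Additive.ofMul (v0 * v1 * v2)) (Additive.ofMul (u ^ 3)) := by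
      have := delta2_br (u ^ 3) (v0 * v1 * v2) (by
        simp only [hu, hv0, hv1, hv2, Units.val_mul, Units.val_mk0, Units.val_pow_eq_pow_val]
        linear_combination (-(px x) + (px x) ^ 2 * c ) * hC - (px x) ^ 3 * hC3)
      simpa [hu] using this
    have h5 : IsTor (delta2 (RatFunc K) (br (px x ^ 3) - (3 : ℤ) ^ (2 - 1) •
        (br (px x) + br (c * px x) + br (c ^ 2 * px x)))) := by
      have : delta2 (RatFunc K) (br (px x ^ 3) - (3 : ℤ) ^ (2 - 1) •
          (br (px x) + br (c * px x) + br (c ^ 2 * px x))) =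
          (-3 : ℤ) • (W (Additive.ofMul v1) (Additive.ofMul z)) +
          (-6 : ℤ) • (W (Additive.ofMul v2) (Additive.ofMul z)) := by
        rw [map_sub, map_zsmul, map_add, map_add, h1, h2, h3, h4, ofMul_mul, ofMul_mul,
          ofMul_mul, ofMul_mul, ofMul_pow, ofMul_pow]
        simp only [map_add, AddMonoidHom.add_apply, map_nsmul]
        norm_num
        module
      rw [this]
      exact (IsTor.zsmul _ (W_tor_right _ hztor)).add (IsTor.zsmul _ (W_tor_right _ hztor))
    have h6 := inSat_of_isTor_two h5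
    have s0 : spec 0 (br (px x ^ 3) - (3 : ℤ) ^ (2 - 1) •
        (br (px x) + br (c * px x) + br (c ^ 2 * px x))) =
        br 0 - (3 : ℤ) ^ (2 - 1) • (br 0 + br (0 : K) + br (0 : K)) := by
      rw [map_sub, map_zsmul, map_add, map_add, spec_br_val (px_val_zero x),
        spec_br_val ((px_val_zero x).pow 3), spec_br_val ((HasVal.C 0 w).mul (px_val_zero x)),
        spec_br_val (((HasVal.C 0 w).pow 2).mul (px_val_zero x))]
      simp
    have s1 : spec 1 (br (px x ^ 3) - (3 : ℤ) ^ (2 - 1) •
        (br (px x) + br (c * px x) + br (c ^ 2 * px x))) =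
        br (x ^ 3) - (3 : ℤ) ^ (2 - 1) • (br x + br (w * x) + br (w ^ 2 * x)) := by
      rw [map_sub, map_zsmul, map_add, map_add, spec_br_val (px_val_one x),
        spec_br_val ((px_val_one x).pow 3), spec_br_val ((HasVal.C 1 w).mul (px_val_one x)),
        spec_br_val (((HasVal.C 1 w).pow 2).mul (px_val_one x))]
    rw [s0, s1] at h6
    have h0 : InSat (Rel 2 K) (br 0) := InSat.of_mem (br_zero_mem_rel (by norm_num))
    have h8 := (h0.sub (((h0.add h0).add h0).zsmul ((3 : ℤ) ^ (2 - 1)))).sub h6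
    simpa using h8
  | succ m hm ih =>
    intro K _ w hw x hx
    have hC := omega_C hw
    have hC0 := omega_ne hC
    have hC3 := omega_cube hC
    have hpx := px_ne hx
    set c : RatFunc K := RatFunc.C w with hc
    set u : (RatFunc K)ˣ := Units.mk0 (px x) hpx with hu
    set z : (RatFunc K)ˣ := Units.mk0 c hC0 with hz
    have hztor : IsTor (Additive.ofMul z) := by
      refine ⟨3, by norm_num, ?_⟩
      rw [← ofMul_pow]
      have : z ^ 3 = 1 := by ext; simp [hz, hC3]
      rw [this, ofMul_one]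
    have h1 := deltaOf_br (Rel m (RatFunc K)) u
    have h2 := deltaOf_br (Rel m (RatFunc K)) (z * u)
    have h3 := deltaOf_br (Rel m (RatFunc K)) (z ^ 2 * u)
    have h4 := deltaOf_br (Rel m (RatFunc K)) (u ^ 3)
    have h5 : IsTor (deltaOf (Rel m (RatFunc K))
        (br (px x ^ 3) - (3 : ℤ) ^ m • (br (px x) + br (c * px x) + br (c ^ 2 * px x)))) := by
      have i0 := ((ih (RatFunc K) c hC (px x) hpx).zsmul 3).isTor_mk.tmul_left (Additive.ofMul u)
      have i1 : IsTor ((QuotientAddGroup.mk (br (c * px x)) :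
          ZP1 (RatFunc K) ⧸ Rel m (RatFunc K)) ⊗ₜ[ℤ] Additive.ofMul z) :=
        IsTor.tmul_right _ hztor
      have i2 : IsTor ((QuotientAddGroup.mk (br (c ^ 2 * px x)) :
          ZP1 (RatFunc K) ⧸ Rel m (RatFunc K)) ⊗ₜ[ℤ] Additive.ofMul z) :=
        IsTor.tmul_right _ hztor
      have e : deltaOf (Rel m (RatFunc K))
        (br (px x ^ 3) - (3 : ℤ) ^ m • (br (px x) + br (c * px x) + br (c ^ 2 * px x))) =
        (QuotientAddGroup.mk ((3 : ℤ) • (br (px x ^ 3) - (3 : ℤ) ^ (m - 1) •
          (br (px x) + br (c * px x) + br (c ^ 2 * px x)))) :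
          ZP1 (RatFunc K) ⧸ Rel m (RatFunc K)) ⊗ₜ[ℤ] Additive.ofMul u -
        ((3 : ℤ) ^ m • ((QuotientAddGroup.mk (br (c * px x)) :
          ZP1 (RatFunc K) ⧸ Rel m (RatFunc K)) ⊗ₜ[ℤ] Additive.ofMul z) +
        (2 * (3 : ℤ) ^ m) • ((QuotientAddGroup.mk (br (c ^ 2 * px x)) :
          ZP1 (RatFunc K) ⧸ Rel m (RatFunc K)) ⊗ₜ[ℤ] Additive.ofMul z)) := by
        rw [map_sub, map_zsmul, map_add, map_add]
        have e1 : deltaOf (Rel m (RatFunc K)) (br (px x)) = _ := h1
        have e2 : deltaOf (Rel m (RatFunc K)) (br (c * px x)) =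
          (QuotientAddGroup.mk (br (c * px x)) : ZP1 (RatFunc K) ⧸ Rel m (RatFunc K)) ⊗ₜ[ℤ]
            Additive.ofMul (z * u) := by
          simpa [hu, hz] using h2
        have e3 : deltaOf (Rel m (RatFunc K)) (br (c ^ 2 * px x)) =
          (QuotientAddGroup.mk (br (c ^ 2 * px x)) : ZP1 (RatFunc K) ⧸ Rel m (RatFunc K)) ⊗ₜ[ℤ]
            Additive.ofMul (z ^ 2 * u) := by
          simpa [hu, hz] using h3
        have e4 : deltaOf (Rel m (RatFunc K)) (br (px x ^ 3)) =
          (QuotientAddGroup.mk (br (px x ^ 3)) : ZP1 (RatFunc K) ⧸ Rel m (RatFunc K)) ⊗ₜ[ℤ]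
            Additive.ofMul (u ^ 3) := by
          simpa [hu] using h4
        have hpow : (3 : ℤ) ^ m = 3 * 3 ^ (m - 1) := by
          rw [← pow_succ']; congr 1; omega
        rw [e1, e2, e3, e4, ofMul_mul, ofMul_mul, ofMul_pow, ofMul_pow, TensorProduct.tmul_add,
          TensorProduct.tmul_add, ← natCast_zsmul, ← natCast_zsmul,
          tmul_zsmul', tmul_zsmul', QuotientAddGroup.mk_zsmul, zsmul_tmul',
          QuotientAddGroup.mk_sub, QuotientAddGroup.mk_zsmul, QuotientAddGroup.mk_add,
          QuotientAddGroup.mk_add, TensorProduct.sub_tmul,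
          zsmul_tmul', TensorProduct.add_tmul, TensorProduct.add_tmul, hpow]
        simp only [hu, Units.val_mk0]
        push_cast
        module
      rw [e]
      exact i0.sub ((i1.zsmul _).add (i2.zsmul _))
    have h6 := inSat_of_isTor' hm h5
    have s0 : spec 0 (br (px x ^ 3) - (3 : ℤ) ^ m •
        (br (px x) + br (c * px x) + br (c ^ 2 * px x))) =
        br 0 - (3 : ℤ) ^ m • (br 0 + br (0 : K) + br (0 : K)) := by
      rw [map_sub, map_zsmul, map_add, map_add, spec_br_val (px_val_zero x),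
        spec_br_val ((px_val_zero x).pow 3), spec_br_val ((HasVal.C 0 w).mul (px_val_zero x)),
        spec_br_val (((HasVal.C 0 w).pow 2).mul (px_val_zero x))]
      simp
    have s1 : spec 1 (br (px x ^ 3) - (3 : ℤ) ^ m •
        (br (px x) + br (c * px x) + br (c ^ 2 * px x))) =
        br (x ^ 3) - (3 : ℤ) ^ m • (br x + br (w * x) + br (w ^ 2 * x)) := by
      rw [map_sub, map_zsmul, map_add, map_add, spec_br_val (px_val_one x),
        spec_br_val ((px_val_one x).pow 3), spec_br_val ((HasVal.C 1 w).mul (px_val_one x)),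
        spec_br_val (((HasVal.C 1 w).pow 2).mul (px_val_one x))]
    rw [s0, s1] at h6
    have h0 : InSat (Rel (m + 1) K) (br 0) := InSat.of_mem (br_zero_mem_rel (by omega))
    have h8 := (h0.sub (((h0.add h0).add h0).zsmul ((3 : ℤ) ^ m))).sub h6
    simpa using h8

end Pool.Agent.Zagier
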