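import Pool.Agent.Zagier.OneVarRel

/-!
# Functional equations of weights six and seven

Families of functions `± x^a (1-x)^b (1-x+x²)^c`.
-/

namespace Pool.Agent.Zagier

universe u

/-- extra letters of `famSevenA` -/
def famSevenAL : List (List ℤ) :=
  [[1, 0, 1], [2, -2, 1], [1, -2, 1, -1], [1, -3, 2, -1], [2, -1], [1, 0, -1, 1], [1, -1, 2, -1], [1, -2, 2], [1, -3, 4, -2, 1], [1, -1, 1, -1, 1], [1, -1, 0, 1], [1, -2, 3, -1], [1, -2, 4, -3, 1], [1, -2], [1, 1]]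

/-- a functional equation of weight 7 (90 terms) -/
def famSevenA : List T1 :=
  [⟨-400, true, (0, 0, 1), (0, 0, 0), true, (1, 1, 0), []⟩,
  ⟨125, false, (0, 0, 2), (0, 0, 0), true, (0, 0, 0), [(0, 1), (1, 1)]⟩,
  ⟨-25, true, (0, 1, 0), (0, 0, 3), false, (1, 0, 0), [(1, 1), (2, 1)]⟩,
  ⟨500, true, (0, 1, 0), (0, 0, 2), false, (1, 0, 0), [(3, 1)]⟩,
  ⟨-26625, false, (0, 1, 0), (0, 0, 1), true, (0, 0, 0), [(1, 1)]⟩,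
  ⟨-27000, true, (0, 1, 0), (0, 0, 1), true, (2, 0, 0), []⟩,
  ⟨62500, false, (0, 1, 0), (0, 0, 0), true, (0, 0, 0), [(4, 1)]⟩,
  ⟨68000, true, (0, 1, 0), (0, 0, 0), true, (1, 0, 0), []⟩,
  ⟨125, true, (0, 1, 1), (0, 0, 0), true, (1, 0, 0), [(1, 1)]⟩,
  ⟨-400, true, (0, 2, 0), (0, 0, 1), true, (1, 0, 0), []⟩,
  ⟨2750, false, (0, 2, 0), (0, 0, 0), true, (0, 0, 0), [(1, 1)]⟩,
  ⟨500, true, (0, 3, 0), (0, 0, 2), true, (1, 0, 0), [(5, 1)]⟩,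
  ⟨125, true, (0, 3, 0), (0, 0, 1), true, (1, 0, 0), [(1, 1)]⟩,
  ⟨-25, false, (0, 3, 1), (0, 0, 0), true, (0, 0, 0), [(1, 1), (6, 1)]⟩,
  ⟨125, false, (0, 4, 0), (0, 0, 2), true, (0, 0, 0), [(1, 1), (7, 1)]⟩,
  ⟨3, false, (0, 5, 0), (0, 0, 5), true, (0, 0, 0), [(1, 1), (8, 1), (9, 1)]⟩,
  ⟨-25, true, (0, 5, 0), (0, 0, 3), true, (1, 0, 0), [(1, 1), (10, 1)]⟩,
  ⟨-25, false, (0, 5, 0), (0, 0, 1), true, (0, 0, 0), [(1, 1), (11, 1)]⟩,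
  ⟨-4, false, (0, 5, 0), (0, 0, 0), true, (0, 0, 0), [(4, 1), (12, 1)]⟩,
  ⟨-25, false, (1, 0, 3), (0, 4, 0), true, (0, 0, 0), [(5, 1), (8, 1)]⟩,
  ⟨500, false, (1, 0, 0), (0, 3, 0), true, (0, 0, 0), [(11, 1)]⟩,
  ⟨125, false, (1, 0, 1), (0, 3, 0), true, (0, 0, 0), [(7, 1)]⟩,
  ⟨-25, true, (1, 0, 3), (0, 3, 0), true, (0, 0, 0), [(3, 1), (9, 1)]⟩,
  ⟨150, false, (1, 0, 0), (0, 2, 1), true, (0, 0, 0), [(12, 1)]⟩,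
  ⟨-3000, false, (1, 0, 0), (0, 2, 0), true, (0, 0, 1), []⟩,
  ⟨2250, false, (1, 0, 1), (0, 2, 0), true, (0, 0, 0), [(10, 1)]⟩,
  ⟨2250, true, (1, 0, 1), (0, 2, 0), true, (0, 0, 0), [(3, 1)]⟩,
  ⟨2250, false, (1, 0, 0), (0, 1, 1), true, (0, 0, 0), [(6, 1)]⟩,
  ⟨2250, true, (1, 0, 0), (0, 1, 1), true, (0, 0, 0), [(3, 1)]⟩,
  ⟨68000, false, (1, 0, 0), (0, 1, 0), true, (0, 0, 0), []⟩,
  ⟨62500, true, (1, 0, 0), (0, 1, 0), true, (0, 0, 0), [(13, 1)]⟩,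
  ⟨2250, false, (1, 0, 1), (0, 1, 0), true, (0, 0, 0), [(5, 1)]⟩,
  ⟨2250, true, (1, 0, 1), (0, 1, 0), true, (0, 0, 0), [(2, 1)]⟩,
  ⟨-25, true, (1, 0, 0), (0, 0, 3), true, (0, 1, 0), [(0, 1), (3, 1)]⟩,
  ⟨500, true, (1, 0, 0), (0, 0, 2), true, (0, 1, 0), [(2, 1)]⟩,
  ⟨-26625, false, (1, 0, 0), (0, 0, 1), true, (0, 0, 0), [(0, 1)]⟩,
  ⟨-27000, true, (1, 0, 0), (0, 0, 1), true, (0, 2, 0), []⟩,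
  ⟨62500, false, (1, 0, 0), (0, 0, 0), true, (0, 0, 0), [(14, 1)]⟩,
  ⟨68000, true, (1, 0, 0), (0, 0, 0), true, (0, 1, 0), []⟩,
  ⟨125, true, (1, 0, 1), (0, 0, 0), true, (0, 1, 0), [(0, 1)]⟩,
  ⟨-900, true, (1, 1, 0), (0, 0, 2), true, (0, 0, 0), [(8, 1)]⟩,
  ⟨-27000, false, (1, 1, 0), (0, 0, 1), true, (0, 0, 0), []⟩,
  ⟨-26625, true, (1, 1, 0), (0, 0, 1), true, (0, 0, 0), [(7, 1)]⟩,
  ⟨-3000, true, (1, 1, 0), (0, 0, 0), true, (0, 0, 1), []⟩,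
  ⟨-900, false, (1, 2, 0), (0, 0, 2), true, (0, 0, 0), [(9, 1)]⟩,
  ⟨2250, false, (1, 2, 0), (0, 0, 1), true, (0, 0, 0), [(5, 1)]⟩,
  ⟨2250, true, (1, 2, 0), (0, 0, 1), true, (0, 0, 0), [(11, 1)]⟩,
  ⟨500, true, (1, 2, 0), (0, 0, 0), true, (0, 0, 0), [(6, 1)]⟩,
  ⟨500, false, (1, 3, 0), (0, 0, 2), true, (0, 0, 0), [(10, 1)]⟩,
  ⟨150, true, (1, 3, 0), (0, 0, 1), true, (0, 0, 0), [(12, 1)]⟩,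
  ⟨-25, false, (1, 5, 0), (0, 0, 3), true, (0, 0, 0), [(7, 1), (5, 1)]⟩,
  ⟨500, true, (2, 0, 0), (0, 3, 0), true, (0, 0, 0), [(3, 1)]⟩,
  ⟨150, false, (2, 0, 1), (0, 3, 0), true, (0, 0, 0), [(8, 1)]⟩,
  ⟨2750, false, (2, 0, 0), (0, 2, 0), true, (0, 0, 0), [(7, 1)]⟩,
  ⟨2250, false, (2, 0, 0), (0, 1, 1), true, (0, 0, 0), [(11, 1)]⟩,
  ⟨2250, true, (2, 0, 0), (0, 1, 1), true, (0, 0, 0), [(2, 1)]⟩,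
  ⟨-3000, false, (2, 0, 0), (0, 1, 0), true, (0, 0, 1), []⟩,
  ⟨150, false, (2, 0, 1), (0, 1, 0), true, (0, 0, 0), [(9, 1)]⟩,
  ⟨-400, true, (2, 0, 0), (0, 0, 1), true, (0, 1, 0), []⟩,
  ⟨2750, false, (2, 0, 0), (0, 0, 0), true, (0, 0, 0), [(0, 1)]⟩,
  ⟨-900, false, (2, 1, 0), (0, 0, 2), true, (0, 0, 0), [(12, 1)]⟩,
  ⟨2250, false, (2, 1, 0), (0, 0, 1), true, (0, 0, 0), [(6, 1)]⟩,
  ⟨2250, true, (2, 1, 0), (0, 0, 1), true, (0, 0, 0), [(10, 1)]⟩,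
  ⟨500, true, (2, 1, 0), (0, 0, 0), true, (0, 0, 0), [(5, 1)]⟩,
  ⟨-25, true, (3, 0, 1), (0, 5, 0), true, (0, 0, 0), [(7, 1), (3, 1)]⟩,
  ⟨-25, true, (3, 0, 0), (0, 4, 1), true, (0, 0, 0), [(11, 1), (3, 1)]⟩,
  ⟨150, false, (3, 0, 0), (0, 2, 1), true, (0, 0, 0), [(8, 1)]⟩,
  ⟨500, true, (3, 0, 0), (0, 2, 0), true, (0, 0, 0), [(2, 1)]⟩,
  ⟨-25, true, (3, 0, 0), (0, 1, 3), true, (0, 0, 0), [(2, 1), (12, 1)]⟩,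
  ⟨125, false, (3, 0, 0), (0, 1, 1), true, (0, 0, 0), [(7, 1)]⟩,
  ⟨500, false, (3, 0, 0), (0, 1, 0), true, (0, 0, 0), [(10, 1)]⟩,
  ⟨500, true, (3, 0, 0), (0, 0, 2), true, (0, 1, 0), [(6, 1)]⟩,
  ⟨125, true, (3, 0, 0), (0, 0, 1), true, (0, 1, 0), [(0, 1)]⟩,
  ⟨-25, false, (3, 0, 1), (0, 0, 0), true, (0, 0, 0), [(0, 1), (5, 1)]⟩,
  ⟨500, false, (3, 1, 0), (0, 0, 2), true, (0, 0, 0), [(11, 1)]⟩,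
  ⟨150, true, (3, 1, 0), (0, 0, 1), true, (0, 0, 0), [(9, 1)]⟩,
  ⟨-25, false, (3, 3, 0), (0, 0, 1), true, (0, 0, 0), [(6, 1), (5, 1)]⟩,
  ⟨-25, false, (3, 4, 0), (0, 0, 3), true, (0, 0, 0), [(10, 1), (12, 1)]⟩,
  ⟨-25, true, (4, 0, 1), (0, 3, 0), true, (0, 0, 0), [(2, 1), (10, 1)]⟩,
  ⟨-25, false, (4, 0, 0), (0, 1, 3), true, (0, 0, 0), [(6, 1), (8, 1)]⟩,
  ⟨125, false, (4, 0, 0), (0, 0, 2), true, (0, 0, 0), [(0, 1), (7, 1)]⟩,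
  ⟨-25, false, (4, 3, 0), (0, 0, 3), true, (0, 0, 0), [(11, 1), (9, 1)]⟩,
  ⟨-4, true, (5, 0, 0), (0, 5, 0), true, (0, 0, 0), [(13, 1), (8, 1)]⟩,
  ⟨-25, true, (5, 0, 0), (0, 3, 1), true, (0, 0, 0), [(7, 1), (2, 1)]⟩,
  ⟨3, false, (5, 0, 0), (0, 0, 5), true, (0, 0, 0), [(0, 1), (8, 1), (12, 1)]⟩,
  ⟨-25, true, (5, 0, 0), (0, 0, 3), true, (0, 1, 0), [(0, 1), (11, 1)]⟩,
  ⟨-25, false, (5, 0, 0), (0, 0, 1), true, (0, 0, 0), [(0, 1), (10, 1)]⟩,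
  ⟨-4, false, (5, 0, 0), (0, 0, 0), true, (0, 0, 0), [(14, 1), (9, 1)]⟩,
  ⟨-25, false, (5, 1, 0), (0, 0, 3), true, (0, 0, 0), [(7, 1), (6, 1)]⟩,
  ⟨3, true, (5, 5, 0), (0, 0, 5), true, (0, 0, 0), [(7, 1), (12, 1), (9, 1)]⟩]

theorem famSevenA_ok : FamOK 7 famSevenAL famSevenA = true := by decide +kernel

end Pool.Agent.Zagier
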