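import Pool.Agent.Zagier.OneVarRel

/-!
# Functional equations of weights six and seven

Families of functions `± x^a (1-x)^b (1-x+x²)^c`.
-/

namespace Pool.Agent.Zagier

universe u

/-- extra letters of `famSevenB` -/
def famSevenBL : List (List ℤ) :=
  [[1, 0, 1], [2, -2, 1], [1, -2, 1, -1], [1, -3, 2, -1], [2, -1], [1, 0, -1, 1], [1, -1, 2, -1], [1, -2, 2], [1, -1, 0, 1], [1, -2, 3, -1], [1, -2], [1, 1], [2, -1, 1], [1, -1, 2, -2, 1], [2, -3, 2], [1, -2, 2, -1, 1], [1, -3, 5, -3, 1], [1, -3, 1], [1, 1, -1], [1, -1, -1], [1, -1, 2]]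

/-- a functional equation of weight 7 (102 terms) -/
def famSevenB : List T1 :=
  [⟨20412, false, (0, 0, 1), (0, 0, 0), true, (0, 0, 0), [(12, 1)]⟩,
  ⟨20272, true, (0, 0, 1), (0, 0, 0), true, (1, 1, 0), []⟩,
  ⟨343, false, (0, 0, 2), (0, 0, 0), true, (0, 0, 0), [(0, 1), (1, 1)]⟩,
  ⟨-28, false, (0, 0, 3), (0, 0, 0), true, (0, 0, 0), [(12, 1), (13, 1)]⟩,
  ⟨-63, true, (0, 1, 0), (0, 0, 3), false, (1, 0, 0), [(1, 1), (2, 1)]⟩,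
  ⟨70, true, (0, 1, 0), (0, 0, 2), false, (1, 0, 0), [(3, 1)]⟩,
  ⟨22995, false, (0, 1, 0), (0, 0, 1), true, (0, 0, 0), [(1, 1)]⟩,
  ⟨22680, true, (0, 1, 0), (0, 0, 1), true, (2, 0, 0), []⟩,
  ⟨102060, false, (0, 1, 0), (0, 0, 0), true, (0, 0, 0), [(4, 1)]⟩,
  ⟨112140, true, (0, 1, 0), (0, 0, 0), true, (1, 0, 0), []⟩,
  ⟨-245, true, (0, 1, 1), (0, 0, 0), true, (1, 0, 0), [(1, 1)]⟩,
  ⟨20412, false, (0, 2, 0), (0, 0, 1), true, (0, 0, 0), [(14, 1)]⟩,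
  ⟨20272, true, (0, 2, 0), (0, 0, 1), true, (1, 0, 0), []⟩,
  ⟨4410, false, (0, 2, 0), (0, 0, 0), true, (0, 0, 0), [(1, 1)]⟩,
  ⟨35, false, (0, 3, 0), (0, 0, 3), true, (0, 0, 0), [(1, 1), (15, 1)]⟩,
  ⟨70, true, (0, 3, 0), (0, 0, 2), true, (1, 0, 0), [(5, 1)]⟩,
  ⟨-245, true, (0, 3, 0), (0, 0, 1), true, (1, 0, 0), [(1, 1)]⟩,
  ⟨-140, false, (0, 3, 0), (0, 0, 0), true, (0, 0, 1), [(4, 1)]⟩,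
  ⟨-35, false, (0, 3, 1), (0, 0, 0), true, (0, 0, 0), [(1, 1), (6, 1)]⟩,
  ⟨343, false, (0, 4, 0), (0, 0, 2), true, (0, 0, 0), [(1, 1), (7, 1)]⟩,
  ⟨-63, true, (0, 5, 0), (0, 0, 3), true, (1, 0, 0), [(1, 1), (8, 1)]⟩,
  ⟨-35, false, (0, 5, 0), (0, 0, 1), true, (0, 0, 0), [(1, 1), (9, 1)]⟩,
  ⟨-28, false, (0, 6, 0), (0, 0, 3), true, (0, 0, 0), [(14, 1), (16, 1)]⟩,
  ⟨210, false, (1, 0, 1), (0, 4, 0), true, (0, 0, 0), [(16, 1)]⟩,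
  ⟨693, false, (1, 0, 0), (0, 3, 0), true, (0, 0, 0), [(9, 1)]⟩,
  ⟨-245, false, (1, 0, 1), (0, 3, 0), true, (0, 0, 0), [(7, 1)]⟩,
  ⟨420, false, (1, 0, 0), (0, 2, 0), true, (0, 0, 1), []⟩,
  ⟨5103, true, (1, 0, 0), (0, 2, 0), true, (0, 0, 0), [(17, 1)]⟩,
  ⟨3360, false, (1, 0, 1), (0, 2, 0), true, (0, 0, 0), [(8, 1)]⟩,
  ⟨3570, true, (1, 0, 1), (0, 2, 0), true, (0, 0, 0), [(3, 1)]⟩,
  ⟨3570, false, (1, 0, 0), (0, 1, 1), true, (0, 0, 0), [(6, 1)]⟩,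
  ⟨3360, true, (1, 0, 0), (0, 1, 1), true, (0, 0, 0), [(3, 1)]⟩,
  ⟨112140, false, (1, 0, 0), (0, 1, 0), true, (0, 0, 0), []⟩,
  ⟨102060, true, (1, 0, 0), (0, 1, 0), true, (0, 0, 0), [(10, 1)]⟩,
  ⟨3570, false, (1, 0, 1), (0, 1, 0), true, (0, 0, 0), [(5, 1)]⟩,
  ⟨3360, true, (1, 0, 1), (0, 1, 0), true, (0, 0, 0), [(2, 1)]⟩,
  ⟨-63, true, (1, 0, 0), (0, 0, 3), true, (0, 1, 0), [(0, 1), (3, 1)]⟩,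
  ⟨70, true, (1, 0, 0), (0, 0, 2), true, (0, 1, 0), [(2, 1)]⟩,
  ⟨22995, false, (1, 0, 0), (0, 0, 1), true, (0, 0, 0), [(0, 1)]⟩,
  ⟨22680, true, (1, 0, 0), (0, 0, 1), true, (0, 2, 0), []⟩,
  ⟨102060, false, (1, 0, 0), (0, 0, 0), true, (0, 0, 0), [(11, 1)]⟩,
  ⟨112140, true, (1, 0, 0), (0, 0, 0), true, (0, 1, 0), []⟩,
  ⟨-245, true, (1, 0, 1), (0, 0, 0), true, (0, 1, 0), [(0, 1)]⟩,
  ⟨3, true, (1, 1, 0), (0, 0, 5), true, (0, 0, 0), [(2, 1), (3, 1), (13, 1)]⟩,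
  ⟨-630, false, (1, 1, 0), (0, 0, 2), true, (0, 0, 0), [(13, 1)]⟩,
  ⟨22680, false, (1, 1, 0), (0, 0, 1), true, (0, 0, 0), []⟩,
  ⟨22995, true, (1, 1, 0), (0, 0, 1), true, (0, 0, 0), [(7, 1)]⟩,
  ⟨5103, false, (1, 1, 0), (0, 0, 0), true, (0, 0, 0), [(18, 1)]⟩,
  ⟨420, true, (1, 1, 0), (0, 0, 0), true, (0, 0, 1), []⟩,
  ⟨210, true, (1, 1, 1), (0, 0, 0), true, (0, 0, 0), [(13, 1)]⟩,
  ⟨-630, true, (1, 2, 0), (0, 0, 2), true, (0, 0, 0), [(16, 1)]⟩,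
  ⟨3360, false, (1, 2, 0), (0, 0, 1), true, (0, 0, 0), [(5, 1)]⟩,
  ⟨3570, true, (1, 2, 0), (0, 0, 1), true, (0, 0, 0), [(9, 1)]⟩,
  ⟨693, true, (1, 2, 0), (0, 0, 0), true, (0, 0, 0), [(6, 1)]⟩,
  ⟨70, false, (1, 3, 0), (0, 0, 2), true, (0, 0, 0), [(8, 1)]⟩,
  ⟨-63, false, (1, 5, 0), (0, 0, 3), true, (0, 0, 0), [(7, 1), (5, 1)]⟩,
  ⟨3, false, (1, 8, 0), (0, 0, 5), true, (0, 0, 0), [(8, 1), (5, 1), (16, 1)]⟩,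
  ⟨-3, true, (2, 0, 4), (0, 5, 0), true, (0, 0, 0), [(3, 1), (5, 1), (15, 1)]⟩,
  ⟨693, true, (2, 0, 0), (0, 3, 0), true, (0, 0, 0), [(3, 1)]⟩,
  ⟨420, false, (2, 0, 0), (0, 2, 1), true, (0, 0, 0), [(16, 1)]⟩,
  ⟨4410, false, (2, 0, 0), (0, 2, 0), true, (0, 0, 0), [(7, 1)]⟩,
  ⟨420, false, (2, 0, 1), (0, 2, 0), true, (0, 0, 0), [(15, 1)]⟩,
  ⟨3360, false, (2, 0, 0), (0, 1, 1), true, (0, 0, 0), [(9, 1)]⟩,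
  ⟨3570, true, (2, 0, 0), (0, 1, 1), true, (0, 0, 0), [(2, 1)]⟩,
  ⟨420, false, (2, 0, 0), (0, 1, 0), true, (0, 0, 1), []⟩,
  ⟨5103, true, (2, 0, 0), (0, 1, 0), true, (0, 0, 0), [(19, 1)]⟩,
  ⟨20412, false, (2, 0, 0), (0, 0, 1), true, (0, 0, 0), [(20, 1)]⟩,
  ⟨20272, true, (2, 0, 0), (0, 0, 1), true, (0, 1, 0), []⟩,
  ⟨4410, false, (2, 0, 0), (0, 0, 0), true, (0, 0, 0), [(0, 1)]⟩,
  ⟨-630, true, (2, 1, 0), (0, 0, 2), true, (0, 0, 0), [(15, 1)]⟩,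
  ⟨3360, false, (2, 1, 0), (0, 0, 1), true, (0, 0, 0), [(6, 1)]⟩,
  ⟨3570, true, (2, 1, 0), (0, 0, 1), true, (0, 0, 0), [(8, 1)]⟩,
  ⟨693, true, (2, 1, 0), (0, 0, 0), true, (0, 0, 0), [(5, 1)]⟩,
  ⟨420, false, (2, 2, 0), (0, 0, 1), true, (0, 0, 0), [(13, 1)]⟩,
  ⟨-7, true, (3, 0, 0), (0, 6, 0), true, (0, 0, 0), [(17, 1), (16, 1)]⟩,
  ⟨-35, true, (3, 0, 1), (0, 5, 0), true, (0, 0, 0), [(7, 1), (3, 1)]⟩,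
  ⟨-35, true, (3, 0, 0), (0, 4, 1), true, (0, 0, 0), [(9, 1), (3, 1)]⟩,
  ⟨-140, true, (3, 0, 0), (0, 3, 0), true, (0, 0, 1), [(10, 1)]⟩,
  ⟨693, true, (3, 0, 0), (0, 2, 0), true, (0, 0, 0), [(2, 1)]⟩,
  ⟨-245, false, (3, 0, 0), (0, 1, 1), true, (0, 0, 0), [(7, 1)]⟩,
  ⟨693, false, (3, 0, 0), (0, 1, 0), true, (0, 0, 0), [(8, 1)]⟩,
  ⟨35, false, (3, 0, 0), (0, 0, 3), true, (0, 0, 0), [(0, 1), (16, 1)]⟩,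
  ⟨70, true, (3, 0, 0), (0, 0, 2), true, (0, 1, 0), [(6, 1)]⟩,
  ⟨-245, true, (3, 0, 0), (0, 0, 1), true, (0, 1, 0), [(0, 1)]⟩,
  ⟨-140, false, (3, 0, 0), (0, 0, 0), true, (0, 0, 1), [(11, 1)]⟩,
  ⟨-35, false, (3, 0, 1), (0, 0, 0), true, (0, 0, 0), [(0, 1), (5, 1)]⟩,
  ⟨70, false, (3, 1, 0), (0, 0, 2), true, (0, 0, 0), [(9, 1)]⟩,
  ⟨35, true, (3, 3, 0), (0, 0, 3), true, (0, 0, 0), [(7, 1), (13, 1)]⟩,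
  ⟨-35, false, (3, 3, 0), (0, 0, 1), true, (0, 0, 0), [(6, 1), (5, 1)]⟩,
  ⟨-7, false, (3, 3, 0), (0, 0, 0), true, (0, 0, 0), [(18, 1), (13, 1)]⟩,
  ⟨-35, true, (4, 0, 1), (0, 3, 0), true, (0, 0, 0), [(2, 1), (8, 1)]⟩,
  ⟨210, false, (4, 0, 0), (0, 1, 1), true, (0, 0, 0), [(15, 1)]⟩,
  ⟨343, false, (4, 0, 0), (0, 0, 2), true, (0, 0, 0), [(0, 1), (7, 1)]⟩,
  ⟨-35, true, (5, 0, 0), (0, 3, 1), true, (0, 0, 0), [(7, 1), (2, 1)]⟩,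
  ⟨-3, true, (5, 0, 0), (0, 2, 4), true, (0, 0, 0), [(2, 1), (6, 1), (16, 1)]⟩,
  ⟨-63, true, (5, 0, 0), (0, 0, 3), true, (0, 1, 0), [(0, 1), (9, 1)]⟩,
  ⟨-35, false, (5, 0, 0), (0, 0, 1), true, (0, 0, 0), [(0, 1), (8, 1)]⟩,
  ⟨-63, false, (5, 1, 0), (0, 0, 3), true, (0, 0, 0), [(7, 1), (6, 1)]⟩,
  ⟨-3, false, (5, 5, 0), (0, 0, 4), true, (0, 0, 0), [(9, 1), (8, 1), (13, 1)]⟩,
  ⟨-7, true, (6, 0, 0), (0, 3, 0), true, (0, 0, 0), [(19, 1), (15, 1)]⟩,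
  ⟨-28, false, (6, 0, 0), (0, 0, 3), true, (0, 0, 0), [(20, 1), (15, 1)]⟩,
  ⟨3, false, (8, 1, 0), (0, 0, 5), true, (0, 0, 0), [(9, 1), (6, 1), (15, 1)]⟩]

theorem famSevenB_ok : FamOK 7 famSevenBL famSevenB = true := by decide +kernel

end Pool.Agent.Zagier
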