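import Pool.Agent.Zagier.FamDataS6
import Pool.Agent.Zagier.FamDataS7A
import Pool.Agent.Zagier.FamDataS7B

/-!
# Functional equations of weights six and seven
-/
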