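import Pool.Agent.Zagier.OneVarRel

/-!
# Functional equations of weights four, five and six
-/

namespace Pool.Agent.Zagier

universe u

/-- extra letters of `famSixB` -/
def famSixBL : List (List ℤ) :=
  [[1, 0, 1], [2, -2, 1], [1, -3, 2, -1], [2, -1], [2, -3, 2], [1, 0, -1, 1], [1, -2, 2], [1, -1, 0, 1], [1, -2, 3, -1], [1, -3, 5, -3, 1], [1, -3, 1], [1, -2]]

/-- a functional equation of weight 6 (63 terms) -/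
def famSixB : List T1 :=
  [⟨648, true, (0, 0, 1), (0, 0, 0), true, (1, 1, 0), []⟩,
  ⟨30, false, (0, 0, 2), (0, 0, 0), true, (0, 0, 0), [(0, 1), (1, 1)]⟩,
  ⟨-40, true, (0, 1, 0), (0, 0, 2), false, (1, 0, 0), [(2, 1)]⟩,
  ⟨3240, false, (0, 1, 0), (0, 0, 1), true, (0, 0, 0), [(1, 1)]⟩,
  ⟨3960, true, (0, 1, 0), (0, 0, 1), true, (2, 0, 0), []⟩,
  ⟨9720, false, (0, 1, 0), (0, 0, 0), true, (0, 0, 0), [(3, 1)]⟩,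
  ⟨9840, true, (0, 1, 0), (0, 0, 0), true, (1, 0, 0), []⟩,
  ⟨-160, true, (0, 1, 1), (0, 0, 0), true, (1, 0, 0), [(1, 1)]⟩,
  ⟨4860, false, (0, 2, 0), (0, 0, 1), true, (0, 0, 0), [(4, 1)]⟩,
  ⟨4720, true, (0, 2, 0), (0, 0, 1), true, (1, 0, 0), []⟩,
  ⟨420, false, (0, 2, 0), (0, 0, 0), true, (0, 0, 0), [(1, 1)]⟩,
  ⟨-120, true, (0, 3, 0), (0, 0, 2), true, (1, 0, 0), [(5, 1)]⟩,
  ⟨-120, true, (0, 3, 0), (0, 0, 1), true, (1, 0, 0), [(1, 1)]⟩,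
  ⟨-40, false, (0, 3, 0), (0, 0, 0), true, (0, 0, 1), [(3, 1)]⟩,
  ⟨110, false, (0, 4, 0), (0, 0, 2), true, (0, 0, 0), [(1, 1), (6, 1)]⟩,
  ⟨-24, true, (0, 5, 0), (0, 0, 3), true, (1, 0, 0), [(1, 1), (7, 1)]⟩,
  ⟨-8, false, (0, 5, 0), (0, 0, 1), true, (0, 0, 0), [(1, 1), (8, 1)]⟩,
  ⟨-20, false, (0, 6, 0), (0, 0, 3), true, (0, 0, 0), [(4, 1), (9, 1)]⟩,
  ⟨-90, false, (1, 0, 1), (0, 4, 0), true, (0, 0, 0), [(9, 1)]⟩,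
  ⟨-120, false, (1, 0, 0), (0, 3, 0), true, (0, 0, 0), [(8, 1)]⟩,
  ⟨120, false, (1, 0, 1), (0, 3, 0), true, (0, 0, 0), [(6, 1)]⟩,
  ⟨-600, false, (1, 0, 0), (0, 2, 0), true, (0, 0, 1), []⟩,
  ⟨-972, true, (1, 0, 0), (0, 2, 0), true, (0, 0, 0), [(10, 1)]⟩,
  ⟨-180, false, (1, 0, 1), (0, 2, 0), true, (0, 0, 0), [(7, 1)]⟩,
  ⟨-180, true, (1, 0, 1), (0, 2, 0), true, (0, 0, 0), [(2, 1)]⟩,
  ⟨-360, true, (1, 0, 0), (0, 1, 1), true, (0, 0, 0), [(2, 1)]⟩,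
  ⟨-9840, false, (1, 0, 0), (0, 1, 0), true, (0, 0, 0), []⟩,
  ⟨-9720, true, (1, 0, 0), (0, 1, 0), true, (0, 0, 0), [(11, 1)]⟩,
  ⟨-120, false, (1, 0, 1), (0, 1, 0), true, (0, 0, 0), [(5, 1)]⟩,
  ⟨6, true, (1, 0, 0), (0, 0, 3), true, (0, 1, 0), [(0, 1), (2, 1)]⟩,
  ⟨-2385, false, (1, 0, 0), (0, 0, 1), true, (0, 0, 0), [(0, 1)]⟩,
  ⟨-1260, true, (1, 0, 0), (0, 0, 1), true, (0, 2, 0), []⟩,
  ⟨-90, true, (1, 0, 1), (0, 0, 0), true, (0, 1, 0), [(0, 1)]⟩,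
  ⟨3960, false, (1, 1, 0), (0, 0, 1), true, (0, 0, 0), []⟩,
  ⟨3240, true, (1, 1, 0), (0, 0, 1), true, (0, 0, 0), [(6, 1)]⟩,
  ⟨120, true, (1, 1, 0), (0, 0, 0), true, (0, 0, 1), []⟩,
  ⟨-180, true, (1, 2, 0), (0, 0, 2), true, (0, 0, 0), [(9, 1)]⟩,
  ⟨180, false, (1, 2, 0), (0, 0, 1), true, (0, 0, 0), [(5, 1)]⟩,
  ⟨180, true, (1, 2, 0), (0, 0, 1), true, (0, 0, 0), [(8, 1)]⟩,
  ⟨-120, false, (1, 3, 0), (0, 0, 2), true, (0, 0, 0), [(7, 1)]⟩,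
  ⟨-24, false, (1, 5, 0), (0, 0, 3), true, (0, 0, 0), [(6, 1), (5, 1)]⟩,
  ⟨3, false, (1, 8, 0), (0, 0, 5), true, (0, 0, 0), [(7, 1), (5, 1), (9, 1)]⟩,
  ⟨-120, true, (2, 0, 0), (0, 3, 0), true, (0, 0, 0), [(2, 1)]⟩,
  ⟨-60, false, (2, 0, 0), (0, 2, 1), true, (0, 0, 0), [(9, 1)]⟩,
  ⟨-420, false, (2, 0, 0), (0, 2, 0), true, (0, 0, 0), [(6, 1)]⟩,
  ⟨-360, false, (2, 0, 0), (0, 1, 1), true, (0, 0, 0), [(8, 1)]⟩,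
  ⟨-120, false, (2, 0, 0), (0, 1, 0), true, (0, 0, 1), []⟩,
  ⟨-648, true, (2, 0, 0), (0, 0, 1), true, (0, 1, 0), []⟩,
  ⟨120, true, (2, 1, 0), (0, 0, 1), true, (0, 0, 0), [(7, 1)]⟩,
  ⟨-24, true, (2, 1, 0), (0, 0, 0), true, (0, 0, 0), [(5, 1)]⟩,
  ⟨4, true, (3, 0, 0), (0, 6, 0), true, (0, 0, 0), [(10, 1), (9, 1)]⟩,
  ⟨8, true, (3, 0, 1), (0, 5, 0), true, (0, 0, 0), [(6, 1), (2, 1)]⟩,
  ⟨10, true, (3, 0, 0), (0, 4, 1), true, (0, 0, 0), [(8, 1), (2, 1)]⟩,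
  ⟨40, true, (3, 0, 0), (0, 3, 0), true, (0, 0, 1), [(11, 1)]⟩,
  ⟨160, false, (3, 0, 0), (0, 1, 1), true, (0, 0, 0), [(6, 1)]⟩,
  ⟨24, false, (3, 0, 0), (0, 1, 0), true, (0, 0, 0), [(7, 1)]⟩,
  ⟨5, false, (3, 0, 0), (0, 0, 3), true, (0, 0, 0), [(0, 1), (9, 1)]⟩,
  ⟨90, true, (3, 0, 0), (0, 0, 1), true, (0, 1, 0), [(0, 1)]⟩,
  ⟨3, false, (3, 0, 1), (0, 0, 0), true, (0, 0, 0), [(0, 1), (5, 1)]⟩,
  ⟨-40, false, (3, 1, 0), (0, 0, 2), true, (0, 0, 0), [(8, 1)]⟩,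
  ⟨-30, false, (4, 0, 0), (0, 0, 2), true, (0, 0, 0), [(0, 1), (6, 1)]⟩,
  ⟨6, true, (5, 0, 0), (0, 0, 3), true, (0, 1, 0), [(0, 1), (8, 1)]⟩,
  ⟨-3, false, (5, 0, 0), (0, 0, 1), true, (0, 0, 0), [(0, 1), (7, 1)]⟩]

/-- extra letters of `famFourC` -/
def famFourCL : List (List ℤ) :=
  [[2, -1], [1, -2]]

/-- a functional equation of weight 4 (9 terms) -/
def famFourC : List T1 :=
  [⟨27, false, (0, 1, 0), (0, 0, 0), true, (0, 0, 0), [(0, 1)]⟩,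
  ⟨18, true, (0, 1, 0), (0, 0, 0), true, (1, 0, 0), []⟩,
  ⟨-1, false, (0, 3, 0), (0, 0, 0), true, (0, 0, 1), [(0, 1)]⟩,
  ⟨-6, false, (1, 0, 0), (0, 2, 0), true, (0, 0, 1), []⟩,
  ⟨-18, false, (1, 0, 0), (0, 1, 0), true, (0, 0, 0), []⟩,
  ⟨-27, true, (1, 0, 0), (0, 1, 0), true, (0, 0, 0), [(1, 1)]⟩,
  ⟨3, true, (1, 1, 0), (0, 0, 0), true, (0, 0, 1), []⟩,
  ⟨-3, false, (2, 0, 0), (0, 1, 0), true, (0, 0, 1), []⟩,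
  ⟨1, true, (3, 0, 0), (0, 3, 0), true, (0, 0, 1), [(1, 1)]⟩]

/-- extra letters of `famFiveC` -/
def famFiveCL : List (List ℤ) :=
  [[2, -1], [1, -2], [1, 1]]

/-- a functional equation of weight 5 (12 terms) -/
def famFiveC : List T1 :=
  [⟨-81, false, (0, 1, 0), (0, 0, 0), true, (0, 0, 0), [(0, 1)]⟩,
  ⟨-54, true, (0, 1, 0), (0, 0, 0), true, (1, 0, 0), []⟩,
  ⟨1, false, (0, 3, 0), (0, 0, 0), true, (0, 0, 1), [(0, 1)]⟩,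
  ⟨-9, false, (1, 0, 0), (0, 2, 0), true, (0, 0, 1), []⟩,
  ⟨-54, false, (1, 0, 0), (0, 1, 0), true, (0, 0, 0), []⟩,
  ⟨-81, true, (1, 0, 0), (0, 1, 0), true, (0, 0, 0), [(1, 1)]⟩,
  ⟨-81, false, (1, 0, 0), (0, 0, 0), true, (0, 0, 0), [(2, 1)]⟩,
  ⟨-54, true, (1, 0, 0), (0, 0, 0), true, (0, 1, 0), []⟩,
  ⟨-9, true, (1, 1, 0), (0, 0, 0), true, (0, 0, 1), []⟩,
  ⟨-9, false, (2, 0, 0), (0, 1, 0), true, (0, 0, 1), []⟩,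
  ⟨1, true, (3, 0, 0), (0, 3, 0), true, (0, 0, 1), [(1, 1)]⟩,
  ⟨1, false, (3, 0, 0), (0, 0, 0), true, (0, 0, 1), [(2, 1)]⟩]

theorem famSixB_ok : FamOK 6 famSixBL famSixB = true := by decide +kernel

theorem famFourC_ok : FamOK 4 famFourCL famFourC = true := by decide +kernel

theorem famFiveC_ok : FamOK 5 famFiveCL famFiveC = true := by decide +kernel

end Pool.Agent.Zagier
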