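import Pool.Agent.Zagier.OneVarRel

/-!
# Functional equations of weight five
-/

namespace Pool.Agent.Zagier

universe u

/-- extra letters of `famFiveD` -/
def famFiveDL : List (List ℤ) :=
  [[1, -3, 2, -1], [2, -2, 1], [1, -1, 2, -1], [1, -2, 2], [1, -2], [1, 0, 1], [1, 1]]

/-- a functional equation of weight 5 (42 terms) -/
def famFiveD : List T1 :=
  [⟨10, true, (0, 0, 1), (0, 0, 0), true, (1, 1, 0), []⟩,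
  ⟨-5, true, (0, 1, 0), (0, 0, 2), false, (1, 0, 0), [(0, 1)]⟩,
  ⟨15, false, (0, 1, 0), (0, 0, 1), true, (0, 0, 0), [(1, 1)]⟩,
  ⟨45, true, (0, 1, 0), (0, 0, 1), true, (2, 0, 0), []⟩,
  ⟨-15, true, (0, 1, 0), (0, 0, 0), true, (1, 0, 0), []⟩,
  ⟨-5, true, (0, 1, 1), (0, 0, 0), true, (1, 0, 0), [(1, 1)]⟩,
  ⟨-26, true, (0, 2, 0), (0, 0, 1), true, (1, 0, 0), []⟩,
  ⟨-15, false, (0, 2, 0), (0, 0, 0), true, (0, 0, 0), [(1, 1)]⟩,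
  ⟨5, true, (0, 3, 0), (0, 0, 1), true, (1, 0, 0), [(1, 1)]⟩,
  ⟨1, false, (0, 3, 1), (0, 0, 0), true, (0, 0, 0), [(1, 1), (2, 1)]⟩,
  ⟨-1, false, (0, 4, 0), (0, 0, 2), true, (0, 0, 0), [(1, 1), (3, 1)]⟩,
  ⟨8, false, (1, 0, 1), (0, 3, 0), true, (0, 0, 0), [(3, 1)]⟩,
  ⟨-5, false, (1, 0, 0), (0, 2, 0), true, (0, 0, 1), []⟩,
  ⟨15, true, (1, 0, 1), (0, 2, 0), true, (0, 0, 0), [(0, 1)]⟩,
  ⟨-15, false, (1, 0, 0), (0, 1, 1), true, (0, 0, 0), [(2, 1)]⟩,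
  ⟨-15, true, (1, 0, 0), (0, 1, 1), true, (0, 0, 0), [(0, 1)]⟩,
  ⟨88, false, (1, 0, 0), (0, 1, 0), true, (0, 0, 0), []⟩,
  ⟨81, true, (1, 0, 0), (0, 1, 0), true, (0, 0, 0), [(4, 1)]⟩,
  ⟨1, true, (1, 0, 0), (0, 0, 3), true, (0, 1, 0), [(5, 1), (0, 1)]⟩,
  ⟨-120, false, (1, 0, 0), (0, 0, 1), true, (0, 0, 0), [(5, 1)]⟩,
  ⟨-120, true, (1, 0, 0), (0, 0, 1), true, (0, 2, 0), []⟩,
  ⟨405, false, (1, 0, 0), (0, 0, 0), true, (0, 0, 0), [(6, 1)]⟩,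
  ⟨395, true, (1, 0, 0), (0, 0, 0), true, (0, 1, 0), []⟩,
  ⟨-10, true, (1, 0, 1), (0, 0, 0), true, (0, 1, 0), [(5, 1)]⟩,
  ⟨39, false, (1, 1, 0), (0, 0, 1), true, (0, 0, 0), []⟩,
  ⟨33, true, (1, 1, 0), (0, 0, 1), true, (0, 0, 0), [(3, 1)]⟩,
  ⟨25, true, (1, 1, 0), (0, 0, 0), true, (0, 0, 1), []⟩,
  ⟨-5, true, (1, 2, 0), (0, 0, 0), true, (0, 0, 0), [(2, 1)]⟩,
  ⟨5, true, (2, 0, 0), (0, 3, 0), true, (0, 0, 0), [(0, 1)]⟩,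
  ⟨13, false, (2, 0, 0), (0, 2, 0), true, (0, 0, 0), [(3, 1)]⟩,
  ⟨10, false, (2, 0, 0), (0, 1, 0), true, (0, 0, 1), []⟩,
  ⟨28, true, (2, 0, 0), (0, 0, 1), true, (0, 1, 0), []⟩,
  ⟨20, false, (2, 0, 0), (0, 0, 0), true, (0, 0, 0), [(5, 1)]⟩,
  ⟨15, false, (2, 1, 0), (0, 0, 1), true, (0, 0, 0), [(2, 1)]⟩,
  ⟨-1, true, (3, 0, 1), (0, 5, 0), true, (0, 0, 0), [(3, 1), (0, 1)]⟩,
  ⟨-1, true, (3, 0, 0), (0, 3, 0), true, (0, 0, 1), [(4, 1)]⟩,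
  ⟨-7, false, (3, 0, 0), (0, 1, 1), true, (0, 0, 0), [(3, 1)]⟩,
  ⟨5, true, (3, 0, 0), (0, 0, 2), true, (0, 1, 0), [(2, 1)]⟩,
  ⟨-15, true, (3, 0, 0), (0, 0, 1), true, (0, 1, 0), [(5, 1)]⟩,
  ⟨-5, false, (3, 0, 0), (0, 0, 0), true, (0, 0, 1), [(6, 1)]⟩,
  ⟨4, false, (4, 0, 0), (0, 0, 2), true, (0, 0, 0), [(5, 1), (3, 1)]⟩,
  ⟨-1, false, (5, 1, 0), (0, 0, 3), true, (0, 0, 0), [(3, 1), (2, 1)]⟩]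

/-- extra letters of `famFiveE` -/
def famFiveEL : List (List ℤ) :=
  [[1, 0, -1, 1], [1, -3, 5, -3, 1], [1, -3, 1], [1, -1, 0, 1], [1, 0, 1]]

/-- a functional equation of weight 5 (32 terms) -/
def famFiveE : List T1 :=
  [⟨-80, true, (0, 0, 1), (0, 0, 0), true, (1, 1, 0), []⟩,
  ⟨240, true, (0, 1, 0), (0, 0, 1), true, (2, 0, 0), []⟩,
  ⟨120, true, (0, 1, 0), (0, 0, 0), true, (1, 0, 0), []⟩,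
  ⟨-40, true, (0, 3, 0), (0, 0, 2), true, (1, 0, 0), [(0, 1)]⟩,
  ⟨-30, false, (1, 0, 1), (0, 4, 0), true, (0, 0, 0), [(1, 1)]⟩,
  ⟨-200, false, (1, 0, 0), (0, 2, 0), true, (0, 0, 1), []⟩,
  ⟨-324, true, (1, 0, 0), (0, 2, 0), true, (0, 0, 0), [(2, 1)]⟩,
  ⟨-60, false, (1, 0, 1), (0, 2, 0), true, (0, 0, 0), [(3, 1)]⟩,
  ⟨120, false, (1, 0, 0), (0, 1, 0), true, (0, 0, 0), []⟩,
  ⟨80, false, (1, 0, 1), (0, 1, 0), true, (0, 0, 0), [(0, 1)]⟩,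
  ⟨-435, false, (1, 0, 0), (0, 0, 1), true, (0, 0, 0), [(4, 1)]⟩,
  ⟨-180, true, (1, 0, 0), (0, 0, 1), true, (0, 2, 0), []⟩,
  ⟨240, true, (1, 0, 0), (0, 0, 0), true, (0, 1, 0), []⟩,
  ⟨20, true, (1, 0, 1), (0, 0, 0), true, (0, 1, 0), [(4, 1)]⟩,
  ⟨240, false, (1, 1, 0), (0, 0, 1), true, (0, 0, 0), []⟩,
  ⟨-80, true, (1, 1, 0), (0, 0, 0), true, (0, 0, 1), []⟩,
  ⟨-60, true, (1, 2, 0), (0, 0, 2), true, (0, 0, 0), [(1, 1)]⟩,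
  ⟨-60, false, (1, 2, 0), (0, 0, 1), true, (0, 0, 0), [(0, 1)]⟩,
  ⟨-40, false, (1, 3, 0), (0, 0, 2), true, (0, 0, 0), [(3, 1)]⟩,
  ⟨1, false, (1, 8, 0), (0, 0, 5), true, (0, 0, 0), [(3, 1), (0, 1), (1, 1)]⟩,
  ⟨-40, false, (2, 0, 0), (0, 2, 1), true, (0, 0, 0), [(1, 1)]⟩,
  ⟨-80, false, (2, 0, 0), (0, 1, 0), true, (0, 0, 1), []⟩,
  ⟨-80, true, (2, 0, 0), (0, 0, 1), true, (0, 1, 0), []⟩,
  ⟨120, false, (2, 0, 0), (0, 0, 0), true, (0, 0, 0), [(4, 1)]⟩,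
  ⟨80, true, (2, 1, 0), (0, 0, 1), true, (0, 0, 0), [(3, 1)]⟩,
  ⟨24, true, (2, 1, 0), (0, 0, 0), true, (0, 0, 0), [(0, 1)]⟩,
  ⟨4, true, (3, 0, 0), (0, 6, 0), true, (0, 0, 0), [(2, 1), (1, 1)]⟩,
  ⟨24, false, (3, 0, 0), (0, 1, 0), true, (0, 0, 0), [(3, 1)]⟩,
  ⟨5, false, (3, 0, 0), (0, 0, 3), true, (0, 0, 0), [(4, 1), (1, 1)]⟩,
  ⟨20, true, (3, 0, 0), (0, 0, 1), true, (0, 1, 0), [(4, 1)]⟩,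
  ⟨-5, false, (3, 0, 1), (0, 0, 0), true, (0, 0, 0), [(4, 1), (0, 1)]⟩,
  ⟨-5, false, (5, 0, 0), (0, 0, 1), true, (0, 0, 0), [(4, 1), (3, 1)]⟩]

/-- extra letters of `famFiveF` -/
def famFiveFL : List (List ℤ) :=
  [[2, -2, 1], [1, -1, 2, -1], [1, -2, 2], [1, -3, 5, -3, 1], [1, -3, 1], [1, -2, 1, -1], [1, 0, 1]]

/-- a functional equation of weight 5 (39 terms) -/
def famFiveF : List T1 :=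
  [⟨100, true, (0, 0, 1), (0, 0, 0), true, (1, 1, 0), []⟩,
  ⟨60, false, (0, 1, 0), (0, 0, 1), true, (0, 0, 0), [(0, 1)]⟩,
  ⟨-60, true, (0, 1, 0), (0, 0, 1), true, (2, 0, 0), []⟩,
  ⟨-240, true, (0, 1, 0), (0, 0, 0), true, (1, 0, 0), []⟩,
  ⟨-20, true, (0, 1, 1), (0, 0, 0), true, (1, 0, 0), [(0, 1)]⟩,
  ⟨-4, true, (0, 2, 0), (0, 0, 1), true, (1, 0, 0), []⟩,
  ⟨-60, false, (0, 2, 0), (0, 0, 0), true, (0, 0, 0), [(0, 1)]⟩,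
  ⟨20, true, (0, 3, 0), (0, 0, 1), true, (1, 0, 0), [(0, 1)]⟩,
  ⟨4, false, (0, 3, 1), (0, 0, 0), true, (0, 0, 0), [(0, 1), (1, 1)]⟩,
  ⟨-4, false, (0, 4, 0), (0, 0, 2), true, (0, 0, 0), [(0, 1), (2, 1)]⟩,
  ⟨-4, false, (1, 0, 1), (0, 4, 0), true, (0, 0, 0), [(3, 1)]⟩,
  ⟨20, false, (1, 0, 1), (0, 3, 0), true, (0, 0, 0), [(2, 1)]⟩,
  ⟨16, false, (1, 0, 0), (0, 2, 0), true, (0, 0, 1), []⟩,
  ⟨-81, true, (1, 0, 0), (0, 2, 0), true, (0, 0, 0), [(4, 1)]⟩,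
  ⟨-120, false, (1, 0, 0), (0, 1, 1), true, (0, 0, 0), [(1, 1)]⟩,
  ⟨-240, false, (1, 0, 0), (0, 1, 0), true, (0, 0, 0), []⟩,
  ⟨20, true, (1, 0, 1), (0, 1, 0), true, (0, 0, 0), [(5, 1)]⟩,
  ⟨-10, true, (1, 0, 0), (0, 0, 2), true, (0, 1, 0), [(5, 1)]⟩,
  ⟨324, false, (1, 0, 0), (0, 0, 1), true, (0, 0, 0), [(6, 1)]⟩,
  ⟨96, true, (1, 0, 0), (0, 0, 1), true, (0, 2, 0), []⟩,
  ⟨-180, true, (1, 0, 0), (0, 0, 0), true, (0, 1, 0), []⟩,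
  ⟨-60, false, (1, 1, 0), (0, 0, 1), true, (0, 0, 0), []⟩,
  ⟨60, true, (1, 1, 0), (0, 0, 1), true, (0, 0, 0), [(2, 1)]⟩,
  ⟨40, true, (1, 1, 0), (0, 0, 0), true, (0, 0, 1), []⟩,
  ⟨6, true, (1, 2, 0), (0, 0, 2), true, (0, 0, 0), [(3, 1)]⟩,
  ⟨-15, true, (1, 2, 0), (0, 0, 0), true, (0, 0, 0), [(1, 1)]⟩,
  ⟨-24, false, (2, 0, 0), (0, 2, 1), true, (0, 0, 0), [(3, 1)]⟩,
  ⟨-60, false, (2, 0, 0), (0, 2, 0), true, (0, 0, 0), [(2, 1)]⟩,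
  ⟨-120, true, (2, 0, 0), (0, 1, 1), true, (0, 0, 0), [(5, 1)]⟩,
  ⟨40, false, (2, 0, 0), (0, 1, 0), true, (0, 0, 1), []⟩,
  ⟨100, true, (2, 0, 0), (0, 0, 1), true, (0, 1, 0), []⟩,
  ⟨20, false, (2, 1, 0), (0, 0, 1), true, (0, 0, 0), [(1, 1)]⟩,
  ⟨1, true, (3, 0, 0), (0, 6, 0), true, (0, 0, 0), [(4, 1), (3, 1)]⟩,
  ⟨-15, true, (3, 0, 0), (0, 2, 0), true, (0, 0, 0), [(5, 1)]⟩,
  ⟨-20, false, (3, 0, 0), (0, 1, 1), true, (0, 0, 0), [(2, 1)]⟩,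
  ⟨-4, false, (3, 0, 0), (0, 0, 3), true, (0, 0, 0), [(6, 1), (3, 1)]⟩,
  ⟨-10, true, (3, 0, 0), (0, 0, 2), true, (0, 1, 0), [(1, 1)]⟩,
  ⟨4, true, (5, 0, 0), (0, 3, 1), true, (0, 0, 0), [(2, 1), (5, 1)]⟩,
  ⟨1, true, (5, 0, 0), (0, 2, 4), true, (0, 0, 0), [(5, 1), (1, 1), (3, 1)]⟩]

theorem famFiveD_ok : FamOK 5 famFiveDL famFiveD = true := by decide +kernel

theorem famFiveE_ok : FamOK 5 famFiveEL famFiveE = true := by decide +kernel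

theorem famFiveF_ok : FamOK 5 famFiveFL famFiveF = true := by decide +kernel

end Pool.Agent.Zagier
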