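import Pool.Agent.Zagier.OneVarRel

/-!
# Functional equations of weights six and seven

Families of functions `± x^a (1-x)^b (1-x+x²)^c`.
-/

namespace Pool.Agent.Zagier

universe u

/-- extra letters of `famSixA` -/
def famSixAL : List (List ℤ) :=
  [[1, 0, 1], [2, -2, 1], [1, -2, 1, -1], [1, -3, 2, -1], [1, 0, -1, 1], [1, -1, 2, -1], [1, -2, 2], [1, -1, 0, 1], [1, -2, 3, -1]]

/-- a functional equation of weight 6 (60 terms) -/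
def famSixA : List T1 :=
  [⟨544, true, (0, 0, 1), (0, 0, 0), true, (1, 1, 0), []⟩,
  ⟨20, false, (0, 0, 2), (0, 0, 0), true, (0, 0, 0), [(0, 1), (1, 1)]⟩,
  ⟨3, true, (0, 1, 0), (0, 0, 3), false, (1, 0, 0), [(1, 1), (2, 1)]⟩,
  ⟨-20, true, (0, 1, 0), (0, 0, 2), false, (1, 0, 0), [(3, 1)]⟩,
  ⟨-360, false, (0, 1, 0), (0, 0, 1), true, (0, 0, 0), [(1, 1)]⟩,
  ⟨540, true, (0, 1, 0), (0, 0, 1), true, (2, 0, 0), []⟩,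
  ⟨-95, true, (0, 1, 1), (0, 0, 0), true, (1, 0, 0), [(1, 1)]⟩,
  ⟨-544, true, (0, 2, 0), (0, 0, 1), true, (1, 0, 0), []⟩,
  ⟨-20, true, (0, 3, 0), (0, 0, 2), true, (1, 0, 0), [(4, 1)]⟩,
  ⟨95, true, (0, 3, 0), (0, 0, 1), true, (1, 0, 0), [(1, 1)]⟩,
  ⟨4, false, (0, 3, 1), (0, 0, 0), true, (0, 0, 0), [(1, 1), (5, 1)]⟩,
  ⟨-20, false, (0, 4, 0), (0, 0, 2), true, (0, 0, 0), [(1, 1), (6, 1)]⟩,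
  ⟨3, true, (0, 5, 0), (0, 0, 3), true, (1, 0, 0), [(1, 1), (7, 1)]⟩,
  ⟨-4, false, (0, 5, 0), (0, 0, 1), true, (0, 0, 0), [(1, 1), (8, 1)]⟩,
  ⟨-60, false, (1, 0, 0), (0, 3, 0), true, (0, 0, 0), [(8, 1)]⟩,
  ⟨-95, false, (1, 0, 1), (0, 3, 0), true, (0, 0, 0), [(6, 1)]⟩,
  ⟨120, false, (1, 0, 0), (0, 2, 0), true, (0, 0, 1), []⟩,
  ⟨180, false, (1, 0, 1), (0, 2, 0), true, (0, 0, 0), [(7, 1)]⟩,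
  ⟨-90, true, (1, 0, 1), (0, 2, 0), true, (0, 0, 0), [(3, 1)]⟩,
  ⟨90, false, (1, 0, 0), (0, 1, 1), true, (0, 0, 0), [(5, 1)]⟩,
  ⟨-180, true, (1, 0, 0), (0, 1, 1), true, (0, 0, 0), [(3, 1)]⟩,
  ⟨-90, false, (1, 0, 1), (0, 1, 0), true, (0, 0, 0), [(4, 1)]⟩,
  ⟨180, true, (1, 0, 1), (0, 1, 0), true, (0, 0, 0), [(2, 1)]⟩,
  ⟨3, true, (1, 0, 0), (0, 0, 3), true, (0, 1, 0), [(0, 1), (3, 1)]⟩,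
  ⟨-20, true, (1, 0, 0), (0, 0, 2), true, (0, 1, 0), [(2, 1)]⟩,
  ⟨-360, false, (1, 0, 0), (0, 0, 1), true, (0, 0, 0), [(0, 1)]⟩,
  ⟨540, true, (1, 0, 0), (0, 0, 1), true, (0, 2, 0), []⟩,
  ⟨-95, true, (1, 0, 1), (0, 0, 0), true, (0, 1, 0), [(0, 1)]⟩,
  ⟨540, false, (1, 1, 0), (0, 0, 1), true, (0, 0, 0), []⟩,
  ⟨-360, true, (1, 1, 0), (0, 0, 1), true, (0, 0, 0), [(6, 1)]⟩,
  ⟨120, true, (1, 1, 0), (0, 0, 0), true, (0, 0, 1), []⟩,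
  ⟨-180, false, (1, 2, 0), (0, 0, 1), true, (0, 0, 0), [(4, 1)]⟩,
  ⟨90, true, (1, 2, 0), (0, 0, 1), true, (0, 0, 0), [(8, 1)]⟩,
  ⟨-60, true, (1, 2, 0), (0, 0, 0), true, (0, 0, 0), [(5, 1)]⟩,
  ⟨-20, false, (1, 3, 0), (0, 0, 2), true, (0, 0, 0), [(7, 1)]⟩,
  ⟨3, false, (1, 5, 0), (0, 0, 3), true, (0, 0, 0), [(6, 1), (4, 1)]⟩,
  ⟨-60, true, (2, 0, 0), (0, 3, 0), true, (0, 0, 0), [(3, 1)]⟩,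
  ⟨-180, false, (2, 0, 0), (0, 1, 1), true, (0, 0, 0), [(8, 1)]⟩,
  ⟨90, true, (2, 0, 0), (0, 1, 1), true, (0, 0, 0), [(2, 1)]⟩,
  ⟨-120, false, (2, 0, 0), (0, 1, 0), true, (0, 0, 1), []⟩,
  ⟨-544, true, (2, 0, 0), (0, 0, 1), true, (0, 1, 0), []⟩,
  ⟨-180, false, (2, 1, 0), (0, 0, 1), true, (0, 0, 0), [(5, 1)]⟩,
  ⟨90, true, (2, 1, 0), (0, 0, 1), true, (0, 0, 0), [(7, 1)]⟩,
  ⟨-60, true, (2, 1, 0), (0, 0, 0), true, (0, 0, 0), [(4, 1)]⟩,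
  ⟨4, true, (3, 0, 1), (0, 5, 0), true, (0, 0, 0), [(6, 1), (3, 1)]⟩,
  ⟨5, true, (3, 0, 0), (0, 4, 1), true, (0, 0, 0), [(8, 1), (3, 1)]⟩,
  ⟨60, true, (3, 0, 0), (0, 2, 0), true, (0, 0, 0), [(2, 1)]⟩,
  ⟨95, false, (3, 0, 0), (0, 1, 1), true, (0, 0, 0), [(6, 1)]⟩,
  ⟨60, false, (3, 0, 0), (0, 1, 0), true, (0, 0, 0), [(7, 1)]⟩,
  ⟨-20, true, (3, 0, 0), (0, 0, 2), true, (0, 1, 0), [(5, 1)]⟩,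
  ⟨95, true, (3, 0, 0), (0, 0, 1), true, (0, 1, 0), [(0, 1)]⟩,
  ⟨4, false, (3, 0, 1), (0, 0, 0), true, (0, 0, 0), [(0, 1), (4, 1)]⟩,
  ⟨-20, false, (3, 1, 0), (0, 0, 2), true, (0, 0, 0), [(8, 1)]⟩,
  ⟨5, false, (3, 3, 0), (0, 0, 1), true, (0, 0, 0), [(5, 1), (4, 1)]⟩,
  ⟨-5, true, (4, 0, 1), (0, 3, 0), true, (0, 0, 0), [(2, 1), (7, 1)]⟩,
  ⟨-20, false, (4, 0, 0), (0, 0, 2), true, (0, 0, 0), [(0, 1), (6, 1)]⟩,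
  ⟨-4, true, (5, 0, 0), (0, 3, 1), true, (0, 0, 0), [(6, 1), (2, 1)]⟩,
  ⟨3, true, (5, 0, 0), (0, 0, 3), true, (0, 1, 0), [(0, 1), (8, 1)]⟩,
  ⟨-4, false, (5, 0, 0), (0, 0, 1), true, (0, 0, 0), [(0, 1), (7, 1)]⟩,
  ⟨3, false, (5, 1, 0), (0, 0, 3), true, (0, 0, 0), [(6, 1), (5, 1)]⟩]

theorem famSixA_ok : FamOK 6 famSixAL famSixA = true := by decide +kernel

end Pool.Agent.Zagier
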