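import Pool.Agent.Zagier.Path

/-!
# Families with vanishing symbol give relations in `𝓑_n`
-/

open scoped TensorProduct

namespace Pool.Agent.Zagier

universe u

section

variable {q : ℕ} {K : Type u} [Field K]

theorem sg_val (a : K) (s : Bool) : HasVal a (sg (RatFunc K) s) (sg K s) := by
  cases s
  · simpa [sg] using (HasVal.one a).neg
  · simpa [sg] using HasVal.one a

theorem Term.arg_eq (t : Term q) (x y : K) :
    t.arg x y = sg K t.s * (x ^ t.e 0 * y ^ t.e 1 * (1 - x) ^ t.e 2 * (1 - y) ^ t.e 3) := by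
  rw [Term.arg, Fin.prod_univ_four]; rfl

theorem Term.arg_val_one (t : Term q) {x y : K} (hx : x ≠ 0) (hx1 : x ≠ 1) (hy : y ≠ 0)
    (hy1 : y ≠ 1) : HasVal 1 (t.arg (px x) (py y)) (t.arg x y) := by
  rw [Term.arg_eq, Term.arg_eq]
  exact (sg_val 1 t.s).mul
    (((((px_val_one x).zpow hx _).mul ((py_val_one y).zpow hy _)).mul
      (((HasVal.one 1).sub (px_val_one x)).zpow (sub_ne_zero.2 (Ne.symm hx1)) _)).mul
      (((HasVal.one 1).sub (py_val_one y)).zpow (sub_ne_zero.2 (Ne.symm hy1)) _))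

/-- the part of `f(tx, t²y)` which is a unit at `t = 0` -/
noncomputable def Term.unitPart (t : Term q) (x y : K) : RatFunc K :=
  sg (RatFunc K) t.s * (RatFunc.C x ^ t.e 0 * RatFunc.C y ^ t.e 1 *
    (1 - px x) ^ t.e 2 * (1 - py y) ^ t.e 3)

theorem Term.unitPart_val (t : Term q) {x y : K} (hx : x ≠ 0) (hy : y ≠ 0) :
    HasVal 0 (t.unitPart x y) (sg K t.s * (x ^ t.e 0 * y ^ t.e 1)) := by
  have h := (sg_val 0 t.s).mul
    (((((HasVal.C 0 x).zpow hx (t.e 0)).mul ((HasVal.C 0 y).zpow hy (t.e 1))).mul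
      (((HasVal.one 0).sub (px_val_zero x)).zpow (by simp) (t.e 2))).mul
      (((HasVal.one 0).sub (py_val_zero y)).zpow (by simp) (t.e 3)))
  simpa [Term.unitPart] using h

theorem RatFunc_X_ne : (RatFunc.X : RatFunc K) ≠ 0 :=
  RatFunc.X_ne_zero

theorem Term.arg_path (t : Term q) (x y : K) :
    t.arg (px x) (py y) = RatFunc.X ^ (t.e 0 + 2 * t.e 1) * t.unitPart x y := by
  rw [Term.arg_eq, Term.unitPart, px, py, mul_zpow, mul_zpow, ← zpow_natCast, ← zpow_mul,
    zpow_add₀ RatFunc_X_ne]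
  push_cast
  ring

theorem X_zpow_val_zero {k : ℤ} (hk : 0 < k) : HasVal (0 : K) (RatFunc.X ^ k) 0 := by
  obtain ⟨n, rfl⟩ := Int.eq_ofNat_of_zero_le hk.le
  have hn : n ≠ 0 := by rintro rfl; simp at hk
  have := (HasVal.X (0 : K)).pow n
  rw [zero_pow hn] at this
  rw [zpow_natCast]
  exact this

theorem Term.spec_zero (t : Term q) {x y : K} (hx : x ≠ 0) (hy : y ≠ 0)
    (ht : (t.e 0 = 0 ∧ t.e 1 = 0 ∧ t.s = true) ∨ t.e 0 + 2 * t.e 1 ≠ 0) :
    (t.e 0 = 0 ∧ t.e 1 = 0 ∧ spec 0 (br (t.arg (px x) (py y))) = br (1 : K)) ∨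
    (¬ (t.e 0 = 0 ∧ t.e 1 = 0) ∧ (spec 0 (br (t.arg (px x) (py y))) = br (0 : K) ∨
      spec 0 (br (t.arg (px x) (py y))) = brInf K)) := by
  have hu := t.unitPart_val hx hy
  have hv : sg K t.s * (x ^ t.e 0 * y ^ t.e 1) ≠ 0 :=
    mul_ne_zero (sg_ne _) (mul_ne_zero (zpow_ne_zero _ hx) (zpow_ne_zero _ hy))
  rw [Term.arg_path]
  rcases ht with ⟨h0, h1, hs⟩ | hne
  · left
    refine ⟨h0, h1, ?_⟩
    rw [h0, h1]
    rw [h0, h1, hs] at hu
    have : HasVal (0 : K) (RatFunc.X ^ ((0 : ℤ) + 2 * 0) * t.unitPart x y) 1 := by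
      simpa [sg] using hu
    exact spec_br_val this
  · right
    refine ⟨fun h => hne (by rw [h.1, h.2]; ring), ?_⟩
    rcases lt_or_gt_of_ne hne with hlt | hgt
    · right
      refine spec_br_inf (mul_ne_zero (zpow_ne_zero _ RatFunc_X_ne) (hu.ne_zero hv)) ?_
      have h2 := (X_zpow_val_zero (K := K) (k := -(t.e 0 + 2 * t.e 1)) (by omega)).mul (hu.inv hv)
      rw [zero_mul] at h2
      rw [mul_inv, ← zpow_neg]
      exact h2
    · left
      have h2 := (X_zpow_val_zero (K := K) hgt).mul hu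
      rw [zero_mul] at h2
      exact spec_br_val h2

theorem spec_one_fam (T : List (Term q)) (φ : List (Fin 4)) {x y : K} (hx : x ≠ 0) (hx1 : x ≠ 1)
    (hy : y ≠ 0) (hy1 : y ≠ 1) : spec 1 (fam T φ (px x) (py y)) = fam T φ x y := by
  rw [fam, map_list_sum', fam]
  congr 1
  refine List.map_congr_left fun t _ => ?_
  rw [map_zsmul, spec_br_val (t.arg_val_one hx hx1 hy hy1)]

theorem spec_zero_fam {m : ℕ} (hm : 2 ≤ m) (T : List (Term q)) (φ : List (Fin 4)) {x y : K}
    (hx : x ≠ 0) (hy : y ≠ 0)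
    (hT : ∀ t ∈ T, (t.e 0 = 0 ∧ t.e 1 = 0 ∧ t.s = true) ∨ t.e 0 + 2 * t.e 1 ≠ 0) :
    InSat (Rel m K) (spec 0 (fam T φ (px x) (py y)) - kap T φ • br (1 : K)) := by
  induction T with
  | nil => simpa [fam, kap] using InSat.zero
  | cons t T ih =>
    have ih' := ih fun t ht => hT t (List.mem_cons_of_mem _ ht)
    have h1 : spec 0 (fam (t :: T) φ (px x) (py y)) - kap (t :: T) φ • br (1 : K) =
        (spec 0 (fam T φ (px x) (py y)) - kap T φ • br (1 : K)) +
        (t.co φ • spec 0 (br (t.arg (px x) (py y))) -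
          (if t.e 0 = 0 ∧ t.e 1 = 0 then t.co φ else 0) • br (1 : K)) := by
      simp only [fam, kap, List.map_cons, List.sum_cons, map_add, map_zsmul, add_smul]
      abel
    rw [h1]
    refine ih'.add ?_
    rcases t.spec_zero hx hy (hT t (by simp)) with ⟨h0, h1, h⟩ | ⟨hne, h⟩
    · rw [if_pos ⟨h0, h1⟩, h, sub_self]; exact InSat.zero
    · rw [if_neg hne, zero_smul, sub_zero]
      rcases h with h | h
      · rw [h]; exact (InSat.of_mem (br_zero_mem_rel hm)).zsmul _
      · rw [h]; exact (InSat.of_mem (brInf_mem_rel hm)).zsmul _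

end

/-- Main criterion. A family with vanishing symbol (and vanishing lower constants) gives a
relation in `𝓑_m(K)` (up to torsion) for every field `K` and all `x, y ≠ 0, 1`. -/
theorem fam_inSat {q : ℕ} (T : List (Term q)) (n : ℕ)
    (L : ∀ (K : Type u) [Field K], K → K → Fin q → K)
    (hLpath : ∀ (K : Type u) [Field K] (x y : K), x ≠ 0 → y ≠ 0 →
      ∀ k, L (RatFunc K) (px x) (py y) k ≠ 0)
    (hLid : ∀ (K : Type u) [Field K] (x y : K), x ≠ 0 → x ≠ 1 → y ≠ 0 → y ≠ 1 →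
      (∀ k, L K x y k ≠ 0) → ∀ t ∈ T, 1 - t.arg x y =
        sg K t.s' * ((∏ i, base x y i ^ t.w i) * ∏ k, L K x y k ^ t.z k))
    (hsym : SymbolVanishes T (n - 2))
    (hT : ∀ t ∈ T, (t.e 0 = 0 ∧ t.e 1 = 0 ∧ t.s = true) ∨ t.e 0 + 2 * t.e 1 ≠ 0)
    (hkap : ∀ (φ : List (Fin 4)) (m : ℕ), φ.length + m = n → 2 ≤ m → m < n →
      Even m ∨ kap T φ = 0)
    (m : ℕ) (hm : 2 ≤ m) : ∀ (φ : List (Fin 4)), φ.length + m = n →
    ∀ (K : Type u) [Field K] (x y : K), x ≠ 0 → x ≠ 1 → y ≠ 0 → y ≠ 1 →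
      InSat (Rel m K) (fam T φ x y - kap T φ • br (1 : K)) := by
  induction m, hm using Nat.le_induction with
  | base =>
    intro φ hφ K _ x y hx hx1 hy hy1
    have h1 : IsTor (delta2 (RatFunc K) (fam T φ (px x) (py y))) := by
      refine base_tor T φ (px x) (py y) (px_ne hx) (px_ne_one x) (py_ne hy) (py_ne_one y)
        (L (RatFunc K) (px x) (py y)) (hLpath K x y hx hy) ?_ (hsym φ (by omega))
      exact hLid (RatFunc K) (px x) (py y) (px_ne hx) (px_ne_one x) (py_ne hy) (py_ne_one y)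
        (hLpath K x y hx hy)
    have h2 := inSat_of_isTor_two h1
    rw [spec_one_fam T φ hx hx1 hy hy1] at h2
    have h3 := (spec_zero_fam (le_refl 2) T φ hx hy hT).sub h2
    have h4 : spec 0 (fam T φ (px x) (py y)) - kap T φ • br (1 : K) -
        (spec 0 (fam T φ (px x) (py y)) - fam T φ x y) = fam T φ x y - kap T φ • br (1 : K) := by
      abel
    rwa [h4] at h3
  | succ m hm ih =>
    intro φ hφ K _ x y hx hx1 hy hy1
    have h1 : IsTor (deltaOf (Rel m (RatFunc K)) (fam T φ (px x) (py y))) := by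
      refine step_tor _ T φ (px x) (py y) (px_ne hx) (px_ne_one x) (py_ne hy) (py_ne_one y) ?_
      intro i
      have h2 := ih (i :: φ) (by simp only [List.length_cons]; omega) (RatFunc K) (px x) (py y)
        (px_ne hx) (px_ne_one x) (py_ne hy) (py_ne_one y)
      have h3 : InSat (Rel m (RatFunc K)) (kap T (i :: φ) • br (1 : RatFunc K)) := by
        rcases hkap (i :: φ) m (by simp only [List.length_cons]; omega) hm (by omega) with he | h0
        · exact (one_inSat hm he (RatFunc K)).zsmul _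
        · rw [h0, zero_smul]; exact InSat.zero
      have h4 := h2.add h3
      rwa [sub_add_cancel] at h4
    have h2 := inSat_of_isTor' hm h1
    rw [spec_one_fam T φ hx hx1 hy hy1] at h2
    have h3 := (spec_zero_fam (by omega : 2 ≤ m + 1) T φ hx hy hT).sub h2
    have h4 : spec 0 (fam T φ (px x) (py y)) - kap T φ • br (1 : K) -
        (spec 0 (fam T φ (px x) (py y)) - fam T φ x y) = fam T φ x y - kap T φ • br (1 : K) := by
      abel
    rwa [h4] at h3

end Pool.Agent.Zagier
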