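import Pool.Agent.Zagier.FieldThm
import Pool.Agent.Zagier.Classify

/-!
# The cubic field of discriminant -23
-/

open scoped TensorProduct
open NumberField

namespace Pool.Agent.Zagier

universe u

/-- field data -/
def mAD : FD := ⟨[-1, -1, 0], 2, (([-1], [-1], 1), ([0, 1], [-1, 0, 1], 1), ([1], [1], 1)), (1, 0, 0), (0, 0, 0)⟩

/-- an approximate root -/
def mAR1 : ℤ × ℤ :=
  (132471795724474602596090885447809734073440405690173336453401505030282785124554759405469934798178728032991092099474220742510890263904589779559431475709672347175416683903886741875173693158425354990824662,
    0)

/-- an approximate root -/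
def mAR2 : ℤ × ℤ :=
  (-66235897862237301298045442723904867036720202845086668226700752515141392562277379702734967399089364016495546049737110371255445131952294889779715737854836173587708341951943370937586846579212677495412331,
    56227951206230124389918214490937306149784300289578393983839045672484366360905083499594155608821551187693251755948899844432895409634733828889100858430738641458703194369528070782894249320092087463115802)

/-- all approximate roots -/
def mAA : List (ℤ × ℤ) := [mAR1, mAR2, (mAR2.1, -mAR2.2)]

theorem mA_ok : mAD.ok = true := by decide +kernel

theorem mA_polyOK : polyOK mAD.p mAA [mAR1, mAR2] 2 = true := by decide +kernel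

theorem mA_root {K : Type u} [Field K] {x : K} (hx : evP x (pA ++ [1]) = 0) : mAD.Root x :=
  ⟨mA_ok, hx⟩

end Pool.Agent.Zagier
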