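import Pool.Agent.Zagier.RelD

/-!
# Fast checking of certificates with search trees
-/

open scoped TensorProduct

namespace Pool.Agent.Zagier

universe u

/-- search trees with keys `E3`; the first entry of a node is a natural number steering the
search -/
inductive Tr where
  /-- the empty tree -/
  | leaf
  /-- a node with key, coefficient, and two subtrees -/
  | node (key : ℕ) (g : E3) (c : ℤ) (l r : Tr)

/-- equality of integers -/
def eqZ : ℤ → ℤ → Bool
  | .ofNat a, .ofNat b => Nat.beq a b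
  | .negSucc a, .negSucc b => Nat.beq a b
  | .ofNat _, .negSucc _ => false
  | .negSucc _, .ofNat _ => false

theorem eqZ_eq {a b : ℤ} (h : eqZ a b = true) : a = b := by
  cases a <;> cases b <;> simp only [eqZ] at h
  · rw [Nat.eq_of_beq_eq_true h]
  · exact absurd h (by decide)
  · exact absurd h (by decide)
  · rw [Nat.eq_of_beq_eq_true h]

/-- equality of keys -/
def eqE (a b : E3) : Bool := and (eqZ a.1 b.1) (and (eqZ a.2.1 b.2.1) (eqZ a.2.2 b.2.2))

theorem eqE_eq {a b : E3} (h : eqE a b = true) : a = b := by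
  simp only [eqE, Bool.and_eq_true] at h
  exact Prod.ext (eqZ_eq h.1) (Prod.ext (eqZ_eq h.2.1) (eqZ_eq h.2.2))

/-- adding `c · {g}` -/
noncomputable def Tr.ins (key : ℕ) (g : E3) (c : ℤ) (t : Tr) : Tr :=
  Tr.rec (motive := fun _ => Tr) (.node key g c .leaf .leaf)
    (fun key' g' c' l r ihl ihr =>
      Bool.rec (motive := fun _ => Tr)
        (Bool.rec (motive := fun _ => Tr)
          (Tr.rec (motive := fun _ => Tr) (.node key' g' c' l ihr)
            (fun _ _ _ _ _ _ _ => .node key' g' c' l ihr) ihr)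
          (Bool.rec (motive := fun _ => Tr) (.node key' g' c' l ihr)
            ((fun s : ℤ => Bool.rec (motive := fun _ => Tr) (.node key' g' s l r)
              (.node key' g' s l r) (eqZ s 0)) (Int.add c' c))
            (eqE g g'))
          (Nat.beq key key'))
        (Tr.rec (motive := fun _ => Tr) (.node key' g' c' ihl r)
            (fun _ _ _ _ _ _ _ => .node key' g' c' ihl r) ihl)
        (Nat.ble (Nat.succ key) key')) t

/-- the search key -/
def keyE (T : ℤ) (g : E3) : ℕ :=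
  Nat.add (Nat.mul (Nat.add (Nat.mul (Int.toNat (Int.add g.2.1 4096)) 8192)
    (Int.toNat (Int.add g.2.2 4096))) (Int.toNat T)) (Int.toNat g.1)

/-- adding `c · {g}` with `g` given by its coordinates -/
noncomputable def Tr.insK (T a k l c : ℤ) (t : Tr) : Tr :=
  (fun g : E3 => t.ins (keyE T g) g c) (Int.emod a T, k, l)

/-- all coefficients are zero -/
def Tr.isZero : Tr → Bool
  | .leaf => true
  | .node _ _ c l r => and (eqZ c 0) (and l.isZero r.isZero)

/-- forcing the evaluation of a tree -/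
noncomputable def Tr.seq (t : Tr) (u : Tr) : Tr :=
  Tr.rec (motive := fun _ => Tr) u (fun _ _ _ _ _ _ _ => u) t

/-- adding a list, with a factor and a normalisation of the keys -/
noncomputable def Tr.addL (T : ℤ) (n : ℤ) : List (ℤ × E3) → Tr → Tr
  | [], t => t
  | p :: L, t => (fun t' : Tr => t'.seq (Tr.addL T n L t'))
      (t.insK T p.2.1 p.2.2.1 p.2.2.2 (Int.mul n p.1))

/-- linear combination -/
def lc3 (s : Bool) (e0 e1 e2 m a b c : ℤ) : ℤ :=
  Int.add (Bool.rec (motive := fun _ => ℤ) m 0 s)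
    (Int.add (Int.mul e0 a) (Int.add (Int.mul e1 b) (Int.mul e2 c)))

/-- linear combination -/
def lc4 (s : Bool) (e0 e1 e2 e3 m a b c d : ℤ) : ℤ :=
  Int.add (Bool.rec (motive := fun _ => ℤ) m 0 s)
    (Int.add (Int.mul e0 a) (Int.add (Int.mul e1 b) (Int.add (Int.mul e2 c) (Int.mul e3 d))))

/-- adding the terms of a one-variable family -/
noncomputable def Tr.add3 (T n : ℤ) (m1 x y z : E3) : List T1 → Tr → Tr
  | [], t => t
  | r :: L, t => (fun t' : Tr => t'.seq (Tr.add3 T n m1 x y z L t'))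
      (t.insK T (lc3 r.s r.e0 r.e1 r.e2 m1.1 x.1 y.1 z.1)
        (lc3 r.s r.e0 r.e1 r.e2 m1.2.1 x.2.1 y.2.1 z.2.1)
        (lc3 r.s r.e0 r.e1 r.e2 m1.2.2 x.2.2 y.2.2 z.2.2) (Int.mul n r.c))

/-- adding the terms of Kummer's equation -/
noncomputable def Tr.add4 (T n : ℤ) (m1 x y z w : E3) : List (Term 6) → Tr → Tr
  | [], t => t
  | r :: L, t => (fun t' : Tr => t'.seq (Tr.add4 T n m1 x y z w L t'))
      (t.insK T (lc4 r.s (r.e 0) (r.e 1) (r.e 2) (r.e 3) m1.1 x.1 y.1 z.1 w.1)
        (lc4 r.s (r.e 0) (r.e 1) (r.e 2) (r.e 3) m1.2.1 x.2.1 y.2.1 z.2.1 w.2.1)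
        (lc4 r.s (r.e 0) (r.e 1) (r.e 2) (r.e 3) m1.2.2 x.2.2 y.2.2 z.2.2 w.2.2) (Int.mul n r.c))

/-- adding a relation -/
noncomputable def Tr.addR (m : ℕ) (m1 w : E3) (T n : ℤ) (t : Tr) : RelD E3 → Tr
  | .kum P => if m = 4 then t.add4 T n m1 P.x P.y P.x' P.y' K4
      else if m = 5 then Tr.add4 T n m1 P.x P.y P.x' P.y' K5 (t.insK T 0 0 0 (Int.mul n (-18)))
      else t
  | .fam k P => Tr.add3 T n m1 P.x P.y P.z (famNo m k)
      ((t.insK T 0 0 0 (Int.mul n (-(kapP (famNo m k) (0, 0, 0))))).insK T m1.1 m1.2.1 m1.2.2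
        (Int.mul n (-(kapM (famNo m k) (0, 0, 0)))))
  | .cub x y _ _ => Tr.add3 T n m1 x y (0, 0, 0) (cubNo m)
      ((t.insK T 0 0 0 (Int.mul n (-(kapP (cubNo m) (0, 0, 0))))).insK T m1.1 m1.2.1 m1.2.2
        (Int.mul n (-(kapM (cubNo m) (0, 0, 0)))))
  | .dist2 g => t.addL T n (relDist m m1 g)
  | .dist3 g => t.addL T n (relDist3 m w g)
  | .inv g => t.addL T n (relInv m g)
  | .one => t.addL T n (if m % 2 = 0 then [(1, 0)] else [])
  | .negOne => t.addL T n (if m % 2 = 0 then [(1, m1)] else [])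

/-- adding the relations of a certificate -/
noncomputable def Tr.addC (m : ℕ) (m1 w : E3) (T : ℤ) : List (ℤ × RelD E3) → Tr → Tr
  | [], t => t
  | p :: C, t => (fun t' : Tr => t'.seq (Tr.addC m m1 w T C t')) (t.addR m m1 w T p.1 p.2)

/-- the fast check of a certificate -/
noncomputable def FD.fastOK (D : FD) (m : ℕ) (c : ℤ) (C : List (ℤ × RelD E3)) (lam : E3 → ℤ)
    (L : List (ℤ × E3)) : Bool :=
  (c != 0) && (C.all (fun p => D.relOK p.2) &&
    ((Tr.leaf.addL D.T (-c) (contractL lam L)).addC m D.m1 D.w D.T C).isZero)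

section

variable {K : Type u} [Field K] (ev : E3 →+ Additive Kˣ)

/-- value of a tree -/
noncomputable def Tr.evT : Tr → ZP1 K
  | .leaf => 0
  | .node _ k c l r => c • br (val ev k) + (l.evT + r.evT)

theorem Tr.seq_eq (t u : Tr) : t.seq u = u := by cases t <;> rfl

theorem boolRec_self {α : Type*} (X : α) (b : Bool) :
    Bool.rec (motive := fun _ => α) X X b = X := by cases b <;> rfl

theorem trRec_self {α : Type*} (X : α) (t : Tr) :
    Tr.rec (motive := fun _ => α) X (fun _ _ _ _ _ _ _ => X) t = X := by cases t <;> rfl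

theorem Tr.evT_ins (key : ℕ) (g : E3) (c : ℤ) (t : Tr) :
    (t.ins key g c).evT ev = c • br (val ev g) + t.evT ev := by
  induction t with
  | leaf => simp [Tr.ins, Tr.evT]
  | node key' g' c' l r ihl ihr =>
    have h1 : (Tr.node key' g' c' l r).ins key g c =
        Bool.rec (motive := fun _ => Tr)
        (Bool.rec (motive := fun _ => Tr) (.node key' g' c' l (r.ins key g c))
          (Bool.rec (motive := fun _ => Tr) (.node key' g' c' l (r.ins key g c))
            (.node key' g' (c' + c) l r)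
            (eqE g g'))
          (Nat.beq key key'))
        (.node key' g' c' (l.ins key g c) r)
        (Nat.ble (Nat.succ key) key') := by
      have e : (Tr.node key' g' c' l r).ins key g c =
        Bool.rec (motive := fun _ => Tr)
        (Bool.rec (motive := fun _ => Tr)
          (Tr.rec (motive := fun _ => Tr) (.node key' g' c' l (r.ins key g c))
            (fun _ _ _ _ _ _ _ => .node key' g' c' l (r.ins key g c)) (r.ins key g c))
          (Bool.rec (motive := fun _ => Tr) (.node key' g' c' l (r.ins key g c))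
            (Bool.rec (motive := fun _ => Tr) (.node key' g' (c' + c) l r)
              (.node key' g' (c' + c) l r) (eqZ (c' + c) 0))
            (eqE g g'))
          (Nat.beq key key'))
        (Tr.rec (motive := fun _ => Tr) (.node key' g' c' (l.ins key g c) r)
            (fun _ _ _ _ _ _ _ => .node key' g' c' (l.ins key g c) r) (l.ins key g c))
        (Nat.ble (Nat.succ key) key') := rfl
      rw [e, trRec_self, trRec_self, boolRec_self]
    rw [h1]
    cases Nat.ble (Nat.succ key) key'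
    · cases Nat.beq key key'
      · simp only [Tr.evT, ihr]; abel
      · cases h2 : eqE g g'
        · simp only [Tr.evT, ihr]; abel
        · simp only [Tr.evT]
          rw [eqE_eq h2, add_smul]
          abel
    · simp only [Tr.evT, ihl]; abel

theorem Tr.evT_insK {T : ℤ} (hnf : ∀ g, ev (nf3 T g) = ev g) (a k l c : ℤ) (t : Tr) :
    (t.insK T a k l c).evT ev = c • br (val ev (a, k, l)) + t.evT ev := by
  rw [Tr.insK, Tr.evT_ins]
  have h : val ev (Int.emod a T, k, l) = val ev (a, k, l) := by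
    have := hnf (a, k, l)
    simp only [val]
    rw [← this]
    rfl
  rw [h]

theorem Tr.evT_isZero (t : Tr) (h : t.isZero = true) : t.evT ev = 0 := by
  induction t with
  | leaf => rfl
  | node _ k' c' l r ihl ihr =>
    simp only [Tr.isZero, Bool.and_eq_true] at h
    rw [Tr.evT, eqZ_eq h.1, ihl h.2.1, ihr h.2.2]
    simp

theorem Tr.evT_addL (T : ℤ) (hnf : ∀ g, ev (nf3 T g) = ev g) (n : ℤ) (L : List (ℤ × E3))
    (t : Tr) : (t.addL T n L).evT ev = n • evL ev L + t.evT ev := by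
  induction L generalizing t with
  | nil => simp [Tr.addL, evL_nil]
  | cons p L ih =>
    rw [Tr.addL]
    beta_reduce
    rw [Tr.seq_eq, ih, Tr.evT_insK ev hnf, evL_cons, smul_add, Int.mul_def, mul_smul]
    abel

theorem Tr.evT_add3 (T : ℤ) (hnf : ∀ g, ev (nf3 T g) = ev g) (n : ℤ) (m1 : E3) (P : Pt3 E3)
    (L : List T1) (t : Tr) : (t.add3 T n m1 P.x P.y P.z L).evT ev =
      n • evL ev (fam1L L m1 P) + t.evT ev := by
  induction L generalizing t with
  | nil => simp [Tr.add3, fam1L, evL_nil]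
  | cons r L ih =>
    have h1 : fam1L (r :: L) m1 P = (r.c, r.g m1 P) :: fam1L L m1 P := rfl
    have h2 : r.g m1 P = (lc3 r.s r.e0 r.e1 r.e2 m1.1 P.x.1 P.y.1 P.z.1,
        lc3 r.s r.e0 r.e1 r.e2 m1.2.1 P.x.2.1 P.y.2.1 P.z.2.1,
        lc3 r.s r.e0 r.e1 r.e2 m1.2.2 P.x.2.2 P.y.2.2 P.z.2.2) := by
      rw [T1.g]
      refine Prod.ext ?_ (Prod.ext ?_ ?_) <;>
      · simp only [lc3, Int.add_def, Int.mul_def]
        cases r.s <;> simp [add_assoc]
    rw [Tr.add3]
    beta_reduce
    rw [Tr.seq_eq, ih, Tr.evT_insK ev hnf, h1, evL_cons, smul_add, Int.mul_def, mul_smul,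
      h2]
    abel

theorem Tr.evT_add4 (T : ℤ) (hnf : ∀ g, ev (nf3 T g) = ev g) (n : ℤ) (m1 : E3) (P : Pt E3)
    (L : List (Term 6)) (t : Tr) : (t.add4 T n m1 P.x P.y P.x' P.y' L).evT ev =
      n • evL ev (famL L m1 P) + t.evT ev := by
  induction L generalizing t with
  | nil => simp [Tr.add4, famL, evL_nil]
  | cons r L ih =>
    have h1 : famL (r :: L) m1 P = (r.c, r.g m1 P) :: famL L m1 P := rfl
    have h2 : r.g m1 P = (lc4 r.s (r.e 0) (r.e 1) (r.e 2) (r.e 3) m1.1 P.x.1 P.y.1 P.x'.1 P.y'.1,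
        lc4 r.s (r.e 0) (r.e 1) (r.e 2) (r.e 3) m1.2.1 P.x.2.1 P.y.2.1 P.x'.2.1 P.y'.2.1,
        lc4 r.s (r.e 0) (r.e 1) (r.e 2) (r.e 3) m1.2.2 P.x.2.2 P.y.2.2 P.x'.2.2 P.y'.2.2) := by
      rw [Term.g]
      refine Prod.ext ?_ (Prod.ext ?_ ?_) <;>
      · simp only [lc4, Int.add_def, Int.mul_def]
        cases r.s <;> simp [add_assoc]
    rw [Tr.add4]
    beta_reduce
    rw [Tr.seq_eq, ih, Tr.evT_insK ev hnf, h1, evL_cons, smul_add, Int.mul_def, mul_smul,
      h2]
    abel

theorem Tr.evT_addR (m : ℕ) (m1 w : E3) (T : ℤ) (hnf : ∀ g, ev (nf3 T g) = ev g)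
    (n : ℤ) (t : Tr) (r : RelD E3) :
    (t.addR m m1 w T n r).evT ev = n • evL ev (r.toL m m1 w) + t.evT ev := by
  have hz : ∀ (c : ℤ) (t : Tr), (t.insK T 0 0 0 (Int.mul n c)).evT ev =
      n • (c • br (val ev 0)) + t.evT ev := fun c t => by
    rw [Tr.evT_insK ev hnf, Int.mul_def, mul_smul]; rfl
  have hm : ∀ (c : ℤ) (t : Tr), (t.insK T m1.1 m1.2.1 m1.2.2 (Int.mul n c)).evT ev =
      n • (c • br (val ev m1)) + t.evT ev := fun c t => by
    rw [Tr.evT_insK ev hnf, Int.mul_def, mul_smul]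
  cases r with
  | kum P =>
    simp only [Tr.addR, RelD.toL, relK]
    split_ifs with h4 h5
    · exact Tr.evT_add4 ev T hnf n m1 P K4 t
    · rw [Tr.evT_add4 ev T hnf n m1 P K5, hz, evL_cons, smul_add]
      abel
    · rw [evL_nil, smul_zero, zero_add]
  | fam k P =>
    simp only [Tr.addR, RelD.toL, famRel]
    rw [Tr.evT_add3 ev T hnf n m1 P, hm, hz, evL_cons, evL_cons, smul_add, smul_add]
    abel
  | cub x y r N =>
    simp only [Tr.addR, RelD.toL, famRel]
    have h3 := Tr.evT_add3 ev T hnf n m1 ⟨x, y, 0⟩ (cubNo m)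
    simp only at h3
    have h4 : ((0 : ℤ), (0 : ℤ), (0 : ℤ)) = (0 : E3) := rfl
    rw [h4, h3, hm, hz, evL_cons, evL_cons, smul_add, smul_add]
    abel
  | dist2 g => exact Tr.evT_addL ev T hnf n _ t
  | dist3 g => exact Tr.evT_addL ev T hnf n _ t
  | inv g => exact Tr.evT_addL ev T hnf n _ t
  | one => exact Tr.evT_addL ev T hnf n _ t
  | negOne => exact Tr.evT_addL ev T hnf n _ t

theorem Tr.evT_addC (m : ℕ) (m1 w : E3) (T : ℤ) (hnf : ∀ g, ev (nf3 T g) = ev g)
    (C : List (ℤ × RelD E3)) (t : Tr) :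
    (t.addC m m1 w T C).evT ev = evL ev (certL m m1 w C) + t.evT ev := by
  induction C generalizing t with
  | nil => simp [Tr.addC, certL, evL_nil]
  | cons p C ih =>
    rw [Tr.addC]
    beta_reduce
    rw [Tr.seq_eq, ih, Tr.evT_addR ev m m1 w T hnf]
    have h : certL m m1 w (p :: C) = scaleL p.1 (p.2.toL m m1 w) ++ certL m m1 w C := by
      simp [certL]
    rw [h, evL_append, evL_scale]
    abel

end

section

variable {K : Type u} [Field K] [CharZero K] {D : FD} {x : K}

theorem FD.Root.rs_of_fast (h : D.Root x) {m : ℕ} (hm : 4 ≤ m) (hm7 : m ≤ 7) {c : ℤ}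
    {C : List (ℤ × RelD E3)} {lam : E3 → ℤ} {L : List (ℤ × E3)}
    (hc : D.fastOK m c C lam L = true) : RS h.ev m (contractL lam L) := by
  simp only [FD.fastOK, Bool.and_eq_true, bne_iff_ne, List.all_eq_true] at hc
  obtain ⟨hc0, hC, hz⟩ := hc
  have h1 := Tr.evT_isZero h.ev _ hz
  rw [Tr.evT_addC h.ev m D.m1 D.w D.T h.ev_nf, Tr.evT_addL h.ev D.T h.ev_nf, Tr.evT, add_zero,
    neg_smul, add_neg_eq_zero] at h1
  have h2 : RS h.ev m (certL m D.m1 D.w C) :=
    RS.certL hm hm7 h.val_m1 C fun p hp => h.valid (hC p hp)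
  unfold RS at h2
  rw [h1] at h2
  exact h2.of_zsmul hc0

/-- membership in `ker δ_{m+1}` from two contracted relations -/
theorem FD.Root.ker_rs (h : D.Root x) {n m : ℕ} (hn : n = m + 1) (hm : 4 ≤ m)
    (L : List (ℤ × E3)) (h₁ : RS h.ev m (contractL lam1 L)) (h₂ : RS h.ev m (contractL lam2 L)) :
    ∃ N : ℕ, 0 < N ∧ N • evL h.ev L ∈ kerDelta n K := by
  have h2 : ∀ p ∈ L, nf3 D.T (D.T • (p.2 - ∑ j : Bool, (fun (b : Bool) (g : E3) =>
      if b then lam1 g else lam2 g) j p.2 •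
      (fun (b : Bool) => if b then ((0, 1, 0) : E3) else (0, 0, 1)) j)) = 0 := by
    intro p _
    obtain ⟨c, a, k, l⟩ := p
    simp [nf3, lam1, lam2]
  exact exists_mem_kerDelta (G := E3) (K := K) (ev := h.ev) (ι := Bool) (n := n) (m := m)
    hn (by omega) (nf3 D.T) h.ev_nf (fun b g => if b then lam1 g else lam2 g)
    (fun b => if b then (0, 1, 0) else (0, 0, 1)) D.T h.T_pos L h2
    (fun b => by
      cases b
      · exact h₂
      · exact h₁)

/-- membership in `ker δ_{m+1}` from two fast certificates -/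
theorem FD.Root.ker_fast (h : D.Root x) {n m : ℕ} (hn : n = m + 1) (hm : 4 ≤ m)
    (hm7 : m ≤ 7) (L : List (ℤ × E3)) {c₁ c₂ : ℤ} {C₁ C₂ : List (ℤ × RelD E3)}
    (h₁ : D.fastOK m c₁ C₁ lam1 L = true) (h₂ : D.fastOK m c₂ C₂ lam2 L = true) :
    ∃ N : ℕ, 0 < N ∧ N • evL h.ev L ∈ kerDelta n K :=
  h.ker_rs hn hm L (h.rs_of_fast hm hm7 h₁) (h.rs_of_fast hm hm7 h₂)

end

end Pool.Agent.Zagier
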