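import Pool.Agent.Zagier.FieldABase
import Pool.Agent.Zagier.RelF

/-!
# Weight five, discriminant -23
-/

open scoped TensorProduct
open NumberField

namespace Pool.Agent.Zagier

universe u

/-- an element of weight 5 -/
def mAL5a : List (ℤ × E3) :=
  [(-140, (0, 1, 0)), (126, (1, 1, 0)), (70, (0, 3, 0)), (21, (1, 4, 0)), (-28, (0, 5, 0)),
   (8, (0, 7, 0)), (-8, (1, 7, 0))]

/-- its certificate -/
def mAC5a : List (ℤ × RelD E3) :=
  [(14, .kum ⟨(0, -5, 0), (0, -3, 0), (0, -1, 0), (0, -2, 0)⟩), (-98, .inv (0, -1, 0)),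
   (210, .inv (0, -3, 0)), (126, .inv (1, -1, 0)), (84, .inv (1, -4, 0)), (-56, .inv (1, -7, 0)),
   (-140, .inv (0, -5, 0)), (56, .inv (0, -7, 0)), (-84, .negOne)]

theorem mA_cert5a : mAD.fastOK 4 1 mAC5a lam1 mAL5a = true := by decide +kernel

theorem mA_cert5a' : mAD.fastOK 4 1 [] lam2 mAL5a = true := by decide +kernel

/-- auxiliary data -/
def mAQ5ap1 : GenQ :=
  ((false, 1, 2), (true, 431, 9))

/-- auxiliary data -/
def mAE5ap1 : List (Bool × ℕ × ℕ) :=
  [(true, 755, 30), (true, 755, 30), (true, 431, 9), (true, 325, 7), (true, 246, 6),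
   (true, 140, 4), (true, 140, 4)]

theorem mA_num5ap1 : mAD.numOK 5 10000000000000000000000000000000000000 mAR1 mAQ5ap1 mAL5a mAE5ap1
    (-2580000000000000000000000000000000000000000)
    (-2000000000000000000000000000000000000000000) = true := by decide +kernel

/-- auxiliary data -/
def mAQ5ap2 : GenQ :=
  ((false, 1, 2), (false, 246, 6))

/-- auxiliary data -/
def mAE5ap2 : List (Bool × ℕ × ℕ) :=
  [(false, 869, 64), (false, 869, 64), (false, 656, 19), (false, 570, 14), (false, 496, 11),
   (false, 374, 8), (false, 374, 8)]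

theorem mA_num5ap2 : mAD.numOK 5 10000000000000000000000000000000000000 mAR2 mAQ5ap2 mAL5a mAE5ap2
    (1980000000000000000000000000000000000000000)
    (2560000000000000000000000000000000000000000) = true := by decide +kernel

theorem mA_weight5 {F : Type u} [Field F] [NumberField F]
    (hF : Fintype.card (InfinitePlace F) = 2) (hr : RootIn F pA) :
    RegulatorNonvanishing 5 F := by
  obtain ⟨x, hx, htop⟩ := hr
  have h := mA_root hx
  exact h.odd_two (by norm_num) (by decide) hF mA_polyOK htop mAL5a
    (h.ker_fast rfl (by norm_num) (by norm_num) mAL5a mA_cert5a mA_cert5a')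
    (-2580000000000000000000000000000000000000000, -2000000000000000000000000000000000000000000)
    (1980000000000000000000000000000000000000000, 2560000000000000000000000000000000000000000)
    (fun τ hτ => h.reg_mem (by norm_num) (by norm_num) mA_num5ap1 τ hτ)
    (fun τ hτ => h.reg_mem (by norm_num) (by norm_num) mA_num5ap2 τ hτ)
    (Or.inl (by norm_num))

end Pool.Agent.Zagier
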