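import Pool.Agent.Zagier.FieldABase
import Pool.Agent.Zagier.RelF

/-!
# Weight six, discriminant -23
-/

open scoped TensorProduct
open NumberField

namespace Pool.Agent.Zagier

universe u

/-- an element of weight 6 -/
def mAL6a : List (ℤ × E3) :=
  [(-19440, (0, 1, 0)), (12960, (1, 1, 0)), (6480, (0, 2, 0)), (-3240, (1, 2, 0)),
   (4560, (0, 3, 0)), (-240, (1, 3, 0)), (810, (0, 4, 0)), (-4860, (1, 4, 0)), (-3888, (0, 5, 0)),
   (1296, (1, 5, 0)), (540, (0, 6, 0)), (120, (1, 6, 0)), (405, (0, 8, 0)), (800, (1, 9, 0)),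
   (324, (0, 10, 0)), (-60, (0, 12, 0)), (-48, (1, 15, 0))]

/-- its certificate -/
def mAC6a : List (ℤ × RelD E3) :=
  [(360, .kum ⟨(0, -3, 0), (0, -3, 0), (0, -2, 0), (0, -2, 0)⟩),
   (-360, .kum ⟨(0, -5, 0), (0, -5, 0), (0, -1, 0), (0, -1, 0)⟩), (-12960, .inv (0, -2, 0)),
   (-3240, .inv (0, -4, 0)), (19440, .inv (0, -1, 0)), (-16200, .inv (1, -1, 0)),
   (-13680, .inv (0, -3, 0)), (360, .inv (1, -3, 0)), (19440, .inv (0, -5, 0)),
   (3240, .inv (1, -2, 0)), (-360, .inv (1, -6, 0)), (19440, .inv (1, -4, 0)),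
   (-3240, .inv (0, -6, 0)), (-7200, .inv (1, -9, 0)), (-6480, .inv (1, -5, 0)),
   (-3240, .inv (0, -8, 0)), (-3240, .inv (0, -10, 0)), (720, .inv (0, -12, 0)),
   (720, .inv (1, -15, 0))]

theorem mA_cert6a : mAD.fastOK 5 1 mAC6a lam1 mAL6a = true := by decide +kernel

theorem mA_cert6a' : mAD.fastOK 5 1 [] lam2 mAL6a = true := by decide +kernel

/-- auxiliary data -/
def mAQ6ap2 : GenQ :=
  ((false, 1, 2), (false, 246, 6))

/-- auxiliary data -/
def mAE6ap2 : List (Bool × ℕ × ℕ) :=
  [(false, 869, 64), (false, 869, 64), (false, 755, 30), (false, 755, 30), (false, 656, 19),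
   (false, 656, 19), (false, 570, 14), (false, 570, 14), (false, 496, 11), (false, 496, 11),
   (false, 431, 9), (false, 431, 9), (false, 325, 7), (false, 283, 6), (false, 246, 6),
   (false, 186, 5), (false, 122, 4)]

theorem mA_num6ap2 : mAD.numOK 6 10000000000000000000000000000000000000 mAR2 mAQ6ap2 mAL6a mAE6ap2
    (-292000000000000000000000000000000000000000000)
    (-226000000000000000000000000000000000000000000) = true := by decide +kernel

theorem mA_weight6 {F : Type u} [Field F] [NumberField F] (hr : RootIn F pA) :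
    RegulatorNonvanishing 6 F := by
  obtain ⟨x, hx, htop⟩ := hr
  have h := mA_root hx
  exact h.even_one (by norm_num) (by decide) rfl mA_polyOK htop mAL6a
    (h.ker_fast rfl (by norm_num) (by norm_num) mAL6a mA_cert6a mA_cert6a')
    (-292000000000000000000000000000000000000000000, -226000000000000000000000000000000000000000000)
    (fun τ hτ => h.reg_mem (by norm_num) (by norm_num) mA_num6ap2 τ hτ)
    (Or.inr (by norm_num))

end Pool.Agent.Zagier
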