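import Pool.Agent.Zagier.FieldABase
import Pool.Agent.Zagier.RelF

/-!
# Weight seven, discriminant -23
-/

open scoped TensorProduct
open NumberField

namespace Pool.Agent.Zagier

universe u

/-- an element of weight 7 -/
def mAL7a : List (ℤ × E3) :=
  [(-891240, (0, 1, 0)), (403200, (1, 1, 0)), (-302400, (0, 2, 0)), (140700, (1, 2, 0)),
   (153720, (0, 3, 0)), (33600, (1, 3, 0)), (99750, (0, 4, 0)), (-88200, (1, 4, 0)),
   (45192, (0, 5, 0)), (-12600, (0, 6, 0)), (14700, (1, 6, 0)), (-960, (0, 7, 0)),
   (16320, (1, 7, 0)), (-3255, (0, 8, 0)), (2240, (1, 9, 0)), (1092, (1, 10, 0)),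
   (-210, (0, 12, 0)), (-240, (1, 14, 0))]

/-- its certificate -/
def mAC7a : List (ℤ × RelD E3) :=
  [(840, .fam 0 ⟨(0, -3, 0), (0, -2, 0), (0, -1, 0)⟩), (-893760, .inv (0, -1, 0)),
   (361200, .inv (1, -2, 0)), (302400, .inv (1, -1, 0)), (461160, .inv (0, -3, 0)),
   (399000, .inv (0, -4, 0)), (225960, .inv (0, -5, 0)), (114240, .inv (1, -7, 0)),
   (88200, .inv (1, -6, 0)), (-6720, .inv (0, -7, 0)), (20160, .inv (1, -9, 0)),
   (-604800, .inv (0, -2, 0)), (-352800, .inv (1, -4, 0)), (-75600, .inv (0, -6, 0)),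
   (10920, .inv (1, -10, 0)), (151200, .inv (1, -3, 0)), (-26040, .inv (0, -8, 0)),
   (-3360, .inv (1, -14, 0)), (-2520, .inv (0, -12, 0)), (708960, .one), (-529200, .negOne)]

theorem mA_cert7a : mAD.fastOK 6 1 mAC7a lam1 mAL7a = true := by decide +kernel

theorem mA_cert7a' : mAD.fastOK 6 1 [] lam2 mAL7a = true := by decide +kernel

/-- auxiliary data -/
def mAQ7ap1 : GenQ :=
  ((false, 1, 2), (true, 431, 9))

/-- auxiliary data -/
def mAE7ap1 : List (Bool × ℕ × ℕ) :=
  [(true, 755, 30), (true, 755, 30), (true, 570, 14), (true, 570, 14), (true, 431, 9),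
   (true, 431, 9), (true, 325, 7), (true, 325, 7), (true, 246, 6), (true, 186, 5), (true, 186, 5),
   (true, 140, 4), (true, 140, 4), (true, 106, 4), (true, 80, 3), (true, 61, 3), (true, 35, 3),
   (true, 20, 2)]

theorem mA_num7ap1 : mAD.numOK 7 10000000000000000000000000000000000000 mAR1 mAQ7ap1 mAL7a mAE7ap1
    (-16200000000000000000000000000000000000000000000)
    (-12500000000000000000000000000000000000000000000) = true := by decide +kernel

/-- auxiliary data -/
def mAQ7ap2 : GenQ :=
  ((false, 1, 2), (false, 246, 6))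

/-- auxiliary data -/
def mAE7ap2 : List (Bool × ℕ × ℕ) :=
  [(false, 869, 64), (false, 869, 64), (false, 755, 30), (false, 755, 30), (false, 656, 19),
   (false, 656, 19), (false, 570, 14), (false, 570, 14), (false, 496, 11), (false, 431, 9),
   (false, 431, 9), (false, 374, 8), (false, 374, 8), (false, 325, 7), (false, 283, 6),
   (false, 246, 6), (false, 186, 5), (false, 140, 4)]

theorem mA_num7ap2 : mAD.numOK 7 10000000000000000000000000000000000000 mAR2 mAQ7ap2 mAL7a mAE7ap2
    (7400000000000000000000000000000000000000000000)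
    (9700000000000000000000000000000000000000000000) = true := by decide +kernel

theorem mA_weight7 {F : Type u} [Field F] [NumberField F]
    (hF : Fintype.card (InfinitePlace F) = 2) (hr : RootIn F pA) :
    RegulatorNonvanishing 7 F := by
  obtain ⟨x, hx, htop⟩ := hr
  have h := mA_root hx
  exact h.odd_two (by norm_num) (by decide) hF mA_polyOK htop mAL7a
    (h.ker_fast rfl (by norm_num) (by norm_num) mAL7a mA_cert7a mA_cert7a')
    (-16200000000000000000000000000000000000000000000, -12500000000000000000000000000000000000000000000)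
    (7400000000000000000000000000000000000000000000, 9700000000000000000000000000000000000000000000)
    (fun τ hτ => h.reg_mem (by norm_num) (by norm_num) mA_num7ap1 τ hτ)
    (fun τ hτ => h.reg_mem (by norm_num) (by norm_num) mA_num7ap2 τ hτ)
    (Or.inl (by norm_num))

end Pool.Agent.Zagier
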