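import Pool.Agent.Zagier.FieldABase
import Pool.Agent.Zagier.RelF

/-!
# Weight eight, discriminant -23
-/

open scoped TensorProduct
open NumberField

namespace Pool.Agent.Zagier

universe u

/-- an element of weight 8 -/
def mAL8a : List (ℤ × E3) :=
  [(103979616804, (0, 1, 0)), (100344577284, (1, 1, 0)), (19270456380, (0, 2, 0)),
   (19710233928, (1, 2, 0)), (-35710389540, (0, 3, 0)), (-34895691432, (1, 3, 0)),
   (49244088159, (0, 4, 0)), (50606011260, (1, 4, 0)), (11155745916, (0, 5, 0)),
   (10928355732, (1, 5, 0)), (-1000055700, (0, 6, 0)), (-1380728664, (1, 6, 0)),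
   (-1289343168, (0, 7, 0)), (-1330120512, (1, 7, 0)), (-407849148, (0, 8, 0)),
   (-177750244, (1, 9, 0)), (-81629100, (0, 10, 0)), (8294328, (1, 10, 0)), (5555865, (0, 12, 0)),
   (20464560, (1, 14, 0)), (5895876, (1, 15, 0)), (-816291, (0, 20, 0))]

/-- its certificate -/
def mAC8a : List (ℤ × RelD E3) :=
  [(-5441940, .fam 0 ⟨(0, -3, 0), (0, -2, 0), (0, -1, 0)⟩), (-93853119024, .inv (0, -1, 0)),
   (-41266599696, .inv (1, -2, 0)), (-83186219844, .inv (1, -1, 0)),
   (-38540912760, .inv (0, -2, 0)), (107117292996, .inv (0, -3, 0)),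
   (-202007776320, .inv (1, -4, 0)), (-196976352636, .inv (0, -4, 0)),
   (-55778729580, .inv (0, -5, 0)), (9310843584, .inv (1, -7, 0)), (8284371984, .inv (1, -6, 0)),
   (-54641778660, .inv (1, -5, 0)), (9025402176, .inv (0, -7, 0)), (1599752196, .inv (1, -9, 0)),
   (-82943280, .inv (1, -10, 0)), (103339791072, .inv (1, -3, 0)), (6000334200, .inv (0, -6, 0)),
   (3262793184, .inv (0, -8, 0)), (816291000, .inv (0, -10, 0)), (-286503840, .inv (1, -14, 0)),
   (-88438140, .inv (1, -15, 0)), (-66670380, .inv (0, -12, 0)), (16325820, .inv (0, -20, 0)),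
   (1982232, .fam 1 ⟨(0, -3, 0), (0, -2, 0), (0, -1, 0)⟩), (-2155128192, .dist2 (0, 0, 0))]

theorem mA_cert8a : mAD.fastOK 7 1 mAC8a lam1 mAL8a = true := by decide +kernel

theorem mA_cert8a' : mAD.fastOK 7 1 [] lam2 mAL8a = true := by decide +kernel

/-- auxiliary data -/
def mAQ8ap2 : GenQ :=
  ((false, 1, 2), (false, 246, 9))

/-- auxiliary data -/
def mAE8ap2 : List (Bool × ℕ × ℕ) :=
  [(false, 869, 97), (false, 869, 97), (false, 755, 46), (false, 755, 46), (false, 656, 30),
   (false, 656, 30), (false, 570, 22), (false, 570, 22), (false, 496, 18), (false, 496, 18),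
   (false, 431, 15), (false, 431, 15), (false, 374, 13), (false, 374, 13), (false, 325, 11),
   (false, 283, 10), (false, 246, 9), (false, 246, 9), (false, 186, 7), (false, 140, 6),
   (false, 122, 6), (false, 61, 5)]

theorem mA_num8ap2 : mAD.numOK 8 100000000000000000000000000000000000 mAR2 mAQ8ap2 mAL8a mAE8ap2
    (14400000000000000000000000000000000000000000000000)
    (18700000000000000000000000000000000000000000000000) = true := by decide +kernel

theorem mA_weight8 {F : Type u} [Field F] [NumberField F] (hr : RootIn F pA) :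
    RegulatorNonvanishing 8 F := by
  obtain ⟨x, hx, htop⟩ := hr
  have h := mA_root hx
  exact h.even_one (by norm_num) (by decide) rfl mA_polyOK htop mAL8a
    (h.ker_fast rfl (by norm_num) (by norm_num) mAL8a mA_cert8a mA_cert8a')
    (14400000000000000000000000000000000000000000000000, 18700000000000000000000000000000000000000000000000)
    (fun τ hτ => h.reg_mem (by norm_num) (by norm_num) mA_num8ap2 τ hτ)
    (Or.inl (by norm_num))

end Pool.Agent.Zagier
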