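import Pool.Agent.Zagier.FieldThm
import Pool.Agent.Zagier.Classify

/-!
# The cubic field of discriminant -31
-/

open scoped TensorProduct
open NumberField

namespace Pool.Agent.Zagier

universe u

/-- field data -/
def mBD : FD := ⟨[-1, 1, 0], 2, (([-1], [-1], 1), ([0, 1], [1, 0, 1], 1), ([1], [1], 1)), (1, 0, 0), (0, 0, 0)⟩

/-- an approximate root -/
def mBR1 : ℤ × ℤ :=
  (68232780382801932736948373971104825689118858189799857780372860663989667868699802108173204378620512829559331876390366249425652472087875032632895043291674519405193640165846038290060040636784858874705937,
    0)

/-- an approximate root -/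
def mBR2 : ℤ × ℤ :=
  (-34116390191400966368474186985552412844559429094899928890186430331994833934349901054086602189310256414779665938195183124712826236043937516316447521645837259702596820082923019145030020318392429437352969,
    116154139999725193608791768724717407484314725802151429063616621413849716889577846897947672223960730889915087039503052835005045811691041154764758686034821467657014514597445951054451609958351589434339209)

/-- all approximate roots -/
def mBA : List (ℤ × ℤ) := [mBR1, mBR2, (mBR2.1, -mBR2.2)]

theorem mB_ok : mBD.ok = true := by decide +kernel

theorem mB_polyOK : polyOK mBD.p mBA [mBR1, mBR2] 2 = true := by decide +kernel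

theorem mB_root {K : Type u} [Field K] {x : K} (hx : evP x (pB ++ [1]) = 0) : mBD.Root x :=
  ⟨mB_ok, hx⟩

end Pool.Agent.Zagier
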