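import Pool.Agent.Zagier.FieldBBase
import Pool.Agent.Zagier.RelF

/-!
# Weight five, discriminant -31
-/

open scoped TensorProduct
open NumberField

namespace Pool.Agent.Zagier

universe u

/-- an element of weight 5 -/
def mBL5a : List (ℤ × E3) :=
  [(180, (0, 1, 0)), (90, (1, 1, 0)), (-90, (1, 2, 0)), (10, (1, 3, 0)), (18, (1, 5, 0)),
   (-5, (0, 6, 0))]

/-- its certificate -/
def mBC5a : List (ℤ × RelD E3) :=
  [(30, .kum ⟨(0, -3, 0), (0, -3, 0), (1, -2, 0), (1, -2, 0)⟩), (-180, .inv (1, -2, 0)),
   (-90, .inv (1, -1, 0)), (180, .inv (0, -1, 0)), (90, .inv (0, -2, 0)), (-30, .inv (0, -6, 0)),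
   (90, .inv (1, -5, 0)), (30, .inv (1, -3, 0)), (300, .one)]

theorem mB_cert5a : mBD.fastOK 4 1 mBC5a lam1 mBL5a = true := by decide +kernel

theorem mB_cert5a' : mBD.fastOK 4 1 [] lam2 mBL5a = true := by decide +kernel

/-- auxiliary data -/
def mBQ5ap1 : GenQ :=
  ((false, 1, 2), (false, 535, 13))

/-- auxiliary data -/
def mBE5ap1 : List (Bool × ℕ × ℕ) :=
  [(false, 683, 22), (false, 683, 22), (false, 466, 10), (false, 318, 7), (false, 148, 4),
   (false, 101, 4)]

theorem mB_num5ap1 : mBD.numOK 5 10000000000000000000000000000000000000 mBR1 mBQ5ap1 mBL5a mBE5ap1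
    (1360000000000000000000000000000000000000000)
    (1760000000000000000000000000000000000000000) = true := by decide +kernel

/-- auxiliary data -/
def mBQ5ap2 : GenQ :=
  ((false, 1, 2), (true, 318, 7))

/-- auxiliary data -/
def mBE5ap2 : List (Bool × ℕ × ℕ) :=
  [(true, 827, 46), (true, 827, 46), (true, 683, 22), (true, 564, 14), (true, 385, 8),
   (true, 318, 7)]

theorem mB_num5ap2 : mBD.numOK 5 10000000000000000000000000000000000000 mBR2 mBQ5ap2 mBL5a mBE5ap2
    (-1110000000000000000000000000000000000000000)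
    (-860000000000000000000000000000000000000000) = true := by decide +kernel

theorem mB_weight5 {F : Type u} [Field F] [NumberField F]
    (hF : Fintype.card (InfinitePlace F) = 2) (hr : RootIn F pB) :
    RegulatorNonvanishing 5 F := by
  obtain ⟨x, hx, htop⟩ := hr
  have h := mB_root hx
  exact h.odd_two (by norm_num) (by decide) hF mB_polyOK htop mBL5a
    (h.ker_fast rfl (by norm_num) (by norm_num) mBL5a mB_cert5a mB_cert5a')
    (1360000000000000000000000000000000000000000, 1760000000000000000000000000000000000000000)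
    (-1110000000000000000000000000000000000000000, -860000000000000000000000000000000000000000)
    (fun τ hτ => h.reg_mem (by norm_num) (by norm_num) mB_num5ap1 τ hτ)
    (fun τ hτ => h.reg_mem (by norm_num) (by norm_num) mB_num5ap2 τ hτ)
    (Or.inr (by norm_num))

end Pool.Agent.Zagier
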