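import Pool.Agent.Zagier.FieldThm
import Pool.Agent.Zagier.Classify

/-!
# The quartic field of discriminant 117
-/

open scoped TensorProduct
open NumberField

namespace Pool.Agent.Zagier

universe u

/-- field data -/
def mCD : FD := ⟨[1, 1, -1, -1], 6, (([0, 0, 1, -1], [1, 0, -1, 1], 1), ([0, 1], [-1, 1, 1, -1], 1), ([1], [1], 1)), (3, 0, 0), (2, 0, 0)⟩

/-- an approximate root -/
def mCR1 : ℤ × ℤ :=
  (-69244040099785549337877868604083937782356888973983384300343648637014920873869456737912470448487933178021370728024083897790827864234000095047728065718078150827420808643255847969308795908364620401139403,
    31814795781032680798481218980320141141160422248325158584748933759246557288348153598710708801346113098299450953039986007589438413981969158573844480016362578425817269860819291152950006145455922005156559)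

/-- an approximate root -/
def mCR2 : ℤ × ℤ :=
  (119244040099785549337877868604083937782356888973983384300343648637014920873869456737912470448487933178021370728024083897790827864234000095047728065718078150827420808643255847969308795908364620401139403,
    54787744597411183877891098094973477205979840442193872818041415213350093557091848255346600536516315685481856117730349143909058840767978465366738295588356104000587391734295987950448734859598311741006692)

/-- all approximate roots -/
def mCA : List (ℤ × ℤ) := [mCR1, (mCR1.1, -mCR1.2), mCR2, (mCR2.1, -mCR2.2)]

theorem mC_ok : mCD.ok = true := by decide +kernel

theorem mC_polyOK : polyOK mCD.p mCA [mCR1, mCR2] 4 = true := by decide +kernel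

theorem mC_root {K : Type u} [Field K] {x : K} (hx : evP x (pC ++ [1]) = 0) : mCD.Root x :=
  ⟨mC_ok, hx⟩

theorem mC_im : imOK mCR1 = true ∧ imOK mCR2 = true := by decide +kernel

end Pool.Agent.Zagier
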