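import Pool.Agent.Zagier.FieldCBase
import Pool.Agent.Zagier.RelF

/-!
# Weight five, discriminant 117
-/

open scoped TensorProduct
open NumberField

namespace Pool.Agent.Zagier

universe u

/-- an element of weight 5 -/
def mCL5a : List (ℤ × E3) :=
  [(-60, (0, 1, 0)), (90, (1, 1, 0)), (100, (5, 1, 0)), (30, (1, 3, 0)), (-20, (2, 3, 0)),
   (30, (3, 3, 0)), (-5, (2, 4, 0)), (-2, (1, 5, 0))]

/-- its certificate -/
def mCC5a : List (ℤ × RelD E3) :=
  [(10, .kum ⟨(4, -3, 0), (1, 0, 0), (0, -1, 0), (5, 0, 0)⟩), (40, .inv (1, -1, 0)),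
   (-60, .inv (0, -1, 0)), (30, .inv (5, -1, 0)), (90, .inv (3, -3, 0)), (90, .inv (5, -3, 0)),
   (-20, .inv (4, -4, 0)), (-60, .inv (4, -3, 0)), (-10, .inv (5, -5, 0)), (60, .inv (1, 0, 0))]

theorem mC_cert5a : mCD.fastOK 4 1 mCC5a lam1 mCL5a = true := by decide +kernel

theorem mC_cert5a' : mCD.fastOK 4 1 [] lam2 mCL5a = true := by decide +kernel

/-- auxiliary data -/
def mCQ5ap1 : GenQ :=
  ((false, 1, 2), (false, 420, 12))

/-- auxiliary data -/
def mCE5ap1 : List (Bool × ℕ × ℕ) :=
  [(false, 763, 40), (false, 763, 40), (false, 763, 40), (false, 443, 13), (false, 443, 13),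
   (false, 443, 13), (false, 338, 9), (false, 257, 7)]

theorem mC_num5ap1 : mCD.numOK 5 1000000000000000000000000000000000000 mCR1 mCQ5ap1 mCL5a mCE5ap1
    (-317000000000000000000000000000000000000000)
    (-246000000000000000000000000000000000000000) = true := by decide +kernel

/-- auxiliary data -/
def mCQ5ap2 : GenQ :=
  ((false, 1, 2), (true, 420, 12))

/-- auxiliary data -/
def mCE5ap2 : List (Bool × ℕ × ℕ) :=
  [(true, 763, 40), (true, 763, 40), (true, 763, 40), (true, 443, 13), (true, 443, 13),
   (true, 443, 13), (true, 338, 9), (true, 257, 7)]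

theorem mC_num5ap2 : mCD.numOK 5 1000000000000000000000000000000000000 mCR2 mCQ5ap2 mCL5a mCE5ap2
    (229000000000000000000000000000000000000000)
    (296000000000000000000000000000000000000000) = true := by decide +kernel

theorem mC_weight5 {F : Type u} [Field F] [NumberField F]
    (hF : Fintype.card (InfinitePlace F) = 2) (hr : RootIn F pC) :
    RegulatorNonvanishing 5 F := by
  obtain ⟨x, hx, htop⟩ := hr
  have h := mC_root hx
  exact h.odd_two (by norm_num) (by decide) hF mC_polyOK htop mCL5a
    (h.ker_fast rfl (by norm_num) (by norm_num) mCL5a mC_cert5a mC_cert5a')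
    (-317000000000000000000000000000000000000000, -246000000000000000000000000000000000000000)
    (229000000000000000000000000000000000000000, 296000000000000000000000000000000000000000)
    (fun τ hτ => h.reg_mem (by norm_num) (by norm_num) mC_num5ap1 τ hτ)
    (fun τ hτ => h.reg_mem (by norm_num) (by norm_num) mC_num5ap2 τ hτ)
    (Or.inl (by norm_num))

end Pool.Agent.Zagier
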