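import Pool.Agent.Zagier.FieldCBase
import Pool.Agent.Zagier.RelF

/-!
# Weight six, discriminant 117
-/

open scoped TensorProduct
open NumberField

namespace Pool.Agent.Zagier

universe u

theorem mC_tor6ap1 : mCD.torOK 6 mCR1 (2, 0, 0) (-9920250000000000000000000000000000000000)
    (-7400250000000000000000000000000000000000) = true := by decide +kernel

theorem mC_tor6ap2 : mCD.torOK 6 mCR2 (2, 0, 0) (-9920250000000000000000000000000000000000)
    (-7400250000000000000000000000000000000000) = true := by decide +kernel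

/-- an element of weight 6 -/
def mCL6b : List (ℤ × E3) :=
  [(-122400, (0, 1, 0)), (58860, (1, 1, 0)), (-22680, (2, 1, 0)), (-68040, (3, 1, 0)),
   (72480, (5, 1, 0)), (63450, (0, 2, 0)), (-34020, (1, 2, 0)), (40770, (4, 2, 0)),
   (-61200, (5, 2, 0)), (29700, (1, 3, 0)), (-15600, (2, 3, 0)), (27180, (3, 3, 0)),
   (-2265, (2, 4, 0)), (-1812, (1, 5, 0))]

/-- its certificate -/
def mCC6b : List (ℤ × RelD E3) :=
  [(2520, .kum ⟨(0, -2, 0), (1, 0, 0), (5, -1, 0), (5, 0, 0)⟩),
   (-3020, .kum ⟨(4, -3, 0), (1, 0, 0), (0, -1, 0), (5, 0, 0)⟩), (99720, .inv (0, -1, 0)),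
   (-31680, .inv (5, -1, 0)), (68040, .inv (3, -1, 0)), (68040, .inv (5, -2, 0)),
   (122400, .inv (1, -2, 0)), (-89100, .inv (5, -3, 0)), (-126900, .inv (0, -2, 0)),
   (46800, .inv (4, -3, 0)), (-45300, .inv (1, -1, 0)), (-81540, .inv (2, -2, 0)),
   (-81540, .inv (3, -3, 0)), (9060, .inv (4, -4, 0)), (9060, .inv (5, -5, 0)),
   (600, .dist2 (0, 0, 0)), (-720, .inv (1, 0, 0)), (-120, .dist3 (1, 0, 0))]

theorem mC_cert6b : mCD.fastOK 5 1 mCC6b lam1 mCL6b = true := by decide +kernel

theorem mC_cert6b' : mCD.fastOK 5 1 [] lam2 mCL6b = true := by decide +kernel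

/-- auxiliary data -/
def mCQ6bp1 : GenQ :=
  ((false, 1, 2), (false, 420, 14))

/-- auxiliary data -/
def mCE6bp1 : List (Bool × ℕ × ℕ) :=
  [(false, 763, 48), (false, 763, 48), (false, 763, 48), (false, 763, 48), (false, 763, 48),
   (false, 581, 23), (false, 581, 23), (false, 581, 23), (false, 581, 23), (false, 443, 15),
   (false, 443, 15), (false, 443, 15), (false, 338, 11), (false, 257, 9)]

theorem mC_num6bp1 : mCD.numOK 6 100000000000000000000000000000000000 mCR1 mCQ6bp1 mCL6b mCE6bp1
    (-98000000000000000000000000000000000000000000)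
    (-75000000000000000000000000000000000000000000) = true := by decide +kernel

/-- auxiliary data -/
def mCQ6bp2 : GenQ :=
  ((false, 1, 2), (true, 420, 12))

/-- auxiliary data -/
def mCE6bp2 : List (Bool × ℕ × ℕ) :=
  [(true, 763, 40), (true, 763, 40), (true, 763, 40), (true, 763, 40), (true, 763, 40),
   (true, 581, 19), (true, 581, 19), (true, 581, 19), (true, 581, 19), (true, 443, 13),
   (true, 443, 13), (true, 443, 13), (true, 338, 9), (true, 257, 7)]

theorem mC_num6bp2 : mCD.numOK 6 1000000000000000000000000000000000000 mCR2 mCQ6bp2 mCL6b mCE6bp2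
    (287000000000000000000000000000000000000000000)
    (370000000000000000000000000000000000000000000) = true := by decide +kernel

theorem mC_weight6 {F : Type u} [Field F] [NumberField F]
    (hF : Fintype.card (InfinitePlace F) = 2) (hr : RootIn F pC) :
    RegulatorNonvanishing 6 F := by
  obtain ⟨x, hx, htop⟩ := hr
  have h := mC_root hx
  exact h.even_two (by norm_num) (by decide) hF mC_im.1 mC_im.2 mC_polyOK htop
    [(1, (2, 0, 0))] mCL6b
    (h.ker_tor rfl (by norm_num) (by norm_num) (2, 0, 0) rfl)
    (h.ker_fast rfl (by norm_num) (by norm_num) mCL6b mC_cert6b mC_cert6b')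
    (-9920250000000000000000000000000000000000, -7400250000000000000000000000000000000000)
    (-9920250000000000000000000000000000000000, -7400250000000000000000000000000000000000)
    (-98000000000000000000000000000000000000000000, -75000000000000000000000000000000000000000000)
    (287000000000000000000000000000000000000000000, 370000000000000000000000000000000000000000000)
    (fun τ hτ => h.reg_tor mC_tor6ap1 τ hτ)
    (fun τ hτ => h.reg_tor mC_tor6ap2 τ hτ)
    (fun τ hτ => h.reg_mem (by norm_num) (by norm_num) mC_num6bp1 τ hτ)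
    (fun τ hτ => h.reg_mem (by norm_num) (by norm_num) mC_num6bp2 τ hτ)
    (by decide +kernel)

end Pool.Agent.Zagier
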