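import Pool.Agent.Zagier.FieldCBase
import Pool.Agent.Zagier.RelF

/-!
# Weight seven, discriminant 117
-/

open scoped TensorProduct
open NumberField

namespace Pool.Agent.Zagier

universe u

/-- an element of weight 7 -/
def mCL7a : List (ℤ × E3) :=
  [(545590080, (0, 1, 0)), (-69779404800, (1, 1, 0)), (69779404800, (2, 1, 0)),
   (-545590080, (3, 1, 0)), (-68428438848, (4, 1, 0)), (68428438848, (5, 1, 0)),
   (-45728928, (1, 2, 0)), (1087838640, (2, 2, 0)), (-1087838640, (4, 2, 0)),
   (45728928, (5, 2, 0)), (210188160, (0, 3, 0)), (-399930048, (1, 3, 0)), (399930048, (2, 3, 0)),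
   (-210188160, (3, 3, 0)), (86259600, (1, 4, 0)), (-66769920, (2, 4, 0)), (66769920, (4, 4, 0)),
   (-86259600, (5, 4, 0)), (-12906432, (1, 5, 0)), (12906432, (2, 5, 0)), (-3179520, (4, 7, 0)),
   (3179520, (5, 7, 0)), (452277, (2, 8, 0)), (-452277, (4, 8, 0))]

/-- its certificate -/
def mCC7a : List (ℤ × RelD E3) :=
  [(-4451328, .fam 0 ⟨(0, 2, 0), (2, 1, 0), (5, 2, 0)⟩),
   (7141176, .fam 1 ⟨(0, 2, 0), (2, 1, 0), (5, 2, 0)⟩), (13353984, .inv (5, -5, 0)),
   (196620480, .inv (4, -3, 0)), (-24739888320, .inv (0, -1, 0)), (-25285478400, .inv (3, -1, 0)),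
   (1168534080, .inv (2, -1, 0)), (184742208, .inv (1, -1, 0)), (1769584320, .inv (5, -1, 0)),
   (-29493072, .inv (3, -4, 0)), (-89026560, .inv (2, -2, 0)), (133729901424, .one),
   (132371692992, .negOne), (13173553624, .inv (0, 0, 0)), (108872344, .dist3 (0, 0, 0)),
   (-31358163312, .inv (1, 0, 0)), (-1308912696, .dist2 (1, 0, 0))]

theorem mC_cert7a : mCD.fastOK 6 1 mCC7a lam1 mCL7a = true := by decide +kernel

theorem mC_cert7a' : mCD.fastOK 6 1 [] lam2 mCL7a = true := by decide +kernel

/-- auxiliary data -/
def mCQ7ap1 : GenQ :=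
  ((false, 1, 3), (false, 420, 17))

/-- auxiliary data -/
def mCE7ap1 : List (Bool × ℕ × ℕ) :=
  [(false, 763, 57), (false, 763, 57), (false, 763, 57), (false, 763, 57), (false, 763, 57),
   (false, 763, 57), (false, 581, 28), (false, 581, 28), (false, 581, 28), (false, 581, 28),
   (false, 443, 18), (false, 443, 18), (false, 443, 18), (false, 443, 18), (false, 338, 14),
   (false, 338, 14), (false, 338, 14), (false, 338, 14), (false, 257, 11), (false, 257, 11),
   (false, 150, 8), (false, 150, 8), (false, 114, 7), (false, 114, 7)]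

theorem mC_num7ap1 : mCD.numOK 7 10000000000000000000000000000000000 mCR1 mCQ7ap1 mCL7a mCE7ap1
    (2150000000000000000000000000000000000000000000000)
    (2780000000000000000000000000000000000000000000000) = true := by decide +kernel

/-- auxiliary data -/
def mCQ7ap2 : GenQ :=
  ((false, 1, 3), (true, 420, 17))

/-- auxiliary data -/
def mCE7ap2 : List (Bool × ℕ × ℕ) :=
  [(true, 763, 57), (true, 763, 57), (true, 763, 57), (true, 763, 57), (true, 763, 57),
   (true, 763, 57), (true, 581, 28), (true, 581, 28), (true, 581, 28), (true, 581, 28),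
   (true, 443, 18), (true, 443, 18), (true, 443, 18), (true, 443, 18), (true, 338, 14),
   (true, 338, 14), (true, 338, 14), (true, 338, 14), (true, 257, 11), (true, 257, 11),
   (true, 150, 8), (true, 150, 8), (true, 114, 7), (true, 114, 7)]

theorem mC_num7ap2 : mCD.numOK 7 10000000000000000000000000000000000 mCR2 mCQ7ap2 mCL7a mCE7ap2
    (-2780000000000000000000000000000000000000000000000)
    (-2150000000000000000000000000000000000000000000000) = true := by decide +kernel

theorem mC_weight7 {F : Type u} [Field F] [NumberField F]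
    (hF : Fintype.card (InfinitePlace F) = 2) (hr : RootIn F pC) :
    RegulatorNonvanishing 7 F := by
  obtain ⟨x, hx, htop⟩ := hr
  have h := mC_root hx
  exact h.odd_two (by norm_num) (by decide) hF mC_polyOK htop mCL7a
    (h.ker_fast rfl (by norm_num) (by norm_num) mCL7a mC_cert7a mC_cert7a')
    (2150000000000000000000000000000000000000000000000, 2780000000000000000000000000000000000000000000000)
    (-2780000000000000000000000000000000000000000000000, -2150000000000000000000000000000000000000000000000)
    (fun τ hτ => h.reg_mem (by norm_num) (by norm_num) mC_num7ap1 τ hτ)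
    (fun τ hτ => h.reg_mem (by norm_num) (by norm_num) mC_num7ap2 τ hτ)
    (Or.inr (by norm_num))

end Pool.Agent.Zagier
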