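import Pool.Agent.Zagier.FieldCBase
import Pool.Agent.Zagier.RelF

/-!
# Weight eight, discriminant 117
-/

open scoped TensorProduct
open NumberField

namespace Pool.Agent.Zagier

universe u

theorem mC_tor8ap1 : mCD.torOK 8 mCR1 (2, 0, 0) (-9920250000000000000000000000000000000000)
    (-7400250000000000000000000000000000000000) = true := by decide +kernel

theorem mC_tor8ap2 : mCD.torOK 8 mCR2 (2, 0, 0) (-9920250000000000000000000000000000000000)
    (-7400250000000000000000000000000000000000) = true := by decide +kernel

/-- an element of weight 8 -/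
def mCL8b : List (ℤ × E3) :=
  [(22559643753650640, (0, 1, 0)), (-7053596916420600, (1, 1, 0)), (-7053596916420600, (2, 1, 0)),
   (22559643753650640, (3, 1, 0)), (-7022368585781640, (4, 1, 0)), (-7022368585781640, (5, 1, 0)),
   (-3541542603908400, (0, 2, 0)), (1082398245954480, (1, 2, 0)), (1090738301005080, (2, 2, 0)),
   (-3276349674015600, (3, 2, 0)), (1090738301005080, (4, 2, 0)), (1082398245954480, (5, 2, 0)),
   (-179528392953000, (0, 3, 0)), (243876254403600, (1, 3, 0)), (243876254403600, (2, 3, 0)),
   (-179528392953000, (3, 3, 0)), (217096985949480, (4, 3, 0)), (217096985949480, (5, 3, 0)),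
   (-16451607184740, (1, 4, 0)), (-1686406593690, (2, 4, 0)), (-74757304996920, (3, 4, 0)),
   (-1686406593690, (4, 4, 0)), (-16451607184740, (5, 4, 0)), (-8019361179648, (0, 5, 0)),
   (-7394187220056, (1, 5, 0)), (-7394187220056, (2, 5, 0)), (-8019361179648, (3, 5, 0)),
   (-1191204312480, (0, 6, 0)), (-2978010781200, (3, 6, 0)), (480627318600, (4, 7, 0)),
   (480627318600, (5, 7, 0)), (420548903775, (2, 8, 0)), (420548903775, (4, 8, 0)),
   (-99267026040, (0, 9, 0)), (-99267026040, (3, 9, 0)), (125302518432, (3, 10, 0))]

/-- its certificate -/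
def mCC8b : List (ℤ × RelD E3) :=
  [(-313256296080, .fam 0 ⟨(0, 2, 0), (2, 1, 0), (5, 2, 0)⟩),
   (127629033480, .fam 1 ⟨(0, 2, 0), (2, 1, 0), (5, 2, 0)⟩), (209221707240, .inv (5, -5, 0)),
   (147694115696400, .inv (4, -3, 0)), (-11275278508002600, .inv (0, -1, 0)),
   (-11284365245648040, .inv (3, -1, 0)), (396885132352800, .inv (2, -1, 0)),
   (939768888240, .inv (0, -5, 0)), (72784105397640, .inv (1, -1, 0)),
   (46988444412000, .inv (0, -2, 0)), (275993113687200, .inv (5, -1, 0)),
   (209221707240, .inv (3, -4, 0)), (147694115696400, .inv (2, -2, 0)),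
   (-281930666472000, .inv (4, -1, 0)), (-4467016171800, .inv (0, -3, 0)),
   (-382887100440, .inv (1, -7, 0)), (-202003758296704, .dist2 (0, 0, 0)),
   (4634973932904, .dist3 (0, 0, 0)), (124276037312952, .inv (1, 0, 0)),
   (123380976733056, .dist2 (1, 0, 0)), (4917777395552, .dist3 (1, 0, 0))]

theorem mC_cert8b : mCD.fastOK 7 1 mCC8b lam1 mCL8b = true := by decide +kernel

theorem mC_cert8b' : mCD.fastOK 7 1 [] lam2 mCL8b = true := by decide +kernel

/-- auxiliary data -/
def mCQ8bp1 : GenQ :=
  ((false, 1, 3), (false, 420, 17))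

/-- auxiliary data -/
def mCE8bp1 : List (Bool × ℕ × ℕ) :=
  [(false, 763, 57), (false, 763, 57), (false, 763, 57), (false, 763, 57), (false, 763, 57),
   (false, 763, 57), (false, 581, 28), (false, 581, 28), (false, 581, 28), (false, 581, 28),
   (false, 581, 28), (false, 581, 28), (false, 443, 18), (false, 443, 18), (false, 443, 18),
   (false, 443, 18), (false, 443, 18), (false, 443, 18), (false, 338, 14), (false, 338, 14),
   (false, 338, 14), (false, 338, 14), (false, 338, 14), (false, 257, 11), (false, 257, 11),
   (false, 257, 11), (false, 257, 11), (false, 196, 9), (false, 196, 9), (false, 150, 8),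
   (false, 150, 8), (false, 114, 7), (false, 114, 7), (false, 87, 6), (false, 87, 6),
   (false, 67, 6)]

theorem mC_num8bp1 : mCD.numOK 8 10000000000000000000000000000000000 mCR1 mCQ8bp1 mCL8b mCE8bp1
    (-243000000000000000000000000000000000000000000000000000)
    (-188000000000000000000000000000000000000000000000000000) = true := by decide +kernel

/-- auxiliary data -/
def mCQ8bp2 : GenQ :=
  ((false, 1, 3), (true, 420, 17))

/-- auxiliary data -/
def mCE8bp2 : List (Bool × ℕ × ℕ) :=
  [(true, 763, 57), (true, 763, 57), (true, 763, 57), (true, 763, 57), (true, 763, 57),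
   (true, 763, 57), (true, 581, 28), (true, 581, 28), (true, 581, 28), (true, 581, 28),
   (true, 581, 28), (true, 581, 28), (true, 443, 18), (true, 443, 18), (true, 443, 18),
   (true, 443, 18), (true, 443, 18), (true, 443, 18), (true, 338, 14), (true, 338, 14),
   (true, 338, 14), (true, 338, 14), (true, 338, 14), (true, 257, 11), (true, 257, 11),
   (true, 257, 11), (true, 257, 11), (true, 196, 9), (true, 196, 9), (true, 150, 8),
   (true, 150, 8), (true, 114, 7), (true, 114, 7), (true, 87, 6), (true, 87, 6), (true, 67, 6)]

theorem mC_num8bp2 : mCD.numOK 8 10000000000000000000000000000000000 mCR2 mCQ8bp2 mCL8b mCE8bp2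
    (188000000000000000000000000000000000000000000000000000)
    (243000000000000000000000000000000000000000000000000000) = true := by decide +kernel

theorem mC_weight8 {F : Type u} [Field F] [NumberField F]
    (hF : Fintype.card (InfinitePlace F) = 2) (hr : RootIn F pC) :
    RegulatorNonvanishing 8 F := by
  obtain ⟨x, hx, htop⟩ := hr
  have h := mC_root hx
  exact h.even_two (by norm_num) (by decide) hF mC_im.1 mC_im.2 mC_polyOK htop
    [(1, (2, 0, 0))] mCL8b
    (h.ker_tor rfl (by norm_num) (by norm_num) (2, 0, 0) rfl)
    (h.ker_fast rfl (by norm_num) (by norm_num) mCL8b mC_cert8b mC_cert8b')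
    (-9920250000000000000000000000000000000000, -7400250000000000000000000000000000000000)
    (-9920250000000000000000000000000000000000, -7400250000000000000000000000000000000000)
    (-243000000000000000000000000000000000000000000000000000, -188000000000000000000000000000000000000000000000000000)
    (188000000000000000000000000000000000000000000000000000, 243000000000000000000000000000000000000000000000000000)
    (fun τ hτ => h.reg_tor mC_tor8ap1 τ hτ)
    (fun τ hτ => h.reg_tor mC_tor8ap2 τ hτ)
    (fun τ hτ => h.reg_mem (by norm_num) (by norm_num) mC_num8bp1 τ hτ)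
    (fun τ hτ => h.reg_mem (by norm_num) (by norm_num) mC_num8bp2 τ hτ)
    (by decide +kernel)

end Pool.Agent.Zagier
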