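import Pool.Agent.Zagier.FieldThm
import Pool.Agent.Zagier.Classify

/-!
# The quartic field of discriminant 189
-/

open scoped TensorProduct
open NumberField

namespace Pool.Agent.Zagier

universe u

/-- field data -/
def mDD : FD := ⟨[1, 1, 0, -2], 6, (([0, -1, 1], [1, 1, -1], 1), ([0, 1], [-1, 0, 2, -1], 1), ([-1, 0, 1], [-1, 3, 0, -1], 3)), (3, 0, 0), (2, 0, 0)⟩

/-- an approximate root -/
def mDR1 : ℤ × ℤ :=
  (-47356148335350654463932763356516443053637008757601126836964617948432683058245127165228228021344906254358519243544948149501104223495096981838409308756081744543438848793011962882255199564436990074244855,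
    44477180876206621468548764634260869550099525179417683080621243673599924515141463048257003040369621980267040313871102650042379334103752296589773611025154709297116133138180531371614357444298203414117529)

/-- an approximate root -/
def mDR2 : ℤ × ℤ :=
  (147356148335350654463932763356516443053637008757601126836964617948432683058245127165228228021344906254358519243544948149501104223495096981838409308756081744543438848793011962882255199564436990074244855,
    44477180876206621468548764634260869550099525179417683080621243673599924515141463048257003040369621980267040313871102650042379334103752296589773611025154709297116133138180531371614357444298203414117529)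

/-- all approximate roots -/
def mDA : List (ℤ × ℤ) := [mDR1, (mDR1.1, -mDR1.2), mDR2, (mDR2.1, -mDR2.2)]

theorem mD_ok : mDD.ok = true := by decide +kernel

theorem mD_polyOK : polyOK mDD.p mDA [mDR1, mDR2] 4 = true := by decide +kernel

theorem mD_root {K : Type u} [Field K] {x : K} (hx : evP x (pD ++ [1]) = 0) : mDD.Root x :=
  ⟨mD_ok, hx⟩

theorem mD_im : imOK mDR1 = true ∧ imOK mDR2 = true := by decide +kernel

end Pool.Agent.Zagier
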