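import Pool.Agent.Zagier.FieldNum

/-!
# Numerical evaluation of the regulator: monomials in two units and a third generator
-/

open scoped TensorProduct

namespace Pool.Agent.Zagier

universe u

/-- boxes for a generator with `pu · pv = N₀` -/
noncomputable def mkGenN (B : CB) (pu pv : List ℤ) (N₀ : ℕ) (b : Bool) (N T : ℕ) : Gen :=
  ⟨evB B pu, (evB B pv).divN N₀,
    if b then (logB ((evB B pv).divN N₀) N T).smul (-1) else logB (evB B pu) N T⟩

/-- check for the logarithm -/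
def genNOK (B : CB) (pu pv : List ℤ) (N₀ : ℕ) (b : Bool) (rn N T : ℕ) : Bool :=
  normOK (((if b then (evB B pv).divN N₀ else evB B pu).mul
    (if b then (evB B pv).divN N₀ else evB B pu).conj).oneSub) rn && tailOK rn N T

theorem mkGenN_has {B : CB} {z : ℂ} (h : B.Has z) {pu pv : List ℤ} {N₀ : ℕ} {b : Bool}
    {rn N T : ℕ} (hc : genNOK B pu pv N₀ b rn N T = true) (h0 : 0 < N₀)
    (hinv : evP z pu * evP z pv = N₀) : (mkGenN B pu pv N₀ b N T).Has (evP z pu) := by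
  have hN : (N₀ : ℂ) ≠ 0 := by exact_mod_cast h0.ne'
  have hu : evP z pu ≠ 0 := left_ne_zero_of_mul (hinv ▸ hN)
  have hv : evP z pv / N₀ = (evP z pu)⁻¹ := by
    rw [div_eq_iff hN, eq_comm, inv_mul_eq_iff_eq_mul₀ hu]; exact hinv.symm
  have hb : ((evB B pv).divN N₀).Has (evP z pu)⁻¹ := by
    rw [← hv]; exact (evB_has h pv).divN N₀ h0
  simp only [genNOK, Bool.and_eq_true] at hc
  refine ⟨hu, evB_has h pu, hb, ?_⟩
  cases b
  · exact logB_has (evB_has h pu) hc.1 hc.2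
  · have h1 := (logB_has hb hc.1 hc.2).smul (-1)
    have h2 : ((Real.log ‖evP z pu‖ : ℝ) : ℂ) =
        ((-1 : ℤ) : ℂ) * ((Real.log ‖(evP z pu)⁻¹‖ : ℝ) : ℂ) := by
      rw [norm_inv, Real.log_inv]; push_cast; ring
    rw [h2]
    exact h1

/-- data for the computation of logarithms of three generators: flag, bound, number of terms -/
abbrev GenQS := (Bool × ℕ × ℕ) × (Bool × ℕ × ℕ) × (Bool × ℕ × ℕ)

/-- boxes of the three generators -/
noncomputable def FD.gensS (D : FD) (B : CB) (q : GenQS) (T : ℕ) : List Gen :=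
  [mkGen B D.gs.1.1 D.gs.1.2.1 q.1.1 q.1.2.2 T,
   mkGen B D.gs.2.1.1 D.gs.2.1.2.1 q.2.1.1 q.2.1.2.2 T,
   mkGenN B D.gs.2.2.1 D.gs.2.2.2.1 D.gs.2.2.2.2.toNat q.2.2.1 q.2.2.2.2 T]

/-- checks for the boxes of the generators -/
def FD.gensSOK (D : FD) (B : CB) (q : GenQS) (T : ℕ) : Bool :=
  (D.gs.1.2.2 == 1) && ((D.gs.2.1.2.2 == 1) && (decide (0 < D.gs.2.2.2.2) &&
  (genOK B D.gs.1.1 D.gs.1.2.1 q.1.1 q.1.2.1 q.1.2.2 T &&
   (genOK B D.gs.2.1.1 D.gs.2.1.2.1 q.2.1.1 q.2.1.2.1 q.2.1.2.2 T &&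
   genNOK B D.gs.2.2.1 D.gs.2.2.2.1 D.gs.2.2.2.2.toNat q.2.2.1 q.2.2.2.1 q.2.2.2.2 T))))

/-- the exponents of a monomial as a list -/
def ex3 (g : E3) : List ℤ := [g.1, g.2.1, g.2.2]

/-- The value of the regulator lies in `[lo, hi]` (in units of `1/scl`). -/
noncomputable def FD.numSOK (D : FD) (n T : ℕ) (a : ℤ × ℤ) (q : GenQS) (L : List (ℤ × E3))
    (A : List (Bool × ℕ × ℕ)) (lo hi : ℤ) : Bool :=
  D.gensSOK (toCB a) q T && ((L.length == A.length) &&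
    ((mkEnts ex3 L A).all (fun E => E.ok T (D.gensS (toCB a) q T)) &&
    (decide (lo ≤ (regB n T (D.gensS (toCB a) q T) (mkEnts ex3 L A)).1 -
        (regB n T (D.gensS (toCB a) q T) (mkEnts ex3 L A)).2) &&
     decide ((regB n T (D.gensS (toCB a) q T) (mkEnts ex3 L A)).1 +
        (regB n T (D.gensS (toCB a) q T) (mkEnts ex3 L A)).2 ≤ hi))))

section

variable {F : Type u} [Field F] [CharZero F] {D : FD} {x : F}

theorem GenP.OK.mapN {g : GenP} (h : g.OK x) (hN : 0 < g.2.2) (σ : F →+* ℂ) :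
    evP (σ x) g.1 * evP (σ x) g.2.1 = ((g.2.2.toNat : ℕ) : ℂ) := by
  rw [← evP_map, ← evP_map, ← map_mul, h.1, map_intCast]
  have h1 : ((g.2.2.toNat : ℕ) : ℤ) = g.2.2 := Int.toNat_of_nonneg hN.le
  exact_mod_cast congrArg (Int.cast : ℤ → ℂ) h1.symm

theorem FD.Root.regS_mem (h : D.Root x) {n T : ℕ} (hn0 : 0 < n) (hn8 : n ≤ 8) {a : ℤ × ℤ}
    {q : GenQS} {L : List (ℤ × E3)} {A : List (Bool × ℕ × ℕ)} {lo hi : ℤ}
    (hc : D.numSOK n T a q L A lo hi = true) (σ : F →+* ℂ) (hσ : Near (σ x) a) :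
    (lo : ℝ) ≤ reg n σ (evL h.ev L) * scl ∧ reg n σ (evL h.ev L) * scl ≤ hi := by
  simp only [FD.numSOK, Bool.and_eq_true, beq_iff_eq, decide_eq_true_eq] at hc
  obtain ⟨hg, hlen, hents, hlo, hhi⟩ := hc
  simp only [FD.gensSOK, Bool.and_eq_true, beq_iff_eq, decide_eq_true_eq] at hg
  obtain ⟨n0, n1, n2, g0, g1, g2⟩ := hg
  have hB := hσ.has
  have i0 := h.g0.map n0 σ
  have i1 := h.g1.map n1 σ
  have i2 := h.g2.mapN n2 σ
  have hgens : List.Forall₂ Gen.Has (D.gensS (toCB a) q T)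
      [evP (σ x) D.gs.1.1, evP (σ x) D.gs.2.1.1, evP (σ x) D.gs.2.2.1] :=
    .cons (mkGen_has hB g0 i0) (.cons (mkGen_has hB g1 i1) (.cons
      (mkGenN_has hB g2 (by omega) i2) .nil))
  have hex : ∀ p ∈ L, σ (val h.ev p.2) =
      monV [evP (σ x) D.gs.1.1, evP (σ x) D.gs.2.1.1, evP (σ x) D.gs.2.2.1] (ex3 p.2) := by
    intro p hp
    rw [h.val_ev, map_mul, map_mul, map_zpow₀, map_zpow₀, map_zpow₀, evP_map, evP_map, evP_map]
    simp [ex3, monV]
  rw [reg_eq_regV h.ev n σ ex3 _ L hex A hlen]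
  have h1 := regB_has (n := n) (T := T) hn0 hn8 hgens (mkEnts ex3 L A) hents
  rw [abs_le] at h1
  constructor
  · have h2 : (lo : ℝ) ≤ ((regB n T (D.gensS (toCB a) q T) (mkEnts ex3 L A)).1 : ℝ) -
        (regB n T (D.gensS (toCB a) q T) (mkEnts ex3 L A)).2 := by exact_mod_cast hlo
    linarith [h1.1]
  · have h2 : ((regB n T (D.gensS (toCB a) q T) (mkEnts ex3 L A)).1 : ℝ) +
        (regB n T (D.gensS (toCB a) q T) (mkEnts ex3 L A)).2 ≤ (hi : ℝ) := by exact_mod_cast hhi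
    linarith [h1.2]

end

end Pool.Agent.Zagier
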