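import Pool.Agent.Zagier.FieldDBase
import Pool.Agent.Zagier.RelF
import Pool.Agent.Zagier.FieldNumS

/-!
# Weight five, discriminant 189
-/

open scoped TensorProduct
open NumberField

namespace Pool.Agent.Zagier

universe u

/-- an element of weight 5 -/
def mDL5a : List (ℤ × E3) :=
  [(-24, (3, 5, -5)), (-120, (3, 1, -3)), (120, (1, 2, -3)), (120, (2, 3, -3)), (360, (1, 2, -2)),
   (-480, (3, 2, -2)), (-4920, (0, 1, -1)), (18720, (1, 1, -1)), (2880, (2, 1, -1)),
   (15000, (3, 1, -1)), (22320, (5, 1, -1)), (360, (0, 2, -1)), (-720, (1, 2, -1)),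
   (720, (5, 2, -1)), (-120, (5, 3, -1)), (17340, (0, 1, 0)), (-17340, (2, 1, 0)),
   (21690, (3, 1, 0)), (-21690, (5, 1, 0)), (-480, (1, 2, 0)), (480, (3, 2, 0)), (-270, (1, 3, 0)),
   (270, (5, 3, 0)), (-15000, (1, 0, 1)), (-2880, (2, 0, 1)), (-18720, (3, 0, 1)),
   (4920, (4, 0, 1)), (-22320, (5, 0, 1)), (-360, (0, 1, 1)), (-720, (1, 1, 1)), (720, (5, 1, 1)),
   (120, (3, 2, 1)), (-360, (1, 0, 2)), (480, (5, 0, 2)), (-120, (4, 0, 3)), (24, (5, 0, 5))]

/-- its first certificate -/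
def mDC5a : List (ℤ × RelD E3) :=
  [(120, .kum ⟨(4, -1, 2), (1, 2, -1), (2, 0, 0), (5, 1, -1)⟩),
   (195, .kum ⟨(1, -2, 0), (0, 1, 0), (0, -1, 0), (4, -1, 0)⟩),
   (195, .kum ⟨(5, 2, 0), (4, -1, 0), (2, 1, 0), (0, 1, 0)⟩),
   (-120, .kum ⟨(1, -1, -1), (2, -2, 0), (1, 0, -1), (5, -1, 1)⟩),
   (-120, .kum ⟨(1, 2, -1), (0, 2, 0), (5, 1, -1), (3, 0, 1)⟩), (-120, .inv (3, -5, 5)),
   (-120, .inv (0, -4, 4)), (120, .dist2 (0, 2, -2)), (360, .inv (4, -3, 3)),
   (720, .inv (3, -3, 3)), (-390, .inv (0, -6, 0)), (-720, .dist3 (1, 1, -1)),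
   (360, .inv (5, -2, 3)), (360, .inv (0, -2, 2)), (720, .inv (5, -2, 2)), (1170, .inv (2, -4, 0)),
   (-120, .inv (4, -4, 0)), (-360, .dist2 (2, 1, -1)), (-120, .dist2 (0, 2, 0)),
   (600, .dist2 (0, 1, -1)), (120, .dist2 (1, 2, 0)), (-720, .inv (4, -1, 2)),
   (360, .inv (5, -3, 0)), (1170, .inv (1, -3, 0)), (720, .inv (1, -2, 1)),
   (360, .inv (3, -2, -1)), (360, .inv (3, -1, 1)), (-120, .inv (0, -1, 1)),
   (1170, .inv (4, -2, 0)), (-2490, .dist2 (0, 1, 0)), (-1890, .inv (2, -2, 0)),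
   (-720, .inv (0, -1, -1)), (-360, .inv (2, 0, -2)), (720, .inv (1, -1, -1)),
   (-360, .inv (0, -2, 0)), (-360, .inv (5, -1, 1)), (2490, .dist2 (2, 1, 0)),
   (-1410, .inv (0, -1, 0)), (585, .inv (3, -1, 0)), (1170, .inv (4, -1, 0)),
   (-465, .inv (1, -1, 0)), (360, .inv (5, -1, 0)), (-130, .inv (0, 0, 0)),
   (-10, .dist3 (0, 0, 0)), (180, .dist2 (1, 0, 0))]

/-- its second certificate -/
def mDC5av : List (ℤ × RelD E3) :=
  [(120, .kum ⟨(4, -1, 2), (1, -1, -1), (2, 0, 0), (1, 0, -1)⟩),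
   (-120, .kum ⟨(4, -1, 2), (1, 2, -1), (2, 0, 0), (5, 1, -1)⟩), (120, .inv (3, -5, 5)),
   (120, .inv (0, -4, 4)), (-120, .dist2 (0, 2, -2)), (-360, .inv (4, -3, 3)),
   (-720, .inv (3, -3, 3)), (720, .dist3 (1, 1, -1)), (-360, .inv (5, -2, 3)),
   (-120, .dist2 (2, 0, 2)), (360, .inv (3, -1, 3)), (-360, .inv (2, -2, 2)),
   (120, .inv (1, -3, 1)), (-360, .inv (0, -2, 2)), (-720, .inv (5, -2, 2)),
   (-600, .dist2 (0, 1, -1)), (360, .dist2 (2, 1, -1)), (720, .dist3 (1, 0, 1)),
   (-360, .inv (0, -2, 1)), (-720, .inv (5, -1, -1)), (720, .inv (1, -1, -1)),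
   (-600, .dist2 (1, 0, 1)), (360, .inv (5, -1, 1)), (-360, .inv (3, -1, 1)),
   (120, .inv (0, -1, 1)), (360, .dist2 (2, 0, 1)), (360, .inv (3, 0, -1)),
   (-720, .inv (1, -1, 0)), (720, .inv (3, -1, 0))]

theorem mD_cert5a : mDD.fastOK 4 1 mDC5a lam1 mDL5a = true := by decide +kernel

theorem mD_cert5a' : mDD.fastOK 4 1 mDC5av lam2 mDL5a = true := by decide +kernel

/-- auxiliary data -/
def mDQ5ap1 : GenQS :=
  ((false, 1, 2), (false, 578, 19), (true, 112, 5))

/-- auxiliary data -/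
def mDE5ap1 : List (Bool × ℕ × ℕ) :=
  [(false, 87, 4), (false, 545, 17), (false, 354, 10), (false, 230, 7), (false, 376, 10),
   (false, 376, 10), (false, 613, 21), (false, 613, 21), (false, 613, 21), (false, 613, 21),
   (false, 613, 21), (false, 398, 11), (false, 398, 11), (false, 398, 11), (false, 259, 8),
   (false, 650, 24), (false, 650, 24), (false, 650, 24), (false, 650, 24), (false, 423, 12),
   (false, 423, 12), (false, 275, 8), (false, 275, 8), (true, 943, 206), (true, 943, 206),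
   (true, 943, 206), (true, 943, 206), (true, 943, 206), (false, 690, 28), (false, 690, 28),
   (false, 690, 28), (false, 448, 13), (true, 889, 97), (true, 889, 97), (true, 838, 63),
   (true, 745, 36)]

theorem mD_num5ap1 : mDD.numSOK 5 1000000000000000000000000000000000000 mDR1 mDQ5ap1 mDL5a mDE5ap1
    (55800000000000000000000000000000000000000000)
    (71800000000000000000000000000000000000000000) = true := by decide +kernel

/-- auxiliary data -/
def mDQ5ap2 : GenQS :=
  ((false, 1, 2), (true, 578, 19), (true, 625, 22))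

/-- auxiliary data -/
def mDE5ap2 : List (Bool × ℕ × ℕ) :=
  [(false, 745, 36), (false, 354, 10), (false, 545, 17), (false, 838, 63), (false, 889, 97),
   (false, 889, 97), (false, 943, 206), (false, 943, 206), (false, 943, 206), (false, 943, 206),
   (false, 943, 206), (true, 690, 28), (true, 690, 28), (true, 690, 28), (true, 448, 13),
   (true, 650, 24), (true, 650, 24), (true, 650, 24), (true, 650, 24), (true, 423, 12),
   (true, 423, 12), (true, 275, 8), (true, 275, 8), (true, 613, 21), (true, 613, 21),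
   (true, 613, 21), (true, 613, 21), (true, 613, 21), (true, 398, 11), (true, 398, 11),
   (true, 398, 11), (true, 259, 8), (true, 376, 10), (true, 376, 10), (true, 230, 7), (true, 87, 4)]

theorem mD_num5ap2 : mDD.numSOK 5 1000000000000000000000000000000000000 mDR2 mDQ5ap2 mDL5a mDE5ap2
    (-71800000000000000000000000000000000000000000)
    (-55800000000000000000000000000000000000000000) = true := by decide +kernel

theorem mD_weight5 {F : Type u} [Field F] [NumberField F]
    (hF : Fintype.card (InfinitePlace F) = 2) (hr : RootIn F pD) :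
    RegulatorNonvanishing 5 F := by
  obtain ⟨x, hx, htop⟩ := hr
  have h := mD_root hx
  exact h.odd_two (by norm_num) (by decide) hF mD_polyOK htop mDL5a
    (h.ker_fast rfl (by norm_num) (by norm_num) mDL5a mD_cert5a mD_cert5a')
    (55800000000000000000000000000000000000000000, 71800000000000000000000000000000000000000000)
    (-71800000000000000000000000000000000000000000, -55800000000000000000000000000000000000000000)
    (fun τ hτ => h.regS_mem (by norm_num) (by norm_num) mD_num5ap1 τ hτ)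
    (fun τ hτ => h.regS_mem (by norm_num) (by norm_num) mD_num5ap2 τ hτ)
    (Or.inr (by norm_num))

end Pool.Agent.Zagier
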