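import Pool.Agent.Zagier.FieldDBase
import Pool.Agent.Zagier.FieldNumS
import Pool.Agent.Zagier.RelF

/-!
# Weight six, discriminant 189
-/

open scoped TensorProduct
open NumberField

namespace Pool.Agent.Zagier

universe u

theorem mD_tor6ap1 : mDD.torOK 6 mDR1 (2, 0, 0) (-9920250000000000000000000000000000000000)
    (-7400250000000000000000000000000000000000) = true := by decide +kernel

theorem mD_tor6ap2 : mDD.torOK 6 mDR2 (2, 0, 0) (7400250000000000000000000000000000000000)
    (9920250000000000000000000000000000000000) = true := by decide +kernel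

/-- an element of weight 6 -/
def mDL6b : List (ℤ × E3) :=
  [(-8457687, (4, 1, -5)), (-1276632, (3, 2, -5)), (-2188512, (1, 3, -5)), (-6200784, (4, 4, -5)),
   (-1276632, (3, 5, -5)), (3191580, (5, 2, -4)), (-1595790, (3, 4, -4)), (27356400, (2, 1, -3)),
   (86172660, (3, 1, -3)), (107237088, (4, 1, -3)), (19149480, (0, 2, -3)), (57448440, (1, 2, -3)),
   (93011760, (2, 2, -3)), (19149480, (2, 3, -3)), (-586338840, (1, 1, -2)),
   (-339219360, (2, 1, -2)), (-248031360, (4, 1, -2)), (28724220, (1, 2, -2)),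
   (197877960, (3, 2, -2)), (54712800, (5, 2, -2)), (-1367820, (0, 3, -2)),
   (3850299315, (0, 1, -1)), (4743599760, (1, 1, -1)), (473949630, (2, 1, -1)),
   (3989475000, (3, 1, -1)), (4696068015, (4, 1, -1)), (964313100, (5, 1, -1)),
   (22158684, (0, 2, -1)), (35563320, (1, 2, -1)), (-8845236, (2, 2, -1)), (57448440, (3, 2, -1)),
   (-82981080, (5, 2, -1)), (-2051730, (0, 3, -1)), (-13678200, (2, 3, -1)),
   (-2801506500, (0, 1, 0)), (4066501320, (1, 1, 0)), (328886352, (2, 1, 0)),
   (1058868936, (3, 1, 0)), (375603372, (4, 1, 0)), (4623954984, (5, 1, 0)), (28724220, (1, 2, 0)),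
   (-3829896, (3, 2, 0)), (-26667900, (5, 2, 0)), (-10410120, (1, 3, 0)), (-10410120, (5, 3, 0)),
   (-957474, (3, 4, 0)), (2188512, (5, 4, 0)), (-10965812940, (0, 0, 1)), (114896880, (2, 0, 1)),
   (-9145244520, (3, 0, 1)), (-2300673240, (4, 0, 1)), (1247451840, (5, 0, 1)),
   (332380260, (0, 1, 1)), (-3191580, (1, 1, 1)), (-164138400, (3, 1, 1)), (227970000, (4, 1, 1)),
   (46505880, (5, 1, 1)), (6383160, (0, 2, 1)), (-10942560, (2, 2, 1)), (-4559400, (3, 2, 1)),
   (-68391, (0, 3, 1)), (-28724220, (3, 0, 2)), (-296816940, (5, 0, 2)), (-24985512, (3, 1, 2)),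
   (-32827680, (4, 1, 2)), (3761505, (0, 1, 3)), (547128, (4, 1, 5))]

/-- its first certificate -/
def mDC6b : List (ℤ × RelD E3) :=
  [(-10410120, .kum ⟨(1, -2, 0), (1, 0, 0), (0, -1, 0), (5, 0, 0)⟩),
   (-4103460, .kum ⟨(5, -2, 1), (1, 0, 0), (1, -1, 0), (5, 0, 0)⟩),
   (-6383160, .kum ⟨(5, -2, 1), (4, -1, 2), (1, -1, 0), (2, 0, 0)⟩),
   (-15501960, .kum ⟨(5, -1, 0), (4, -1, 2), (0, -1, 1), (2, 0, 0)⟩),
   (-49241520, .kum ⟨(5, -1, 0), (1, 0, 0), (0, -1, 1), (5, 0, 0)⟩),
   (2188512, .cub (1, -1, -1) (1, 0, -1) [5, 8, -5, 1] 63),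
   (-3829896, .fam 0 ⟨(5, -1, 0), (0, -1, 1), (1, -1, 0)⟩),
   (12036816, .fam 0 ⟨(0, -1, 1), (5, -1, 0), (1, -1, 0)⟩),
   (5471280, .fam 0 ⟨(2, 0, -1), (0, 1, -1), (1, 1, -2)⟩),
   (-3829896, .fam 0 ⟨(4, 0, 1), (1, 1, 0), (3, 1, 0)⟩),
   (14772456, .fam 0 ⟨(1, 1, 0), (4, 0, 1), (3, 1, 0)⟩),
   (-205173, .fam 1 ⟨(2, 0, -1), (0, 1, -1), (1, 1, -2)⟩),
   (547128, .fam 2 ⟨(0, -1, 1), (5, -1, 0), (1, -1, 0)⟩), (6383160, .inv (3, -5, 5)),
   (15501960, .inv (2, -4, 5)), (820692, .inv (0, -6, 3)), (820692, .dist3 (0, 2, -1)),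
   (6383160, .inv (3, -4, 4)), (6383160, .inv (0, -4, 4)), (6565536, .inv (5, -3, 5)),
   (6383160, .dist2 (0, 2, -2)), (2553264, .inv (3, -2, 5)), (-21885120, .inv (1, -2, 4)),
   (-57448440, .inv (4, -3, 3)), (-1094256, .inv (3, -3, 3)), (15501960, .dist2 (1, 1, -2)),
   (-2188512, .inv (0, -3, -3)), (13678200, .dist3 (1, 1, -1)), (1025865, .inv (0, -3, 3)),
   (-2735640, .dist3 (0, 1, 1)), (-2188512, .inv (2, -1, 5)), (1025865, .dist3 (0, 1, -1)),
   (-24073632, .inv (5, -2, 3)), (4103460, .inv (0, -3, 2)), (-38298960, .inv (0, -2, 3)),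
   (-139517640, .inv (4, -2, 3)), (-387913752, .inv (3, -2, 2)), (6155190, .inv (0, -3, 1)),
   (-57448440, .inv (0, -2, 2)), (-57448440, .inv (5, -2, 2)), (-57448440, .inv (4, -2, 2)),
   (-36110448, .inv (3, -1, 3)), (-109425600, .inv (1, -2, 2)), (-8754048, .inv (1, -4, 0)),
   (41034600, .inv (4, -3, 1)), (-27356400, .inv (4, -1, 3)), (-279035280, .dist2 (1, 1, -1)),
   (-1025865, .inv (0, -1, -3)), (8206920, .inv (2, -1, 3)), (44682120, .dist2 (0, 1, -1)),
   (409434120, .inv (5, -1, 2)), (76597920, .inv (5, -2, 1)), (-15866712, .inv (0, -3, 0)),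
   (89911368, .inv (1, -2, 1)), (-110793420, .inv (0, -2, 1)), (23526504, .inv (3, 0, -3)),
   (31230360, .inv (1, -3, 0)), (31230360, .inv (5, -3, 0)), (-48785580, .inv (4, -2, 1)),
   (289977840, .inv (4, -1, 2)), (6383160, .inv (0, -2, -1)), (6383160, .inv (3, -2, -1)),
   (-114896880, .inv (3, -2, 1)), (11307312, .inv (3, -1, -2)), (19696608, .inv (2, -1, -2)),
   (19696608, .inv (4, -2, -1)), (-2188512, .inv (0, 0, -3)), (16413840, .dist3 (1, 0, 1)),
   (57995568, .dist3 (0, 1, 0)), (-66476052, .inv (2, -2, 1)), (-65655360, .inv (0, 0, -2)),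
   (-5471280, .dist2 (1, 1, 0)), (-557044695, .inv (4, -1, 1)), (-292015800, .inv (0, -2, 0)),
   (-174533832, .inv (1, 0, -2)), (406233360, .inv (1, -2, 0)), (-1629073620, .inv (1, -1, 1)),
   (175628088, .inv (1, -1, -1)), (-3461405292, .inv (0, -1, 1)), (74865348, .inv (5, -1, -1)),
   (-371349360, .inv (2, -2, 0)), (7659792, .inv (3, -2, 0)), (-244839780, .inv (2, -1, 1)),
   (-57448440, .dist2 (2, 0, 1)), (-69758820, .inv (0, -1, -1)), (-886347360, .inv (5, -1, 1)),
   (-4622137344, .inv (3, -1, 1)), (15501960, .inv (2, -1, -1)), (177269472, .inv (4, -1, -1)),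
   (-82069200, .inv (3, -1, -1)), (-9301176, .inv (4, -2, 0)), (-242774280, .dist2 (2, 1, 0)),
   (-51279480, .dist2 (0, 1, 0)), (-107086536, .inv (3, -1, 0)), (-274922640, .inv (1, -1, 0)),
   (-666949032, .inv (2, 0, -1)), (2007298800, .inv (5, -1, 0)), (1034071920, .inv (2, -1, 0)),
   (-1905646824, .inv (5, 0, -1)), (-1038731688, .inv (0, -1, 0)), (-1142138880, .inv (4, -1, 0)),
   (-1148968800, .inv (3, 0, -1)), (37751832, .inv (4, 0, -1)), (-1211341392, .inv (1, 0, -1)),
   (134278160, .dist2 (0, 0, 0)), (-5190000, .dist3 (0, 0, 0)), (-297146880, .inv (1, 0, 0)),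
   (-26457840, .dist2 (1, 0, 0)), (-24667120, .dist3 (1, 0, 0))]

/-- its second certificate -/
def mDC6bv : List (ℤ × RelD E3) :=
  [(6383160, .kum ⟨(5, -2, 1), (4, -1, 2), (1, -1, 0), (2, 0, 0)⟩),
   (31003920, .kum ⟨(5, -1, 0), (4, -1, 2), (0, -1, 1), (2, 0, 0)⟩),
   (2735640, .fam 2 ⟨(0, -1, 1), (5, -1, 0), (1, -1, 0)⟩),
   (-10942560, .fam 0 ⟨(0, -1, 1), (5, -1, 0), (1, -1, 0)⟩),
   (-68391, .fam 1 ⟨(2, 0, -1), (0, 1, -1), (1, 1, -2)⟩), (-6383160, .inv (3, -5, 5)),
   (-31003920, .inv (2, -4, 5)), (273564, .inv (0, -6, 3)), (273564, .dist3 (0, 2, -1)),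
   (-6383160, .inv (3, -4, 4)), (-6383160, .inv (0, -4, 4)), (-10942560, .inv (5, -3, 5)),
   (-6383160, .dist2 (0, 2, -2)), (-6383160, .inv (3, -2, 5)), (-2735640, .dist3 (0, 1, 1)),
   (-10942560, .inv (2, -1, 5)), (57448440, .inv (4, -3, 3)), (2735640, .inv (3, -3, 3)),
   (43770240, .inv (1, -2, 4)), (-31003920, .dist2 (1, 1, -2)), (341955, .inv (0, -3, 3)),
   (2735640, .dist3 (1, 1, -1)), (341955, .dist3 (0, 1, -1)), (57448440, .inv (0, -2, 3)),
   (172345320, .inv (5, -2, 3)), (279035280, .inv (4, -2, 3)), (-2735640, .inv (0, -3, 2)),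
   (109425600, .inv (1, -2, 2)), (-13678200, .inv (4, -3, 1)), (82069200, .inv (4, -1, 3)),
   (41034600, .inv (2, -1, 3)), (-21885120, .inv (3, -1, 3)), (57448440, .inv (0, -2, 2)),
   (57448440, .inv (5, -2, 2)), (497886480, .inv (3, -2, 2)), (279035280, .inv (4, -2, 2)),
   (-2051730, .inv (0, -3, 1)), (-341955, .inv (0, -1, -3)), (-44682120, .dist2 (0, 1, -1)),
   (279035280, .dist2 (1, 1, -1)), (-671143680, .inv (5, -1, 2)), (35563320, .inv (5, -2, 1)),
   (-672967440, .inv (4, -1, 2)), (10942560, .dist3 (0, 0, 1)), (-6383160, .inv (0, -2, -1)),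
   (-6383160, .inv (3, -2, -1)), (57448440, .inv (3, -2, 1)), (-82981080, .inv (1, -2, 1)),
   (-4741776, .inv (3, -1, -2)), (-10942560, .dist3 (1, 0, 1)), (-31003920, .inv (4, -2, 1)),
   (-22158684, .inv (2, -2, 1)), (207908640, .inv (2, -1, 1)), (612783360, .dist2 (0, 0, 1)),
   (446251275, .inv (4, -1, 1)), (742726260, .inv (1, -1, 1)), (4535691120, .inv (0, -1, 1)),
   (57448440, .dist2 (2, 0, 1)), (51977160, .inv (1, -1, -1)), (53344980, .inv (0, -1, -1)),
   (57448440, .inv (5, -1, 1)), (4489185240, .inv (3, -1, 1)), (287242200, .inv (1, 0, -2)),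
   (284506560, .inv (0, 0, -2)), (-29636100, .inv (5, -1, -1)), (-31003920, .inv (2, -1, -1)),
   (57448440, .inv (3, -1, 0)), (62919720, .inv (3, 0, -1)), (-484208280, .inv (2, 0, -1)),
   (279035280, .inv (0, 0, -1)), (279035280, .inv (4, 0, -1)), (-39097600, .dist2 (0, 0, 0)),
   (7330800, .dist3 (0, 0, 0)), (-633381120, .inv (1, 0, 0)), (-79172640, .dist2 (1, 0, 0)),
   (7819520, .dist3 (1, 0, 0))]

theorem mD_cert6b : mDD.fastOK 5 1 mDC6b lam1 mDL6b = true := by decide +kernel

theorem mD_cert6b' : mDD.fastOK 5 1 mDC6bv lam2 mDL6b = true := by decide +kernel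

/-- auxiliary data -/
def mDQ6bp1 : GenQS :=
  ((false, 1, 2), (false, 578, 23), (true, 112, 6))

/-- auxiliary data -/
def mDE6bp1 : List (Bool × ℕ × ℕ) :=
  [(false, 484, 17), (false, 315, 11), (false, 205, 8), (false, 133, 6), (false, 87, 5),
   (false, 334, 11), (false, 141, 6), (false, 545, 21), (false, 545, 21), (false, 545, 21),
   (false, 354, 12), (false, 354, 12), (false, 354, 12), (false, 230, 9), (false, 578, 23),
   (false, 578, 23), (false, 578, 23), (false, 376, 13), (false, 376, 13), (false, 376, 13),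
   (false, 244, 9), (false, 613, 26), (false, 613, 26), (false, 613, 26), (false, 613, 26),
   (false, 613, 26), (false, 613, 26), (false, 398, 14), (false, 398, 14), (false, 398, 14),
   (false, 398, 14), (false, 398, 14), (false, 259, 9), (false, 259, 9), (false, 650, 30),
   (false, 650, 30), (false, 650, 30), (false, 650, 30), (false, 650, 30), (false, 650, 30),
   (false, 423, 15), (false, 423, 15), (false, 423, 15), (false, 275, 10), (false, 275, 10),
   (false, 179, 7), (false, 179, 7), (true, 943, 245), (true, 943, 245), (true, 943, 245),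
   (true, 943, 245), (true, 943, 245), (false, 690, 35), (false, 690, 35), (false, 690, 35),
   (false, 690, 35), (false, 690, 35), (false, 448, 16), (false, 448, 16), (false, 448, 16),
   (false, 291, 10), (true, 889, 117), (true, 889, 117), (false, 732, 42), (false, 732, 42),
   (false, 776, 52), (false, 873, 100)]

theorem mD_num6bp1 : mDD.numSOK 6 100000000000000000000000000000000000 mDR1 mDQ6bp1 mDL6b mDE6bp1
    (4510000000000000000000000000000000000000000000000)
    (5810000000000000000000000000000000000000000000000) = true := by decide +kernel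

/-- auxiliary data -/
def mDQ6bp2 : GenQS :=
  ((false, 1, 2), (true, 578, 23), (true, 625, 27))

/-- auxiliary data -/
def mDE6bp2 : List (Bool × ℕ × ℕ) :=
  [(false, 133, 6), (false, 205, 8), (false, 315, 11), (false, 484, 17), (false, 745, 44),
   (false, 334, 11), (false, 790, 56), (false, 354, 12), (false, 354, 12), (false, 354, 12),
   (false, 545, 21), (false, 545, 21), (false, 545, 21), (false, 838, 76), (false, 578, 23),
   (false, 578, 23), (false, 578, 23), (false, 889, 117), (false, 889, 117), (false, 889, 117),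
   (true, 732, 42), (false, 943, 245), (false, 943, 245), (false, 943, 245), (false, 943, 245),
   (false, 943, 245), (false, 943, 245), (true, 690, 35), (true, 690, 35), (true, 690, 35),
   (true, 690, 35), (true, 690, 35), (true, 448, 16), (true, 448, 16), (true, 650, 30),
   (true, 650, 30), (true, 650, 30), (true, 650, 30), (true, 650, 30), (true, 650, 30),
   (true, 423, 15), (true, 423, 15), (true, 423, 15), (true, 275, 10), (true, 275, 10),
   (true, 179, 7), (true, 179, 7), (true, 613, 26), (true, 613, 26), (true, 613, 26),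
   (true, 613, 26), (true, 613, 26), (true, 398, 14), (true, 398, 14), (true, 398, 14),
   (true, 398, 14), (true, 398, 14), (true, 259, 9), (true, 259, 9), (true, 259, 9),
   (true, 168, 7), (true, 376, 13), (true, 376, 13), (true, 244, 9), (true, 244, 9),
   (true, 150, 7), (true, 56, 5)]

theorem mD_num6bp2 : mDD.numSOK 6 100000000000000000000000000000000000 mDR2 mDQ6bp2 mDL6b mDE6bp2
    (-2170000000000000000000000000000000000000000000000)
    (-1680000000000000000000000000000000000000000000000) = true := by decide +kernel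

theorem mD_weight6 {F : Type u} [Field F] [NumberField F]
    (hF : Fintype.card (InfinitePlace F) = 2) (hr : RootIn F pD) :
    RegulatorNonvanishing 6 F := by
  obtain ⟨x, hx, htop⟩ := hr
  have h := mD_root hx
  exact h.even_two (by norm_num) (by decide) hF mD_im.1 mD_im.2 mD_polyOK htop
    [(1, (2, 0, 0))] mDL6b
    (h.ker_tor rfl (by norm_num) (by norm_num) (2, 0, 0) rfl)
    (h.ker_fast rfl (by norm_num) (by norm_num) mDL6b mD_cert6b mD_cert6b')
    (-9920250000000000000000000000000000000000, -7400250000000000000000000000000000000000)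
    (7400250000000000000000000000000000000000, 9920250000000000000000000000000000000000)
    (4510000000000000000000000000000000000000000000000, 5810000000000000000000000000000000000000000000000)
    (-2170000000000000000000000000000000000000000000000, -1680000000000000000000000000000000000000000000000)
    (fun τ hτ => h.reg_tor mD_tor6ap1 τ hτ)
    (fun τ hτ => h.reg_tor mD_tor6ap2 τ hτ)
    (fun τ hτ => h.regS_mem (by norm_num) (by norm_num) mD_num6bp1 τ hτ)
    (fun τ hτ => h.regS_mem (by norm_num) (by norm_num) mD_num6bp2 τ hτ)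
    (by decide +kernel)

end Pool.Agent.Zagier
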