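import Pool.Agent.Zagier.FieldThm
import Pool.Agent.Zagier.Classify
import Pool.Agent.Zagier.FieldE3Def

/-!
# The quartic field of discriminant 229 with a prime above 3
-/

open scoped TensorProduct
open NumberField

namespace Pool.Agent.Zagier

universe u

/-- all approximate roots -/
def mE3A : List (ℤ × ℤ) := [mE3R1, (mE3R1.1, -mE3R1.2), mE3R2, (mE3R2.1, -mE3R2.2)]

theorem mE3_ok : mE3D.ok = true := by decide +kernel

theorem mE3_polyOK : polyOK mE3D.p mE3A [mE3R1, mE3R2] 2 = true := by decide +kernel

theorem mE3_root {K : Type u} [Field K] {x : K} (hx : evP x (pE ++ [1]) = 0) : mE3D.Root x :=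
  ⟨mE3_ok, hx⟩

theorem mE3_im : imOK mE3R1 = true ∧ imOK mE3R2 = true := by decide +kernel

end Pool.Agent.Zagier
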