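import Pool.Agent.Zagier.FieldE3Def
import Pool.Agent.Zagier.FieldNumS

/-!
# Weight six, discriminant 229: numerical values
-/

open scoped TensorProduct
open NumberField

namespace Pool.Agent.Zagier

universe u

/-- auxiliary data -/
def mE3Q6ap1 : GenQS :=
  ((false, 1, 3), (false, 287, 16), (true, 463, 25))

/-- auxiliary data -/
def mE3E6ap1 : List (Bool × ℕ × ℕ) :=
  [(false, 92, 8), (false, 78, 8), (false, 56, 7), (false, 17, 5), (false, 245, 14),
   (false, 207, 12), (false, 334, 18), (false, 282, 15), (false, 238, 14), (false, 238, 14),
   (false, 201, 12), (false, 170, 11), (false, 144, 10), (false, 122, 9), (false, 103, 9),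
   (false, 62, 7), (false, 53, 7), (false, 45, 6), (false, 455, 25), (false, 455, 25),
   (false, 384, 20), (false, 325, 17), (false, 274, 15), (false, 232, 13), (false, 166, 11),
   (false, 140, 10), (false, 620, 41), (false, 620, 41), (false, 524, 30), (false, 524, 30),
   (false, 443, 24), (false, 443, 24), (false, 374, 20), (false, 374, 20), (false, 316, 17),
   (false, 316, 17), (false, 267, 15), (false, 267, 15), (false, 226, 13), (false, 226, 13),
   (false, 191, 12), (false, 161, 11), (false, 115, 9), (false, 50, 7), (false, 36, 6),
   (false, 845, 121), (false, 845, 121), (false, 714, 59), (false, 603, 39), (false, 603, 39),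
   (false, 510, 29), (false, 431, 23), (false, 431, 23), (false, 364, 19), (false, 308, 16),
   (false, 260, 14), (false, 220, 13), (false, 220, 13), (false, 186, 12), (false, 157, 11),
   (false, 112, 9), (false, 95, 8), (false, 80, 8), (true, 734, 64), (true, 734, 64),
   (true, 869, 146), (true, 869, 146), (false, 974, 838), (false, 974, 838), (false, 823, 104),
   (false, 823, 104), (false, 695, 54), (false, 695, 54), (false, 587, 37), (false, 587, 37),
   (false, 496, 28), (false, 496, 28), (false, 419, 22), (false, 354, 19), (false, 354, 19),
   (false, 299, 16), (false, 253, 14), (false, 214, 13), (false, 153, 10), (false, 92, 8),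
   (false, 40, 6), (true, 538, 31), (true, 637, 44), (true, 637, 44), (true, 893, 183),
   (true, 893, 183), (false, 947, 393), (false, 800, 90), (false, 676, 50), (false, 483, 27),
   (false, 246, 14), (true, 395, 21), (true, 467, 26), (true, 553, 33), (true, 553, 33),
   (true, 655, 47), (true, 775, 79), (false, 922, 259), (false, 779, 80), (false, 658, 47),
   (false, 556, 33), (false, 397, 21), (true, 406, 22), (true, 213, 13), (true, 252, 14),
   (true, 352, 19), (true, 493, 28), (true, 818, 101), (true, 258, 14)]

theorem mE3_num6ap1 : mE3D.numSOK 6 100000000000000000000000000000000 mE3R1 mE3Q6ap1 mE3L6a mE3E6ap1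
    (169000000000000000000000000000000000000000000000000000000000000)
    (219000000000000000000000000000000000000000000000000000000000000) = true := by decide +kernel

/-- auxiliary data -/
def mE3Q6ap2 : GenQS :=
  ((false, 1, 3), (true, 287, 14), (true, 381, 18))

/-- auxiliary data -/
def mE3E6ap2 : List (Bool × ℕ × ℕ) :=
  [(false, 704, 50), (false, 833, 99), (true, 858, 118), (true, 264, 13), (false, 455, 22),
   (false, 539, 28), (false, 578, 31), (false, 684, 46), (false, 810, 85), (false, 810, 85),
   (false, 959, 462), (true, 882, 146), (true, 745, 60), (true, 630, 38), (true, 532, 27),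
   (true, 321, 15), (true, 271, 13), (true, 229, 12), (false, 734, 57), (false, 734, 57),
   (false, 869, 130), (true, 973, 721), (true, 822, 92), (true, 695, 48), (true, 496, 24),
   (true, 419, 20), (false, 932, 268), (false, 932, 268), (true, 907, 190), (true, 907, 190),
   (true, 766, 66), (true, 766, 66), (true, 647, 40), (true, 647, 40), (true, 547, 29),
   (true, 547, 29), (true, 462, 22), (true, 462, 22), (true, 390, 18), (true, 390, 18),
   (true, 330, 15), (true, 279, 13), (true, 199, 11), (true, 86, 7), (true, 61, 6),
   (true, 845, 107), (true, 845, 107), (true, 714, 52), (true, 603, 34), (true, 603, 34),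
   (true, 510, 25), (true, 431, 20), (true, 431, 20), (true, 364, 17), (true, 308, 14),
   (true, 260, 13), (true, 220, 11), (true, 220, 11), (true, 186, 10), (true, 157, 9),
   (true, 112, 8), (true, 95, 7), (true, 80, 7), (true, 788, 75), (true, 788, 75), (true, 666, 43),
   (true, 666, 43), (true, 562, 30), (true, 562, 30), (true, 475, 23), (true, 475, 23),
   (true, 401, 19), (true, 401, 19), (true, 339, 16), (true, 339, 16), (true, 287, 14),
   (true, 287, 14), (true, 242, 12), (true, 205, 11), (true, 205, 11), (true, 173, 10),
   (true, 146, 9), (true, 124, 8), (true, 88, 7), (true, 53, 6), (true, 23, 5), (true, 620, 36),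
   (true, 524, 27), (true, 524, 27), (true, 374, 17), (true, 374, 17), (true, 316, 15),
   (true, 267, 13), (true, 226, 12), (true, 161, 9), (true, 82, 7), (true, 488, 24),
   (true, 413, 19), (true, 349, 16), (true, 349, 16), (true, 295, 14), (true, 249, 12),
   (true, 178, 10), (true, 150, 9), (true, 127, 8), (true, 107, 8), (true, 77, 7), (true, 275, 13),
   (true, 303, 14), (true, 256, 13), (true, 183, 10), (true, 131, 8), (true, 79, 7), (true, 144, 9)]

theorem mE3_num6ap2 : mE3D.numSOK 6 1000000000000000000000000000000000 mE3R2 mE3Q6ap2 mE3L6a mE3E6ap2
    (-610000000000000000000000000000000000000000000000000000000000000)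
    (-473000000000000000000000000000000000000000000000000000000000000) = true := by decide +kernel

/-- auxiliary data -/
def mE3Q6bp1 : GenQS :=
  ((false, 1, 3), (false, 287, 14), (true, 463, 22))

/-- auxiliary data -/
def mE3E6bp1 : List (Bool × ℕ × ℕ) :=
  [(false, 92, 7), (false, 78, 7), (false, 56, 6), (false, 56, 6), (false, 17, 4),
   (false, 245, 12), (false, 207, 11), (false, 334, 16), (false, 282, 13), (false, 238, 12),
   (false, 238, 12), (false, 201, 11), (false, 170, 10), (false, 144, 9), (false, 122, 8),
   (false, 103, 8), (false, 87, 7), (false, 62, 6), (false, 53, 6), (false, 45, 6),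
   (false, 455, 22), (false, 455, 22), (false, 384, 18), (false, 325, 15), (false, 274, 13),
   (false, 232, 12), (false, 166, 10), (false, 140, 9), (false, 620, 36), (false, 620, 36),
   (false, 524, 27), (false, 524, 27), (false, 443, 21), (false, 443, 21), (false, 374, 17),
   (false, 374, 17), (false, 316, 15), (false, 316, 15), (false, 267, 13), (false, 267, 13),
   (false, 226, 12), (false, 226, 12), (false, 191, 10), (false, 161, 9), (false, 136, 9),
   (false, 115, 8), (false, 50, 6), (false, 36, 5), (false, 845, 107), (false, 845, 107),
   (false, 714, 52), (false, 603, 34), (false, 603, 34), (false, 510, 25), (false, 431, 20),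
   (false, 431, 20), (false, 364, 17), (false, 308, 14), (false, 308, 14), (false, 260, 13),
   (false, 220, 11), (false, 220, 11), (false, 186, 10), (false, 157, 9), (false, 112, 8),
   (false, 95, 7), (false, 80, 7), (false, 29, 5), (true, 734, 57), (true, 734, 57),
   (true, 869, 130), (true, 869, 130), (false, 974, 751), (false, 974, 751), (false, 823, 92),
   (false, 823, 92), (false, 695, 48), (false, 695, 48), (false, 587, 32), (false, 587, 32),
   (false, 496, 24), (false, 496, 24), (false, 419, 20), (false, 354, 16), (false, 354, 16),
   (false, 299, 14), (false, 253, 12), (false, 214, 11), (false, 214, 11), (false, 153, 9),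
   (false, 92, 7), (false, 40, 6), (true, 538, 28), (true, 637, 38), (true, 637, 38),
   (true, 893, 163), (true, 893, 163), (false, 947, 350), (false, 800, 80), (false, 676, 45),
   (false, 483, 24), (false, 246, 12), (true, 395, 18), (true, 467, 22), (true, 553, 29),
   (true, 553, 29), (true, 655, 41), (true, 775, 70), (false, 922, 230), (false, 779, 71),
   (false, 658, 42), (false, 556, 29), (false, 397, 18), (false, 335, 16), (true, 406, 19),
   (true, 213, 11), (true, 252, 12), (true, 352, 16), (true, 493, 24), (true, 818, 89),
   (true, 258, 13)]

theorem mE3_num6bp1 : mE3D.numSOK 6 1000000000000000000000000000000000 mE3R1 mE3Q6bp1 mE3L6b mE3E6bp1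
    (11600000000000000000000000000000000000000000000000000000000000000)
    (15000000000000000000000000000000000000000000000000000000000000000) = true := by decide +kernel

/-- auxiliary data -/
def mE3Q6bp2 : GenQS :=
  ((false, 1, 3), (true, 287, 14), (true, 381, 18))

/-- auxiliary data -/
def mE3E6bp2 : List (Bool × ℕ × ℕ) :=
  [(false, 704, 50), (false, 833, 99), (true, 858, 118), (true, 858, 118), (true, 264, 13),
   (false, 455, 22), (false, 539, 28), (false, 578, 31), (false, 684, 46), (false, 810, 85),
   (false, 810, 85), (false, 959, 462), (true, 882, 146), (true, 745, 60), (true, 630, 38),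
   (true, 532, 27), (true, 450, 21), (true, 321, 15), (true, 271, 13), (true, 229, 12),
   (false, 734, 57), (false, 734, 57), (false, 869, 130), (true, 973, 721), (true, 822, 92),
   (true, 695, 48), (true, 496, 24), (true, 419, 20), (false, 932, 268), (false, 932, 268),
   (true, 907, 190), (true, 907, 190), (true, 766, 66), (true, 766, 66), (true, 647, 40),
   (true, 647, 40), (true, 547, 29), (true, 547, 29), (true, 462, 22), (true, 462, 22),
   (true, 390, 18), (true, 390, 18), (true, 330, 15), (true, 279, 13), (true, 236, 12),
   (true, 199, 11), (true, 86, 7), (true, 61, 6), (true, 845, 107), (true, 845, 107),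
   (true, 714, 52), (true, 603, 34), (true, 603, 34), (true, 510, 25), (true, 431, 20),
   (true, 431, 20), (true, 364, 17), (true, 308, 14), (true, 308, 14), (true, 260, 13),
   (true, 220, 11), (true, 220, 11), (true, 186, 10), (true, 157, 9), (true, 112, 8),
   (true, 95, 7), (true, 80, 7), (true, 29, 5), (true, 788, 75), (true, 788, 75), (true, 666, 43),
   (true, 666, 43), (true, 562, 30), (true, 562, 30), (true, 475, 23), (true, 475, 23),
   (true, 401, 19), (true, 401, 19), (true, 339, 16), (true, 339, 16), (true, 287, 14),
   (true, 287, 14), (true, 242, 12), (true, 205, 11), (true, 205, 11), (true, 173, 10),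
   (true, 146, 9), (true, 124, 8), (true, 124, 8), (true, 88, 7), (true, 53, 6), (true, 23, 5),
   (true, 620, 36), (true, 524, 27), (true, 524, 27), (true, 374, 17), (true, 374, 17),
   (true, 316, 15), (true, 267, 13), (true, 226, 12), (true, 161, 9), (true, 82, 7),
   (true, 488, 24), (true, 413, 19), (true, 349, 16), (true, 349, 16), (true, 295, 14),
   (true, 249, 12), (true, 178, 10), (true, 150, 9), (true, 127, 8), (true, 107, 8), (true, 77, 7),
   (true, 65, 6), (true, 275, 13), (true, 303, 14), (true, 256, 13), (true, 183, 10),
   (true, 131, 8), (true, 79, 7), (true, 144, 9)]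

theorem mE3_num6bp2 : mE3D.numSOK 6 1000000000000000000000000000000000 mE3R2 mE3Q6bp2 mE3L6b mE3E6bp2
    (4060000000000000000000000000000000000000000000000000000000000000)
    (5230000000000000000000000000000000000000000000000000000000000000) = true := by decide +kernel

end Pool.Agent.Zagier
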