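import Pool.Agent.Zagier.FieldE3Base
import Pool.Agent.Zagier.FieldE3W6a
import Pool.Agent.Zagier.FieldE3W6b
import Pool.Agent.Zagier.FieldE3W6n

/-!
# Weight six, discriminant 229
-/

open scoped TensorProduct
open NumberField

namespace Pool.Agent.Zagier

universe u

theorem mE3_weight6 {F : Type u} [Field F] [NumberField F]
    (hF : Fintype.card (InfinitePlace F) = 2) (hr : RootIn F pE) :
    RegulatorNonvanishing 6 F := by
  obtain ⟨x, hx, htop⟩ := hr
  have h := mE3_root hx
  exact h.even_two (by norm_num) (by decide) hF mE3_im.1 mE3_im.2 mE3_polyOK htop
    mE3L6a mE3L6b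
    (h.ker_fast rfl (by norm_num) (by norm_num) mE3L6a mE3_cert6a mE3_cert6a')
    (h.ker_fast rfl (by norm_num) (by norm_num) mE3L6b mE3_cert6b mE3_cert6b')
    (169000000000000000000000000000000000000000000000000000000000000, 219000000000000000000000000000000000000000000000000000000000000)
    (-610000000000000000000000000000000000000000000000000000000000000, -473000000000000000000000000000000000000000000000000000000000000)
    (11600000000000000000000000000000000000000000000000000000000000000, 15000000000000000000000000000000000000000000000000000000000000000)
    (4060000000000000000000000000000000000000000000000000000000000000, 5230000000000000000000000000000000000000000000000000000000000000)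
    (fun τ hτ => h.regS_mem (by norm_num) (by norm_num) mE3_num6ap1 τ hτ)
    (fun τ hτ => h.regS_mem (by norm_num) (by norm_num) mE3_num6ap2 τ hτ)
    (fun τ hτ => h.regS_mem (by norm_num) (by norm_num) mE3_num6bp1 τ hτ)
    (fun τ hτ => h.regS_mem (by norm_num) (by norm_num) mE3_num6bp2 τ hτ)
    (by decide +kernel)

end Pool.Agent.Zagier
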