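import Pool.Agent.Zagier.FieldThm
import Pool.Agent.Zagier.Classify

/-!
# The quartic field of discriminant 229
-/

open scoped TensorProduct
open NumberField

namespace Pool.Agent.Zagier

universe u

/-- field data -/
def mED : FD := ⟨[1, 0, 0, -1], 2, (([-1], [-1], 1), ([0, 1], [0, 0, 1, -1], 1), ([1], [1], 1)), (1, 0, 0), (0, 0, 0)⟩

/-- an approximate root -/
def mER1 : ℤ × ℤ :=
  (-51891279438515584478657958863659654799763242795258219574338345420143651268191805439825698875021508524816707883365384407031606212299474692954871170183739836019172482708978502703227156143246577113913726,
    66660984493201857915375880073300330825197441978145719537207708901949446367814505628006473420261416711699056551147311559861727041084001378604571080215894478707090201117232340922338422758065301167933790)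

/-- an approximate root -/
def mER2 : ℤ × ℤ :=
  (101891279438515584478657958863659654799763242795258219574338345420143651268191805439825698875021508524816707883365384407031606212299474692954871170183739836019172482708978502703227156143246577113913726,
    60256541999859902604398442197192991030996781539441920941105407846556838299715319656379985648264497940981565791633686406289825397415733254366891118554610602191827778361643875490931892605429376038289703)

/-- all approximate roots -/
def mEA : List (ℤ × ℤ) := [mER1, (mER1.1, -mER1.2), mER2, (mER2.1, -mER2.2)]

theorem mE_ok : mED.ok = true := by decide +kernel

theorem mE_polyOK : polyOK mED.p mEA [mER1, mER2] 2 = true := by decide +kernel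

theorem mE_root {K : Type u} [Field K] {x : K} (hx : evP x (pE ++ [1]) = 0) : mED.Root x :=
  ⟨mE_ok, hx⟩

theorem mE_im : imOK mER1 = true ∧ imOK mER2 = true := by decide +kernel

end Pool.Agent.Zagier
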