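import Pool.Agent.Zagier.FieldEBase
import Pool.Agent.Zagier.RelF

/-!
# Weight five, discriminant 229
-/

open scoped TensorProduct
open NumberField

namespace Pool.Agent.Zagier

universe u

/-- an element of weight 5 -/
def mEL5a : List (ℤ × E3) :=
  [(-3780, (0, 1, 0)), (1890, (1, 1, 0)), (-945, (0, 2, 0)), (1260, (0, 3, 0)), (-840, (1, 3, 0)),
   (378, (1, 5, 0)), (-315, (0, 6, 0)), (-270, (1, 7, 0)), (70, (1, 9, 0))]

/-- its certificate -/
def mEC5a : List (ℤ × RelD E3) :=
  [(630, .kum ⟨(1, -4, 0), (1, -4, 0), (0, -1, 0), (0, -1, 0)⟩), (-3780, .inv (0, -1, 0)),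
   (-1890, .inv (0, -2, 0)), (-2520, .inv (1, -3, 0)), (3780, .inv (0, -3, 0)),
   (3780, .inv (1, -1, 0)), (1890, .inv (1, -5, 0)), (-1890, .inv (0, -6, 0)),
   (-1890, .inv (1, -7, 0)), (630, .inv (1, -9, 0)), (6300, .one)]

theorem mE_cert5a : mED.fastOK 4 1 mEC5a lam1 mEL5a = true := by decide +kernel

theorem mE_cert5a' : mED.fastOK 4 1 [] lam2 mEL5a = true := by decide +kernel

/-- auxiliary data -/
def mEQ5ap1 : GenQ :=
  ((false, 1, 2), (false, 287, 6))

/-- auxiliary data -/
def mEE5ap1 : List (Bool × ℕ × ℕ) :=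
  [(false, 845, 53), (false, 845, 53), (false, 714, 25), (false, 603, 16), (false, 603, 16),
   (false, 431, 9), (false, 364, 8), (false, 308, 7), (false, 220, 5)]

theorem mE_num5ap1 : mED.numOK 5 10000000000000000000000000000000000000 mER1 mEQ5ap1 mEL5a mEE5ap1
    (44500000000000000000000000000000000000000000)
    (57300000000000000000000000000000000000000000) = true := by decide +kernel

/-- auxiliary data -/
def mEQ5ap2 : GenQ :=
  ((false, 1, 2), (true, 287, 6))

/-- auxiliary data -/
def mEE5ap2 : List (Bool × ℕ × ℕ) :=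
  [(true, 845, 53), (true, 845, 53), (true, 714, 25), (true, 603, 16), (true, 603, 16),
   (true, 431, 9), (true, 364, 8), (true, 308, 7), (true, 220, 5)]

theorem mE_num5ap2 : mED.numOK 5 10000000000000000000000000000000000000 mER2 mEQ5ap2 mEL5a mEE5ap2
    (-56300000000000000000000000000000000000000000)
    (-43700000000000000000000000000000000000000000) = true := by decide +kernel

theorem mE_weight5 {F : Type u} [Field F] [NumberField F]
    (hF : Fintype.card (InfinitePlace F) = 2) (hr : RootIn F pE) :
    RegulatorNonvanishing 5 F := by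
  obtain ⟨x, hx, htop⟩ := hr
  have h := mE_root hx
  exact h.odd_two (by norm_num) (by decide) hF mE_polyOK htop mEL5a
    (h.ker_fast rfl (by norm_num) (by norm_num) mEL5a mE_cert5a mE_cert5a')
    (44500000000000000000000000000000000000000000, 57300000000000000000000000000000000000000000)
    (-56300000000000000000000000000000000000000000, -43700000000000000000000000000000000000000000)
    (fun τ hτ => h.reg_mem (by norm_num) (by norm_num) mE_num5ap1 τ hτ)
    (fun τ hτ => h.reg_mem (by norm_num) (by norm_num) mE_num5ap2 τ hτ)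
    (Or.inr (by norm_num))

end Pool.Agent.Zagier
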