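import Pool.Agent.Zagier.FieldThm
import Pool.Agent.Zagier.Classify
import Pool.Agent.Zagier.FieldF2Def

/-!
# The quartic field of discriminant 272 with a prime above 2
-/

open scoped TensorProduct
open NumberField

namespace Pool.Agent.Zagier

universe u

/-- all approximate roots -/
def mF2A : List (ℤ × ℤ) := [mF2R1, (mF2R1.1, -mF2R1.2), mF2R2, (mF2R2.1, -mF2R2.2)]

theorem mF2_ok : mF2D.ok = true := by decide +kernel

theorem mF2_polyOK : polyOK mF2D.p mF2A [mF2R1, mF2R2] 4 = true := by decide +kernel

theorem mF2_root {K : Type u} [Field K] {x : K} (hx : evP x (pF ++ [1]) = 0) : mF2D.Root x :=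
  ⟨mF2_ok, hx⟩

theorem mF2_im : imOK mF2R1 = true ∧ imOK mF2R2 = true := by decide +kernel


end Pool.Agent.Zagier
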