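import Pool.Agent.Zagier.TwoVarRel

/-!
# A functional equation in two variables in weight 4
-/

namespace Pool.Agent.Zagier

/-- extra letters of `famXT4` -/
def famXT4Lets : List (List (List ℤ)) :=
  [[[0, 1], [-1], [1]],
   [[0, 1], [1, -2], [0, 1]],
   [[1], [-1], [0, 1]],
   [[1], [-2, 1], [1]],
   [[1], [0, -1], [0, 1]],
   [[0, -1], [0, 1], [-1]]]

/-- a two-variable family of weight 4 -/
def famXT4 : List T2 :=
  [⟨1, true, [2, -3, 0, -2, -2, 3], false, [0, -3, 0, -2, -2, 0], [(0, 1), (1, 1), (2, 1)]⟩,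
   ⟨1, false, [1, -3, 0, -2, -2, 3], false, [0, -3, 0, -2, -2, 0], [(3, 1), (4, 1), (5, 1)]⟩,
   ⟨-3, false, [1, -2, 0, -2, -1, 2], false, [0, -2, 0, -2, -1, 0], [(2, 1), (5, 1)]⟩,
   ⟨-3, false, [1, -2, 0, -1, -2, 2], true, [0, -2, 0, -1, -2, 0], [(1, 1), (3, 1)]⟩,
   ⟨-3, true, [1, -2, 0, -1, -1, 2], false, [0, -2, 0, -1, -1, 0], [(0, 1), (4, 1)]⟩,
   ⟨6, true, [0, 1, 0, 0, 1, -1], false, [0, 0, 0, 0, 0, -1], [(5, 1)]⟩,
   ⟨-3, true, [0, 1, 0, 0, 2, -1], true, [0, 0, 0, 0, 0, -1], [(1, 1)]⟩,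
   ⟨6, true, [0, 1, 0, 1, 0, -1], true, [0, 0, 0, 0, 0, -1], [(3, 1)]⟩,
   ⟨6, false, [0, 1, 0, 1, 1, -1], true, [0, 0, 0, 0, 0, -1], [(4, 1)]⟩,
   ⟨-3, true, [0, 1, 0, 2, 0, -1], true, [0, 0, 0, 0, 0, -1], [(2, 1)]⟩,
   ⟨3, false, [1, -1, 0, -2, 0, 1], false, [0, -1, 0, -2, 0, 0], [(5, 1)]⟩,
   ⟨-1, false, [1, 0, 0, -2, 1, 0], false, [0, 0, 0, -2, 0, 0], [(5, 1)]⟩,
   ⟨3, false, [1, -1, 0, 0, 0, 1], true, [0, -1, 0, 0, 0, 0], [(4, 1)]⟩,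
   ⟨-1, true, [1, 0, 0, 1, 1, 0], true, [0, 0, 0, 0, 0, 0], [(4, 1)]⟩,
   ⟨3, false, [1, -1, 0, 0, -2, 1], true, [0, -1, 0, 0, -2, 0], [(3, 1)]⟩,
   ⟨-1, false, [1, 0, 0, 1, -2, 0], true, [0, 0, 0, 0, -2, 0], [(3, 1)]⟩,
   ⟨-6, false, [1, -1, 0, 0, -1, 1], true, [0, -1, 0, 0, -1, 0], [(2, 1)]⟩,
   ⟨1, false, [1, 0, 0, 2, -1, 0], true, [0, 0, 0, 0, -1, 0], [(2, 1)]⟩,
   ⟨-6, false, [1, -1, 0, -1, 0, 1], true, [0, -1, 0, -1, 0, 0], [(1, 1)]⟩,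
   ⟨1, false, [1, 0, 0, -1, 2, 0], true, [0, 0, 0, -1, 0, 0], [(1, 1)]⟩,
   ⟨-6, true, [1, -1, 0, -1, -1, 1], false, [0, -1, 0, -1, -1, 0], [(0, 1)]⟩,
   ⟨-3, true, [0, 1, 0, 0, 0, -1], true, [0, 0, 0, 0, 0, -1], [(0, 1)]⟩,
   ⟨1, true, [1, 0, 0, -1, -1, 0], false, [0, 0, 0, -1, -1, 0], [(0, 1)]⟩,
   ⟨2, false, [0, 0, 0, 1, -2, 0], true, [0, 0, 0, 0, -2, 1], []⟩,
   ⟨2, true, [0, 0, 0, 1, 1, 0], true, [0, 0, 0, 0, 0, 1], []⟩,
   ⟨-2, false, [0, 0, 0, 2, -1, 0], true, [0, 0, 0, 0, -1, 1], []⟩]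

theorem famXT4_a : famChkA famXT4Lets famXT4 = true := by decide +kernel

theorem famXT4_b10 : famChkB 4 famXT4 1 0 = true := by decide +kernel

theorem famXT4_b20 : famChkB 4 famXT4 2 0 = true := by decide +kernel

theorem famXT4_b21 : famChkB 4 famXT4 2 1 = true := by decide +kernel

theorem famXT4_b30 : famChkB 4 famXT4 3 0 = true := by decide +kernel

theorem famXT4_b31 : famChkB 4 famXT4 3 1 = true := by decide +kernel

theorem famXT4_b32 : famChkB 4 famXT4 3 2 = true := by decide +kernel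

theorem famXT4_b40 : famChkB 4 famXT4 4 0 = true := by decide +kernel

theorem famXT4_b41 : famChkB 4 famXT4 4 1 = true := by decide +kernel

theorem famXT4_b42 : famChkB 4 famXT4 4 2 = true := by decide +kernel

theorem famXT4_b43 : famChkB 4 famXT4 4 3 = true := by decide +kernel

theorem famXT4_b50 : famChkB 4 famXT4 5 0 = true := by decide +kernel

theorem famXT4_b51 : famChkB 4 famXT4 5 1 = true := by decide +kernel

theorem famXT4_b52 : famChkB 4 famXT4 5 2 = true := by decide +kernel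

theorem famXT4_b53 : famChkB 4 famXT4 5 3 = true := by decide +kernel

theorem famXT4_b54 : famChkB 4 famXT4 5 4 = true := by decide +kernel

theorem famXT4_c0 : famChkC 4 famXT4 0 6 = true := by decide +kernel

theorem famXT4_c : ∀ k < famXT4Lets.length, chk 6 (4 - 1) (extraL k famXT4) = true := by
  intro k hk
  have hl : famXT4Lets.length = 6 := by decide +kernel
  rw [hl] at hk
  exact famChkC_mem famXT4_c0 k (Nat.zero_le _) hk

theorem famXT4_ok : FamOK2 4 famXT4Lets famXT4 where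
  a := famXT4_a
  p := by decide +kernel
  b := famChkB_all famXT4_b10 famXT4_b20 famXT4_b21 famXT4_b30 famXT4_b31 famXT4_b32 famXT4_b40
    famXT4_b41 famXT4_b42 famXT4_b43 famXT4_b50 famXT4_b51 famXT4_b52 famXT4_b53 famXT4_b54
  c := famXT4_c
  d := by decide +kernel

end Pool.Agent.Zagier
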