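import Pool.Agent.Zagier.TwoVarRel

/-!
# A functional equation in two variables in weight 5
-/

namespace Pool.Agent.Zagier

/-- extra letters of `famTTa` -/
def famTTaLets : List (List (List ℤ)) :=
  [[[1, -1, 1], [-1]],
   [[0, -1, 1], [1]],
   [[-1, 1], [1, -1, 1]],
   [[1, -1], [0, 0, 1]],
   [[0, 0, -1], [1, -1, 1]],
   [[-1, 1, -1], [0, 0, 1]],
   [[0, 1, -1], [1, -1, 1]],
   [[-1], [1, -1, 1]],
   [[-1, 2, -1], [1, -1, 1]],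
   [[0, -1], [1, -1, 1]],
   [[-1, 1, -1], [1, -2, 1]],
   [[0, 1], [1, -2, 1]]]

/-- a part of a two-variable family -/
def famTTa1 : List T2 :=
  [⟨4, false, [4, -1, -1, 1, 1, 0], false, [0, -1, -1, 0, 0, 0], [(3, 1), (5, 1)]⟩,
   ⟨4, false, [1, -4, 1, -1, -1, 0], false, [0, -4, 0, -1, -1, 0], [(10, 1), (11, 1)]⟩,
   ⟨5, true, [2, -2, -1, -2, 1, 0], true, [0, -2, -1, -2, 0, 0], [(9, 1), (11, 1)]⟩,
   ⟨-20, true, [1, 2, -2, -1, -1, 0], false, [0, 0, -2, -1, -1, 0], [(8, 1), (9, 1)]⟩,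
   ⟨5, true, [2, -2, -1, 1, -2, 0], true, [0, -2, -1, 0, -2, 0], [(8, 1), (10, 1)]⟩,
   ⟨5, true, [2, 2, -3, -2, -1, 0], false, [0, 0, -3, -2, -1, 0], [(2, 1), (6, 1), (9, 1)]⟩,
   ⟨1, true, [2, 2, -3, -2, 3, 0], true, [0, 0, -3, -2, 0, 0], [(1, 1), (3, 1), (11, 1)]⟩,
   ⟨5, true, [2, 2, -3, -1, -2, 0], true, [0, 0, -3, -1, -2, 0], [(4, 1), (7, 1), (8, 1)]⟩,
   ⟨-20, false, [1, 1, -2, -1, -1, 0], false, [0, 0, -2, -1, -1, 0], [(6, 1), (7, 1)]⟩,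
   ⟨1, true, [2, 2, -3, 3, -2, 0], true, [0, 0, -3, 0, -2, 0], [(0, 1), (5, 1), (10, 1)]⟩,
   ⟨5, true, [2, 2, -1, -2, 1, 0], true, [0, 0, -1, -2, 0, 0], [(1, 1), (6, 1)]⟩,
   ⟨5, true, [2, -2, 1, -1, 2, 0], false, [0, -2, 0, -1, 0, 0], [(4, 1), (5, 1)]⟩,
   ⟨5, true, [2, 2, -1, 1, -2, 0], false, [0, 0, -1, 0, -2, 0], [(0, 1), (7, 1)]⟩,
   ⟨-20, true, [2, 1, -2, -1, -1, 0], false, [0, 0, -2, -1, -1, 0], [(2, 1), (4, 1)]⟩,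
   ⟨5, true, [2, -2, 1, 2, -1, 0], false, [0, -2, 0, 0, -1, 0], [(2, 1), (3, 1)]⟩,
   ⟨30, true, [0, 0, 1, 0, 1, 0], true, [0, 0, 0, 0, 0, 0], [(6, 1)]⟩,
   ⟨30, true, [0, 0, 1, 1, 0, 0], false, [0, 0, 0, 0, 0, 0], [(7, 1)]⟩,
   ⟨-120, true, [0, 1, -1, -1, 0, 0], true, [0, 0, -1, -1, 0, 0], [(2, 1)]⟩,
   ⟨-60, false, [0, 1, -1, -1, 1, 0], true, [0, 0, -1, -1, 0, 0], [(3, 1)]⟩,
   ⟨-120, true, [0, 1, -1, 0, -1, 0], false, [0, 0, -1, 0, -1, 0], [(4, 1)]⟩,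
   ⟨-60, false, [0, 1, -1, 1, -1, 0], false, [0, 0, -1, 0, -1, 0], [(5, 1)]⟩,
   ⟨30, true, [0, 2, -1, -1, 0, 0], true, [0, 0, -1, -1, 0, 0], [(8, 1)]⟩,
   ⟨30, true, [0, 2, -1, 0, -1, 0], false, [0, 0, -1, 0, -1, 0], [(9, 1)]⟩,
   ⟨-30, true, [0, 2, -1, 0, 1, 0], true, [0, 0, -1, 0, 0, 0], [(11, 1)]⟩,
   ⟨-30, true, [0, 2, -1, 1, 0, 0], false, [0, 0, -1, 0, 0, 0], [(10, 1)]⟩,
   ⟨-40, false, [1, -2, 0, -1, 0, 0], true, [0, -2, 0, -1, 0, 0], [(11, 1)]⟩,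
   ⟨-60, false, [1, 0, -1, -1, 1, 0], true, [0, 0, -1, -1, 0, 0], [(11, 1)]⟩,
   ⟨-40, false, [1, -2, 0, 0, -1, 0], false, [0, -2, 0, 0, -1, 0], [(10, 1)]⟩,
   ⟨-60, false, [1, 0, -1, 1, -1, 0], false, [0, 0, -1, 0, -1, 0], [(10, 1)]⟩,
   ⟨-20, true, [1, -2, 0, -1, 1, 0], true, [0, -2, 0, -1, 0, 0], [(9, 1)]⟩,
   ⟨-120, true, [1, 0, -1, -1, 0, 0], true, [0, 0, -1, -1, 0, 0], [(9, 1)]⟩,
   ⟨-20, true, [1, -2, 0, 1, -1, 0], false, [0, -2, 0, 0, -1, 0], [(8, 1)]⟩,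
   ⟨-120, true, [1, 0, -1, 0, -1, 0], false, [0, 0, -1, 0, -1, 0], [(8, 1)]⟩,
   ⟨-120, false, [1, 1, -1, 0, -1, 0], false, [0, 0, -1, 0, -1, 0], [(7, 1)]⟩,
   ⟨-20, false, [1, 1, 0, 1, -1, 0], false, [0, 0, 0, 0, -1, 0], [(7, 1)]⟩,
   ⟨-120, false, [1, 1, -1, -1, 0, 0], true, [0, 0, -1, -1, 0, 0], [(6, 1)]⟩,
   ⟨-20, false, [1, 1, 0, -1, 1, 0], true, [0, 0, 0, -1, 0, 0], [(6, 1)]⟩,
   ⟨-60, true, [1, 1, -1, -1, 1, 0], true, [0, 0, -1, -1, 0, 0], [(1, 1)]⟩,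
   ⟨4, true, [1, 1, 1, -1, -1, 0], true, [0, 0, 0, -1, -1, 0], [(0, 1), (1, 1)]⟩,
   ⟨-60, true, [1, 1, -1, 1, -1, 0], true, [0, 0, -1, 0, -1, 0], [(0, 1)]⟩,
   ⟨-40, false, [2, -1, 0, 0, 1, 0], false, [0, -1, 0, 0, 0, 0], [(5, 1)]⟩,
   ⟨-30, true, [2, 0, -1, 1, 0, 0], false, [0, 0, -1, 0, 0, 0], [(5, 1)]⟩,
   ⟨-20, true, [2, -1, 0, -1, 1, 0], true, [0, -1, 0, -1, 0, 0], [(4, 1)]⟩,
   ⟨30, true, [2, 0, -1, -1, 0, 0], true, [0, 0, -1, -1, 0, 0], [(4, 1)]⟩,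
   ⟨-40, false, [2, -1, 0, 1, 0, 0], true, [0, -1, 0, 0, 0, 0], [(3, 1)]⟩,
   ⟨-30, true, [2, 0, -1, 0, 1, 0], true, [0, 0, -1, 0, 0, 0], [(3, 1)]⟩,
   ⟨-20, true, [2, -1, 0, 1, -1, 0], false, [0, -1, 0, 0, -1, 0], [(2, 1)]⟩,
   ⟨30, true, [2, 0, -1, 0, -1, 0], false, [0, 0, -1, 0, -1, 0], [(2, 1)]⟩,
   ⟨-30, true, [0, 0, 1, -1, 0, 0], false, [0, 0, 0, -1, 0, 0], [(0, 1)]⟩,
   ⟨-30, true, [0, 0, 1, 0, -1, 0], false, [0, 0, 0, 0, -1, 0], [(1, 1)]⟩,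
   ⟨-40, true, [1, 1, 0, -1, 0, 0], true, [0, 0, 0, -1, 0, 0], [(1, 1)]⟩,
   ⟨-40, true, [1, 1, 0, 0, -1, 0], true, [0, 0, 0, 0, -1, 0], [(0, 1)]⟩,
   ⟨120, true, [0, 1, -1, 0, 0, 0], true, [2, 0, -1, 0, 0, 0], []⟩,
   ⟨120, true, [1, 0, -1, 0, 0, 0], true, [0, 2, -1, 0, 0, 0], []⟩,
   ⟨120, false, [1, 1, -1, 0, 0, 0], true, [0, 0, -1, 0, 0, 0], []⟩,
   ⟨40, false, [1, -2, 0, 0, 0, 0], true, [0, -2, 1, 0, 0, 0], []⟩,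
   ⟨40, true, [1, 1, 0, 0, 0, 0], true, [0, 0, 1, 0, 0, 0], []⟩,
   ⟨40, false, [2, -1, 0, 0, 0, 0], true, [0, -1, 1, 0, 0, 0], []⟩,
   ⟨120, false, [0, 0, 0, 1, -1, 0], true, [0, 0, 0, 0, -1, 0], []⟩,
   ⟨120, true, [0, 0, 0, 0, 1, 0], true, [0, 0, 0, 1, 0, 0], []⟩]

/-- a part of a two-variable family -/
def famTTa2 : List T2 :=
  [⟨120, true, [0, 0, 0, 1, 0, 0], true, [0, 0, 0, 0, 1, 0], []⟩]

/-- a two-variable family of weight 5 -/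
def famTTa : List T2 := famTTa1 ++ famTTa2

theorem famTTa_a1 : famChkA famTTaLets famTTa1 = true := by decide +kernel

theorem famTTa_a2 : famChkA famTTaLets famTTa2 = true := by decide +kernel

theorem famTTa_a : famChkA famTTaLets famTTa = true :=
  famChkA_append famTTa_a1 famTTa_a2

theorem famTTa_b10 : famChkB 5 famTTa 1 0 = true := by decide +kernel

theorem famTTa_b20 : famChkB 5 famTTa 2 0 = true := by decide +kernel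

theorem famTTa_b21 : famChkB 5 famTTa 2 1 = true := by decide +kernel

theorem famTTa_b30 : famChkB 5 famTTa 3 0 = true := by decide +kernel

theorem famTTa_b31 : famChkB 5 famTTa 3 1 = true := by decide +kernel

theorem famTTa_b32 : famChkB 5 famTTa 3 2 = true := by decide +kernel

theorem famTTa_b40 : famChkB 5 famTTa 4 0 = true := by decide +kernel

theorem famTTa_b41 : famChkB 5 famTTa 4 1 = true := by decide +kernel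

theorem famTTa_b42 : famChkB 5 famTTa 4 2 = true := by decide +kernel

theorem famTTa_b43 : famChkB 5 famTTa 4 3 = true := by decide +kernel

theorem famTTa_b50 : famChkB 5 famTTa 5 0 = true := by decide +kernel

theorem famTTa_b51 : famChkB 5 famTTa 5 1 = true := by decide +kernel

theorem famTTa_b52 : famChkB 5 famTTa 5 2 = true := by decide +kernel

theorem famTTa_b53 : famChkB 5 famTTa 5 3 = true := by decide +kernel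

theorem famTTa_b54 : famChkB 5 famTTa 5 4 = true := by decide +kernel

theorem famTTa_c0 : famChkC 5 famTTa 0 12 = true := by decide +kernel

theorem famTTa_c : ∀ k < famTTaLets.length, chk 6 (5 - 1) (extraL k famTTa) = true := by
  intro k hk
  have hl : famTTaLets.length = 12 := by decide +kernel
  rw [hl] at hk
  exact famChkC_mem famTTa_c0 k (Nat.zero_le _) hk

theorem famTTa_ok : FamOK2 5 famTTaLets famTTa where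
  a := famTTa_a
  p := by decide +kernel
  b := famChkB_all famTTa_b10 famTTa_b20 famTTa_b21 famTTa_b30 famTTa_b31 famTTa_b32 famTTa_b40
    famTTa_b41 famTTa_b42 famTTa_b43 famTTa_b50 famTTa_b51 famTTa_b52 famTTa_b53 famTTa_b54
  c := famTTa_c
  d := by decide +kernel

end Pool.Agent.Zagier
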