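import Pool.Agent.Zagier.TwoVarRel

/-!
# A functional equation in two variables in weight 5
-/

namespace Pool.Agent.Zagier

/-- extra letters of `famTTb` -/
def famTTbLets : List (List (List ℤ)) :=
  [[[-1, 1], [1]],
   [[0, 1], [-1]],
   [[1, -1], [0, 1]],
   [[-1], [0, 1]],
   [[1], [-1, 1]],
   [[0, -1], [-1, 1]],
   [[-1, 1, -1], [1, -1, 1], [0, -1]],
   [[1, -1, 1], [-1], [1]],
   [[-1, 1], [1, -1], [0, 0, 1]],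
   [[1, -1], [-1, 1], [1, -1, 1]],
   [[1, -1], [-1, 1, -1], [1, -1, 1]],
   [[1, -1], [-1, 1, 1], [1, -1]],
   [[0, 0, 1], [-1, 1, -2], [0, 0, 1]],
   [[1, -1, 1], [-1, 1, -2], [1, -1, 1]],
   [[0, 0, 1], [-1, 1, -1], [1, -1, 1]],
   [[0, 0, 1], [1, -1, -1], [0, 0, 1]],
   [[1, -1, 1], [0, 0, -1], [0, 0, 1]],
   [[0, 0, 1], [0, 0, -1], [1, -1, 1]],
   [[1, -1, 1], [-2, 2, -1], [1, -1, 1]],
   [[1, -1, 1], [0, 1, -1], [0, -1, 1]],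
   [[1, -1, 1], [-2, 1, -1], [1, -1, 1]],
   [[0, -1, 1], [1, 1, -1], [0, -1, 1]],
   [[1], [-1, -1, 1], [1]],
   [[1], [-1, 1, -1], [1, -1, 1]],
   [[0, -1, 1], [-1, 1, -1], [1, -1, 1]],
   [[1], [-1], [1, -1, 1]],
   [[0, -1, 1], [0, 1, -1], [1, -1, 1]],
   [[0, 1, -1], [0, -1, 1], [1]],
   [[-1], [0, 1, -1], [0, -1, 1]],
   [[-1], [2, -1, 1], [-1]],
   [[1, -2, 1], [-1, 2, -1], [1, -1, 1]],
   [[1, -2, 1], [0, 1], [0, -1]],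
   [[1, -2, 1], [-1, 1, -1], [1, -1, 1]],
   [[1, -2, 1], [-2, 3, -2], [1, -2, 1]],
   [[1, -2, 1], [-1, 3, -1], [1, -2, 1]],
   [[0, 1], [-1, 1, -1], [1, -1, 1]],
   [[1, -1, 1], [-1, 2, -1], [1, -2, 1]],
   [[0, 1], [1, -3, 1], [0, 1]],
   [[0, -1], [0, 1], [1, -2, 1]],
   [[1, -1, 1], [-2, 3, -2], [1, -1, 1]],
   [[0, 1], [0, -1], [1, -1, 1]],
   [[1, -1, 1], [0, -1], [0, 1]]]

/-- a part of a two-variable family -/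
def famTTb1 : List T2 :=
  [⟨5, true, [2, 2, -1, 1, 1, -2], true, [0, 0, -1, 0, 0, -2], [(7, 1), (23, 1)]⟩,
   ⟨-144, false, [1, -6, 2, -2, -2, 3], true, [0, -6, 0, -2, -2, 0], [(39, 1), (40, 1), (41, 1)]⟩,
   ⟨576, true, [1, -4, 1, -1, -1, 2], false, [0, -4, 0, -1, -1, 0], [(35, 1), (41, 1)]⟩,
   ⟨620, false, [1, -4, 1, -2, -1, 2], false, [0, -4, 0, -2, -1, 0], [(6, 1), (40, 1)]⟩,
   ⟨-400, false, [1, 2, -2, -2, 2, -1], true, [0, 0, -2, -2, 0, -1], [(30, 1), (40, 1)]⟩,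
   ⟨700, false, [1, -4, 1, -1, -2, 2], true, [0, -4, 0, -1, -2, 0], [(37, 1), (39, 1)]⟩,
   ⟨-144, false, [1, 2, -2, 2, 2, -1], true, [0, 0, -2, 0, 0, -1], [(36, 1), (41, 1)]⟩,
   ⟨-80, true, [1, 2, -2, -2, -1, 2], false, [0, 0, -2, -2, -1, 0], [(0, 1), (2, 1), (38, 1)]⟩,
   ⟨-44, true, [1, 4, -3, -2, -2, 3], true, [0, 0, -3, -2, -2, 0], [(31, 1), (33, 1), (38, 1)]⟩,
   ⟨-155, true, [2, -6, 1, -2, -2, 3], true, [0, -6, 0, -2, -2, 0], [(6, 1), (35, 1), (37, 1)]⟩,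
   ⟨400, false, [1, 2, -2, -1, 4, -1], true, [0, 0, -2, -1, 0, -1], [(34, 1), (37, 1)]⟩,
   ⟨119, true, [2, -2, -1, -4, 1, 1], true, [0, -2, -1, -4, 0, 0], [(38, 1), (40, 1)]⟩,
   ⟨-124, false, [1, -4, 1, -1, -1, -1], false, [0, -4, 0, -1, -1, -1], [(4, 1), (5, 1), (36, 1)]⟩,
   ⟨-155, true, [2, -2, -1, -2, 2, 1], true, [0, -2, -1, -2, 0, 0], [(1, 1), (3, 1), (37, 1)]⟩,
   ⟨256, true, [1, 2, -2, -1, -1, -1], false, [0, 0, -2, -1, -1, -1], [(32, 1), (35, 1)]⟩,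
   ⟨-274, true, [2, -2, -1, -2, -2, 1], true, [0, -2, -1, -2, -2, 0], [(4, 1), (5, 1), (35, 1)]⟩,
   ⟨119, true, [2, -2, -1, 1, -4, 1], true, [0, -2, -1, 0, -4, 0], [(33, 1), (39, 1)]⟩,
   ⟨80, true, [1, -4, 1, 2, -2, -1], true, [0, -4, 0, 0, -2, -1], [(33, 1), (34, 1)]⟩,
   ⟨-119, true, [2, -2, -1, 1, 1, -2], true, [0, -2, -1, 0, 0, -2], [(32, 1), (36, 1)]⟩,
   ⟨320, true, [1, 2, -2, -1, -2, 2], true, [0, 0, -2, -1, -2, 0], [(1, 1), (3, 1), (33, 1)]⟩,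
   ⟨75, true, [2, 2, -3, -4, -1, 3], false, [0, 0, -3, -4, -1, 0], [(8, 1), (27, 1), (38, 1)]⟩,
   ⟨-44, true, [1, -4, 1, 2, 2, -1], true, [0, -4, 0, 0, 0, -1], [(31, 1), (32, 1)]⟩,
   ⟨-75, true, [2, 2, -3, -2, -2, -1], true, [0, 0, -3, -2, -2, -1], [(10, 1), (24, 1), (35, 1)]⟩,
   ⟨176, false, [1, 2, -2, -1, -1, 2], false, [0, 0, -2, -1, -1, 0], [(4, 1), (5, 1), (31, 1)]⟩,
   ⟨-5, true, [2, 2, -3, -1, -4, 3], true, [0, 0, -3, -1, -4, 0], [(12, 1), (29, 1), (33, 1)]⟩,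
   ⟨-80, true, [1, -4, 1, 4, -1, -1], false, [0, -4, 0, 0, -1, -1], [(0, 1), (2, 1), (30, 1)]⟩,
   ⟨75, true, [2, 2, -3, -4, 3, -1], true, [0, 0, -3, -4, 0, -1], [(9, 1), (26, 1), (40, 1)]⟩,
   ⟨80, false, [1, 1, -3, -2, -2, 3], true, [0, 0, -3, -2, -2, 0], [(27, 1), (28, 1), (29, 1)]⟩,
   ⟨-300, false, [1, 1, -2, -1, -2, 2], true, [0, 0, -2, -1, -2, 0], [(2, 1), (5, 1), (29, 1)]⟩,
   ⟨-320, true, [1, 1, -2, -1, -1, 2], false, [0, 0, -2, -1, -1, 0], [(0, 1), (1, 1), (28, 1)]⟩,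
   ⟨80, false, [1, 1, 1, 2, -2, -1], false, [0, 0, 0, 0, -2, -1], [(22, 1), (29, 1)]⟩,
   ⟨-700, false, [1, 1, -2, -2, -1, 2], false, [0, 0, -2, -2, -1, 0], [(3, 1), (4, 1), (27, 1)]⟩,
   ⟨-400, true, [1, 1, -2, -2, 2, -1], true, [0, 0, -2, -2, 0, -1], [(25, 1), (26, 1)]⟩,
   ⟨-80, false, [1, 1, 1, 4, -1, -1], false, [0, 0, 0, 0, -1, -1], [(3, 1), (4, 1), (25, 1)]⟩,
   ⟨-20, true, [1, 1, 2, -2, -2, 3], true, [0, 0, 0, -2, -2, 0], [(19, 1), (20, 1), (26, 1)]⟩,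
   ⟨380, false, [1, 1, -2, -1, -1, -1], false, [0, 0, -2, -1, -1, -1], [(23, 1), (24, 1)]⟩,
   ⟨80, false, [1, 1, 1, -1, -1, 2], false, [0, 0, 0, -1, -1, 0], [(19, 1), (24, 1)]⟩,
   ⟨80, false, [1, 1, 1, 2, 2, -1], false, [0, 0, 0, 0, 0, -1], [(23, 1), (28, 1)]⟩,
   ⟨-80, true, [2, 2, -3, -2, 6, -1], true, [0, 0, -3, -2, 0, -1], [(11, 1), (21, 1), (37, 1)]⟩,
   ⟨400, true, [1, 1, -2, -1, 4, -1], true, [0, 0, -2, -1, 0, -1], [(21, 1), (22, 1)]⟩,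
   ⟨-5, true, [2, 2, -3, 3, -4, -1], true, [0, 0, -3, 0, -4, -1], [(13, 1), (20, 1), (39, 1)]⟩,
   ⟨80, true, [1, 1, 1, -1, -2, 2], true, [0, 0, 0, -1, -2, 0], [(20, 1), (21, 1)]⟩,
   ⟨-75, true, [2, 2, -3, -1, -1, -2], false, [0, 0, -3, -1, -1, -2], [(14, 1), (23, 1), (32, 1)]⟩,
   ⟨80, false, [2, 2, -3, -2, 3, -2], true, [0, 0, -3, -2, 0, -2], [(17, 1), (25, 1), (30, 1)]⟩,
   ⟨-80, false, [2, 2, -3, -1, 6, -2], true, [0, 0, -3, -1, 0, -2], [(15, 1), (22, 1), (34, 1)]⟩,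
   ⟨-20, true, [1, 1, -2, 2, 2, -1], true, [0, 0, -2, 0, 0, -1], [(7, 1), (19, 1)]⟩,
   ⟨20, false, [2, -3, 2, -2, -2, 3], true, [0, -3, 0, -2, -2, 0], [(16, 1), (17, 1), (18, 1)]⟩,
   ⟨-80, false, [2, -2, 1, -1, -2, 2], true, [0, -2, 0, -1, -2, 0], [(15, 1), (18, 1)]⟩,
   ⟨-300, false, [2, 1, -2, -2, 2, -1], true, [0, 0, -2, -2, 0, -1], [(9, 1), (17, 1)]⟩,
   ⟨-75, true, [2, -2, 1, -1, -1, 2], false, [0, -2, 0, -1, -1, 0], [(14, 1), (16, 1)]⟩,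
   ⟨20, false, [2, 1, -2, 2, -2, -1], true, [0, 0, -2, 0, -2, -1], [(13, 1), (18, 1)]⟩,
   ⟨320, false, [2, 1, -2, -1, 4, -1], true, [0, 0, -2, -1, 0, -1], [(11, 1), (15, 1)]⟩,
   ⟨-5, true, [2, 2, -1, -4, 1, 1], true, [0, 0, -1, -4, 0, 0], [(26, 1), (27, 1)]⟩,
   ⟨5, true, [2, 2, -3, 3, 3, -2], true, [0, 0, -3, 0, 0, -2], [(7, 1), (16, 1), (36, 1)]⟩,
   ⟨300, true, [2, 1, -2, -1, -1, -1], false, [0, 0, -2, -1, -1, -1], [(10, 1), (14, 1)]⟩,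
   ⟨5, true, [2, 2, -1, -2, -2, 1], false, [0, 0, -1, -2, -2, 0], [(0, 1), (1, 1), (24, 1)]⟩,
   ⟨-5, true, [2, -2, 1, -1, 4, -1], false, [0, -2, 0, -1, 0, -1], [(12, 1), (13, 1)]⟩,
   ⟨-5, true, [2, 2, -1, 1, -4, 1], false, [0, 0, -1, 0, -4, 0], [(20, 1), (29, 1)]⟩,
   ⟨20, true, [2, 1, -2, -1, -2, 2], true, [0, 0, -2, -1, -2, 0], [(0, 1), (4, 1), (12, 1)]⟩,
   ⟨-80, true, [2, -2, 1, 2, -2, -1], false, [0, -2, 0, 0, -2, -1], [(0, 1), (4, 1), (11, 1)]⟩]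

/-- a part of a two-variable family -/
def famTTb2 : List T2 :=
  [⟨-75, true, [2, -2, 1, 2, 2, -1], false, [0, -2, 0, 0, 0, -1], [(2, 1), (3, 1), (10, 1)]⟩,
   ⟨75, true, [2, -2, 1, 4, -1, -1], false, [0, -2, 0, 0, -1, -1], [(8, 1), (9, 1)]⟩,
   ⟨-300, true, [2, 1, -2, -2, -1, 2], false, [0, 0, -2, -2, -1, 0], [(1, 1), (5, 1), (8, 1)]⟩,
   ⟨480, false, [0, 0, 1, -1, -1, 1], true, [0, 0, 0, -1, -1, 0], [(19, 1)]⟩,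
   ⟨450, true, [0, 0, 1, -1, 0, 1], false, [0, 0, 0, -1, 0, 0], [(20, 1)]⟩,
   ⟨-1200, true, [0, 0, 1, 0, -2, 1], false, [0, 0, 0, 0, -2, 0], [(21, 1)]⟩,
   ⟨1650, true, [0, 0, 1, 0, -1, 1], false, [0, 0, 0, 0, -1, 0], [(26, 1)]⟩,
   ⟨-1170, true, [0, 0, 1, 0, 0, 1], false, [0, 0, 0, 0, 0, 0], [(24, 1)]⟩,
   ⟨-750, true, [0, 0, 1, 0, 1, -1], true, [0, 0, 0, 0, 0, -1], [(27, 1)]⟩,
   ⟨-1200, false, [0, 0, 1, 1, -2, 0], true, [0, 0, 0, 0, -2, 0], [(22, 1)]⟩,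
   ⟨-1950, true, [0, 0, 1, 1, 0, -1], false, [0, 0, 0, 0, 0, -1], [(29, 1)]⟩,
   ⟨-1920, false, [0, 0, 1, 1, 1, -1], false, [0, 0, 0, 0, 0, -1], [(28, 1)]⟩,
   ⟨-1170, true, [0, 0, 1, 1, 1, 0], true, [0, 0, 0, 0, 0, 0], [(23, 1)]⟩,
   ⟨1200, false, [0, 0, 1, 2, -1, 0], true, [0, 0, 0, 0, -1, 0], [(25, 1)]⟩,
   ⟨-1800, true, [0, 1, -1, -2, 0, 1], true, [0, 0, -1, -2, 0, 0], [(8, 1)]⟩,
   ⟨-1800, false, [0, 1, -1, -2, 1, 0], true, [0, 0, -1, -2, 0, 0], [(9, 1)]⟩,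
   ⟨1800, true, [0, 1, -1, -1, -1, 0], false, [0, 0, -1, -1, -1, 0], [(10, 1)]⟩,
   ⟨1920, false, [0, 1, -1, -1, 2, 0], true, [0, 0, -1, -1, 0, 0], [(11, 1)]⟩,
   ⟨120, true, [0, 1, -1, 0, -2, 1], true, [0, 0, -1, 0, -2, 0], [(12, 1)]⟩,
   ⟨1800, true, [0, 1, -1, 0, 0, -1], true, [0, 0, -1, 0, 0, -1], [(14, 1)]⟩,
   ⟨-2400, true, [0, 1, -1, 0, 1, -1], true, [0, 0, -1, 0, 0, -1], [(17, 1)]⟩,
   ⟨1920, true, [0, 1, -1, 0, 2, -1], true, [0, 0, -1, 0, 0, -1], [(15, 1)]⟩,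
   ⟨120, false, [0, 1, -1, 1, -2, 0], true, [0, 0, -1, 0, -2, 0], [(13, 1)]⟩,
   ⟨-480, true, [0, 1, -1, 1, 0, -1], true, [0, 0, -1, 0, 0, -1], [(18, 1)]⟩,
   ⟨-600, false, [0, 1, -1, 1, 1, -1], true, [0, 0, -1, 0, 0, -1], [(16, 1)]⟩,
   ⟨1200, false, [0, 2, -1, -2, 1, 0], true, [0, 0, -1, -2, 0, 0], [(30, 1)]⟩,
   ⟨-54, true, [0, 2, -1, -1, -1, 0], false, [0, 0, -1, -1, -1, 0], [(32, 1)]⟩,
   ⟨1056, false, [0, 2, -1, -1, -1, 1], true, [0, 0, -1, -1, -1, 0], [(31, 1)]⟩,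
   ⟨-90, true, [0, 2, -1, -1, 0, 1], false, [0, 0, -1, -1, 0, 0], [(33, 1)]⟩,
   ⟨-1200, false, [0, 2, -1, -1, 2, 0], true, [0, 0, -1, -1, 0, 0], [(34, 1)]⟩,
   ⟨1110, true, [0, 2, -1, 0, -1, 1], false, [0, 0, -1, 0, -1, 0], [(38, 1)]⟩,
   ⟨-984, true, [0, 2, -1, 0, 0, -1], true, [0, 0, -1, 0, 0, -1], [(35, 1)]⟩,
   ⟨3510, true, [0, 2, -1, 0, 1, -1], true, [0, 0, -1, 0, 0, -1], [(40, 1)]⟩,
   ⟨-2130, true, [0, 2, -1, 0, 2, -1], true, [0, 0, -1, 0, 0, -1], [(37, 1)]⟩,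
   ⟨2310, true, [0, 2, -1, 1, 0, -1], true, [0, 0, -1, 0, 0, -1], [(39, 1)]⟩,
   ⟨3456, false, [0, 2, -1, 1, 1, -1], true, [0, 0, -1, 0, 0, -1], [(41, 1)]⟩,
   ⟨1146, true, [0, 2, -1, 1, 1, 0], true, [0, 0, -1, 0, 0, 0], [(36, 1)]⟩,
   ⟨-930, true, [0, 2, -1, 2, 0, -1], false, [0, 0, -1, 0, 0, -1], [(6, 1)]⟩,
   ⟨-864, false, [1, -2, 0, 0, 0, 1], true, [0, -2, 0, 0, 0, 0], [(41, 1)]⟩,
   ⟨576, true, [1, 0, -1, 1, 1, 0], true, [0, 0, -1, 0, 0, 0], [(41, 1)]⟩,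
   ⟨-1560, false, [1, -2, 0, -2, 0, 1], true, [0, -2, 0, -2, 0, 0], [(40, 1)]⟩,
   ⟨-1620, false, [1, 0, -1, -2, 1, 0], true, [0, 0, -1, -2, 0, 0], [(40, 1)]⟩,
   ⟨-1960, false, [1, -2, 0, 0, -2, 1], true, [0, -2, 0, 0, -2, 0], [(39, 1)]⟩,
   ⟨-420, false, [1, 0, -1, 1, -2, 0], true, [0, 0, -1, 0, -2, 0], [(39, 1)]⟩,
   ⟨3720, false, [1, -2, 0, 0, -1, 1], false, [0, -2, 0, 0, -1, 0], [(6, 1)]⟩,
   ⟨620, false, [1, 0, -1, 2, -1, 0], false, [0, 0, -1, 0, -1, 0], [(6, 1)]⟩,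
   ⟨-520, true, [1, -2, 0, -2, 1, 0], true, [0, -2, 0, -2, 0, 0], [(38, 1)]⟩,
   ⟨-2460, true, [1, 0, -1, -2, 0, 1], true, [0, 0, -1, -2, 0, 0], [(38, 1)]⟩,
   ⟨3320, false, [1, -2, 0, -1, 0, 1], true, [0, -2, 0, -1, 0, 0], [(37, 1)]⟩,
   ⟨1820, false, [1, 0, -1, -1, 2, 0], true, [0, 0, -1, -1, 0, 0], [(37, 1)]⟩,
   ⟨1096, false, [1, -2, 0, 0, 0, -1], true, [0, -2, 0, 0, 0, -1], [(36, 1)]⟩,
   ⟨996, false, [1, 0, -1, 1, 1, -1], true, [0, 0, -1, 0, 0, -1], [(36, 1)]⟩,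
   ⟨4416, true, [1, -2, 0, -1, -1, 1], false, [0, -2, 0, -1, -1, 0], [(35, 1)]⟩,
   ⟨2816, true, [1, 0, -1, -1, -1, 0], false, [0, 0, -1, -1, -1, 0], [(35, 1)]⟩,
   ⟨-400, false, [1, -2, 0, 1, 0, -1], true, [0, -2, 0, 0, 0, -1], [(34, 1)]⟩,
   ⟨1200, true, [1, 0, -1, 0, 2, -1], true, [0, 0, -1, 0, 0, -1], [(34, 1)]⟩,
   ⟨-920, true, [1, -2, 0, 1, -2, 0], true, [0, -2, 0, 0, -2, 0], [(33, 1)]⟩,
   ⟨-1260, true, [1, 0, -1, 0, -2, 1], true, [0, 0, -1, 0, -2, 0], [(33, 1)]⟩,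
   ⟨696, true, [1, -2, 0, 1, 1, -1], true, [0, -2, 0, 0, 0, -1], [(32, 1)]⟩,
   ⟨2196, true, [1, 0, -1, 0, 0, -1], true, [0, 0, -1, 0, 0, -1], [(32, 1)]⟩]

/-- a part of a two-variable family -/
def famTTb3 : List T2 :=
  [⟨176, false, [1, -2, 0, 1, 1, 0], true, [0, -2, 0, 0, 0, 0], [(31, 1)]⟩,
   ⟨-264, true, [1, 0, -1, 0, 0, 1], true, [0, 0, -1, 0, 0, 0], [(31, 1)]⟩,
   ⟨400, false, [1, -2, 0, 2, 0, -1], true, [0, -2, 0, 0, 0, -1], [(30, 1)]⟩,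
   ⟨-1200, true, [1, 0, -1, 0, 1, -1], true, [0, 0, -1, 0, 0, -1], [(30, 1)]⟩,
   ⟨600, false, [1, 1, -1, 0, -2, 1], false, [0, 0, -1, 0, -2, 0], [(29, 1)]⟩,
   ⟨-300, false, [1, 1, 0, 1, -2, 0], false, [0, 0, 0, 0, -2, 0], [(29, 1)]⟩,
   ⟨480, false, [1, 1, -1, 0, 0, 1], false, [0, 0, -1, 0, 0, 0], [(28, 1)]⟩,
   ⟨-320, true, [1, 1, 0, 1, 1, 0], false, [0, 0, 0, 0, 0, 0], [(28, 1)]⟩,
   ⟨-600, false, [1, 1, -1, -2, 0, 1], true, [0, 0, -1, -2, 0, 0], [(27, 1)]⟩,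
   ⟨100, false, [1, 1, 0, -2, 1, 0], true, [0, 0, 0, -2, 0, 0], [(27, 1)]⟩,
   ⟨-1000, true, [1, 1, -1, -2, 1, 0], true, [0, 0, -1, -2, 0, 0], [(26, 1)]⟩,
   ⟨300, true, [1, 1, 0, -2, 0, 1], true, [0, 0, 0, -2, 0, 0], [(26, 1)]⟩,
   ⟨-1200, false, [1, 1, -1, 0, 1, -1], true, [0, 0, -1, 0, 0, -1], [(25, 1)]⟩,
   ⟨400, true, [1, 1, 0, 2, 0, -1], true, [0, 0, 0, 0, 0, -1], [(25, 1)]⟩,
   ⟨1080, false, [1, 1, -1, -1, -1, 0], false, [0, 0, -1, -1, -1, 0], [(24, 1)]⟩,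
   ⟨-420, false, [1, 1, 0, -1, -1, 1], false, [0, 0, 0, -1, -1, 0], [(24, 1)]⟩,
   ⟨1080, false, [1, 1, -1, 0, 0, -1], true, [0, 0, -1, 0, 0, -1], [(23, 1)]⟩,
   ⟨-420, false, [1, 1, 0, 1, 1, -1], true, [0, 0, 0, 0, 0, -1], [(23, 1)]⟩,
   ⟨1200, false, [1, 1, -1, 0, 2, -1], true, [0, 0, -1, 0, 0, -1], [(22, 1)]⟩,
   ⟨-400, true, [1, 1, 0, 1, 0, -1], true, [0, 0, 0, 0, 0, -1], [(22, 1)]⟩,
   ⟨1200, true, [1, 1, -1, -1, 2, 0], true, [0, 0, -1, -1, 0, 0], [(21, 1)]⟩,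
   ⟨-400, true, [1, 1, 0, -1, 0, 1], true, [0, 0, 0, -1, 0, 0], [(21, 1)]⟩,
   ⟨200, true, [1, 1, -1, 1, -2, 0], true, [0, 0, -1, 0, -2, 0], [(20, 1)]⟩,
   ⟨-100, true, [1, 1, 0, 0, -2, 1], true, [0, 0, 0, 0, -2, 0], [(20, 1)]⟩,
   ⟨80, false, [1, 1, -1, 1, 1, 0], true, [0, 0, -1, 0, 0, 0], [(19, 1)]⟩,
   ⟨-120, true, [1, 1, 0, 0, 0, 1], true, [0, 0, 0, 0, 0, 0], [(19, 1)]⟩,
   ⟨-120, true, [1, 1, -1, 1, 1, -1], true, [0, 0, -1, 0, 0, -1], [(7, 1)]⟩,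
   ⟨120, false, [2, -1, 0, 0, -2, 1], true, [0, -1, 0, 0, -2, 0], [(18, 1)]⟩,
   ⟨-80, false, [2, 0, -1, 1, -2, 0], true, [0, 0, -1, 0, -2, 0], [(18, 1)]⟩,
   ⟨-200, false, [2, -1, 0, -2, 0, 1], true, [0, -1, 0, -2, 0, 0], [(17, 1)]⟩,
   ⟨400, false, [2, 0, -1, -2, 1, 0], true, [0, 0, -1, -2, 0, 0], [(17, 1)]⟩,
   ⟨100, false, [2, -1, 0, 0, 0, 1], true, [0, -1, 0, 0, 0, 0], [(16, 1)]⟩,
   ⟨-50, true, [2, 0, -1, 1, 1, 0], true, [0, 0, -1, 0, 0, 0], [(16, 1)]⟩,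
   ⟨320, false, [2, -1, 0, -1, 0, 1], true, [0, -1, 0, -1, 0, 0], [(15, 1)]⟩,
   ⟨-480, false, [2, 0, -1, -1, 2, 0], true, [0, 0, -1, -1, 0, 0], [(15, 1)]⟩,
   ⟨300, true, [2, -1, 0, -1, -1, 1], false, [0, -1, 0, -1, -1, 0], [(14, 1)]⟩,
   ⟨-450, true, [2, 0, -1, -1, -1, 0], false, [0, 0, -1, -1, -1, 0], [(14, 1)]⟩,
   ⟨20, false, [2, -1, 0, 0, 2, -1], true, [0, -1, 0, 0, 0, -1], [(13, 1)]⟩,
   ⟨-30, true, [2, 0, -1, 1, 0, -1], true, [0, 0, -1, 0, 0, -1], [(13, 1)]⟩,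
   ⟨20, true, [2, -1, 0, -1, 2, 0], false, [0, -1, 0, -1, 0, 0], [(12, 1)]⟩,
   ⟨-30, true, [2, 0, -1, -1, 0, 1], false, [0, 0, -1, -1, 0, 0], [(12, 1)]⟩,
   ⟨320, false, [2, -1, 0, 1, 0, -1], true, [0, -1, 0, 0, 0, -1], [(11, 1)]⟩,
   ⟨-480, true, [2, 0, -1, 0, 2, -1], true, [0, 0, -1, 0, 0, -1], [(11, 1)]⟩,
   ⟨300, true, [2, -1, 0, 1, 1, -1], true, [0, -1, 0, 0, 0, -1], [(10, 1)]⟩,
   ⟨-450, true, [2, 0, -1, 0, 0, -1], true, [0, 0, -1, 0, 0, -1], [(10, 1)]⟩,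
   ⟨-300, false, [2, -1, 0, 2, 0, -1], true, [0, -1, 0, 0, 0, -1], [(9, 1)]⟩,
   ⟨450, true, [2, 0, -1, 0, 1, -1], true, [0, 0, -1, 0, 0, -1], [(9, 1)]⟩,
   ⟨-300, true, [2, -1, 0, 2, -1, 0], false, [0, -1, 0, 0, -1, 0], [(8, 1)]⟩,
   ⟨450, true, [2, 0, -1, 0, -1, 1], false, [0, 0, -1, 0, -1, 0], [(8, 1)]⟩,
   ⟨30, true, [0, 0, 1, -1, -1, 0], false, [0, 0, 0, -1, -1, 0], [(7, 1)]⟩,
   ⟨-20, true, [1, 1, 0, 0, 0, -1], true, [0, 0, 0, 0, 0, -1], [(7, 1)]⟩,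
   ⟨-155, true, [2, -2, -1, 2, -2, 1], true, [0, -2, -1, 0, -2, 0], [(0, 1), (2, 1), (6, 1)]⟩,
   ⟨2400, false, [0, 1, -1, -1, -1, 1], false, [0, 0, -1, -1, -1, 0], [(2, 1), (3, 1)]⟩,
   ⟨2520, true, [0, 1, -1, -1, 0, 1], true, [0, 0, -1, -1, 0, 0], [(0, 1), (4, 1)]⟩,
   ⟨600, true, [0, 1, -1, 0, -1, 1], false, [0, 0, -1, 0, -1, 0], [(1, 1), (5, 1)]⟩,
   ⟨600, false, [1, 1, -1, -1, 0, 1], false, [0, 0, -1, -1, 0, 0], [(2, 1), (5, 1)]⟩,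
   ⟨5316, false, [1, 0, -1, -1, -1, 1], false, [0, 0, -1, -1, -1, 0], [(4, 1), (5, 1)]⟩,
   ⟨-600, false, [1, 1, -1, 0, -1, 1], false, [0, 0, -1, 0, -1, 0], [(3, 1), (4, 1)]⟩,
   ⟨4320, true, [1, 0, -1, -1, 0, 1], true, [0, 0, -1, -1, 0, 0], [(1, 1), (3, 1)]⟩,
   ⟨480, true, [1, 1, -1, -1, -1, 1], true, [0, 0, -1, -1, -1, 0], [(0, 1), (1, 1)]⟩]

/-- a part of a two-variable family -/
def famTTb4 : List T2 :=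
  [⟨3120, true, [1, 0, -1, 0, -1, 1], false, [0, 0, -1, 0, -1, 0], [(0, 1), (2, 1)]⟩,
   ⟨150, true, [0, 0, 1, 0, 2, -1], false, [0, 0, 0, 0, 0, -1], [(2, 1), (5, 1)]⟩,
   ⟨1350, true, [0, 0, 1, 2, 0, -1], false, [0, 0, 0, 0, 0, -1], [(3, 1), (4, 1)]⟩,
   ⟨-780, true, [0, 2, -1, 0, -2, 1], false, [0, 0, -1, 0, -2, 0], [(1, 1), (3, 1)]⟩,
   ⟨420, true, [0, 2, -1, -2, 0, 1], true, [0, 0, -1, -2, 0, 0], [(0, 1), (2, 1)]⟩,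
   ⟨366, true, [0, 2, -1, 0, 0, 1], false, [0, 0, -1, 0, 0, 0], [(4, 1), (5, 1)]⟩,
   ⟨150, true, [2, 0, -1, -2, 0, 1], true, [0, 0, -1, -2, 0, 0], [(1, 1), (5, 1)]⟩,
   ⟨1416, false, [1, -2, 0, -1, -1, 0], false, [0, -2, 0, -1, -1, 0], [(4, 1), (5, 1)]⟩,
   ⟨-300, false, [1, 1, 0, -1, 2, 0], false, [0, 0, 0, -1, 0, 0], [(2, 1), (5, 1)]⟩,
   ⟨-330, true, [2, 0, -1, 0, -2, 1], false, [0, 0, -1, 0, -2, 0], [(0, 1), (4, 1)]⟩,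
   ⟨100, false, [1, 1, 0, 2, -1, 0], false, [0, 0, 0, 0, -1, 0], [(3, 1), (4, 1)]⟩,
   ⟨-300, true, [2, -1, 0, -2, 1, 0], true, [0, -1, 0, -2, 0, 0], [(1, 1), (5, 1)]⟩,
   ⟨-300, true, [2, 0, -1, 0, 0, 1], false, [0, 0, -1, 0, 0, 0], [(2, 1), (3, 1)]⟩,
   ⟨320, true, [1, -2, 0, -1, 2, 0], true, [0, -2, 0, -1, 0, 0], [(1, 1), (3, 1)]⟩,
   ⟨20, true, [2, -1, 0, 1, -2, 0], false, [0, -1, 0, 0, -2, 0], [(0, 1), (4, 1)]⟩,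
   ⟨720, true, [1, -2, 0, 2, -1, 0], false, [0, -2, 0, 0, -1, 0], [(0, 1), (2, 1)]⟩,
   ⟨2400, false, [0, 1, 0, 1, -1, 0], false, [0, 0, 0, 0, -1, 0], [(3, 1)]⟩,
   ⟨2400, false, [0, 1, 0, -1, 1, 0], true, [0, 0, 0, -1, 0, 0], [(2, 1)]⟩,
   ⟨2400, true, [0, 1, 0, 1, 0, 0], true, [0, 0, 0, 0, 0, 0], [(4, 1)]⟩,
   ⟨2400, true, [0, 1, 0, 0, 1, 0], false, [0, 0, 0, 0, 0, 0], [(5, 1)]⟩,
   ⟨2400, false, [1, -1, 0, -1, 0, 0], false, [0, -1, 0, -1, 0, 0], [(5, 1)]⟩,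
   ⟨2400, false, [1, 0, 0, -1, 1, 0], false, [0, 0, 0, -1, 0, 0], [(5, 1)]⟩,
   ⟨2400, false, [1, -1, 0, 0, -1, 0], true, [0, -1, 0, 0, -1, 0], [(4, 1)]⟩,
   ⟨2400, false, [1, 0, 0, 1, -1, 0], true, [0, 0, 0, 0, -1, 0], [(4, 1)]⟩,
   ⟨2400, false, [1, -1, 0, 0, 1, 0], false, [0, -1, 0, 0, 0, 0], [(3, 1)]⟩,
   ⟨2400, true, [1, 0, 0, 1, 0, 0], false, [0, 0, 0, 0, 0, 0], [(3, 1)]⟩,
   ⟨2400, true, [1, -1, 0, -1, 1, 0], false, [0, -1, 0, -1, 0, 0], [(1, 1)]⟩,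
   ⟨-320, true, [1, 1, 0, -1, -1, 0], true, [0, 0, 0, -1, -1, 0], [(0, 1), (1, 1)]⟩,
   ⟨2400, true, [1, -1, 0, 1, -1, 0], false, [0, -1, 0, 0, -1, 0], [(0, 1)]⟩,
   ⟨2400, false, [1, -1, 0, 1, 0, 0], true, [0, -1, 0, 0, 0, 0], [(2, 1)]⟩,
   ⟨2400, true, [1, 0, 0, 0, 1, 0], true, [0, 0, 0, 0, 0, 0], [(2, 1)]⟩,
   ⟨180, true, [0, 0, 1, 0, 0, -1], false, [0, 0, 0, 0, 0, -1], [(0, 1), (1, 1)]⟩,
   ⟨2400, true, [0, 1, 0, -1, 0, 0], true, [0, 0, 0, -1, 0, 0], [(0, 1)]⟩,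
   ⟨2400, true, [0, 1, 0, 0, -1, 0], true, [0, 0, 0, 0, -1, 0], [(1, 1)]⟩,
   ⟨2400, true, [1, 0, 0, -1, 0, 0], false, [0, 0, 0, -1, 0, 0], [(1, 1)]⟩,
   ⟨2400, true, [1, 0, 0, 0, -1, 0], false, [0, 0, 0, 0, -1, 0], [(0, 1)]⟩,
   ⟨-3720, true, [0, 0, 0, 0, 1, -1], true, [0, 0, 0, 2, 0, -1], []⟩,
   ⟨1920, true, [0, 0, 0, 0, 2, -1], true, [0, 0, 0, 1, 0, -1], []⟩,
   ⟨-2760, true, [0, 0, 0, 1, 0, -1], true, [0, 0, 0, 0, 2, -1], []⟩,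
   ⟨960, true, [0, 0, 0, 2, 0, -1], true, [0, 0, 0, 0, 1, -1], []⟩,
   ⟨-2040, true, [0, 1, -1, 0, 0, 0], true, [2, 0, -1, 0, 0, 0], []⟩,
   ⟨-1092, true, [0, 2, -1, 0, 0, 0], true, [1, 0, -1, 0, 0, 0], []⟩,
   ⟨-3792, true, [1, 0, -1, 0, 0, 0], true, [0, 2, -1, 0, 0, 0], []⟩,
   ⟨660, true, [2, 0, -1, 0, 0, 0], true, [0, 1, -1, 0, 0, 0], []⟩,
   ⟨-4872, false, [0, 0, 0, 1, 1, -1], true, [0, 0, 0, 0, 0, -1], []⟩,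
   ⟨-1560, false, [1, 1, -1, 0, 0, 0], true, [0, 0, -1, 0, 0, 0], []⟩,
   ⟨360, false, [0, 0, 0, 1, -2, 0], true, [0, 0, 0, 0, -2, 1], []⟩,
   ⟨-1752, true, [0, 0, 0, 1, 1, 0], true, [0, 0, 0, 0, 0, 1], []⟩,
   ⟨-600, false, [0, 0, 0, 2, -1, 0], true, [0, 0, 0, 0, -1, 1], []⟩,
   ⟨-1992, false, [1, -2, 0, 0, 0, 0], true, [0, -2, 1, 0, 0, 0], []⟩,
   ⟨240, true, [1, 1, 0, 0, 0, 0], true, [0, 0, 1, 0, 0, 0], []⟩,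
   ⟨-240, false, [2, -1, 0, 0, 0, 0], true, [0, -1, 1, 0, 0, 0], []⟩,
   ⟨-4800, false, [0, 0, 0, 1, -1, 0], true, [0, 0, 0, 0, -1, 0], []⟩,
   ⟨-4800, false, [1, -1, 0, 0, 0, 0], true, [0, -1, 0, 0, 0, 0], []⟩,
   ⟨-4800, true, [0, 0, 0, 0, 1, 0], true, [0, 0, 0, 1, 0, 0], []⟩,
   ⟨-4800, true, [0, 0, 0, 1, 0, 0], true, [0, 0, 0, 0, 1, 0], []⟩,
   ⟨-4800, true, [0, 1, 0, 0, 0, 0], true, [1, 0, 0, 0, 0, 0], []⟩,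
   ⟨-4800, true, [1, 0, 0, 0, 0, 0], true, [0, 1, 0, 0, 0, 0], []⟩,
   ⟨-192, true, [0, 0, 0, 0, 0, 1], true, [0, 0, 0, 1, 1, 0], []⟩,
   ⟨1140, true, [0, 0, 1, 0, 0, 0], true, [1, 1, 0, 0, 0, 0], []⟩]

/-- a two-variable family of weight 5 -/
def famTTb : List T2 := famTTb1 ++ (famTTb2 ++ (famTTb3 ++ famTTb4))

theorem famTTb_a1 : famChkA famTTbLets famTTb1 = true := by decide +kernel

theorem famTTb_a2 : famChkA famTTbLets famTTb2 = true := by decide +kernel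

theorem famTTb_a3 : famChkA famTTbLets famTTb3 = true := by decide +kernel

theorem famTTb_a4 : famChkA famTTbLets famTTb4 = true := by decide +kernel

theorem famTTb_a : famChkA famTTbLets famTTb = true :=
  famChkA_append famTTb_a1 (famChkA_append famTTb_a2 (famChkA_append famTTb_a3 famTTb_a4))

theorem famTTb_b10 : famChkB 5 famTTb 1 0 = true := by decide +kernel

theorem famTTb_b20 : famChkB 5 famTTb 2 0 = true := by decide +kernel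

theorem famTTb_b21 : famChkB 5 famTTb 2 1 = true := by decide +kernel

theorem famTTb_b30 : famChkB 5 famTTb 3 0 = true := by decide +kernel

theorem famTTb_b31 : famChkB 5 famTTb 3 1 = true := by decide +kernel

theorem famTTb_b32 : famChkB 5 famTTb 3 2 = true := by decide +kernel

theorem famTTb_b40 : famChkB 5 famTTb 4 0 = true := by decide +kernel

theorem famTTb_b41 : famChkB 5 famTTb 4 1 = true := by decide +kernel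

theorem famTTb_b42 : famChkB 5 famTTb 4 2 = true := by decide +kernel

theorem famTTb_b43 : famChkB 5 famTTb 4 3 = true := by decide +kernel

theorem famTTb_b50 : famChkB 5 famTTb 5 0 = true := by decide +kernel

theorem famTTb_b51 : famChkB 5 famTTb 5 1 = true := by decide +kernel

theorem famTTb_b52 : famChkB 5 famTTb 5 2 = true := by decide +kernel

theorem famTTb_b53 : famChkB 5 famTTb 5 3 = true := by decide +kernel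

theorem famTTb_b54 : famChkB 5 famTTb 5 4 = true := by decide +kernel

theorem famTTb_c0 : famChkC 5 famTTb 0 12 = true := by decide +kernel

theorem famTTb_c1 : famChkC 5 famTTb 12 12 = true := by decide +kernel

theorem famTTb_c2 : famChkC 5 famTTb 24 12 = true := by decide +kernel

theorem famTTb_c3 : famChkC 5 famTTb 36 6 = true := by decide +kernel

theorem famTTb_c : ∀ k < famTTbLets.length, chk 6 (5 - 1) (extraL k famTTb) = true := by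
  intro k hk
  have hl : famTTbLets.length = 42 := by decide +kernel
  rw [hl] at hk
  rcases Nat.lt_or_ge k 12 with h0 | g0
  · exact famChkC_mem famTTb_c0 k (Nat.zero_le _) h0
  rcases Nat.lt_or_ge k 24 with h1 | g1
  · exact famChkC_mem famTTb_c1 k g0 h1
  rcases Nat.lt_or_ge k 36 with h2 | g2
  · exact famChkC_mem famTTb_c2 k g1 h2
  exact famChkC_mem famTTb_c3 k g2 hk

theorem famTTb_ok : FamOK2 5 famTTbLets famTTb where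
  a := famTTb_a
  p := by decide +kernel
  b := famChkB_all famTTb_b10 famTTb_b20 famTTb_b21 famTTb_b30 famTTb_b31 famTTb_b32 famTTb_b40
    famTTb_b41 famTTb_b42 famTTb_b43 famTTb_b50 famTTb_b51 famTTb_b52 famTTb_b53 famTTb_b54
  c := famTTb_c
  d := by decide +kernel

end Pool.Agent.Zagier
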