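import Pool.Agent.Zagier.TwoVarRel

/-!
# A functional equation in two variables in weight 5
-/

namespace Pool.Agent.Zagier

/-- extra letters of `famTTc` -/
def famTTcLets : List (List (List ℤ)) :=
  [[[-1, 1], [1]],
   [[0, 1], [-1]],
   [[1, -1], [0, 1]],
   [[-1], [0, 1]],
   [[1], [-1, 1]],
   [[0, -1], [-1, 1]],
   [[-1, 1, -1], [1, -1, 1], [0, -1]],
   [[1, -1, 1], [-1], [1]],
   [[-1, 1], [1, -1], [0, 0, 1]],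
   [[1, -1], [-1, 1], [1, -1, 1]],
   [[1, -1], [-1, 1, -1], [1, -1, 1]],
   [[1, -1], [-1, 1, 1], [1, -1]],
   [[1, -1, 1], [-1, 1, -2], [1, -1, 1]],
   [[0, 0, 1], [-1, 1, -1], [1, -1, 1]],
   [[1, -1, 1], [-1, 1], [1, -1]],
   [[0, 0, 1], [1, -1], [-1, 1]],
   [[0, 0, 1], [1, -1, -1], [0, 0, 1]],
   [[1, -1, 1], [0, 0, -1], [0, 0, 1]],
   [[0, 0, 1], [0, 0, -1], [1, -1, 1]],
   [[1, -1, 1], [-2, 2, -1], [1, -1, 1]],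
   [[1, -1, 1], [0, 1, -1], [0, -1, 1]],
   [[1, -1, 1], [-2, 1, -1], [1, -1, 1]],
   [[0, -1, 1], [1, 1, -1], [0, -1, 1]],
   [[1], [-1, -1, 1], [1]],
   [[1], [-1, 1, -1], [1, -1, 1]],
   [[0, -1, 1], [-1, 1, -1], [1, -1, 1]],
   [[1], [-1], [1, -1, 1]],
   [[0, -1, 1], [0, 1, -1], [1, -1, 1]],
   [[0, 1, -1], [0, -1, 1], [1]],
   [[-1], [0, 1, -1], [0, -1, 1]],
   [[-1], [2, -1, 1], [-1]],
   [[1, -2, 1], [-1, 2, -1], [1, -1, 1]],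
   [[1, -2, 1], [0, 1], [0, -1]],
   [[1, -2, 1], [-1, 1, -1], [1, -1, 1]],
   [[1, -2, 1], [-2, 3, -2], [1, -2, 1]],
   [[1, -2, 1], [-1, 3, -1], [1, -2, 1]],
   [[0, 1], [-1, 1, -1], [1, -1, 1]],
   [[1, -1, 1], [-1, 2, -1], [1, -2, 1]],
   [[0, 1], [1, -3, 1], [0, 1]],
   [[0, -1], [0, 1], [1, -2, 1]],
   [[1, -1, 1], [-2, 3, -2], [1, -1, 1]],
   [[0, 1], [0, -1], [1, -1, 1]],
   [[1, -1, 1], [0, -1], [0, 1]]]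

/-- a part of a two-variable family -/
def famTTc1 : List T2 :=
  [⟨5, false, [6, -1, -2, 2, 2, -3], true, [0, -1, -2, 0, 0, -3], [(9, 1), (12, 1), (14, 1)]⟩,
   ⟨-788, false, [1, -6, 2, -2, -2, 3], true, [0, -6, 0, -2, -2, 0], [(40, 1), (41, 1), (42, 1)]⟩,
   ⟨3152, true, [1, -4, 1, -1, -1, 2], false, [0, -4, 0, -1, -1, 0], [(36, 1), (42, 1)]⟩,
   ⟨3440, false, [1, -4, 1, -2, -1, 2], false, [0, -4, 0, -2, -1, 0], [(6, 1), (41, 1)]⟩,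
   ⟨-2100, false, [1, 2, -2, -2, 2, -1], true, [0, 0, -2, -2, 0, -1], [(31, 1), (41, 1)]⟩,
   ⟨3860, false, [1, -4, 1, -1, -2, 2], true, [0, -4, 0, -1, -2, 0], [(38, 1), (40, 1)]⟩,
   ⟨-788, false, [1, 2, -2, 2, 2, -1], true, [0, 0, -2, 0, 0, -1], [(37, 1), (42, 1)]⟩,
   ⟨-340, true, [1, 2, -2, -2, -1, 2], false, [0, 0, -2, -2, -1, 0], [(0, 1), (2, 1), (39, 1)]⟩,
   ⟨-268, true, [1, 4, -3, -2, -2, 3], true, [0, 0, -3, -2, -2, 0], [(32, 1), (34, 1), (39, 1)]⟩,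
   ⟨-860, true, [2, -6, 1, -2, -2, 3], true, [0, -6, 0, -2, -2, 0], [(6, 1), (36, 1), (38, 1)]⟩,
   ⟨2100, false, [1, 2, -2, -1, 4, -1], true, [0, 0, -2, -1, 0, -1], [(35, 1), (38, 1)]⟩,
   ⟨688, true, [2, -2, -1, -4, 1, 1], true, [0, -2, -1, -4, 0, 0], [(39, 1), (41, 1)]⟩,
   ⟨-708, false, [1, -4, 1, -1, -1, -1], false, [0, -4, 0, -1, -1, -1], [(4, 1), (5, 1), (37, 1)]⟩,
   ⟨-860, true, [2, -2, -1, -2, 2, 1], true, [0, -2, -1, -2, 0, 0], [(1, 1), (3, 1), (38, 1)]⟩,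
   ⟨1312, true, [1, 2, -2, -1, -1, -1], false, [0, 0, -2, -1, -1, -1], [(33, 1), (36, 1)]⟩,
   ⟨-1548, true, [2, -2, -1, -2, -2, 1], true, [0, -2, -1, -2, -2, 0], [(4, 1), (5, 1), (36, 1)]⟩,
   ⟨688, true, [2, -2, -1, 1, -4, 1], true, [0, -2, -1, 0, -4, 0], [(34, 1), (40, 1)]⟩,
   ⟨420, true, [1, -4, 1, 2, -2, -1], true, [0, -4, 0, 0, -2, -1], [(34, 1), (35, 1)]⟩,
   ⟨-688, true, [2, -2, -1, 1, 1, -2], true, [0, -2, -1, 0, 0, -2], [(33, 1), (37, 1)]⟩,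
   ⟨1760, true, [1, 2, -2, -1, -2, 2], true, [0, 0, -2, -1, -2, 0], [(1, 1), (3, 1), (34, 1)]⟩,
   ⟨420, true, [2, 2, -3, -4, -1, 3], false, [0, 0, -3, -4, -1, 0], [(8, 1), (28, 1), (39, 1)]⟩,
   ⟨-288, true, [1, -4, 1, 2, 2, -1], true, [0, -4, 0, 0, 0, -1], [(32, 1), (33, 1)]⟩,
   ⟨-400, true, [2, 2, -3, -2, -2, -1], true, [0, 0, -3, -2, -2, -1], [(10, 1), (25, 1), (36, 1)]⟩,
   ⟨972, false, [1, 2, -2, -1, -1, 2], false, [0, 0, -2, -1, -1, 0], [(4, 1), (5, 1), (32, 1)]⟩,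
   ⟨-420, true, [1, -4, 1, 4, -1, -1], false, [0, -4, 0, 0, -1, -1], [(0, 1), (2, 1), (31, 1)]⟩,
   ⟨400, true, [2, 2, -3, -4, 3, -1], true, [0, 0, -3, -4, 0, -1], [(9, 1), (27, 1), (41, 1)]⟩,
   ⟨420, false, [1, 1, -3, -2, -2, 3], true, [0, 0, -3, -2, -2, 0], [(28, 1), (29, 1), (30, 1)]⟩,
   ⟨-1680, false, [1, 1, -2, -1, -2, 2], true, [0, 0, -2, -1, -2, 0], [(2, 1), (5, 1), (30, 1)]⟩,
   ⟨-1780, true, [1, 1, -2, -1, -1, 2], false, [0, 0, -2, -1, -1, 0], [(0, 1), (1, 1), (29, 1)]⟩,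
   ⟨420, false, [1, 1, 1, 2, -2, -1], false, [0, 0, 0, 0, -2, -1], [(23, 1), (30, 1)]⟩,
   ⟨-3780, false, [1, 1, -2, -2, -1, 2], false, [0, 0, -2, -2, -1, 0], [(3, 1), (4, 1), (28, 1)]⟩,
   ⟨-2100, true, [1, 1, -2, -2, 2, -1], true, [0, 0, -2, -2, 0, -1], [(26, 1), (27, 1)]⟩,
   ⟨-420, false, [1, 1, 1, 4, -1, -1], false, [0, 0, 0, 0, -1, -1], [(3, 1), (4, 1), (26, 1)]⟩,
   ⟨-100, true, [1, 1, 2, -2, -2, 3], true, [0, 0, 0, -2, -2, 0], [(20, 1), (21, 1), (27, 1)]⟩,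
   ⟨2000, false, [1, 1, -2, -1, -1, -1], false, [0, 0, -2, -1, -1, -1], [(24, 1), (25, 1)]⟩,
   ⟨400, false, [1, 1, 1, -1, -1, 2], false, [0, 0, 0, -1, -1, 0], [(20, 1), (25, 1)]⟩,
   ⟨400, false, [1, 1, 1, 2, 2, -1], false, [0, 0, 0, 0, 0, -1], [(24, 1), (29, 1)]⟩,
   ⟨-420, true, [2, 2, -3, -2, 6, -1], true, [0, 0, -3, -2, 0, -1], [(11, 1), (22, 1), (38, 1)]⟩,
   ⟨2100, true, [1, 1, -2, -1, 4, -1], true, [0, 0, -2, -1, 0, -1], [(22, 1), (23, 1)]⟩,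
   ⟨-20, true, [2, 2, -3, 3, -4, -1], true, [0, 0, -3, 0, -4, -1], [(12, 1), (21, 1), (40, 1)]⟩,
   ⟨420, true, [1, 1, 1, -1, -2, 2], true, [0, 0, 0, -1, -2, 0], [(21, 1), (22, 1)]⟩,
   ⟨-400, true, [2, 2, -3, -1, -1, -2], false, [0, 0, -3, -1, -1, -2], [(13, 1), (24, 1), (33, 1)]⟩,
   ⟨420, false, [2, 2, -3, -2, 3, -2], true, [0, 0, -3, -2, 0, -2], [(18, 1), (26, 1), (31, 1)]⟩,
   ⟨-420, false, [2, 2, -3, -1, 6, -2], true, [0, 0, -3, -1, 0, -2], [(16, 1), (23, 1), (35, 1)]⟩,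
   ⟨-100, true, [1, 1, -2, 2, 2, -1], true, [0, 0, -2, 0, 0, -1], [(7, 1), (20, 1)]⟩,
   ⟨105, false, [2, -3, 2, -2, -2, 3], true, [0, -3, 0, -2, -2, 0], [(17, 1), (18, 1), (19, 1)]⟩,
   ⟨-420, false, [2, -2, 1, -1, -2, 2], true, [0, -2, 0, -1, -2, 0], [(16, 1), (19, 1)]⟩,
   ⟨-1575, false, [2, 1, -2, -2, 2, -1], true, [0, 0, -2, -2, 0, -1], [(9, 1), (18, 1)]⟩,
   ⟨-400, true, [2, -2, 1, -1, -1, 2], false, [0, -2, 0, -1, -1, 0], [(13, 1), (17, 1)]⟩,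
   ⟨105, false, [2, 1, -2, 2, -2, -1], true, [0, 0, -2, 0, -2, -1], [(12, 1), (19, 1)]⟩,
   ⟨25, false, [2, 1, -2, 2, 2, -1], true, [0, 0, -2, 0, 0, -1], [(14, 1), (17, 1)]⟩,
   ⟨1680, false, [2, 1, -2, -1, 4, -1], true, [0, 0, -2, -1, 0, -1], [(11, 1), (16, 1)]⟩,
   ⟨20, false, [2, -2, 1, -1, -1, -1], true, [0, -2, 0, -1, -1, -1], [(14, 1), (15, 1)]⟩,
   ⟨-80, false, [2, 1, -2, -1, -1, 2], false, [0, 0, -2, -1, -1, 0], [(2, 1), (3, 1), (15, 1)]⟩,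
   ⟨20, false, [2, 2, -3, -1, -1, 3], false, [0, 0, -3, -1, -1, 0], [(15, 1), (29, 1), (32, 1)]⟩,
   ⟨20, true, [2, 2, -3, 3, 3, -2], true, [0, 0, -3, 0, 0, -2], [(7, 1), (17, 1), (37, 1)]⟩,
   ⟨1600, true, [2, 1, -2, -1, -1, -1], false, [0, 0, -2, -1, -1, -1], [(10, 1), (13, 1)]⟩,
   ⟨-420, true, [2, -2, 1, 2, -2, -1], false, [0, -2, 0, 0, -2, -1], [(0, 1), (4, 1), (11, 1)]⟩,
   ⟨-400, true, [2, -2, 1, 2, 2, -1], false, [0, -2, 0, 0, 0, -1], [(2, 1), (3, 1), (10, 1)]⟩,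
   ⟨420, true, [2, -2, 1, 4, -1, -1], false, [0, -2, 0, 0, -1, -1], [(8, 1), (9, 1)]⟩]

/-- a part of a two-variable family -/
def famTTc2 : List T2 :=
  [⟨-1680, true, [2, 1, -2, -2, -1, 2], false, [0, 0, -2, -2, -1, 0], [(1, 1), (5, 1), (8, 1)]⟩,
   ⟨2400, false, [0, 0, 1, -1, -1, 1], true, [0, 0, 0, -1, -1, 0], [(20, 1)]⟩,
   ⟨2100, true, [0, 0, 1, -1, 0, 1], false, [0, 0, 0, -1, 0, 0], [(21, 1)]⟩,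
   ⟨-6300, true, [0, 0, 1, 0, -2, 1], false, [0, 0, 0, 0, -2, 0], [(22, 1)]⟩,
   ⟨8400, true, [0, 0, 1, 0, -1, 1], false, [0, 0, 0, 0, -1, 0], [(27, 1)]⟩,
   ⟨-6000, true, [0, 0, 1, 0, 0, 1], false, [0, 0, 0, 0, 0, 0], [(25, 1)]⟩,
   ⟨-3780, true, [0, 0, 1, 0, 1, -1], true, [0, 0, 0, 0, 0, -1], [(28, 1)]⟩,
   ⟨-6300, false, [0, 0, 1, 1, -2, 0], true, [0, 0, 0, 0, -2, 0], [(23, 1)]⟩,
   ⟨-10080, true, [0, 0, 1, 1, 0, -1], false, [0, 0, 0, 0, 0, -1], [(30, 1)]⟩,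
   ⟨-9780, false, [0, 0, 1, 1, 1, -1], false, [0, 0, 0, 0, 0, -1], [(29, 1)]⟩,
   ⟨-6000, true, [0, 0, 1, 1, 1, 0], true, [0, 0, 0, 0, 0, 0], [(24, 1)]⟩,
   ⟨6300, false, [0, 0, 1, 2, -1, 0], true, [0, 0, 0, 0, -1, 0], [(26, 1)]⟩,
   ⟨-10080, true, [0, 1, -1, -2, 0, 1], true, [0, 0, -1, -2, 0, 0], [(8, 1)]⟩,
   ⟨-9800, false, [0, 1, -1, -2, 1, 0], true, [0, 0, -1, -2, 0, 0], [(9, 1)]⟩,
   ⟨9600, true, [0, 1, -1, -1, -1, 0], false, [0, 0, -1, -1, -1, 0], [(10, 1)]⟩,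
   ⟨10080, false, [0, 1, -1, -1, 2, 0], true, [0, 0, -1, -1, 0, 0], [(11, 1)]⟩,
   ⟨9600, true, [0, 1, -1, 0, 0, -1], true, [0, 0, -1, 0, 0, -1], [(13, 1)]⟩,
   ⟨-480, true, [0, 1, -1, 0, 0, 1], true, [0, 0, -1, 0, 0, 0], [(15, 1)]⟩,
   ⟨-12600, true, [0, 1, -1, 0, 1, -1], true, [0, 0, -1, 0, 0, -1], [(18, 1)]⟩,
   ⟨10080, true, [0, 1, -1, 0, 2, -1], true, [0, 0, -1, 0, 0, -1], [(16, 1)]⟩,
   ⟨280, false, [0, 1, -1, 1, -2, 0], true, [0, 0, -1, 0, -2, 0], [(12, 1)]⟩,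
   ⟨-2520, true, [0, 1, -1, 1, 0, -1], true, [0, 0, -1, 0, 0, -1], [(19, 1)]⟩,
   ⟨-3000, false, [0, 1, -1, 1, 1, -1], true, [0, 0, -1, 0, 0, -1], [(17, 1)]⟩,
   ⟨-200, true, [0, 1, -1, 1, 1, 0], true, [0, 0, -1, 0, 0, 0], [(14, 1)]⟩,
   ⟨6300, false, [0, 2, -1, -2, 1, 0], true, [0, 0, -1, -2, 0, 0], [(31, 1)]⟩,
   ⟨192, true, [0, 2, -1, -1, -1, 0], false, [0, 0, -1, -1, -1, 0], [(33, 1)]⟩,
   ⟨6732, false, [0, 2, -1, -1, -1, 1], true, [0, 0, -1, -1, -1, 0], [(32, 1)]⟩,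
   ⟨240, true, [0, 2, -1, -1, 0, 1], false, [0, 0, -1, -1, 0, 0], [(34, 1)]⟩,
   ⟨-6300, false, [0, 2, -1, -1, 2, 0], true, [0, 0, -1, -1, 0, 0], [(35, 1)]⟩,
   ⟨6540, true, [0, 2, -1, 0, -1, 1], false, [0, 0, -1, 0, -1, 0], [(39, 1)]⟩,
   ⟨-4968, true, [0, 2, -1, 0, 0, -1], true, [0, 0, -1, 0, 0, -1], [(36, 1)]⟩,
   ⟨18720, true, [0, 2, -1, 0, 1, -1], true, [0, 0, -1, 0, 0, -1], [(41, 1)]⟩,
   ⟨-11460, true, [0, 2, -1, 0, 2, -1], true, [0, 0, -1, 0, 0, -1], [(38, 1)]⟩,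
   ⟨12420, true, [0, 2, -1, 1, 0, -1], true, [0, 0, -1, 0, 0, -1], [(40, 1)]⟩,
   ⟨18912, false, [0, 2, -1, 1, 1, -1], true, [0, 0, -1, 0, 0, -1], [(42, 1)]⟩,
   ⟨6492, true, [0, 2, -1, 1, 1, 0], true, [0, 0, -1, 0, 0, 0], [(37, 1)]⟩,
   ⟨-5160, true, [0, 2, -1, 2, 0, -1], false, [0, 0, -1, 0, 0, -1], [(6, 1)]⟩,
   ⟨-4728, false, [1, -2, 0, 0, 0, 1], true, [0, -2, 0, 0, 0, 0], [(42, 1)]⟩,
   ⟨3152, true, [1, 0, -1, 1, 1, 0], true, [0, 0, -1, 0, 0, 0], [(42, 1)]⟩,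
   ⟨-8920, false, [1, -2, 0, -2, 0, 1], true, [0, -2, 0, -2, 0, 0], [(41, 1)]⟩,
   ⟨-9040, false, [1, 0, -1, -2, 1, 0], true, [0, 0, -1, -2, 0, 0], [(41, 1)]⟩,
   ⟨-11020, false, [1, -2, 0, 0, -2, 1], true, [0, -2, 0, 0, -2, 0], [(40, 1)]⟩,
   ⟨-2740, false, [1, 0, -1, 1, -2, 0], true, [0, 0, -1, 0, -2, 0], [(40, 1)]⟩,
   ⟨20640, false, [1, -2, 0, 0, -1, 1], false, [0, -2, 0, 0, -1, 0], [(6, 1)]⟩,
   ⟨3440, false, [1, 0, -1, 2, -1, 0], false, [0, 0, -1, 0, -1, 0], [(6, 1)]⟩,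
   ⟨-3020, true, [1, -2, 0, -2, 1, 0], true, [0, -2, 0, -2, 0, 0], [(39, 1)]⟩,
   ⟨-14100, true, [1, 0, -1, -2, 0, 1], true, [0, 0, -1, -2, 0, 0], [(39, 1)]⟩,
   ⟨18540, false, [1, -2, 0, -1, 0, 1], true, [0, -2, 0, -1, 0, 0], [(38, 1)]⟩,
   ⟨9740, false, [1, 0, -1, -1, 2, 0], true, [0, 0, -1, -1, 0, 0], [(38, 1)]⟩,
   ⟨6292, false, [1, -2, 0, 0, 0, -1], true, [0, -2, 0, 0, 0, -1], [(37, 1)]⟩,
   ⟨5892, false, [1, 0, -1, 1, 1, -1], true, [0, 0, -1, 0, 0, -1], [(37, 1)]⟩,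
   ⟨24832, true, [1, -2, 0, -1, -1, 1], false, [0, -2, 0, -1, -1, 0], [(36, 1)]⟩,
   ⟨15632, true, [1, 0, -1, -1, -1, 0], false, [0, 0, -1, -1, -1, 0], [(36, 1)]⟩,
   ⟨-2100, false, [1, -2, 0, 1, 0, -1], true, [0, -2, 0, 0, 0, -1], [(35, 1)]⟩,
   ⟨6300, true, [1, 0, -1, 0, 2, -1], true, [0, 0, -1, 0, 0, -1], [(35, 1)]⟩,
   ⟨-5120, true, [1, -2, 0, 1, -2, 0], true, [0, -2, 0, 0, -2, 0], [(34, 1)]⟩,
   ⟨-7800, true, [1, 0, -1, 0, -2, 1], true, [0, 0, -1, 0, -2, 0], [(34, 1)]⟩,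
   ⟨4192, true, [1, -2, 0, 1, 1, -1], true, [0, -2, 0, 0, 0, -1], [(33, 1)]⟩,
   ⟨12192, true, [1, 0, -1, 0, 0, -1], true, [0, 0, -1, 0, 0, -1], [(33, 1)]⟩,
   ⟨1172, false, [1, -2, 0, 1, 1, 0], true, [0, -2, 0, 0, 0, 0], [(32, 1)]⟩]

/-- a part of a two-variable family -/
def famTTc3 : List T2 :=
  [⟨-1908, true, [1, 0, -1, 0, 0, 1], true, [0, 0, -1, 0, 0, 0], [(32, 1)]⟩,
   ⟨2100, false, [1, -2, 0, 2, 0, -1], true, [0, -2, 0, 0, 0, -1], [(31, 1)]⟩,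
   ⟨-6300, true, [1, 0, -1, 0, 1, -1], true, [0, 0, -1, 0, 0, -1], [(31, 1)]⟩,
   ⟨2520, false, [1, 1, -1, 0, -2, 1], false, [0, 0, -1, 0, -2, 0], [(30, 1)]⟩,
   ⟨-1680, false, [1, 1, 0, 1, -2, 0], false, [0, 0, 0, 0, -2, 0], [(30, 1)]⟩,
   ⟨2220, false, [1, 1, -1, 0, 0, 1], false, [0, 0, -1, 0, 0, 0], [(29, 1)]⟩,
   ⟨-1580, true, [1, 1, 0, 1, 1, 0], false, [0, 0, 0, 0, 0, 0], [(29, 1)]⟩,
   ⟨-3780, false, [1, 1, -1, -2, 0, 1], true, [0, 0, -1, -2, 0, 0], [(28, 1)]⟩,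
   ⟨420, false, [1, 1, 0, -2, 1, 0], true, [0, 0, 0, -2, 0, 0], [(28, 1)]⟩,
   ⟨-5600, true, [1, 1, -1, -2, 1, 0], true, [0, 0, -1, -2, 0, 0], [(27, 1)]⟩,
   ⟨1400, true, [1, 1, 0, -2, 0, 1], true, [0, 0, 0, -2, 0, 0], [(27, 1)]⟩,
   ⟨-6300, false, [1, 1, -1, 0, 1, -1], true, [0, 0, -1, 0, 0, -1], [(26, 1)]⟩,
   ⟨2100, true, [1, 1, 0, 2, 0, -1], true, [0, 0, 0, 0, 0, -1], [(26, 1)]⟩,
   ⟨6000, false, [1, 1, -1, -1, -1, 0], false, [0, 0, -1, -1, -1, 0], [(25, 1)]⟩,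
   ⟨-2000, false, [1, 1, 0, -1, -1, 1], false, [0, 0, 0, -1, -1, 0], [(25, 1)]⟩,
   ⟨6000, false, [1, 1, -1, 0, 0, -1], true, [0, 0, -1, 0, 0, -1], [(24, 1)]⟩,
   ⟨-2000, false, [1, 1, 0, 1, 1, -1], true, [0, 0, 0, 0, 0, -1], [(24, 1)]⟩,
   ⟨6300, false, [1, 1, -1, 0, 2, -1], true, [0, 0, -1, 0, 0, -1], [(23, 1)]⟩,
   ⟨-2100, true, [1, 1, 0, 1, 0, -1], true, [0, 0, 0, 0, 0, -1], [(23, 1)]⟩,
   ⟨6300, true, [1, 1, -1, -1, 2, 0], true, [0, 0, -1, -1, 0, 0], [(22, 1)]⟩,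
   ⟨-2100, true, [1, 1, 0, -1, 0, 1], true, [0, 0, 0, -1, 0, 0], [(22, 1)]⟩,
   ⟨700, true, [1, 1, -1, 1, -2, 0], true, [0, 0, -1, 0, -2, 0], [(21, 1)]⟩,
   ⟨-700, true, [1, 1, 0, 0, -2, 1], true, [0, 0, 0, 0, -2, 0], [(21, 1)]⟩,
   ⟨400, false, [1, 1, -1, 1, 1, 0], true, [0, 0, -1, 0, 0, 0], [(20, 1)]⟩,
   ⟨-600, true, [1, 1, 0, 0, 0, 1], true, [0, 0, 0, 0, 0, 0], [(20, 1)]⟩,
   ⟨-300, true, [1, 1, -1, 1, 1, -1], true, [0, 0, -1, 0, 0, -1], [(7, 1)]⟩,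
   ⟨-20, true, [1, 1, 1, -1, -1, -1], true, [0, 0, 0, -1, -1, -1], [(0, 1), (1, 1), (7, 1)]⟩,
   ⟨630, false, [2, -1, 0, 0, -2, 1], true, [0, -1, 0, 0, -2, 0], [(19, 1)]⟩,
   ⟨-420, false, [2, 0, -1, 1, -2, 0], true, [0, 0, -1, 0, -2, 0], [(19, 1)]⟩,
   ⟨-1050, false, [2, -1, 0, -2, 0, 1], true, [0, -1, 0, -2, 0, 0], [(18, 1)]⟩,
   ⟨2100, false, [2, 0, -1, -2, 1, 0], true, [0, 0, -1, -2, 0, 0], [(18, 1)]⟩,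
   ⟨550, false, [2, -1, 0, 0, 0, 1], true, [0, -1, 0, 0, 0, 0], [(17, 1)]⟩,
   ⟨-300, true, [2, 0, -1, 1, 1, 0], true, [0, 0, -1, 0, 0, 0], [(17, 1)]⟩,
   ⟨1680, false, [2, -1, 0, -1, 0, 1], true, [0, -1, 0, -1, 0, 0], [(16, 1)]⟩,
   ⟨-2520, false, [2, 0, -1, -1, 2, 0], true, [0, 0, -1, -1, 0, 0], [(16, 1)]⟩,
   ⟨-80, false, [2, -1, 0, -1, -1, 0], true, [0, -1, 0, -1, -1, 0], [(15, 1)]⟩,
   ⟨120, false, [2, 0, -1, -1, -1, 1], true, [0, 0, -1, -1, -1, 0], [(15, 1)]⟩,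
   ⟨-150, false, [2, -1, 0, 0, 0, -1], true, [0, -1, 0, 0, 0, -1], [(14, 1)]⟩,
   ⟨-300, false, [2, 0, -1, 1, 1, -1], true, [0, 0, -1, 0, 0, -1], [(14, 1)]⟩,
   ⟨1600, true, [2, -1, 0, -1, -1, 1], false, [0, -1, 0, -1, -1, 0], [(13, 1)]⟩,
   ⟨-2400, true, [2, 0, -1, -1, -1, 0], false, [0, 0, -1, -1, -1, 0], [(13, 1)]⟩,
   ⟨-70, false, [2, -1, 0, 0, 2, -1], true, [0, -1, 0, 0, 0, -1], [(12, 1)]⟩,
   ⟨-420, true, [2, 0, -1, 1, 0, -1], true, [0, 0, -1, 0, 0, -1], [(12, 1)]⟩,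
   ⟨1680, false, [2, -1, 0, 1, 0, -1], true, [0, -1, 0, 0, 0, -1], [(11, 1)]⟩,
   ⟨-2520, true, [2, 0, -1, 0, 2, -1], true, [0, 0, -1, 0, 0, -1], [(11, 1)]⟩,
   ⟨1600, true, [2, -1, 0, 1, 1, -1], true, [0, -1, 0, 0, 0, -1], [(10, 1)]⟩,
   ⟨-2400, true, [2, 0, -1, 0, 0, -1], true, [0, 0, -1, 0, 0, -1], [(10, 1)]⟩,
   ⟨-1750, false, [2, -1, 0, 2, 0, -1], true, [0, -1, 0, 0, 0, -1], [(9, 1)]⟩,
   ⟨2100, true, [2, 0, -1, 0, 1, -1], true, [0, 0, -1, 0, 0, -1], [(9, 1)]⟩,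
   ⟨-1680, true, [2, -1, 0, 2, -1, 0], false, [0, -1, 0, 0, -1, 0], [(8, 1)]⟩,
   ⟨2520, true, [2, 0, -1, 0, -1, 1], false, [0, 0, -1, 0, -1, 0], [(8, 1)]⟩,
   ⟨300, true, [0, 0, 1, -1, -1, 0], false, [0, 0, 0, -1, -1, 0], [(7, 1)]⟩,
   ⟨100, true, [1, 1, 0, 0, 0, -1], true, [0, 0, 0, 0, 0, -1], [(7, 1)]⟩,
   ⟨-860, true, [2, -2, -1, 2, -2, 1], true, [0, -2, -1, 0, -2, 0], [(0, 1), (2, 1), (6, 1)]⟩,
   ⟨12960, false, [0, 1, -1, -1, -1, 1], false, [0, 0, -1, -1, -1, 0], [(2, 1), (3, 1)]⟩,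
   ⟨13440, true, [0, 1, -1, -1, 0, 1], true, [0, 0, -1, -1, 0, 0], [(0, 1), (4, 1)]⟩,
   ⟨3360, true, [0, 1, -1, 0, -1, 1], false, [0, 0, -1, 0, -1, 0], [(1, 1), (5, 1)]⟩,
   ⟨3360, false, [1, 1, -1, -1, 0, 1], false, [0, 0, -1, -1, 0, 0], [(2, 1), (5, 1)]⟩,
   ⟨29892, false, [1, 0, -1, -1, -1, 1], false, [0, 0, -1, -1, -1, 0], [(4, 1), (5, 1)]⟩,
   ⟨-2940, false, [1, 1, -1, 0, -1, 1], false, [0, 0, -1, 0, -1, 0], [(3, 1), (4, 1)]⟩]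

/-- a part of a two-variable family -/
def famTTc4 : List T2 :=
  [⟨24000, true, [1, 0, -1, -1, 0, 1], true, [0, 0, -1, -1, 0, 0], [(1, 1), (3, 1)]⟩,
   ⟨3060, true, [1, 1, -1, -1, -1, 1], true, [0, 0, -1, -1, -1, 0], [(0, 1), (1, 1)]⟩,
   ⟨17700, true, [1, 0, -1, 0, -1, 1], false, [0, 0, -1, 0, -1, 0], [(0, 1), (2, 1)]⟩,
   ⟨840, true, [0, 0, 1, 0, 2, -1], false, [0, 0, 0, 0, 0, -1], [(2, 1), (5, 1)]⟩,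
   ⟨7140, true, [0, 0, 1, 2, 0, -1], false, [0, 0, 0, 0, 0, -1], [(3, 1), (4, 1)]⟩,
   ⟨-4320, true, [0, 2, -1, 0, -2, 1], false, [0, 0, -1, 0, -2, 0], [(1, 1), (3, 1)]⟩,
   ⟨1980, true, [0, 2, -1, -2, 0, 1], true, [0, 0, -1, -2, 0, 0], [(0, 1), (2, 1)]⟩,
   ⟨2172, true, [0, 2, -1, 0, 0, 1], false, [0, 0, -1, 0, 0, 0], [(4, 1), (5, 1)]⟩,
   ⟨840, true, [2, 0, -1, -2, 0, 1], true, [0, 0, -1, -2, 0, 0], [(1, 1), (5, 1)]⟩,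
   ⟨8132, false, [1, -2, 0, -1, -1, 0], false, [0, -2, 0, -1, -1, 0], [(4, 1), (5, 1)]⟩,
   ⟨-1600, false, [1, 1, 0, -1, 2, 0], false, [0, 0, 0, -1, 0, 0], [(2, 1), (5, 1)]⟩,
   ⟨-1680, true, [2, 0, -1, 0, -2, 1], false, [0, 0, -1, 0, -2, 0], [(0, 1), (4, 1)]⟩,
   ⟨500, false, [1, 1, 0, 2, -1, 0], false, [0, 0, 0, 0, -1, 0], [(3, 1), (4, 1)]⟩,
   ⟨-1600, true, [2, -1, 0, -2, 1, 0], true, [0, -1, 0, -2, 0, 0], [(1, 1), (5, 1)]⟩,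
   ⟨-1560, true, [2, 0, -1, 0, 0, 1], false, [0, 0, -1, 0, 0, 0], [(2, 1), (3, 1)]⟩,
   ⟨1840, true, [1, -2, 0, -1, 2, 0], true, [0, -2, 0, -1, 0, 0], [(1, 1), (3, 1)]⟩,
   ⟨80, true, [2, -1, 0, 1, -2, 0], false, [0, -1, 0, 0, -2, 0], [(0, 1), (4, 1)]⟩,
   ⟨3940, true, [1, -2, 0, 2, -1, 0], false, [0, -2, 0, 0, -1, 0], [(0, 1), (2, 1)]⟩,
   ⟨12720, false, [0, 1, 0, 1, -1, 0], false, [0, 0, 0, 0, -1, 0], [(3, 1)]⟩,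
   ⟨12720, false, [0, 1, 0, -1, 1, 0], true, [0, 0, 0, -1, 0, 0], [(2, 1)]⟩,
   ⟨12720, true, [0, 1, 0, 1, 0, 0], true, [0, 0, 0, 0, 0, 0], [(4, 1)]⟩,
   ⟨12720, true, [0, 1, 0, 0, 1, 0], false, [0, 0, 0, 0, 0, 0], [(5, 1)]⟩,
   ⟨12720, false, [1, -1, 0, -1, 0, 0], false, [0, -1, 0, -1, 0, 0], [(5, 1)]⟩,
   ⟨12720, false, [1, 0, 0, -1, 1, 0], false, [0, 0, 0, -1, 0, 0], [(5, 1)]⟩,
   ⟨12720, false, [1, -1, 0, 0, -1, 0], true, [0, -1, 0, 0, -1, 0], [(4, 1)]⟩,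
   ⟨12720, false, [1, 0, 0, 1, -1, 0], true, [0, 0, 0, 0, -1, 0], [(4, 1)]⟩,
   ⟨12720, false, [1, -1, 0, 0, 1, 0], false, [0, -1, 0, 0, 0, 0], [(3, 1)]⟩,
   ⟨12720, true, [1, 0, 0, 1, 0, 0], false, [0, 0, 0, 0, 0, 0], [(3, 1)]⟩,
   ⟨12720, true, [1, -1, 0, -1, 1, 0], false, [0, -1, 0, -1, 0, 0], [(1, 1)]⟩,
   ⟨-1500, true, [1, 1, 0, -1, -1, 0], true, [0, 0, 0, -1, -1, 0], [(0, 1), (1, 1)]⟩,
   ⟨12720, true, [1, -1, 0, 1, -1, 0], false, [0, -1, 0, 0, -1, 0], [(0, 1)]⟩,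
   ⟨12720, false, [1, -1, 0, 1, 0, 0], true, [0, -1, 0, 0, 0, 0], [(2, 1)]⟩,
   ⟨12720, true, [1, 0, 0, 0, 1, 0], true, [0, 0, 0, 0, 0, 0], [(2, 1)]⟩,
   ⟨1140, true, [0, 0, 1, 0, 0, -1], false, [0, 0, 0, 0, 0, -1], [(0, 1), (1, 1)]⟩,
   ⟨12720, true, [0, 1, 0, -1, 0, 0], true, [0, 0, 0, -1, 0, 0], [(0, 1)]⟩,
   ⟨12720, true, [0, 1, 0, 0, -1, 0], true, [0, 0, 0, 0, -1, 0], [(1, 1)]⟩,
   ⟨12720, true, [1, 0, 0, -1, 0, 0], false, [0, 0, 0, -1, 0, 0], [(1, 1)]⟩,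
   ⟨12720, true, [1, 0, 0, 0, -1, 0], false, [0, 0, 0, 0, -1, 0], [(0, 1)]⟩,
   ⟨-20640, true, [0, 0, 0, 0, 1, -1], true, [0, 0, 0, 2, 0, -1], []⟩,
   ⟨11160, true, [0, 0, 0, 0, 2, -1], true, [0, 0, 0, 1, 0, -1], []⟩,
   ⟨-15600, true, [0, 0, 0, 1, 0, -1], true, [0, 0, 0, 0, 2, -1], []⟩,
   ⟨6120, true, [0, 0, 0, 2, 0, -1], true, [0, 0, 0, 0, 1, -1], []⟩,
   ⟨-9960, true, [0, 1, -1, 0, 0, 0], true, [2, 0, -1, 0, 0, 0], []⟩,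
   ⟨-6684, true, [0, 2, -1, 0, 0, 0], true, [1, 0, -1, 0, 0, 0], []⟩,
   ⟨-20184, true, [1, 0, -1, 0, 0, 0], true, [0, 2, -1, 0, 0, 0], []⟩,
   ⟨3540, true, [2, 0, -1, 0, 0, 0], true, [0, 1, -1, 0, 0, 0], []⟩,
   ⟨-28224, false, [0, 0, 0, 1, 1, -1], true, [0, 0, 0, 0, 0, -1], []⟩,
   ⟨-7800, false, [1, 1, -1, 0, 0, 0], true, [0, 0, -1, 0, 0, 0], []⟩,
   ⟨2240, false, [0, 0, 0, 1, -2, 0], true, [0, 0, 0, 0, -2, 1], []⟩,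
   ⟨-10384, true, [0, 0, 0, 1, 1, 0], true, [0, 0, 0, 0, 0, 1], []⟩,
   ⟨-2800, false, [0, 0, 0, 2, -1, 0], true, [0, 0, 0, 0, -1, 1], []⟩,
   ⟨-11184, false, [1, -2, 0, 0, 0, 0], true, [0, -2, 1, 0, 0, 0], []⟩,
   ⟨1200, true, [1, 1, 0, 0, 0, 0], true, [0, 0, 1, 0, 0, 0], []⟩,
   ⟨-960, false, [2, -1, 0, 0, 0, 0], true, [0, -1, 1, 0, 0, 0], []⟩,
   ⟨-25440, false, [0, 0, 0, 1, -1, 0], true, [0, 0, 0, 0, -1, 0], []⟩,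
   ⟨-25440, false, [1, -1, 0, 0, 0, 0], true, [0, -1, 0, 0, 0, 0], []⟩,
   ⟨-25440, true, [0, 0, 0, 0, 1, 0], true, [0, 0, 0, 1, 0, 0], []⟩,
   ⟨-25440, true, [0, 0, 0, 1, 0, 0], true, [0, 0, 0, 0, 1, 0], []⟩,
   ⟨-25440, true, [0, 1, 0, 0, 0, 0], true, [1, 0, 0, 0, 0, 0], []⟩,
   ⟨-25440, true, [1, 0, 0, 0, 0, 0], true, [0, 1, 0, 0, 0, 0], []⟩]

/-- a part of a two-variable family -/
def famTTc5 : List T2 :=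
  [⟨-1464, true, [0, 0, 0, 0, 0, 1], true, [0, 0, 0, 1, 1, 0], []⟩,
   ⟨5700, true, [0, 0, 1, 0, 0, 0], true, [1, 1, 0, 0, 0, 0], []⟩]

/-- a two-variable family of weight 5 -/
def famTTc : List T2 := famTTc1 ++ (famTTc2 ++ (famTTc3 ++ (famTTc4 ++ famTTc5)))

theorem famTTc_a1 : famChkA famTTcLets famTTc1 = true := by decide +kernel

theorem famTTc_a2 : famChkA famTTcLets famTTc2 = true := by decide +kernel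

theorem famTTc_a3 : famChkA famTTcLets famTTc3 = true := by decide +kernel

theorem famTTc_a4 : famChkA famTTcLets famTTc4 = true := by decide +kernel

theorem famTTc_a5 : famChkA famTTcLets famTTc5 = true := by decide +kernel

theorem famTTc_a : famChkA famTTcLets famTTc = true :=
  famChkA_append famTTc_a1 (famChkA_append famTTc_a2 (famChkA_append famTTc_a3 (famChkA_append famTTc_a4 famTTc_a5)))

theorem famTTc_b10 : famChkB 5 famTTc 1 0 = true := by decide +kernel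

theorem famTTc_b20 : famChkB 5 famTTc 2 0 = true := by decide +kernel

theorem famTTc_b21 : famChkB 5 famTTc 2 1 = true := by decide +kernel

theorem famTTc_b30 : famChkB 5 famTTc 3 0 = true := by decide +kernel

theorem famTTc_b31 : famChkB 5 famTTc 3 1 = true := by decide +kernel

theorem famTTc_b32 : famChkB 5 famTTc 3 2 = true := by decide +kernel

theorem famTTc_b40 : famChkB 5 famTTc 4 0 = true := by decide +kernel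

theorem famTTc_b41 : famChkB 5 famTTc 4 1 = true := by decide +kernel

theorem famTTc_b42 : famChkB 5 famTTc 4 2 = true := by decide +kernel

theorem famTTc_b43 : famChkB 5 famTTc 4 3 = true := by decide +kernel

theorem famTTc_b50 : famChkB 5 famTTc 5 0 = true := by decide +kernel

theorem famTTc_b51 : famChkB 5 famTTc 5 1 = true := by decide +kernel

theorem famTTc_b52 : famChkB 5 famTTc 5 2 = true := by decide +kernel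

theorem famTTc_b53 : famChkB 5 famTTc 5 3 = true := by decide +kernel

theorem famTTc_b54 : famChkB 5 famTTc 5 4 = true := by decide +kernel

theorem famTTc_c0 : famChkC 5 famTTc 0 12 = true := by decide +kernel

theorem famTTc_c1 : famChkC 5 famTTc 12 12 = true := by decide +kernel

theorem famTTc_c2 : famChkC 5 famTTc 24 12 = true := by decide +kernel

theorem famTTc_c3 : famChkC 5 famTTc 36 7 = true := by decide +kernel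

theorem famTTc_c : ∀ k < famTTcLets.length, chk 6 (5 - 1) (extraL k famTTc) = true := by
  intro k hk
  have hl : famTTcLets.length = 43 := by decide +kernel
  rw [hl] at hk
  rcases Nat.lt_or_ge k 12 with h0 | g0
  · exact famChkC_mem famTTc_c0 k (Nat.zero_le _) h0
  rcases Nat.lt_or_ge k 24 with h1 | g1
  · exact famChkC_mem famTTc_c1 k g0 h1
  rcases Nat.lt_or_ge k 36 with h2 | g2
  · exact famChkC_mem famTTc_c2 k g1 h2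
  exact famChkC_mem famTTc_c3 k g2 hk

theorem famTTc_ok : FamOK2 5 famTTcLets famTTc where
  a := famTTc_a
  p := by decide +kernel
  b := famChkB_all famTTc_b10 famTTc_b20 famTTc_b21 famTTc_b30 famTTc_b31 famTTc_b32 famTTc_b40
    famTTc_b41 famTTc_b42 famTTc_b43 famTTc_b50 famTTc_b51 famTTc_b52 famTTc_b53 famTTc_b54
  c := famTTc_c
  d := by decide +kernel

end Pool.Agent.Zagier
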