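import Pool.Agent.Zagier.RelF
import Pool.Agent.Zagier.TwoVarDataA
import Pool.Agent.Zagier.TwoVarDataB
import Pool.Agent.Zagier.TwoVarDataC
import Pool.Agent.Zagier.TwoVarDataD

/-!
# Certificates with two-variable families
-/

open scoped TensorProduct

namespace Pool.Agent.Zagier

universe u

/-- the monomials `x, 1 - x, 1 - x + x², y, 1 - y, 1 - y + y²` -/
structure Pt6 (G : Type) where
  /-- `x` -/
  x : G
  /-- `1 - x` -/
  x' : G
  /-- `1 - x + x²` -/
  qx : G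
  /-- `y` -/
  y : G
  /-- `1 - y` -/
  y' : G
  /-- `1 - y + y²` -/
  qy : G

/-- multiplicity of `{1}` -/
def kP2 : List T2 → ℤ
  | [] => 0
  | t :: T => if (hdZ t.e = 0 ∧ nthZ t.e 3 = 0) ∧ t.s = true then t.c + kP2 T else kP2 T

/-- multiplicity of `{-1}` -/
def kM2 : List T2 → ℤ
  | [] => 0
  | t :: T => if (hdZ t.e = 0 ∧ nthZ t.e 3 = 0) ∧ t.s = false then t.c + kM2 T else kM2 T

theorem T2.co_zero (t : T2) : t.co 0 = t.c := by simp [T2.co]

theorem kapP2_zero (T : List T2) : kapP2 T 0 = kP2 T := by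
  induction T with
  | nil => rfl
  | cons t T ih =>
    have h3 : ((hdZ t.e = 0 ∧ nthZ t.e 3 = 0) ∧ t.s = true) ↔
      ((t.ei 0 = 0 ∧ t.ei 3 = 0) ∧ t.s = true) := Iff.rfl
    have h1 : kapP2 (t :: T) 0 = (if (t.ei 0 = 0 ∧ t.ei 3 = 0) ∧ t.s = true then t.co 0 else 0) +
      kapP2 T 0 := by simp [kapP2]
    rw [h1, ih, kP2, T2.co_zero]
    by_cases h : (t.ei 0 = 0 ∧ t.ei 3 = 0) ∧ t.s = true
    · rw [if_pos h, if_pos (h3.2 h)]
    · rw [if_neg h, if_neg (fun h' => h (h3.1 h')), zero_add]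

theorem kapM2_zero (T : List T2) : kapM2 T 0 = kM2 T := by
  induction T with
  | nil => rfl
  | cons t T ih =>
    have h3 : ((hdZ t.e = 0 ∧ nthZ t.e 3 = 0) ∧ t.s = false) ↔
      ((t.ei 0 = 0 ∧ t.ei 3 = 0) ∧ t.s = false) := Iff.rfl
    have h1 : kapM2 (t :: T) 0 = (if (t.ei 0 = 0 ∧ t.ei 3 = 0) ∧ t.s = false then t.co 0 else 0) +
      kapM2 T 0 := by simp [kapM2]
    rw [h1, ih, kM2, T2.co_zero]
    by_cases h : (t.ei 0 = 0 ∧ t.ei 3 = 0) ∧ t.s = false
    · rw [if_pos h, if_pos (h3.2 h)]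
    · rw [if_neg h, if_neg (fun h' => h (h3.1 h')), zero_add]

section

variable {G : Type} [AddCommGroup G] {K : Type u} [Field K] {ev : G →+ Additive Kˣ}

/-- monomial of a term -/
def T2.g (t : T2) (m1 : G) (P : Pt6 G) : G :=
  (if t.s then 0 else m1) + (nthZ t.e 0 • P.x + (nthZ t.e 1 • P.x' + (nthZ t.e 2 • P.qx +
    (nthZ t.e 3 • P.y + (nthZ t.e 4 • P.y' + nthZ t.e 5 • P.qy)))))

/-- the formal combination of a family -/
def fam2L (T : List T2) (m1 : G) (P : Pt6 G) : List (ℤ × G) :=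
  T.map fun t => (t.c, t.g m1 P)

/-- the exponent of `1 - x + x²` is zero in all terms -/
def noQ (T : List T2) : Bool := T.all fun t => nthZ t.e 2 == 0

theorem fam2_eq_evL (T : List T2) {m1 : G} (hm1 : val ev m1 = -1) (P : Pt6 G)
    (hx : val ev P.x' = 1 - val ev P.x) (hy : val ev P.y' = 1 - val ev P.y)
    (hqx : val ev P.qx = quad (val ev P.x) ∨ noQ T = true)
    (hqy : val ev P.qy = quad (val ev P.y)) :
    fam2 T 0 (six (val ev P.x) (val ev P.y)) = evL ev (fam2L T m1 P) := by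
  rw [fam2, evL, fam2L, List.map_map]
  congr 1
  refine List.map_congr_left fun t ht => ?_
  simp only [Function.comp_apply, T2.co_zero]
  congr 2
  have h2 : quad (val ev P.x) ^ t.ei 2 = val ev P.qx ^ t.ei 2 := by
    rcases hqx with h | h
    · rw [h]
    · have h0 : nthZ t.e 2 = 0 := by simpa using List.all_eq_true.1 h t ht
      have h1 : t.ei 2 = 0 := h0
      rw [h1, zpow_zero, zpow_zero]
  rw [T2.arg_six, h2, ← hx, ← hy, ← hqy, T2.g]
  simp only [val_add, val_zsmul]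
  have h3 : sg K t.s = val ev (if t.s then 0 else m1) := by
    cases t.s
    · simp [sg, hm1]
    · simp [sg, val_zero]
  rw [← h3]
  simp only [T2.ei]
  simp only [mul_assoc]
  rfl

/-- the relation given by a family, with its constants -/
def fam2Rel (T : List T2) (m1 : G) (P : Pt6 G) : List (ℤ × G) :=
  (-(kP2 T), 0) :: (-(kM2 T), m1) :: fam2L T m1 P

theorem RS.fam2 [CharZero K] {n : ℕ} {Q : List (List (List ℤ))} {T : List T2}
    (h : FamOK2 n Q T) (hn : 2 ≤ n) {m1 : G} (hm1 : val ev m1 = -1) (P : Pt6 G)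
    (hx : val ev P.x' = 1 - val ev P.x) (hy : val ev P.y' = 1 - val ev P.y)
    (hqx : (val ev P.qx = quad (val ev P.x)) ∨ (noQ T = true ∧ quad (val ev P.x) ≠ 0))
    (hqy : val ev P.qy = quad (val ev P.y)) :
    RS ev n (fam2Rel T m1 P) := by
  unfold RS
  rw [fam2Rel, evL_cons, evL_cons, ← fam2_eq_evL T hm1 P hx hy
    (hqx.imp id fun h => h.1) hqy, val_zero, hm1]
  have hqx' : quad (val ev P.x) ≠ 0 := by
    rcases hqx with h | h
    · rw [← h]; exact val_ne ev _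
    · exact h.2
  have h1 := fam2_inSat n Q T h n hn 0 (by simp) K (val ev P.x) (val ev P.y)
    ⟨val_ne ev _, by rw [← hx]; exact val_ne ev _, hqx'⟩
    ⟨val_ne ev _, by rw [← hy]; exact val_ne ev _, by rw [← hqy]; exact val_ne ev _⟩
  rw [kapP2_zero, kapM2_zero] at h1
  convert h1 using 1
  module

/-- a relation descriptor -/
inductive RelT (G : Type) where
  /-- the old descriptors -/
  | old (d : RelD G)
  /-- two-variable families in `x, 1 - x` and `y, 1 - y, 1 - y + y²`; `r, N` show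
  `1 - x + x² ≠ 0` -/
  | xt (k : ℕ) (P : Pt6 G) (r : List ℤ) (N : ℤ)
  /-- two-variable families in all six letters -/
  | tt (k : ℕ) (P : Pt6 G)

/-- the families of the first kind -/
def xtNo (m _k : ℕ) : List T2 := if m = 4 then famXT4 else []

/-- the families of the second kind -/
def ttNo (m k : ℕ) : List T2 :=
  if m = 5 then (if k = 0 then famTTa else if k = 1 then famTTb else famTTc) else []

/-- formal combination of a relation descriptor -/
def RelT.toL (m : ℕ) (m1 w : G) : RelT G → List (ℤ × G)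
  | .old d => d.toL m m1 w
  | .xt k P _ _ => fam2Rel (xtNo m k) m1 P
  | .tt k P => fam2Rel (ttNo m k) m1 P

/-- validity of a relation descriptor -/
def RelT.Valid (ev : G →+ Additive Kˣ) (w : G) : RelT G → Prop
  | .old d => d.Valid ev w
  | .xt _ P _ _ => (val ev P.x' = 1 - val ev P.x ∧ quad (val ev P.x) ≠ 0) ∧
      (val ev P.y' = 1 - val ev P.y ∧ val ev P.qy = quad (val ev P.y))
  | .tt _ P => (val ev P.x' = 1 - val ev P.x ∧ val ev P.qx = quad (val ev P.x)) ∧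
      (val ev P.y' = 1 - val ev P.y ∧ val ev P.qy = quad (val ev P.y))

theorem RS.fam2_nil {m : ℕ} {m1 : G} (P : Pt6 G) : RS ev m (fam2Rel [] m1 P) := by
  unfold RS
  simp only [fam2Rel, kP2, kM2, fam2L, List.map_nil, neg_zero]
  rw [evL_cons, evL_cons, evL_nil, zero_smul, zero_smul, zero_add, zero_add]
  exact InSat.zero

theorem noQ_famXT4 : noQ famXT4 = true := by decide +kernel

theorem RS.relT [CharZero K] {m : ℕ} (hm : 4 ≤ m) (hm7 : m ≤ 7) {m1 w : G}
    (hm1 : val ev m1 = -1) (d : RelT G) (hd : d.Valid ev w) : RS ev m (d.toL m m1 w) := by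
  have hm2 : 2 ≤ m := by omega
  cases d with
  | old d => exact RS.relD hm hm7 hm1 d hd
  | xt k P r N =>
    simp only [RelT.toL, xtNo]
    split_ifs with h4
    · subst h4
      exact RS.fam2 famXT4_ok hm2 hm1 P hd.1.1 hd.2.1 (Or.inr ⟨noQ_famXT4, hd.1.2⟩) hd.2.2
    · exact RS.fam2_nil P
  | tt k P =>
    simp only [RelT.toL, ttNo]
    split_ifs with h5 hk hk'
    · subst h5
      exact RS.fam2 famTTa_ok hm2 hm1 P hd.1.1 hd.2.1 (Or.inl hd.1.2) hd.2.2
    · subst h5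
      exact RS.fam2 famTTb_ok hm2 hm1 P hd.1.1 hd.2.1 (Or.inl hd.1.2) hd.2.2
    · subst h5
      exact RS.fam2 famTTc_ok hm2 hm1 P hd.1.1 hd.2.1 (Or.inl hd.1.2) hd.2.2
    · exact RS.fam2_nil P

/-- formal combination of a certificate -/
def certT (m : ℕ) (m1 w : G) (C : List (ℤ × RelT G)) : List (ℤ × G) :=
  C.flatMap fun p => scaleL p.1 (p.2.toL m m1 w)

theorem RS.certT [CharZero K] {m : ℕ} (hm : 4 ≤ m) (hm7 : m ≤ 7) {m1 w : G}
    (hm1 : val ev m1 = -1) (C : List (ℤ × RelT G)) (hC : ∀ p ∈ C, p.2.Valid ev w) :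
    RS ev m (certT m m1 w C) :=
  RS.flatMap C _ fun p hp => RS.relT hm hm7 hm1 p.2 (hC p hp)

end

/-! ### field data -/

/-- check of `y = 1 - x`, `z = 1 - x + x²` -/
def FD.quadOK (D : FD) (x y z : E3) : Bool :=
  D.sumOne x y && eqR D.p (smulP (D.den x * D.den x) (D.mon z)) (smulP (D.den z) (D.qd x))

/-- validity check for a relation descriptor -/
def FD.relTOK (D : FD) : RelT E3 → Bool
  | .old d => D.relOK d
  | .xt _ P r N => (D.sumOne P.x P.x' && (eqR D.p (mulP (D.qd P.x) r) [N] && N != 0)) &&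
      D.quadOK P.y P.y' P.qy
  | .tt _ P => D.quadOK P.x P.x' P.qx && D.quadOK P.y P.y' P.qy

section

variable {K : Type u} [Field K] [CharZero K] {D : FD} {x : K}

theorem FD.Root.validT (h : D.Root x) {d : RelT E3} (hd : D.relTOK d = true) :
    d.Valid h.ev D.w := by
  have hq : ∀ {a b c : E3}, D.quadOK a b c = true →
      val h.ev b = 1 - val h.ev a ∧ val h.ev c = quad (val h.ev a) := by
    intro a b c hc
    exact h.valid (d := .fam 0 ⟨a, b, c⟩) hc
  cases d with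
  | old d => exact h.valid hd
  | xt k P r N =>
    simp only [FD.relTOK] at hd
    rw [Bool.and_eq_true] at hd
    exact ⟨h.valid (d := .cub P.x P.x' r N) hd.1, hq hd.2⟩
  | tt k P =>
    simp only [FD.relTOK] at hd
    rw [Bool.and_eq_true] at hd
    exact ⟨hq hd.1, hq hd.2⟩

end

/-! ### fast checking -/

/-- dot product -/
def dotZ : List ℤ → List ℤ → ℤ
  | a :: l, b :: m => Int.add (Int.mul a b) (dotZ l m)
  | _, _ => 0

/-- adding the terms of a two-variable family -/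
noncomputable def Tr.add6 (T n : ℤ) (m1 : E3) (u v w : List ℤ) : List T2 → Tr → Tr
  | [], t => t
  | r :: L, t => (fun t' : Tr => t'.seq (Tr.add6 T n m1 u v w L t'))
      (t.insK T (Int.add (Bool.rec (motive := fun _ => ℤ) m1.1 0 r.s) (dotZ r.e u))
        (Int.add (Bool.rec (motive := fun _ => ℤ) m1.2.1 0 r.s) (dotZ r.e v))
        (Int.add (Bool.rec (motive := fun _ => ℤ) m1.2.2 0 r.s) (dotZ r.e w)) (Int.mul n r.c))

/-- adding a two-variable relation -/
noncomputable def Tr.addF (m1 : E3) (T n : ℤ) (P : Pt6 E3) (L : List T2) (t : Tr) : Tr :=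
  Tr.add6 T n m1 [P.x.1, P.x'.1, P.qx.1, P.y.1, P.y'.1, P.qy.1]
    [P.x.2.1, P.x'.2.1, P.qx.2.1, P.y.2.1, P.y'.2.1, P.qy.2.1]
    [P.x.2.2, P.x'.2.2, P.qx.2.2, P.y.2.2, P.y'.2.2, P.qy.2.2] L
    ((t.insK T 0 0 0 (Int.mul n (-(kP2 L)))).insK T m1.1 m1.2.1 m1.2.2 (Int.mul n (-(kM2 L))))

/-- adding a relation -/
noncomputable def Tr.addT (m : ℕ) (m1 w : E3) (T n : ℤ) (t : Tr) : RelT E3 → Tr
  | .old d => t.addR m m1 w T n d
  | .xt k P _ _ => t.addF m1 T n P (xtNo m k)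
  | .tt k P => t.addF m1 T n P (ttNo m k)

/-- adding the relations of a certificate -/
noncomputable def Tr.addCT (m : ℕ) (m1 w : E3) (T : ℤ) : List (ℤ × RelT E3) → Tr → Tr
  | [], t => t
  | p :: C, t => (fun t' : Tr => t'.seq (Tr.addCT m m1 w T C t')) (t.addT m m1 w T p.1 p.2)

/-- the fast check of a certificate -/
noncomputable def FD.fastT (D : FD) (m : ℕ) (c : ℤ) (C : List (ℤ × RelT E3)) (lam : E3 → ℤ)
    (L : List (ℤ × E3)) : Bool :=
  (c != 0) && (C.all (fun p => D.relTOK p.2) &&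
    ((Tr.leaf.addL D.T (-c) (contractL lam L)).addCT m D.m1 D.w D.T C).isZero)

section

variable {K : Type u} [Field K] (ev : E3 →+ Additive Kˣ)

theorem Tr.evT_add6 (T : ℤ) (hnf : ∀ g, ev (nf3 T g) = ev g) (n : ℤ) (m1 : E3) (P : Pt6 E3)
    (L : List T2) (t : Tr) :
    (t.add6 T n m1 [P.x.1, P.x'.1, P.qx.1, P.y.1, P.y'.1, P.qy.1]
      [P.x.2.1, P.x'.2.1, P.qx.2.1, P.y.2.1, P.y'.2.1, P.qy.2.1]
      [P.x.2.2, P.x'.2.2, P.qx.2.2, P.y.2.2, P.y'.2.2, P.qy.2.2] L).evT ev =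
      n • evL ev (fam2L L m1 P) + t.evT ev := by
  have hdot : ∀ (e : List ℤ) (a b c d f g : ℤ), dotZ e [a, b, c, d, f, g] =
      nthZ e 0 * a + (nthZ e 1 * b + (nthZ e 2 * c + (nthZ e 3 * d + (nthZ e 4 * f +
        nthZ e 5 * g)))) := by
    intro e a b c d f g
    rcases e with _ | ⟨e0, _ | ⟨e1, _ | ⟨e2, _ | ⟨e3, _ | ⟨e4, _ | ⟨e5, e⟩⟩⟩⟩⟩⟩ <;>
      simp [dotZ, nthZ, hdZ, tlZ, Int.add_def, Int.mul_def]
  induction L generalizing t with
  | nil => simp [Tr.add6, fam2L, evL_nil]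
  | cons r L ih =>
    have h1 : fam2L (r :: L) m1 P = (r.c, r.g m1 P) :: fam2L L m1 P := rfl
    have h2 : r.g m1 P =
        (Int.add (Bool.rec (motive := fun _ => ℤ) m1.1 0 r.s)
          (dotZ r.e [P.x.1, P.x'.1, P.qx.1, P.y.1, P.y'.1, P.qy.1]),
        Int.add (Bool.rec (motive := fun _ => ℤ) m1.2.1 0 r.s)
          (dotZ r.e [P.x.2.1, P.x'.2.1, P.qx.2.1, P.y.2.1, P.y'.2.1, P.qy.2.1]),
        Int.add (Bool.rec (motive := fun _ => ℤ) m1.2.2 0 r.s)
          (dotZ r.e [P.x.2.2, P.x'.2.2, P.qx.2.2, P.y.2.2, P.y'.2.2, P.qy.2.2])) := by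
      rw [T2.g, hdot, hdot, hdot]
      refine Prod.ext ?_ (Prod.ext ?_ ?_) <;>
      · simp only [Int.add_def]
        cases r.s <;> simp
    rw [Tr.add6]
    beta_reduce
    rw [Tr.seq_eq, ih, Tr.evT_insK ev hnf, h1, evL_cons, smul_add, Int.mul_def, mul_smul,
      h2]
    abel

theorem Tr.evT_addF (T : ℤ) (hnf : ∀ g, ev (nf3 T g) = ev g) (n : ℤ) (m1 : E3) (P : Pt6 E3)
    (L : List T2) (t : Tr) :
    (t.addF m1 T n P L).evT ev = n • evL ev (fam2Rel L m1 P) + t.evT ev := by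
  rw [Tr.addF, Tr.evT_add6 ev T hnf, Tr.evT_insK ev hnf, Tr.evT_insK ev hnf, Int.mul_def,
    Int.mul_def, mul_smul, mul_smul, fam2Rel, evL_cons, evL_cons, smul_add, smul_add]
  have h0 : ((0 : ℤ), (0 : ℤ), (0 : ℤ)) = (0 : E3) := rfl
  rw [h0]
  abel

theorem Tr.evT_addT (m : ℕ) (m1 w : E3) (T : ℤ) (hnf : ∀ g, ev (nf3 T g) = ev g)
    (n : ℤ) (t : Tr) (r : RelT E3) :
    (t.addT m m1 w T n r).evT ev = n • evL ev (r.toL m m1 w) + t.evT ev := by
  cases r with
  | old d => exact Tr.evT_addR ev m m1 w T hnf n t d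
  | xt k P r N => exact Tr.evT_addF ev T hnf n m1 P _ t
  | tt k P => exact Tr.evT_addF ev T hnf n m1 P _ t

theorem Tr.evT_addCT (m : ℕ) (m1 w : E3) (T : ℤ) (hnf : ∀ g, ev (nf3 T g) = ev g)
    (C : List (ℤ × RelT E3)) (t : Tr) :
    (t.addCT m m1 w T C).evT ev = evL ev (certT m m1 w C) + t.evT ev := by
  induction C generalizing t with
  | nil => simp [Tr.addCT, certT, evL_nil]
  | cons p C ih =>
    rw [Tr.addCT]
    beta_reduce
    rw [Tr.seq_eq, ih, Tr.evT_addT ev m m1 w T hnf]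
    have h : certT m m1 w (p :: C) = scaleL p.1 (p.2.toL m m1 w) ++ certT m m1 w C := by
      simp [certT]
    rw [h, evL_append, evL_scale]
    abel

end

section

variable {K : Type u} [Field K] [CharZero K] {D : FD} {x : K}

theorem FD.Root.rs_of_fastT (h : D.Root x) {m : ℕ} (hm : 4 ≤ m) (hm7 : m ≤ 7) {c : ℤ}
    {C : List (ℤ × RelT E3)} {lam : E3 → ℤ} {L : List (ℤ × E3)}
    (hc : D.fastT m c C lam L = true) : RS h.ev m (contractL lam L) := by
  simp only [FD.fastT, Bool.and_eq_true, bne_iff_ne, List.all_eq_true] at hc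
  obtain ⟨hc0, hC, hz⟩ := hc
  have h1 := Tr.evT_isZero h.ev _ hz
  rw [Tr.evT_addCT h.ev m D.m1 D.w D.T h.ev_nf, Tr.evT_addL h.ev D.T h.ev_nf, Tr.evT, add_zero,
    neg_smul, add_neg_eq_zero] at h1
  have h2 : RS h.ev m (certT m D.m1 D.w C) :=
    RS.certT hm hm7 h.val_m1 C fun p hp => h.validT (hC p hp)
  unfold RS at h2
  rw [h1] at h2
  exact h2.of_zsmul hc0

end

end Pool.Agent.Zagier
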