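import Pool.Agent.Zagier.FieldF2Base
import Pool.Agent.Zagier.FieldNumS
import Pool.Agent.Zagier.RelT

/-!
# Weight five, discriminant 272
-/

open scoped TensorProduct
open NumberField

namespace Pool.Agent.Zagier

universe u

/-- an element of weight 5 -/
def mF2L5a : List (ℤ × E3) :=
  [(-23760, (0, 1, 0)), (23760, (1, 1, 0)), (-51840, (2, 1, 0)), (51840, (3, 1, 0)),
   (-10080, (0, 3, 0)), (19360, (1, 3, 0)), (-19360, (2, 3, 0)), (10080, (3, 3, 0)),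
   (1296, (2, 5, 0)), (-1296, (3, 5, 0))]

/-- its first certificate -/
def mF2C5a : List (ℤ × RelT E3) :=
  [(2160, .old (.kum ⟨(2, -2, -1), (1, -3, 0), (0, 1, -1), (0, -2, 1)⟩)),
   (2160, .old (.kum ⟨(0, 2, -1), (0, 3, 0), (3, -1, -1), (2, 2, 1)⟩)),
   (3240, .old (.kum ⟨(1, -2, 0), (1, -3, 0), (0, -1, 0), (0, -2, 1)⟩)),
   (3240, .old (.kum ⟨(3, 2, 0), (0, 3, 0), (1, 1, 0), (2, 2, 1)⟩)),
   (-6120, .old (.kum ⟨(3, -1, -1), (1, 0, -1), (0, 2, -1), (0, 0, -1)⟩)),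
   (-6120, .old (.kum ⟨(0, 1, -1), (1, 0, -1), (2, -2, -1), (0, 0, -1)⟩)),
   (-1080, .old (.kum ⟨(3, -1, 0), (0, 0, -1), (0, 1, 0), (1, 0, -1)⟩)),
   (-1080, .old (.kum ⟨(0, 1, 0), (0, 0, -1), (3, -1, 0), (1, 0, -1)⟩)),
   (-2160, .old (.kum ⟨(0, 0, -1), (0, -3, 0), (1, 0, -1), (0, -1, 1)⟩)),
   (-2160, .old (.kum ⟨(0, 0, -1), (3, 3, 0), (1, 0, -1), (1, 1, 1)⟩)),
   (5040, .old (.kum ⟨(1, 0, 0), (0, 0, -1), (3, 0, 1), (1, 0, -1)⟩)),
   (5040, .old (.kum ⟨(0, 0, -1), (1, 0, -1), (1, 0, -1), (0, 0, -1)⟩)),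
   (-2160, .old (.kum ⟨(2, 0, 0), (0, 0, -1), (3, 0, 2), (1, 0, -1)⟩)),
   (-6480, .old (.kum ⟨(3, 0, 0), (1, -2, 0), (0, 0, 1), (0, -1, 0)⟩)),
   (-6480, .old (.kum ⟨(3, 0, 0), (3, 2, 0), (0, 0, 1), (1, 1, 0)⟩)),
   (4380, .old (.kum ⟨(1, 1, 0), (1, -2, 0), (3, 2, 0), (0, -1, 0)⟩)),
   (4380, .old (.kum ⟨(0, -1, 0), (3, 2, 0), (1, -2, 0), (1, 1, 0)⟩)),
   (6120, .xt 0 ⟨(2, 0, 0), (3, 0, 2), (0, 0, 0), (1, -2, 0), (0, -1, 0), (0, -2, 1)⟩ [1] 3),
   (6120, .xt 0 ⟨(2, 0, 0), (3, 0, 2), (0, 0, 0), (3, 2, 0), (1, 1, 0), (2, 2, 1)⟩ [1] 3),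
   (180, .xt 0 ⟨(1, -2, 0), (0, -1, 0), (0, 0, 0), (1, -2, 0), (0, -1, 0), (0, -2, 1)⟩ [1, 0, 2, -1] 2),
   (180, .xt 0 ⟨(3, 2, 0), (1, 1, 0), (0, 0, 0), (3, 2, 0), (1, 1, 0), (2, 2, 1)⟩ [2, -1, -1, 1] 2),
   (-1080, .xt 0 ⟨(1, -2, 0), (0, -1, 0), (0, 0, 0), (0, 0, -1), (1, 0, -1), (1, 0, -2)⟩ [1, 0, 2, -1] 2),
   (-1080, .xt 0 ⟨(3, 2, 0), (1, 1, 0), (0, 0, 0), (0, 0, -1), (1, 0, -1), (1, 0, -2)⟩ [2, -1, -1, 1] 2),
   (1080, .xt 0 ⟨(1, 0, -1), (0, 0, -1), (0, 0, 0), (1, -2, 0), (0, -1, 0), (0, -2, 1)⟩ [1] 2),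
   (1080, .xt 0 ⟨(1, 0, -1), (0, 0, -1), (0, 0, 0), (3, 2, 0), (1, 1, 0), (2, 2, 1)⟩ [1] 2),
   (2160, .old (.inv (0, -8, 0))), (-6480, .old (.inv (1, -6, 0))),
   (-3240, .old (.inv (2, -4, 2))), (-3240, .old (.dist2 (1, 2, 1))),
   (3240, .old (.dist2 (1, 2, -1))), (-3240, .old (.inv (1, -4, 1))),
   (-3240, .old (.inv (3, -4, -1))), (-6300, .old (.inv (1, -5, 0))),
   (180, .old (.inv (2, -5, 0))), (-2160, .old (.inv (3, 0, -5))),
   (-19800, .old (.inv (2, -4, 0))), (-8640, .old (.inv (0, -3, 1))),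
   (-3600, .old (.inv (0, -4, 0))), (-14040, .old (.dist2 (0, 1, -1))),
   (19980, .old (.inv (2, -3, -1))), (-12960, .old (.inv (2, -2, -2))),
   (6120, .old (.inv (3, -1, -3))), (19980, .old (.inv (3, -3, 1))),
   (-8640, .old (.inv (1, -3, -1))), (6120, .old (.inv (0, -1, 3))),
   (1080, .old (.inv (0, -2, 2))), (14040, .old (.dist2 (1, 1, 1))),
   (-5040, .old (.inv (1, 0, -3))), (1080, .old (.inv (3, -1, -2))),
   (32400, .old (.inv (1, -2, 1))), (6480, .old (.inv (1, -2, -1))),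
   (12240, .old (.inv (3, -3, 0))), (-45840, .old (.inv (2, -3, 0))),
   (37260, .old (.inv (1, -3, 0))), (7020, .old (.inv (0, -3, 0))),
   (-1080, .old (.inv (2, -2, -1))), (31320, .old (.inv (3, -2, 1))),
   (5400, .old (.inv (3, -2, -1))), (-3240, .old (.inv (0, -1, -2))),
   (1080, .old (.inv (0, -1, 2))), (-1080, .old (.inv (0, -2, 1))),
   (-3240, .old (.inv (3, -1, 2))), (12960, .old (.inv (1, 0, -2))),
   (-59400, .old (.inv (2, -1, 1))), (52920, .old (.inv (1, -1, -1))),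
   (-15120, .old (.inv (3, -2, 0))), (98820, .old (.inv (3, -1, -1))),
   (25920, .old (.inv (2, 0, -2))), (-10260, .old (.inv (0, -1, -1))),
   (-28080, .old (.inv (1, -2, 0))), (-3600, .old (.dist2 (1, 1, 0))),
   (-18900, .old (.inv (0, -2, 0))), (-10260, .old (.inv (3, -1, 1))),
   (3600, .old (.dist2 (0, 1, 0))), (-15300, .old (.inv (2, -2, 0))),
   (-7560, .old (.dist2 (1, 0, 1))), (-13500, .old (.inv (0, -1, 1))),
   (-60480, .old (.inv (1, 0, -1))), (66960, .old (.inv (0, 0, -1))),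
   (-42300, .old (.inv (0, -1, 0))), (-47340, .old (.inv (3, -1, 0))),
   (-26640, .old (.inv (2, -1, 0))), (-34560, .old (.inv (3, 0, -1))),
   (-3600, .old (.inv (1, -1, 0))), (-30240, .old (.inv (2, 0, -1))),
   (-2205, .old (.inv (0, 0, 0))), (-3510, .old (.dist2 (0, 0, 0))), (36000, .old (.inv (1, 0, 0)))]

/-- its second certificate -/
def mF2C5av : List (ℤ × RelT E3) :=
  []

theorem mF2_cert5a : mF2D.fastT 4 1 mF2C5a lam1 mF2L5a = true := by decide +kernel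

theorem mF2_cert5a' : mF2D.fastT 4 1 mF2C5av lam2 mF2L5a = true := by decide +kernel

/-- auxiliary data -/
def mF2Q5ap1 : GenQS :=
  ((false, 1, 2), (false, 520, 16), (true, 501, 15))

/-- auxiliary data -/
def mF2E5ap1 : List (Bool × ℕ × ℕ) :=
  [(false, 694, 29), (false, 694, 29), (false, 694, 29), (false, 694, 29), (false, 334, 9),
   (false, 334, 9), (false, 334, 9), (false, 334, 9), (false, 161, 6), (false, 161, 6)]

theorem mF2_num5ap1 : mF2D.numSOK 5 1000000000000000000000000000000000000 mF2R1 mF2Q5ap1 mF2L5a mF2E5ap1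
    (-325000000000000000000000000000000000000000000)
    (-252000000000000000000000000000000000000000000) = true := by decide +kernel

/-- auxiliary data -/
def mF2Q5ap2 : GenQS :=
  ((false, 1, 2), (true, 520, 16), (true, 501, 15))

/-- auxiliary data -/
def mF2E5ap2 : List (Bool × ℕ × ℕ) :=
  [(true, 694, 29), (true, 694, 29), (true, 694, 29), (true, 694, 29), (true, 334, 9),
   (true, 334, 9), (true, 334, 9), (true, 334, 9), (true, 161, 6), (true, 161, 6)]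

theorem mF2_num5ap2 : mF2D.numSOK 5 1000000000000000000000000000000000000 mF2R2 mF2Q5ap2 mF2L5a mF2E5ap2
    (252000000000000000000000000000000000000000000)
    (325000000000000000000000000000000000000000000) = true := by decide +kernel

theorem mF2_weight5 {F : Type u} [Field F] [NumberField F]
    (hF : Fintype.card (InfinitePlace F) = 2) (hr : RootIn F pF) :
    RegulatorNonvanishing 5 F := by
  obtain ⟨x, hx, htop⟩ := hr
  have h := mF2_root hx
  exact h.odd_two (by norm_num) (by decide) hF mF2_polyOK htop mF2L5a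
    (h.ker_rs rfl (by norm_num) mF2L5a
      (h.rs_of_fastT (by norm_num) (by norm_num) mF2_cert5a)
      (h.rs_of_fastT (by norm_num) (by norm_num) mF2_cert5a'))
    (-325000000000000000000000000000000000000000000, -252000000000000000000000000000000000000000000)
    (252000000000000000000000000000000000000000000, 325000000000000000000000000000000000000000000)
    (fun τ hτ => h.regS_mem (by norm_num) (by norm_num) mF2_num5ap1 τ hτ)
    (fun τ hτ => h.regS_mem (by norm_num) (by norm_num) mF2_num5ap2 τ hτ)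
    (Or.inl (by norm_num))

end Pool.Agent.Zagier
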