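import Pool.Agent.Zagier.FieldF2Base
import Pool.Agent.Zagier.FieldNumS
import Pool.Agent.Zagier.RelT

/-!
# Weight six, discriminant 272
-/

open scoped TensorProduct
open NumberField

namespace Pool.Agent.Zagier

universe u

theorem mF2_tor6ap1 : mF2D.torOK 6 mF2R1 (1, 0, 0) (-11260000000000000000000000000000000000000)
    (-8740000000000000000000000000000000000000) = true := by decide +kernel

theorem mF2_tor6ap2 : mF2D.torOK 6 mF2R2 (1, 0, 0) (8740000000000000000000000000000000000000)
    (11260000000000000000000000000000000000000) = true := by decide +kernel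

/-- its second certificate -/
def mF2C6bv : List (ℤ × RelT E3) :=
  [(-337831939469095232000, .old (.kum ⟨(1, -3, 0), (1, -2, 0), (0, -2, 1), (0, -1, 0)⟩)),
   (337831939469095232000, .old (.kum ⟨(0, 3, 0), (3, 2, 0), (2, 2, 1), (1, 1, 0)⟩)),
   (212451569803930557417664, .old (.kum ⟨(1, -3, 0), (0, 0, -1), (0, -2, 1), (1, 0, -1)⟩)),
   (-212451569803930557417664, .old (.kum ⟨(0, 3, 0), (0, 0, -1), (2, 2, 1), (1, 0, -1)⟩)),
   (94984046681989362848000, .old (.cub (0, -3, 0) (0, -1, 1) [18, 6, 20, -17] 37)),
   (-94984046681989362848000, .old (.cub (3, 3, 0) (1, 1, 1) [27, 5, -31, 17] 37)),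
   (-282601323638878003200, .tt 0 ⟨(0, 0, -1), (1, 0, -1), (1, 0, -2), (1, -2, 0), (0, -1, 0), (0, -2, 1)⟩),
   (282601323638878003200, .tt 0 ⟨(0, 0, -1), (1, 0, -1), (1, 0, -2), (3, 2, 0), (1, 1, 0), (2, 2, 1)⟩),
   (-239030230456006152828, .tt 2 ⟨(0, -1, 0), (1, -2, 0), (0, -2, 1), (0, 1, 0), (3, -1, 0), (0, 0, 1)⟩),
   (239030230456006152828, .tt 2 ⟨(1, 1, 0), (3, 2, 0), (2, 2, 1), (3, -1, 0), (0, 1, 0), (0, 0, 1)⟩),
   (-50674790920364284800, .tt 0 ⟨(1, -2, 0), (0, -1, 0), (0, -2, 1), (1, 1, 0), (3, 2, 0), (2, 2, 1)⟩),
   (50674790920364284800, .tt 0 ⟨(3, 2, 0), (1, 1, 0), (2, 2, 1), (0, -1, 0), (1, -2, 0), (0, -2, 1)⟩),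
   (353134741032622395508, .tt 2 ⟨(0, -1, 0), (1, -2, 0), (0, -2, 1), (0, -1, 0), (1, -2, 0), (0, -2, 1)⟩),
   (-353134741032622395508, .tt 2 ⟨(1, 1, 0), (3, 2, 0), (2, 2, 1), (1, 1, 0), (3, 2, 0), (2, 2, 1)⟩),
   (-119996928125495810680, .tt 2 ⟨(0, 1, 0), (3, -1, 0), (0, 0, 1), (1, -2, 0), (0, -1, 0), (0, -2, 1)⟩),
   (119996928125495810680, .tt 2 ⟨(3, -1, 0), (0, 1, 0), (0, 0, 1), (3, 2, 0), (1, 1, 0), (2, 2, 1)⟩),
   (-50398709812708240485600, .old (.dist2 (0, 4, 2))),
   (16053676086178723852000, .old (.inv (3, -7, 5))),
   (-45331230720671812005600, .old (.inv (0, -8, -4))),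
   (-45931215361299291059000, .old (.inv (2, -7, -5))),
   (5067479092036428480000, .old (.inv (0, -8, 4))),
   (50398709812708240485600, .old (.dist2 (0, 4, -2))),
   (45331230720671812005600, .old (.inv (3, -7, -4))),
   (45331230720671812005600, .old (.inv (1, -5, -5))),
   (-64668874746723037870464, .old (.inv (3, -10, 0))),
   (-12599677453177060121400, .old (.inv (2, -5, 5))),
   (179670878171568021452000, .old (.inv (0, -6, -3))),
   (-113599918339015850197600, .old (.inv (2, -6, 3))),
   (-97383985244499279061600, .old (.inv (1, -9, 0))),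
   (540531103150552371200, .old (.inv (1, -8, 1))),
   (-97383985244499279061600, .old (.inv (2, -9, 0))),
   (-289654540869244360635000, .old (.inv (2, -5, -3))),
   (-118667397431052278677600, .old (.inv (0, -5, 3))),
   (133579525587090745174400, .old (.inv (3, -5, -3))),
   (-155331336188066661881664, .old (.inv (0, -8, 0))),
   (591205894070916656000, .old (.inv (1, -7, -1))),
   (-1413006618194390016000, .old (.inv (0, -5, 2))),
   (-1130405294555512012800, .old (.inv (2, -3, -4))),
   (-114864885395749821216864, .old (.inv (1, -4, -3))),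
   (-84938791114868751790464, .old (.inv (3, -4, 3))),
   (-806600279466652716684800, .old (.dist2 (1, 2, 1))),
   (-1130405294555512012800, .old (.inv (2, -4, 2))),
   (-211656537587672083693000, .old (.inv (3, -3, -3))),
   (705305856270259322484000, .old (.inv (3, -5, -1))),
   (1879707003490600911750000, .old (.inv (2, -5, -1))),
   (976446169581653703636000, .old (.inv (0, -4, -2))),
   (-426921462159748489968000, .old (.dist2 (0, 3, 0))),
   (436521216409788154822400, .old (.inv (2, -6, 0))),
   (2478272505778828061244000, .old (.inv (1, -5, 1))),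
   (1328659888487468431054976, .old (.inv (1, -6, 0))),
   (1948741633617412517181600, .old (.dist2 (0, 2, -1))),
   (806600279466652716684800, .old (.dist2 (1, 2, -1))),
   (337831939469095232000, .old (.inv (2, -5, 1))),
   (-1351327757876380928000, .old (.inv (2, -4, -2))),
   (-46985275431791038576000, .old (.inv (2, -3, 3))),
   (2118808446195734373048000, .old (.inv (0, -4, 2))),
   (-1948741633617412517181600, .old (.dist2 (0, 2, 1))),
   (426921462159748489968000, .old (.dist2 (1, 3, 0))),
   (125996774531770601214000, .old (.inv (0, -5, 1))),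
   (9599754250039664854400, .old (.inv (0, -6, 0))),
   (1937507356504108103904000, .old (.inv (1, -3, -2))),
   (-241032478829088499644000, .old (.inv (0, -3, 2))),
   (5652026472777560064000, .old (.inv (1, -3, 2))),
   (-1413006618194390016000, .old (.inv (0, -3, -2))),
   (-146396252313104889029600, .old (.inv (1, -5, 0))),
   (-265046691462878271184000, .old (.inv (0, -4, -1))),
   (2105399331584541124618976, .old (.inv (3, -4, -1))),
   (1091006328480463505498976, .old (.inv (1, -4, 1))),
   (-146396252313104889029600, .old (.inv (2, -5, 0))),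
   (662861335137110968544000, .old (.inv (0, -4, 1))),
   (2313216615350849442734400, .old (.inv (1, -3, -1))),
   (-3885843633064663456932000, .old (.inv (2, -2, -2))),
   (1731680681575651675884000, .old (.dist2 (0, 1, -1))),
   (-201431250091762242384000, .old (.inv (3, -3, 1))),
   (1209358035157920043683600, .old (.inv (0, -3, 1))),
   (35399093797021264150600, .old (.inv (2, -1, -3))),
   (98448155853826929042400, .old (.inv (3, -1, -3))),
   (-480595143344238338721024, .old (.inv (3, -2, 2))),
   (-2154162951489011781048000, .old (.inv (0, -2, 2))),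
   (-835955988232582285706400, .old (.inv (2, -3, -1))),
   (969880738053633543622976, .old (.inv (3, -2, -2))),
   (-143185028708905736396000, .old (.inv (1, -3, 1))),
   (-560701689222101682182000, .old (.inv (0, -3, -1))),
   (-3207510982132026203208576, .old (.inv (2, -4, 0))),
   (94716444714972766795200, .old (.inv (0, -4, 0))),
   (93330001970870136277600, .old (.inv (1, -1, 3))),
   (-1731680681575651675884000, .old (.dist2 (1, 1, 1))),
   (-4053983273629142784000, .old (.inv (1, -4, 0))),
   (-4053983273629142784000, .old (.inv (3, -4, 0))),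
   (47998771250198324272000, .old (.inv (0, -1, 3))),
   (14130066181943900160000, .old (.inv (1, -1, -2))),
   (-1376211729990429030888000, .old (.inv (0, -1, -2))),
   (2639811024465937737877440, .old (.inv (2, -2, -1))),
   (719698967429335986076800, .old (.inv (0, -1, 2))),
   (-569079467234604293691424, .old (.inv (1, -2, 1))),
   (-4092879242974851126813760, .old (.inv (0, -2, 1))),
   (8713441805808464651217600, .old (.inv (2, -3, 0))),
   (1882698411252488811729600, .old (.inv (3, -3, 0))),
   (1160330557352157934536000, .old (.inv (1, -1, 2))),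
   (-1674175238987028538328000, .old (.inv (3, -2, 1))),
   (-1952519679329159168852000, .old (.inv (3, -2, -1))),
   (1967999491281553112316000, .old (.inv (2, -1, -2))),
   (-802438991520706977783424, .old (.inv (1, -2, -1))),
   (7769962132166783069156000, .old (.inv (0, -2, -1))),
   (3015745350319051755662400, .old (.inv (0, -3, 0))),
   (1445219509451910805252000, .old (.inv (3, -1, -2))),
   (-3814998044236924083825600, .old (.inv (1, -3, 0))),
   (345030511645476397868000, .old (.inv (2, -2, 1))),
   (670700232528665794382976, .old (.inv (3, -1, 1))),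
   (203159984933964407441376, .old (.inv (2, -2, 0))),
   (6244715520627396330842000, .old (.inv (2, -1, 1))),
   (-589056266220684145768000, .old (.inv (1, -1, -1))),
   (203159984933964407441376, .old (.inv (0, -2, 0))),
   (739910051351399403388976, .old (.inv (0, -1, -1))),
   (16713035692423690168972992, .old (.inv (1, -2, 0))),
   (5148706139263313976960000, .old (.inv (0, -1, 1))),
   (2493850135130768219312640, .old (.inv (3, -2, 0))),
   (164906779011452627610400, .old (.inv (2, -1, -1))),
   (374840251611091473654400, .old (.inv (1, -1, 1))),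
   (-1661065040992258817856000, .old (.inv (3, -1, -1))),
   (-1533294719671978541021600, .old (.inv (1, -1, 0))),
   (-3862440690387640165589376, .old (.inv (3, -1, 0))),
   (-3862440690387640165589376, .old (.inv (0, -1, 0))),
   (-1533294719671978541021600, .old (.inv (2, -1, 0)))]

theorem mF2_cert6b' : mF2D.fastT 5 1 mF2C6bv lam2 mF2L6b = true := by decide +kernel

/-- auxiliary data -/
def mF2Q6bp1 : GenQS :=
  ((false, 1, 3), (false, 520, 30), (true, 501, 28))

/-- auxiliary data -/
def mF2E6bp1 : List (Bool × ℕ × ℕ) :=
  [(false, 29, 6), (false, 14, 5), (false, 84, 8), (false, 20, 5), (false, 246, 14),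
   (false, 246, 14), (false, 118, 9), (false, 82, 8), (false, 57, 7), (false, 57, 7),
   (false, 40, 6), (false, 347, 18), (false, 347, 18), (false, 347, 18), (false, 347, 18),
   (false, 241, 14), (false, 167, 11), (false, 167, 11), (false, 81, 8), (false, 491, 27),
   (false, 491, 27), (false, 491, 27), (false, 491, 27), (false, 340, 18), (false, 340, 18),
   (false, 340, 18), (false, 340, 18), (false, 236, 13), (false, 236, 13), (false, 236, 13),
   (false, 164, 11), (false, 164, 11), (false, 114, 9), (false, 114, 9), (false, 114, 9),
   (false, 55, 7), (false, 38, 6), (false, 694, 54), (false, 694, 54), (false, 694, 54),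
   (false, 694, 54), (false, 481, 27), (false, 481, 27), (false, 334, 18), (false, 334, 18),
   (false, 334, 18), (false, 334, 18), (false, 231, 13), (false, 231, 13), (false, 161, 11),
   (false, 161, 11), (false, 111, 9), (false, 37, 6), (false, 37, 6), (false, 26, 6),
   (false, 981, 1167), (false, 981, 1167), (false, 981, 1167), (false, 981, 1167),
   (false, 680, 51), (false, 680, 51), (false, 680, 51), (false, 680, 51), (false, 472, 26),
   (false, 472, 26), (false, 472, 26), (false, 327, 17), (false, 327, 17), (false, 227, 13),
   (false, 227, 13), (false, 227, 13), (false, 109, 9), (false, 76, 8), (true, 722, 61),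
   (true, 722, 61), (true, 722, 61), (true, 722, 61), (false, 962, 560), (false, 667, 49),
   (false, 667, 49), (false, 321, 17), (true, 511, 29), (true, 511, 29), (false, 943, 363),
   (false, 654, 46), (false, 453, 25), (false, 453, 25), (false, 314, 17), (true, 751, 70),
   (false, 308, 16), (false, 906, 211), (false, 436, 23)]

theorem mF2_num6bp1 : mF2D.numSOK 6 100000000000000000000000000000000 mF2R1 mF2Q6bp1 mF2L6b mF2E6bp1
    (-386000000000000000000000000000000000000000000000000000000000000)
    (-299000000000000000000000000000000000000000000000000000000000000) = true := by decide +kernel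

/-- auxiliary data -/
def mF2Q6bp2 : GenQS :=
  ((false, 1, 3), (true, 520, 30), (true, 501, 28))

/-- auxiliary data -/
def mF2E6bp2 : List (Bool × ℕ × ℕ) :=
  [(true, 906, 211), (true, 436, 23), (false, 751, 70), (true, 308, 16), (false, 511, 29),
   (false, 511, 29), (true, 943, 363), (true, 654, 46), (true, 453, 25), (true, 453, 25),
   (true, 314, 17), (false, 722, 61), (false, 722, 61), (false, 722, 61), (false, 722, 61),
   (true, 962, 560), (true, 667, 49), (true, 667, 49), (true, 321, 17), (true, 981, 1167),
   (true, 981, 1167), (true, 981, 1167), (true, 981, 1167), (true, 680, 51), (true, 680, 51),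
   (true, 680, 51), (true, 680, 51), (true, 472, 26), (true, 472, 26), (true, 472, 26),
   (true, 327, 17), (true, 327, 17), (true, 227, 13), (true, 227, 13), (true, 227, 13),
   (true, 109, 9), (true, 76, 8), (true, 694, 54), (true, 694, 54), (true, 694, 54),
   (true, 694, 54), (true, 481, 27), (true, 481, 27), (true, 334, 18), (true, 334, 18),
   (true, 334, 18), (true, 334, 18), (true, 231, 13), (true, 231, 13), (true, 161, 11),
   (true, 161, 11), (true, 111, 9), (true, 37, 6), (true, 37, 6), (true, 26, 6), (true, 491, 27),
   (true, 491, 27), (true, 491, 27), (true, 491, 27), (true, 340, 18), (true, 340, 18),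
   (true, 340, 18), (true, 340, 18), (true, 236, 13), (true, 236, 13), (true, 236, 13),
   (true, 164, 11), (true, 164, 11), (true, 114, 9), (true, 114, 9), (true, 114, 9), (true, 55, 7),
   (true, 38, 6), (true, 347, 18), (true, 347, 18), (true, 347, 18), (true, 347, 18),
   (true, 241, 14), (true, 167, 11), (true, 167, 11), (true, 81, 8), (true, 246, 14),
   (true, 246, 14), (true, 118, 9), (true, 82, 8), (true, 57, 7), (true, 57, 7), (true, 40, 6),
   (true, 84, 8), (true, 20, 5), (true, 29, 6), (true, 14, 5)]

theorem mF2_num6bp2 : mF2D.numSOK 6 100000000000000000000000000000000 mF2R2 mF2Q6bp2 mF2L6b mF2E6bp2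
    (-386000000000000000000000000000000000000000000000000000000000000)
    (-299000000000000000000000000000000000000000000000000000000000000) = true := by decide +kernel

end Pool.Agent.Zagier
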