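import Pool.Agent.Zagier.FieldF2Base
import Pool.Agent.Zagier.FieldF2W6a
import Pool.Agent.Zagier.FieldF2W6b

/-!
# Weight six, discriminant 272
-/

open scoped TensorProduct
open NumberField

namespace Pool.Agent.Zagier

universe u

theorem mF2_weight6 {F : Type u} [Field F] [NumberField F]
    (hF : Fintype.card (InfinitePlace F) = 2) (hr : RootIn F pF) :
    RegulatorNonvanishing 6 F := by
  obtain ⟨x, hx, htop⟩ := hr
  have h := mF2_root hx
  exact h.even_two (by norm_num) (by decide) hF mF2_im.1 mF2_im.2 mF2_polyOK htop
    [(1, (1, 0, 0))] mF2L6b
    (h.ker_tor rfl (by norm_num) (by norm_num) (1, 0, 0) rfl)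
    (h.ker_rs rfl (by norm_num) mF2L6b
      (h.rs_of_fastT (by norm_num) (by norm_num) mF2_cert6b)
      (h.rs_of_fastT (by norm_num) (by norm_num) mF2_cert6b'))
    (-11260000000000000000000000000000000000000, -8740000000000000000000000000000000000000)
    (8740000000000000000000000000000000000000, 11260000000000000000000000000000000000000)
    (-386000000000000000000000000000000000000000000000000000000000000, -299000000000000000000000000000000000000000000000000000000000000)
    (-386000000000000000000000000000000000000000000000000000000000000, -299000000000000000000000000000000000000000000000000000000000000)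
    (fun τ hτ => h.reg_tor mF2_tor6ap1 τ hτ)
    (fun τ hτ => h.reg_tor mF2_tor6ap2 τ hτ)
    (fun τ hτ => h.regS_mem (by norm_num) (by norm_num) mF2_num6bp1 τ hτ)
    (fun τ hτ => h.regS_mem (by norm_num) (by norm_num) mF2_num6bp2 τ hτ)
    (by decide +kernel)

end Pool.Agent.Zagier
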