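import Pool.Agent.Zagier.FieldThm
import Pool.Agent.Zagier.Classify

/-!
# The quartic field of discriminant 272
-/

open scoped TensorProduct
open NumberField

namespace Pool.Agent.Zagier

universe u

/-- field data -/
def mFD : FD := ⟨[1, 0, 1, -2], 4, (([0, -1, 1], [0, 1, -1], 1), ([0, 1], [0, -1, 2, -1], 1), ([-1, -1, 0, 0], [-4, 4, -3, 1], 5)), (2, 0, 0), (0, 0, 0)⟩

/-- an approximate root -/
def mFR1 : ℤ × ℤ :=
  (-30024259022012041915890982074952138854853281918394761010483614075281280349913638150891028341342194664829698406101717401219229034202824539539465081596984890300210787520961963904542810643999784673388974,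
    62481053384382658687960444744285144400523445641900232747015431465317105543949640705245289127553295091731702238479364023540740684615151171224891864520331730634309370981481151990195863839284699318197352)

/-- an approximate root -/
def mFR2 : ℤ × ℤ :=
  (130024259022012041915890982074952138854853281918394761010483614075281280349913638150891028341342194664829698406101717401219229034202824539539465081596984890300210787520961963904542810643999784673388974,
    62481053384382658687960444744285144400523445641900232747015431465317105543949640705245289127553295091731702238479364023540740684615151171224891864520331730634309370981481151990195863839284699318197352)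

/-- all approximate roots -/
def mFA : List (ℤ × ℤ) := [mFR1, (mFR1.1, -mFR1.2), mFR2, (mFR2.1, -mFR2.2)]

theorem mF_ok : mFD.ok = true := by decide +kernel

theorem mF_polyOK : polyOK mFD.p mFA [mFR1, mFR2] 4 = true := by decide +kernel

theorem mF_root {K : Type u} [Field K] {x : K} (hx : evP x (pF ++ [1]) = 0) : mFD.Root x :=
  ⟨mF_ok, hx⟩

theorem mF_im : imOK mFR1 = true ∧ imOK mFR2 = true := by decide +kernel

end Pool.Agent.Zagier
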