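import Pool.Agent.Zagier.FieldThm
import Pool.Agent.Zagier.Classify

/-!
# The quartic field of discriminant 125
-/

open scoped TensorProduct
open NumberField

namespace Pool.Agent.Zagier

universe u

/-- field data -/
def mGD : FD := ⟨[1, -1, 1, -1], 10, (([0, 1], [1, -1, 1, -1], 1), ([1], [1], 1), ([1], [1], 1)), (5, 0, 0), (0, 0, 0)⟩

/-- an approximate root -/
def mGR1 : ℤ × ℤ :=
  (-30901699437494742410229341718281905886015458990288143106772431135263023140945122485360360209469556874237704403769344587606331693111176846589659003038336317721669454329796979145281916133065996414513394,
    95105651629515357211643933337938214340569863412575022244730564443015317008519350171879281097081138167589971755140300420898706619376969992631521227031318237878577743797040103271821710092100151805260401)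

/-- an approximate root -/
def mGR2 : ℤ × ℤ :=
  (80901699437494742410229341718281905886015458990288143106772431135263023140945122485360360209469556874237704403769344587606331693111176846589659003038336317721669454329796979145281916133065996414513394,
    58778525229247312916870595463907276859765243764314599107227248075727847416235195750850404986274133596005313160275265936633893032593590773053260593224463924726753349828132630679079794858441613269644047)

/-- all approximate roots -/
def mGA : List (ℤ × ℤ) := [mGR1, (mGR1.1, -mGR1.2), mGR2, (mGR2.1, -mGR2.2)]

theorem mG_ok : mGD.ok = true := by decide +kernel

theorem mG_polyOK : polyOK mGD.p mGA [mGR1, mGR2] 4 = true := by decide +kernel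

theorem mG_root {K : Type u} [Field K] {x : K} (hx : evP x (pG ++ [1]) = 0) : mGD.Root x :=
  ⟨mG_ok, hx⟩

theorem mG_im : imOK mGR1 = true ∧ imOK mGR2 = true := by decide +kernel

end Pool.Agent.Zagier
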