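import Pool.Agent.Zagier.FieldGBase

/-!
# Weight five, discriminant 125
-/

open scoped TensorProduct
open NumberField

namespace Pool.Agent.Zagier

universe u

theorem mG_tor5ap1 : mGD.torOK 5 mGR1 (1, 0, 0) (-4350160000000000000000000000000000000000)
    (-1830160000000000000000000000000000000000) = true := by decide +kernel

theorem mG_tor5ap2 : mGD.torOK 5 mGR2 (1, 0, 0) (6830160000000000000000000000000000000000)
    (9350160000000000000000000000000000000000) = true := by decide +kernel

theorem mG_weight5 {F : Type u} [Field F] [NumberField F]
    (hF : Fintype.card (InfinitePlace F) = 2) (hr : RootIn F pG) :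
    RegulatorNonvanishing 5 F := by
  obtain ⟨x, hx, htop⟩ := hr
  have h := mG_root hx
  exact h.odd_two (by norm_num) (by decide) hF mG_polyOK htop [(1, (1, 0, 0))]
    (h.ker_tor rfl (by norm_num) (by norm_num) (1, 0, 0) rfl)
    (-4350160000000000000000000000000000000000, -1830160000000000000000000000000000000000)
    (6830160000000000000000000000000000000000, 9350160000000000000000000000000000000000)
    (fun τ hτ => h.reg_tor mG_tor5ap1 τ hτ)
    (fun τ hτ => h.reg_tor mG_tor5ap2 τ hτ)
    (Or.inl (by norm_num))

end Pool.Agent.Zagier
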