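import Pool.Agent.Zagier.FieldGBase

/-!
# Weight eight, discriminant 125
-/

open scoped TensorProduct
open NumberField

namespace Pool.Agent.Zagier

universe u

theorem mG_tor8ap1 : mGD.torOK 8 mGR1 (1, 0, 0) (8250560000000000000000000000000000000000)
    (10770560000000000000000000000000000000000) = true := by decide +kernel

theorem mG_tor8ap2 : mGD.torOK 8 mGR2 (1, 0, 0) (4617850000000000000000000000000000000000)
    (7137850000000000000000000000000000000000) = true := by decide +kernel

theorem mG_tor8bp1 : mGD.torOK 8 mGR1 (2, 0, 0) (-7137850000000000000000000000000000000000)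
    (-4617850000000000000000000000000000000000) = true := by decide +kernel

theorem mG_tor8bp2 : mGD.torOK 8 mGR2 (2, 0, 0) (8250560000000000000000000000000000000000)
    (10770560000000000000000000000000000000000) = true := by decide +kernel

theorem mG_weight8 {F : Type u} [Field F] [NumberField F]
    (hF : Fintype.card (InfinitePlace F) = 2) (hr : RootIn F pG) :
    RegulatorNonvanishing 8 F := by
  obtain ⟨x, hx, htop⟩ := hr
  have h := mG_root hx
  exact h.even_two (by norm_num) (by decide) hF mG_im.1 mG_im.2 mG_polyOK htop
    [(1, (1, 0, 0))] [(1, (2, 0, 0))]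
    (h.ker_tor rfl (by norm_num) (by norm_num) (1, 0, 0) rfl)
    (h.ker_tor rfl (by norm_num) (by norm_num) (2, 0, 0) rfl)
    (8250560000000000000000000000000000000000, 10770560000000000000000000000000000000000)
    (4617850000000000000000000000000000000000, 7137850000000000000000000000000000000000)
    (-7137850000000000000000000000000000000000, -4617850000000000000000000000000000000000)
    (8250560000000000000000000000000000000000, 10770560000000000000000000000000000000000)
    (fun τ hτ => h.reg_tor mG_tor8ap1 τ hτ)
    (fun τ hτ => h.reg_tor mG_tor8ap2 τ hτ)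
    (fun τ hτ => h.reg_tor mG_tor8bp1 τ hτ)
    (fun τ hτ => h.reg_tor mG_tor8bp2 τ hτ)
    (by decide +kernel)

end Pool.Agent.Zagier
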