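import Pool.Agent.Zagier.FieldThm
import Pool.Agent.Zagier.Classify

/-!
# The quartic field of discriminant 144
-/

open scoped TensorProduct
open NumberField

namespace Pool.Agent.Zagier

universe u

/-- field data -/
def mHD : FD := ⟨[1, 0, -1, 0], 12, (([0, 1], [0, 1, 0, -1], 1), ([1], [1], 1), ([1], [1], 1)), (6, 0, 0), (4, 0, 0)⟩

/-- an approximate root -/
def mHR1 : ℤ × ℤ :=
  (-86602540378443864676372317075293618347140262690519031402790348972596650845440001854057309337862428783781307070770335151498497254749947623940582775604718682426404661595115279103398741005054233746163251,
    50000000000000000000000000000000000000000000000000000000000000000000000000000000000000000000000000000000000000000000000000000000000000000000000000000000000000000000000000000000000000000000000000000000)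

/-- an approximate root -/
def mHR2 : ℤ × ℤ :=
  (86602540378443864676372317075293618347140262690519031402790348972596650845440001854057309337862428783781307070770335151498497254749947623940582775604718682426404661595115279103398741005054233746163251,
    50000000000000000000000000000000000000000000000000000000000000000000000000000000000000000000000000000000000000000000000000000000000000000000000000000000000000000000000000000000000000000000000000000000)

/-- all approximate roots -/
def mHA : List (ℤ × ℤ) := [mHR1, (mHR1.1, -mHR1.2), mHR2, (mHR2.1, -mHR2.2)]

theorem mH_ok : mHD.ok = true := by decide +kernel

theorem mH_polyOK : polyOK mHD.p mHA [mHR1, mHR2] 2 = true := by decide +kernel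

theorem mH_root {K : Type u} [Field K] {x : K} (hx : evP x (pH ++ [1]) = 0) : mHD.Root x :=
  ⟨mH_ok, hx⟩

theorem mH_im : imOK mHR1 = true ∧ imOK mHR2 = true := by decide +kernel

end Pool.Agent.Zagier
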