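import Pool.Agent.Zagier.RootBall
import Pool.Agent.Zagier.FieldEmb
import Pool.Agent.Zagier.Analytic

/-!
# Places and approximate roots
-/

open scoped TensorProduct
open NumberField

namespace Pool.Agent.Zagier

universe u

/-! ### complex conjugation -/

theorem Li_conj (m : ℕ) (z : ℂ) : Li m ((starRingEnd ℂ) z) = (starRingEnd ℂ) (Li m z) := by
  rw [Li, Li, Complex.conj_tsum]
  congr 1
  ext k
  simp

theorem polySum_conj (n : ℕ) (z : ℂ) :
    polySum n ((starRingEnd ℂ) z) = (starRingEnd ℂ) (polySum n z) := by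
  rw [polySum, polySum, map_sum]
  refine Finset.sum_congr rfl fun k _ => ?_
  rw [map_mul, Complex.conj_ofReal, Li_conj, RCLike.norm_conj]

theorem calLdisc_conj {n : ℕ} (hn : 0 < n) (z : ℂ) :
    calLdisc n ((starRingEnd ℂ) z) = (-1) ^ (n - 1) * calLdisc n z := by
  unfold calLdisc
  by_cases ho : Odd n
  · have h5 : Even (n - 1) := by rw [Nat.even_sub' hn]; simp [ho]
    rw [if_pos ho, if_pos ho, polySum_conj, Complex.conj_re, h5.neg_one_pow, one_mul]
  · have he : Even n := Nat.not_odd_iff_even.1 ho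
    have h5 : Odd (n - 1) := by rw [Nat.odd_sub' hn]; simp [he]
    rw [if_neg ho, if_neg ho, polySum_conj, Complex.conj_im, h5.neg_one_pow]
    ring

theorem calL_conj {n : ℕ} (hn : 0 < n) (z : ℂ) :
    calL n (((starRingEnd ℂ) z : ℂ) : OnePoint ℂ) = (-1) ^ (n - 1) * calL n (z : OnePoint ℂ) := by
  by_cases h : ‖z‖ ≤ 1
  · rw [calL_of_le h, calL_of_le (by rwa [RCLike.norm_conj]), calLdisc_conj hn]
  · have h' := not_le.1 h
    rw [calL_of_gt h', calL_of_gt (by rwa [RCLike.norm_conj]), ← map_inv₀, calLdisc_conj hn]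

section

variable {F : Type u} [Field F]

theorem reg_conj {n : ℕ} (hn : 0 < n) (σ : F →+* ℂ) (α : ZP1 F) :
    reg n (ComplexEmbedding.conjugate σ) α = (-1) ^ (n - 1) * reg n σ α := by
  induction α using Finsupp.induction_linear with
  | zero => simp
  | add a b ha hb => rw [map_add, map_add, ha, hb]; ring
  | single p c =>
    rw [reg, reg, extend_single, extend_single, zsmul_eq_mul, zsmul_eq_mul]
    have : calL n (p.map (ComplexEmbedding.conjugate σ)) = (-1) ^ (n - 1) * calL n (p.map σ) := by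
      induction p using OnePoint.rec with
      | infty => simp [calL]
      | coe x => exact calL_conj hn (σ x)
    rw [this]; ring

theorem evP_map {K L : Type*} [Field K] [Field L] (σ : K →+* L) (x : K) (l : List ℤ) :
    σ (evP x l) = evP (σ x) l := by
  induction l with
  | nil => simp [evP]
  | cons c l ih => simp [evP, ih]

end

/-! ### canonical embeddings -/

/-- every approximate root or its conjugate is in the list `C` -/
def canonOK (A C : List (ℤ × ℤ)) : Bool :=
  A.all fun a => C.contains a || C.contains (a.1, -a.2)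

theorem exists_near_emb {F : Type u} [Field F] {p : List ℤ} {A C : List (ℤ × ℤ)} {M : ℕ}
    (hr : rootsOK p A M = true) (hc : canonOK A C = true) (x : F) (hx : evP x (p ++ [1]) = 0)
    (σ : F →+* ℂ) : ∃ a ∈ C, ∃ τ : F →+* ℂ, (τ = σ ∨ τ = ComplexEmbedding.conjugate σ) ∧
      Near (τ x) a := by
  have h1 : evP (σ x) (p ++ [1]) = 0 := by rw [← evP_map, hx, map_zero]
  obtain ⟨a, ha, hn⟩ := root_near hr h1
  have h2 := List.all_eq_true.1 hc a ha
  simp only [Bool.or_eq_true, List.contains_iff_mem] at h2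
  rcases h2 with h2 | h2
  · exact ⟨a, h2, σ, Or.inl rfl, hn⟩
  · exact ⟨_, h2, ComplexEmbedding.conjugate σ, Or.inr rfl, hn.conj⟩

/-- the checks on a polynomial with its approximate roots -/
def polyOK (p : List ℤ) (A C : List (ℤ × ℤ)) (M : ℕ) : Bool :=
  rootsOK p A M && (canonOK A C && C.all fun a => nzB (ddB (toCB a) (p ++ [1])))

section Field

variable {F : Type u} [Field F] [NumberField F]

theorem place_eq_of_near {p : List ℤ} {A C : List (ℤ × ℤ)} {M : ℕ} (hp : polyOK p A C M = true)
    (x : F) (hx : evP x (p ++ [1]) = 0) (htop : IntermediateField.adjoin ℚ {x} = ⊤)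
    (v w : InfinitePlace F) (τ τ' : F →+* ℂ)
    (hτ : τ = v.embedding ∨ τ = ComplexEmbedding.conjugate v.embedding)
    (hτ' : τ' = w.embedding ∨ τ' = ComplexEmbedding.conjugate w.embedding)
    {a : ℤ × ℤ} (ha : a ∈ C) (h : Near (τ x) a) (h' : Near (τ' x) a) : v = w ∧ τ = τ' := by
  simp only [polyOK, Bool.and_eq_true] at hp
  have h1 := List.all_eq_true.1 hp.2.2 a ha
  have h2 : τ x = τ' x := by
    refine root_unique h1 h.has h'.has ?_ ?_
    · rw [← evP_map, hx, map_zero]
    · rw [← evP_map, hx, map_zero]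
  have h3 := emb_ext x htop τ τ' h2
  have hv : InfinitePlace.mk τ = v := by
    rcases hτ with rfl | rfl
    · exact InfinitePlace.mk_embedding v
    · rw [InfinitePlace.mk_conjugate_eq]; exact InfinitePlace.mk_embedding v
  have hw : InfinitePlace.mk τ' = w := by
    rcases hτ' with rfl | rfl
    · exact InfinitePlace.mk_embedding w
    · rw [InfinitePlace.mk_conjugate_eq]; exact InfinitePlace.mk_embedding w
  exact ⟨by rw [← hv, ← hw, h3], h3⟩

omit [NumberField F] in
theorem reg_abs_of_conj {n : ℕ} (hn : 0 < n) (v : InfinitePlace F) (τ : F →+* ℂ)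
    (hτ : τ = v.embedding ∨ τ = ComplexEmbedding.conjugate v.embedding) (y : ZP1 F) :
    reg n τ y = reg n v.embedding y ∨ reg n τ y = (-1) ^ (n - 1) * reg n v.embedding y := by
  rcases hτ with rfl | rfl
  · exact Or.inl rfl
  · exact Or.inr (reg_conj hn _ _)

omit [NumberField F] in
theorem one_mem_ker (n : ℕ) : (br (1 : F)) ∈ kerDelta n F := by
  rw [mem_kerDelta_iff]
  have := deltaOf_br (Rel (n - 1) F) (1 : Fˣ)
  simpa using this

/-- odd weight, two places -/
theorem regulator_odd_two {n : ℕ} (hodd : Odd n) (hn2 : 2 ≤ n)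
    (hF : Fintype.card (InfinitePlace F) = 2)
    {p : List ℤ} {A : List (ℤ × ℤ)} {M : ℕ} {a₁ a₂ : ℤ × ℤ}
    (hp : polyOK p A [a₁, a₂] M = true) (x : F) (hx : evP x (p ++ [1]) = 0)
    (htop : IntermediateField.adjoin ℚ {x} = ⊤) (y : ZP1 F) (hy : ∃ N : ℕ, 0 < N ∧
      N • y ∈ kerDelta n F)
    (hne : ∀ τ τ' : F →+* ℂ, Near (τ x) a₁ → Near (τ' x) a₂ → reg n τ y ≠ reg n τ' y) :
    RegulatorNonvanishing n F := by
  obtain ⟨N, hN, hker⟩ := hy
  obtain ⟨v, w, hvw⟩ : ∃ v w : InfinitePlace F, v ≠ w := by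
    have : 1 < Fintype.card (InfinitePlace F) := by rw [hF]; norm_num
    exact Fintype.one_lt_card_iff.1 this
  have hp' := hp
  simp only [polyOK, Bool.and_eq_true] at hp'
  obtain ⟨a, ha, τ, hτ, hna⟩ := exists_near_emb hp'.1 hp'.2.1 x hx v.embedding
  obtain ⟨b, hb, τ', hτ', hnb⟩ := exists_near_emb hp'.1 hp'.2.1 x hx w.embedding
  have heven : Even (n - 1) := by
    rw [Nat.even_sub' (by omega)]; simp [hodd]
  have hv : reg n τ y = reg n v.embedding y := by
    rcases reg_abs_of_conj (n := n) (by omega) v τ hτ y with h | h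
    · exact h
    · rw [h, heven.neg_one_pow, one_mul]
  have hw : reg n τ' y = reg n w.embedding y := by
    rcases reg_abs_of_conj (n := n) (by omega) w τ' hτ' y with h | h
    · exact h
    · rw [h, heven.neg_one_pow, one_mul]
  have hab : a ≠ b := by
    rintro rfl
    exact hvw (place_eq_of_near hp x hx htop v w τ τ' hτ hτ' ha hna hnb).1
  have hneq : reg n v.embedding y ≠ reg n w.embedding y := by
    rw [← hv, ← hw]
    simp only [List.mem_cons, List.not_mem_nil, or_false] at ha hb
    rcases ha with rfl | rfl <;> rcases hb with rfl | rfl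
    · exact absurd rfl hab
    · exact hne τ τ' hna hnb
    · exact (hne τ' τ hnb hna).symm
    · exact absurd rfl hab
  refine regulator_of_two hodd hF v w hvw (br 1) (N • y) (one_mem_ker n) hker ?_
  rw [map_nsmul, map_nsmul, reg_br, reg_br, map_one, map_one, calL_one n hodd]
  have hz := Lr_one_pos n hn2
  have hN' : (0 : ℝ) < N := by exact_mod_cast hN
  rw [nsmul_eq_mul, nsmul_eq_mul]
  have e1 : Lr n 1 * (N * reg n w.embedding y) - Lr n 1 * (N * reg n v.embedding y) =
      (Lr n 1 * N) * (reg n w.embedding y - reg n v.embedding y) := by ring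
  rw [e1]
  exact mul_ne_zero (mul_pos hz hN').ne' (sub_ne_zero.2 hneq.symm)

/-- even weight, one real and one complex class of roots -/
theorem regulator_even_one {n : ℕ} (heven : Even n) (hn2 : 2 ≤ n)
    {p : List ℤ} {A : List (ℤ × ℤ)} {M : ℕ} {a₁ a₂ : ℤ × ℤ} (ha₁ : a₁.2 = 0)
    (hp : polyOK p A [a₁, a₂] M = true) (x : F) (hx : evP x (p ++ [1]) = 0)
    (htop : IntermediateField.adjoin ℚ {x} = ⊤) (y : ZP1 F) (hy : ∃ N : ℕ, 0 < N ∧
      N • y ∈ kerDelta n F)
    (hne : ∀ τ : F →+* ℂ, Near (τ x) a₂ → reg n τ y ≠ 0) :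
    RegulatorNonvanishing n F := by
  obtain ⟨N, hN, hker⟩ := hy
  have hp' := hp
  simp only [polyOK, Bool.and_eq_true] at hp'
  have hnodd : ¬ Odd n := by rwa [Nat.not_odd_iff_even]
  have key : ∀ v : InfinitePlace F, v.IsComplex → ∃ τ : F →+* ℂ,
      (τ = v.embedding ∨ τ = ComplexEmbedding.conjugate v.embedding) ∧ Near (τ x) a₂ := by
    intro v hv
    obtain ⟨a, ha, τ, hτ, hna⟩ := exists_near_emb hp'.1 hp'.2.1 x hx v.embedding
    simp only [List.mem_cons, List.not_mem_nil, or_false] at ha
    rcases ha with rfl | rfl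
    · exfalso
      have hna' : Near ((ComplexEmbedding.conjugate τ) x) a := by
        have h1 := hna.conj
        rw [ha₁, neg_zero] at h1
        have h2 : ((a.1, 0) : ℤ × ℤ) = a := Prod.ext rfl ha₁.symm
        rw [h2] at h1
        exact h1
      have hτ' : ComplexEmbedding.conjugate τ = v.embedding ∨
          ComplexEmbedding.conjugate τ = ComplexEmbedding.conjugate v.embedding := by
        rcases hτ with rfl | rfl
        · exact Or.inr rfl
        · left; ext z; simp
      have h2 := (place_eq_of_near hp x hx htop v v τ _ hτ hτ' (by simp) hna hna').2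
      rw [InfinitePlace.isComplex_iff] at hv
      apply hv
      rw [ComplexEmbedding.isReal_iff]
      rcases hτ with rfl | rfl
      · exact h2.symm
      · rw [h2]; ext z; simp
    · exact ⟨τ, hτ, hna⟩
  have hsub : Subsingleton (Places n F) := by
    constructor
    rintro ⟨v, hv⟩ ⟨w, hw⟩
    obtain ⟨τ, hτ, h1⟩ := key v (hv.resolve_left hnodd)
    obtain ⟨τ', hτ', h2⟩ := key w (hw.resolve_left hnodd)
    exact Subtype.ext (place_eq_of_near hp x hx htop v w τ τ' hτ hτ' (by simp) h1 h2).1
  refine regulator_of_subsingleton (N • y) hker fun v => ?_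
  obtain ⟨τ, hτ, h1⟩ := key v.1 (v.2.resolve_left hnodd)
  rw [map_nsmul, nsmul_eq_mul]
  refine mul_ne_zero (by exact_mod_cast hN.ne') ?_
  intro h0
  apply hne τ h1
  rcases reg_abs_of_conj (n := n) (by omega) v.1 τ hτ y with h | h
  · rw [h, h0]
  · rw [h, h0, mul_zero]

end Field

end Pool.Agent.Zagier
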