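import Pool.Agent.Zagier.RelD
import Pool.Agent.Zagier.PlaceBall
import Pool.Agent.Zagier.BallEnts

/-!
# Numerical evaluation of the regulator in a field given by data
-/

open scoped TensorProduct

namespace Pool.Agent.Zagier

universe u

/-- data for the computation of logarithms of generators: flag, bound, number of terms -/
abbrev GenQ := (Bool × ℕ × ℕ) × (Bool × ℕ × ℕ)

/-- boxes of the two unit generators -/
noncomputable def FD.gens (D : FD) (B : CB) (q : GenQ) (T : ℕ) : List Gen :=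
  [mkGen B D.gs.1.1 D.gs.1.2.1 q.1.1 q.1.2.2 T,
   mkGen B D.gs.2.1.1 D.gs.2.1.2.1 q.2.1 q.2.2.2 T]

/-- checks for the boxes of the generators -/
def FD.gensOK (D : FD) (B : CB) (q : GenQ) (T : ℕ) : Bool :=
  (D.gs.1.2.2 == 1) && ((D.gs.2.1.2.2 == 1) &&
  (genOK B D.gs.1.1 D.gs.1.2.1 q.1.1 q.1.2.1 q.1.2.2 T &&
   genOK B D.gs.2.1.1 D.gs.2.1.2.1 q.2.1 q.2.2.1 q.2.2.2 T))

/-- the exponents of a monomial in units as a list -/
def ex2 (g : E3) : List ℤ := [g.1, g.2.1]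

/-- The value of the regulator lies in `[lo, hi]` (in units of `1/scl`). -/
noncomputable def FD.numOK (D : FD) (n T : ℕ) (a : ℤ × ℤ) (q : GenQ) (L : List (ℤ × E3))
    (A : List (Bool × ℕ × ℕ)) (lo hi : ℤ) : Bool :=
  D.gensOK (toCB a) q T && ((L.length == A.length) && (L.all (fun p => p.2.2.2 == 0) &&
    ((mkEnts ex2 L A).all (fun E => E.ok T (D.gens (toCB a) q T)) &&
    (decide (lo ≤ (regB n T (D.gens (toCB a) q T) (mkEnts ex2 L A)).1 -
        (regB n T (D.gens (toCB a) q T) (mkEnts ex2 L A)).2) &&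
     decide ((regB n T (D.gens (toCB a) q T) (mkEnts ex2 L A)).1 +
        (regB n T (D.gens (toCB a) q T) (mkEnts ex2 L A)).2 ≤ hi)))))

section

variable {F : Type u} [Field F] [CharZero F] {D : FD} {x : F}

theorem GenP.OK.map {g : GenP} (h : g.OK x) (hN : g.2.2 = 1) (σ : F →+* ℂ) :
    evP (σ x) g.1 * evP (σ x) g.2.1 = 1 := by
  rw [← evP_map, ← evP_map, ← map_mul, h.1, hN]
  simp

theorem FD.Root.reg_mem (h : D.Root x) {n T : ℕ} (hn0 : 0 < n) (hn8 : n ≤ 8) {a : ℤ × ℤ} {q : GenQ}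
    {L : List (ℤ × E3)} {A : List (Bool × ℕ × ℕ)} {lo hi : ℤ}
    (hc : D.numOK n T a q L A lo hi = true) (σ : F →+* ℂ) (hσ : Near (σ x) a) :
    (lo : ℝ) ≤ reg n σ (evL h.ev L) * scl ∧ reg n σ (evL h.ev L) * scl ≤ hi := by
  simp only [FD.numOK, Bool.and_eq_true, beq_iff_eq, decide_eq_true_eq, List.all_eq_true] at hc
  obtain ⟨hg, hlen, hzero, hents, hlo, hhi⟩ := hc
  simp only [FD.gensOK, Bool.and_eq_true, beq_iff_eq] at hg
  obtain ⟨n0, n1, g0, g1⟩ := hg
  have hB := hσ.has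
  have i0 := h.g0.map n0 σ
  have i1 := h.g1.map n1 σ
  have hgens : List.Forall₂ Gen.Has (D.gens (toCB a) q T)
      [evP (σ x) D.gs.1.1, evP (σ x) D.gs.2.1.1] :=
    .cons (mkGen_has hB g0 i0) (.cons (mkGen_has hB g1 i1) .nil)
  have hex : ∀ p ∈ L, σ (val h.ev p.2) =
      monV [evP (σ x) D.gs.1.1, evP (σ x) D.gs.2.1.1] (ex2 p.2) := by
    intro p hp
    rw [h.val_ev, hzero p hp, map_mul, map_mul, map_zpow₀, map_zpow₀, zpow_zero, map_one,
      evP_map, evP_map]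
    simp [ex2, monV]
  rw [reg_eq_regV h.ev n σ ex2 _ L hex A hlen]
  have h1 := regB_has (n := n) (T := T) hn0 hn8 hgens (mkEnts ex2 L A)
    (List.all_eq_true.2 hents)
  rw [abs_le] at h1
  constructor
  · have h2 : (lo : ℝ) ≤ ((regB n T (D.gens (toCB a) q T) (mkEnts ex2 L A)).1 : ℝ) -
        (regB n T (D.gens (toCB a) q T) (mkEnts ex2 L A)).2 := by exact_mod_cast hlo
    linarith [h1.1]
  · have h2 : ((regB n T (D.gens (toCB a) q T) (mkEnts ex2 L A)).1 : ℝ) +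
        (regB n T (D.gens (toCB a) q T) (mkEnts ex2 L A)).2 ≤ (hi : ℝ) := by exact_mod_cast hhi
    linarith [h1.2]

end

end Pool.Agent.Zagier
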