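import Pool.Agent.Zagier.TwoPlaces

/-!
# Nonvanishing of regulators from field data
-/

open scoped TensorProduct
open NumberField

namespace Pool.Agent.Zagier

universe u

section

variable {F : Type u} [Field F] [NumberField F]

/-- odd weight, two places, from numerical bounds -/
theorem FD.Root.odd_two {D : FD} {x : F} (h : D.Root x) {n : ℕ} (hn : 2 ≤ n)
    (hodd : Odd n) (hF : Fintype.card (InfinitePlace F) = 2)
    {A : List (ℤ × ℤ)} {M : ℕ} {a₁ a₂ : ℤ × ℤ} (hp : polyOK D.p A [a₁, a₂] M = true)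
    (htop : IntermediateField.adjoin ℚ {x} = ⊤) (L : List (ℤ × E3))
    (hk : ∃ N : ℕ, 0 < N ∧ N • evL h.ev L ∈ kerDelta n F) (i₁ i₂ : ℤ × ℤ)
    (b₁ : ∀ τ : F →+* ℂ, Near (τ x) a₁ →
      (i₁.1 : ℝ) ≤ reg n τ (evL h.ev L) * scl ∧ reg n τ (evL h.ev L) * scl ≤ i₁.2)
    (b₂ : ∀ τ : F →+* ℂ, Near (τ x) a₂ →
      (i₂.1 : ℝ) ≤ reg n τ (evL h.ev L) * scl ∧ reg n τ (evL h.ev L) * scl ≤ i₂.2)
    (hsep : i₁.2 < i₂.1 ∨ i₂.2 < i₁.1) : RegulatorNonvanishing n F := by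
  refine regulator_odd_two hodd hn hF hp x h.root htop (evL h.ev L) hk ?_
  intro τ τ' hτ hτ' heq
  have c₁ := b₁ τ hτ
  have c₂ := b₂ τ' hτ'
  rw [heq] at c₁
  rcases hsep with hs | hs
  · have : ((i₁.2 : ℤ) : ℝ) < i₂.1 := by exact_mod_cast hs
    linarith [c₁.2, c₂.1]
  · have : ((i₂.2 : ℤ) : ℝ) < i₁.1 := by exact_mod_cast hs
    linarith [c₁.1, c₂.2]

/-- even weight, one real and one complex class of roots, from numerical bounds -/
theorem FD.Root.even_one {D : FD} {x : F} (h : D.Root x) {n : ℕ} (hn : 2 ≤ n)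
    (heven : Even n)
    {A : List (ℤ × ℤ)} {M : ℕ} {a₁ a₂ : ℤ × ℤ} (ha₁ : a₁.2 = 0)
    (hp : polyOK D.p A [a₁, a₂] M = true)
    (htop : IntermediateField.adjoin ℚ {x} = ⊤) (L : List (ℤ × E3))
    (hk : ∃ N : ℕ, 0 < N ∧ N • evL h.ev L ∈ kerDelta n F) (i₂ : ℤ × ℤ)
    (b₂ : ∀ τ : F →+* ℂ, Near (τ x) a₂ →
      (i₂.1 : ℝ) ≤ reg n τ (evL h.ev L) * scl ∧ reg n τ (evL h.ev L) * scl ≤ i₂.2)
    (hsep : 0 < i₂.1 ∨ i₂.2 < 0) : RegulatorNonvanishing n F := by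
  refine regulator_even_one heven hn ha₁ hp x h.root htop (evL h.ev L) hk ?_
  intro τ hτ heq
  have c₂ := b₂ τ hτ
  rw [heq, zero_mul] at c₂
  rcases hsep with hs | hs
  · have : (0 : ℝ) < i₂.1 := by exact_mod_cast hs
    linarith [c₂.1]
  · have : ((i₂.2 : ℤ) : ℝ) < 0 := by exact_mod_cast hs
    linarith [c₂.2]

/-- even weight, two complex classes of roots, from numerical bounds -/
theorem FD.Root.even_two {D : FD} {x : F} (h : D.Root x) {n : ℕ} (hn : 2 ≤ n)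
    (heven : Even n) (hF : Fintype.card (InfinitePlace F) = 2)
    {A : List (ℤ × ℤ)} {M : ℕ} {a₁ a₂ : ℤ × ℤ} (ha₁ : imOK a₁ = true) (ha₂ : imOK a₂ = true)
    (hp : polyOK D.p A [a₁, a₂] M = true)
    (htop : IntermediateField.adjoin ℚ {x} = ⊤) (L₁ L₂ : List (ℤ × E3))
    (hk₁ : ∃ N : ℕ, 0 < N ∧ N • evL h.ev L₁ ∈ kerDelta n F)
    (hk₂ : ∃ N : ℕ, 0 < N ∧ N • evL h.ev L₂ ∈ kerDelta n F) (i₁ i₂ j₁ j₂ : ℤ × ℤ)
    (b₁ : ∀ τ : F →+* ℂ, Near (τ x) a₁ →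
      (i₁.1 : ℝ) ≤ reg n τ (evL h.ev L₁) * scl ∧ reg n τ (evL h.ev L₁) * scl ≤ i₁.2)
    (b₂ : ∀ τ : F →+* ℂ, Near (τ x) a₂ →
      (i₂.1 : ℝ) ≤ reg n τ (evL h.ev L₁) * scl ∧ reg n τ (evL h.ev L₁) * scl ≤ i₂.2)
    (c₁ : ∀ τ : F →+* ℂ, Near (τ x) a₁ →
      (j₁.1 : ℝ) ≤ reg n τ (evL h.ev L₂) * scl ∧ reg n τ (evL h.ev L₂) * scl ≤ j₁.2)
    (c₂ : ∀ τ : F →+* ℂ, Near (τ x) a₂ →
      (j₂.1 : ℝ) ≤ reg n τ (evL h.ev L₂) * scl ∧ reg n τ (evL h.ev L₂) * scl ≤ j₂.2)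
    (hdet : detOK i₁ i₂ j₁ j₂ = true) : RegulatorNonvanishing n F := by
  refine regulator_even_two heven hn hF ha₁ ha₂ hp x h.root htop (evL h.ev L₁) (evL h.ev L₂)
    hk₁ hk₂ ?_
  intro τ τ' hτ hτ' heq
  refine det_ne hdet (b₁ τ hτ) (b₂ τ' hτ') (c₁ τ hτ) (c₂ τ' hτ') ?_
  linear_combination ((scl : ℝ) * scl) * heq

/-- roots of unity give elements of `ker δ_n` -/
theorem FD.Root.ker_tor {D : FD} {x : F} (h : D.Root x) {n m : ℕ} (hn : n = m + 1) (hm : 4 ≤ m)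
    (hm7 : m ≤ 7) (g : E3) (hg : g.2 = (0, 0)) :
    ∃ N : ℕ, 0 < N ∧ N • evL h.ev [(1, g)] ∈ kerDelta n F := by
  have h1 : lam1 g = 0 := by rw [lam1, hg]
  have h2 : lam2 g = 0 := by rw [lam2, hg]
  refine h.ker hn hm hm7 [(1, g)] (c₁ := 1) (C₁ := []) (c₂ := 1) (C₂ := []) ?_ ?_
  · simp [FD.certOK, certL, sameL, scaleL, contractL, mapL, cf, h1]
  · simp [FD.certOK, certL, sameL, scaleL, contractL, mapL, cf, h2]

/-- There are at most two places if all roots are near two points. -/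
theorem card_le_two_of_near {p : List ℤ} {A : List (ℤ × ℤ)} {M : ℕ} {a₁ a₂ : ℤ × ℤ}
    (hp : polyOK p A [a₁, a₂] M = true) (x : F) (hx : evP x (p ++ [1]) = 0)
    (htop : IntermediateField.adjoin ℚ {x} = ⊤) : Fintype.card (InfinitePlace F) ≤ 2 := by
  classical
  have hp' := hp
  simp only [polyOK, Bool.and_eq_true] at hp'
  have h := fun v : InfinitePlace F =>
    exists_near_emb hp'.1 hp'.2.1 x hx v.embedding
  choose a ha τ hτ hn using h
  have hinj : Function.Injective (fun v : InfinitePlace F => decide (a v = a₁)) := by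
    intro v w hvw
    have hab : a v = a w := by
      have h1 := ha v
      have h2 := ha w
      simp only [List.mem_cons, List.not_mem_nil, or_false] at h1 h2
      simp only [decide_eq_decide] at hvw
      rcases h1 with h1 | h1 <;> rcases h2 with h2 | h2
      · rw [h1, h2]
      · exact (hvw.1 h1).symm ▸ h1
      · exact h1.trans (h1.symm.trans ((hvw.2 h2).trans h2.symm))
      · rw [h1, h2]
    have hnw := hn w
    rw [← hab] at hnw
    exact (place_eq_of_near hp x hx htop v w (τ v) (τ w) (hτ v) (hτ w) (ha v) (hn v) hnw).1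
  have := Fintype.card_le_of_injective _ hinj
  simpa using this

end

end Pool.Agent.Zagier
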