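import Pool.Agent.Zagier.Family

/-!
# Kummer's functional equations in weights four and five
-/

open scoped TensorProduct

namespace Pool.Agent.Zagier

universe u

/-- The six extra letters. -/
def KL (K : Type u) [Field K] (x y : K) : Fin 6 → K :=
  ![1 - x * y, 1 - x * (1 - y), 1 - y * (1 - x), x + y - x * y, x - y, 1 - x - y]

/-- Kummer's equation in weight four (20 terms). -/
def K4 : List (Term 6) :=
  [⟨-3, true, ![0, 0, 1, -1], true, ![0, 0, 0, -1], ![0, 0, 0, 0, 1, 0]⟩,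
  ⟨6, true, ![0, 0, 1, 0], true, ![1, 0, 0, 0], ![0, 0, 0, 0, 0, 0]⟩,
  ⟨-3, true, ![0, 0, 1, 1], true, ![0, 0, 0, 0], ![0, 0, 0, 1, 0, 0]⟩,
  ⟨6, false, ![0, 1, -1, -1], true, ![0, 0, -1, -1], ![0, 1, 0, 0, 0, 0]⟩,
  ⟨6, true, ![0, 1, -1, 0], true, ![0, 0, -1, 0], ![0, 0, 0, 0, 0, 1]⟩,
  ⟨-6, false, ![0, 1, 0, -1], true, ![0, 0, 0, -1], ![0, 0, 0, 0, 0, 0]⟩,
  ⟨-6, true, ![0, 1, 0, 0], true, ![0, 0, 0, 1], ![0, 0, 0, 0, 0, 0]⟩,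
  ⟨-3, false, ![1, -1, -1, 0], true, ![0, -1, -1, 0], ![0, 0, 0, 1, 0, 0]⟩,
  ⟨-3, true, ![1, -1, -1, 1], false, ![0, -1, -1, 0], ![0, 0, 0, 0, 1, 0]⟩,
  ⟨-6, true, ![1, -1, 0, 0], false, ![0, -1, 0, 0], ![0, 0, 0, 0, 1, 0]⟩,
  ⟨-6, false, ![1, -1, 0, 1], true, ![0, -1, 0, 0], ![0, 0, 0, 1, 0, 0]⟩,
  ⟨1, true, ![1, -1, 1, -1], false, ![0, -1, 0, -1], ![0, 0, 0, 0, 1, 1]⟩,
  ⟨1, false, ![1, -1, 1, 2], true, ![0, -1, 0, 0], ![0, 1, 0, 1, 0, 0]⟩,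
  ⟨-3, true, ![1, 0, 0, -1], true, ![0, 0, 0, -1], ![0, 0, 0, 0, 0, 1]⟩,
  ⟨6, true, ![1, 0, 0, 0], true, ![0, 0, 1, 0], ![0, 0, 0, 0, 0, 0]⟩,
  ⟨-3, true, ![1, 0, 0, 1], true, ![0, 0, 0, 0], ![0, 1, 0, 0, 0, 0]⟩,
  ⟨3, true, ![1, 1, -1, -1], true, ![0, 0, -1, -1], ![0, 0, 0, 0, 0, 1]⟩,
  ⟨3, false, ![1, 1, -1, 0], true, ![0, 0, -1, 0], ![0, 1, 0, 0, 0, 0]⟩,
  ⟨-1, true, ![1, 2, -2, -1], true, ![0, 0, -2, -1], ![0, 1, 0, 0, 0, 1]⟩,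
  ⟨1, true, ![2, -2, -1, 1], false, ![0, -2, -1, 0], ![0, 0, 0, 1, 1, 0]⟩]

/-- Kummer's equation in weight five (33 terms). -/
def K5 : List (Term 6) :=
  [⟨18, true, ![0, 0, 0, 1], true, ![0, 1, 0, 0], ![0, 0, 0, 0, 0, 0]⟩,
  ⟨-9, true, ![0, 0, 1, -1], true, ![0, 0, 0, -1], ![0, 0, 0, 0, 1, 0]⟩,
  ⟨18, true, ![0, 0, 1, 0], true, ![1, 0, 0, 0], ![0, 0, 0, 0, 0, 0]⟩,
  ⟨-9, true, ![0, 0, 1, 1], true, ![0, 0, 0, 0], ![0, 0, 0, 1, 0, 0]⟩,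
  ⟨-9, false, ![0, 1, -1, -1], true, ![0, 0, -1, -1], ![0, 1, 0, 0, 0, 0]⟩,
  ⟨-9, true, ![0, 1, -1, 0], true, ![0, 0, -1, 0], ![0, 0, 0, 0, 0, 1]⟩,
  ⟨18, false, ![0, 1, 0, -1], true, ![0, 0, 0, -1], ![0, 0, 0, 0, 0, 0]⟩,
  ⟨18, true, ![0, 1, 0, 0], true, ![0, 0, 0, 1], ![0, 0, 0, 0, 0, 0]⟩,
  ⟨-9, false, ![0, 1, 1, -1], true, ![0, 0, 0, -1], ![1, 0, 0, 0, 0, 0]⟩,
  ⟨-9, true, ![0, 1, 1, 0], true, ![0, 0, 0, 0], ![0, 0, 1, 0, 0, 0]⟩,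
  ⟨1, false, ![1, -1, -2, -1], true, ![0, -1, -2, -1], ![0, 0, 1, 1, 0, 0]⟩,
  ⟨1, true, ![1, -1, -2, 2], false, ![0, -1, -2, 0], ![1, 0, 0, 0, 1, 0]⟩,
  ⟨-9, false, ![1, -1, -1, 0], true, ![0, -1, -1, 0], ![0, 0, 0, 1, 0, 0]⟩,
  ⟨-9, true, ![1, -1, -1, 1], false, ![0, -1, -1, 0], ![0, 0, 0, 0, 1, 0]⟩,
  ⟨-9, true, ![1, -1, 0, 0], false, ![0, -1, 0, 0], ![0, 0, 0, 0, 1, 0]⟩,
  ⟨-9, false, ![1, -1, 0, 1], true, ![0, -1, 0, 0], ![0, 0, 0, 1, 0, 0]⟩,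
  ⟨1, true, ![1, -1, 1, -1], false, ![0, -1, 0, -1], ![0, 0, 0, 0, 1, 1]⟩,
  ⟨1, false, ![1, -1, 1, 2], true, ![0, -1, 0, 0], ![0, 1, 0, 1, 0, 0]⟩,
  ⟨-9, false, ![1, 0, -1, -1], true, ![0, 0, -1, -1], ![0, 0, 1, 0, 0, 0]⟩,
  ⟨18, false, ![1, 0, -1, 0], true, ![0, 0, -1, 0], ![0, 0, 0, 0, 0, 0]⟩,
  ⟨-9, false, ![1, 0, -1, 1], true, ![0, 0, -1, 0], ![1, 0, 0, 0, 0, 0]⟩,
  ⟨-9, true, ![1, 0, 0, -1], true, ![0, 0, 0, -1], ![0, 0, 0, 0, 0, 1]⟩,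
  ⟨18, true, ![1, 0, 0, 0], true, ![0, 0, 1, 0], ![0, 0, 0, 0, 0, 0]⟩,
  ⟨-9, true, ![1, 0, 0, 1], true, ![0, 0, 0, 0], ![0, 1, 0, 0, 0, 0]⟩,
  ⟨-9, true, ![1, 1, -1, -1], true, ![0, 0, -1, -1], ![0, 0, 0, 0, 0, 1]⟩,
  ⟨-9, false, ![1, 1, -1, 0], true, ![0, 0, -1, 0], ![0, 1, 0, 0, 0, 0]⟩,
  ⟨-9, false, ![1, 1, 0, -1], true, ![0, 0, 0, -1], ![0, 0, 1, 0, 0, 0]⟩,
  ⟨-9, true, ![1, 1, 0, 0], true, ![0, 0, 0, 0], ![1, 0, 0, 0, 0, 0]⟩,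
  ⟨1, true, ![1, 2, -2, -1], true, ![0, 0, -2, -1], ![0, 1, 0, 0, 0, 1]⟩,
  ⟨1, false, ![1, 2, 1, -1], true, ![0, 0, 0, -1], ![1, 0, 1, 0, 0, 0]⟩,
  ⟨1, true, ![2, -2, -1, 1], false, ![0, -2, -1, 0], ![0, 0, 0, 1, 1, 0]⟩,
  ⟨1, true, ![2, 1, -1, -2], true, ![0, 0, -1, -2], ![0, 0, 1, 0, 0, 1]⟩,
  ⟨1, false, ![2, 1, -1, 1], true, ![0, 0, -1, 0], ![1, 1, 0, 0, 0, 0]⟩]

theorem KL_path (K : Type u) [Field K] (x y : K) (hx : x ≠ 0) (hy : y ≠ 0) (k : Fin 6) :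
    KL (RatFunc K) (px x) (py y) k ≠ 0 := by
  have h1 := HasVal.one (0 : K)
  have hpx := px_val_zero x
  have hpy := py_val_zero y
  fin_cases k
  · exact (h1.sub (hpx.mul hpy)).ne_zero (by simp)
  · exact (h1.sub (hpx.mul (h1.sub hpy))).ne_zero (by simp)
  · exact (h1.sub (hpy.mul (h1.sub hpx))).ne_zero (by simp)
  · have h2 : HasVal (0 : K) (RatFunc.C x + RatFunc.C y * RatFunc.X - RatFunc.C x * py y) x := by
      simpa using ((HasVal.C 0 x).add ((HasVal.C 0 y).mul (HasVal.X 0))).sub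
        ((HasVal.C 0 x).mul hpy)
    have h3 : px x + py y - px x * py y =
        RatFunc.X * (RatFunc.C x + RatFunc.C y * RatFunc.X - RatFunc.C x * py y) := by
      rw [px, py]; ring
    change px x + py y - px x * py y ≠ 0
    rw [h3]
    exact mul_ne_zero RatFunc_X_ne (h2.ne_zero hx)
  · have h2 : HasVal (0 : K) (RatFunc.C x - RatFunc.C y * RatFunc.X) x := by
      simpa using (HasVal.C 0 x).sub ((HasVal.C 0 y).mul (HasVal.X 0))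
    have h3 : px x - py y = RatFunc.X * (RatFunc.C x - RatFunc.C y * RatFunc.X) := by
      rw [px, py]; ring
    change px x - py y ≠ 0
    rw [h3]
    exact mul_ne_zero RatFunc_X_ne (h2.ne_zero hx)
  · exact ((h1.sub hpx).sub hpy).ne_zero (by simp)

theorem K4_id (K : Type u) [Field K] (x y : K) (_hx : x ≠ 0) (hx1 : x ≠ 1) (hy : y ≠ 0)
    (hy1 : y ≠ 1) (_hL : ∀ k, KL K x y k ≠ 0) : ∀ t ∈ K4, 1 - t.arg x y =
      sg K t.s' * ((∏ i, base x y i ^ t.w i) * ∏ k, KL K x y k ^ t.z k) := by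
  have h1x : 1 - x ≠ 0 := sub_ne_zero.2 (Ne.symm hx1)
  have h1y : 1 - y ≠ 0 := sub_ne_zero.2 (Ne.symm hy1)
  simp only [K4, List.mem_cons, List.not_mem_nil, or_false]
  rintro t (rfl | rfl | rfl | rfl | rfl | rfl | rfl | rfl | rfl | rfl | rfl | rfl | rfl | rfl | rfl | rfl | rfl | rfl | rfl | rfl) <;>
  · simp [Term.arg_eq, Fin.prod_univ_four, Fin.prod_univ_six, base, KL, sg]
    try field_simp
    try ring

theorem K5_id (K : Type u) [Field K] (x y : K) (_hx : x ≠ 0) (hx1 : x ≠ 1) (hy : y ≠ 0)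
    (hy1 : y ≠ 1) (_hL : ∀ k, KL K x y k ≠ 0) : ∀ t ∈ K5, 1 - t.arg x y =
      sg K t.s' * ((∏ i, base x y i ^ t.w i) * ∏ k, KL K x y k ^ t.z k) := by
  have h1x : 1 - x ≠ 0 := sub_ne_zero.2 (Ne.symm hx1)
  have h1y : 1 - y ≠ 0 := sub_ne_zero.2 (Ne.symm hy1)
  simp only [K5, List.mem_cons, List.not_mem_nil, or_false]
  rintro t (rfl | rfl | rfl | rfl | rfl | rfl | rfl | rfl | rfl | rfl | rfl | rfl | rfl | rfl | rfl | rfl | rfl | rfl | rfl | rfl | rfl | rfl | rfl | rfl | rfl | rfl | rfl | rfl | rfl | rfl | rfl | rfl | rfl) <;>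
  · simp [Term.arg_eq, Fin.prod_univ_four, Fin.prod_univ_six, base, KL, sg]
    try field_simp
    try ring

theorem K4_sym : SymbolVanishes K4 2 := by
  intro φ hφ
  obtain ⟨a, b, rfl⟩ := List.length_eq_two.1 hφ
  revert a b
  decide +kernel

theorem K5_sym : SymbolVanishes K5 3 := by
  intro φ hφ
  obtain ⟨a, b, c, rfl⟩ := List.length_eq_three.1 hφ
  revert a b c
  decide +kernel

/-- Kummer's equation in weight 4, in `𝓑₄(K)` up to torsion, for every field `K`. -/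
theorem K4_inSat (K : Type u) [Field K] (x y : K) (hx : x ≠ 0) (hx1 : x ≠ 1) (hy : y ≠ 0)
    (hy1 : y ≠ 1) : InSat (Rel 4 K) (fam K4 [] x y) := by
  have h := fam_inSat.{u} K4 4 KL KL_path K4_id K4_sym (by decide) (by
    intro φ m h1 h2 h3
    obtain rfl | rfl : m = 2 ∨ m = 3 := by omega
    · exact Or.inl (by decide)
    · right
      obtain ⟨a, rfl⟩ := List.length_eq_one_iff.1 (show φ.length = 1 by omega)
      revert a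
      decide) 4 (by norm_num) [] rfl K x y hx hx1 hy hy1
  have hk : kap K4 [] = 0 ∨ kap K4 [] ≠ 0 := by tauto
  have h1 : InSat (Rel 4 K) (kap K4 [] • br (1 : K)) :=
    (one_inSat (by norm_num) (by decide) K).zsmul _
  have h2 := h.add h1
  rwa [sub_add_cancel] at h2

/-- Kummer's equation in weight 5, in `𝓑₅(K)` up to torsion, for every field `K`. -/
theorem K5_inSat (K : Type u) [Field K] (x y : K) (hx : x ≠ 0) (hx1 : x ≠ 1) (hy : y ≠ 0)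
    (hy1 : y ≠ 1) : InSat (Rel 5 K) (fam K5 [] x y - (18 : ℤ) • br (1 : K)) := by
  have h := fam_inSat.{u} K5 5 KL KL_path K5_id K5_sym (by decide) (by
    intro φ m h1 h2 h3
    obtain rfl | rfl | rfl : m = 2 ∨ m = 3 ∨ m = 4 := by omega
    · exact Or.inl (by decide)
    · right
      obtain ⟨a, b, rfl⟩ := List.length_eq_two.1 (show φ.length = 2 by omega)
      revert a b
      decide
    · exact Or.inl (by decide)) 5 (by norm_num) [] rfl K x y hx hx1 hy hy1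
  have hk : kap K5 [] = 18 := by decide
  rwa [hk] at h

end Pool.Agent.Zagier
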