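import Mathlib

/-!
# Integer polynomials as coefficient lists
-/

namespace Pool.Agent.Zagier

universe u

variable {K : Type u} [Field K]

/-- value of a coefficient list (constant term first) -/
def evP (x : K) : List ℤ → K
  | [] => 0
  | a :: l => (a : K) + x * evP x l

/-- sum of two coefficient lists -/
def addP : List ℤ → List ℤ → List ℤ
  | [], b => b
  | x :: a, [] => x :: a
  | x :: a, y :: b => (x + y) :: addP a b

/-- scalar multiple of a coefficient list -/
def smulP (c : ℤ) : List ℤ → List ℤ
  | [] => []
  | x :: a => (c * x) :: smulP c a

/-- product of two coefficient lists -/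
def mulP : List ℤ → List ℤ → List ℤ
  | [], _ => []
  | a :: l, b => addP (smulP a b) (0 :: mulP l b)

/-- power of a coefficient list -/
def powP (a : List ℤ) : ℕ → List ℤ
  | 0 => [1]
  | n + 1 => mulP a (powP a n)

/-- all coefficients vanish -/
def isZeroP : List ℤ → Bool
  | [] => true
  | a :: l => (a == 0) && isZeroP l

theorem evP_add (x : K) (a b : List ℤ) : evP x (addP a b) = evP x a + evP x b := by
  induction a generalizing b with
  | nil => simp [addP, evP]
  | cons p a ih =>
    cases b with
    | nil => simp [addP, evP]
    | cons q b => simp [addP, evP, ih]; ring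

theorem evP_smul (x : K) (c : ℤ) (a : List ℤ) : evP x (smulP c a) = c * evP x a := by
  induction a with
  | nil => simp [smulP, evP]
  | cons p a ih => simp [smulP, evP, ih]; ring

theorem evP_mul (x : K) (a b : List ℤ) : evP x (mulP a b) = evP x a * evP x b := by
  induction a with
  | nil => simp [mulP, evP]
  | cons p a ih => simp [mulP, evP, ih, evP_add, evP_smul]; ring

theorem evP_pow (x : K) (a : List ℤ) (n : ℕ) : evP x (powP a n) = evP x a ^ n := by
  induction n with
  | zero => simp [powP, evP]
  | succ n ih => simp [powP, evP_mul, ih, pow_succ]; ring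

theorem evP_isZero (x : K) {a : List ℤ} (h : isZeroP a = true) : evP x a = 0 := by
  induction a with
  | nil => rfl
  | cons p a ih =>
    simp only [isZeroP, Bool.and_eq_true, beq_iff_eq] at h
    simp [evP, h.1, ih h.2]

/-- equality of polynomials -/
def eqP (a b : List ℤ) : Bool := isZeroP (addP a (smulP (-1) b))

theorem evP_eq (x : K) {a b : List ℤ} (h : eqP a b = true) : evP x a = evP x b := by
  have h1 := evP_isZero x h
  rw [evP_add, evP_smul] at h1
  push_cast at h1
  linear_combination h1

end Pool.Agent.Zagier
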