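import Pool.Agent.Zagier.Cert
import Pool.Agent.Zagier.LiTail

/-!
# Numerical approximation of the single valued polylogarithms in the unit disc
-/

namespace Pool.Agent.Zagier

/-- the weight function in weight 6 -/
noncomputable def w6 (j : ℕ) (x : ℝ) : ℝ :=
  1 / ((j : ℝ) + 1) ^ 6 + x / ((j : ℝ) + 1) ^ 5 + x ^ 2 / 3 / ((j : ℝ) + 1) ^ 4 -
    x ^ 4 / 45 / ((j : ℝ) + 1) ^ 2

/-- the tail weight in weight 6 -/
noncomputable def W6 (N : ℕ) (x : ℝ) : ℝ :=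
  1 / ((N : ℝ) + 1) ^ 6 + x / ((N : ℝ) + 1) ^ 5 + x ^ 2 / 3 / ((N : ℝ) + 1) ^ 4 +
    x ^ 4 / 45 / ((N : ℝ) + 1) ^ 2

/-- the weight function in weight 5 -/
noncomputable def w5 (j : ℕ) (x : ℝ) : ℝ :=
  1 / ((j : ℝ) + 1) ^ 5 + x / ((j : ℝ) + 1) ^ 4 + x ^ 2 / 3 / ((j : ℝ) + 1) ^ 3 -
    x ^ 4 / 45 / ((j : ℝ) + 1)

/-- the tail weight in weight 5 -/
noncomputable def W5 (N : ℕ) (x : ℝ) : ℝ :=
  1 / ((N : ℝ) + 1) ^ 5 + x / ((N : ℝ) + 1) ^ 4 + x ^ 2 / 3 / ((N : ℝ) + 1) ^ 3 +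
    x ^ 4 / 45 / ((N : ℝ) + 1)

theorem sum_im_div (m N : ℕ) (z : ℂ) :
    (∑ j ∈ Finset.range N, z ^ (j + 1) / ((j : ℂ) + 1) ^ m).im =
      ∑ j ∈ Finset.range N, (z ^ (j + 1)).im * (1 / ((j : ℝ) + 1) ^ m) := by
  rw [Complex.im_sum]
  refine Finset.sum_congr rfl fun j _ => ?_
  have : z ^ (j + 1) / ((j : ℂ) + 1) ^ m = ((1 / ((j : ℝ) + 1) ^ m : ℝ) : ℂ) * z ^ (j + 1) := by
    push_cast; ring
  rw [this, Complex.im_ofReal_mul, mul_comm]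

theorem sum_re_div (m N : ℕ) (z : ℂ) :
    (∑ j ∈ Finset.range N, z ^ (j + 1) / ((j : ℂ) + 1) ^ m).re =
      ∑ j ∈ Finset.range N, (z ^ (j + 1)).re * (1 / ((j : ℝ) + 1) ^ m) := by
  rw [Complex.re_sum]
  refine Finset.sum_congr rfl fun j _ => ?_
  have : z ^ (j + 1) / ((j : ℂ) + 1) ^ m = ((1 / ((j : ℝ) + 1) ^ m : ℝ) : ℂ) * z ^ (j + 1) := by
    push_cast; ring
  rw [this, Complex.re_ofReal_mul, mul_comm]

theorem im_tail (m : ℕ) {z : ℂ} (hz : ‖z‖ < 1) (N : ℕ) :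
    |(Li m z).im - ∑ j ∈ Finset.range N, (z ^ (j + 1)).im * (1 / ((j : ℝ) + 1) ^ m)| ≤
      ‖z‖ ^ (N + 1) / (1 - ‖z‖) * (1 / ((N : ℝ) + 1) ^ m) := by
  rw [← sum_im_div, ← Complex.sub_im]
  exact (Complex.abs_im_le_norm _).trans (Li_tail m hz N)

theorem re_tail (m : ℕ) {z : ℂ} (hz : ‖z‖ < 1) (N : ℕ) :
    |(Li m z).re - ∑ j ∈ Finset.range N, (z ^ (j + 1)).re * (1 / ((j : ℝ) + 1) ^ m)| ≤
      ‖z‖ ^ (N + 1) / (1 - ‖z‖) * (1 / ((N : ℝ) + 1) ^ m) := by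
  rw [← sum_re_div, ← Complex.sub_re]
  exact (Complex.abs_re_le_norm _).trans (Li_tail m hz N)

theorem calLdisc_six (z : ℂ) : calLdisc 6 z = (Li 6 z).im - Real.log ‖z‖ * (Li 5 z).im +
    Real.log ‖z‖ ^ 2 / 3 * (Li 4 z).im - Real.log ‖z‖ ^ 4 / 45 * (Li 2 z).im := by
  rw [calLdisc, if_neg (by decide), polySum]
  simp only [Finset.sum_range_succ, Finset.sum_range_zero, beta_zero, beta_one, beta_two,
    beta_three, beta_four, beta_five, Complex.add_im, Complex.im_ofReal_mul, zero_mul, pow_zero,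
    pow_one, mul_one, one_mul]
  norm_num
  ring

theorem calLdisc_five (z : ℂ) : calLdisc 5 z = (Li 5 z).re - Real.log ‖z‖ * (Li 4 z).re +
    Real.log ‖z‖ ^ 2 / 3 * (Li 3 z).re - Real.log ‖z‖ ^ 4 / 45 * (Li 1 z).re := by
  rw [calLdisc, if_pos (by decide), polySum]
  simp only [Finset.sum_range_succ, Finset.sum_range_zero, beta_zero, beta_one, beta_two,
    beta_three, beta_four, Complex.add_re, Complex.re_ofReal_mul, zero_mul, pow_zero,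
    pow_one, mul_one, one_mul]
  norm_num
  ring

/-- approximation in weight 6 -/
theorem approx_six {z : ℂ} (hz : ‖z‖ < 1) (N : ℕ) (x : ℝ) (hx : Real.log ‖z‖ = -x) (hx0 : 0 ≤ x) :
    |calLdisc 6 z - ∑ j ∈ Finset.range N, (z ^ (j + 1)).im * w6 j x| ≤
      ‖z‖ ^ (N + 1) / (1 - ‖z‖) * W6 N x := by
  have h6 := im_tail 6 hz N
  have h5 := im_tail 5 hz N
  have h4 := im_tail 4 hz N
  have h2 := im_tail 2 hz N
  rw [calLdisc_six, hx]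
  have e : ∑ j ∈ Finset.range N, (z ^ (j + 1)).im * w6 j x =
      ∑ j ∈ Finset.range N, (z ^ (j + 1)).im * (1 / ((j : ℝ) + 1) ^ 6) +
      x * ∑ j ∈ Finset.range N, (z ^ (j + 1)).im * (1 / ((j : ℝ) + 1) ^ 5) +
      x ^ 2 / 3 * ∑ j ∈ Finset.range N, (z ^ (j + 1)).im * (1 / ((j : ℝ) + 1) ^ 4) -
      x ^ 4 / 45 * ∑ j ∈ Finset.range N, (z ^ (j + 1)).im * (1 / ((j : ℝ) + 1) ^ 2) := by
    rw [Finset.mul_sum, Finset.mul_sum, Finset.mul_sum, ← Finset.sum_add_distrib,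
      ← Finset.sum_add_distrib, ← Finset.sum_sub_distrib]
    refine Finset.sum_congr rfl fun j _ => ?_
    rw [w6]; ring
  rw [e]
  set S6 := ∑ j ∈ Finset.range N, (z ^ (j + 1)).im * (1 / ((j : ℝ) + 1) ^ 6)
  set S5 := ∑ j ∈ Finset.range N, (z ^ (j + 1)).im * (1 / ((j : ℝ) + 1) ^ 5)
  set S4 := ∑ j ∈ Finset.range N, (z ^ (j + 1)).im * (1 / ((j : ℝ) + 1) ^ 4)
  set S2 := ∑ j ∈ Finset.range N, (z ^ (j + 1)).im * (1 / ((j : ℝ) + 1) ^ 2)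
  set r := ‖z‖ ^ (N + 1) / (1 - ‖z‖)
  have e2 : (Li 6 z).im - -x * (Li 5 z).im + (-x) ^ 2 / 3 * (Li 4 z).im -
      (-x) ^ 4 / 45 * (Li 2 z).im - (S6 + x * S5 + x ^ 2 / 3 * S4 - x ^ 4 / 45 * S2) =
      ((Li 6 z).im - S6) + x * ((Li 5 z).im - S5) + x ^ 2 / 3 * ((Li 4 z).im - S4) -
        x ^ 4 / 45 * ((Li 2 z).im - S2) := by ring
  rw [e2]
  have a5 : |x * ((Li 5 z).im - S5)| ≤ x * (r * (1 / ((N : ℝ) + 1) ^ 5)) := by
    rw [abs_mul, abs_of_nonneg hx0]; exact mul_le_mul_of_nonneg_left h5 hx0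
  have a4 : |x ^ 2 / 3 * ((Li 4 z).im - S4)| ≤ x ^ 2 / 3 * (r * (1 / ((N : ℝ) + 1) ^ 4)) := by
    rw [abs_mul, abs_of_nonneg (by positivity)]
    exact mul_le_mul_of_nonneg_left h4 (by positivity)
  have a2 : |x ^ 4 / 45 * ((Li 2 z).im - S2)| ≤ x ^ 4 / 45 * (r * (1 / ((N : ℝ) + 1) ^ 2)) := by
    rw [abs_mul, abs_of_nonneg (by positivity)]
    exact mul_le_mul_of_nonneg_left h2 (by positivity)
  refine (abs_sub _ _).trans ((add_le_add ((abs_add_le _ _).trans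
    (add_le_add ((abs_add_le _ _).trans (add_le_add h6 a5)) a4)) a2).trans (le_of_eq ?_))
  rw [W6]; ring

/-- approximation in weight 5 -/
theorem approx_five {z : ℂ} (hz : ‖z‖ < 1) (N : ℕ) (x : ℝ) (hx : Real.log ‖z‖ = -x)
    (hx0 : 0 ≤ x) :
    |calLdisc 5 z - ∑ j ∈ Finset.range N, (z ^ (j + 1)).re * w5 j x| ≤
      ‖z‖ ^ (N + 1) / (1 - ‖z‖) * W5 N x := by
  have h6 := re_tail 5 hz N
  have h5 := re_tail 4 hz N
  have h4 := re_tail 3 hz N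
  have h2 := re_tail 1 hz N
  rw [calLdisc_five, hx]
  have e : ∑ j ∈ Finset.range N, (z ^ (j + 1)).re * w5 j x =
      ∑ j ∈ Finset.range N, (z ^ (j + 1)).re * (1 / ((j : ℝ) + 1) ^ 5) +
      x * ∑ j ∈ Finset.range N, (z ^ (j + 1)).re * (1 / ((j : ℝ) + 1) ^ 4) +
      x ^ 2 / 3 * ∑ j ∈ Finset.range N, (z ^ (j + 1)).re * (1 / ((j : ℝ) + 1) ^ 3) -
      x ^ 4 / 45 * ∑ j ∈ Finset.range N, (z ^ (j + 1)).re * (1 / ((j : ℝ) + 1) ^ 1) := by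
    rw [Finset.mul_sum, Finset.mul_sum, Finset.mul_sum, ← Finset.sum_add_distrib,
      ← Finset.sum_add_distrib, ← Finset.sum_sub_distrib]
    refine Finset.sum_congr rfl fun j _ => ?_
    rw [w5, pow_one]; ring
  rw [e]
  set S6 := ∑ j ∈ Finset.range N, (z ^ (j + 1)).re * (1 / ((j : ℝ) + 1) ^ 5)
  set S5 := ∑ j ∈ Finset.range N, (z ^ (j + 1)).re * (1 / ((j : ℝ) + 1) ^ 4)
  set S4 := ∑ j ∈ Finset.range N, (z ^ (j + 1)).re * (1 / ((j : ℝ) + 1) ^ 3)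
  set S2 := ∑ j ∈ Finset.range N, (z ^ (j + 1)).re * (1 / ((j : ℝ) + 1) ^ 1)
  set r := ‖z‖ ^ (N + 1) / (1 - ‖z‖)
  have e2 : (Li 5 z).re - -x * (Li 4 z).re + (-x) ^ 2 / 3 * (Li 3 z).re -
      (-x) ^ 4 / 45 * (Li 1 z).re - (S6 + x * S5 + x ^ 2 / 3 * S4 - x ^ 4 / 45 * S2) =
      ((Li 5 z).re - S6) + x * ((Li 4 z).re - S5) + x ^ 2 / 3 * ((Li 3 z).re - S4) -
        x ^ 4 / 45 * ((Li 1 z).re - S2) := by ring
  rw [e2]
  have a5 : |x * ((Li 4 z).re - S5)| ≤ x * (r * (1 / ((N : ℝ) + 1) ^ 4)) := by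
    rw [abs_mul, abs_of_nonneg hx0]; exact mul_le_mul_of_nonneg_left h5 hx0
  have a4 : |x ^ 2 / 3 * ((Li 3 z).re - S4)| ≤ x ^ 2 / 3 * (r * (1 / ((N : ℝ) + 1) ^ 3)) := by
    rw [abs_mul, abs_of_nonneg (by positivity)]
    exact mul_le_mul_of_nonneg_left h4 (by positivity)
  have a2 : |x ^ 4 / 45 * ((Li 1 z).re - S2)| ≤ x ^ 4 / 45 * (r * (1 / ((N : ℝ) + 1) ^ 1)) := by
    rw [abs_mul, abs_of_nonneg (by positivity)]
    exact mul_le_mul_of_nonneg_left h2 (by positivity)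
  refine (abs_sub _ _).trans ((add_le_add ((abs_add_le _ _).trans
    (add_le_add ((abs_add_le _ _).trans (add_le_add h6 a5)) a4)) a2).trans (le_of_eq ?_))
  rw [W5, pow_one]; ring

/-- monotonicity of the error term -/
theorem approx_six_of_le {z : ℂ} {r x X t : ℝ} (hz : ‖z‖ ≤ r) (hr : r < 1) (N : ℕ)
    (hx : Real.log ‖z‖ = -x) (hx0 : 0 ≤ x) (hX : x ≤ X)
    (ht : r ^ (N + 1) / (1 - r) * W6 N X ≤ t) :
    |calLdisc 6 z - ∑ j ∈ Finset.range N, (z ^ (j + 1)).im * w6 j x| ≤ t := by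
  refine (approx_six (lt_of_le_of_lt hz hr) N x hx hx0).trans (le_trans ?_ ht)
  have h1 : 0 < 1 - r := by linarith
  have h2 : W6 N x ≤ W6 N X := by
    unfold W6
    gcongr
  have h3 : 0 ≤ W6 N x := by unfold W6; positivity
  have h5 : 0 ≤ r := (norm_nonneg z).trans hz
  have h4 : ‖z‖ ^ (N + 1) / (1 - ‖z‖) ≤ r ^ (N + 1) / (1 - r) := by gcongr
  exact mul_le_mul h4 h2 h3 (div_nonneg (pow_nonneg ((norm_nonneg z).trans hz) _) h1.le)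

/-- monotonicity of the error term -/
theorem approx_five_of_le {z : ℂ} {r x X t : ℝ} (hz : ‖z‖ ≤ r) (hr : r < 1) (N : ℕ)
    (hx : Real.log ‖z‖ = -x) (hx0 : 0 ≤ x) (hX : x ≤ X)
    (ht : r ^ (N + 1) / (1 - r) * W5 N X ≤ t) :
    |calLdisc 5 z - ∑ j ∈ Finset.range N, (z ^ (j + 1)).re * w5 j x| ≤ t := by
  refine (approx_five (lt_of_le_of_lt hz hr) N x hx hx0).trans (le_trans ?_ ht)
  have h1 : 0 < 1 - r := by linarith
  have h2 : W5 N x ≤ W5 N X := by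
    unfold W5
    gcongr
  have h3 : 0 ≤ W5 N x := by unfold W5; positivity
  have h5 : 0 ≤ r := (norm_nonneg z).trans hz
  have h4 : ‖z‖ ^ (N + 1) / (1 - ‖z‖) ≤ r ^ (N + 1) / (1 - r) := by gcongr
  exact mul_le_mul h4 h2 h3 (div_nonneg (pow_nonneg ((norm_nonneg z).trans hz) _) h1.le)

end Pool.Agent.Zagier
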