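import Pool.Agent.Zagier.Path
import Pool.Agent.Zagier.ListPoly

/-!
# Functional equations in one variable with letters `x, 1 - x, 1 - x + x²`
-/

open scoped TensorProduct

namespace Pool.Agent.Zagier

universe u

/-- powers of integers -/
def pw (x : ℤ) : ℕ → ℤ
  | 0 => 1
  | n + 1 => pw x n * x

/-- A term `c · {f}` with `f = ± x^{e₀} (1-x)^{e₁} (1-x+x²)^{e₂}`, `e = n - d`, and
`1 - f = ± x^{w₀} (1-x)^{w₁} (1-x+x²)^{w₂} ∏ ℓ_k^{z_k}`, `w = v - d`. -/
structure T1 where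
  /-- coefficient -/
  c : ℤ
  /-- sign of `f` -/
  s : Bool
  /-- exponents of the numerator of `f` -/
  n : ℕ × ℕ × ℕ
  /-- exponents of the denominator of `f` -/
  d : ℕ × ℕ × ℕ
  /-- sign of `1 - f` -/
  s' : Bool
  /-- exponents of the numerator of `1 - f` -/
  v : ℕ × ℕ × ℕ
  /-- exponents of the extra letters in `1 - f` -/
  z : List (ℕ × ℕ)

/-- exponent of `x` in `f` -/
def T1.e0 (t : T1) : ℤ := (t.n.1 : ℤ) - t.d.1
/-- exponent of `1-x` in `f` -/
def T1.e1 (t : T1) : ℤ := (t.n.2.1 : ℤ) - t.d.2.1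
/-- exponent of `1-x+x²` in `f` -/
def T1.e2 (t : T1) : ℤ := (t.n.2.2 : ℤ) - t.d.2.2
/-- exponent of `x` in `1 - f` -/
def T1.w0 (t : T1) : ℤ := (t.v.1 : ℤ) - t.d.1
/-- exponent of `1-x` in `1 - f` -/
def T1.w1 (t : T1) : ℤ := (t.v.2.1 : ℤ) - t.d.2.1
/-- exponent of `1-x+x²` in `1 - f` -/
def T1.w2 (t : T1) : ℤ := (t.v.2.2 : ℤ) - t.d.2.2
/-- multiplicity of the extra letter number `k` in `1 - f` -/
def T1.zk (t : T1) (k : ℕ) : ℤ := (t.z.map fun p => if p.1 = k then (p.2 : ℤ) else 0).sum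

/-- coefficient after contraction -/
def T1.co (t : T1) (φ : ℕ × ℕ × ℕ) : ℤ :=
  t.c * (pw t.e0 φ.1 * (pw t.e1 φ.2.1 * pw t.e2 φ.2.2))

theorem T1.co_0 (t : T1) (a b c : ℕ) : t.co (a + 1, b, c) = t.co (a, b, c) * t.e0 := by
  simp [T1.co, pw]; ring

theorem T1.co_1 (t : T1) (a b c : ℕ) : t.co (a, b + 1, c) = t.co (a, b, c) * t.e1 := by
  simp [T1.co, pw]; ring

theorem T1.co_2 (t : T1) (a b c : ℕ) : t.co (a, b, c + 1) = t.co (a, b, c) * t.e2 := by
  simp [T1.co, pw]; ring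

section

variable {K : Type u} [Field K]

/-- the letter `1 - x + x²` -/
def quad (x : K) : K := 1 - x + x ^ 2

/-- the function `f` of a term -/
def T1.arg (t : T1) (x : K) : K := sg K t.s * (x ^ t.e0 * (1 - x) ^ t.e1 * quad x ^ t.e2)

theorem T1.arg_ne (t : T1) {x : K} (hx : x ≠ 0) (hx1 : 1 - x ≠ 0) (hq : quad x ≠ 0) :
    t.arg x ≠ 0 :=
  mul_ne_zero (sg_ne _) (mul_ne_zero (mul_ne_zero (zpow_ne_zero _ hx) (zpow_ne_zero _ hx1))
    (zpow_ne_zero _ hq))

/-- `∑ c_t(φ) {f_t(x)}` -/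
noncomputable def fam1 (T : List T1) (φ : ℕ × ℕ × ℕ) (x : K) : ZP1 K :=
  (T.map fun t => t.co φ • br (t.arg x)).sum

/-- multiplicity of `{1}` at `x = 0` -/
def kapP (T : List T1) (φ : ℕ × ℕ × ℕ) : ℤ :=
  (T.map fun t => if t.e0 = 0 ∧ t.s = true then t.co φ else 0).sum

/-- multiplicity of `{-1}` at `x = 0` -/
def kapM (T : List T1) (φ : ℕ × ℕ × ℕ) : ℤ :=
  (T.map fun t => if t.e0 = 0 ∧ t.s = false then t.co φ else 0).sum

/-- the symbol condition for a contraction -/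
def symOK (T : List T1) (q : ℕ) (φ : ℕ × ℕ × ℕ) : Bool :=
  ((T.map fun t => t.co φ * (t.w0 * t.e1 - t.w1 * t.e0)).sum == 0) &&
  (((T.map fun t => t.co φ * (t.w0 * t.e2 - t.w2 * t.e0)).sum == 0) &&
  (((T.map fun t => t.co φ * (t.w1 * t.e2 - t.w2 * t.e1)).sum == 0) &&
  (List.range q).all fun k => ((T.map fun t => t.co φ * (t.zk k * t.e0)).sum == 0) &&
    (((T.map fun t => t.co φ * (t.zk k * t.e1)).sum == 0) &&
    ((T.map fun t => t.co φ * (t.zk k * t.e2)).sum == 0))))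

/-- expansion of a monomial in three letters -/
theorem ofMul3 {F : Type u} [Field F] {x y z : F} (hx : x ≠ 0) (hy : y ≠ 0) (hz : z ≠ 0)
    (a b c : ℤ) (s : Bool) (f : F) (hf : f ≠ 0) (h : f = sg F s * (x ^ a * y ^ b * z ^ c)) :
    Additive.ofMul (Units.mk0 f hf) =
      Additive.ofMul (Units.mk0 (sg F s) (sg_ne s)) +
        (a • Additive.ofMul (Units.mk0 x hx) + b • Additive.ofMul (Units.mk0 y hy) +
          c • Additive.ofMul (Units.mk0 z hz)) := by
  have h1 : Units.mk0 f hf = Units.mk0 (sg F s) (sg_ne s) * (Units.mk0 x hx ^ a *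
      Units.mk0 y hy ^ b * Units.mk0 z hz ^ c) := by
    ext
    simp only [Units.val_mk0, Units.val_mul, Units.val_zpow_eq_zpow_val]
    exact h
  rw [h1, ofMul_mul, ofMul_mul, ofMul_mul]
  simp only [ofMul_zpow]

theorem step_tor1 (R : AddSubgroup (ZP1 K)) (T : List T1) (a b c : ℕ) (x : K)
    (hx : x ≠ 0) (hx1 : 1 - x ≠ 0) (hq : quad x ≠ 0)
    (h0 : InSat R (fam1 T (a + 1, b, c) x)) (h1 : InSat R (fam1 T (a, b + 1, c) x))
    (h2 : InSat R (fam1 T (a, b, c + 1) x)) :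
    IsTor (deltaOf R (fam1 T (a, b, c) x)) := by
  set X0 : Additive Kˣ := Additive.ofMul (Units.mk0 x hx)
  set X1 : Additive Kˣ := Additive.ofMul (Units.mk0 (1 - x) hx1)
  set X2 : Additive Kˣ := Additive.ofMul (Units.mk0 (quad x) hq)
  have key : ∀ t : T1, deltaOf R (t.co (a, b, c) • br (t.arg x)) =
      t.co (a, b, c) • ((QuotientAddGroup.mk (br (t.arg x)) : ZP1 K ⧸ R) ⊗ₜ[ℤ]
        Additive.ofMul (Units.mk0 (sg K t.s) (sg_ne t.s))) +
      ((QuotientAddGroup.mk (t.co (a + 1, b, c) • br (t.arg x)) : ZP1 K ⧸ R) ⊗ₜ[ℤ] X0 +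
      ((QuotientAddGroup.mk (t.co (a, b + 1, c) • br (t.arg x)) : ZP1 K ⧸ R) ⊗ₜ[ℤ] X1 +
      (QuotientAddGroup.mk (t.co (a, b, c + 1) • br (t.arg x)) : ZP1 K ⧸ R) ⊗ₜ[ℤ] X2)) := by
    intro t
    have ha := t.arg_ne hx hx1 hq
    have h1 := deltaOf_br R (Units.mk0 (t.arg x) ha)
    rw [Units.val_mk0] at h1
    rw [map_zsmul, h1, ofMul3 hx hx1 hq t.e0 t.e1 t.e2 t.s (t.arg x) ha rfl,
      TensorProduct.tmul_add, smul_add, TensorProduct.tmul_add, TensorProduct.tmul_add,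
      smul_add, smul_add, T1.co_0, T1.co_1, T1.co_2, tmul_zsmul', tmul_zsmul', tmul_zsmul',
      smul_smul, smul_smul, smul_smul, QuotientAddGroup.mk_zsmul, QuotientAddGroup.mk_zsmul,
      QuotientAddGroup.mk_zsmul, zsmul_tmul', zsmul_tmul', zsmul_tmul']
    abel
  have h3 : ∀ (φ : ℕ × ℕ × ℕ) (Y : Additive Kˣ),
      (T.map fun t => (QuotientAddGroup.mk (t.co φ • br (t.arg x)) : ZP1 K ⧸ R) ⊗ₜ[ℤ] Y).sum =
        (QuotientAddGroup.mk (fam1 T φ x) : ZP1 K ⧸ R) ⊗ₜ[ℤ] Y := by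
    intro φ Y
    rw [fam1]
    clear key h0 h1 h2
    induction T with
    | nil => simp
    | cons t T ih =>
      rw [List.map_cons, List.sum_cons, ih, List.map_cons, List.sum_cons,
        QuotientAddGroup.mk_add, TensorProduct.add_tmul]
  rw [fam1, map_list_sum']
  simp only [key]
  rw [list_sum_add, list_sum_add, list_sum_add, h3, h3, h3]
  refine IsTor.add (IsTor.list_sum ?_) (IsTor.add (h0.isTor_mk.tmul_left _)
    (IsTor.add (h1.isTor_mk.tmul_left _) (h2.isTor_mk.tmul_left _)))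
  intro z hz
  obtain ⟨t, _, rfl⟩ := List.mem_map.1 hz
  exact ((ofMul_sg_tor t.s).tmul_right _).zsmul _

theorem zk_expand {A : Type*} [AddCommGroup A] (H : ℕ → A) (q : ℕ) (z : List (ℕ × ℕ))
    (hz : z.all (fun p => decide (p.1 < q)) = true) :
    (z.map fun p => (p.2 : ℤ) • H p.1).sum =
      ∑ k ∈ Finset.range q, (z.map fun p => if p.1 = k then (p.2 : ℤ) else 0).sum • H k := by
  induction z with
  | nil => simp
  | cons p z ih =>
    simp only [List.all_cons, Bool.and_eq_true, decide_eq_true_eq] at hz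
    rw [List.map_cons, List.sum_cons, ih (by simpa using hz.2)]
    simp only [List.map_cons, List.sum_cons, add_smul, Finset.sum_add_distrib, ite_smul, zero_smul]
    rw [Finset.sum_ite_eq, if_pos (Finset.mem_range.2 hz.1)]

theorem base_tor1 (T : List T1) (q : ℕ) (φ : ℕ × ℕ × ℕ) (x : K)
    (hx : x ≠ 0) (hx1 : 1 - x ≠ 0) (hq : quad x ≠ 0) (ℓ : ℕ → K) (hℓ : ∀ k, ℓ k ≠ 0)
    (hz : ∀ t ∈ T, t.z.all (fun p => decide (p.1 < q)) = true)
    (hT : ∀ t ∈ T, 1 - t.arg x = sg K t.s' * (x ^ t.w0 * (1 - x) ^ t.w1 * quad x ^ t.w2) *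
      (t.z.map fun p => ℓ p.1 ^ p.2).prod)
    (hS : symOK T q φ = true) :
    IsTor (delta2 K (fam1 T φ x)) := by
  set X0 : Additive Kˣ := Additive.ofMul (Units.mk0 x hx) with hX0
  set X1 : Additive Kˣ := Additive.ofMul (Units.mk0 (1 - x) hx1) with hX1
  set X2 : Additive Kˣ := Additive.ofMul (Units.mk0 (quad x) hq) with hX2
  set H : ℕ → Additive Kˣ := fun k => Additive.ofMul (Units.mk0 (ℓ k) (hℓ k)) with hH
  set S : Bool → Additive Kˣ := fun s => Additive.ofMul (Units.mk0 (sg K s) (sg_ne s)) with hSdef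
  have hStor : ∀ s, IsTor (S s) := ofMul_sg_tor
  have key : ∀ t ∈ T, delta2 K (t.co φ • br (t.arg x)) =
      t.co φ • (W (S t.s') (S t.s + (t.e0 • X0 + t.e1 • X1 + t.e2 • X2)) +
        W (t.w0 • X0 + t.w1 • X1 + t.w2 • X2 + (t.z.map fun p => (p.2 : ℤ) • H p.1).sum)
          (S t.s)) +
      ((t.co φ * (t.w0 * t.e1 - t.w1 * t.e0)) • W X0 X1 +
      ((t.co φ * (t.w0 * t.e2 - t.w2 * t.e0)) • W X0 X2 +
      ((t.co φ * (t.w1 * t.e2 - t.w2 * t.e1)) • W X1 X2 +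
      ∑ k ∈ Finset.range q, ((t.co φ * (t.zk k * t.e0)) • W (H k) X0 +
        ((t.co φ * (t.zk k * t.e1)) • W (H k) X1 +
        (t.co φ * (t.zk k * t.e2)) • W (H k) X2))))) := by
    intro t ht
    have ha := t.arg_ne hx hx1 hq
    have hb' : 1 - t.arg x ≠ 0 := by
      rw [hT t ht]
      refine mul_ne_zero (mul_ne_zero (sg_ne _) (mul_ne_zero (mul_ne_zero (zpow_ne_zero _ hx)
        (zpow_ne_zero _ hx1)) (zpow_ne_zero _ hq))) ?_
      refine List.prod_ne_zero fun h => ?_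
      obtain ⟨p, _, hp⟩ := List.mem_map.1 h
      exact pow_ne_zero _ (hℓ _) hp
    have h1 := delta2_br (Units.mk0 (t.arg x) ha) (Units.mk0 (1 - t.arg x) hb') (by simp)
    rw [Units.val_mk0] at h1
    have hexp : Additive.ofMul (Units.mk0 (t.arg x) ha) =
        S t.s + (t.e0 • X0 + t.e1 • X1 + t.e2 • X2) :=
      ofMul3 hx hx1 hq t.e0 t.e1 t.e2 t.s (t.arg x) ha rfl
    have hexp' : Additive.ofMul (Units.mk0 (1 - t.arg x) hb') =
        S t.s' + (t.w0 • X0 + t.w1 • X1 + t.w2 • X2 +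
          (t.z.map fun p => (p.2 : ℤ) • H p.1).sum) := by
      have hm : sg K t.s' * (x ^ t.w0 * (1 - x) ^ t.w1 * quad x ^ t.w2) ≠ 0 :=
        mul_ne_zero (sg_ne _) (mul_ne_zero (mul_ne_zero (zpow_ne_zero _ hx)
          (zpow_ne_zero _ hx1)) (zpow_ne_zero _ hq))
      have h3 := ofMul3 hx hx1 hq t.w0 t.w1 t.w2 t.s' _ hm rfl
      have h2 : Units.mk0 (1 - t.arg x) hb' = Units.mk0 _ hm *
          (t.z.map fun p => Units.mk0 (ℓ p.1) (hℓ p.1) ^ p.2).prod := by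
        ext
        rw [Units.val_mk0, Units.val_mul, Units.val_mk0, hT t ht]
        congr 1
        rw [← Units.coeHom_apply, map_list_prod, List.map_map]
        congr 1
      have h4 : Additive.ofMul (t.z.map fun p => Units.mk0 (ℓ p.1) (hℓ p.1) ^ p.2).prod =
          (t.z.map fun p => (p.2 : ℤ) • H p.1).sum := by
        induction t.z with
        | nil => simp
        | cons p z ih =>
          rw [List.map_cons, List.prod_cons, ofMul_mul, ih, List.map_cons, List.sum_cons,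
            ofMul_pow, natCast_zsmul]
      rw [h2, ofMul_mul, h3, h4]
      simp only [hSdef]
      abel
    have hz2 := zk_expand H q t.z (hz t ht)
    rw [map_zsmul, h1, hexp, hexp']
    set Z := (t.z.map fun p => (p.2 : ℤ) • H p.1).sum with hZ
    have e10 : W X1 X0 = - W X0 X1 := by
      rw [eq_neg_iff_add_eq_zero]; exact W_add_swap _ _
    have e20 : W X2 X0 = - W X0 X2 := by
      rw [eq_neg_iff_add_eq_zero]; exact W_add_swap _ _
    have e21 : W X2 X1 = - W X1 X2 := by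
      rw [eq_neg_iff_add_eq_zero]; exact W_add_swap _ _
    have h5 : W (S t.s' + (t.w0 • X0 + t.w1 • X1 + t.w2 • X2 + Z))
        (S t.s + (t.e0 • X0 + t.e1 • X1 + t.e2 • X2)) =
        (W (S t.s') (S t.s + (t.e0 • X0 + t.e1 • X1 + t.e2 • X2)) +
        W (t.w0 • X0 + t.w1 • X1 + t.w2 • X2 + Z) (S t.s)) +
        ((t.w0 * t.e1 - t.w1 * t.e0) • W X0 X1 +
        ((t.w0 * t.e2 - t.w2 * t.e0) • W X0 X2 +
        ((t.w1 * t.e2 - t.w2 * t.e1) • W X1 X2 +
        (t.e0 • W Z X0 + (t.e1 • W Z X1 + t.e2 • W Z X2))))) := by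
      simp only [map_add, AddMonoidHom.add_apply, map_zsmul, AddMonoidHom.zsmul_apply, W_self,
        smul_zero, e10, e20, e21]
      module
    have h6 : ∀ Y : Additive Kˣ, W Z Y = ∑ k ∈ Finset.range q, t.zk k • W (H k) Y := by
      intro Y
      rw [hz2, map_sum, AddMonoidHom.finsetSum_apply]
      refine Finset.sum_congr rfl fun k _ => ?_
      rw [map_zsmul, AddMonoidHom.zsmul_apply]; rfl
    rw [h5, h6 X0, h6 X1, h6 X2]
    simp only [smul_add, smul_smul, Finset.smul_sum, Finset.sum_add_distrib]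
    simp only [mul_comm t.e0, mul_comm t.e1, mul_comm t.e2]
  simp only [symOK, Bool.and_eq_true, beq_iff_eq, List.all_eq_true, List.mem_range] at hS
  obtain ⟨s1, s2, s3, s4⟩ := hS
  have hsum : delta2 K (fam1 T φ x) =
      (T.map fun t => t.co φ • (W (S t.s') (S t.s + (t.e0 • X0 + t.e1 • X1 + t.e2 • X2)) +
        W (t.w0 • X0 + t.w1 • X1 + t.w2 • X2 + (t.z.map fun p => (p.2 : ℤ) • H p.1).sum)
          (S t.s))).sum := by
    rw [fam1, map_list_sum', List.map_congr_left key]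
    simp only [list_sum_add, list_sum_finset, list_sum_smul]
    rw [s1, s2, s3]
    have h7 : ∑ k ∈ Finset.range q,
        ((T.map fun t => t.co φ * (t.zk k * t.e0)).sum • W (H k) X0 +
        ((T.map fun t => t.co φ * (t.zk k * t.e1)).sum • W (H k) X1 +
        (T.map fun t => t.co φ * (t.zk k * t.e2)).sum • W (H k) X2)) = 0 := by
      refine Finset.sum_eq_zero fun k hk => ?_
      obtain ⟨a0, a1, a2⟩ := s4 k (Finset.mem_range.1 hk)
      rw [a0, a1, a2]; simp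
    rw [h7]
    simp
  rw [hsum]
  refine IsTor.list_sum ?_
  intro z hz
  obtain ⟨t, _, rfl⟩ := List.mem_map.1 hz
  exact IsTor.zsmul _ ((W_tor_left _ (hStor _)).add (W_tor_right _ (hStor _)))

end

end Pool.Agent.Zagier
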