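import Pool.Agent.Zagier.OneVar
import Pool.Agent.Zagier.Family

/-!
# Relations in `𝓑_n` from functional equations in one variable
-/

open scoped TensorProduct

namespace Pool.Agent.Zagier

universe u

section

variable {K : Type u} [Field K]

theorem HasVal.intCast (a : K) (n : ℤ) : HasVal a ((n : ℤ) : RatFunc K) (n : K) := by
  have h := HasVal.C a (n : K)
  rwa [map_intCast] at h

theorem HasVal.evP {a : K} {g : RatFunc K} {v : K} (h : HasVal a g v) (p : List ℤ) :
    HasVal a (evP g p) (evP v p) := by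
  induction p with
  | nil => simpa [Zagier.evP] using HasVal.intCast a 0
  | cons c p ih => exact (HasVal.intCast a c).add (h.mul ih)

theorem HasVal.quad {a : K} {g : RatFunc K} {v : K} (h : HasVal a g v) :
    HasVal a (quad g) (quad v) :=
  ((HasVal.one a).sub h).add (h.pow 2)

theorem T1.arg_val_one (t : T1) {x : K} (hx : x ≠ 0) (hx1 : 1 - x ≠ 0) (hq : quad x ≠ 0) :
    HasVal 1 (t.arg (px x)) (t.arg x) :=
  (sg_val 1 t.s).mul ((((px_val_one x).zpow hx _).mul
    (((HasVal.one 1).sub (px_val_one x)).zpow hx1 _)).mul ((px_val_one x).quad.zpow hq _))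

/-- the part of `f(tx)` which is a unit at `t = 0` -/
noncomputable def T1.unitPart (t : T1) (x : K) : RatFunc K :=
  sg (RatFunc K) t.s * (RatFunc.C x ^ t.e0 * (1 - px x) ^ t.e1 * quad (px x) ^ t.e2)

theorem T1.unitPart_val (t : T1) {x : K} (hx : x ≠ 0) :
    HasVal 0 (t.unitPart x) (sg K t.s * x ^ t.e0) := by
  have h := (sg_val 0 t.s).mul ((((HasVal.C 0 x).zpow hx t.e0).mul
    (((HasVal.one 0).sub (px_val_zero x)).zpow (by simp) t.e1)).mul
      ((px_val_zero x).quad.zpow (by simp [Zagier.quad]) t.e2))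
  simpa [T1.unitPart, Zagier.quad] using h

theorem T1.arg_path (t : T1) (x : K) :
    t.arg (px x) = RatFunc.X ^ t.e0 * t.unitPart x := by
  rw [T1.arg, T1.unitPart, px, mul_zpow]
  ring

theorem T1.spec_zero (t : T1) {x : K} (hx : x ≠ 0) :
    (t.e0 = 0 ∧ spec 0 (br (t.arg (px x))) = br (sg K t.s)) ∨
    (t.e0 ≠ 0 ∧ (spec 0 (br (t.arg (px x))) = br (0 : K) ∨
      spec 0 (br (t.arg (px x))) = brInf K)) := by
  have hu := t.unitPart_val hx
  have hv : sg K t.s * x ^ t.e0 ≠ 0 := mul_ne_zero (sg_ne _) (zpow_ne_zero _ hx)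
  rw [T1.arg_path]
  by_cases h0 : t.e0 = 0
  · left
    refine ⟨h0, ?_⟩
    rw [h0] at hu ⊢
    have : HasVal (0 : K) (RatFunc.X ^ (0 : ℤ) * t.unitPart x) (sg K t.s) := by
      simpa using hu
    exact spec_br_val this
  · right
    refine ⟨h0, ?_⟩
    rcases lt_or_gt_of_ne h0 with hlt | hgt
    · right
      refine spec_br_inf (mul_ne_zero (zpow_ne_zero _ RatFunc_X_ne) (hu.ne_zero hv)) ?_
      have h2 := (X_zpow_val_zero (K := K) (k := -t.e0) (by omega)).mul (hu.inv hv)
      rw [zero_mul] at h2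
      rw [mul_inv, ← zpow_neg]
      exact h2
    · left
      have h2 := (X_zpow_val_zero (K := K) hgt).mul hu
      rw [zero_mul] at h2
      exact spec_br_val h2

theorem spec_one_fam1 (T : List T1) (φ : ℕ × ℕ × ℕ) {x : K} (hx : x ≠ 0) (hx1 : 1 - x ≠ 0)
    (hq : quad x ≠ 0) : spec 1 (fam1 T φ (px x)) = fam1 T φ x := by
  rw [fam1, map_list_sum', fam1]
  congr 1
  refine List.map_congr_left fun t _ => ?_
  rw [map_zsmul, spec_br_val (t.arg_val_one hx hx1 hq)]

theorem spec_zero_fam1 {m : ℕ} (hm : 2 ≤ m) (T : List T1) (φ : ℕ × ℕ × ℕ) {x : K} (hx : x ≠ 0) :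
    InSat (Rel m K) (spec 0 (fam1 T φ (px x)) -
      (kapP T φ • br (1 : K) + kapM T φ • br (-1 : K))) := by
  induction T with
  | nil => simpa [fam1, kapP, kapM] using InSat.zero
  | cons t T ih =>
    have h1 : spec 0 (fam1 (t :: T) φ (px x)) -
        (kapP (t :: T) φ • br (1 : K) + kapM (t :: T) φ • br (-1 : K)) =
        (spec 0 (fam1 T φ (px x)) - (kapP T φ • br (1 : K) + kapM T φ • br (-1 : K))) +
        (t.co φ • spec 0 (br (t.arg (px x))) -
          ((if t.e0 = 0 ∧ t.s = true then t.co φ else 0) • br (1 : K) +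
          (if t.e0 = 0 ∧ t.s = false then t.co φ else 0) • br (-1 : K))) := by
      simp only [fam1, kapP, kapM, List.map_cons, List.sum_cons, map_add, map_zsmul, add_smul]
      abel
    rw [h1]
    refine ih.add ?_
    rcases t.spec_zero hx with ⟨h0, h⟩ | ⟨hne, h⟩
    · rw [h]
      cases hs : t.s
      · simp [h0, sg]; exact InSat.zero
      · simp [h0, sg]; exact InSat.zero
    · simp only [hne, false_and, if_false, zero_smul, add_zero, sub_zero]
      rcases h with h | h
      · rw [h]; exact (InSat.of_mem (br_zero_mem_rel hm)).zsmul _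
      · rw [h]; exact (InSat.of_mem (brInf_mem_rel hm)).zsmul _

/-! ### checking the factorisations -/

/-- the polynomial `x^a (1-x)^b (1-x+x²)^c` -/
def mono3 (a : ℕ × ℕ × ℕ) : List ℤ :=
  mulP (powP [0, 1] a.1) (mulP (powP [1, -1] a.2.1) (powP [1, -1, 1] a.2.2))

/-- product of extra letters -/
def prodZ (P : List (List ℤ)) : List (ℕ × ℕ) → List ℤ
  | [] => [1]
  | p :: l => mulP (powP (P.getD p.1 [1]) p.2) (prodZ P l)

/-- integer value of a sign -/
def sgi (b : Bool) : ℤ := if b then 1 else -1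

/-- the factorisation of `1 - f` -/
def T1.ok (P : List (List ℤ)) (t : T1) : Bool :=
  eqP (addP (mono3 t.d) (smulP (-(sgi t.s)) (mono3 t.n)))
    (smulP (sgi t.s') (mulP (mono3 t.v) (prodZ P t.z)))

theorem evP_mono3 (x : K) (a : ℕ × ℕ × ℕ) :
    evP x (mono3 a) = x ^ a.1 * ((1 - x) ^ a.2.1 * quad x ^ a.2.2) := by
  have h1 : evP x [0, 1] = x := by simp [evP]
  have h2 : evP x [1, -1] = 1 - x := by simp [evP]; ring
  have h3 : evP x [1, -1, 1] = quad x := by simp [evP, quad]; ring
  rw [mono3, evP_mul, evP_mul, evP_pow, evP_pow, evP_pow, h1, h2, h3]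

theorem evP_prodZ (x : K) (P : List (List ℤ)) (z : List (ℕ × ℕ)) :
    evP x (prodZ P z) = (z.map fun p => evP x (P.getD p.1 [1]) ^ p.2).prod := by
  induction z with
  | nil => simp [prodZ, evP]
  | cons p z ih => simp [prodZ, evP_mul, evP_pow, ih]

theorem sgi_cast (b : Bool) : ((sgi b : ℤ) : K) = sg K b := by cases b <;> simp [sgi, sg]

theorem T1.one_sub (P : List (List ℤ)) (t : T1) (h : t.ok P = true) {x : K} (hx : x ≠ 0)
    (hx1 : 1 - x ≠ 0) (hq : quad x ≠ 0) :
    1 - t.arg x = sg K t.s' * (x ^ t.w0 * (1 - x) ^ t.w1 * quad x ^ t.w2) *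
      (t.z.map fun p => evP x (P.getD p.1 [1]) ^ p.2).prod := by
  have h1 := evP_eq x h
  rw [evP_add, evP_smul, evP_smul, evP_mul, evP_mono3, evP_mono3, evP_mono3, evP_prodZ] at h1
  push_cast at h1
  rw [sgi_cast, sgi_cast] at h1
  set Z := (t.z.map fun p => evP x (P.getD p.1 [1]) ^ p.2).prod
  rw [T1.arg, T1.e0, T1.e1, T1.e2, T1.w0, T1.w1, T1.w2, zpow_sub₀ hx, zpow_sub₀ hx,
    zpow_sub₀ hx1, zpow_sub₀ hx1, zpow_sub₀ hq, zpow_sub₀ hq]
  simp only [zpow_natCast]
  have hD : x ^ t.d.1 * ((1 - x) ^ t.d.2.1 * quad x ^ t.d.2.2) ≠ 0 :=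
    mul_ne_zero (pow_ne_zero _ hx) (mul_ne_zero (pow_ne_zero _ hx1) (pow_ne_zero _ hq))
  field_simp
  linear_combination h1

end

/-! ### the main criterion -/

/-- all contractions of a given length -/
def phis (d : ℕ) : List (ℕ × ℕ × ℕ) :=
  (List.range (d + 1)).flatMap fun a => (List.range (d + 1 - a)).map fun b => (a, b, d - a - b)

theorem mem_phis {d a b c : ℕ} (h : a + b + c = d) : (a, b, c) ∈ phis d := by
  rw [phis, List.mem_flatMap]
  refine ⟨a, List.mem_range.2 (by omega), ?_⟩
  rw [List.mem_map]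
  refine ⟨b, List.mem_range.2 (by omega), ?_⟩
  simp only [Prod.mk.injEq, true_and]
  omega

/-- the checks on a family -/
def FamOK (n : ℕ) (P : List (List ℤ)) (T : List T1) : Bool :=
  (T.all fun t => t.ok P && t.z.all (fun p => decide (p.1 < P.length))) &&
  ((P.all fun p => p.headD 0 != 0) &&
  (((phis (n - 2)).all fun φ => symOK T P.length φ) &&
  ((List.range n).all fun m => decide (m < 2) || (m % 2 == 0) ||
    (phis (n - m)).all fun φ =>
      2 ^ (m - 1) * kapP T φ == (2 ^ (m - 1) - 1) * kapM T φ)))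

theorem charZero_ratFunc (K : Type u) [Field K] [CharZero K] : CharZero (RatFunc K) :=
  charZero_of_injective_algebraMap (algebraMap K (RatFunc K)).injective

theorem evP_zero_ne {K : Type u} [Field K] [CharZero K] {p : List ℤ} (h : p.headD 0 ≠ 0) :
    evP (0 : K) p ≠ 0 := by
  cases p with
  | nil => simp at h
  | cons a p =>
    simp only [List.headD_cons] at h
    simp [evP, h]

theorem const_inSat {m : ℕ} (hm : 2 ≤ m) (K : Type u) [Field K] (a b : ℤ)
    (h : Even m ∨ 2 ^ (m - 1) * a = (2 ^ (m - 1) - 1) * b) :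
    InSat (Rel m K) (a • br (1 : K) + b • br (-1 : K)) := by
  rcases h with h | h
  · exact ((one_inSat hm h K).zsmul a).add ((neg_one_inSat hm h K).zsmul b)
  · have h1 := dist_inSat m hm K (1 : K) one_ne_zero
    rw [one_pow] at h1
    refine InSat.of_zsmul (n := 2 ^ (m - 1)) (by positivity) ?_
    have h2 : (2 : ℤ) ^ (m - 1) • (a • br (1 : K) + b • br (-1 : K)) =
        (-b) • (br (1 : K) - (2 : ℤ) ^ (m - 1) • (br (1 : K) + br (-1 : K))) +
        (2 ^ (m - 1) * a - (2 ^ (m - 1) - 1) * b) • br (1 : K) := by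
      module
    rw [h2, h, sub_self, zero_smul, add_zero]
    exact h1.zsmul _

theorem fam1_inSat (n : ℕ) (P : List (List ℤ)) (T : List T1) (h : FamOK n P T = true)
    (m : ℕ) (hm : 2 ≤ m) : ∀ (a b c : ℕ), a + b + c + m = n →
    ∀ (K : Type u) [Field K] [CharZero K] (x : K), x ≠ 0 → 1 - x ≠ 0 → quad x ≠ 0 →
      InSat (Rel m K) (fam1 T (a, b, c) x -
        (kapP T (a, b, c) • br (1 : K) + kapM T (a, b, c) • br (-1 : K))) := by
  simp only [FamOK, Bool.and_eq_true, List.all_eq_true, decide_eq_true_eq, List.mem_range,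
    Bool.or_eq_true, beq_iff_eq, bne_iff_ne] at h
  obtain ⟨hT, hP, hsym, hkap⟩ := h
  induction m, hm using Nat.le_induction with
  | base =>
    intro a b c hφ K _ _ x hx hx1 hq
    have := charZero_ratFunc K
    have p0 := px_ne hx
    have p1 := one_sub_px_ne x
    have pq : quad (px x) ≠ 0 := (px_val_zero x).quad.ne_zero (by simp [quad])
    have hℓ : ∀ k, evP (px x) (P.getD k [1]) ≠ 0 := by
      intro k
      refine ((px_val_zero x).evP _).ne_zero (evP_zero_ne ?_)
      by_cases hk : k < P.length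
      · rw [List.getD_eq_getElem _ _ hk]
        exact hP _ (List.getElem_mem hk)
      · rw [List.getD_eq_default _ _ (by omega)]; simp
    have h1 : IsTor (delta2 (RatFunc K) (fam1 T (a, b, c) (px x))) := by
      refine base_tor1 T P.length (a, b, c) (px x) p0 p1 pq
        (fun k => evP (px x) (P.getD k [1])) hℓ ?_ ?_ (hsym _ (mem_phis (by omega)))
      · intro t ht
        rw [List.all_eq_true]
        intro p hp
        exact decide_eq_true ((hT t ht).2 p hp)
      · intro t ht
        exact t.one_sub P (hT t ht).1 p0 p1 pq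
    have h2 := inSat_of_isTor_two h1
    rw [spec_one_fam1 T _ hx hx1 hq] at h2
    have h3 := (spec_zero_fam1 (le_refl 2) T (a, b, c) hx).sub h2
    convert h3 using 1
    abel
  | succ m hm ih =>
    intro a b c hφ K _ _ x hx hx1 hq
    have := charZero_ratFunc K
    have p0 := px_ne hx
    have p1 := one_sub_px_ne x
    have pq : quad (px x) ≠ 0 := (px_val_zero x).quad.ne_zero (by simp [quad])
    have key : ∀ a' b' c', a' + b' + c' + m = n →
        InSat (Rel m (RatFunc K)) (fam1 T (a', b', c') (px x)) := by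
      intro a' b' c' hs
      have h2 := ih a' b' c' hs (RatFunc K) (px x) p0 p1 pq
      have h3 := const_inSat hm (RatFunc K) (kapP T (a', b', c')) (kapM T (a', b', c')) (by
        rcases hkap m (by omega) with (h | h) | h
        · omega
        · exact Or.inl (Nat.even_iff.2 h)
        · exact Or.inr (h _ (mem_phis (by omega))))
      have h4 := h2.add h3
      rwa [sub_add_cancel] at h4
    have h1 : IsTor (deltaOf (Rel m (RatFunc K)) (fam1 T (a, b, c) (px x))) :=
      step_tor1 _ T a b c (px x) p0 p1 pq (key _ _ _ (by omega)) (key _ _ _ (by omega))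
        (key _ _ _ (by omega))
    have h2 := inSat_of_isTor' hm h1
    rw [spec_one_fam1 T _ hx hx1 hq] at h2
    have h3 := (spec_zero_fam1 (by omega : 2 ≤ m + 1) T (a, b, c) hx).sub h2
    convert h3 using 1
    abel

end Pool.Agent.Zagier
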