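import Pool.Agent.Zagier.Symbol

/-!
# Relations obtained by the homotopy `(x, y) ↦ (t x, t² y)`
-/

open scoped TensorProduct

namespace Pool.Agent.Zagier

universe u

section

variable {K : Type u} [Field K]

/-- The path `t x`. -/
noncomputable def px (x : K) : RatFunc K := RatFunc.C x * RatFunc.X

/-- The path `t² y`. -/
noncomputable def py (y : K) : RatFunc K := RatFunc.C y * RatFunc.X ^ 2

theorem px_val (a x : K) : HasVal a (px x) (x * a) := (HasVal.C a x).mul (HasVal.X a)

theorem py_val (a y : K) : HasVal a (py y) (y * a ^ 2) := (HasVal.C a y).mul ((HasVal.X a).pow 2)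

theorem px_val_one (x : K) : HasVal 1 (px x) x := by simpa using px_val 1 x

theorem py_val_one (y : K) : HasVal 1 (py y) y := by simpa using py_val 1 y

theorem px_val_zero (x : K) : HasVal 0 (px x) 0 := by simpa using px_val 0 x

theorem py_val_zero (y : K) : HasVal 0 (py y) 0 := by simpa using py_val 0 y

theorem px_ne {x : K} (hx : x ≠ 0) : px x ≠ 0 :=
  (px_val_one x).ne_zero hx

theorem py_ne {y : K} (hy : y ≠ 0) : py y ≠ 0 :=
  (py_val_one y).ne_zero hy

theorem one_sub_px_ne (x : K) : 1 - px x ≠ 0 := by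
  have := (HasVal.one 0).sub (px_val_zero x)
  exact this.ne_zero (by simp)

theorem one_add_px_ne (x : K) : 1 + px x ≠ 0 := by
  have := (HasVal.one 0).add (px_val_zero x)
  exact this.ne_zero (by simp)

theorem one_sub_py_ne (y : K) : 1 - py y ≠ 0 := by
  have := (HasVal.one 0).sub (py_val_zero y)
  exact this.ne_zero (by simp)

theorem px_ne_one (x : K) : px x ≠ 1 := fun h => one_sub_px_ne x (by rw [h, sub_self])

theorem py_ne_one (y : K) : py y ≠ 1 := fun h => one_sub_py_ne y (by rw [h, sub_self])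

theorem spec_br_val {a : K} {g : RatFunc K} {v : K} (h : HasVal a g v) :
    spec a (br g) = br v := by
  rw [spec_br, specPt_of_hasVal h]; rfl

theorem spec_br_inf {a : K} {g : RatFunc K} (hg : g ≠ 0) (h : HasVal a g⁻¹ 0) :
    spec a (br g) = brInf K := by
  rw [spec_br, specPt_infty hg h]; rfl

end

/-! ### inversion -/

theorem inv_inSat (m : ℕ) (hm : 2 ≤ m) : ∀ (K : Type u) [Field K] (x : K), x ≠ 0 →
    InSat (Rel m K) (br x + (-1 : ℤ) ^ m • br x⁻¹) := by
  induction m, hm using Nat.le_induction with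
  | base =>
    intro K _ x hx
    set u : (RatFunc K)ˣ := Units.mk0 (px x) (px_ne hx) with hu
    set v : (RatFunc K)ˣ := Units.mk0 (1 - px x) (one_sub_px_ne x) with hv
    have hpx := px_ne hx
    have h1 : delta2 (RatFunc K) (br (px x)) = W (Additive.ofMul v) (Additive.ofMul u) := by
      have := delta2_br u v (by simp [hu, hv])
      simpa [hu] using this
    have h2 : delta2 (RatFunc K) (br (px x)⁻¹) =
        W (Additive.ofMul (-1 * v * u⁻¹)) (Additive.ofMul u⁻¹) := by
      have := delta2_br (u⁻¹) (-1 * v * u⁻¹) (by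
        simp only [Units.val_mul, Units.val_neg, Units.val_one, Units.val_inv_eq_inv_val, hu, hv,
          Units.val_mk0]
        field_simp
        ring)
      simpa [hu] using this
    have h3 : IsTor (delta2 (RatFunc K) (br (px x) + br (px x)⁻¹)) := by
      have : delta2 (RatFunc K) (br (px x) + br (px x)⁻¹) =
          - W (Additive.ofMul (-1)) (Additive.ofMul u) := by
        rw [map_add, h1, h2, ofMul_mul, ofMul_mul, ofMul_inv]
        simp only [map_add, AddMonoidHom.add_apply, map_neg, AddMonoidHom.neg_apply, W_self]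
        abel
      rw [this]
      refine (W_tor_left _ ?_).neg
      exact ⟨2, by norm_num, by rw [← ofMul_pow]; simp⟩
    have h4 := inSat_of_isTor_two h3
    have h5 : spec 0 (br (px x) + br (px x)⁻¹) = br 0 + brInf K := by
      rw [map_add, spec_br_val (px_val_zero x), spec_br_inf (inv_ne_zero hpx)
        (by rw [inv_inv]; exact px_val_zero x)]
    have h6 : spec 1 (br (px x) + br (px x)⁻¹) = br x + br x⁻¹ := by
      rw [map_add, spec_br_val (px_val_one x), spec_br_val ((px_val_one x).inv hx)]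
    rw [h5, h6] at h4
    have h7 : InSat (Rel 2 K) (br 0 + brInf K) :=
      (InSat.of_mem (br_zero_mem_rel (by norm_num))).add
        (InSat.of_mem (brInf_mem_rel (by norm_num)))
    have h8 := h7.sub h4
    simpa using h8
  | succ m hm ih =>
    intro K _ x hx
    set u : (RatFunc K)ˣ := Units.mk0 (px x) (px_ne hx) with hu
    have hpx := px_ne hx
    have h1 := deltaOf_br (Rel m (RatFunc K)) u
    have h2 := deltaOf_br (Rel m (RatFunc K)) u⁻¹
    have h3 : IsTor (deltaOf (Rel m (RatFunc K))
        (br (px x) + (-1 : ℤ) ^ (m + 1) • br (px x)⁻¹)) := by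
      have h4 := (ih (RatFunc K) (px x) hpx).isTor_mk.tmul_left (Additive.ofMul u)
      have h5 : deltaOf (Rel m (RatFunc K))
        (br (px x) + (-1 : ℤ) ^ (m + 1) • br (px x)⁻¹) =
        (QuotientAddGroup.mk (br (px x) + (-1 : ℤ) ^ m • br (px x)⁻¹) :
          ZP1 (RatFunc K) ⧸ Rel m (RatFunc K)) ⊗ₜ[ℤ] Additive.ofMul u := by
        rw [map_add, map_zsmul]
        have h6 : deltaOf (Rel m (RatFunc K)) (br (px x)) = _ := h1
        have h7 : deltaOf (Rel m (RatFunc K)) (br (px x)⁻¹) =
            - ((QuotientAddGroup.mk (br (px x)⁻¹) : ZP1 (RatFunc K) ⧸ Rel m (RatFunc K)) ⊗ₜ[ℤ]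
              Additive.ofMul u) := by
          rw [← TensorProduct.tmul_neg, ← ofMul_inv]
          simpa [hu] using h2
        rw [h6, h7, QuotientAddGroup.mk_add, QuotientAddGroup.mk_zsmul, TensorProduct.add_tmul,
          zsmul_tmul', pow_succ]
        simp [hu]
      rw [h5]; exact h4
    have h4 := inSat_of_isTor' hm h3
    have h5 : spec 0 (br (px x) + (-1 : ℤ) ^ (m + 1) • br (px x)⁻¹) =
        br 0 + (-1 : ℤ) ^ (m + 1) • brInf K := by
      rw [map_add, map_zsmul, spec_br_val (px_val_zero x), spec_br_inf (inv_ne_zero hpx)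
        (by rw [inv_inv]; exact px_val_zero x)]
    have h6 : spec 1 (br (px x) + (-1 : ℤ) ^ (m + 1) • br (px x)⁻¹) =
        br x + (-1 : ℤ) ^ (m + 1) • br x⁻¹ := by
      rw [map_add, map_zsmul, spec_br_val (px_val_one x), spec_br_val ((px_val_one x).inv hx)]
    rw [h5, h6] at h4
    have h7 : InSat (Rel (m + 1) K) (br 0 + (-1 : ℤ) ^ (m + 1) • brInf K) :=
      (InSat.of_mem (br_zero_mem_rel (by omega))).add
        ((InSat.of_mem (brInf_mem_rel (by omega))).zsmul _)
    have h8 := h7.sub h4
    simpa using h8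

theorem one_inSat {m : ℕ} (hm : 2 ≤ m) (he : Even m) (K : Type u) [Field K] :
    InSat (Rel m K) (br (1 : K)) := by
  have h := inv_inSat m hm K 1 one_ne_zero
  rw [he.neg_one_pow, inv_one, one_smul, ← two_zsmul] at h
  exact h.of_zsmul two_ne_zero

theorem neg_one_inSat {m : ℕ} (hm : 2 ≤ m) (he : Even m) (K : Type u) [Field K] :
    InSat (Rel m K) (br (-1 : K)) := by
  have h := inv_inSat m hm K (-1) (by simp)
  rw [he.neg_one_pow, inv_neg, inv_one, one_smul, ← two_zsmul] at h
  exact h.of_zsmul two_ne_zero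

/-! ### distribution -/

theorem dist_inSat (m : ℕ) (hm : 2 ≤ m) : ∀ (K : Type u) [Field K] (x : K), x ≠ 0 →
    InSat (Rel m K) (br (x ^ 2) - (2 : ℤ) ^ (m - 1) • (br x + br (-x))) := by
  induction m, hm using Nat.le_induction with
  | base =>
    intro K _ x hx
    set u : (RatFunc K)ˣ := Units.mk0 (px x) (px_ne hx) with hu
    set v : (RatFunc K)ˣ := Units.mk0 (1 - px x) (one_sub_px_ne x) with hv
    set v' : (RatFunc K)ˣ := Units.mk0 (1 + px x) (one_add_px_ne x) with hv'
    have hpx := px_ne hx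
    have h1 : delta2 (RatFunc K) (br (px x)) = W (Additive.ofMul v) (Additive.ofMul u) := by
      have := delta2_br u v (by simp [hu, hv])
      simpa [hu] using this
    have h2 : delta2 (RatFunc K) (br (-px x)) =
        W (Additive.ofMul v') (Additive.ofMul (-1 * u)) := by
      have := delta2_br (-1 * u) v' (by simp [hu, hv'])
      simpa [hu] using this
    have h2' : delta2 (RatFunc K) (br (px x ^ 2)) =
        W (Additive.ofMul (v * v')) (Additive.ofMul (u ^ 2)) := by
      have := delta2_br (u ^ 2) (v * v') (by simp [hu, hv, hv']; ring)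
      simpa [hu] using this
    have h3 : IsTor (delta2 (RatFunc K)
        (br (px x ^ 2) - (2 : ℤ) ^ (2 - 1) • (br (px x) + br (-px x)))) := by
      have : delta2 (RatFunc K) (br (px x ^ 2) - (2 : ℤ) ^ (2 - 1) • (br (px x) + br (-px x))) =
          (-2 : ℤ) • W (Additive.ofMul v') (Additive.ofMul (-1)) := by
        rw [map_sub, map_zsmul, map_add, h1, h2, h2', ofMul_mul, ofMul_mul, ofMul_pow]
        simp only [map_add, AddMonoidHom.add_apply, map_nsmul]
        norm_num
        abel
      rw [this]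
      refine IsTor.zsmul _ (W_tor_right _ ?_)
      exact ⟨2, by norm_num, by rw [← ofMul_pow]; simp⟩
    have h4 := inSat_of_isTor_two h3
    have h5 : spec 0 (br (px x ^ 2) - (2 : ℤ) ^ (2 - 1) • (br (px x) + br (-px x))) =
        br 0 - (2 : ℤ) ^ (2 - 1) • (br 0 + br (0 : K)) := by
      rw [map_sub, map_zsmul, map_add, spec_br_val (px_val_zero x),
        spec_br_val ((px_val_zero x).pow 2), spec_br_val (px_val_zero x).neg]
      simp
    have h6 : spec 1 (br (px x ^ 2) - (2 : ℤ) ^ (2 - 1) • (br (px x) + br (-px x))) =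
        br (x ^ 2) - (2 : ℤ) ^ (2 - 1) • (br x + br (-x)) := by
      rw [map_sub, map_zsmul, map_add, spec_br_val (px_val_one x),
        spec_br_val ((px_val_one x).pow 2), spec_br_val (px_val_one x).neg]
    rw [h5, h6] at h4
    have h0 : InSat (Rel 2 K) (br 0) := InSat.of_mem (br_zero_mem_rel (by norm_num))
    have h8 := (h0.sub ((h0.add h0).zsmul ((2 : ℤ) ^ (2 - 1)))).sub h4
    simpa using h8
  | succ m hm ih =>
    intro K _ x hx
    set u : (RatFunc K)ˣ := Units.mk0 (px x) (px_ne hx) with hu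
    have hpx := px_ne hx
    have h1 := deltaOf_br (Rel m (RatFunc K)) u
    have h2 := deltaOf_br (Rel m (RatFunc K)) (-1 * u)
    have h2' := deltaOf_br (Rel m (RatFunc K)) (u ^ 2)
    have h3 : IsTor (deltaOf (Rel m (RatFunc K))
        (br (px x ^ 2) - (2 : ℤ) ^ m • (br (px x) + br (-px x)))) := by
      have h4 := ((ih (RatFunc K) (px x) hpx).zsmul 2).isTor_mk.tmul_left (Additive.ofMul u)
      have h4' : IsTor ((QuotientAddGroup.mk (br (-px x)) :
          ZP1 (RatFunc K) ⧸ Rel m (RatFunc K)) ⊗ₜ[ℤ] Additive.ofMul (-1 : (RatFunc K)ˣ)) := by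
        refine IsTor.tmul_right _ ?_
        exact ⟨2, by norm_num, by rw [← ofMul_pow]; simp⟩
      have h5 : deltaOf (Rel m (RatFunc K))
        (br (px x ^ 2) - (2 : ℤ) ^ m • (br (px x) + br (-px x))) =
        (QuotientAddGroup.mk ((2 : ℤ) • (br (px x ^ 2) - (2 : ℤ) ^ (m - 1) •
          (br (px x) + br (-px x)))) :
          ZP1 (RatFunc K) ⧸ Rel m (RatFunc K)) ⊗ₜ[ℤ] Additive.ofMul u -
        (2 : ℤ) ^ m • ((QuotientAddGroup.mk (br (-px x)) :
          ZP1 (RatFunc K) ⧸ Rel m (RatFunc K)) ⊗ₜ[ℤ] Additive.ofMul (-1 : (RatFunc K)ˣ)) := by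
        rw [map_sub, map_zsmul, map_add]
        have h6 : deltaOf (Rel m (RatFunc K)) (br (px x)) = _ := h1
        have h7 : deltaOf (Rel m (RatFunc K)) (br (-px x)) =
          (QuotientAddGroup.mk (br (-px x)) : ZP1 (RatFunc K) ⧸ Rel m (RatFunc K)) ⊗ₜ[ℤ]
            Additive.ofMul (-1 * u) := by
          simpa [hu] using h2
        have h8 : deltaOf (Rel m (RatFunc K)) (br (px x ^ 2)) =
          (QuotientAddGroup.mk (br (px x ^ 2)) : ZP1 (RatFunc K) ⧸ Rel m (RatFunc K)) ⊗ₜ[ℤ]
            Additive.ofMul (u ^ 2) := by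
          simpa [hu] using h2'
        have hpow : (2 : ℤ) ^ m = 2 * 2 ^ (m - 1) := by
          rw [← pow_succ']; congr 1; omega
        rw [h6, h7, h8, ofMul_mul, ofMul_pow, TensorProduct.tmul_add, ← natCast_zsmul,
          tmul_zsmul', QuotientAddGroup.mk_zsmul, zsmul_tmul', QuotientAddGroup.mk_sub,
          QuotientAddGroup.mk_zsmul, QuotientAddGroup.mk_add, TensorProduct.sub_tmul,
          zsmul_tmul', TensorProduct.add_tmul, hpow]
        simp only [hu, Units.val_mk0, smul_sub, smul_add, mul_smul]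
        push_cast
        abel
      rw [h5]; exact h4.sub (h4'.zsmul _)
    have h4 := inSat_of_isTor' hm h3
    have h5 : spec 0 (br (px x ^ 2) - (2 : ℤ) ^ m • (br (px x) + br (-px x))) =
        br 0 - (2 : ℤ) ^ m • (br 0 + br (0 : K)) := by
      rw [map_sub, map_zsmul, map_add, spec_br_val (px_val_zero x),
        spec_br_val ((px_val_zero x).pow 2), spec_br_val (px_val_zero x).neg]
      simp
    have h6 : spec 1 (br (px x ^ 2) - (2 : ℤ) ^ m • (br (px x) + br (-px x))) =
        br (x ^ 2) - (2 : ℤ) ^ m • (br x + br (-x)) := by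
      rw [map_sub, map_zsmul, map_add, spec_br_val (px_val_one x),
        spec_br_val ((px_val_one x).pow 2), spec_br_val (px_val_one x).neg]
    rw [h5, h6] at h4
    have h0 : InSat (Rel (m + 1) K) (br 0) := InSat.of_mem (br_zero_mem_rel (by omega))
    have h8 := (h0.sub ((h0.add h0).zsmul ((2 : ℤ) ^ m))).sub h4
    simpa using h8

end Pool.Agent.Zagier
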