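import Pool.Agent.Zagier.ListPoly

/-!
# Integer polynomials in two variables as lists of coefficient lists
-/

namespace Pool.Agent.Zagier

universe u

/-- sum of two polynomials in two variables (lists of the coefficients of the powers of `y`,
each a coefficient list in `x`) -/
def addQ : List (List ℤ) → List (List ℤ) → List (List ℤ)
  | [], b => b
  | x :: a, [] => x :: a
  | x :: a, y :: b => addP x y :: addQ a b

/-- multiplication by a polynomial in `x` -/
def smulQ (c : List ℤ) : List (List ℤ) → List (List ℤ)
  | [] => []
  | a :: l => mulP c a :: smulQ c l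

/-- product of two polynomials in two variables -/
def mulQ : List (List ℤ) → List (List ℤ) → List (List ℤ)
  | [], _ => []
  | a :: l, b => addQ (smulQ a b) ([] :: mulQ l b)

/-- power of a polynomial in two variables -/
def powQ (a : List (List ℤ)) : ℕ → List (List ℤ)
  | 0 => [[1]]
  | n + 1 => mulQ a (powQ a n)

/-- all coefficients vanish -/
def isZeroQ : List (List ℤ) → Bool
  | [] => true
  | a :: l => isZeroP a && isZeroQ l

/-- the product `a(x) b(y)` -/
def outer (a : List ℤ) : List ℤ → List (List ℤ)
  | [] => []
  | c :: b => smulP c a :: outer a b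

section

variable {K : Type u} [Field K]

/-- value of a polynomial in two variables -/
def evQ (x y : K) : List (List ℤ) → K
  | [] => 0
  | a :: l => evP x a + y * evQ x y l

theorem evQ_add (x y : K) (a b : List (List ℤ)) : evQ x y (addQ a b) = evQ x y a + evQ x y b := by
  induction a generalizing b with
  | nil => simp [addQ, evQ]
  | cons p a ih =>
    cases b with
    | nil => simp [addQ, evQ]
    | cons q b => simp [addQ, evQ, ih, evP_add]; ring

theorem evQ_smul (x y : K) (c : List ℤ) (a : List (List ℤ)) :
    evQ x y (smulQ c a) = evP x c * evQ x y a := by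
  induction a with
  | nil => simp [smulQ, evQ]
  | cons p a ih => simp [smulQ, evQ, ih, evP_mul]; ring

theorem evQ_mul (x y : K) (a b : List (List ℤ)) : evQ x y (mulQ a b) = evQ x y a * evQ x y b := by
  induction a with
  | nil => simp [mulQ, evQ]
  | cons p a ih =>
    have h : evP x ([] : List ℤ) = 0 := rfl
    simp [mulQ, evQ, ih, evQ_add, evQ_smul, h]; ring

theorem evQ_pow (x y : K) (a : List (List ℤ)) (n : ℕ) : evQ x y (powQ a n) = evQ x y a ^ n := by
  induction n with
  | zero => simp [powQ, evQ, evP]
  | succ n ih => simp [powQ, evQ_mul, ih, pow_succ]; ring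

theorem evQ_isZero (x y : K) {a : List (List ℤ)} (h : isZeroQ a = true) : evQ x y a = 0 := by
  induction a with
  | nil => rfl
  | cons p a ih =>
    simp only [isZeroQ, Bool.and_eq_true] at h
    simp [evQ, evP_isZero x h.1, ih h.2]

theorem evQ_outer (x y : K) (a b : List ℤ) : evQ x y (outer a b) = evP x a * evP y b := by
  induction b with
  | nil => simp [outer, evQ, evP]
  | cons c b ih => simp [outer, evQ, evP, ih, evP_smul]; ring

/-- equality of polynomials in two variables -/
def eqQ (a b : List (List ℤ)) : Bool := isZeroQ (addQ a (smulQ [-1] b))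

theorem evQ_eq (x y : K) {a b : List (List ℤ)} (h : eqQ a b = true) :
    evQ x y a = evQ x y b := by
  have h1 := evQ_isZero x y h
  rw [evQ_add, evQ_smul] at h1
  simp only [evP, Int.cast_neg, Int.cast_one, mul_zero, add_zero] at h1
  linear_combination h1

end

end Pool.Agent.Zagier
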