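import Pool.Agent.Zagier.UnitNorm
import Pool.Agent.Zagier.FieldEmb

/-!
# Real roots of the minimal polynomial and real places
-/

open Polynomial NumberField IntermediateField

namespace Pool.Agent.Zagier

universe u

section

variable {F : Type u} [Field F] [NumberField F]

theorem exists_real_place {t : F} (htop : IntermediateField.adjoin ℚ {t} = ⊤) (r : ℝ)
    (hr : aeval r (minpoly ℚ t) = 0) :
    ∃ v : InfinitePlace F, v.IsReal ∧ v.embedding t = (r : ℂ) := by
  have h1 : (r : ℂ) ∈ (minpoly ℚ t).rootSet ℂ := by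
    rw [mem_rootSet]
    refine ⟨minpoly.ne_zero (Algebra.IsIntegral.isIntegral t), ?_⟩
    have : (r : ℂ) = algebraMap ℝ ℂ r := rfl
    rw [this, aeval_algebraMap_apply, hr, map_zero]
  rw [← NumberField.Embeddings.range_eval_eq_rootSet_minpoly F ℂ t] at h1
  obtain ⟨φ, hφ⟩ := h1
  simp only at hφ
  have hreal : ComplexEmbedding.IsReal φ := by
    rw [ComplexEmbedding.isReal_iff]
    refine emb_ext t htop _ _ ?_
    rw [ComplexEmbedding.conjugate_coe_eq, hφ, Complex.conj_ofReal]
  refine ⟨InfinitePlace.mk φ, ⟨φ, hreal, rfl⟩, ?_⟩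
  rw [InfinitePlace.embedding_mk_eq_of_isReal hreal, hφ]

theorem card_cases (hF : Fintype.card (InfinitePlace F) = 2) :
    Module.finrank ℚ F = 2 ∨ Module.finrank ℚ F = 3 ∨
      (Module.finrank ℚ F = 4 ∧ InfinitePlace.nrRealPlaces F = 0) := by
  have h1 := InfinitePlace.card_add_two_mul_card_eq_rank F
  have h2 := InfinitePlace.card_eq_nrRealPlaces_add_nrComplexPlaces F
  omega

/-- the real minimal polynomial -/
noncomputable def rmp (t : F) : ℝ[X] := (minpoly ℚ t).map (algebraMap ℚ ℝ)

theorem rmp_root {t : F} {r : ℝ} (h : (rmp t).eval r = 0) : aeval r (minpoly ℚ t) = 0 := by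
  rwa [rmp, eval_map_algebraMap] at h

theorem rmp_monic (t : F) : (rmp t).Monic :=
  (minpoly.monic (Algebra.IsIntegral.isIntegral t)).map _

theorem rmp_natDegree (t : F) : (rmp t).natDegree = (minpoly ℚ t).natDegree :=
  natDegree_map _

theorem rmp_tendsto (t : F) :
    Filter.Tendsto (fun x => (rmp t).eval x) Filter.atTop Filter.atTop := by
  refine tendsto_atTop_of_leadingCoeff_nonneg _ ?_ ?_
  · rw [← natDegree_pos_iff_degree_pos, rmp_natDegree]
    exact minpoly.natDegree_pos (Algebra.IsIntegral.isIntegral t)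
  · rw [(rmp_monic t).leadingCoeff]; norm_num

theorem exists_root_right {t : F} {q : ℝ} (h : (rmp t).eval q ≤ 0) :
    ∃ r, q ≤ r ∧ (rmp t).eval r = 0 := by
  obtain ⟨M, hM1, hM2⟩ := (((rmp_tendsto t).eventually_ge_atTop 1).and
    (Filter.eventually_ge_atTop q)).exists
  have := intermediate_value_Icc hM2 ((rmp t).continuous.continuousOn)
  obtain ⟨r, hr, hr0⟩ := this ⟨h, by linarith⟩
  exact ⟨r, hr.1, hr0⟩

theorem quartic_pos {t : F} (htop : IntermediateField.adjoin ℚ {t} = ⊤)
    (h0 : InfinitePlace.nrRealPlaces F = 0) (q : ℝ) : 0 < (rmp t).eval q := by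
  by_contra hcon
  obtain ⟨r, _, hr⟩ := exists_root_right (not_lt.1 hcon)
  obtain ⟨v, hv, _⟩ := exists_real_place htop r (rmp_root hr)
  classical
  unfold InfinitePlace.nrRealPlaces at h0
  exact (Fintype.card_eq_zero_iff.1 h0).false ⟨v, hv⟩

theorem exists_root_left {t : F} (hodd : Odd (minpoly ℚ t).natDegree) {q : ℝ}
    (h : 0 ≤ (rmp t).eval q) : ∃ r, r ≤ q ∧ (rmp t).eval r = 0 := by
  have hlim : Filter.Tendsto (fun x => ((rmp t).comp (-X)).eval x) Filter.atTop Filter.atBot := by
    refine tendsto_atBot_of_leadingCoeff_nonpos _ ?_ ?_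
    · rw [← natDegree_pos_iff_degree_pos, natDegree_comp, rmp_natDegree]
      simp only [natDegree_neg, natDegree_X, mul_one]
      exact minpoly.natDegree_pos (Algebra.IsIntegral.isIntegral t)
    · rw [leadingCoeff_comp (by simp), (rmp_monic t).leadingCoeff, rmp_natDegree]
      simp [hodd.neg_one_pow]
  obtain ⟨M, hM1, hM2⟩ := ((hlim.eventually_le_atBot (-1)).and
    (Filter.eventually_ge_atTop (-q))).exists
  have hM3 : -M ≤ q := by linarith
  rw [eval_comp] at hM1
  simp only [eval_neg, eval_X] at hM1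
  have := intermediate_value_Icc hM3 ((rmp t).continuous.continuousOn)
  obtain ⟨r, hr, hr0⟩ := this ⟨by linarith, h⟩
  exact ⟨r, hr.2, hr0⟩

theorem cubic_sign {t : F} (htop : IntermediateField.adjoin ℚ {t} = ⊤)
    (hF : Fintype.card (InfinitePlace F) = 2) (hodd : Odd (minpoly ℚ t).natDegree) {q₁ q₂ : ℝ}
    (hq : q₁ < q₂) (h1 : 0 < (rmp t).eval q₁) (h2 : (rmp t).eval q₂ < 0) : False := by
  obtain ⟨a, ha, ha0⟩ := exists_root_left hodd h1.le
  obtain ⟨c, hc, hc0⟩ := exists_root_right h2.le
  have := intermediate_value_Icc' hq.le ((rmp t).continuous.continuousOn)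
  obtain ⟨b, hb, hb0'⟩ := this ⟨h2.le, h1.le⟩
  have hb0 : (rmp t).eval b = 0 := hb0'
  have hab : a < b := by
    rcases lt_or_eq_of_le (ha.trans hb.1) with h | h
    · exact h
    · exfalso
      have : q₁ = b := le_antisymm hb.1 (h ▸ ha)
      rw [this, hb0] at h1
      exact lt_irrefl _ h1
  have hbc : b < c := by
    rcases lt_or_eq_of_le (hb.2.trans hc) with h | h
    · exact h
    · exfalso
      have : b = q₂ := le_antisymm hb.2 (h ▸ hc)
      rw [← this, hb0] at h2
      exact lt_irrefl _ h2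
  obtain ⟨u, _, hu⟩ := exists_real_place htop a (rmp_root ha0)
  obtain ⟨v, _, hv⟩ := exists_real_place htop b (rmp_root hb0)
  obtain ⟨w, _, hw⟩ := exists_real_place htop c (rmp_root hc0)
  have huv : u ≠ v := by
    rintro rfl
    rw [hu] at hv
    exact hab.ne (by exact_mod_cast hv)
  have hvw : v ≠ w := by
    rintro rfl
    rw [hv] at hw
    exact hbc.ne (by exact_mod_cast hw)
  have huw : u ≠ w := by
    rintro rfl
    rw [hu] at hw
    exact (hab.trans hbc).ne (by exact_mod_cast hw)
  classical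
  have h3 : ({u, v, w} : Finset (InfinitePlace F)).card = 3 := by
    rw [Finset.card_eq_three]
    exact ⟨u, v, w, huv, huw, hvw, rfl⟩
  have h4 := Finset.card_le_univ ({u, v, w} : Finset (InfinitePlace F))
  rw [h3, hF] at h4
  omega

end

end Pool.Agent.Zagier
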