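import Pool.Agent.Zagier.FamData
import Pool.Agent.Zagier.FamDataB
import Pool.Agent.Zagier.FamDataC
import Pool.Agent.Zagier.FieldR
import Pool.Agent.Zagier.DistThree

/-!
# Relation descriptors and certificates in weights four to seven
-/

open scoped TensorProduct

namespace Pool.Agent.Zagier

universe u

/-- the monomials `x, 1 - x, 1 - x + x²` -/
structure Pt3 (G : Type) where
  /-- `x` -/
  x : G
  /-- `1 - x` -/
  y : G
  /-- `1 - x + x²` -/
  z : G

section

variable {G : Type} [AddCommGroup G] {K : Type u} [Field K] {ev : G →+ Additive Kˣ}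

/-- monomial of a term -/
def T1.g (t : T1) (m1 : G) (P : Pt3 G) : G :=
  (if t.s then 0 else m1) + (t.e0 • P.x + t.e1 • P.y + t.e2 • P.z)

/-- the formal combination of a family -/
def fam1L (T : List T1) (m1 : G) (P : Pt3 G) : List (ℤ × G) :=
  T.map fun t => (t.c, t.g m1 P)

theorem fam1_eq_evL (T : List T1) {m1 : G} (hm1 : val ev m1 = -1) (P : Pt3 G)
    (hy : val ev P.y = 1 - val ev P.x) (hz : val ev P.z = quad (val ev P.x)) :
    fam1 T (0, 0, 0) (val ev P.x) = evL ev (fam1L T m1 P) := by
  rw [fam1, evL, fam1L, List.map_map]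
  congr 1
  refine List.map_congr_left fun t _ => ?_
  simp only [Function.comp_apply, T1.co, pw, mul_one]
  congr 2
  rw [T1.arg, ← hy, ← hz, T1.g, val_add, val_add, val_add, val_zsmul, val_zsmul, val_zsmul]
  congr 1
  cases t.s
  · simp [sg, hm1]
  · simp [sg, val_zero]

/-- the relation given by a family, with its constants -/
def famRel (T : List T1) (m1 : G) (P : Pt3 G) : List (ℤ × G) :=
  (-(kapP T (0, 0, 0)), 0) :: (-(kapM T (0, 0, 0)), m1) :: fam1L T m1 P

theorem fam1_eq_evL' (T : List T1) (hT : T.all (fun t => t.e2 == 0) = true) {m1 : G}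
    (hm1 : val ev m1 = -1) (x y : G) (hy : val ev y = 1 - val ev x) :
    fam1 T (0, 0, 0) (val ev x) = evL ev (fam1L T m1 ⟨x, y, 0⟩) := by
  rw [fam1, evL, fam1L, List.map_map]
  congr 1
  refine List.map_congr_left fun t ht => ?_
  have h0 : t.e2 = 0 := by simpa using List.all_eq_true.1 hT t ht
  simp only [Function.comp_apply, T1.co, pw, mul_one]
  congr 2
  rw [T1.arg, ← hy, T1.g, val_add, val_add, val_add, val_zsmul, val_zsmul, val_zsmul, h0,
    zpow_zero, zpow_zero]
  congr 1
  cases t.s
  · simp [sg, hm1]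
  · simp [sg, val_zero]

theorem RS.fam1' [CharZero K] {n : ℕ} {Q : List (List ℤ)} {T : List T1}
    (h : FamOK n Q T = true) (hT : T.all (fun t => t.e2 == 0) = true) (hn : 2 ≤ n) {m1 : G}
    (hm1 : val ev m1 = -1) (x y : G) (hy : val ev y = 1 - val ev x)
    (hq : quad (val ev x) ≠ 0) : RS ev n (famRel T m1 ⟨x, y, 0⟩) := by
  unfold RS
  rw [famRel, evL_cons, evL_cons, ← fam1_eq_evL' T hT hm1 x y hy, val_zero, hm1]
  have h1 := fam1_inSat n Q T h n hn 0 0 0 (by omega) K (val ev x) (val_ne ev _)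
    (by rw [← hy]; exact val_ne ev _) hq
  convert h1 using 1
  module

theorem RS.fam1 [CharZero K] {n : ℕ} {Q : List (List ℤ)} {T : List T1}
    (h : FamOK n Q T = true) (hn : 2 ≤ n) {m1 : G} (hm1 : val ev m1 = -1) (P : Pt3 G)
    (hy : val ev P.y = 1 - val ev P.x) (hz : val ev P.z = quad (val ev P.x)) :
    RS ev n (famRel T m1 P) := by
  unfold RS
  rw [famRel, evL_cons, evL_cons, ← fam1_eq_evL T hm1 P hy hz, val_zero, hm1]
  have h1 := fam1_inSat n Q T h n hn 0 0 0 (by omega) K (val ev P.x) (val_ne ev _)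
    (by rw [← hy]; exact val_ne ev _) (by rw [← hz]; exact val_ne ev _)
  convert h1 using 1
  module

/-- three-distribution relation -/
def relDist3 (m : ℕ) (w : G) (g : G) : List (ℤ × G) :=
  [(1, (3 : ℤ) • g), (-3 ^ (m - 1), g), (-3 ^ (m - 1), w + g), (-3 ^ (m - 1), (2 : ℤ) • w + g)]

theorem RS.dist3 {m : ℕ} (hm : 2 ≤ m) {w : G} (hw : val ev w ^ 2 + val ev w + 1 = 0) (g : G) :
    RS ev m (relDist3 m w g) := by
  unfold RS relDist3
  have h := dist3_inSat m hm K (val ev w) hw (val ev g) (val_ne ev _)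
  rw [evL_cons, evL_cons, evL_cons, evL_cons, evL_nil, val_zsmul, val_add, val_add, val_zsmul]
  convert h using 1
  rw [show ((3 : ℤ)) = ((3 : ℕ) : ℤ) from rfl, zpow_natCast, show ((2 : ℤ)) = ((2 : ℕ) : ℤ) from rfl,
    zpow_natCast]
  push_cast
  module

/-- a relation descriptor -/
inductive RelD (G : Type) where
  /-- Kummer's equation (weights 4 and 5) -/
  | kum (P : Pt G)
  /-- one-variable families (weights 5, 6 and 7) -/
  | fam (k : ℕ) (P : Pt3 G)
  /-- one-variable families (weights 4 and 5) in `x, 1 - x`; `r, N` show `1 - x + x² ≠ 0` -/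
  | cub (x y : G) (r : List ℤ) (N : ℤ)
  /-- distribution for square roots -/
  | dist2 (g : G)
  /-- distribution for cube roots -/
  | dist3 (g : G)
  /-- inversion -/
  | inv (g : G)
  /-- `{1} = 0` in even weight -/
  | one
  /-- `{-1} = 0` in even weight -/
  | negOne

/-- the family number `k` in weight `m` -/
def famNo (m k : ℕ) : List T1 :=
  if m = 6 then (if k = 0 then famSixA else famSixB)
  else if m = 7 then (if k = 0 then famSevenA else famSevenB)
  else if m = 5 then (if k = 0 then famFiveD else if k = 1 then famFiveE else famFiveF)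
  else []

/-- the family in `x, 1 - x` in weight `m` -/
def cubNo (m : ℕ) : List T1 :=
  if m = 4 then famFourC else if m = 5 then famFiveC else []

/-- formal combination of a relation descriptor -/
def RelD.toL (m : ℕ) (m1 w : G) : RelD G → List (ℤ × G)
  | .kum P => relK m m1 P
  | .fam k P => famRel (famNo m k) m1 P
  | .cub x y _ _ => famRel (cubNo m) m1 ⟨x, y, 0⟩
  | .dist2 g => relDist m m1 g
  | .dist3 g => relDist3 m w g
  | .inv g => relInv m g
  | .one => if m % 2 = 0 then [(1, 0)] else []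
  | .negOne => if m % 2 = 0 then [(1, m1)] else []

/-- validity of a relation descriptor -/
def RelD.Valid (ev : G →+ Additive Kˣ) (w : G) : RelD G → Prop
  | .kum P => val ev P.x + val ev P.x' = 1 ∧ val ev P.y + val ev P.y' = 1
  | .fam _ P => val ev P.y = 1 - val ev P.x ∧ val ev P.z = quad (val ev P.x)
  | .cub x y _ _ => val ev y = 1 - val ev x ∧ quad (val ev x) ≠ 0
  | .dist3 _ => val ev w ^ 2 + val ev w + 1 = 0
  | _ => True

theorem RS.relD [CharZero K] {m : ℕ} (hm : 4 ≤ m) (hm7 : m ≤ 7) {m1 w : G}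
    (hm1 : val ev m1 = -1) (d : RelD G) (hd : d.Valid ev w) : RS ev m (d.toL m m1 w) := by
  have hm2 : 2 ≤ m := by omega
  cases d with
  | kum P =>
    simp only [RelD.toL, relK]
    split_ifs with h4 h5
    · subst h4; exact RS.kummerFour hm1 P hd.1 hd.2
    · subst h5; exact RS.kummerFive hm1 P hd.1 hd.2
    · exact RS.nil
  | fam k P =>
    simp only [RelD.toL, famNo]
    split_ifs with h6 hk h7 hk h5 hk hk'
    · subst h6; exact RS.fam1 famSixA_ok hm2 hm1 P hd.1 hd.2
    · subst h6; exact RS.fam1 famSixB_ok hm2 hm1 P hd.1 hd.2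
    · subst h7; exact RS.fam1 famSevenA_ok hm2 hm1 P hd.1 hd.2
    · subst h7; exact RS.fam1 famSevenB_ok hm2 hm1 P hd.1 hd.2
    · subst h5; exact RS.fam1 famFiveD_ok hm2 hm1 P hd.1 hd.2
    · subst h5; exact RS.fam1 famFiveE_ok hm2 hm1 P hd.1 hd.2
    · subst h5; exact RS.fam1 famFiveF_ok hm2 hm1 P hd.1 hd.2
    · unfold RS
      simp only [famRel, kapP, kapM, fam1L, List.map_nil, List.sum_nil, neg_zero]
      rw [evL_cons, evL_cons, evL_nil, zero_smul, zero_smul, zero_add, zero_add]
      exact InSat.zero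
  | cub x y r N =>
    simp only [RelD.toL, cubNo]
    split_ifs with h4 h5
    · subst h4
      exact RS.fam1' famFourC_ok (by decide +kernel) hm2 hm1 x y hd.1 hd.2
    · subst h5
      exact RS.fam1' famFiveC_ok (by decide +kernel) hm2 hm1 x y hd.1 hd.2
    · unfold RS
      simp only [famRel, kapP, kapM, fam1L, List.map_nil, List.sum_nil, neg_zero]
      rw [evL_cons, evL_cons, evL_nil, zero_smul, zero_smul, zero_add, zero_add]
      exact InSat.zero
  | dist2 g => exact RS.dist hm2 hm1 g
  | dist3 g => exact RS.dist3 hm2 hd g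
  | inv g => exact RS.inv hm2 g
  | one =>
    simp only [RelD.toL]
    split_ifs with h
    · exact RS.one hm2 (Nat.even_iff.2 h)
    · exact RS.nil
  | negOne =>
    simp only [RelD.toL]
    split_ifs with h
    · exact RS.negOne hm2 (Nat.even_iff.2 h) hm1
    · exact RS.nil

/-- formal combination of a certificate -/
def certL (m : ℕ) (m1 w : G) (C : List (ℤ × RelD G)) : List (ℤ × G) :=
  C.flatMap fun p => scaleL p.1 (p.2.toL m m1 w)

theorem RS.certL [CharZero K] {m : ℕ} (hm : 4 ≤ m) (hm7 : m ≤ 7) {m1 w : G}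
    (hm1 : val ev m1 = -1) (C : List (ℤ × RelD G)) (hC : ∀ p ∈ C, p.2.Valid ev w) :
    RS ev m (certL m m1 w C) :=
  RS.flatMap C _ fun p hp => RS.relD hm hm7 hm1 p.2 (hC p hp)

end

/-! ### field data -/

/-- Data of a field `ℚ(x)`, `x` a root of `p ++ [1]`: a root of unity `τ` of order `T` and
two further generators `u, v`; `m1` and `w` are the exponent vectors of `-1` and of a primitive
cube root of unity (if there is one). -/
structure FD where
  /-- the polynomial without its leading coefficient -/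
  p : List ℤ
  /-- the order of `τ` -/
  T : ℕ
  /-- the generators and their inverses -/
  gs : GenP × GenP × GenP
  /-- the exponent vector of `-1` -/
  m1 : E3
  /-- the exponent vector of a cube root of unity -/
  w : E3

/-- check for a generator -/
def genPOK (p : List ℤ) (g : GenP) : Bool := eqR p (mulP g.1 g.2.1) [g.2.2] && g.2.2 != 0

/-- checks for the field data -/
def FD.ok (D : FD) : Bool :=
  !D.p.isEmpty && (genPOK D.p D.gs.1 && (genPOK D.p D.gs.2.1 && (genPOK D.p D.gs.2.2 &&
      (eqR D.p (powR D.p D.gs.1.1 D.T) [1] && (decide (0 < D.T) &&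
        eqR D.p (monR D.p D.gs D.m1) [-(monD D.gs D.m1)])))))

/-- numerator of a monomial -/
def FD.mon (D : FD) (g : E3) : List ℤ := monR D.p D.gs g

/-- denominator of a monomial -/
def FD.den (D : FD) (g : E3) : ℤ := monD D.gs g

/-- check of `x + y = 1` -/
def FD.sumOne (D : FD) (x y : E3) : Bool :=
  eqR D.p (addP (smulP (D.den y) (D.mon x)) (smulP (D.den x) (D.mon y))) [D.den x * D.den y]

/-- numerator of `1 - x + x²` -/
def FD.qd (D : FD) (x : E3) : List ℤ :=
  addP (addP [D.den x * D.den x] (smulP (-(D.den x)) (D.mon x))) (mulP (D.mon x) (D.mon x))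

/-- validity check for a relation descriptor -/
def FD.relOK (D : FD) : RelD E3 → Bool
  | .kum P => D.sumOne P.x P.x' && D.sumOne P.y P.y'
  | .fam _ P => D.sumOne P.x P.y &&
      eqR D.p (smulP (D.den P.x * D.den P.x) (D.mon P.z)) (smulP (D.den P.z) (D.qd P.x))
  | .cub x y r N => D.sumOne x y && (eqR D.p (mulP (D.qd x) r) [N] && N != 0)
  | .dist3 _ => eqR D.p (addP (addP (mulP (D.mon D.w) (D.mon D.w))
      (smulP (D.den D.w) (D.mon D.w))) [D.den D.w * D.den D.w]) []
  | _ => true

section

variable {K : Type u} [Field K]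

/-- correctness of field data at an element `x` -/
structure FD.Root (D : FD) (x : K) : Prop where
  /-- the checks hold -/
  ok : D.ok = true
  /-- `x` is a root -/
  root : evP x (D.p ++ [1]) = 0

variable {D : FD} {x : K}

theorem FD.Root.p_ne (h : D.Root x) : D.p ≠ [] := by
  have := h.ok
  simp only [FD.ok, Bool.and_eq_true, Bool.not_eq_true', List.isEmpty_eq_false_iff] at this
  exact this.1

theorem evP_single (x : K) (c : ℤ) : evP x [c] = (c : K) := by simp [evP]

theorem FD.Root.gen [CharZero K] (h : D.Root x) {g : GenP} (hg : genPOK D.p g = true) :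
    g.OK x := by
  simp only [genPOK, Bool.and_eq_true, bne_iff_ne] at hg
  refine ⟨?_, by exact_mod_cast hg.2⟩
  rw [← evP_mul, evP_eqR h.p_ne h.root hg.1, evP_single]

variable [CharZero K]

theorem FD.Root.g0 (h : D.Root x) : D.gs.1.OK x := by
  have := h.ok
  simp only [FD.ok, Bool.and_eq_true] at this
  exact h.gen this.2.1

theorem FD.Root.g1 (h : D.Root x) : D.gs.2.1.OK x := by
  have := h.ok
  simp only [FD.ok, Bool.and_eq_true] at this
  exact h.gen this.2.2.1

theorem FD.Root.g2 (h : D.Root x) : D.gs.2.2.OK x := by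
  have := h.ok
  simp only [FD.ok, Bool.and_eq_true] at this
  exact h.gen this.2.2.2.1

/-- the evaluation of exponent vectors -/
noncomputable def FD.Root.ev (h : D.Root x) : E3 →+ Additive Kˣ :=
  ev3 (Units.mk0 _ h.g0.ne) (Units.mk0 _ h.g1.ne) (Units.mk0 _ h.g2.ne)

theorem FD.Root.val_ev (h : D.Root x) (g : E3) : val h.ev g =
    evP x D.gs.1.1 ^ g.1 * (evP x D.gs.2.1.1 ^ g.2.1 * evP x D.gs.2.2.1 ^ g.2.2) := by
  rw [FD.Root.ev, val_ev3]; rfl

theorem FD.Root.den_ne (h : D.Root x) (g : E3) : (D.den g : K) ≠ 0 :=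
  monD_ne h.g0 h.g1 h.g2 g

theorem FD.Root.evP_mon (h : D.Root x) (g : E3) :
    evP x (D.mon g) = val h.ev g * (D.den g : K) := by
  rw [h.val_ev, FD.mon, evP_monR h.p_ne h.root h.g0 h.g1 h.g2]; rfl

theorem FD.Root.ev_nf (h : D.Root x) (g : E3) : h.ev (nf3 D.T g) = h.ev g := by
  refine ev3_nf ?_ _ _ g
  have := h.ok
  simp only [FD.ok, Bool.and_eq_true] at this
  have h1 := evP_eqR h.p_ne h.root this.2.2.2.2.1
  rw [evP_powR h.p_ne h.root, evP_single, Int.cast_one] at h1
  ext
  simpa using h1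

theorem FD.Root.T_pos (h : D.Root x) : 0 < D.T := by
  have := h.ok
  simp only [FD.ok, Bool.and_eq_true, decide_eq_true_eq] at this
  exact this.2.2.2.2.2.1

theorem FD.Root.val_m1 (h : D.Root x) : val h.ev D.m1 = -1 := by
  have := h.ok
  simp only [FD.ok, Bool.and_eq_true] at this
  have h1 := evP_eqR h.p_ne h.root this.2.2.2.2.2.2
  have h2 := h.evP_mon D.m1
  rw [FD.mon, h1, evP_single] at h2
  have h3 := h.den_ne D.m1
  rw [FD.den] at h2 h3
  push_cast at h2
  have h4 : (val h.ev D.m1 + 1) * (monD D.gs D.m1 : K) = 0 := by linear_combination -h2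
  have h5 := (mul_eq_zero.1 h4).resolve_right h3
  linear_combination h5

theorem FD.Root.sumOne (h : D.Root x) {a b : E3} (hc : D.sumOne a b = true) :
    val h.ev a + val h.ev b = 1 := by
  have h1 := evP_eqR h.p_ne h.root hc
  rw [evP_add, evP_smul, evP_smul, evP_single, h.evP_mon, h.evP_mon] at h1
  push_cast at h1
  have ha := h.den_ne a
  have hb := h.den_ne b
  have h2 : (val h.ev a + val h.ev b - 1) * ((D.den a : K) * (D.den b : K)) = 0 := by
    linear_combination h1
  have h3 := (mul_eq_zero.1 h2).resolve_right (mul_ne_zero ha hb)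
  linear_combination h3

theorem FD.Root.evP_qd (h : D.Root x) (a : E3) :
    evP x (D.qd a) = quad (val h.ev a) * ((D.den a : K) * (D.den a : K)) := by
  rw [FD.qd, evP_add, evP_add, evP_smul, evP_mul, evP_single, h.evP_mon, quad]
  push_cast
  ring

theorem FD.Root.valid (h : D.Root x) {d : RelD E3} (hd : D.relOK d = true) :
    d.Valid h.ev D.w := by
  cases d with
  | kum P =>
    simp only [FD.relOK, Bool.and_eq_true] at hd
    exact ⟨h.sumOne hd.1, h.sumOne hd.2⟩
  | fam k P =>
    simp only [FD.relOK, Bool.and_eq_true] at hd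
    have h1 := h.sumOne hd.1
    have h2 := evP_eqR h.p_ne h.root hd.2
    rw [evP_smul, evP_smul, h.evP_mon, h.evP_qd] at h2
    push_cast at h2
    refine ⟨by linear_combination h1, ?_⟩
    have ha := h.den_ne P.x
    have hb := h.den_ne P.z
    have h3 : (val h.ev P.z - quad (val h.ev P.x)) *
        ((D.den P.x : K) * (D.den P.x : K) * (D.den P.z : K)) = 0 := by
      linear_combination h2
    have h4 := (mul_eq_zero.1 h3).resolve_right (mul_ne_zero (mul_ne_zero ha ha) hb)
    linear_combination h4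
  | cub a b r N =>
    simp only [FD.relOK, Bool.and_eq_true, bne_iff_ne] at hd
    have h1 := h.sumOne hd.1
    have h2 := evP_eqR h.p_ne h.root hd.2.1
    rw [evP_mul, evP_single, h.evP_qd] at h2
    refine ⟨by linear_combination h1, fun h0 => ?_⟩
    rw [h0, zero_mul, zero_mul] at h2
    exact hd.2.2 (by exact_mod_cast h2.symm)
  | dist3 g =>
    simp only [FD.relOK] at hd
    have h1 := evP_eqR h.p_ne h.root hd
    rw [evP_add, evP_add, evP_mul, evP_smul, evP_single, h.evP_mon] at h1
    simp only [RelD.Valid]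
    have ha := h.den_ne D.w
    have h3 : (val h.ev D.w ^ 2 + val h.ev D.w + 1) * ((D.den D.w : K) * (D.den D.w : K)) = 0 := by
      push_cast at h1
      have h4 : evP x [] = 0 := rfl
      rw [h4] at h1
      linear_combination h1
    exact (mul_eq_zero.1 h3).resolve_right (mul_ne_zero ha ha)
  | dist2 g => trivial
  | inv g => trivial
  | one => trivial
  | negOne => trivial

/-- contraction with the exponent of `u` -/
def lam1 (g : E3) : ℤ := g.2.1
/-- contraction with the exponent of `v` -/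
def lam2 (g : E3) : ℤ := g.2.2

/-- the check of a certificate -/
def FD.certOK (D : FD) (m : ℕ) (c : ℤ) (C : List (ℤ × RelD E3)) (lam : E3 → ℤ)
    (L : List (ℤ × E3)) : Bool :=
  (c != 0) && (C.all (fun p => D.relOK p.2) &&
    sameL (nf3 D.T) (certL m D.m1 D.w C) (scaleL c (contractL lam L)))

theorem FD.Root.rs_of_cert (h : D.Root x) {m : ℕ} (hm : 4 ≤ m) (hm7 : m ≤ 7) {c : ℤ}
    {C : List (ℤ × RelD E3)} {lam : E3 → ℤ} {L : List (ℤ × E3)}
    (hc : D.certOK m c C lam L = true) : RS h.ev m (contractL lam L) := by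
  simp only [FD.certOK, Bool.and_eq_true, bne_iff_ne, List.all_eq_true] at hc
  exact RS.congr (nf3 D.T) h.ev_nf c hc.1 hc.2.2
    (RS.certL hm hm7 h.val_m1 C fun p hp => h.valid (hc.2.1 p hp))

/-- membership in `ker δ_{m+1}` -/
theorem FD.Root.ker (h : D.Root x) {n m : ℕ} (hn : n = m + 1) (hm : 4 ≤ m)
    (hm7 : m ≤ 7) (L : List (ℤ × E3)) {c₁ c₂ : ℤ} {C₁ C₂ : List (ℤ × RelD E3)}
    (h₁ : D.certOK m c₁ C₁ lam1 L = true) (h₂ : D.certOK m c₂ C₂ lam2 L = true) :
    ∃ N : ℕ, 0 < N ∧ N • evL h.ev L ∈ kerDelta n K := by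
  have h2 : ∀ p ∈ L, nf3 D.T (D.T • (p.2 - ∑ j : Bool, (fun (b : Bool) (g : E3) =>
      if b then lam1 g else lam2 g) j p.2 •
      (fun (b : Bool) => if b then ((0, 1, 0) : E3) else (0, 0, 1)) j)) = 0 := by
    intro p _
    obtain ⟨c, a, k, l⟩ := p
    simp [nf3, lam1, lam2]
  exact exists_mem_kerDelta (G := E3) (K := K) (ev := h.ev) (ι := Bool) (n := n) (m := m)
    hn (by omega) (nf3 D.T) h.ev_nf (fun b g => if b then lam1 g else lam2 g)
    (fun b => if b then (0, 1, 0) else (0, 0, 1)) D.T h.T_pos L h2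
    (fun b => by
      cases b
      · exact h.rs_of_cert hm hm7 h₂
      · exact h.rs_of_cert hm hm7 h₁)

end

end Pool.Agent.Zagier
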