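import Pool.Agent.Zagier.BallReg
import Pool.Agent.Zagier.ListPoly

/-!
# Locating the roots of an integer polynomial
-/

namespace Pool.Agent.Zagier

universe u

/-- a fine scale -/
def rscl : ℕ := 10 ^ 200

/-- the ratio of the two scales -/
def qscl : ℕ := 10 ^ 160

/-- a Gaussian integer as a complex number -/
noncomputable def gz (a : ℤ × ℤ) : ℂ := (a.1 : ℂ) + (a.2 : ℂ) * Complex.I

/-- value of a polynomial with Gaussian integer coefficients -/
noncomputable def evG (y : ℂ) : List (ℤ × ℤ) → ℂ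
  | [] => 0
  | a :: l => gz a + y * evG y l

/-- sum -/
def addG : List (ℤ × ℤ) → List (ℤ × ℤ) → List (ℤ × ℤ)
  | [], b => b
  | x :: a, [] => x :: a
  | x :: a, y :: b => (x.1 + y.1, x.2 + y.2) :: addG a b

/-- multiple by a Gaussian integer -/
def smulG (c : ℤ × ℤ) : List (ℤ × ℤ) → List (ℤ × ℤ)
  | [] => []
  | x :: a => (c.1 * x.1 - c.2 * x.2, c.1 * x.2 + c.2 * x.1) :: smulG c a

theorem gz_add (a b : ℤ × ℤ) : gz (a.1 + b.1, a.2 + b.2) = gz a + gz b := by
  simp only [gz]; push_cast; ring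

theorem gz_mul (a b : ℤ × ℤ) : gz (a.1 * b.1 - a.2 * b.2, a.1 * b.2 + a.2 * b.1) = gz a * gz b := by
  simp only [gz]; push_cast
  linear_combination (-(a.2 : ℂ) * b.2) * Complex.I_sq

theorem evG_add (y : ℂ) (a b : List (ℤ × ℤ)) : evG y (addG a b) = evG y a + evG y b := by
  induction a generalizing b with
  | nil => simp [addG, evG]
  | cons p a ih =>
    cases b with
    | nil => simp [addG, evG]
    | cons q b => simp only [addG, evG, ih, gz_add]; ring

theorem evG_smul (y : ℂ) (c : ℤ × ℤ) (a : List (ℤ × ℤ)) :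
    evG y (smulG c a) = gz c * evG y a := by
  induction a with
  | nil => simp [smulG, evG]
  | cons p a ih => simp only [smulG, evG, ih, gz_mul]; ring

/-- `∏ (X - a)` -/
def prodLin : List (ℤ × ℤ) → List (ℤ × ℤ)
  | [] => [(1, 0)]
  | a :: l => addG ((0, 0) :: prodLin l) (smulG (-a.1, -a.2) (prodLin l))

theorem evG_prodLin (y : ℂ) (A : List (ℤ × ℤ)) :
    evG y (prodLin A) = (A.map fun a => y - gz a).prod := by
  induction A with
  | nil => simp [prodLin, evG, gz]
  | cons a A ih =>
    rw [prodLin, evG_add, evG_smul, evG, ih, List.map_cons, List.prod_cons]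
    have h1 : gz (0, 0) = 0 := by simp [gz]
    have h2 : gz (-a.1, -a.2) = - gz a := by simp [gz]; ring
    rw [h1, h2]; ring

/-- `R^d f(X/R)` -/
def scaleF (R : ℤ) : List ℤ → List (ℤ × ℤ)
  | [] => []
  | c :: l => (c * R ^ l.length, 0) :: scaleF R l

theorem evG_scaleF (R : ℤ) (z : ℂ) (l : List ℤ) :
    (R : ℂ) * evG ((R : ℂ) * z) (scaleF R l) = (R : ℂ) ^ l.length * evP z l := by
  induction l with
  | nil => simp [scaleF, evG, evP]
  | cons c l ih =>
    simp only [scaleF, evG, evP, List.length_cons, gz]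
    push_cast
    linear_combination ((R : ℂ) * z) * ih

/-- bound for a value -/
def bndG (Y : ℕ) : List (ℤ × ℤ) → ℕ
  | [] => 0
  | c :: l => c.1.natAbs + c.2.natAbs + Y * bndG Y l

theorem norm_gz_le (a : ℤ × ℤ) : ‖gz a‖ ≤ ((a.1.natAbs + a.2.natAbs : ℕ) : ℝ) := by
  rw [gz, Nat.cast_add, natAbs_cast, natAbs_cast]
  refine (norm_add_le _ _).trans ?_
  simp

theorem norm_evG_le {y : ℂ} {Y : ℕ} (hy : ‖y‖ ≤ Y) (l : List (ℤ × ℤ)) :
    ‖evG y l‖ ≤ bndG Y l := by
  induction l with
  | nil => simp [evG, bndG]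
  | cons c l ih =>
    simp only [evG, bndG]
    refine (norm_add_le _ _).trans ?_
    rw [norm_mul]
    push_cast
    have h1 := norm_gz_le c
    push_cast at h1
    refine add_le_add h1 (mul_le_mul hy ih (norm_nonneg _) (by positivity))

/-- `z` is close to the approximate root `a` -/
def Near (z : ℂ) (a : ℤ × ℤ) : Prop := ‖(rscl : ℂ) * z - gz a‖ ≤ qscl

theorem exists_small {A : List (ℤ × ℤ)} (hA : A ≠ []) {y : ℂ} {ρ : ℝ} (hρ : 0 ≤ ρ)
    (h : ‖(A.map fun a => y - gz a).prod‖ ≤ ρ ^ A.length) : ∃ a ∈ A, ‖y - gz a‖ ≤ ρ := by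
  by_contra hcon
  push Not at hcon
  have key : ∀ B : List (ℤ × ℤ), (∀ a ∈ B, ρ < ‖y - gz a‖) → B ≠ [] →
      ρ ^ B.length < ‖(B.map fun a => y - gz a).prod‖ := by
    intro B
    induction B with
    | nil => intro _ h; exact absurd rfl h
    | cons b B ih =>
      intro hB _
      have hb := hB b (by simp)
      rw [List.map_cons, List.prod_cons, norm_mul, List.length_cons, pow_succ']
      by_cases hB0 : B = []
      · subst hB0; simpa using hb
      · have h2 := ih (fun a ha => hB a (by simp [ha])) hB0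
        have h3 : (0 : ℝ) ≤ ρ ^ B.length := pow_nonneg hρ _
        exact mul_lt_mul'' hb h2 hρ h3
  exact absurd h (not_le.2 (key A hcon hA))

/-- sum of absolute values of the coefficients -/
def absSum : List ℤ → ℕ
  | [] => 0
  | c :: l => c.natAbs + absSum l

theorem norm_evP_le {z : ℂ} (hz : 1 ≤ ‖z‖) (l : List ℤ) :
    ‖z‖ * ‖evP z l‖ ≤ absSum l * ‖z‖ ^ l.length := by
  induction l with
  | nil => simp [evP, absSum]
  | cons c l ih =>
    simp only [evP, absSum, List.length_cons]
    have h1 : ‖(c : ℂ) + z * evP z l‖ ≤ ‖(c : ℂ)‖ + ‖z‖ * ‖evP z l‖ := by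
      rw [← norm_mul]; exact norm_add_le _ _
    have h2 : ‖(c : ℂ)‖ = (c.natAbs : ℝ) := by rw [natAbs_cast]; simp
    have h3 : (1 : ℝ) ≤ ‖z‖ ^ l.length := one_le_pow₀ hz
    have h0 : 0 ≤ ‖z‖ := by linarith
    calc ‖z‖ * ‖(c : ℂ) + z * evP z l‖ ≤ ‖z‖ * ((c.natAbs : ℝ) + absSum l * ‖z‖ ^ l.length) := by
          refine mul_le_mul_of_nonneg_left (h1.trans ?_) h0
          rw [h2]; linarith
      _ ≤ _ := by
          push_cast
          have h4 : (c.natAbs : ℝ) ≤ c.natAbs * ‖z‖ ^ l.length :=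
            le_mul_of_one_le_right (by positivity) h3
          rw [pow_succ]
          nlinarith

theorem evP_append_one {K : Type u} [Field K] (z : K) (p : List ℤ) :
    evP z (p ++ [1]) = evP z p + z ^ p.length := by
  induction p with
  | nil => simp [evP]
  | cons c p ih => simp only [List.cons_append, evP, ih, List.length_cons, pow_succ]; ring

theorem root_norm_le {z : ℂ} (p : List ℤ) (h : evP z (p ++ [1]) = 0) {M : ℕ}
    (hM : absSum p ≤ M) (hM1 : 1 ≤ M) : ‖z‖ ≤ M := by
  have hM1' : (1 : ℝ) ≤ M := by exact_mod_cast hM1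
  by_cases hz : 1 ≤ ‖z‖
  · have h1 := norm_evP_le hz p
    rw [evP_append_one] at h
    have h2 : ‖evP z p‖ = ‖z‖ ^ p.length := by
      rw [← norm_pow, ← norm_neg, ← eq_neg_of_add_eq_zero_right h]
    rw [h2] at h1
    have h3 : 0 < ‖z‖ ^ p.length := pow_pos (by linarith) _
    have h4 : ‖z‖ ≤ absSum p := le_of_mul_le_mul_right h1 h3
    exact h4.trans (by exact_mod_cast hM)
  · exact (not_le.1 hz).le.trans hM1'

/-- the check for the list of approximate roots of `p ++ [1]` -/
def rootsOK (p : List ℤ) (A : List (ℤ × ℤ)) (M : ℕ) : Bool :=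
  decide (absSum p ≤ M) && (decide (1 ≤ M) && (!A.isEmpty &&
    decide (bndG (M * rscl) (addG (prodLin A) (smulG (-1, 0) (scaleF rscl (p ++ [1])))) ≤
      qscl ^ A.length)))

theorem root_near {p : List ℤ} {A : List (ℤ × ℤ)} {M : ℕ} (hc : rootsOK p A M = true) {z : ℂ}
    (h : evP z (p ++ [1]) = 0) : ∃ a ∈ A, Near z a := by
  simp only [rootsOK, Bool.and_eq_true, decide_eq_true_eq, Bool.not_eq_true',
    List.isEmpty_eq_false_iff] at hc
  obtain ⟨h1, h2, h3, h4⟩ := hc
  have hz := root_norm_le p h h1 h2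
  have hR : (0 : ℝ) < (rscl : ℝ) := by norm_num [rscl]
  have hy : ‖(rscl : ℂ) * z‖ ≤ ((M * rscl : ℕ) : ℝ) := by
    rw [norm_mul]
    push_cast
    rw [mul_comm]
    simp only [Complex.norm_natCast]
    exact mul_le_mul_of_nonneg_right hz hR.le
  have h5 := norm_evG_le hy (addG (prodLin A) (smulG (-1, 0) (scaleF rscl (p ++ [1]))))
  have h6 : evG ((rscl : ℂ) * z) (scaleF rscl (p ++ [1])) = 0 := by
    have h7 := evG_scaleF (rscl : ℤ) z (p ++ [1])
    rw [h, mul_zero] at h7
    have h8 : ((rscl : ℤ) : ℂ) ≠ 0 := by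
      push_cast
      have : (rscl : ℂ) = ((rscl : ℝ) : ℂ) := by push_cast; rfl
      rw [this]
      exact Complex.ofReal_ne_zero.2 hR.ne'
    have h9 := (mul_eq_zero.1 h7).resolve_left h8
    simpa using h9
  rw [evG_add, evG_smul, h6, mul_zero, add_zero, evG_prodLin] at h5
  refine exists_small h3 (by positivity) (h5.trans ?_)
  exact_mod_cast h4

/-- conversion to a box -/
def toCB (a : ℤ × ℤ) : CB := ⟨a.1 / (qscl : ℤ), a.2 / (qscl : ℤ), 2⟩

theorem Near.has {z : ℂ} {a : ℤ × ℤ} (h : Near z a) : (toCB a).Has z := by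
  have hq : (0 : ℝ) < (qscl : ℝ) := by norm_num [qscl]
  have hqn : 0 < qscl := by norm_num [qscl]
  have hrq : (rscl : ℝ) = scl * qscl := by norm_num [rscl, scl, qscl]
  have hre : ((rscl : ℂ) * z - gz a).re = scl * qscl * z.re - a.1 := by
    have : (rscl : ℂ) = ((rscl : ℝ) : ℂ) := by push_cast; rfl
    rw [this, hrq]
    simp [gz]
  have him : ((rscl : ℂ) * z - gz a).im = scl * qscl * z.im - a.2 := by
    have : (rscl : ℂ) = ((rscl : ℝ) : ℂ) := by push_cast; rfl
    rw [this, hrq]
    simp [gz]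
  have h1 := (Complex.abs_re_le_norm _).trans h
  have h2 := (Complex.abs_im_le_norm _).trans h
  rw [hre] at h1
  rw [him] at h2
  constructor
  · have e1 : z.re * scl - ((toCB a).x : ℤ) = (scl * qscl * z.re - a.1) / qscl -
        (((a.1 / (qscl : ℤ) : ℤ) : ℝ) - a.1 / qscl) := by
      simp only [toCB]; field_simp; ring
    rw [e1]
    refine (abs_sub _ _).trans ?_
    have e2 : |(scl * qscl * z.re - a.1) / qscl| ≤ 1 := by
      rw [abs_div, abs_of_pos hq, div_le_one hq]; exact h1
    have e3 := floor_err a.1 qscl hqn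
    simp only [toCB]
    push_cast at e3 ⊢
    linarith
  · have e1 : z.im * scl - ((toCB a).y : ℤ) = (scl * qscl * z.im - a.2) / qscl -
        (((a.2 / (qscl : ℤ) : ℤ) : ℝ) - a.2 / qscl) := by
      simp only [toCB]; field_simp; ring
    rw [e1]
    refine (abs_sub _ _).trans ?_
    have e2 : |(scl * qscl * z.im - a.2) / qscl| ≤ 1 := by
      rw [abs_div, abs_of_pos hq, div_le_one hq]; exact h2
    have e3 := floor_err a.2 qscl hqn
    simp only [toCB]
    push_cast at e3 ⊢
    linarith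

theorem Near.conj {z : ℂ} {a : ℤ × ℤ} (h : Near z a) :
    Near ((starRingEnd ℂ) z) (a.1, -a.2) := by
  have h1 : (rscl : ℂ) * (starRingEnd ℂ) z - gz (a.1, -a.2) =
      (starRingEnd ℂ) ((rscl : ℂ) * z - gz a) := by
    simp [gz]
  rw [Near, h1]
  rw [RCLike.norm_conj]
  exact h

/-! ### polynomials in boxes -/

/-- an integer as a box -/
def CB.ofInt (c : ℤ) : CB := ⟨c * scl, 0, 0⟩

theorem CB.has_ofInt (c : ℤ) : (CB.ofInt c).Has (c : ℂ) := by
  simp [CB.Has, CB.ofInt]

/-- value of a polynomial -/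
def evB (B : CB) : List ℤ → CB
  | [] => CB.zero
  | c :: l => (CB.ofInt c).add (B.mul (evB B l))

theorem evB_has {B : CB} {z : ℂ} (h : B.Has z) (l : List ℤ) : (evB B l).Has (evP z l) := by
  induction l with
  | nil => exact CB.has_zero
  | cons c l ih => exact (CB.has_ofInt c).add (h.mul ih)

/-- divided difference -/
def ddP {K : Type u} [Field K] (y z : K) : List ℤ → K
  | [] => 0
  | _ :: l => evP y l + z * ddP y z l

theorem ddP_eq {K : Type u} [Field K] (y z : K) (l : List ℤ) :
    evP y l - evP z l = (y - z) * ddP y z l := by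
  induction l with
  | nil => simp [evP, ddP]
  | cons c l ih =>
    simp only [evP, ddP]
    linear_combination z * ih

/-- divided difference in a box -/
def ddB (B : CB) : List ℤ → CB
  | [] => CB.zero
  | _ :: l => (evB B l).add (B.mul (ddB B l))

theorem ddB_has {B : CB} {y z : ℂ} (hy : B.Has y) (hz : B.Has z) (l : List ℤ) :
    (ddB B l).Has (ddP y z l) := by
  induction l with
  | nil => exact CB.has_zero
  | cons c l ih => exact (evB_has hy l).add (hz.mul ih)

/-- the box does not contain `0` -/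
def nzB (B : CB) : Bool := decide (B.e < B.x.natAbs) || decide (B.e < B.y.natAbs)

theorem ne_zero_of_nzB {B : CB} {z : ℂ} (h : B.Has z) (hc : nzB B = true) : z ≠ 0 := by
  rintro rfl
  simp only [nzB, Bool.or_eq_true, decide_eq_true_eq] at hc
  rcases hc with hc | hc
  · have h1 := h.1
    rw [Complex.zero_re, zero_mul, zero_sub, abs_neg, ← natAbs_cast] at h1
    have : B.x.natAbs ≤ B.e := by exact_mod_cast h1
    omega
  · have h1 := h.2
    rw [Complex.zero_im, zero_mul, zero_sub, abs_neg, ← natAbs_cast] at h1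
    have : B.y.natAbs ≤ B.e := by exact_mod_cast h1
    omega

theorem root_unique {B : CB} {f : List ℤ} (hc : nzB (ddB B f) = true) {y z : ℂ} (hy : B.Has y)
    (hz : B.Has z) (hyf : evP y f = 0) (hzf : evP z f = 0) : y = z := by
  have h1 := ddP_eq y z f
  rw [hyf, hzf, sub_zero] at h1
  have h2 := ne_zero_of_nzB (ddB_has hy hz f) hc
  exact sub_eq_zero.1 ((mul_eq_zero.1 h1.symm).resolve_right h2)

/-! ### generators given by polynomials in the root -/

/-- the generator with value `pu(z)` and inverse `pv(z)`; the flag says that the logarithm is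
computed from the inverse -/
noncomputable def mkGen (B : CB) (pu pv : List ℤ) (b : Bool) (N T : ℕ) : Gen :=
  ⟨evB B pu, evB B pv, if b then (logB (evB B pv) N T).smul (-1) else logB (evB B pu) N T⟩

/-- check for the logarithm -/
def genOK (B : CB) (pu pv : List ℤ) (b : Bool) (rn N T : ℕ) : Bool :=
  normOK (((if b then evB B pv else evB B pu).mul (if b then evB B pv else evB B pu).conj).oneSub)
    rn && tailOK rn N T

theorem mkGen_has {B : CB} {z : ℂ} (h : B.Has z) {pu pv : List ℤ} {b : Bool} {rn N T : ℕ}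
    (hc : genOK B pu pv b rn N T = true) (hinv : evP z pu * evP z pv = 1) :
    (mkGen B pu pv b N T).Has (evP z pu) := by
  have hu : evP z pu ≠ 0 := left_ne_zero_of_mul_eq_one hinv
  have hv : evP z pv = (evP z pu)⁻¹ := (eq_inv_of_mul_eq_one_right hinv)
  simp only [genOK, Bool.and_eq_true] at hc
  refine ⟨hu, evB_has h pu, ?_, ?_⟩
  · rw [← hv]; exact evB_has h pv
  · cases b
    · exact logB_has (evB_has h pu) hc.1 hc.2
    · have h1 := (logB_has (evB_has h pv) hc.1 hc.2).smul (-1)
      have h2 : ((Real.log ‖evP z pu‖ : ℝ) : ℂ) =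
          ((-1 : ℤ) : ℂ) * ((Real.log ‖evP z pv‖ : ℝ) : ℂ) := by
        rw [hv, norm_inv, Real.log_inv]; push_cast; ring
      rw [h2]
      exact h1

/-- the generator `-1` -/
def genNeg : Gen := ⟨CB.ofInt (-1), CB.ofInt (-1), CB.zero⟩

theorem genNeg_has : genNeg.Has (-1) := by
  refine ⟨by norm_num, ?_, ?_, ?_⟩
  · have := CB.has_ofInt (-1); simpa [genNeg] using this
  · have := CB.has_ofInt (-1)
    rw [show ((-1 : ℂ))⁻¹ = ((-1 : ℤ) : ℂ) by norm_num]
    exact this
  · simpa [genNeg] using CB.has_zero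

end Pool.Agent.Zagier
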