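import Pool.Agent.Zagier.Cert

/-!
# Weight five over fields containing a square root of five
-/

open scoped TensorProduct

namespace Pool.Agent.Zagier

universe u

/-! ### the element of `ker δ₅` -/

section Alg

variable {K : Type u} [Field K]

/-- the element `27({ρ} - {-ρ}) - 4({ρ³} - {-ρ³})`, `ρ = 1/φ` -/
def y5L : List (ℤ × (ℤ × ℤ)) := [(27, (0, -1)), (-27, (1, -1)), (-4, (0, -3)), (4, (1, -3))]

/-- certificate -/
def y5C : List (ℤ × (ℤ × ℤ)) :=
  scaleL (-3) (famL K4 (1, 0) ⟨(0, 2), (0, 2), (1, 1), (1, 1)⟩) ++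
  (scaleL (-30) [(1, 0)] ++ (scaleL 18 [(1, (1, 0))] ++
  (scaleL 27 [(1, (1, 1)), ((-1) ^ 4, -(1, 1))] ++
  (scaleL (-36) [(1, (0, 1)), ((-1) ^ 4, -(0, 1))] ++
  (scaleL 12 [(1, (0, 3)), ((-1) ^ 4, -(0, 3))] ++
  scaleL (-12) [(1, (1, 3)), ((-1) ^ 4, -(1, 3))])))))

theorem y5C_same : sameL nfU y5C (scaleL 1 (contractL (fun g => g.2) y5L)) = true := by
  decide +kernel

theorem y5_rel (φ : Kˣ) (hφ : (φ : K) ^ 2 = φ + 1) :
    RS (evU φ) 4 (contractL (fun g => g.2) y5L) := by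
  have hm1 : val (evU φ) (1, 0) = -1 := by simp [val_evU]
  have hx : val (evU φ) (0, 2) + val (evU φ) (1, 1) = 1 := by
    rw [val_evU, val_evU]
    have : (φ : K) ^ (2 : ℤ) = φ + 1 := by rw [← hφ]; norm_cast
    rw [this]; simp
  have h1 := (RS.kummerFour hm1 ⟨(0, 2), (0, 2), (1, 1), (1, 1)⟩ hx hx).scale (-3)
  have h2 := (RS.one (ev := evU φ) (m := 4) (by norm_num) (by decide)).scale (-30)
  have h3 := (RS.negOne (ev := evU φ) (m := 4) (by norm_num) (by decide) hm1).scale 18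
  have h4 := (RS.inv (ev := evU φ) (m := 4) (by norm_num) (1, 1)).scale 27
  have h5 := (RS.inv (ev := evU φ) (m := 4) (by norm_num) (0, 1)).scale (-36)
  have h6 := (RS.inv (ev := evU φ) (m := 4) (by norm_num) (0, 3)).scale 12
  have h7 := (RS.inv (ev := evU φ) (m := 4) (by norm_num) (1, 3)).scale (-12)
  have h8 : RS (evU φ) 4 y5C :=
    h1.append (h2.append (h3.append (h4.append (h5.append (h6.append h7)))))
  exact RS.congr nfU (evU_nf φ) 1 one_ne_zero y5C_same h8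

theorem y5_ker (φ : Kˣ) (hφ : (φ : K) ^ 2 = φ + 1) :
    ∃ N : ℕ, 0 < N ∧ N • evL (evU φ) y5L ∈ kerDelta 5 K := by
  have h := y5_rel φ hφ
  have h2 : ∀ p ∈ y5L, nfU (2 • (p.2 - ∑ j : Unit, (fun (_ : Unit) (g : ℤ × ℤ) => g.2) j p.2 •
      (fun (_ : Unit) => ((0, 1) : ℤ × ℤ)) j)) = 0 := by
    simp [y5L, nfU]
  have h1 := exists_mem_kerDelta (G := ℤ × ℤ) (K := K) (ev := evU φ) (ι := Unit) (n := 5) (m := 4)
    rfl (by norm_num) nfU (evU_nf φ) (fun _ g => g.2) (fun _ => (0, 1)) 2 two_pos y5L h2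
  exact h1 (fun _ => h)

end Alg

/-! ### real values -/

section Real

theorem summable_Lr {m : ℕ} {x : ℝ} (hx : |x| < 1) :
    Summable fun k : ℕ => x ^ (k + 1) / ((k : ℝ) + 1) ^ m := by
  refine Summable.of_norm_bounded (g := fun k : ℕ => |x| ^ k) (summable_geometric_of_lt_one (abs_nonneg x) hx) ?_
  intro k
  rw [Real.norm_eq_abs, abs_div, abs_pow, pow_succ]
  have h1 : (1 : ℝ) ≤ |((k : ℝ) + 1) ^ m| := by
    rw [abs_of_nonneg (by positivity)]
    exact one_le_pow₀ (by linarith [(Nat.cast_nonneg k : (0 : ℝ) ≤ k)])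
  rw [div_le_iff₀ (by linarith)]
  have h2 : 0 ≤ |x| ^ k := by positivity
  nlinarith [mul_le_of_le_one_right h2 hx.le]

/-- `Li_m(x) - Li_m(-x)` -/
noncomputable def G (m : ℕ) (x : ℝ) : ℝ := Lr m x - Lr m (-x)

theorem G_eq {m : ℕ} {x : ℝ} (hx : |x| < 1) :
    G m x = ∑' k : ℕ, (x ^ (k + 1) - (-x) ^ (k + 1)) / ((k : ℝ) + 1) ^ m := by
  rw [G, Lr, Lr, ← (summable_Lr hx).tsum_sub (summable_Lr (by rwa [abs_neg]))]
  congr 1
  ext k
  rw [sub_div]

theorem summable_G {m : ℕ} {x : ℝ} (hx : |x| < 1) :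
    Summable fun k : ℕ => (x ^ (k + 1) - (-x) ^ (k + 1)) / ((k : ℝ) + 1) ^ m := by
  have := (summable_Lr (m := m) hx).sub (summable_Lr (m := m) (x := -x) (by rwa [abs_neg]))
  refine this.congr fun k => ?_
  rw [sub_div]

theorem term_nonneg {x : ℝ} (h0 : 0 ≤ x) (k : ℕ) : 0 ≤ x ^ (k + 1) - (-x) ^ (k + 1) := by
  rcases Nat.even_or_odd (k + 1) with h | h
  · rw [h.neg_pow, sub_self]
  · rw [h.neg_pow, sub_neg_eq_add]; positivity

theorem G_lower {m : ℕ} {x : ℝ} (h0 : 0 ≤ x) (hx : x < 1) : 2 * x ≤ G m x := by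
  have hx' : |x| < 1 := by rwa [abs_of_nonneg h0]
  rw [G_eq hx']
  have h := (summable_G (m := m) hx').sum_le_tsum {0} (fun k _ => div_nonneg (term_nonneg h0 k) (by positivity))
  simp only [Finset.sum_singleton] at h
  norm_num at h
  linarith

theorem G_upper {m : ℕ} {x : ℝ} (h0 : 0 ≤ x) (hx : x < 1) : G m x ≤ 2 * x / (1 - x ^ 2) := by
  have hx' : |x| < 1 := by rwa [abs_of_nonneg h0]
  rw [G_eq hx']
  have h1 : HasSum (fun k : ℕ => x ^ (k + 1) - (-x) ^ (k + 1)) (x / (1 - x) - (-x) / (1 - (-x))) := by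
    have h2 := (hasSum_geometric_of_abs_lt_one hx').mul_right x
    have h3 := (hasSum_geometric_of_abs_lt_one (r := -x) (by rwa [abs_neg])).mul_right (-x)
    have h4 : HasSum (fun k : ℕ => x ^ k * x - (-x) ^ k * (-x))
      ((1 - x)⁻¹ * x - (1 - -x)⁻¹ * -x) := h2.sub h3
    have e1 : (fun k : ℕ => x ^ (k + 1) - (-x) ^ (k + 1)) =
        fun k : ℕ => x ^ k * x - (-x) ^ k * (-x) := by ext k; ring
    rw [e1, div_eq_inv_mul, div_eq_inv_mul]
    exact h4
  have h2 : x / (1 - x) - (-x) / (1 - (-x)) = 2 * x / (1 - x ^ 2) := by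
    have h3 : 1 - x ≠ 0 := by linarith
    have h4 : 1 + x ≠ 0 := by linarith
    have h5 : 1 - x ^ 2 ≠ 0 := by
      have : 1 - x ^ 2 = (1 - x) * (1 + x) := by ring
      rw [this]; exact mul_ne_zero h3 h4
    have h6 : 1 - -x ≠ 0 := by simpa using h4
    rw [div_sub_div _ _ h3 h6, div_eq_div_iff (mul_ne_zero h3 h6) h5]
    ring
  rw [← h2, ← h1.tsum_eq]
  refine (summable_G (m := m) hx').tsum_le_tsum (fun k => ?_) h1.summable
  refine div_le_self (term_nonneg h0 k) ?_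
  exact one_le_pow₀ (by linarith [(Nat.cast_nonneg k : (0 : ℝ) ≤ k)])

theorem f5_sub (x : ℝ) : f5 x - f5 (-x) = G 5 x - Real.log |x| * G 4 x +
    Real.log |x| ^ 2 / 3 * G 3 x - Real.log |x| ^ 4 / 45 * G 1 x := by
  rw [f5, f5, abs_neg, G, G, G, G]
  ring

/-- The numerical inequality. -/
theorem main_pos {ρ : ℝ} (h0 : 0 < ρ) (hρ : ρ ^ 2 = 1 - ρ) :
    0 < 27 * (f5 ρ - f5 (-ρ)) - 4 * (f5 (ρ ^ 3) - f5 (-ρ ^ 3)) := by
  have h1 : ρ < 1 := by nlinarith
  have hlow : (0.618 : ℝ) < ρ := by nlinarith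
  have hupp : ρ < 0.619 := by nlinarith
  have h3 : ρ ^ 3 = 2 * ρ - 1 := by
    have : ρ ^ 3 = ρ * ρ ^ 2 := by ring
    rw [this, hρ]; nlinarith
  have h30 : 0 < ρ ^ 3 := by positivity
  have h31 : ρ ^ 3 < 1 := by rw [h3]; linarith
  have hlog : Real.log ρ < 0 := Real.log_neg h0 h1
  have hlog2 : -Real.log ρ ≤ 0.619 := by
    have h4 := Real.log_le_sub_one_of_pos (inv_pos.2 h0)
    rw [Real.log_inv] at h4
    have h5 : ρ⁻¹ = 1 + ρ := by
      field_simp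
      nlinarith
    rw [h5] at h4
    linarith
  set l := -Real.log ρ with hl
  have hl0 : 0 < l := by linarith
  have e1 : Real.log |ρ| = -l := by rw [abs_of_pos h0, hl]; ring
  have e3 : Real.log |ρ ^ 3| = -(3 * l) := by
    rw [abs_of_pos h30, Real.log_pow, hl]; push_cast; ring
  have hA := f5_sub ρ
  have hB := f5_sub (ρ ^ 3)
  rw [e1] at hA
  rw [e3] at hB
  have a5 := G_lower (m := 5) h0.le h1
  have a4 := G_lower (m := 4) h0.le h1
  have a3 := G_lower (m := 3) h0.le h1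
  have a1 := G_upper (m := 1) h0.le h1
  have b5 := G_upper (m := 5) h30.le h31
  have b4 := G_upper (m := 4) h30.le h31
  have b3 := G_upper (m := 3) h30.le h31
  have b1 := G_lower (m := 1) h30.le h31
  have u1 : 2 * ρ / (1 - ρ ^ 2) = 2 := by
    rw [hρ, sub_sub_cancel]; field_simp
  have u3 : 2 * ρ ^ 3 / (1 - (ρ ^ 3) ^ 2) = 1 / 2 := by
    rw [h3]
    have : 1 - (2 * ρ - 1) ^ 2 = 4 * (2 * ρ - 1) := by nlinarith
    rw [this]
    have h6 : 2 * ρ - 1 ≠ 0 := by linarith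
    field_simp
    norm_num
  rw [u1] at a1
  rw [u3] at b5 b4 b3
  have c1 : l ^ 2 ≤ 0.384 := by nlinarith
  have c2 : l ^ 4 ≤ 0.148 := by
    have : l ^ 4 = l ^ 2 * l ^ 2 := by ring
    rw [this]; nlinarith [sq_nonneg l]
  have hA' : 1.22 ≤ f5 ρ - f5 (-ρ) := by
    rw [hA]
    have t1 : 0 ≤ l * G 4 ρ := mul_nonneg hl0.le (by linarith)
    have t2 : 0 ≤ l ^ 2 / 3 * G 3 ρ := mul_nonneg (by positivity) (by linarith)
    have t3 : l ^ 4 / 45 * G 1 ρ ≤ 0.148 / 45 * 2 := by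
      refine mul_le_mul (by linarith) a1 ?_ (by norm_num)
      have := G_lower (m := 1) h0.le h1
      linarith
    have e4 : (-l) ^ 4 = l ^ 4 := by ring
    have e2 : (-l) ^ 2 = l ^ 2 := by ring
    rw [e4, e2]
    linarith
  have hB' : f5 (ρ ^ 3) - f5 (-ρ ^ 3) ≤ 2.1 := by
    rw [hB]
    have t1 : 3 * l * G 4 (ρ ^ 3) ≤ 3 * 0.619 * (1 / 2) := by
      refine mul_le_mul (by linarith) b4 ?_ (by norm_num)
      have := G_lower (m := 4) h30.le h31
      linarith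
    have t2 : (3 * l) ^ 2 / 3 * G 3 (ρ ^ 3) ≤ 3 * 0.384 * (1 / 2) := by
      refine mul_le_mul (by nlinarith) b3 ?_ (by norm_num)
      have := G_lower (m := 3) h30.le h31
      linarith
    have t3 : 0 ≤ (3 * l) ^ 4 / 45 * G 1 (ρ ^ 3) := mul_nonneg (by positivity) (by linarith)
    have e4 : (-(3 * l)) ^ 4 = (3 * l) ^ 4 := by ring
    have e2 : (-(3 * l)) ^ 2 = (3 * l) ^ 2 := by ring
    rw [e4, e2]
    linarith
  linarith

end Real

/-! ### the two places -/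

section Places

open NumberField

/-- reg of the element at an embedding sending the square root of five to `√5 > 0`. -/
theorem reg_y5 {F : Type u} [Field F] (σ : F →+* ℂ) (φ : Fˣ) (r : ℝ)
    (hσ : σ (φ : F) = (r : ℂ)) : reg 5 σ (evL (evU φ) y5L) =
      27 * calL 5 (((r⁻¹ : ℝ) : ℂ) : OnePoint ℂ) - 27 * calL 5 (((-r⁻¹ : ℝ) : ℂ) : OnePoint ℂ) -
      4 * calL 5 ((((r ^ 3)⁻¹ : ℝ) : ℂ) : OnePoint ℂ) +
      4 * calL 5 (((-(r ^ 3)⁻¹ : ℝ) : ℂ) : OnePoint ℂ) := by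
  simp only [y5L, evL_cons, evL_nil, map_add, map_zsmul, reg_br, val_evU, map_zero]
  simp only [map_mul, map_neg, map_one, map_zpow₀, hσ]
  simp only [zpow_zero, one_mul, zpow_one, neg_one_mul, zpow_neg, zsmul_eq_mul]
  push_cast
  simp only [show ((r : ℂ) ^ (3 : ℤ)) = (r : ℂ) ^ (3 : ℕ) from zpow_natCast _ 3]
  ring

theorem calL_real {r : ℝ} (h : |r| < 1) : calL 5 ((r : ℂ) : OnePoint ℂ) = f5 r := by
  rw [calL_of_le (by rw [Complex.norm_real]; exact h.le), calLdisc_five_ofReal]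

theorem calL_real_inv {r : ℝ} (h : |r| < 1) (h0 : r ≠ 0) :
    calL 5 (((r⁻¹ : ℝ) : ℂ) : OnePoint ℂ) = f5 r := by
  have := calL_inv (n := 5) (z := (r : ℂ)) (by rw [Complex.norm_real]; exact h)
    (by exact_mod_cast h0)
  rw [Complex.ofReal_inv, this, calLdisc_five_ofReal]
  norm_num

/-- The value at the place where `φ` is the golden ratio. -/
theorem reg_y5_pos {F : Type u} [Field F] (σ : F →+* ℂ) (φ : Fˣ) (ρ : ℝ) (h0 : 0 < ρ)
    (hρ : ρ ^ 2 = 1 - ρ) (hσ : σ (φ : F) = ((ρ⁻¹ : ℝ) : ℂ)) :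
    reg 5 σ (evL (evU φ) y5L) =
      27 * (f5 ρ - f5 (-ρ)) - 4 * (f5 (ρ ^ 3) - f5 (-ρ ^ 3)) := by
  have h1 : ρ < 1 := by nlinarith
  have h3 : ρ ^ 3 < 1 := pow_lt_one₀ h0.le h1 (by norm_num)
  have h30 : 0 < ρ ^ 3 := by positivity
  rw [reg_y5 σ φ _ hσ]
  rw [inv_inv, inv_pow, inv_inv, calL_real (r := ρ) (by rwa [abs_of_pos h0]),
    calL_real (r := -ρ) (by rwa [abs_neg, abs_of_pos h0]),
    calL_real (r := ρ ^ 3) (by rwa [abs_of_pos h30]),
    calL_real (r := -ρ ^ 3) (by rwa [abs_neg, abs_of_pos h30])]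
  ring

/-- The value at the place where `φ` is the conjugate `-ρ` of the golden ratio. -/
theorem reg_y5_neg {F : Type u} [Field F] (σ : F →+* ℂ) (φ : Fˣ) (ρ : ℝ) (h0 : 0 < ρ)
    (hρ : ρ ^ 2 = 1 - ρ) (hσ : σ (φ : F) = ((-ρ : ℝ) : ℂ)) :
    reg 5 σ (evL (evU φ) y5L) =
      -(27 * (f5 ρ - f5 (-ρ)) - 4 * (f5 (ρ ^ 3) - f5 (-ρ ^ 3))) := by
  have h1 : ρ < 1 := by nlinarith
  have h3 : ρ ^ 3 < 1 := pow_lt_one₀ h0.le h1 (by norm_num)
  have h30 : 0 < ρ ^ 3 := by positivity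
  rw [reg_y5 σ φ _ hσ]
  have e1 : -(-ρ)⁻¹ = ρ⁻¹ := by rw [inv_neg, neg_neg]
  have e2 : (-ρ) ^ 3 = -ρ ^ 3 := by ring
  have e3 : -(-ρ ^ 3)⁻¹ = (ρ ^ 3)⁻¹ := by rw [inv_neg, neg_neg]
  rw [e1, e2, e3, calL_real_inv (r := -ρ) (by rwa [abs_neg, abs_of_pos h0]) (by linarith),
    calL_real_inv (r := ρ) (by rwa [abs_of_pos h0]) h0.ne',
    calL_real_inv (r := -ρ ^ 3) (by rwa [abs_neg, abs_of_pos h30]) (by linarith),
    calL_real_inv (r := ρ ^ 3) (by rwa [abs_of_pos h30]) h30.ne']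
  ring

theorem minpoly_sqrt_five {F : Type u} [Field F] [NumberField F] (s : F) (hs : s ^ 2 = 5) :
    minpoly ℚ s = Polynomial.X ^ 2 - Polynomial.C 5 := by
  have hdeg : (Polynomial.X ^ 2 - Polynomial.C (5 : ℚ)).natDegree = 2 := by compute_degree!
  have hirr : Irreducible (Polynomial.X ^ 2 - Polynomial.C (5 : ℚ)) := by
    rw [Polynomial.irreducible_iff_roots_eq_zero_of_degree_le_three (by rw [hdeg])
      (by rw [hdeg]; norm_num)]
    · rw [Multiset.eq_zero_iff_forall_notMem]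
      intro a ha
      rw [Polynomial.mem_roots', Polynomial.IsRoot] at ha
      have h1 : a ^ 2 = 5 := by
        have := ha.2
        simp at this
        linarith
      have h2 : Irrational (Real.sqrt 5) := by
        have := (Nat.Prime.irrational_sqrt (show Nat.Prime 5 by norm_num))
        simpa using this
      apply h2
      refine ⟨|a|, ?_⟩
      have h3 : ((|a| : ℚ) : ℝ) ^ 2 = 5 := by
        have : (|a|) ^ 2 = 5 := by rw [sq_abs, h1]
        exact_mod_cast this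
      rw [← h3, Real.sqrt_sq (by positivity)]
  refine (minpoly.eq_of_irreducible_of_monic hirr ?_ ?_).symm
  · simp [hs]
  · monicity!

theorem exists_embedding {F : Type u} [Field F] [NumberField F] (s : F) (hs : s ^ 2 = 5)
    (t : ℂ) (ht : t ^ 2 = 5) : ∃ σ : F →+* ℂ, σ s = t := by
  have h := NumberField.Embeddings.range_eval_eq_rootSet_minpoly F ℂ s
  have h1 : t ∈ (minpoly ℚ s).rootSet ℂ := by
    rw [minpoly_sqrt_five s hs, Polynomial.mem_rootSet]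
    refine ⟨?_, ?_⟩
    · rw [← minpoly_sqrt_five s hs]
      exact minpoly.ne_zero (Algebra.IsIntegral.isIntegral s)
    · simp [ht]
  rw [← h] at h1
  obtain ⟨σ, hσ⟩ := h1
  exact ⟨σ, hσ⟩

theorem exists_place {F : Type u} [Field F] [NumberField F] (s : F) (hs : s ^ 2 = 5)
    (t : ℝ) (ht : t ^ 2 = 5) : ∃ v : InfinitePlace F, v.embedding s = (t : ℂ) := by
  obtain ⟨σ, hσ⟩ := exists_embedding s hs (t : ℂ) (by exact_mod_cast ht)
  refine ⟨InfinitePlace.mk σ, ?_⟩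
  rcases InfinitePlace.embedding_mk_eq σ with h | h
  · rw [h, hσ]
  · rw [h, ComplexEmbedding.conjugate_coe_eq, hσ, Complex.conj_ofReal]

theorem weight_five_sqrt_five (F : Type u) [Field F] [NumberField F]
    (h2 : Fintype.card (InfinitePlace F) = 2) (h5 : ∃ s : F, s ^ 2 = 5) :
    RegulatorNonvanishing 5 F := by
  obtain ⟨s, hs⟩ := h5
  have hs0 : s ≠ 0 := by rintro rfl; norm_num at hs
  set ρ : ℝ := (Real.sqrt 5 - 1) / 2 with hρ
  have h50 : Real.sqrt 5 ^ 2 = 5 := Real.sq_sqrt (by norm_num)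
  have h51 : 2 < Real.sqrt 5 := by
    rw [show (2 : ℝ) = Real.sqrt 4 from by
      rw [show (4 : ℝ) = 2 ^ 2 by norm_num, Real.sqrt_sq (by norm_num)]]
    exact Real.sqrt_lt_sqrt (by norm_num) (by norm_num)
  have hρ0 : 0 < ρ := by rw [hρ]; linarith
  have hρ2 : ρ ^ 2 = 1 - ρ := by rw [hρ]; nlinarith
  have hφ0 : (1 + s) / 2 ≠ 0 := by
    intro h
    have h1 : s = -1 := by
      have : 1 + s = 0 := by simpa using h
      linear_combination this
    rw [h1] at hs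
    norm_num at hs
  set φ : Fˣ := Units.mk0 ((1 + s) / 2) hφ0 with hφ
  have hφ2 : (φ : F) ^ 2 = φ + 1 := by
    rw [hφ, Units.val_mk0]
    linear_combination (1 / 4 : F) * hs
  obtain ⟨N, hN, hker⟩ := y5_ker φ hφ2
  obtain ⟨v, hv⟩ := exists_place s hs (Real.sqrt 5) h50
  obtain ⟨w, hw⟩ := exists_place s hs (-Real.sqrt 5) (by rw [neg_sq, h50])
  have hvw : v ≠ w := by
    rintro rfl
    rw [hv] at hw
    have : Real.sqrt 5 = -Real.sqrt 5 := by exact_mod_cast hw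
    linarith
  have hφv : v.embedding (φ : F) = ((ρ⁻¹ : ℝ) : ℂ) := by
    have e1 : ρ⁻¹ = (1 + Real.sqrt 5) / 2 := by
      rw [inv_eq_iff_eq_inv, hρ]
      field_simp
      nlinarith
    rw [e1, hφ, Units.val_mk0, map_div₀, map_add, map_one, hv]
    push_cast
    rw [map_ofNat]
  have hφw : w.embedding (φ : F) = ((-ρ : ℝ) : ℂ) := by
    rw [hφ, Units.val_mk0, map_div₀, map_add, map_one, hw, hρ]
    push_cast
    rw [map_ofNat]
    ring
  have hpos := main_pos hρ0 hρ2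
  set A := 27 * (f5 ρ - f5 (-ρ)) - 4 * (f5 (ρ ^ 3) - f5 (-ρ ^ 3)) with hA
  have hregv := reg_y5_pos v.embedding φ ρ hρ0 hρ2 hφv
  have hregw := reg_y5_neg w.embedding φ ρ hρ0 hρ2 hφw
  have h1ker : (br (1 : F)) ∈ kerDelta 5 F := by
    rw [mem_kerDelta_iff]
    have := deltaOf_br (Rel 4 F) (1 : Fˣ)
    simpa using this
  refine regulator_of_two (by decide) h2 v w hvw (br 1) (N • evL (evU φ) y5L) h1ker hker ?_
  rw [map_nsmul, map_nsmul, hregv, hregw, reg_br, reg_br, map_one, map_one,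
    calL_one 5 (by decide)]
  have hz := Lr_one_pos 5 (by norm_num)
  have hN' : (0 : ℝ) < N := by exact_mod_cast hN
  rw [nsmul_eq_mul, nsmul_eq_mul]
  have : Lr 5 1 * (N * -A) - Lr 5 1 * (N * A) = -(2 * (Lr 5 1 * (N * A))) := by ring
  rw [this]
  have : 0 < Lr 5 1 * (N * A) := by positivity
  linarith

end Places

end Pool.Agent.Zagier
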