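import Pool.Agent.Zagier.Core

/-!
# The symbol criterion: families of functions whose symbol vanishes
-/

open scoped TensorProduct

namespace Pool.Agent.Zagier

universe u

section Wedge

variable {A : Type u} [AddCommGroup A]

/-- The wedge product `a ∧ b ∈ Λ²(A)`, as a biadditive map. -/
noncomputable def W : A →+ A →+ ExtSq A :=
  AddMonoidHom.mk' (fun a => AddMonoidHom.mk' (fun b => wedge a b)
    (by
      intro b c
      simp only [wedge, TensorProduct.tmul_add]
      rfl))
    (by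
      intro a b
      ext c
      simp only [AddMonoidHom.mk'_apply, AddMonoidHom.add_apply]
      simp only [wedge, TensorProduct.add_tmul]
      rfl)

theorem W_apply (a b : A) : W a b = wedge a b := rfl

theorem W_self (a : A) : W a a = 0 := by
  rw [W_apply, wedge]
  exact (QuotientAddGroup.eq_zero_iff _).2 (AddSubgroup.subset_closure ⟨a, rfl⟩)

theorem W_add_swap (a b : A) : W a b + W b a = 0 := by
  have h := W_self (a + b)
  simp only [map_add, AddMonoidHom.add_apply, W_self, zero_add, add_zero] at h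
  rw [add_comm]
  exact h

theorem W_sum_sum {ι κ : Type*} [Fintype ι] [Fintype κ] (a : ι → ℤ) (g : ι → A) (b : κ → ℤ)
    (h : κ → A) : W (∑ i, a i • g i) (∑ j, b j • h j) = ∑ i, ∑ j, (a i * b j) • W (g i) (h j) := by
  have h1 : W (∑ i, a i • g i) = ∑ i, a i • W (g i) := by
    rw [map_sum]
    exact Finset.sum_congr rfl fun i _ => map_zsmul W (a i) (g i)
  rw [h1, AddMonoidHom.finsetSum_apply]
  refine Finset.sum_congr rfl fun i _ => ?_
  rw [AddMonoidHom.zsmul_apply, map_sum, Finset.smul_sum]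
  refine Finset.sum_congr rfl fun j _ => ?_
  rw [map_zsmul, smul_smul]

theorem W_tor_left {a : A} (b : A) (h : IsTor a) : IsTor (W a b) :=
  IsTor.map (AddMonoidHom.flip W b) h

theorem W_tor_right (a : A) {b : A} (h : IsTor b) : IsTor (W a b) :=
  IsTor.map (W a) h

end Wedge

theorem tmul_zsmul' {A B : Type*} [AddCommGroup A] [AddCommGroup B] (a : A) (n : ℤ) (b : B) :
    a ⊗ₜ[ℤ] (n • b) = n • (a ⊗ₜ[ℤ] b) :=
  map_zsmul (TensorProduct.mk ℤ A B a).toAddMonoidHom n b

theorem zsmul_tmul' {A B : Type*} [AddCommGroup A] [AddCommGroup B] (a : A) (n : ℤ) (b : B) :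
    (n • a) ⊗ₜ[ℤ] b = n • (a ⊗ₜ[ℤ] b) :=
  map_zsmul ((TensorProduct.mk ℤ A B).flip b).toAddMonoidHom n a

section Delta

variable {F : Type u} [Field F]

theorem deltaOf_br (R : AddSubgroup (ZP1 F)) (x : Fˣ) :
    deltaOf R (br (x : F)) =
      (QuotientAddGroup.mk (br (x : F)) : ZP1 F ⧸ R) ⊗ₜ[ℤ] Additive.ofMul x := by
  classical
  rw [deltaOf, extend_br]
  change (if h : (x : F) ≠ 0 ∧ 1 - (x : F) ≠ 0 then
      (QuotientAddGroup.mk (br (x : F)) : ZP1 F ⧸ R) ⊗ₜ[ℤ] toMulGp (x : F) h.1
    else 0) = _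
  split_ifs with h
  · simp [toMulGp]
  · have h1 : (x : F) = 1 := by
      by_contra hne
      exact h ⟨x.ne_zero, sub_ne_zero.2 (Ne.symm hne)⟩
    have h2 : x = 1 := Units.ext (by simpa using h1)
    subst h2
    simp

theorem delta2_br (x y : Fˣ) (h : (y : F) = 1 - x) :
    delta2 F (br (x : F)) = W (Additive.ofMul y) (Additive.ofMul x) := by
  classical
  rw [delta2, extend_br, W_apply]
  have h1 : (x : F) ≠ 0 ∧ 1 - (x : F) ≠ 0 := ⟨x.ne_zero, by rw [← h]; exact y.ne_zero⟩
  change (if h : (x : F) ≠ 0 ∧ 1 - (x : F) ≠ 0 then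
      wedge (toMulGp (1 - (x : F)) h.2) (toMulGp (x : F) h.1)
    else 0) = _
  rw [dif_pos h1]
  have h2 : Units.mk0 (1 - (x : F)) h1.2 = y := Units.ext (by simp [h])
  rw [toMulGp, toMulGp, h2]
  simp

end Delta

/-- One term `c · {f}` of a family of functions in the variables `x, y`:
`f = ± x^{e₀} y^{e₁} (1-x)^{e₂} (1-y)^{e₃}` and
`1 - f = ± x^{w₀} y^{w₁} (1-x)^{w₂} (1-y)^{w₃} ∏ ℓ_k^{z_k}` for extra letters `ℓ_k`. -/
structure Term (q : ℕ) where
  /-- coefficient -/
  c : ℤ
  /-- sign of `f` (`true` is `+`) -/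
  s : Bool
  /-- exponents of `f` -/
  e : Fin 4 → ℤ
  /-- sign of `1 - f` -/
  s' : Bool
  /-- exponents of `1 - f` on the basic letters -/
  w : Fin 4 → ℤ
  /-- exponents of `1 - f` on the extra letters -/
  z : Fin q → ℤ

/-- sign of a Boolean -/
def sg (K : Type u) [Field K] (b : Bool) : K := if b then 1 else -1

section TermDefs

variable {q : ℕ} {K : Type u} [Field K]

theorem sg_ne (b : Bool) : sg K b ≠ 0 := by cases b <;> simp [sg]

/-- the basic letters `x, y, 1-x, 1-y` -/
def base (x y : K) : Fin 4 → K := ![x, y, 1 - x, 1 - y]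

theorem base_ne {x y : K} (hx : x ≠ 0) (hx1 : x ≠ 1) (hy : y ≠ 0) (hy1 : y ≠ 1) (i : Fin 4) :
    base x y i ≠ 0 := by
  fin_cases i
  · exact hx
  · exact hy
  · exact sub_ne_zero.2 (Ne.symm hx1)
  · exact sub_ne_zero.2 (Ne.symm hy1)

/-- the value of the function `f` of the term `t` at `(x, y)` -/
def Term.arg (t : Term q) (x y : K) : K := sg K t.s * ∏ i, base x y i ^ t.e i

theorem Term.arg_ne (t : Term q) {x y : K} (hx : x ≠ 0) (hx1 : x ≠ 1) (hy : y ≠ 0)
    (hy1 : y ≠ 1) : t.arg x y ≠ 0 :=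
  mul_ne_zero (sg_ne _) (Finset.prod_ne_zero_iff.2 fun i _ => zpow_ne_zero _ (base_ne hx hx1 hy hy1 i))

/-- coefficient of the term after contracting with the letters in `φ` -/
def Term.co (t : Term q) (φ : List (Fin 4)) : ℤ := t.c * (φ.map t.e).prod

theorem Term.co_cons (t : Term q) (i : Fin 4) (φ : List (Fin 4)) :
    t.co (i :: φ) = t.co φ * t.e i := by
  simp [Term.co]; ring

/-- the constant term at `x = y = 0` -/
def kap (T : List (Term q)) (φ : List (Fin 4)) : ℤ :=
  (T.map fun t => if t.e 0 = 0 ∧ t.e 1 = 0 then t.co φ else 0).sum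

/-- `∑ c_t(φ) {f_t(x,y)}` -/
noncomputable def fam (T : List (Term q)) (φ : List (Fin 4)) (x y : K) : ZP1 K :=
  (T.map fun t => t.co φ • br (t.arg x y)).sum

end TermDefs

/-- the symbol of the family vanishes -/
def SymbolVanishes {q : ℕ} (T : List (Term q)) (d : ℕ) : Prop :=
  ∀ φ : List (Fin 4), φ.length = d →
    (∀ i j : Fin 4, (T.map fun t => t.co φ * (t.w i * t.e j)).sum =
      (T.map fun t => t.co φ * (t.w j * t.e i)).sum) ∧
    ∀ (k : Fin q) (j : Fin 4), (T.map fun t => t.co φ * (t.z k * t.e j)).sum = 0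

section Sums

variable {M : Type*} [AddCommGroup M]

theorem list_sum_smul {α : Type*} (l : List α) (f : α → ℤ) (m : M) :
    (l.map fun a => f a • m).sum = (l.map f).sum • m := by
  induction l with
  | nil => simp
  | cons a l ih => simp [ih, add_smul]

theorem list_sum_add {α : Type*} (l : List α) (f g : α → M) :
    (l.map fun a => f a + g a).sum = (l.map f).sum + (l.map g).sum := by
  induction l with
  | nil => simp
  | cons a l ih => simp [ih]; abel

theorem list_sum_finset {α ι : Type*} (l : List α) (s : Finset ι) (f : α → ι → M) :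
    (l.map fun a => ∑ i ∈ s, f a i).sum = ∑ i ∈ s, (l.map fun a => f a i).sum := by
  induction l with
  | nil => simp
  | cons a l ih => simp [ih, Finset.sum_add_distrib]

theorem map_list_sum' {M' : Type*} [AddCommGroup M'] (g : M →+ M') {α : Type*} (l : List α)
    (f : α → M) : g (l.map f).sum = (l.map fun a => g (f a)).sum := by
  rw [map_list_sum, List.map_map]; rfl

end Sums

section Torsion

variable {q : ℕ} {F : Type u} [Field F]

theorem ofMul_sg_tor (s : Bool) : IsTor (Additive.ofMul (Units.mk0 (sg F s) (sg_ne s))) := by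
  refine ⟨2, by norm_num, ?_⟩
  rw [← ofMul_pow]
  have : Units.mk0 (sg F s) (sg_ne s) ^ 2 = 1 := by
    ext; cases s <;> simp [sg]
  rw [this]; rfl

/-- expansion of a monomial in additive notation -/
theorem ofMul_expand {ι : Type*} [Fintype ι] (g : ι → F) (hg : ∀ i, g i ≠ 0) (e : ι → ℤ)
    (s : Bool) (f : F) (hf : f ≠ 0) (h : f = sg F s * ∏ i, g i ^ e i) :
    Additive.ofMul (Units.mk0 f hf) =
      Additive.ofMul (Units.mk0 (sg F s) (sg_ne s)) +
        ∑ i, e i • Additive.ofMul (Units.mk0 (g i) (hg i)) := by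
  have h1 : Units.mk0 f hf = Units.mk0 (sg F s) (sg_ne s) * ∏ i, Units.mk0 (g i) (hg i) ^ e i := by
    ext
    simp only [Units.val_mk0, Units.val_mul, Units.coe_prod, Units.val_zpow_eq_zpow_val]
    exact h
  rw [h1, ofMul_mul, ofMul_prod]
  simp only [ofMul_zpow]

/-- The inductive step: contracted relations in `𝓑_{m}` imply that `δ_{m+1}` is torsion. -/
theorem step_tor (R : AddSubgroup (ZP1 F)) (T : List (Term q)) (φ : List (Fin 4)) (x y : F)
    (hx : x ≠ 0) (hx1 : x ≠ 1) (hy : y ≠ 0) (hy1 : y ≠ 1)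
    (h : ∀ i : Fin 4, InSat R (fam T (i :: φ) x y)) :
    IsTor (deltaOf R (fam T φ x y)) := by
  have hb := base_ne hx hx1 hy hy1
  have key : ∀ t : Term q, deltaOf R (t.co φ • br (t.arg x y)) =
      t.co φ • ((QuotientAddGroup.mk (br (t.arg x y)) : ZP1 F ⧸ R) ⊗ₜ[ℤ]
        Additive.ofMul (Units.mk0 (sg F t.s) (sg_ne t.s))) +
      ∑ i, (QuotientAddGroup.mk (t.co (i :: φ) • br (t.arg x y)) : ZP1 F ⧸ R) ⊗ₜ[ℤ]
        Additive.ofMul (Units.mk0 (base x y i) (hb i)) := by
    intro t
    have ha := t.arg_ne hx hx1 hy hy1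
    have h1 := deltaOf_br R (Units.mk0 (t.arg x y) ha)
    rw [Units.val_mk0] at h1
    rw [map_zsmul, h1, ofMul_expand (base x y) hb t.e t.s (t.arg x y) ha rfl,
      TensorProduct.tmul_add, smul_add, TensorProduct.tmul_sum, Finset.smul_sum]
    congr 1
    refine Finset.sum_congr rfl fun i _ => ?_
    rw [Term.co_cons, tmul_zsmul', smul_smul, QuotientAddGroup.mk_zsmul, zsmul_tmul']
  rw [fam, map_list_sum']
  simp only [key]
  rw [list_sum_add, list_sum_finset]
  refine IsTor.add (IsTor.list_sum ?_) (IsTor.sum _ _ fun i _ => ?_)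
  · intro z hz
    obtain ⟨t, _, rfl⟩ := List.mem_map.1 hz
    exact ((ofMul_sg_tor t.s).tmul_right _).zsmul _
  · have h2 : (T.map fun t => (QuotientAddGroup.mk (t.co (i :: φ) • br (t.arg x y)) : ZP1 F ⧸ R)
        ⊗ₜ[ℤ] Additive.ofMul (Units.mk0 (base x y i) (hb i))).sum =
        (QuotientAddGroup.mk (fam T (i :: φ) x y) : ZP1 F ⧸ R) ⊗ₜ[ℤ]
          Additive.ofMul (Units.mk0 (base x y i) (hb i)) := by
      rw [fam]
      generalize Additive.ofMul (Units.mk0 (base x y i) (hb i)) = b
      clear key h hb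
      induction T with
      | nil => simp
      | cons t T ih =>
        rw [List.map_cons, List.sum_cons, ih, List.map_cons, List.sum_cons,
          QuotientAddGroup.mk_add, TensorProduct.add_tmul]
    rw [h2]
    exact (h i).isTor_mk.tmul_left _

/-- The base case: a family whose symbol vanishes has torsion `δ₂`. -/
theorem base_tor (T : List (Term q)) (φ : List (Fin 4)) (x y : F)
    (hx : x ≠ 0) (hx1 : x ≠ 1) (hy : y ≠ 0) (hy1 : y ≠ 1) (ℓ : Fin q → F) (hℓ : ∀ k, ℓ k ≠ 0)
    (hT : ∀ t ∈ T, 1 - t.arg x y =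
      sg F t.s' * ((∏ i, base x y i ^ t.w i) * ∏ k, ℓ k ^ t.z k))
    (hS : (∀ i j : Fin 4, (T.map fun t => t.co φ * (t.w i * t.e j)).sum =
      (T.map fun t => t.co φ * (t.w j * t.e i)).sum) ∧
      ∀ (k : Fin q) (j : Fin 4), (T.map fun t => t.co φ * (t.z k * t.e j)).sum = 0) :
    IsTor (delta2 F (fam T φ x y)) := by
  have hb := base_ne hx hx1 hy hy1
  set G : Fin 4 → Additive Fˣ := fun i => Additive.ofMul (Units.mk0 (base x y i) (hb i)) with hG
  set H : Fin q → Additive Fˣ := fun k => Additive.ofMul (Units.mk0 (ℓ k) (hℓ k)) with hH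
  set S : Bool → Additive Fˣ := fun s => Additive.ofMul (Units.mk0 (sg F s) (sg_ne s)) with hSdef
  have hStor : ∀ s, IsTor (S s) := ofMul_sg_tor
  have key : ∀ t ∈ T, delta2 F (t.co φ • br (t.arg x y)) =
      t.co φ • (W (S t.s') (S t.s + ∑ i, t.e i • G i) +
        W (∑ i, t.w i • G i + ∑ k, t.z k • H k) (S t.s)) +
      (∑ i, ∑ j, (t.co φ * (t.w i * t.e j)) • W (G i) (G j) +
        ∑ k, ∑ j, (t.co φ * (t.z k * t.e j)) • W (H k) (G j)) := by
    intro t ht
    have ha := t.arg_ne hx hx1 hy hy1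
    have hb' : 1 - t.arg x y ≠ 0 := by
      rw [hT t ht]
      exact mul_ne_zero (sg_ne _) (mul_ne_zero
        (Finset.prod_ne_zero_iff.2 fun i _ => zpow_ne_zero _ (hb i))
        (Finset.prod_ne_zero_iff.2 fun i _ => zpow_ne_zero _ (hℓ i)))
    have h1 := delta2_br (Units.mk0 (t.arg x y) ha) (Units.mk0 (1 - t.arg x y) hb') (by simp)
    rw [Units.val_mk0] at h1
    have hexp : Additive.ofMul (Units.mk0 (t.arg x y) ha) = S t.s + ∑ i, t.e i • G i :=
      ofMul_expand (base x y) hb t.e t.s (t.arg x y) ha rfl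
    have hexp' : Additive.ofMul (Units.mk0 (1 - t.arg x y) hb') =
        S t.s' + (∑ i, t.w i • G i + ∑ k, t.z k • H k) := by
      have h2 : Units.mk0 (1 - t.arg x y) hb' = Units.mk0 (sg F t.s') (sg_ne t.s') *
          ((∏ i, Units.mk0 (base x y i) (hb i) ^ t.w i) *
            ∏ k, Units.mk0 (ℓ k) (hℓ k) ^ t.z k) := by
        ext
        simp only [Units.val_mk0, Units.val_mul, Units.coe_prod, Units.val_zpow_eq_zpow_val]
        exact hT t ht
      rw [h2, ofMul_mul, ofMul_mul, ofMul_prod, ofMul_prod]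
      simp only [ofMul_zpow, hSdef, hG, hH]
    rw [map_zsmul, h1, hexp, hexp']
    have h3 : W (S t.s' + (∑ i, t.w i • G i + ∑ k, t.z k • H k)) (S t.s + ∑ i, t.e i • G i) =
        (W (S t.s') (S t.s + ∑ i, t.e i • G i) +
        W (∑ i, t.w i • G i + ∑ k, t.z k • H k) (S t.s)) +
        (∑ i, ∑ j, (t.w i * t.e j) • W (G i) (G j) +
          ∑ k, ∑ j, (t.z k * t.e j) • W (H k) (G j)) := by
      rw [← W_sum_sum t.w G t.e G, ← W_sum_sum t.z H t.e G]
      simp only [map_add, AddMonoidHom.add_apply]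
      abel
    rw [h3, smul_add, smul_add (t.co φ)
      (∑ i, ∑ j, (t.w i * t.e j) • W (G i) (G j))]
    refine congrArg₂ (· + ·) rfl (congrArg₂ (· + ·) ?_ ?_)
    · rw [Finset.smul_sum]
      refine Finset.sum_congr rfl fun i _ => ?_
      rw [Finset.smul_sum]
      refine Finset.sum_congr rfl fun j _ => ?_
      rw [smul_smul]
    · rw [Finset.smul_sum]
      refine Finset.sum_congr rfl fun i _ => ?_
      rw [Finset.smul_sum]
      refine Finset.sum_congr rfl fun j _ => ?_
      rw [smul_smul]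
  have hsum : delta2 F (fam T φ x y) =
      (T.map fun t => t.co φ • (W (S t.s') (S t.s + ∑ i, t.e i • G i) +
        W (∑ i, t.w i • G i + ∑ k, t.z k • H k) (S t.s))).sum +
      (∑ i, ∑ j, (T.map fun t => t.co φ * (t.w i * t.e j)).sum • W (G i) (G j) +
        ∑ k, ∑ j, (T.map fun t => t.co φ * (t.z k * t.e j)).sum • W (H k) (G j)) := by
    rw [fam, map_list_sum', List.map_congr_left key, list_sum_add, list_sum_add,
      list_sum_finset, list_sum_finset]
    congr 2
    · refine Finset.sum_congr rfl fun i _ => ?_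
      rw [list_sum_finset]
      refine Finset.sum_congr rfl fun j _ => ?_
      rw [list_sum_smul]
    · refine Finset.sum_congr rfl fun i _ => ?_
      rw [list_sum_finset]
      refine Finset.sum_congr rfl fun j _ => ?_
      rw [list_sum_smul]
  rw [hsum]
  refine IsTor.add (IsTor.list_sum ?_) (IsTor.add ?_ ?_)
  · intro z hz
    obtain ⟨t, _, rfl⟩ := List.mem_map.1 hz
    exact IsTor.zsmul _ ((W_tor_left _ (hStor _)).add (W_tor_right _ (hStor _)))
  · refine IsTor.of_nsmul (n := 2) (by norm_num) ?_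
    have : (2 : ℕ) • ∑ i, ∑ j, (T.map fun t => t.co φ * (t.w i * t.e j)).sum • W (G i) (G j) = 0 := by
      set N : Fin 4 → Fin 4 → ℤ := fun i j => (T.map fun t => t.co φ * (t.w i * t.e j)).sum
      have hN : ∀ i j, N i j = N j i := hS.1
      have h1 : ∑ i, ∑ j, N i j • W (G i) (G j) = ∑ i, ∑ j, N i j • W (G j) (G i) := by
        rw [Finset.sum_comm]
        refine Finset.sum_congr rfl fun i _ => Finset.sum_congr rfl fun j _ => ?_
        rw [hN]
      rw [two_nsmul]
      nth_rewrite 2 [h1]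
      rw [← Finset.sum_add_distrib]
      refine Finset.sum_eq_zero fun i _ => ?_
      rw [← Finset.sum_add_distrib]
      refine Finset.sum_eq_zero fun j _ => ?_
      rw [← smul_add, W_add_swap, smul_zero]
    rw [this]
    exact IsTor.zero
  · have : ∑ k, ∑ j, (T.map fun t => t.co φ * (t.z k * t.e j)).sum • W (H k) (G j) = 0 := by
      refine Finset.sum_eq_zero fun i _ => Finset.sum_eq_zero fun j _ => ?_
      rw [hS.2, zero_smul]
    rw [this]
    exact IsTor.zero

end Torsion

end Pool.Agent.Zagier
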