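import Pool.Agent.Zagier.FieldNum

/-!
# Two complex places; roots of unity
-/

open scoped TensorProduct
open NumberField

namespace Pool.Agent.Zagier

universe u

section Field

variable {F : Type u} [Field F] [NumberField F]

/-- the determinant criterion when there are exactly two places, all of them counted -/
theorem regulator_of_two' {n : ℕ} (hn : ∀ v : InfinitePlace F, Odd n ∨ v.IsComplex)
    (hF : Fintype.card (InfinitePlace F) = 2) (v w : InfinitePlace F) (hvw : v ≠ w)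
    (a b : ZP1 F) (ha : a ∈ kerDelta n F) (hb : b ∈ kerDelta n F)
    (hdet : reg n v.embedding a * reg n w.embedding b -
      reg n w.embedding a * reg n v.embedding b ≠ 0) : RegulatorNonvanishing n F := by
  classical
  let v' : Places n F := ⟨v, hn v⟩
  let w' : Places n F := ⟨w, hn w⟩
  have hne : v' ≠ w' := fun h => hvw (congrArg Subtype.val h)
  have hcard : Fintype.card (Places n F) = 2 := by
    rw [← hF]
    exact Fintype.card_congr (Equiv.subtypeUnivEquiv fun v => hn v)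
  have hinj : Function.Injective ![v', w'] := by
    intro i j hij
    fin_cases i <;> fin_cases j <;> simp_all
  have hbij : Function.Bijective ![v', w'] := by
    rw [Fintype.bijective_iff_injective_and_card]
    exact ⟨hinj, by rw [hcard]; rfl⟩
  let e : Fin 2 ≃ Places n F := Equiv.ofBijective _ hbij
  have he0 : e 0 = v' := rfl
  have he1 : e 1 = w' := rfl
  refine ⟨fun i => if i = v' then a else b, fun i => ?_, ?_⟩
  · by_cases h : i = v' <;> simp [h, ha, hb]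
  · rw [← Matrix.det_submatrix_equiv_self e, Matrix.det_fin_two]
    simp only [Matrix.submatrix_apply, Matrix.of_apply, he0, he1, if_true, if_neg hne.symm,
      reg_apply]
    exact hdet

/-- the approximate root is not real -/
def imOK (a : ℤ × ℤ) : Bool := decide (qscl < a.2.natAbs)

omit [NumberField F] in
theorem im_ne_of_near {z : ℂ} {a : ℤ × ℤ} (h : Near z a) (ha : imOK a = true) : z.im ≠ 0 := by
  intro h0
  have h1 : ((rscl : ℂ) * z - gz a).im = -(a.2 : ℝ) := by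
    have : (rscl : ℂ) = ((rscl : ℝ) : ℂ) := by push_cast; rfl
    rw [this]
    simp [gz, h0]
  have h2 := (Complex.abs_im_le_norm _).trans h
  rw [h1, abs_neg, ← natAbs_cast] at h2
  have h3 : a.2.natAbs ≤ qscl := by exact_mod_cast h2
  exact absurd (of_decide_eq_true ha) (not_lt.2 h3)

/-- even weight, two complex classes of roots -/
theorem regulator_even_two {n : ℕ} (heven : Even n) (hn2 : 2 ≤ n)
    (hF : Fintype.card (InfinitePlace F) = 2)
    {p : List ℤ} {A : List (ℤ × ℤ)} {M : ℕ} {a₁ a₂ : ℤ × ℤ} (ha₁ : imOK a₁ = true)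
    (ha₂ : imOK a₂ = true)
    (hp : polyOK p A [a₁, a₂] M = true) (x : F) (hx : evP x (p ++ [1]) = 0)
    (htop : IntermediateField.adjoin ℚ {x} = ⊤) (y₁ y₂ : ZP1 F) (hy₁ : ∃ N : ℕ, 0 < N ∧
      N • y₁ ∈ kerDelta n F) (hy₂ : ∃ N : ℕ, 0 < N ∧ N • y₂ ∈ kerDelta n F)
    (hne : ∀ τ τ' : F →+* ℂ, Near (τ x) a₁ → Near (τ' x) a₂ →
      reg n τ y₁ * reg n τ' y₂ ≠ reg n τ' y₁ * reg n τ y₂) :
    RegulatorNonvanishing n F := by
  obtain ⟨N₁, hN₁, hker₁⟩ := hy₁
  obtain ⟨N₂, hN₂, hker₂⟩ := hy₂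
  obtain ⟨v, w, hvw⟩ : ∃ v w : InfinitePlace F, v ≠ w := by
    have : 1 < Fintype.card (InfinitePlace F) := by rw [hF]; norm_num
    exact Fintype.one_lt_card_iff.1 this
  have hp' := hp
  simp only [polyOK, Bool.and_eq_true] at hp'
  have hcomplex : ∀ v : InfinitePlace F, v.IsComplex := by
    intro v
    obtain ⟨a, ha, τ, hτ, hna⟩ := exists_near_emb hp'.1 hp'.2.1 x hx v.embedding
    have him : imOK a = true := by
      simp only [List.mem_cons, List.not_mem_nil, or_false] at ha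
      rcases ha with rfl | rfl <;> assumption
    have h1 := im_ne_of_near hna him
    rw [InfinitePlace.isComplex_iff]
    intro hreal
    rw [ComplexEmbedding.isReal_iff] at hreal
    apply h1
    have h2 : τ x = v.embedding x := by
      rcases hτ with rfl | rfl
      · rfl
      · rw [hreal]
    rw [h2]
    have h3 : (starRingEnd ℂ) (v.embedding x) = v.embedding x := by
      rw [← ComplexEmbedding.conjugate_coe_eq, hreal]
    exact Complex.conj_eq_iff_im.1 h3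
  obtain ⟨a, ha, τ, hτ, hna⟩ := exists_near_emb hp'.1 hp'.2.1 x hx v.embedding
  obtain ⟨b, hb, τ', hτ', hnb⟩ := exists_near_emb hp'.1 hp'.2.1 x hx w.embedding
  have hab : a ≠ b := by
    rintro rfl
    exact hvw (place_eq_of_near hp x hx htop v w τ τ' hτ hτ' ha hna hnb).1
  have hodd : Odd (n - 1) := by
    rw [Nat.odd_sub' (by omega)]; simp [heven]
  have hs : ∀ (v : InfinitePlace F) (τ : F →+* ℂ), (τ = v.embedding ∨
      τ = ComplexEmbedding.conjugate v.embedding) → ∃ s : ℝ, s ≠ 0 ∧ ∀ y : ZP1 F,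
      reg n v.embedding y = s * reg n τ y := by
    intro v τ h
    rcases h with rfl | rfl
    · exact ⟨1, one_ne_zero, fun y => (one_mul _).symm⟩
    · refine ⟨-1, by norm_num, fun y => ?_⟩
      rw [reg_conj (by omega : 0 < n), hodd.neg_one_pow]; ring
  obtain ⟨s, hs0, hsv⟩ := hs v τ hτ
  obtain ⟨t, ht0, htw⟩ := hs w τ' hτ'
  have hdet : reg n τ y₁ * reg n τ' y₂ - reg n τ' y₁ * reg n τ y₂ ≠ 0 := by
    simp only [List.mem_cons, List.not_mem_nil, or_false] at ha hb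
    rcases ha with rfl | rfl <;> rcases hb with rfl | rfl
    · exact absurd rfl hab
    · exact sub_ne_zero.2 (hne τ τ' hna hnb)
    · have := hne τ' τ hnb hna
      intro h0
      apply this
      linarith
    · exact absurd rfl hab
  refine regulator_of_two' (fun v => Or.inr (hcomplex v)) hF v w hvw (N₁ • y₁) (N₂ • y₂)
    hker₁ hker₂ ?_
  rw [map_nsmul, map_nsmul, map_nsmul, map_nsmul, hsv, hsv, htw, htw]
  simp only [nsmul_eq_mul]
  have h1 : (0 : ℝ) < N₁ := by exact_mod_cast hN₁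
  have h2 : (0 : ℝ) < N₂ := by exact_mod_cast hN₂
  have e1 : (N₁ : ℝ) * (s * reg n τ y₁) * (N₂ * (t * reg n τ' y₂)) -
      N₁ * (t * reg n τ' y₁) * (N₂ * (s * reg n τ y₂)) =
      (N₁ * N₂ * s * t) * (reg n τ y₁ * reg n τ' y₂ - reg n τ' y₁ * reg n τ y₂) := by ring
  rw [e1]
  exact mul_ne_zero (mul_ne_zero (mul_ne_zero (mul_ne_zero h1.ne' h2.ne') hs0) ht0) hdet

end Field

/-! ### values at roots of unity -/

theorem Li_sub_self_le {n : ℕ} (hn : 5 ≤ n) {z : ℂ} (hz : ‖z‖ = 1) : ‖Li n z - z‖ ≤ 1 / 8 := by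
  have hb : ∀ k : ℕ, ‖z ^ (k + 2) / ((k : ℂ) + 2) ^ n‖ ≤
      1 / 8 * (1 / (((k : ℝ) + 1) * ((k : ℝ) + 2))) := by
    intro k
    have h1 : ‖((k : ℂ) + 2)‖ = (k : ℝ) + 2 := by
      have : ((k : ℂ) + 2) = (((k : ℝ) + 2 : ℝ) : ℂ) := by push_cast; rfl
      rw [this, Complex.norm_real, Real.norm_eq_abs, abs_of_nonneg (by positivity)]
    rw [norm_div, norm_pow, norm_pow, hz, one_pow, h1]
    have h2 : (8 : ℝ) * (((k : ℝ) + 1) * ((k : ℝ) + 2)) ≤ ((k : ℝ) + 2) ^ n := by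
      obtain ⟨m, rfl⟩ := Nat.exists_eq_add_of_le hn
      have hk : (0 : ℝ) ≤ k := Nat.cast_nonneg k
      have h3 : (1 : ℝ) ≤ ((k : ℝ) + 2) ^ m := one_le_pow₀ (by linarith)
      have h4 : (8 : ℝ) ≤ ((k : ℝ) + 2) ^ 3 := by nlinarith [mul_nonneg hk hk]
      have h5 : ((k : ℝ) + 1) * ((k : ℝ) + 2) ≤ ((k : ℝ) + 2) ^ 2 := by nlinarith
      have h6 : (0 : ℝ) ≤ ((k : ℝ) + 1) * ((k : ℝ) + 2) := by positivity
      calc (8 : ℝ) * (((k : ℝ) + 1) * ((k : ℝ) + 2)) ≤ ((k : ℝ) + 2) ^ 3 * ((k : ℝ) + 2) ^ 2 :=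
            mul_le_mul h4 h5 h6 (by positivity)
        _ = ((k : ℝ) + 2) ^ 5 * 1 := by ring
        _ ≤ ((k : ℝ) + 2) ^ 5 * ((k : ℝ) + 2) ^ m :=
            mul_le_mul_of_nonneg_left h3 (by positivity)
        _ = _ := by rw [← pow_add]
    have hpos : (0 : ℝ) < 8 * (((k : ℝ) + 1) * ((k : ℝ) + 2)) := by positivity
    have h7 := one_div_le_one_div_of_le hpos h2
    calc (1 : ℝ) / ((k : ℝ) + 2) ^ n ≤ 1 / (8 * (((k : ℝ) + 1) * ((k : ℝ) + 2))) := h7
      _ = _ := by rw [one_div_mul_one_div]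
  have hs : ∀ N : ℕ, ∑ k ∈ Finset.range N, (1 : ℝ) / (((k : ℝ) + 1) * ((k : ℝ) + 2)) =
      1 - 1 / ((N : ℝ) + 1) := by
    intro N
    induction N with
    | zero => simp
    | succ N ih =>
      rw [Finset.sum_range_succ, ih]
      have : (N : ℝ) + 1 ≠ 0 := by positivity
      have : (N : ℝ) + 2 ≠ 0 := by positivity
      push_cast
      have e : (N : ℝ) + 1 + 1 = N + 2 := by ring
      rw [e]
      field_simp
      ring
  have hb2 : ∀ N : ℕ, ∑ k ∈ Finset.range N, ‖z ^ (k + 2) / ((k : ℂ) + 2) ^ n‖ ≤ 1 / 8 := by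
    intro N
    refine (Finset.sum_le_sum fun k _ => hb k).trans ?_
    rw [← Finset.mul_sum, hs]
    have : (0 : ℝ) ≤ 1 / ((N : ℝ) + 1) := by positivity
    linarith
  have hsum : Summable fun k : ℕ => ‖z ^ (k + 2) / ((k : ℂ) + 2) ^ n‖ :=
    summable_of_sum_range_le (fun k => norm_nonneg _) hb2
  have hsum' : Summable fun k : ℕ => z ^ (k + 1) / ((k : ℂ) + 1) ^ n := by
    rw [← summable_nat_add_iff 1]
    refine hsum.of_norm.congr fun k => ?_
    push_cast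
    congr 2
    ring
  have h1 : Li n z - z = ∑' k : ℕ, z ^ (k + 2) / ((k : ℂ) + 2) ^ n := by
    rw [Li, hsum'.tsum_eq_zero_add]
    simp only [zero_add, pow_one, Nat.cast_zero, one_pow, div_one, add_sub_cancel_left]
    congr 1
    ext k
    push_cast
    congr 2
    ring
  rw [h1]
  exact (norm_tsum_le_tsum_norm hsum).trans (Real.tsum_le_of_sum_range_le
    (fun k => norm_nonneg _) hb2)

theorem polySum_of_norm_one {n : ℕ} (hn : 1 ≤ n) {z : ℂ} (hz : ‖z‖ = 1) :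
    polySum n z = Li n z := by
  obtain ⟨m, rfl⟩ := Nat.exists_eq_add_of_le' hn
  rw [polySum, Finset.sum_range_succ']
  simp [hz, beta_zero]

theorem calL_norm_one_even {n : ℕ} (heven : Even n) (hn : 5 ≤ n) {z : ℂ} (hz : ‖z‖ = 1) :
    |calL n (z : OnePoint ℂ) - z.im| ≤ 1 / 8 := by
  rw [calL_of_le hz.le]
  unfold calLdisc
  rw [if_neg (Nat.not_odd_iff_even.2 heven), polySum_of_norm_one (by omega) hz,
    ← Complex.sub_im]
  exact (Complex.abs_im_le_norm _).trans (Li_sub_self_le hn hz)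

theorem calL_norm_one_odd {n : ℕ} (hodd : Odd n) (hn : 5 ≤ n) {z : ℂ} (hz : ‖z‖ = 1) :
    |calL n (z : OnePoint ℂ) - z.re| ≤ 1 / 8 := by
  rw [calL_of_le hz.le]
  unfold calLdisc
  rw [if_pos hodd, polySum_of_norm_one (by omega) hz, ← Complex.sub_re]
  exact (Complex.abs_re_le_norm _).trans (Li_sub_self_le hn hz)

/-- the relevant coordinate of a box -/
def CB.part (n : ℕ) (B : CB) : ℤ := if n % 2 = 0 then B.y else B.x

/-- check for the value at a root of unity -/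
def FD.torOK (D : FD) (n : ℕ) (a : ℤ × ℤ) (g : E3) (lo hi : ℤ) : Bool :=
  (g.2 == (0, 0)) && ((D.den g == 1) && (decide (5 ≤ n) &&
    (decide (8 * lo ≤ 8 * ((evB (toCB a) (D.mon g)).part n - (evB (toCB a) (D.mon g)).e) -
      (scl : ℤ)) &&
     decide (8 * ((evB (toCB a) (D.mon g)).part n + (evB (toCB a) (D.mon g)).e) + (scl : ℤ) ≤
      8 * hi))))

section

variable {F : Type u} [Field F] [CharZero F] {D : FD} {x : F}

theorem FD.Root.tor_pow (h : D.Root x) {g : E3} (hg : g.2 = (0, 0)) :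
    val h.ev g ^ D.T = 1 := by
  have h1 : nf3 D.T (((D.T : ℕ) : ℤ) • g) = 0 := by
    obtain ⟨a, b⟩ := g
    simp only at hg
    subst hg
    simp [nf3]
  have h2 := h.ev_nf (((D.T : ℕ) : ℤ) • g)
  rw [h1, map_zero] at h2
  have h3 : val h.ev (((D.T : ℕ) : ℤ) • g) = 1 := by rw [val, ← h2]; simp
  rw [val_zsmul, zpow_natCast] at h3
  exact h3

theorem FD.Root.reg_tor (h : D.Root x) {n : ℕ} {a : ℤ × ℤ} {g : E3} {lo hi : ℤ}
    (hc : D.torOK n a g lo hi = true) (σ : F →+* ℂ) (hσ : Near (σ x) a) :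
    (lo : ℝ) ≤ reg n σ (evL h.ev [(1, g)]) * scl ∧ reg n σ (evL h.ev [(1, g)]) * scl ≤ hi := by
  simp only [FD.torOK, Bool.and_eq_true, beq_iff_eq, decide_eq_true_eq] at hc
  obtain ⟨hg, hden, hn, hlo, hhi⟩ := hc
  have hB := evB_has hσ.has (D.mon g)
  have hval : σ (val h.ev g) = evP (σ x) (D.mon g) := by
    rw [← evP_map, h.evP_mon, hden]; simp
  have hnorm : ‖evP (σ x) (D.mon g)‖ = 1 := by
    rw [← hval]
    refine Complex.norm_eq_one_of_pow_eq_one (n := D.T) ?_ h.T_pos.ne'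
    rw [← map_pow, h.tor_pow hg, map_one]
  rw [evL_cons, evL_nil, one_smul, add_zero, reg_br, hval]
  set z := evP (σ x) (D.mon g)
  set B := evB (toCB a) (D.mon g)
  have hs := scl_pos
  have hlo' : (8 : ℝ) * lo ≤ 8 * ((B.part n : ℝ) - B.e) - scl := by exact_mod_cast hlo
  have hhi' : (8 : ℝ) * ((B.part n : ℝ) + B.e) + scl ≤ 8 * hi := by exact_mod_cast hhi
  rcases Nat.even_or_odd n with he | ho
  · have hp : B.part n = B.y := by simp [CB.part, Nat.even_iff.1 he]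
    rw [hp] at hlo' hhi'
    have h1 := abs_le.1 (calL_norm_one_even he hn hnorm)
    have h2 := abs_le.1 hB.2
    constructor <;> nlinarith [h1.1, h1.2, h2.1, h2.2]
  · have hp : B.part n = B.x := by simp [CB.part, Nat.odd_iff.1 ho]
    rw [hp] at hlo' hhi'
    have h1 := abs_le.1 (calL_norm_one_odd ho hn hnorm)
    have h2 := abs_le.1 hB.1
    constructor <;> nlinarith [h1.1, h1.2, h2.1, h2.2]

end

/-! ### interval determinants -/

/-- bounds for a product of intervals -/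
theorem mul_mem_Icc {x y x₁ x₂ y₁ y₂ lo hi : ℝ} (hx₁ : x₁ ≤ x) (hx₂ : x ≤ x₂) (hy₁ : y₁ ≤ y)
    (hy₂ : y ≤ y₂) (h₁ : lo ≤ x₁ * y₁ ∧ x₁ * y₁ ≤ hi) (h₂ : lo ≤ x₁ * y₂ ∧ x₁ * y₂ ≤ hi)
    (h₃ : lo ≤ x₂ * y₁ ∧ x₂ * y₁ ≤ hi) (h₄ : lo ≤ x₂ * y₂ ∧ x₂ * y₂ ≤ hi) :
    lo ≤ x * y ∧ x * y ≤ hi := by
  have hxx : x₁ ≤ x₂ := hx₁.trans hx₂
  have key : ∀ t : ℝ, lo ≤ x₁ * t ∧ x₁ * t ≤ hi → lo ≤ x₂ * t ∧ x₂ * t ≤ hi →
      lo ≤ x * t ∧ x * t ≤ hi := by
    intro t ht₁ ht₂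
    rcases le_total 0 t with h0 | h0
    · exact ⟨ht₁.1.trans (mul_le_mul_of_nonneg_right hx₁ h0),
        (mul_le_mul_of_nonneg_right hx₂ h0).trans ht₂.2⟩
    · exact ⟨ht₂.1.trans (mul_le_mul_of_nonpos_right hx₂ h0),
        (mul_le_mul_of_nonpos_right hx₁ h0).trans ht₁.2⟩
  have k₁ := key y₁ h₁ h₃
  have k₂ := key y₂ h₂ h₄
  rcases le_total 0 x with h0 | h0
  · exact ⟨k₁.1.trans (mul_le_mul_of_nonneg_left hy₁ h0),
      (mul_le_mul_of_nonneg_left hy₂ h0).trans k₂.2⟩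
  · exact ⟨k₂.1.trans (mul_le_mul_of_nonpos_left hy₂ h0),
      (mul_le_mul_of_nonpos_left hy₁ h0).trans k₁.2⟩

/-- lower bound for the products of the endpoints -/
def iLo (a b : ℤ × ℤ) : ℤ := min (min (a.1 * b.1) (a.1 * b.2)) (min (a.2 * b.1) (a.2 * b.2))

/-- upper bound for the products of the endpoints -/
def iHi (a b : ℤ × ℤ) : ℤ := max (max (a.1 * b.1) (a.1 * b.2)) (max (a.2 * b.1) (a.2 * b.2))

theorem iLo_iHi {a b : ℤ × ℤ} {x y : ℝ} (hx : (a.1 : ℝ) ≤ x ∧ x ≤ a.2)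
    (hy : (b.1 : ℝ) ≤ y ∧ y ≤ b.2) : (iLo a b : ℝ) ≤ x * y ∧ x * y ≤ iHi a b := by
  have c : ∀ u v : ℤ, iLo a b ≤ u * v ∧ u * v ≤ iHi a b →
      ((iLo a b : ℤ) : ℝ) ≤ (u : ℝ) * v ∧ (u : ℝ) * v ≤ ((iHi a b : ℤ) : ℝ) := by
    intro u v h
    exact ⟨by exact_mod_cast h.1, by exact_mod_cast h.2⟩
  refine mul_mem_Icc hx.1 hx.2 hy.1 hy.2 (c _ _ ?_) (c _ _ ?_) (c _ _ ?_) (c _ _ ?_) <;>
    simp [iLo, iHi]

/-- the determinant of a matrix of intervals does not vanish -/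
def detOK (a b c d : ℤ × ℤ) : Bool := decide (iHi a d < iLo b c) || decide (iHi b c < iLo a d)

theorem det_ne {a b c d : ℤ × ℤ} (h : detOK a b c d = true) {x y z w : ℝ}
    (hx : (a.1 : ℝ) ≤ x ∧ x ≤ a.2) (hy : (b.1 : ℝ) ≤ y ∧ y ≤ b.2)
    (hz : (c.1 : ℝ) ≤ z ∧ z ≤ c.2) (hw : (d.1 : ℝ) ≤ w ∧ w ≤ d.2) : x * w ≠ y * z := by
  have h1 := iLo_iHi hx hw
  have h2 := iLo_iHi hy hz
  simp only [detOK, Bool.or_eq_true, decide_eq_true_eq] at h
  intro h0
  rcases h with h | h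
  · have : ((iHi a d : ℤ) : ℝ) < iLo b c := by exact_mod_cast h
    linarith [h1.2, h2.1]
  · have : ((iHi b c : ℤ) : ℝ) < iLo a d := by exact_mod_cast h
    linarith [h1.1, h2.2]

end Pool.Agent.Zagier
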