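import Pool.Agent.Zagier.OneVarRel
import Pool.Agent.Zagier.Poly2

/-!
# Functional equations in two variables with letters `x, 1 - x, 1 - x + x²` and
`y, 1 - y, 1 - y + y²`
-/

open scoped TensorProduct

namespace Pool.Agent.Zagier

universe u

/-- first entry of a list of integers -/
def hdZ : List ℤ → ℤ
  | [] => 0
  | a :: _ => a

/-- list of integers without its first entry -/
def tlZ : List ℤ → List ℤ
  | [] => []
  | _ :: l => l

/-- entry number `n` of a list of integers -/
def nthZ (l : List ℤ) : ℕ → ℤ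
  | 0 => hdZ l
  | n + 1 => nthZ (tlZ l) n

/-- A term `c · {f}` with `f = ± ∏ bᵢ^{eᵢ}`, and `1 - f = ± ∏ bᵢ^{wᵢ} ∏ ℓ_k^{z_k}`, where the
`bᵢ` are the six letters and the `ℓ_k` are extra letters. -/
structure T2 where
  /-- coefficient -/
  c : ℤ
  /-- sign of `f` -/
  s : Bool
  /-- exponents of `f` -/
  e : List ℤ
  /-- sign of `1 - f` -/
  s' : Bool
  /-- exponents of `1 - f` -/
  w : List ℤ
  /-- exponents of the extra letters in `1 - f` -/
  z : List (ℕ × ℕ)

/-- exponent of the letter number `i` in `f` -/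
def T2.ei (t : T2) (i : Fin 6) : ℤ := nthZ t.e i
/-- exponent of the letter number `i` in `1 - f` -/
def T2.wi (t : T2) (i : Fin 6) : ℤ := nthZ t.w i
/-- multiplicity of the extra letter number `k` in `1 - f` -/
def T2.zk (t : T2) (k : ℕ) : ℤ := (t.z.map fun p => if p.1 = k then (p.2 : ℤ) else 0).sum

/-- coefficient after contraction -/
def T2.co (t : T2) (φ : Fin 6 → ℕ) : ℤ := t.c * ∏ i, t.ei i ^ φ i

theorem T2.co_add (t : T2) (φ : Fin 6 → ℕ) (i : Fin 6) :
    t.co (φ + Pi.single i 1) = t.co φ * t.ei i := by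
  have h : ∏ j, t.ei j ^ ((Pi.single i 1 : Fin 6 → ℕ) j) = t.ei i := by
    rw [Finset.prod_eq_single i]
    · simp
    · intro j _ hj
      rw [Pi.single_eq_of_ne hj, pow_zero]
    · simp
  simp only [T2.co, Pi.add_apply, pow_add, Finset.prod_mul_distrib]
  rw [h, mul_assoc]

section

variable {K : Type u} [Field K]

/-- the function `f` of a term -/
def T2.arg (t : T2) (b : Fin 6 → K) : K := sg K t.s * ∏ i, b i ^ t.ei i

theorem T2.arg_ne (t : T2) {b : Fin 6 → K} (hb : ∀ i, b i ≠ 0) : t.arg b ≠ 0 :=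
  mul_ne_zero (sg_ne _) (Finset.prod_ne_zero_iff.2 fun i _ => zpow_ne_zero _ (hb i))

/-- `∑ c_t(φ) {f_t}` -/
noncomputable def fam2 (T : List T2) (φ : Fin 6 → ℕ) (b : Fin 6 → K) : ZP1 K :=
  (T.map fun t => t.co φ • br (t.arg b)).sum

/-- The inductive step: contracted relations in `𝓑_{m}` imply that `δ_{m+1}` is torsion. -/
theorem step_tor2 (R : AddSubgroup (ZP1 K)) (T : List T2) (φ : Fin 6 → ℕ) (b : Fin 6 → K)
    (hb : ∀ i, b i ≠ 0) (h : ∀ i : Fin 6, InSat R (fam2 T (φ + Pi.single i 1) b)) :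
    IsTor (deltaOf R (fam2 T φ b)) := by
  have key : ∀ t : T2, deltaOf R (t.co φ • br (t.arg b)) =
      t.co φ • ((QuotientAddGroup.mk (br (t.arg b)) : ZP1 K ⧸ R) ⊗ₜ[ℤ]
        Additive.ofMul (Units.mk0 (sg K t.s) (sg_ne t.s))) +
      ∑ i, (QuotientAddGroup.mk (t.co (φ + Pi.single i 1) • br (t.arg b)) : ZP1 K ⧸ R) ⊗ₜ[ℤ]
        Additive.ofMul (Units.mk0 (b i) (hb i)) := by
    intro t
    have ha := t.arg_ne hb
    have h1 := deltaOf_br R (Units.mk0 (t.arg b) ha)
    rw [Units.val_mk0] at h1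
    rw [map_zsmul, h1, ofMul_expand b hb t.ei t.s (t.arg b) ha rfl,
      TensorProduct.tmul_add, smul_add, TensorProduct.tmul_sum, Finset.smul_sum]
    congr 1
    refine Finset.sum_congr rfl fun i _ => ?_
    rw [T2.co_add, tmul_zsmul', smul_smul, QuotientAddGroup.mk_zsmul, zsmul_tmul']
  rw [fam2, map_list_sum']
  simp only [key]
  rw [list_sum_add, list_sum_finset]
  refine IsTor.add (IsTor.list_sum ?_) (IsTor.sum _ _ fun i _ => ?_)
  · intro z hz
    obtain ⟨t, _, rfl⟩ := List.mem_map.1 hz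
    exact ((ofMul_sg_tor t.s).tmul_right _).zsmul _
  · have h2 : (T.map fun t => (QuotientAddGroup.mk (t.co (φ + Pi.single i 1) • br (t.arg b)) :
        ZP1 K ⧸ R) ⊗ₜ[ℤ] Additive.ofMul (Units.mk0 (b i) (hb i))).sum =
        (QuotientAddGroup.mk (fam2 T (φ + Pi.single i 1) b) : ZP1 K ⧸ R) ⊗ₜ[ℤ]
          Additive.ofMul (Units.mk0 (b i) (hb i)) := by
      rw [fam2]
      generalize Additive.ofMul (Units.mk0 (b i) (hb i)) = Y
      clear key h hb
      induction T with
      | nil => simp
      | cons t T ih =>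
        rw [List.map_cons, List.sum_cons, ih, List.map_cons, List.sum_cons,
          QuotientAddGroup.mk_add, TensorProduct.add_tmul]
    rw [h2]
    exact (h i).isTor_mk.tmul_left _

/-- The base case: a family whose symbol vanishes has torsion `δ₂`. -/
theorem base_tor2 (T : List T2) (q : ℕ) (φ : Fin 6 → ℕ) (b : Fin 6 → K)
    (hb : ∀ i, b i ≠ 0) (ℓ : ℕ → K) (hℓ : ∀ k, ℓ k ≠ 0)
    (hz : ∀ t ∈ T, t.z.all (fun p => decide (p.1 < q)) = true)
    (hT : ∀ t ∈ T, 1 - t.arg b = (sg K t.s' * ∏ i, b i ^ t.wi i) *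
      (t.z.map fun p => ℓ p.1 ^ p.2).prod)
    (hS : ∀ i j : Fin 6, (T.map fun t => t.co φ * (t.wi i * t.ei j)).sum =
      (T.map fun t => t.co φ * (t.wi j * t.ei i)).sum)
    (hZ : ∀ k < q, ∀ j : Fin 6, (T.map fun t => t.co φ * (t.zk k * t.ei j)).sum = 0) :
    IsTor (delta2 K (fam2 T φ b)) := by
  set G : Fin 6 → Additive Kˣ := fun i => Additive.ofMul (Units.mk0 (b i) (hb i)) with hG
  set H : ℕ → Additive Kˣ := fun k => Additive.ofMul (Units.mk0 (ℓ k) (hℓ k)) with hH
  set S : Bool → Additive Kˣ := fun s => Additive.ofMul (Units.mk0 (sg K s) (sg_ne s)) with hSdef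
  have hStor : ∀ s, IsTor (S s) := ofMul_sg_tor
  have key : ∀ t ∈ T, delta2 K (t.co φ • br (t.arg b)) =
      t.co φ • (W (S t.s') (S t.s + ∑ i, t.ei i • G i) +
        W (∑ i, t.wi i • G i + (t.z.map fun p => (p.2 : ℤ) • H p.1).sum) (S t.s)) +
      (∑ i, ∑ j, (t.co φ * (t.wi i * t.ei j)) • W (G i) (G j) +
        ∑ j, ∑ k ∈ Finset.range q, (t.co φ * (t.zk k * t.ei j)) • W (H k) (G j)) := by
    intro t ht
    have ha := t.arg_ne hb
    have hm : sg K t.s' * ∏ i, b i ^ t.wi i ≠ 0 :=
      mul_ne_zero (sg_ne _) (Finset.prod_ne_zero_iff.2 fun i _ => zpow_ne_zero _ (hb i))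
    have hb' : 1 - t.arg b ≠ 0 := by
      rw [hT t ht]
      refine mul_ne_zero hm ?_
      refine List.prod_ne_zero fun h => ?_
      obtain ⟨p, _, hp⟩ := List.mem_map.1 h
      exact pow_ne_zero _ (hℓ _) hp
    have h1 := delta2_br (Units.mk0 (t.arg b) ha) (Units.mk0 (1 - t.arg b) hb') (by simp)
    rw [Units.val_mk0] at h1
    have hexp : Additive.ofMul (Units.mk0 (t.arg b) ha) = S t.s + ∑ i, t.ei i • G i :=
      ofMul_expand b hb t.ei t.s (t.arg b) ha rfl
    have hexp' : Additive.ofMul (Units.mk0 (1 - t.arg b) hb') =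
        S t.s' + (∑ i, t.wi i • G i + (t.z.map fun p => (p.2 : ℤ) • H p.1).sum) := by
      have h3 := ofMul_expand b hb t.wi t.s' _ hm rfl
      have h2 : Units.mk0 (1 - t.arg b) hb' = Units.mk0 _ hm *
          (t.z.map fun p => Units.mk0 (ℓ p.1) (hℓ p.1) ^ p.2).prod := by
        ext
        rw [Units.val_mk0, Units.val_mul, Units.val_mk0, hT t ht]
        congr 1
        rw [← Units.coeHom_apply, map_list_prod, List.map_map]
        congr 1
      have h4 : Additive.ofMul (t.z.map fun p => Units.mk0 (ℓ p.1) (hℓ p.1) ^ p.2).prod =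
          (t.z.map fun p => (p.2 : ℤ) • H p.1).sum := by
        induction t.z with
        | nil => simp
        | cons p z ih =>
          rw [List.map_cons, List.prod_cons, ofMul_mul, ih, List.map_cons, List.sum_cons,
            ofMul_pow, natCast_zsmul]
      rw [h2, ofMul_mul, h3, h4]
      simp only [hSdef, hG]
      abel
    have hz2 := zk_expand H q t.z (hz t ht)
    rw [map_zsmul, h1, hexp, hexp']
    set Z := (t.z.map fun p => (p.2 : ℤ) • H p.1).sum with hZdef
    have h6 : ∀ Y : Additive Kˣ, W Z Y = ∑ k ∈ Finset.range q, t.zk k • W (H k) Y := by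
      intro Y
      rw [hz2, map_sum, AddMonoidHom.finsetSum_apply]
      refine Finset.sum_congr rfl fun k _ => ?_
      rw [map_zsmul, AddMonoidHom.zsmul_apply]; rfl
    have h7 : W Z (∑ i, t.ei i • G i) = ∑ j, ∑ k ∈ Finset.range q,
        (t.zk k * t.ei j) • W (H k) (G j) := by
      rw [map_sum]
      refine Finset.sum_congr rfl fun j _ => ?_
      rw [map_zsmul, h6, Finset.smul_sum]
      refine Finset.sum_congr rfl fun k _ => ?_
      rw [smul_smul, mul_comm]
    have h3 : W (S t.s' + (∑ i, t.wi i • G i + Z)) (S t.s + ∑ i, t.ei i • G i) =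
        (W (S t.s') (S t.s + ∑ i, t.ei i • G i) +
        W (∑ i, t.wi i • G i + Z) (S t.s)) +
        (∑ i, ∑ j, (t.wi i * t.ei j) • W (G i) (G j) +
          ∑ j, ∑ k ∈ Finset.range q, (t.zk k * t.ei j) • W (H k) (G j)) := by
      rw [← W_sum_sum t.wi G t.ei G, ← h7]
      simp only [map_add, AddMonoidHom.add_apply]
      abel
    rw [h3, smul_add, smul_add (t.co φ)
      (∑ i, ∑ j, (t.wi i * t.ei j) • W (G i) (G j))]
    refine congrArg₂ (· + ·) rfl (congrArg₂ (· + ·) ?_ ?_)
    · rw [Finset.smul_sum]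
      refine Finset.sum_congr rfl fun i _ => ?_
      rw [Finset.smul_sum]
      refine Finset.sum_congr rfl fun j _ => ?_
      rw [smul_smul]
    · rw [Finset.smul_sum]
      refine Finset.sum_congr rfl fun i _ => ?_
      rw [Finset.smul_sum]
      refine Finset.sum_congr rfl fun j _ => ?_
      rw [smul_smul]
  have hsum : delta2 K (fam2 T φ b) =
      (T.map fun t => t.co φ • (W (S t.s') (S t.s + ∑ i, t.ei i • G i) +
        W (∑ i, t.wi i • G i + (t.z.map fun p => (p.2 : ℤ) • H p.1).sum) (S t.s))).sum +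
      (∑ i, ∑ j, (T.map fun t => t.co φ * (t.wi i * t.ei j)).sum • W (G i) (G j) +
        ∑ j, ∑ k ∈ Finset.range q,
          (T.map fun t => t.co φ * (t.zk k * t.ei j)).sum • W (H k) (G j)) := by
    rw [fam2, map_list_sum', List.map_congr_left key, list_sum_add, list_sum_add,
      list_sum_finset, list_sum_finset]
    refine congrArg₂ (· + ·) rfl (congrArg₂ (· + ·) ?_ ?_)
    · refine Finset.sum_congr rfl fun i _ => ?_
      rw [list_sum_finset]
      refine Finset.sum_congr rfl fun j _ => ?_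
      rw [list_sum_smul]
    · refine Finset.sum_congr rfl fun i _ => ?_
      rw [list_sum_finset]
      refine Finset.sum_congr rfl fun j _ => ?_
      rw [list_sum_smul]
  rw [hsum]
  refine IsTor.add (IsTor.list_sum ?_) (IsTor.add ?_ ?_)
  · intro z hz
    obtain ⟨t, _, rfl⟩ := List.mem_map.1 hz
    exact IsTor.zsmul _ ((W_tor_left _ (hStor _)).add (W_tor_right _ (hStor _)))
  · refine IsTor.of_nsmul (n := 2) (by norm_num) ?_
    have : (2 : ℕ) • ∑ i, ∑ j, (T.map fun t => t.co φ * (t.wi i * t.ei j)).sum • W (G i) (G j) =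
        0 := by
      set N : Fin 6 → Fin 6 → ℤ := fun i j => (T.map fun t => t.co φ * (t.wi i * t.ei j)).sum
      have hN : ∀ i j, N i j = N j i := hS
      have h1 : ∑ i, ∑ j, N i j • W (G i) (G j) = ∑ i, ∑ j, N i j • W (G j) (G i) := by
        rw [Finset.sum_comm]
        refine Finset.sum_congr rfl fun i _ => Finset.sum_congr rfl fun j _ => ?_
        rw [hN]
      rw [two_nsmul]
      nth_rewrite 2 [h1]
      rw [← Finset.sum_add_distrib]
      refine Finset.sum_eq_zero fun i _ => ?_
      rw [← Finset.sum_add_distrib]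
      refine Finset.sum_eq_zero fun j _ => ?_
      rw [← smul_add, W_add_swap, smul_zero]
    rw [this]
    exact IsTor.zero
  · have : ∑ j, ∑ k ∈ Finset.range q,
        (T.map fun t => t.co φ * (t.zk k * t.ei j)).sum • W (H k) (G j) = 0 := by
      refine Finset.sum_eq_zero fun j _ => Finset.sum_eq_zero fun k hk => ?_
      rw [hZ k (Finset.mem_range.1 hk), zero_smul]
    rw [this]
    exact IsTor.zero

end

/-! ### checking the vanishing of symbols -/

/-- test for zero -/
def isz : ℤ → Bool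
  | .ofNat n => Nat.beq n 0
  | .negSucc _ => false

theorem isz_iff (a : ℤ) : isz a = true ↔ a = 0 := by
  cases a with
  | ofNat n => simp [isz]
  | negSucc n => simp [isz]

/-- sum of the coefficients -/
def sumZ : List (ℤ × List ℤ) → ℤ
  | [] => 0
  | p :: L => Int.add p.1 (sumZ L)

/-- dropping the first exponent -/
def tails : List (ℤ × List ℤ) → List (ℤ × List ℤ)
  | [] => []
  | p :: L => (p.1, tlZ p.2) :: tails L

/-- multiplying by the first exponent -/
def mulHd : List (ℤ × List ℤ) → List (ℤ × List ℤ)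
  | [] => []
  | p :: L => bif isz (hdZ p.2) then mulHd L else (Int.mul p.1 (hdZ p.2), p.2) :: mulHd L

/-- one step of the recursion -/
def chkS (F : ℕ → List (ℤ × List ℤ) → Bool) : ℕ → List (ℤ × List ℤ) → Bool
  | 0, L => isz (sumZ L)
  | d + 1, L => and (F (d + 1) (tails L)) (chkS F d (mulHd L))

/-- `∑ aₜ ∏ eᵢ^{nᵢ} = 0` for all `(nᵢ)` of total degree `d` in `r` variables -/
def chk : ℕ → ℕ → List (ℤ × List ℤ) → Bool
  | 0 => fun d L => match d with
    | 0 => isz (sumZ L)
    | _ + 1 => true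
  | r + 1 => chkS (chk r)

/-- value of a monomial -/
def monZ (l : List ℤ) : List ℕ → ℤ
  | [] => 1
  | n :: a => hdZ l ^ n * monZ (tlZ l) a

/-- contraction sum -/
def sumM (L : List (ℤ × List ℤ)) (a : List ℕ) : ℤ := (L.map fun p => p.1 * monZ p.2 a).sum

theorem sumM_zero (L : List (ℤ × List ℤ)) {a : List ℕ} (ha : a.sum = 0) :
    sumM L a = sumZ L := by
  have h1 : ∀ l, monZ l a = 1 := by
    induction a with
    | nil => intro l; rfl
    | cons n a ih =>
      intro l
      simp only [List.sum_cons, Nat.add_eq_zero_iff] at ha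
      rw [monZ, ha.1, ih ha.2]; simp
  induction L with
  | nil => rfl
  | cons p L ih =>
    simp only [sumM, sumZ, h1, List.map_cons, List.sum_cons, Int.add_def] at ih ⊢
    rw [ih, mul_one]

theorem sumM_tails (L : List (ℤ × List ℤ)) (a : List ℕ) :
    sumM (tails L) a = sumM L (0 :: a) := by
  induction L with
  | nil => rfl
  | cons p L ih =>
    simp only [sumM, tails, List.map_cons, List.sum_cons, monZ, pow_zero, one_mul] at ih ⊢
    rw [ih]

theorem sumM_mulHd (L : List (ℤ × List ℤ)) (n : ℕ) (a : List ℕ) :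
    sumM (mulHd L) (n :: a) = sumM L ((n + 1) :: a) := by
  induction L with
  | nil => rfl
  | cons p L ih =>
    rw [mulHd]
    cases h : isz (hdZ p.2)
    · rw [cond_false]
      simp only [sumM, List.map_cons, List.sum_cons, monZ, pow_succ, Int.mul_def] at ih ⊢
      rw [ih]
      ring
    · rw [cond_true, ih]
      rw [isz_iff] at h
      simp only [sumM, List.map_cons, List.sum_cons, monZ, h, pow_succ, mul_zero, zero_mul,
        zero_add]

theorem chkS_spec {F : ℕ → List (ℤ × List ℤ) → Bool} {r : ℕ}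
    (hF : ∀ d L, F d L = true → ∀ a : List ℕ, a.length = r → a.sum = d → sumM L a = 0)
    (d : ℕ) (L : List (ℤ × List ℤ)) (h : chkS F d L = true) (a : List ℕ)
    (ha : a.length = r + 1) (hs : a.sum = d) : sumM L a = 0 := by
  induction d generalizing L a with
  | zero =>
    rw [sumM_zero L hs]
    simpa [chkS, isz_iff] using h
  | succ d ih =>
    simp only [chkS, Bool.and_eq_true] at h
    obtain _ | ⟨n, a⟩ := a
    · simp at ha
    · cases n with
      | zero =>
        rw [← sumM_tails]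
        exact hF _ _ h.1 a (by simpa using ha) (by simpa using hs)
      | succ n =>
        rw [← sumM_mulHd]
        exact ih _ h.2 (n :: a) (by simpa using ha) (by simp only [List.sum_cons] at hs ⊢; omega)

theorem chk_spec (r : ℕ) : ∀ (d : ℕ) (L : List (ℤ × List ℤ)), chk r d L = true →
    ∀ a : List ℕ, a.length = r → a.sum = d → sumM L a = 0 := by
  induction r with
  | zero =>
    intro d L h a ha hs
    obtain rfl := List.length_eq_zero_iff.1 ha
    simp only [List.sum_nil] at hs
    subst hs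
    rw [sumM_zero L rfl]
    simpa [chk, isz_iff] using h
  | succ r ih => exact fun d L h a ha hs => chkS_spec ih d L h a ha hs

theorem monZ_ofFn (l : List ℤ) (φ : Fin 6 → ℕ) :
    monZ l (List.ofFn φ) = ∏ i : Fin 6, nthZ l i ^ φ i := by
  rw [Fin.prod_univ_six]
  simp only [List.ofFn_succ, List.ofFn_zero, monZ]
  simp only [nthZ, mul_one]
  simp only [← mul_assoc]
  rfl

end Pool.Agent.Zagier
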