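import Pool.Agent.Zagier.TwoVar

/-!
# Relations in `𝓑_n` from functional equations in two variables
-/

open scoped TensorProduct

namespace Pool.Agent.Zagier

universe u

section

variable {K : Type u} [Field K]

theorem HasVal.evQ {a : K} {g h : RatFunc K} {v w : K} (hg : HasVal a g v) (hh : HasVal a h w)
    (p : List (List ℤ)) : HasVal a (evQ g h p) (evQ v w p) := by
  induction p with
  | nil => simpa [Zagier.evQ] using HasVal.intCast a 0
  | cons c p ih => exact (hg.evP c).add (hh.mul ih)

/-- the exponent of the second variable along the path -/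
def WW : ℕ := 1000

/-- the path `y t^W` -/
noncomputable def pyW (y : K) : RatFunc K := RatFunc.C y * RatFunc.X ^ WW

theorem pyW_val (a y : K) : HasVal a (pyW y) (y * a ^ WW) :=
  (HasVal.C a y).mul ((HasVal.X a).pow WW)

theorem pyW_val_one (y : K) : HasVal 1 (pyW y) y := by simpa using pyW_val 1 y

theorem pyW_val_zero (y : K) : HasVal 0 (pyW y) 0 := by simpa [WW] using pyW_val 0 y

theorem pyW_ne {y : K} (hy : y ≠ 0) : pyW y ≠ 0 := (pyW_val_one y).ne_zero hy

/-- the six letters at `(x, y)` -/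
def six (x y : K) : Fin 6 → K := ![x, 1 - x, quad x, y, 1 - y, quad y]

/-- both variables are admissible -/
def Adm (x : K) : Prop := x ≠ 0 ∧ 1 - x ≠ 0 ∧ quad x ≠ 0

theorem six_ne {x y : K} (hx : Adm x) (hy : Adm y) (i : Fin 6) : six x y i ≠ 0 := by
  fin_cases i
  · exact hx.1
  · exact hx.2.1
  · exact hx.2.2
  · exact hy.1
  · exact hy.2.1
  · exact hy.2.2

theorem Adm.path {g : RatFunc K} (hg : g ≠ 0) (h : HasVal 0 g 0) : Adm g :=
  ⟨hg, ((HasVal.one 0).sub h).ne_zero (by simp), h.quad.ne_zero (by simp [quad])⟩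

theorem Adm.px {x : K} (hx : Adm x) : Adm (px x) := Adm.path (px_ne hx.1) (px_val_zero x)

theorem Adm.pyW {y : K} (hy : Adm y) : Adm (pyW y) := Adm.path (pyW_ne hy.1) (pyW_val_zero y)

/-- `f(x, y)` in terms of the six letters -/
theorem T2.arg_six (t : T2) (x y : K) : t.arg (six x y) = sg K t.s *
    (x ^ t.ei 0 * (1 - x) ^ t.ei 1 * quad x ^ t.ei 2 *
      y ^ t.ei 3 * (1 - y) ^ t.ei 4 * quad y ^ t.ei 5) := by
  rw [T2.arg, Fin.prod_univ_six]
  rfl

theorem T2.arg_val_one (t : T2) {x y : K} (hx : Adm x) (hy : Adm y) :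
    HasVal 1 (t.arg (six (px x) (pyW y))) (t.arg (six x y)) := by
  rw [T2.arg_six, T2.arg_six]
  exact (sg_val 1 t.s).mul ((((((px_val_one x).zpow hx.1 _).mul
    (((HasVal.one 1).sub (px_val_one x)).zpow hx.2.1 _)).mul
    ((px_val_one x).quad.zpow hx.2.2 _)).mul ((pyW_val_one y).zpow hy.1 _)).mul
    (((HasVal.one 1).sub (pyW_val_one y)).zpow hy.2.1 _) |>.mul
    ((pyW_val_one y).quad.zpow hy.2.2 _))

/-- the part of `f(t x, t^W y)` which is a unit at `t = 0` -/
noncomputable def T2.unitPart (t : T2) (x y : K) : RatFunc K :=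
  sg (RatFunc K) t.s * (RatFunc.C x ^ t.ei 0 * (1 - px x) ^ t.ei 1 * quad (px x) ^ t.ei 2 *
    RatFunc.C y ^ t.ei 3 * (1 - pyW y) ^ t.ei 4 * quad (pyW y) ^ t.ei 5)

theorem T2.unitPart_val (t : T2) {x y : K} (hx : x ≠ 0) (hy : y ≠ 0) :
    HasVal 0 (t.unitPart x y) (sg K t.s * (x ^ t.ei 0 * y ^ t.ei 3)) := by
  have h := (sg_val 0 t.s).mul ((((((HasVal.C 0 x).zpow hx (t.ei 0)).mul
    (((HasVal.one 0).sub (px_val_zero x)).zpow (by simp) (t.ei 1))).mul
    ((px_val_zero x).quad.zpow (by simp [Zagier.quad]) (t.ei 2))).mul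
    ((HasVal.C 0 y).zpow hy (t.ei 3))).mul
    (((HasVal.one 0).sub (pyW_val_zero y)).zpow (by simp) (t.ei 4)) |>.mul
    ((pyW_val_zero y).quad.zpow (by simp [Zagier.quad]) (t.ei 5)))
  simpa [T2.unitPart, Zagier.quad] using h

theorem T2.arg_path (t : T2) (x y : K) :
    t.arg (six (px x) (pyW y)) =
      RatFunc.X ^ (t.ei 0 + (WW : ℤ) * t.ei 3) * t.unitPart x y := by
  have hX := RatFunc_X_ne (K := K)
  have h1 : (px x) ^ t.ei 0 = RatFunc.C x ^ t.ei 0 * RatFunc.X ^ t.ei 0 := by
    rw [px, mul_zpow]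
  have h2 : (pyW y) ^ t.ei 3 = RatFunc.C y ^ t.ei 3 * RatFunc.X ^ ((WW : ℤ) * t.ei 3) := by
    rw [Zagier.pyW, mul_zpow, ← zpow_natCast, ← zpow_mul]
  rw [T2.arg_six, T2.unitPart, h1, h2, zpow_add₀ hX]
  ring

/-- the exponent of the path parameter -/
def T2.pathOK (t : T2) : Bool :=
  (hdZ t.e == 0 && nthZ t.e 3 == 0) || (hdZ t.e + (WW : ℤ) * nthZ t.e 3 != 0)

theorem T2.spec_zero (t : T2) (ht : t.pathOK = true) {x y : K} (hx : x ≠ 0) (hy : y ≠ 0) :
    ((t.ei 0 = 0 ∧ t.ei 3 = 0) ∧ spec 0 (br (t.arg (six (px x) (pyW y)))) = br (sg K t.s)) ∨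
    (¬ (t.ei 0 = 0 ∧ t.ei 3 = 0) ∧ (spec 0 (br (t.arg (six (px x) (pyW y)))) = br (0 : K) ∨
      spec 0 (br (t.arg (six (px x) (pyW y)))) = brInf K)) := by
  have hu := t.unitPart_val hx hy
  have hv : sg K t.s * (x ^ t.ei 0 * y ^ t.ei 3) ≠ 0 :=
    mul_ne_zero (sg_ne _) (mul_ne_zero (zpow_ne_zero _ hx) (zpow_ne_zero _ hy))
  rw [T2.arg_path]
  by_cases h0 : t.ei 0 = 0 ∧ t.ei 3 = 0
  · left
    refine ⟨h0, ?_⟩
    rw [h0.1, h0.2] at hu ⊢
    have : HasVal (0 : K) (RatFunc.X ^ ((0 : ℤ) + WW * 0) * t.unitPart x y) (sg K t.s) := by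
      simpa using hu
    exact spec_br_val this
  · right
    refine ⟨h0, ?_⟩
    have hne : t.ei 0 + (WW : ℤ) * t.ei 3 ≠ 0 := by
      simp only [T2.pathOK, Bool.or_eq_true, Bool.and_eq_true, beq_iff_eq, bne_iff_ne] at ht
      rcases ht with ht | ht
      · exact absurd ht h0
      · exact ht
    rcases lt_or_gt_of_ne hne with hlt | hgt
    · right
      refine spec_br_inf (mul_ne_zero (zpow_ne_zero _ RatFunc_X_ne) (hu.ne_zero hv)) ?_
      have h2 := (X_zpow_val_zero (K := K) (k := -(t.ei 0 + (WW : ℤ) * t.ei 3)) (by omega)).mul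
        (hu.inv hv)
      rw [zero_mul] at h2
      rw [mul_inv, ← zpow_neg]
      exact h2
    · left
      have h2 := (X_zpow_val_zero (K := K) hgt).mul hu
      rw [zero_mul] at h2
      exact spec_br_val h2

/-- multiplicity of `{1}` at `x = y = 0` -/
def kapP2 (T : List T2) (φ : Fin 6 → ℕ) : ℤ :=
  (T.map fun t => if (t.ei 0 = 0 ∧ t.ei 3 = 0) ∧ t.s = true then t.co φ else 0).sum

/-- multiplicity of `{-1}` at `x = y = 0` -/
def kapM2 (T : List T2) (φ : Fin 6 → ℕ) : ℤ :=
  (T.map fun t => if (t.ei 0 = 0 ∧ t.ei 3 = 0) ∧ t.s = false then t.co φ else 0).sum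

theorem spec_one_fam2 (T : List T2) (φ : Fin 6 → ℕ) {x y : K} (hx : Adm x) (hy : Adm y) :
    spec 1 (fam2 T φ (six (px x) (pyW y))) = fam2 T φ (six x y) := by
  rw [fam2, map_list_sum', fam2]
  congr 1
  refine List.map_congr_left fun t _ => ?_
  rw [map_zsmul, spec_br_val (t.arg_val_one hx hy)]

theorem spec_zero_fam2 {m : ℕ} (hm : 2 ≤ m) (T : List T2) (hT : ∀ t ∈ T, t.pathOK = true)
    (φ : Fin 6 → ℕ) {x y : K} (hx : x ≠ 0) (hy : y ≠ 0) :
    InSat (Rel m K) (spec 0 (fam2 T φ (six (px x) (pyW y))) -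
      (kapP2 T φ • br (1 : K) + kapM2 T φ • br (-1 : K))) := by
  induction T with
  | nil => simpa [fam2, kapP2, kapM2] using InSat.zero
  | cons t T ih =>
    have h1 : spec 0 (fam2 (t :: T) φ (six (px x) (pyW y))) -
        (kapP2 (t :: T) φ • br (1 : K) + kapM2 (t :: T) φ • br (-1 : K)) =
        (spec 0 (fam2 T φ (six (px x) (pyW y))) -
          (kapP2 T φ • br (1 : K) + kapM2 T φ • br (-1 : K))) +
        (t.co φ • spec 0 (br (t.arg (six (px x) (pyW y)))) -
          ((if (t.ei 0 = 0 ∧ t.ei 3 = 0) ∧ t.s = true then t.co φ else 0) • br (1 : K) +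
          (if (t.ei 0 = 0 ∧ t.ei 3 = 0) ∧ t.s = false then t.co φ else 0) • br (-1 : K))) := by
      simp only [fam2, kapP2, kapM2, List.map_cons, List.sum_cons, map_add, map_zsmul, add_smul]
      abel
    rw [h1]
    refine (ih fun t ht => hT t (List.mem_cons_of_mem _ ht)).add ?_
    rcases t.spec_zero (hT t (by simp)) hx hy with ⟨h0, h⟩ | ⟨hne, h⟩
    · rw [h]
      cases hs : t.s
      · simp [h0, sg]; exact InSat.zero
      · simp [h0, sg]; exact InSat.zero
    · simp only [hne, false_and, if_false, zero_smul, add_zero, sub_zero]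
      rcases h with h | h
      · rw [h]; exact (InSat.of_mem (br_zero_mem_rel hm)).zsmul _
      · rw [h]; exact (InSat.of_mem (brInf_mem_rel hm)).zsmul _

/-! ### extra letters do not vanish along the path -/

/-- order of vanishing at `0` -/
def lowP : List ℤ → ℕ
  | [] => 0
  | a :: l => if a = 0 then lowP l + 1 else 0

/-- the lowest term is unique along the path -/
def lowOK : List (List ℤ) → Bool
  | [] => false
  | a :: l => if isZeroP a then lowOK l else decide (lowP a < WW)

variable [CharZero K]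

theorem evP_low {x : K} (hx : x ≠ 0) (p : List ℤ) (h : isZeroP p = false) :
    ∃ (u : RatFunc K) (v : K), evP (px x) p = RatFunc.X ^ lowP p * u ∧ HasVal 0 u v ∧ v ≠ 0 := by
  induction p with
  | nil => simp [isZeroP] at h
  | cons a l ih =>
    by_cases ha : a = 0
    · subst ha
      simp only [isZeroP, beq_self_eq_true, Bool.true_and] at h
      obtain ⟨u, v, h1, h2, h3⟩ := ih h
      refine ⟨RatFunc.C x * u, x * v, ?_, (HasVal.C 0 x).mul h2, mul_ne_zero hx h3⟩
      rw [evP, h1, lowP, if_pos rfl, pow_succ, Int.cast_zero, zero_add, px]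
      ring
    · refine ⟨evP (px x) (a :: l), (a : K), ?_, ?_, by exact_mod_cast ha⟩
      · rw [lowP, if_neg ha, pow_zero, one_mul]
      · have := (px_val_zero x).evP (a :: l)
        simpa [evP] using this

theorem evQ_low {x y : K} (hx : x ≠ 0) (hy : y ≠ 0) (p : List (List ℤ)) (h : lowOK p = true) :
    evQ (px x) (pyW y) p ≠ 0 := by
  induction p with
  | nil => simp [lowOK] at h
  | cons a l ih =>
    rw [lowOK] at h
    split_ifs at h with ha
    · rw [evQ, evP_isZero _ ha, zero_add]
      exact mul_ne_zero (pyW_ne hy) (ih h)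
    · obtain ⟨u, v, h1, h2, h3⟩ := evP_low (K := K) hx a (by simpa using ha)
      have hlt : lowP a < WW := of_decide_eq_true h
      obtain ⟨k, hk⟩ : ∃ k, WW = lowP a + (k + 1) := ⟨WW - lowP a - 1, by omega⟩
      have h4 : evQ (px x) (pyW y) (a :: l) = RatFunc.X ^ lowP a *
          (u + RatFunc.C y * RatFunc.X ^ (k + 1) * evQ (px x) (pyW y) l) := by
        rw [evQ, h1]
        generalize evQ (px x) (pyW y) l = r
        have h6 : (RatFunc.X : RatFunc K) ^ WW = RatFunc.X ^ lowP a * RatFunc.X ^ (k + 1) := by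
          rw [← pow_add, ← hk]
        rw [show pyW y = RatFunc.C y * RatFunc.X ^ WW from rfl, h6]
        ring
      have h5 : HasVal 0 (u + RatFunc.C y * RatFunc.X ^ (k + 1) * evQ (px x) (pyW y) l) v := by
        have h6 := h2.add (((HasVal.C 0 y).mul ((HasVal.X 0).pow (k + 1))).mul
          ((px_val_zero x).evQ (pyW_val_zero y) l))
        simpa using h6
      rw [h4]
      exact mul_ne_zero (pow_ne_zero _ RatFunc_X_ne) (h5.ne_zero h3)

end

/-! ### checking the factorisations -/

/-- the polynomial `x^a (1-x)^b (1-x+x²)^c` with exponents given by a list -/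
def monoA (l : List ℤ) : List ℤ :=
  mono3 ((nthZ l 0).toNat, (nthZ l 1).toNat, (nthZ l 2).toNat)

/-- the polynomial `y^a (1-y)^b (1-y+y²)^c` with exponents given by a list -/
def monoB (l : List ℤ) : List ℤ :=
  mono3 ((nthZ l 3).toNat, (nthZ l 4).toNat, (nthZ l 5).toNat)

/-- the monomial in the six letters -/
def mono6 (l : List ℤ) : List (List ℤ) := outer (monoA l) (monoB l)

/-- product of extra letters -/
def prodQ (P : List (List (List ℤ))) : List (ℕ × ℕ) → List (List ℤ)
  | [] => [[1]]
  | p :: l => mulQ (powQ (P.getD p.1 [[1]]) p.2) (prodQ P l)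

/-- denominator exponents -/
def dens : List ℤ → List ℤ
  | [] => []
  | a :: l => (if a < 0 then -a else 0) :: dens l

/-- sum of exponents -/
def addE : List ℤ → List ℤ → List ℤ
  | a :: l, b :: m => (a + b) :: addE l m
  | _, _ => []

/-- no negative exponents -/
def nonneg : List ℤ → Bool
  | [] => true
  | a :: l => decide (0 ≤ a) && nonneg l

/-- the factorisation of `1 - f` -/
def T2.ok (P : List (List (List ℤ))) (t : T2) : Bool :=
  t.e.length == 6 && (t.w.length == 6 &&
  (nonneg (addE t.w (dens t.e)) &&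
  eqQ (addQ (mono6 (dens t.e)) (smulQ [-(sgi t.s)] (mono6 (addE t.e (dens t.e)))))
    (smulQ [sgi t.s'] (mulQ (mono6 (addE t.w (dens t.e))) (prodQ P t.z)))))

section

variable {K : Type u} [Field K]

theorem evQ_mono6 (x y : K) (l : List ℤ) : evQ x y (mono6 l) =
    ∏ i : Fin 6, six x y i ^ (nthZ l i).toNat := by
  rw [mono6, evQ_outer, monoA, monoB, evP_mono3, evP_mono3, Fin.prod_univ_six]
  simp only [six]
  simp only [Matrix.cons_val]
  ring_nf
  rfl

theorem evQ_prodQ (x y : K) (P : List (List (List ℤ))) (z : List (ℕ × ℕ)) :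
    evQ x y (prodQ P z) = (z.map fun p => evQ x y (P.getD p.1 [[1]]) ^ p.2).prod := by
  induction z with
  | nil => simp [prodQ, evQ, evP]
  | cons p z ih => simp [prodQ, evQ_mul, evQ_pow, ih]

theorem nthZ_addE {l m : List ℤ} (h : l.length = m.length) (i : ℕ) :
    nthZ (addE l m) i = nthZ l i + nthZ m i := by
  induction l generalizing m i with
  | nil =>
    obtain rfl := List.length_eq_zero_iff.1 h.symm
    have : ∀ i, nthZ [] i = 0 := by
      intro i
      induction i with
      | zero => rfl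
      | succ i ih => exact ih
    rw [addE, this, add_zero]
    simp
  | cons a l ih =>
    obtain _ | ⟨b, m⟩ := m
    · simp at h
    · cases i with
      | zero => rfl
      | succ i => exact ih (by simpa using h) i

theorem dens_length (l : List ℤ) : (dens l).length = l.length := by
  induction l with
  | nil => rfl
  | cons a l ih => simp [dens, ih]

theorem nthZ_nil (i : ℕ) : nthZ [] i = 0 := by
  induction i with
  | zero => rfl
  | succ i ih => exact ih

theorem nthZ_dens (l : List ℤ) (i : ℕ) :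
    nthZ (dens l) i = if nthZ l i < 0 then -(nthZ l i) else 0 := by
  induction l generalizing i with
  | nil => simp [dens, nthZ_nil]
  | cons a l ih =>
    cases i with
    | zero => rfl
    | succ i => exact ih i

theorem nonneg_nthZ {l : List ℤ} (h : nonneg l = true) (i : ℕ) : 0 ≤ nthZ l i := by
  induction l generalizing i with
  | nil => rw [nthZ_nil]
  | cons a l ih =>
    simp only [nonneg, Bool.and_eq_true, decide_eq_true_eq] at h
    cases i with
    | zero => exact h.1
    | succ i => exact ih h.2 i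

theorem T2.one_sub (P : List (List (List ℤ))) (t : T2) (h : t.ok P = true) {x y : K}
    (hx : Adm x) (hy : Adm y) :
    1 - t.arg (six x y) = (sg K t.s' * ∏ i, six x y i ^ t.wi i) *
      (t.z.map fun p => evQ x y (P.getD p.1 [[1]]) ^ p.2).prod := by
  simp only [T2.ok, Bool.and_eq_true, beq_iff_eq] at h
  obtain ⟨he, hw, hn, hq⟩ := h
  have hb := six_ne hx hy
  have h1 := evQ_eq x y hq
  rw [evQ_add, evQ_smul, evQ_smul, evQ_mul, evQ_mono6, evQ_mono6, evQ_mono6, evQ_prodQ] at h1
  simp only [evP, Int.cast_neg, mul_zero, add_zero, sgi_cast] at h1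
  set Z := (t.z.map fun p => evQ x y (P.getD p.1 [[1]]) ^ p.2).prod
  set D : K := ∏ i : Fin 6, six x y i ^ (nthZ (dens t.e) i).toNat with hD
  have hD0 : D ≠ 0 := Finset.prod_ne_zero_iff.2 fun i _ => pow_ne_zero _ (hb i)
  have hd0 : ∀ i, 0 ≤ nthZ (dens t.e) i := fun i => by
    rw [nthZ_dens]; split_ifs <;> omega
  have hE : ∏ i : Fin 6, six x y i ^ (nthZ (addE t.e (dens t.e)) i).toNat =
      (∏ i : Fin 6, six x y i ^ t.ei i) * D := by
    rw [hD, ← Finset.prod_mul_distrib]
    refine Finset.prod_congr rfl fun i _ => ?_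
    have h2 : nthZ (addE t.e (dens t.e)) i = t.ei i + nthZ (dens t.e) i :=
      nthZ_addE (by rw [dens_length]) i
    have h3 : 0 ≤ nthZ (addE t.e (dens t.e)) i := by
      rw [h2, T2.ei, nthZ_dens]; split_ifs <;> omega
    rw [← zpow_natCast, ← zpow_natCast, Int.toNat_of_nonneg h3, Int.toNat_of_nonneg (hd0 _), h2,
      zpow_add₀ (hb i)]
  have hW : ∏ i : Fin 6, six x y i ^ (nthZ (addE t.w (dens t.e)) i).toNat =
      (∏ i : Fin 6, six x y i ^ t.wi i) * D := by
    rw [hD, ← Finset.prod_mul_distrib]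
    refine Finset.prod_congr rfl fun i _ => ?_
    have h2 : nthZ (addE t.w (dens t.e)) i = t.wi i + nthZ (dens t.e) i :=
      nthZ_addE (by rw [dens_length, he, hw]) i
    have h3 : 0 ≤ nthZ (addE t.w (dens t.e)) i := nonneg_nthZ hn i
    rw [← zpow_natCast, ← zpow_natCast, Int.toNat_of_nonneg h3, Int.toNat_of_nonneg (hd0 _), h2,
      zpow_add₀ (hb i)]
  rw [hE, hW] at h1
  rw [T2.arg]
  refine mul_right_cancel₀ hD0 ?_
  linear_combination h1

end

/-! ### the main criterion -/

/-- adding a term unless its coefficient is zero -/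
def consNZ (a : ℤ) (e : List ℤ) (L : List (ℤ × List ℤ)) : List (ℤ × List ℤ) :=
  bif isz a then L else (a, e) :: L

/-- the data for the symbol check of two of the six letters -/
def pairL (i j : ℕ) : List T2 → List (ℤ × List ℤ)
  | [] => []
  | t :: T => consNZ (Int.mul t.c (Int.sub (Int.mul (nthZ t.w i) (nthZ t.e j))
      (Int.mul (nthZ t.w j) (nthZ t.e i)))) t.e (pairL i j T)

/-- total multiplicity of an extra letter -/
def zkZ (k : ℕ) : List (ℕ × ℕ) → ℤ
  | [] => 0
  | p :: z => bif Nat.beq p.1 k then Int.add (p.2 : ℤ) (zkZ k z) else zkZ k z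

/-- the data for the symbol check of an extra letter -/
def extraL (k : ℕ) : List T2 → List (ℤ × List ℤ)
  | [] => []
  | t :: T => consNZ (Int.mul t.c (zkZ k t.z)) t.e (extraL k T)

/-- the data for the check of the constants -/
def constL (m : ℕ) : List T2 → List (ℤ × List ℤ)
  | [] => []
  | t :: T => bif and (isz (hdZ t.e)) (isz (nthZ t.e 3)) then
      (t.c * (if t.s then 2 ^ (m - 1) else -(2 ^ (m - 1) - 1)), t.e) :: constL m T
      else constL m T

/-- the checks on the terms of a family -/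
def famChkA (P : List (List (List ℤ))) (T : List T2) : Bool :=
  T.all fun t => t.ok P && (t.z.all (fun p => decide (p.1 < P.length)) && t.pathOK)

theorem famChkA_append {P : List (List (List ℤ))} {T T' : List T2} (h : famChkA P T = true)
    (h' : famChkA P T' = true) : famChkA P (T ++ T') = true := by
  rw [famChkA, List.all_append, Bool.and_eq_true]
  exact ⟨h, h'⟩

/-- the check of the symbol for two of the six letters -/
def famChkB (n : ℕ) (T : List T2) (i j : ℕ) : Bool := chk 6 (n - 2) (pairL i j T)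

/-- the check of the symbol for the extra letters with numbers `lo, …, lo + len - 1` -/
def famChkC (n : ℕ) (T : List T2) (lo : ℕ) : ℕ → Bool
  | 0 => true
  | len + 1 => and (chk 6 (n - 1) (extraL lo T)) (famChkC n T (lo + 1) len)

theorem famChkC_mem {n : ℕ} {T : List T2} {lo len : ℕ} (h : famChkC n T lo len = true) (k : ℕ)
    (h1 : lo ≤ k) (h2 : k < lo + len) : chk 6 (n - 1) (extraL k T) = true := by
  induction len generalizing lo with
  | zero => omega
  | succ len ih =>
    rw [famChkC, Bool.and_eq_true] at h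
    rcases Nat.eq_or_lt_of_le h1 with h3 | h3
    · rw [← h3]; exact h.1
    · exact ih h.2 h3 (by omega)

/-- the check of the constants -/
def famChkD (n : ℕ) (T : List T2) : Bool :=
  (List.range n).all fun m => decide (m < 2) || (m % 2 == 0) || chk 6 (n - m) (constL m T)

/-- the checks on a family -/
structure FamOK2 (n : ℕ) (P : List (List (List ℤ))) (T : List T2) : Prop where
  /-- terms -/
  a : famChkA P T = true
  /-- letters do not vanish along the path -/
  p : P.all (fun p => lowOK p) = true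
  /-- letters -/
  b : ∀ i : Fin 6, ∀ j < (i : ℕ), famChkB n T i j = true
  /-- extra letters -/
  c : ∀ k < P.length, chk 6 (n - 1) (extraL k T) = true
  /-- constants -/
  d : famChkD n T = true

theorem famChkB_all {n : ℕ} {T : List T2}
    (h10 : famChkB n T 1 0 = true) (h20 : famChkB n T 2 0 = true) (h21 : famChkB n T 2 1 = true)
    (h30 : famChkB n T 3 0 = true) (h31 : famChkB n T 3 1 = true) (h32 : famChkB n T 3 2 = true)
    (h40 : famChkB n T 4 0 = true) (h41 : famChkB n T 4 1 = true) (h42 : famChkB n T 4 2 = true)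
    (h43 : famChkB n T 4 3 = true) (h50 : famChkB n T 5 0 = true) (h51 : famChkB n T 5 1 = true)
    (h52 : famChkB n T 5 2 = true) (h53 : famChkB n T 5 3 = true) (h54 : famChkB n T 5 4 = true) :
    ∀ i : Fin 6, ∀ j < (i : ℕ), famChkB n T i j = true := by
  intro i j hj
  fin_cases i
  · exact absurd hj (Nat.not_lt_zero j)
  · change j < 1 at hj
    obtain rfl : j = 0 := by omega
    exact h10
  · change j < 2 at hj
    obtain rfl | rfl : j = 0 ∨ j = 1 := by omega
    · exact h20
    · exact h21
  · change j < 3 at hj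
    obtain rfl | rfl | rfl : j = 0 ∨ j = 1 ∨ j = 2 := by omega
    · exact h30
    · exact h31
    · exact h32
  · change j < 4 at hj
    obtain rfl | rfl | rfl | rfl : j = 0 ∨ j = 1 ∨ j = 2 ∨ j = 3 := by omega
    · exact h40
    · exact h41
    · exact h42
    · exact h43
  · change j < 5 at hj
    obtain rfl | rfl | rfl | rfl | rfl : j = 0 ∨ j = 1 ∨ j = 2 ∨ j = 3 ∨ j = 4 := by omega
    · exact h50
    · exact h51
    · exact h52
    · exact h53
    · exact h54

theorem sumM_consNZ (a : ℤ) (e : List ℤ) (L : List (ℤ × List ℤ)) (l : List ℕ) :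
    sumM (consNZ a e L) l = a * monZ e l + sumM L l := by
  rw [consNZ]
  cases h : isz a
  · rw [cond_false]; simp [sumM]
  · rw [isz_iff] at h
    rw [cond_true, h, zero_mul, zero_add]

theorem zkZ_eq (t : T2) (k : ℕ) : zkZ k t.z = t.zk k := by
  rw [T2.zk]
  induction t.z with
  | nil => rfl
  | cons p z ih =>
    rw [zkZ, List.map_cons, List.sum_cons, ih]
    by_cases h : p.1 = k
    · have h1 : Nat.beq p.1 k = true := by rw [h]; exact Nat.beq_refl k
      rw [h1, cond_true, if_pos h]; rfl
    · have h1 : Nat.beq p.1 k = false := by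
        rw [Bool.eq_false_iff]
        exact fun h' => h (Nat.eq_of_beq_eq_true h')
      rw [h1, cond_false, if_neg h, zero_add]

theorem co_eq (t : T2) (φ : Fin 6 → ℕ) : t.co φ = t.c * monZ t.e (List.ofFn φ) := by
  rw [monZ_ofFn]; rfl

theorem sumM_pairL (i j : Fin 6) (T : List T2) (φ : Fin 6 → ℕ) :
    sumM (pairL i j T) (List.ofFn φ) =
      (T.map fun t => t.co φ * (t.wi i * t.ei j)).sum -
        (T.map fun t => t.co φ * (t.wi j * t.ei i)).sum := by
  induction T with
  | nil => simp [pairL, sumM]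
  | cons t T ih =>
    rw [pairL, sumM_consNZ, ih, List.map_cons, List.sum_cons, List.map_cons, List.sum_cons,
      co_eq, T2.wi, T2.wi, T2.ei, T2.ei]
    have hsub : ∀ a b : ℤ, Int.sub a b = a - b := fun _ _ => rfl
    simp only [Int.mul_def, hsub]
    ring

theorem sumM_extraL (k : ℕ) (T : List T2) (a : List ℕ) :
    sumM (extraL k T) a = (T.map fun t => t.c * monZ t.e a * t.zk k).sum := by
  induction T with
  | nil => simp [extraL, sumM]
  | cons t T ih =>
    rw [extraL, sumM_consNZ, ih, List.map_cons, List.sum_cons, zkZ_eq, Int.mul_def]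
    ring

theorem sumM_constL (m : ℕ) (T : List T2) (φ : Fin 6 → ℕ) :
    sumM (constL m T) (List.ofFn φ) = 2 ^ (m - 1) * kapP2 T φ -
      (2 ^ (m - 1) - 1) * kapM2 T φ := by
  induction T with
  | nil => simp [constL, sumM, kapP2, kapM2]
  | cons t T ih =>
    have h1 : kapP2 (t :: T) φ = (if (t.ei 0 = 0 ∧ t.ei 3 = 0) ∧ t.s = true then t.co φ else 0) +
      kapP2 T φ := by simp [kapP2]
    have h2 : kapM2 (t :: T) φ = (if (t.ei 0 = 0 ∧ t.ei 3 = 0) ∧ t.s = false then t.co φ else 0) +
      kapM2 T φ := by simp [kapM2]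
    have h3 : (and (isz (hdZ t.e)) (isz (nthZ t.e 3)) = true) ↔ (t.ei 0 = 0 ∧ t.ei 3 = 0) := by
      rw [Bool.and_eq_true, isz_iff, isz_iff]; rfl
    rw [constL, h1, h2]
    by_cases h : t.ei 0 = 0 ∧ t.ei 3 = 0
    · rw [h3.2 h, cond_true]
      simp only [sumM, List.map_cons, List.sum_cons] at ih ⊢
      rw [ih, co_eq]
      cases hs : t.s
      · simp [h]; ring
      · simp [h]; ring
    · rw [Bool.eq_false_iff.2 (fun h' => h (h3.1 h')), cond_false, ih]
      simp [h]

theorem sum_add_single (φ : Fin 6 → ℕ) (i : Fin 6) :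
    ∑ j, (φ + Pi.single i 1 : Fin 6 → ℕ) j = ∑ j, φ j + 1 := by
  simp only [Pi.add_apply, Finset.sum_add_distrib]
  rw [Finset.sum_pi_single']
  simp

theorem fam2_inSat (n : ℕ) (P : List (List (List ℤ))) (T : List T2) (h : FamOK2 n P T)
    (m : ℕ) (hm : 2 ≤ m) : ∀ φ : Fin 6 → ℕ, ∑ i, φ i + m = n →
    ∀ (K : Type u) [Field K] [CharZero K] (x y : K), Adm x → Adm y →
      InSat (Rel m K) (fam2 T φ (six x y) -
        (kapP2 T φ • br (1 : K) + kapM2 T φ • br (-1 : K))) := by
  obtain ⟨hT, hP, hpair, hextra, hconst⟩ := h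
  simp only [famChkA, famChkB, famChkD, Bool.and_eq_true, List.all_eq_true,
    decide_eq_true_eq, List.mem_range, Bool.or_eq_true, beq_iff_eq] at hT hP hpair hconst
  have hpath : ∀ t ∈ T, t.pathOK = true := fun t ht => (hT t ht).2.2
  induction m, hm using Nat.le_induction with
  | base =>
    intro φ hφ K _ _ x y hx hy
    have := charZero_ratFunc K
    have hℓ : ∀ k, evQ (px x) (pyW y) (P.getD k [[1]]) ≠ 0 := by
      intro k
      refine evQ_low hx.1 hy.1 _ ?_
      by_cases hk : k < P.length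
      · rw [List.getD_eq_getElem _ _ hk]
        exact hP _ (List.getElem_mem hk)
      · rw [List.getD_eq_default _ _ (by omega)]
        decide
    have hpairS : ∀ i j : Fin 6, j < i → (T.map fun t => t.co φ * (t.wi i * t.ei j)).sum =
        (T.map fun t => t.co φ * (t.wi j * t.ei i)).sum := by
      intro i j hij
      have h1 := chk_spec 6 (n - 2) _ (hpair i j hij) (List.ofFn φ) (by simp)
        (by rw [List.sum_ofFn]; omega)
      rw [sumM_pairL] at h1
      exact sub_eq_zero.1 h1
    have h1 : IsTor (delta2 (RatFunc K) (fam2 T φ (six (px x) (pyW y)))) := by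
      refine base_tor2 T P.length φ _ (six_ne hx.px hy.pyW)
        (fun k => evQ (px x) (pyW y) (P.getD k [[1]])) hℓ ?_ ?_ ?_ ?_
      · intro t ht
        rw [List.all_eq_true]
        intro p hp
        exact decide_eq_true ((hT t ht).2.1 p hp)
      · intro t ht
        exact t.one_sub P (hT t ht).1 hx.px hy.pyW
      · intro i j
        rcases lt_trichotomy i j with hij | hij | hij
        · exact (hpairS j i hij).symm
        · rw [hij]
        · exact hpairS i j hij
      · intro k hk j
        have h1 := chk_spec 6 (n - 1) _ (hextra k hk) (List.ofFn (φ + Pi.single j 1)) (by simp)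
          (by rw [List.sum_ofFn, sum_add_single]; omega)
        rw [sumM_extraL] at h1
        rw [← h1]
        congr 1
        refine List.map_congr_left fun t _ => ?_
        rw [← co_eq, T2.co_add]
        ring
    have h2 := inSat_of_isTor_two h1
    rw [spec_one_fam2 T _ hx hy] at h2
    have h3 := (spec_zero_fam2 (le_refl 2) T hpath φ hx.1 hy.1).sub h2
    convert h3 using 1
    abel
  | succ m hm ih =>
    intro φ hφ K _ _ x y hx hy
    have := charZero_ratFunc K
    have key : ∀ i : Fin 6,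
        InSat (Rel m (RatFunc K)) (fam2 T (φ + Pi.single i 1) (six (px x) (pyW y))) := by
      intro i
      have hs : ∑ j, (φ + Pi.single i 1 : Fin 6 → ℕ) j + m = n := by
        rw [sum_add_single]; omega
      have h2 := ih _ hs (RatFunc K) (px x) (pyW y) hx.px hy.pyW
      have h3 := const_inSat hm (RatFunc K) (kapP2 T (φ + Pi.single i 1))
        (kapM2 T (φ + Pi.single i 1)) (by
        rcases hconst m (by omega) with (h | h) | h
        · omega
        · exact Or.inl (Nat.even_iff.2 h)
        · refine Or.inr ?_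
          have h1 := chk_spec 6 (n - m) _ h (List.ofFn (φ + Pi.single i 1)) (by simp)
            (by rw [List.sum_ofFn]; omega)
          rw [sumM_constL] at h1
          exact sub_eq_zero.1 h1)
      have h4 := h2.add h3
      rwa [sub_add_cancel] at h4
    have h1 : IsTor (deltaOf (Rel m (RatFunc K)) (fam2 T φ (six (px x) (pyW y)))) :=
      step_tor2 _ T φ _ (six_ne hx.px hy.pyW) key
    have h2 := inSat_of_isTor' hm h1
    rw [spec_one_fam2 T _ hx hy] at h2
    have h3 := (spec_zero_fam2 (by omega : 2 ≤ m + 1) T hpath φ hx.1 hy.1).sub h2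
    convert h3 using 1
    abel

end Pool.Agent.Zagier
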