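import Pool.Agent.Zagier.SqrtFive
import Pool.Agent.Zagier.FieldAW5
import Pool.Agent.Zagier.FieldBW5
import Pool.Agent.Zagier.FieldCW5
import Pool.Agent.Zagier.FieldDW5
import Pool.Agent.Zagier.FieldEW5
import Pool.Agent.Zagier.FieldF2W5
import Pool.Agent.Zagier.FieldGW5
import Pool.Agent.Zagier.FieldHW5
import Pool.Agent.Zagier.FieldAW6
import Pool.Agent.Zagier.FieldCW6
import Pool.Agent.Zagier.FieldGW6

/-!
# Weights five and six: fields with two places and exceptional units
-/

open NumberField

namespace Pool.Agent.Zagier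

universe u

theorem uniform_five (F : Type u) [Field F] [NumberField F]
    (hF : Fintype.card (InfinitePlace F) = 2) (t : 𝓞 F) (h0 : IsUnit t) (h1 : IsUnit (1 - t))
    (h2 : (t : F) ^ 2 - t + 1 ≠ 0) :
    RegulatorNonvanishing 5 F := by
  rcases exc_root hF t h0 h1 h2 with h | (h | h) | h
  · exact weight_five_sqrt_five F hF h
  · exact mA_weight5 hF h
  · exact mB_weight5 hF h
  · rcases h with h | h | h | h | h | h
    · exact mC_weight5 hF h
    · exact mD_weight5 hF h
    · exact mE_weight5 hF h
    · exact mF2_weight5 hF h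
    · exact mG_weight5 hF h
    · exact mH_weight5 hF h

theorem uniform_six (F : Type u) [Field F] [NumberField F]
    (hF : Fintype.card (InfinitePlace F) = 2) (t : 𝓞 F) (h0 : IsUnit t) (h1 : IsUnit (1 - t))
    (h2 : IsUnit (1 - t + t ^ 2)) : RegulatorNonvanishing 6 F := by
  rcases tun_root hF t h0 h1 h2 with h | h | h
  · exact mA_weight6 h
  · exact mC_weight6 hF h
  · exact mG_weight6 hF h

end Pool.Agent.Zagier
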