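import Pool.Agent.Zagier.FieldAW7
import Pool.Agent.Zagier.FieldAW8
import Pool.Agent.Zagier.FieldCW7
import Pool.Agent.Zagier.FieldCW8
import Pool.Agent.Zagier.FieldGW7
import Pool.Agent.Zagier.FieldGW8

/-!
# Weights seven and eight: fields with two places and units `t, 1 - t, 1 - t + t²`
-/

open NumberField

namespace Pool.Agent.Zagier

universe u

theorem uniform_seven (F : Type u) [Field F] [NumberField F]
    (hF : Fintype.card (InfinitePlace F) = 2) (t : 𝓞 F) (h0 : IsUnit t) (h1 : IsUnit (1 - t))
    (h2 : IsUnit (1 - t + t ^ 2)) : RegulatorNonvanishing 7 F := by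
  rcases tun_root hF t h0 h1 h2 with h | h | h
  · exact mA_weight7 hF h
  · exact mC_weight7 hF h
  · exact mG_weight7 hF h

theorem uniform_eight (F : Type u) [Field F] [NumberField F]
    (hF : Fintype.card (InfinitePlace F) = 2) (t : 𝓞 F) (h0 : IsUnit t) (h1 : IsUnit (1 - t))
    (h2 : IsUnit (1 - t + t ^ 2)) : RegulatorNonvanishing 8 F := by
  rcases tun_root hF t h0 h1 h2 with h | h | h
  · exact mA_weight8 h
  · exact mC_weight8 hF h
  · exact mG_weight8 hF h

end Pool.Agent.Zagier
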