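import Pool.Agent.Zagier.UniformFiveSix
import Pool.Agent.Zagier.FieldB3W6
import Pool.Agent.Zagier.FieldDW6
import Pool.Agent.Zagier.FieldE3W6
import Pool.Agent.Zagier.FieldF2W6
import Pool.Agent.Zagier.FieldHW6

/-!
# Weight six: fields with two places generated by an exceptional unit
-/

open NumberField

namespace Pool.Agent.Zagier

universe u

/-- no condition in even weight if there are no complex places -/
theorem regulator_even_of_finrank_two {F : Type u} [Field F] [NumberField F] {n : ℕ}
    (hn : Even n) (hF : Fintype.card (InfinitePlace F) = 2) (h2 : Module.finrank ℚ F = 2) :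
    RegulatorNonvanishing n F := by
  classical
  have h3 := InfinitePlace.card_add_two_mul_card_eq_rank F
  have h4 := InfinitePlace.card_eq_nrRealPlaces_add_nrComplexPlaces F
  rw [h2] at h3
  rw [hF] at h4
  have h5 : InfinitePlace.nrComplexPlaces F = 0 := by omega
  have h6 : IsEmpty {w : InfinitePlace F // w.IsComplex} := Fintype.card_eq_zero_iff.1 h5
  have h7 : IsEmpty (Places n F) := by
    refine ⟨fun v => ?_⟩
    rcases v.2 with ho | hc
    · exact (Nat.not_odd_iff_even.2 hn) ho
    · exact h6.false ⟨v.1, hc⟩
  refine ⟨fun v => (h7.false v).elim, fun v => (h7.false v).elim, ?_⟩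
  rw [Matrix.det_isEmpty]
  exact one_ne_zero

theorem uniform_six_gen (F : Type u) [Field F] [NumberField F]
    (hF : Fintype.card (InfinitePlace F) = 2) (t : 𝓞 F) (h0 : IsUnit t) (h1 : IsUnit (1 - t))
    (htop : IntermediateField.adjoin ℚ {(t : F)} = ⊤) :
    RegulatorNonvanishing 6 F := by
  rcases exc_root_gen hF t h0 h1 htop with h | (h | h) | h
  · exact regulator_even_of_finrank_two (by decide) hF h
  · exact mA_weight6 h
  · exact mB3_weight6 h
  · rcases h with h | h | h | h | h | h
    · exact mC_weight6 hF h
    · exact mD_weight6 hF h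
    · exact mE3_weight6 hF h
    · exact mF2_weight6 hF h
    · exact mG_weight6 hF h
    · exact mH_weight6 hF h

end Pool.Agent.Zagier
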