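import Mathlib

/-!
# Norms of units and minimal polynomials
-/

open Polynomial NumberField IntermediateField

namespace Pool.Agent.Zagier

universe u

section

variable {F : Type u} [Field F] [NumberField F]

/-- the number `[F : ℚ(t)]` -/
noncomputable def relDeg (t : F) : ℕ := Module.finrank ℚ F / (minpoly ℚ t).natDegree

theorem relDeg_eq (t : F) : relDeg t = Module.finrank ℚ⟮t⟯ F := by
  have h1 : Module.finrank ℚ ℚ⟮t⟯ = (minpoly ℚ t).natDegree :=
    adjoin.finrank (Algebra.IsIntegral.isIntegral t)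
  have h2 := Module.finrank_mul_finrank ℚ ℚ⟮t⟯ F
  have h3 : 0 < (minpoly ℚ t).natDegree :=
    minpoly.natDegree_pos (Algebra.IsIntegral.isIntegral t)
  rw [relDeg, ← h2, h1, Nat.mul_div_cancel_left _ h3]

theorem relDeg_pos (t : F) : 0 < relDeg t := by
  rw [relDeg_eq]; exact Module.finrank_pos

theorem norm_eq_coeff (t : F) : Algebra.norm ℚ t =
    ((-1) ^ (minpoly ℚ t).natDegree * (minpoly ℚ t).coeff 0) ^ relDeg t := by
  rw [Algebra.norm_eq_norm_adjoin, relDeg_eq]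
  have hint : IsIntegral ℚ t := Algebra.IsIntegral.isIntegral t
  have h1 := Algebra.PowerBasis.norm_gen_eq_coeff_zero_minpoly (adjoin.powerBasis hint)
  rw [adjoin.powerBasis_gen hint] at h1
  rw [h1, minpoly_gen]
  congr 2

theorem minpoly_sub_intCast (t : F) (m : ℤ) :
    minpoly ℚ (t - m) = (minpoly ℚ t).comp (X + C (m : ℚ)) := by
  have := minpoly.sub_algebraMap (A := ℚ) t (m : ℚ)
  simpa using this

theorem norm_sub_intCast (t : F) (m : ℤ) : Algebra.norm ℚ (t - m) =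
    ((-1) ^ (minpoly ℚ t).natDegree * (minpoly ℚ t).eval (m : ℚ)) ^ relDeg t := by
  have h1 := minpoly_sub_intCast t m
  have h2 : (minpoly ℚ (t - m)).natDegree = (minpoly ℚ t).natDegree := by
    rw [h1, natDegree_comp, natDegree_X_add_C, mul_one]
  rw [norm_eq_coeff, relDeg, relDeg, h2, h1]
  congr 2
  rw [coeff_zero_eq_eval_zero, eval_comp]
  simp

/-- product over embeddings -/
theorem prod_embeddings_sub (t : F) (z : ℂ) : ∏ σ : F →ₐ[ℚ] ℂ, (σ t - z) =
    ((-1) ^ (minpoly ℚ t).natDegree * aeval z (minpoly ℚ t)) ^ relDeg t := by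
  have key : (∏ σ : F →ₐ[ℚ] ℂ, (C (σ t) - X) : ℂ[X]) =
      (C ((-1) ^ (minpoly ℚ t).natDegree) * (minpoly ℚ t).map (algebraMap ℚ ℂ)) ^ relDeg t := by
    refine eq_of_infinite_eval_eq _ _ ?_
    have hinj : Function.Injective (fun m : ℕ => ((m : ℤ) : ℂ)) := by
      intro a b h
      simpa using h
    refine Set.infinite_of_injective_forall_mem hinj fun m => ?_
    change eval _ _ = eval _ _
    have h1 := norm_sub_intCast t (m : ℤ)
    have h2 := Algebra.norm_eq_prod_embeddings ℚ ℂ (t - ((m : ℤ) : F))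
    rw [h1] at h2
    simp only [map_sub, map_intCast] at h2
    rw [eval_prod]
    simp only [eval_sub, eval_C, eval_X, eval_pow, eval_mul]
    rw [← h2, map_pow, map_mul, map_pow, map_neg, map_one]
    congr 2
    rw [eval_map_algebraMap, aeval_def, ← eval₂_at_apply]
    simp
  have h := congrArg (eval z) key
  rw [eval_prod] at h
  simp only [eval_sub, eval_C, eval_X, eval_pow, eval_mul, eval_map_algebraMap] at h
  exact h

/-- the minimal polynomial over the integers -/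
noncomputable abbrev mp (t : F) : ℤ[X] := minpoly ℤ t

theorem minpoly_eq_map {t : F} (ht : IsIntegral ℤ t) :
    minpoly ℚ t = (mp t).map (algebraMap ℤ ℚ) :=
  minpoly.isIntegrallyClosed_eq_field_fractions' ℚ ht

theorem eval_minpoly {t : F} (ht : IsIntegral ℤ t) (m : ℤ) :
    (minpoly ℚ t).eval (m : ℚ) = (((mp t).eval m : ℤ) : ℚ) := by
  rw [minpoly_eq_map ht, eval_intCast_map]
  simp

theorem abs_norm_of_isUnit (s : 𝓞 F) (h : IsUnit s) : |Algebra.norm ℚ (s : F)| = 1 := by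
  have := NumberField.isUnit_iff_norm.1 h
  rwa [RingOfIntegers.coe_norm] at this

theorem abs_eval_of_isUnit (t : 𝓞 F) (m : ℤ) (h : IsUnit (t - m)) :
    |(mp (t : F)).eval m| = 1 := by
  have h1 := abs_norm_of_isUnit _ h
  have h2 : ((t - m : 𝓞 F) : F) = (t : F) - m := by
    simp
  rw [h2, norm_sub_intCast, abs_pow, abs_mul, abs_pow, abs_neg, abs_one, one_pow, one_mul,
    eval_minpoly t.isIntegral_coe] at h1
  have h3 := (pow_eq_one_iff_of_nonneg (abs_nonneg _) (relDeg_pos (t : F)).ne').1 h1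
  exact_mod_cast h3

theorem norm_quad (t : F) (z₁ z₂ : ℂ) (h1 : z₁ + z₂ = 1) (h2 : z₁ * z₂ = 1) :
    ((Algebra.norm ℚ (1 - t + t ^ 2) : ℚ) : ℂ) =
    (aeval z₁ (minpoly ℚ t) * aeval z₂ (minpoly ℚ t)) ^ relDeg t := by
  have h3 := Algebra.norm_eq_prod_embeddings ℚ ℂ (1 - t + t ^ 2)
  have h4 : ∏ σ : F →ₐ[ℚ] ℂ, σ (1 - t + t ^ 2) =
      (∏ σ : F →ₐ[ℚ] ℂ, (σ t - z₁)) * ∏ σ : F →ₐ[ℚ] ℂ, (σ t - z₂) := by
    rw [← Finset.prod_mul_distrib]
    refine Finset.prod_congr rfl fun σ _ => ?_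
    rw [map_add, map_sub, map_one, map_pow]
    linear_combination (σ t) * h1 - h2
  rw [h4, prod_embeddings_sub, prod_embeddings_sub, ← mul_pow] at h3
  have h5 : (-1 : ℂ) ^ (minpoly ℚ t).natDegree * (-1 : ℂ) ^ (minpoly ℚ t).natDegree = 1 := by
    rw [← mul_pow]; simp
  rw [show ((Algebra.norm ℚ (1 - t + t ^ 2) : ℚ) : ℂ) =
    algebraMap ℚ ℂ (Algebra.norm ℚ (1 - t + t ^ 2)) from rfl, h3]
  congr 1
  linear_combination (aeval z₁ (minpoly ℚ t) * aeval z₂ (minpoly ℚ t)) * h5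

theorem normform_of_isUnit (t : 𝓞 F) (h : IsUnit (1 - t + t ^ 2)) (α β : ℤ)
    (hz : ∀ z : ℂ, z ^ 2 = z - 1 → aeval z (mp (t : F)) = α * z + β) :
    α ^ 2 + α * β + β ^ 2 = 1 := by
  obtain ⟨z, hz0⟩ : ∃ z : ℂ, z ^ 2 = z - 1 := by
    obtain ⟨z, hz⟩ := IsAlgClosed.exists_root (X ^ 2 - X + 1 : ℂ[X]) (by
      have : (X ^ 2 - X + 1 : ℂ[X]).degree = 2 := by compute_degree!
      rw [this]; norm_num)
    refine ⟨z, ?_⟩
    simp only [IsRoot.def, eval_add, eval_sub, eval_pow, eval_X, eval_one] at hz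
    linear_combination hz
  have hz1 : (1 - z) ^ 2 = (1 - z) - 1 := by linear_combination hz0
  have hm : ∀ w : ℂ, aeval w (minpoly ℚ (t : F)) = aeval w (mp (t : F)) := by
    intro w
    rw [minpoly_eq_map t.isIntegral_coe, aeval_map_algebraMap]
  have h3 := norm_quad (t : F) z (1 - z) (by ring) (by linear_combination -hz0)
  rw [hm, hm, hz z hz0, hz (1 - z) hz1] at h3
  have h4 : ((α : ℂ) * z + β) * (α * (1 - z) + β) = ((α ^ 2 + α * β + β ^ 2 : ℤ) : ℂ) := by
    push_cast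
    linear_combination (-(α : ℂ) ^ 2) * hz0
  rw [h4] at h3
  have h5 := abs_norm_of_isUnit _ h
  have h6 : ((1 - t + t ^ 2 : 𝓞 F) : F) = 1 - (t : F) + (t : F) ^ 2 := by simp
  rw [h6] at h5
  have h7 : Algebra.norm ℚ (1 - (t : F) + (t : F) ^ 2) =
      ((α ^ 2 + α * β + β ^ 2 : ℤ) : ℚ) ^ relDeg (t : F) := by
    exact_mod_cast h3
  rw [h7, abs_pow] at h5
  have h8 := (pow_eq_one_iff_of_nonneg (abs_nonneg _) (relDeg_pos (t : F)).ne').1 h5
  have h9 : |α ^ 2 + α * β + β ^ 2| = 1 := by exact_mod_cast h8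
  have h10 : 0 ≤ α ^ 2 + α * β + β ^ 2 := by nlinarith [sq_nonneg (α + β), sq_nonneg α, sq_nonneg β]
  rwa [abs_of_nonneg h10] at h9

end

end Pool.Agent.Zagier
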